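import Mathlib

set_option autoImplicit false

/-! Definitions for Saxl's conjecture and the conjecture of Heide, Saxl, Tiep and Zalesskii on `A_n`. Rows, columns and letters are numbered from `0`. -/

namespace Pool.Saxl

open Finset

/-- The value at the word `w` of the polytabloid of the filling `(row, col)`. -/
def pt {Ω : Type} [Fintype Ω] [DecidableEq Ω] (row col : Ω → ℕ) (w : Ω → ℕ) : ℤ :=
  ∑ σ : Equiv.Perm Ω,
    if (∀ x, col (σ x) = col x) ∧ (∀ x, w x = row (σ x)) then (Equiv.Perm.sign σ : ℤ) else 0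

/-- `(row, col)` is a tableau with `lam i` boxes in row `i` (the names of the columns are arbitrary). -/
structure IsTab {Ω : Type} [Fintype Ω] (row col : Ω → ℕ) (lam : ℕ → ℕ) : Prop where
  inj : ∀ x y, row x = row y → col x = col y → x = y
  down : ∀ x, ∀ i, i < row x → ∃ y, col y = col x ∧ row y = i
  card : ∀ i, (univ.filter fun x => row x = i).card = lam i

/-- A tableau whose columns are numbered in the standard way. -/
structure IsStd {Ω : Type} [Fintype Ω] (row col : Ω → ℕ) (lam : ℕ → ℕ) : Prop extends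
    IsTab row col lam where
  lt : ∀ x, col x < lam (row x)

/-- The symmetrised product of three polytabloids, evaluated at three words. -/
def tri {Ω : Type} [Fintype Ω] [DecidableEq Ω] (r1 c1 r2 c2 r3 c3 : Ω → ℕ) (w1 w2 w3 : Ω → ℕ) : ℤ :=
  ∑ g : Equiv.Perm Ω, pt r1 c1 (w1 ∘ g) * pt r2 c2 (w2 ∘ g) * pt r3 c3 (w3 ∘ g)

/-- The Kronecker coefficient of the three shapes is nonzero. -/
def G (lam kap mu : ℕ → ℕ) : Prop :=
  ∃ (n : ℕ) (r1 c1 r2 c2 r3 c3 : Fin n → ℕ), IsTab r1 c1 lam ∧ IsTab r2 c2 kap ∧ IsTab r3 c3 mu ∧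
    ∃ w1 w2 w3 : Fin n → ℕ, tri r1 c1 r2 c2 r3 c3 w1 w2 w3 ≠ 0

/-- `mu` is a partition of `n`. -/
structure IsPart (mu : ℕ → ℕ) (n : ℕ) : Prop where
  anti : Antitone mu
  zero : ∀ i, n ≤ i → mu i = 0
  sum : ∑ i ∈ range n, mu i = n

/-- The conjugate partition. -/
noncomputable def cj (mu : ℕ → ℕ) (j : ℕ) : ℕ := Set.ncard {i | j < mu i}

/-- Sum of the first `s` rows. -/
def area (mu : ℕ → ℕ) (s : ℕ) : ℕ := ∑ i ∈ range s, mu i

/-- The staircase `(k, k-1, …, 1)`. -/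
def rho (k : ℕ) : ℕ → ℕ := fun i => k - i

/-- A strict partition. -/
def Strict (lam : ℕ → ℕ) : Prop := ∀ i, lam (i + 1) < lam i ∨ lam i = 0

/-- `mu / nu` is a horizontal strip. -/
def HStrip (mu nu : ℕ → ℕ) : Prop := ∀ i, nu i ≤ mu i ∧ mu (i + 1) ≤ nu i

/-- `nu ⊆ mu`, and every column of `mu / nu` has at most four boxes. -/
def Skew4 (mu nu : ℕ → ℕ) : Prop := ∀ i, nu i ≤ mu i ∧ mu (i + 4) ≤ nu i

end Pool.Saxl
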