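import Mathlib
import Pool.Agent.Helper139_Saxl.Defs

set_option autoImplicit false

/-! Configurations made of bands. The band `x` has the rows `x, x-1`. -/

namespace Pool.Saxl

open Finset

/-- The ground set of the configuration with bands `L`. -/
def Om : List ℕ → Type
  | [] => Empty
  | x :: L => Fin (2 * x - 1) ⊕ Om L

instance omFintype : (L : List ℕ) → Fintype (Om L)
  | [] => inferInstanceAs (Fintype Empty)
  | x :: L => by
      have := omFintype L
      exact inferInstanceAs (Fintype (Fin (2 * x - 1) ⊕ Om L))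

instance omDecEq : (L : List ℕ) → DecidableEq (Om L)
  | [] => inferInstanceAs (DecidableEq Empty)
  | x :: L => by
      have := omDecEq L
      exact inferInstanceAs (DecidableEq (Fin (2 * x - 1) ⊕ Om L))

/-- rows of both tableaux -/
def omR : (L : List ℕ) → Om L → ℕ
  | _ :: _, Sum.inl s => s.1 % 2
  | _ :: L, Sum.inr y => omR L y + 2

/-- columns of the first tableau -/
def omA : (L : List ℕ) → Om L → ℕ
  | _ :: _, Sum.inl s => s.1 / 2
  | _ :: L, Sum.inr y => omA L y

/-- columns of the second tableau -/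
def omB : (L : List ℕ) → Om L → ℕ
  | x :: _, Sum.inl s => x - 1 - (s.1 + 1) / 2
  | _ :: L, Sum.inr y => omB L y

/-- The shape with rows `x, x-1` for every band `x`. -/
def bandShape : List ℕ → ℕ → ℕ
  | [], _ => 0
  | x :: _, 0 => x
  | x :: _, 1 => x - 1
  | _ :: L, i + 2 => bandShape L i

/-- Number of boxes in the bands. -/
def bandSum : List ℕ → ℕ
  | [] => 0
  | x :: L => (2 * x - 1) + bandSum L

/-- Admissible lists of bands. -/
def Bands : List ℕ → Prop
  | [] => True
  | [x] => 1 ≤ x
  | x :: y :: L => y + 2 ≤ x ∧ Bands (y :: L)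

/-- The special vector of the configuration `L` has a nonzero component of shape `mu`. -/
def PV (L : List ℕ) (mu : ℕ → ℕ) : Prop :=
  ∃ r3 c3 : Om L → ℕ, IsStd r3 c3 mu ∧
    ∃ w1 w2 w3 : Om L → ℕ, tri (omR L) (omA L) (omR L) (omB L) r3 c3 w1 w2 w3 ≠ 0

end Pool.Saxl
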