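import Mathlib
import Pool.Agent.Helper139_Saxl.Defs

set_option autoImplicit false

/-! More definitions. -/

namespace Pool.Saxl

open Finset CategoryTheory
open scoped CategoryTheory.MonoidalCategory

/-- `T` is a partition of `D` into sets of sizes `h i`. -/
def IsPartOf {U : Type} [DecidableEq U] {a : ℕ} (T : Fin a → Finset U) (D : Finset U)
    (h : Fin a → ℕ) : Prop :=
  (∀ i, (T i).card = h i) ∧ (∀ i j, i ≠ j → Disjoint (T i) (T j)) ∧ (univ.biUnion T = D)

/-- sign for taking the elements of `N` out of the column `K` -/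
def sgN {U : Type} [LinearOrder U] (K N : Finset U) : ℤ :=
  ∏ x ∈ K ∩ N, (-1) ^ ((K.filter (· < x)).card)

/-- the rank of `x` in its column -/
def rk {Ω : Type} [Fintype Ω] [LinearOrder Ω] (col : Ω → ℕ) (x : Ω) : ℕ :=
  (univ.filter fun y => col y = col x ∧ y < x).card

/-- the matrix `[[0, 1], [-1, 0]]` -/
def JJ : Matrix (Fin 2) (Fin 2) ℂ := !![0, 1; -1, 0]

/-- `adj X₀ * X₁ * adj X₂ * X₃ * … * adj X₂ₘ` -/
noncomputable def alt : ℕ → (ℕ → Matrix (Fin 2) (Fin 2) ℂ) → Matrix (Fin 2) (Fin 2) ℂ
  | 0, X => (X 0).adjugate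
  | m + 1, X => alt m X * X (2 * m + 1) * (X (2 * m + 2)).adjugate

/-- the four quaternion units, by the residue of `r` modulo `4` -/
noncomputable def qu (r : ℕ) : Matrix (Fin 2) (Fin 2) ℂ :=
  if r % 4 = 0 then 1 else if r % 4 = 1 then !![Complex.I, 0; 0, -Complex.I]
  else if r % 4 = 2 then !![0, 1; -1, 0] else !![0, Complex.I; Complex.I, 0]

/-- functions on words of length `n` in the letters `0, …, n-1` -/
abbrev FW (n : ℕ) : Type := (Fin n → Fin n) → ℂ

/-- the action of the symmetric group by permutation of places -/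
def wact (n : ℕ) : Representation ℂ (Equiv.Perm (Fin n)) (FW n) where
  toFun g :=
    { toFun := fun f w => f (w ∘ g)
      map_add' := fun _ _ => rfl
      map_smul' := fun _ _ => rfl }
  map_one' := rfl
  map_mul' _ _ := rfl

/-- the polytabloid as a function on words -/
def ev {n : ℕ} (row col : Fin n → ℕ) : FW n := fun w => (pt row col (fun x => (w x : ℕ)) : ℂ)

/-- the Specht module -/
def spe (n : ℕ) (lam : ℕ → ℕ) : Submodule ℂ (FW n) :=
  Submodule.span ℂ {f | ∃ row col : Fin n → ℕ, IsTab row col lam ∧ f = ev row col}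

/-- restriction to the alternating group -/
noncomputable def resA (n : ℕ) (V : FDRep ℂ (Equiv.Perm (Fin n))) :
    FDRep ℂ (alternatingGroup (Fin n)) :=
  FDRep.of (V.ρ.comp (alternatingGroup (Fin n)).subtype)

end Pool.Saxl
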