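import Mathlib
import Pool.Agent.Helper139_Saxl.Conf

set_option autoImplicit false

/-! The family of shapes `rho_k + (a + e, a, b, b)`. -/

namespace Pool.Saxl

open Finset

/-- The bands of the staircase. -/
def sBands : ℕ → List ℕ
  | 0 => []
  | 1 => [1]
  | k + 2 => (k + 2) :: sBands k

/-- `rho_k + (a + e, a, b, b)` -/
def lamF (k a e b : ℕ) : ℕ → ℕ := fun i =>
  (k - i) + (if i = 0 then a + e else if i = 1 then a else if i = 2 ∨ i = 3 then b else 0)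

/-- The condition of the flip rule. -/
def FlipC (k a e b : ℕ) (mu : ℕ → ℕ) : Prop :=
  mu 1 + (2 * a + e + 2 * b) ≤ mu 0 ∨
    (k + a + e ≤ mu 0 ∧ 2 * k + (2 * a + e + 2 * b) ≤ mu 0 + mu 1 + 1)

/-- The condition of rule W for `e = 0`. -/
def EvenC (k a b : ℕ) (mu : ℕ → ℕ) : Prop :=
  2 * k + 2 * a ≤ area mu 4 + 1 ∧
    ∀ j, 2 ≤ j → 2 * j ≤ k + 1 → 2 * a + 2 * b + j * (2 * k + 1 - 2 * j) ≤ area mu (4 * j)

/-- The condition of rule W for `e = 1`. -/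
def OddC (k a b : ℕ) (mu : ℕ → ℕ) : Prop :=
  (∀ i, cj mu 1 = i + 1 → mu i + 3 < 2 * k + 2 * a) ∧ mu 0 ≤ 2 * k + 2 * a ∧
    2 * k + 2 * a + 4 ≤ area mu 4 ∧ 9 ≤ area mu 4 ∧
    (∀ j, 2 ≤ j → 2 * j ≤ k + 1 →
      2 * a + 1 + 2 * b + j * (2 * k + 1 - 2 * j) ≤ area mu (4 * j)) ∧
    (∀ j, 2 ≤ j → 2 * j + 1 ≤ k → 4 * j < cj mu 1 + 4 →
      2 * a + 1 + 2 * b + j * (2 * k + 1 - 2 * j) + 1 ≤ area mu (4 * j)) ∧
    (3 ≤ k → cj mu 1 ≤ 4 * ((k + 1) / 2 - 1))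

end Pool.Saxl
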