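import Mathlib
import Pool.Agent.Helper139_Saxl.Defs

set_option autoImplicit false

/-! Job SX-01: polytabloids: relabelling, signs, factorisation over a disjoint union. -/

namespace Pool.Saxl

open Finset

theorem sx01_sum_perm {A B : Type} [Fintype A] [DecidableEq A] [Fintype B] [DecidableEq B]
    {M : Type} [AddCommMonoid M] (f : Equiv.Perm (A ⊕ B) → M)
    (h : ∀ g : Equiv.Perm (A ⊕ B), (¬ ∀ a : A, (g (Sum.inl a)).isLeft = true) → f g = 0) :
    ∑ g : Equiv.Perm (A ⊕ B), f g =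
      ∑ gA : Equiv.Perm A, ∑ gB : Equiv.Perm B, f (Equiv.sumCongr gA gB) := by
  rw [← Fintype.sum_prod_type' (fun gA gB => f (Equiv.sumCongr gA gB))]
  symm
  apply Finset.sum_of_injOn (fun p : Equiv.Perm A × Equiv.Perm B => Equiv.sumCongr p.1 p.2)
  · intro p _ q _ hpq
    exact Equiv.Perm.sumCongrHom_injective (α := A) (β := B) hpq
  · intro p _
    simp
  · intro g _ hg
    apply h
    intro hall
    apply hg
    have hm : Set.MapsTo g (Set.range Sum.inl) (Set.range Sum.inl) := by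
      rintro _ ⟨a, rfl⟩
      have := hall a
      rw [Sum.isLeft_iff] at this
      obtain ⟨y, hy⟩ := this
      exact ⟨y, hy.symm⟩
    have hm' := Equiv.Perm.mem_sumCongrHom_range_of_perm_mapsTo_inl hm
    obtain ⟨p, hp⟩ := hm'
    exact ⟨p, by simp, hp⟩
  · intro p _
    rfl




/-- relabelling the ground set -/
theorem pt_equiv {Ω Ω' : Type} [Fintype Ω] [DecidableEq Ω] [Fintype Ω'] [DecidableEq Ω']
    (f : Ω ≃ Ω') (row col w : Ω' → ℕ) : pt (row ∘ f) (col ∘ f) (w ∘ f) = pt row col w := by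
  unfold pt
  apply Fintype.sum_equiv (Equiv.permCongr f)
  intro σ
  rw [Equiv.Perm.sign_permCongr]
  have h1 : (∀ x, (col ∘ f) (σ x) = (col ∘ f) x) ↔ ∀ x, col ((Equiv.permCongr f σ) x) = col x := by
    constructor
    · intro h x
      have := h (f.symm x)
      simpa using this
    · intro h x
      have := h (f x)
      simpa using this
  have h2 : (∀ x, (w ∘ f) x = (row ∘ f) (σ x)) ↔ ∀ x, w x = row ((Equiv.permCongr f σ) x) := by
    constructor
    · intro h x
      have := h (f.symm x)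
      simpa using this
    · intro h x
      have := h (f x)
      simpa using this
  simp only [h1, h2]

/-- the names of the columns do not matter -/
theorem pt_col {Ω : Type} [Fintype Ω] [DecidableEq Ω] (row col col' w : Ω → ℕ)
    (h : ∀ x y, col x = col y ↔ col' x = col' y) : pt row col w = pt row col' w := by
  unfold pt
  apply Finset.sum_congr rfl
  intro σ _
  simp only [h]

theorem pt_word {Ω : Type} [Fintype Ω] [DecidableEq Ω] (row col w : Ω → ℕ) (σ : Equiv.Perm Ω)
    (h : ∀ x, col (σ x) = col x) : pt row col (w ∘ σ) = (Equiv.Perm.sign σ : ℤ) * pt row col w := by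
  unfold pt
  rw [Finset.mul_sum]
  symm
  apply Fintype.sum_equiv (Equiv.mulRight σ)
  intro τ
  have h1 : (∀ x, col ((Equiv.mulRight σ τ) x) = col x) ↔ ∀ x, col (τ x) = col x := by
    constructor
    · intro h' x
      have h3 := h' (σ.symm x)
      have h4 := h (σ.symm x)
      simp at h3 h4
      rw [h3, h4]
    · intro h' x
      have h3 := h' (σ x)
      simp
      rw [h3, h x]
  have h2 : (∀ x, (w ∘ σ) x = row ((Equiv.mulRight σ τ) x)) ↔ ∀ x, w x = row (τ x) := by
    constructor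
    · intro h' x
      have h3 := h' (σ.symm x)
      simpa using h3
    · intro h' x
      simpa using h' (σ x)
  simp only [h1, h2]
  split_ifs
  · simp [Equiv.Perm.sign_mul, mul_comm]
  · simp

theorem pt_row {Ω : Type} [Fintype Ω] [DecidableEq Ω] (row col w : Ω → ℕ) (σ : Equiv.Perm Ω)
    (h : ∀ x, col (σ x) = col x) : pt (row ∘ σ) col w = (Equiv.Perm.sign σ : ℤ) * pt row col w := by
  unfold pt
  rw [Finset.mul_sum]
  apply Fintype.sum_equiv (Equiv.mulLeft σ)
  intro τ
  have h1 : (∀ x, col ((Equiv.mulLeft σ τ) x) = col x) ↔ ∀ x, col (τ x) = col x := by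
    constructor
    · intro h' x
      have h3 := h' x
      simp only [Equiv.coe_mulLeft, Equiv.Perm.coe_mul, Function.comp_apply, h] at h3
      exact h3
    · intro h' x
      simp only [Equiv.coe_mulLeft, Equiv.Perm.coe_mul, Function.comp_apply, h]
      exact h' x
  have h2 : (∀ x, w x = (row ∘ σ) (τ x)) ↔ ∀ x, w x = row ((Equiv.mulLeft σ τ) x) := by
    constructor
    · intro h' x
      simpa using h' x
    · intro h' x
      simpa using h' x
  have h3 : Equiv.Perm.sign (Equiv.mulLeft σ τ) = Equiv.Perm.sign σ * Equiv.Perm.sign τ := by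
    simp [Equiv.Perm.sign_mul]
  simp only [h1, h2, h3]
  by_cases hc : (∀ x, col (τ x) = col x) ∧ ∀ x, w x = row ((Equiv.mulLeft σ τ) x)
  · rw [if_pos hc, if_pos hc]
    rw [← Units.val_mul, ← mul_assoc, Int.units_mul_self, one_mul]
  · rw [if_neg hc, if_neg hc, mul_zero]

theorem pt_of {Ω : Type} [Fintype Ω] [DecidableEq Ω] (row col : Ω → ℕ)
    (hinj : ∀ x y, row x = row y → col x = col y → x = y) (σ : Equiv.Perm Ω)
    (h : ∀ x, col (σ x) = col x) : pt row col (row ∘ σ) = (Equiv.Perm.sign σ : ℤ) := by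
  unfold pt
  rw [Finset.sum_eq_single σ]
  · rw [if_pos ⟨h, fun x => rfl⟩]
  · intro τ _ hτ
    rw [if_neg]
    rintro ⟨h1, h2⟩
    apply hτ
    ext x
    apply hinj
    · exact (h2 x).symm
    · rw [h1 x, h x]
  · intro h'
    exact absurd (Finset.mem_univ _) h'

theorem exists_of_pt_ne {Ω : Type} [Fintype Ω] [DecidableEq Ω] (row col w : Ω → ℕ)
    (h : pt row col w ≠ 0) : ∃ σ : Equiv.Perm Ω, (∀ x, col (σ x) = col x) ∧ w = row ∘ σ := by
  by_contra hcon
  apply h
  unfold pt
  apply Finset.sum_eq_zero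
  intro σ _
  rw [if_neg]
  rintro ⟨h1, h2⟩
  exact hcon ⟨σ, h1, funext h2⟩

/-- if every contributing permutation preserves the two parts, the polytabloid factors -/
theorem pt_sum {A B : Type} [Fintype A] [DecidableEq A] [Fintype B] [DecidableEq B]
    (rA cA wA : A → ℕ) (rB cB wB : B → ℕ)
    (h : ∀ σ : Equiv.Perm (A ⊕ B), (∀ x, Sum.elim cA cB (σ x) = Sum.elim cA cB x) →
      (∀ x, Sum.elim wA wB x = Sum.elim rA rB (σ x)) → ∀ a : A, (σ (Sum.inl a)).isLeft = true) :
    pt (Sum.elim rA rB) (Sum.elim cA cB) (Sum.elim wA wB) = pt rA cA wA * pt rB cB wB := by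
  unfold pt
  rw [sx01_sum_perm]
  · rw [Finset.sum_mul_sum]
    apply Finset.sum_congr rfl
    intro gA _
    apply Finset.sum_congr rfl
    intro gB _
    have h1 : (∀ x, Sum.elim cA cB ((Equiv.sumCongr gA gB) x) = Sum.elim cA cB x) ↔
        (∀ a, cA (gA a) = cA a) ∧ ∀ b, cB (gB b) = cB b := by
      rw [Sum.forall]; simp
    have h2 : (∀ x, Sum.elim wA wB x = Sum.elim rA rB ((Equiv.sumCongr gA gB) x)) ↔
        (∀ a, wA a = rA (gA a)) ∧ ∀ b, wB b = rB (gB b) := by
      rw [Sum.forall]; simp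
    have h3 : Equiv.Perm.sign (Equiv.sumCongr gA gB) =
        Equiv.Perm.sign gA * Equiv.Perm.sign gB := Equiv.Perm.sign_sumCongr gA gB
    simp only [h1, h2]
    rw [h3]
    by_cases hA : (∀ a, cA (gA a) = cA a) ∧ (∀ a, wA a = rA (gA a))
    · by_cases hB : (∀ b, cB (gB b) = cB b) ∧ ∀ b, wB b = rB (gB b)
      · rw [if_pos ⟨⟨hA.1, hB.1⟩, hA.2, hB.2⟩, if_pos hA, if_pos hB]
        simp
      · rw [if_neg (fun h => hB ⟨h.1.2, h.2.2⟩), if_neg hB, mul_zero]
    · rw [if_neg (fun h => hA ⟨h.1.1, h.2.1⟩), if_neg hA, zero_mul]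
  · intro g hg
    rw [if_neg]
    rintro ⟨h1, h2⟩
    exact hg (h g h1 h2)

theorem sum_perm_sum {A B : Type} [Fintype A] [DecidableEq A] [Fintype B] [DecidableEq B]
    {M : Type} [AddCommMonoid M] (f : Equiv.Perm (A ⊕ B) → M)
    (h : ∀ g : Equiv.Perm (A ⊕ B), (¬ ∀ a : A, (g (Sum.inl a)).isLeft = true) → f g = 0) :
    ∑ g : Equiv.Perm (A ⊕ B), f g =
      ∑ gA : Equiv.Perm A, ∑ gB : Equiv.Perm B, f (Equiv.sumCongr gA gB) :=
  sx01_sum_perm f h

end Pool.Saxl
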