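import Mathlib
import Pool.Agent.Helper139_Saxl.Defs

set_option autoImplicit false

/-! Job SX-07: inclusion matrices have full rank (weighted form). -/

namespace Pool.Saxl

open Finset

open Finset in
theorem sx07_count {U : Type} [DecidableEq U] (Y J K : Finset U) (j s : ℕ)
    (hJ : J ⊆ Y) (hJc : J.card = j) (hK : K ⊆ Y) (hKc : K.card = j) :
    (∑ x ∈ Y \ K, if ((insert x K) ∩ J).card = s then (1 : ℚ) else 0)
      = (if (K ∩ J).card + 1 = s then ((j : ℚ) - (K ∩ J).card) else 0)
        + (if (K ∩ J).card = s then ((Y.card : ℚ) - 2 * j + (K ∩ J).card) else 0) := by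
  have hsplit : Y \ K = (J \ K) ∪ (Y \ (K ∪ J)) := by
    ext x
    simp only [mem_sdiff, mem_union]
    constructor
    · rintro ⟨h1, h2⟩
      by_cases hx : x ∈ J
      · exact Or.inl ⟨hx, h2⟩
      · exact Or.inr ⟨h1, by rintro (h | h) <;> contradiction⟩
    · rintro (⟨h1, h2⟩ | ⟨h1, h2⟩)
      · exact ⟨hJ h1, h2⟩
      · exact ⟨h1, fun h => h2 (Or.inl h)⟩
  have hdisj : Disjoint (J \ K) (Y \ (K ∪ J)) := by
    rw [disjoint_left]
    intro x hx hx'
    simp only [mem_sdiff, mem_union] at hx hx'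
    exact hx'.2 (Or.inr hx.1)
  rw [hsplit, sum_union hdisj]
  have h1 : ∀ x ∈ J \ K, (if ((insert x K) ∩ J).card = s then (1 : ℚ) else 0)
      = if (K ∩ J).card + 1 = s then (1 : ℚ) else 0 := by
    intro x hx
    simp only [mem_sdiff] at hx
    have : (insert x K) ∩ J = insert x (K ∩ J) := by
      rw [insert_inter_of_mem hx.1]
    rw [this, card_insert_of_notMem (by simp [hx.2])]
  have h2 : ∀ x ∈ Y \ (K ∪ J), (if ((insert x K) ∩ J).card = s then (1 : ℚ) else 0)
      = if (K ∩ J).card = s then (1 : ℚ) else 0 := by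
    intro x hx
    simp only [mem_sdiff, mem_union, not_or] at hx
    have : (insert x K) ∩ J = K ∩ J := by
      rw [insert_inter_of_notMem hx.2.2]
    rw [this]
  rw [sum_congr rfl h1, sum_congr rfl h2, sum_const, sum_const]
  have c1 : ((J \ K).card : ℚ) = (j : ℚ) - (K ∩ J).card := by
    have := card_sdiff_add_card_inter J K
    rw [inter_comm] at this
    rw [← hJc, ← this]
    push_cast
    ring
  have c2 : ((Y \ (K ∪ J)).card : ℚ) = (Y.card : ℚ) - 2 * j + (K ∩ J).card := by
    have hsub : K ∪ J ⊆ Y := union_subset hK hJ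
    have e1 := card_sdiff_add_card_eq_card hsub
    have e2 := card_union_add_card_inter K J
    rw [hKc, hJc] at e2
    have e1' : ((Y \ (K ∪ J)).card : ℚ) + ((K ∪ J).card : ℚ) = Y.card := by exact_mod_cast e1
    have e2' : ((K ∪ J).card : ℚ) + ((K ∩ J).card : ℚ) = j + j := by exact_mod_cast e2
    linarith
  simp only [nsmul_eq_mul, mul_ite, mul_one, mul_zero]
  rw [c1, c2]

open Finset in
theorem sx07_swap {U : Type} [DecidableEq U] (Y : Finset U) (j : ℕ) (F : Finset U → U → ℚ) :
    ∑ I ∈ powersetCard (j + 1) Y, ∑ x ∈ I, F I x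
      = ∑ K ∈ powersetCard j Y, ∑ x ∈ Y \ K, F (insert x K) x := by
  rw [sum_sigma', sum_sigma']
  refine sum_bij' (fun p _ => ⟨p.1.erase p.2, p.2⟩) (fun p _ => ⟨insert p.2 p.1, p.2⟩) ?_ ?_ ?_ ?_ ?_
  · rintro ⟨I, x⟩ hp
    simp only [mem_sigma, mem_powersetCard, mem_sdiff] at hp ⊢
    refine ⟨⟨(erase_subset _ _).trans hp.1.1, ?_⟩, hp.1.1 hp.2, notMem_erase _ _⟩
    rw [card_erase_of_mem hp.2, hp.1.2]; rfl
  · rintro ⟨K, x⟩ hp
    simp only [mem_sigma, mem_powersetCard, mem_sdiff] at hp ⊢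
    refine ⟨⟨insert_subset hp.2.1 hp.1.1, ?_⟩, mem_insert_self _ _⟩
    rw [card_insert_of_notMem hp.2.2, hp.1.2]
  · rintro ⟨I, x⟩ hp
    simp only [mem_sigma] at hp
    simp only [insert_erase hp.2]
  · rintro ⟨K, x⟩ hp
    simp only [mem_sigma, mem_sdiff] at hp
    simp only [erase_insert hp.2.2]
  · rintro ⟨I, x⟩ hp
    simp only [mem_sigma] at hp
    simp only [insert_erase hp.2]

open Finset in
theorem sx07_rel {U : Type} [DecidableEq U] (Y : Finset U) (j : ℕ)
    (φ : Finset U → ℚ)
    (h : ∀ I ⊆ Y, I.card = j + 1 → ∑ x ∈ I, φ (I.erase x) = 0)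
    (J : Finset U) (hJ : J ⊆ Y) (hJc : J.card = j) (s : ℕ) :
    ∑ K ∈ powersetCard j Y, φ K *
      ((if (K ∩ J).card + 1 = s then ((j : ℚ) - (K ∩ J).card) else 0)
        + (if (K ∩ J).card = s then ((Y.card : ℚ) - 2 * j + (K ∩ J).card) else 0)) = 0 := by
  have e := sx07_swap Y j (fun I x => if (I ∩ J).card = s then φ (I.erase x) else 0)
  have l0 : ∑ I ∈ powersetCard (j + 1) Y, ∑ x ∈ I,
      (if (I ∩ J).card = s then φ (I.erase x) else 0) = 0 := by
    apply sum_eq_zero
    intro I hI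
    rw [mem_powersetCard] at hI
    by_cases hs : (I ∩ J).card = s
    · simp only [hs, if_true]
      exact h I hI.1 hI.2
    · simp only [hs, if_false, sum_const_zero]
  rw [l0] at e
  refine Eq.trans ?_ e.symm
  apply sum_congr rfl
  intro K hK
  rw [mem_powersetCard] at hK
  rw [← sx07_count Y J K j s hJ hJc hK.1 hK.2, mul_sum]
  apply sum_congr rfl
  intro x hx
  rw [mem_sdiff] at hx
  rw [erase_insert hx.2]
  split_ifs <;> ring

theorem inclusion {U : Type} [DecidableEq U] (Y : Finset U) (j : ℕ) (hY : 2 * j + 1 ≤ Y.card)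
    (φ : Finset U → ℚ)
    (h : ∀ I ⊆ Y, I.card = j + 1 → ∑ x ∈ I, φ (I.erase x) = 0) :
    ∀ J ⊆ Y, J.card = j → φ J = 0 := by
  intro J hJ hJc
  have hrel := sx07_rel Y j φ h J hJ hJc
  let A : ℕ → ℚ := fun s => ∑ K ∈ powersetCard j Y, if (K ∩ J).card = s then φ K else 0
  have hA0 : ((Y.card : ℚ) - 2 * j) * A 0 = 0 := by
    rw [← hrel 0, mul_sum]
    apply sum_congr rfl
    intro K _
    by_cases hk : (K ∩ J).card = 0
    · simp [hk]; ring
    · simp [hk]
  have hAs : ∀ s, ((j : ℚ) - s) * A s + ((Y.card : ℚ) - 2 * j + (s + 1 : ℕ)) * A (s + 1) = 0 := by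
    intro s
    rw [← hrel (s + 1), mul_sum, mul_sum, ← sum_add_distrib]
    apply sum_congr rfl
    intro K _
    by_cases hk : (K ∩ J).card = s
    · have h2 : ¬ ((K ∩ J).card = s + 1) := by omega
      have h3 : (K ∩ J).card + 1 = s + 1 := by omega
      simp only [hk, if_true]
      simp
      ring
    · have h3 : ¬ ((K ∩ J).card + 1 = s + 1) := by omega
      by_cases hk2 : (K ∩ J).card = s + 1
      · simp only [hk2, if_true]
        simp
        ring
      · simp [hk, hk2]
  have hYQ : (2 * j + 1 : ℚ) ≤ Y.card := by exact_mod_cast hY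
  have hz : ∀ s, A s = 0 := by
    intro s
    induction s with
    | zero =>
      rcases mul_eq_zero.mp hA0 with h1 | h1
      · exfalso; linarith
      · exact h1
    | succ s ih =>
      have := hAs s
      rw [ih, mul_zero, zero_add] at this
      rcases mul_eq_zero.mp this with h1 | h1
      · exfalso
        push_cast at h1
        have : (0 : ℚ) ≤ s := by positivity
        linarith
      · exact h1
  have hj := hz j
  have : A j = φ J := by
    show ∑ K ∈ powersetCard j Y, (if (K ∩ J).card = j then φ K else 0) = φ J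
    rw [sum_eq_single J]
    · simp [hJc]
    · intro K hK hne
      rw [mem_powersetCard] at hK
      rw [if_neg]
      intro hc
      apply hne
      have h1 : K ∩ J = K := eq_of_subset_of_card_le inter_subset_left (by rw [hc, hK.2])
      have h2 : K ∩ J = J := eq_of_subset_of_card_le inter_subset_right (by rw [hc, hJc])
      rw [← h1, h2]
    · intro hn
      exfalso
      apply hn
      rw [mem_powersetCard]
      exact ⟨hJ, hJc⟩
  rw [← this, hj]

end Pool.Saxl
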