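import Mathlib
import Pool.Agent.Helper139_Saxl.Defs
import Pool.Agent.Helper139_Saxl.Defs2
import Pool.Agent.Helper139_Saxl.J07

set_option autoImplicit false

/-! Job SX-08: the independence lemma. -/

namespace Pool.Saxl

open Finset

theorem sx08_card_disj {U : Type} [DecidableEq U] {a : ℕ} {T : Fin a → Finset U} {D : Finset U} {h : Fin a → ℕ}
    (hT : IsPartOf T D h) {N : Finset U} (hN : N ⊆ D) (h1 : ∀ i, (N ∩ T i).card = 1) : N.card = a := by
  have e : N = univ.biUnion (fun i => N ∩ T i) := by
    ext x
    constructor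
    · intro hx
      have hxD := hN hx
      rw [← hT.2.2, Finset.mem_biUnion] at hxD
      obtain ⟨i, hi, hxi⟩ := hxD
      exact Finset.mem_biUnion.2 ⟨i, hi, Finset.mem_inter.2 ⟨hx, hxi⟩⟩
    · intro hx
      obtain ⟨i, _, hxi⟩ := Finset.mem_biUnion.1 hx
      exact (Finset.mem_inter.1 hxi).1
  rw [e, Finset.card_biUnion]
  · simp [h1]
  · intro i _ j _ hij
    exact Finset.disjoint_of_subset_left Finset.inter_subset_right
      (Finset.disjoint_of_subset_right Finset.inter_subset_right (hT.2.1 i j hij))

theorem sx08_sdiff {U : Type} [DecidableEq U] {a : ℕ} {T : Fin a → Finset U} {D : Finset U} {h : Fin a → ℕ}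
    (hT : IsPartOf T D h) {N : Finset U} (h1 : ∀ i, (N ∩ T i).card = 1) :
    IsPartOf (fun i => T i \ N) (D \ N) (fun i => h i - 1) := by
  refine ⟨fun i => ?_, fun i j hij => ?_, ?_⟩
  · simp only
    rw [Finset.card_sdiff, hT.1 i, h1 i]
  · exact Finset.disjoint_of_subset_left Finset.sdiff_subset
      (Finset.disjoint_of_subset_right Finset.sdiff_subset (hT.2.1 i j hij))
  · rw [← hT.2.2]
    ext x
    simp only [Finset.mem_biUnion, Finset.mem_sdiff, Finset.mem_univ, true_and]
    constructor
    · rintro ⟨i, hi, hn⟩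
      exact ⟨⟨i, hi⟩, hn⟩
    · rintro ⟨⟨i, hi⟩, hn⟩
      exact ⟨i, hi, hn⟩

theorem sx08_cons {U : Type} [DecidableEq U] {a : ℕ} {h : Fin (a + 1) → ℕ} {T : Fin a → Finset U} {D K : Finset U}
    (hK : K ⊆ D) (hc : K.card = h 0) (hT : IsPartOf T (D \ K) (fun i => h i.succ)) :
    IsPartOf (Fin.cons K T : Fin (a + 1) → Finset U) D h := by
  have hsub : ∀ i, T i ⊆ D \ K := by
    intro i x hx
    rw [← hT.2.2]
    exact Finset.mem_biUnion.2 ⟨i, Finset.mem_univ _, hx⟩
  have hd : ∀ i, Disjoint K (T i) := by
    intro i
    rw [Finset.disjoint_left]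
    intro x hx hx'
    exact (Finset.mem_sdiff.1 (hsub i hx')).2 hx
  refine ⟨?_, ?_, ?_⟩
  · intro i
    refine Fin.cases ?_ (fun i => ?_) i
    · exact hc
    · exact hT.1 i
  · intro i j
    refine Fin.cases ?_ (fun i => ?_) i <;> refine Fin.cases ?_ (fun j => ?_) j
    · intro h0; exact absurd rfl h0
    · intro _; exact hd j
    · intro _; exact (hd i).symm
    · intro hij
      exact hT.2.1 i j (fun e => hij (by rw [e]))
  · ext x
    rw [Finset.mem_biUnion]
    constructor
    · rintro ⟨i, _, hx⟩
      revert hx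
      refine Fin.cases ?_ (fun i => ?_) i
      · intro hx; exact hK hx
      · intro hx; exact (Finset.mem_sdiff.1 (hsub i hx)).1
    · intro hx
      by_cases hxK : x ∈ K
      · exact ⟨0, Finset.mem_univ _, hxK⟩
      · have : x ∈ D \ K := Finset.mem_sdiff.2 ⟨hx, hxK⟩
        rw [← hT.2.2, Finset.mem_biUnion] at this
        obtain ⟨i, _, hi⟩ := this
        exact ⟨i.succ, Finset.mem_univ _, hi⟩

theorem sx08_sgN_singleton {U : Type} [LinearOrder U] {K : Finset U} {x : U} (hx : x ∈ K) :
    sgN K {x} = (-1) ^ ((K.filter (· < x)).card) := by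
  unfold sgN
  rw [Finset.inter_singleton_of_mem hx, Finset.prod_singleton]

theorem sx08_sgN_insert {U : Type} [LinearOrder U] {K M : Finset U} {x : U} (hx : x ∉ K) :
    sgN K (insert x M) = sgN K M := by
  unfold sgN
  rw [Finset.inter_insert_of_notMem hx]

theorem sx08_sgN_insert' {U : Type} [LinearOrder U] {K M : Finset U} {x : U} (hM : Disjoint K M) :
    sgN K (insert x M) = sgN K {x} := by
  unfold sgN
  have : K ∩ insert x M = K ∩ {x} := by
    ext y
    simp only [Finset.mem_inter, Finset.mem_insert, Finset.mem_singleton]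
    constructor
    · rintro ⟨h1, h2 | h2⟩
      · exact ⟨h1, h2⟩
      · exact absurd h2 (Finset.disjoint_left.1 hM h1)
    · rintro ⟨h1, h2⟩
      exact ⟨h1, Or.inl h2⟩
  rw [this]

/-- the sum over the elements of the intersection of the first columns -/
def sx08_W1 {U : Type} [LinearOrder U] {a : ℕ}
    (W : Finset U → (Fin (a + 1) → Finset U) → (Fin (a + 1) → Finset U) → ℚ) (K K' : Finset U)
    (M : Finset U) (R R' : Fin a → Finset U) : ℚ :=
  ∑ x ∈ K ∩ K', ((sgN K {x} : ℤ) : ℚ) * ((sgN K' {x} : ℤ) : ℚ) *
    W (insert x M) (Fin.cons (K.erase x) R) (Fin.cons (K'.erase x) R')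

theorem sx08_step {U : Type} [LinearOrder U] {a : ℕ} {h h' : Fin (a + 1) → ℕ} {D D' : Finset U}
    {W : Finset U → (Fin (a + 1) → Finset U) → (Fin (a + 1) → Finset U) → ℚ}
    (hW : ∀ T T' : Fin (a + 1) → Finset U, IsPartOf T D h → IsPartOf T' D' h' →
      ∑ N ∈ (D ∩ D').powerset.filter (fun N => (∀ i, (N ∩ T i).card = 1) ∧ ∀ i, (N ∩ T' i).card = 1),
        ((∏ i, sgN (T i) N : ℤ) : ℚ) * ((∏ i, sgN (T' i) N : ℤ) : ℚ) *
          W N (fun i => T i \ N) (fun i => T' i \ N) = 0)
    {c : ℕ} (hc : ∀ (N : Finset U) (S S' : Fin (a + 1) → Finset U), N ⊆ D ∩ D' → N.card = a + 1 →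
      IsPartOf S (D \ N) (fun i => h i - 1) → IsPartOf S' (D' \ N) (fun i => h' i - 1) →
      c ≤ (S 0 ∩ S' 0).card → W N S S' = 0)
    {K K' : Finset U} (hK : K ⊆ D) (hK' : K' ⊆ D') (hKc : K.card = h 0) (hKc' : K'.card = h' 0)
    (hKK : (K ∩ K').card = c) (T T' : Fin a → Finset U) (hT : IsPartOf T (D \ K) (fun i => h i.succ))
    (hT' : IsPartOf T' (D' \ K') (fun i => h' i.succ)) :
    ∑ M ∈ ((D \ K) ∩ (D' \ K')).powerset.filter (fun M => (∀ i, (M ∩ T i).card = 1) ∧ ∀ i, (M ∩ T' i).card = 1),
        ((∏ i, sgN (T i) M : ℤ) : ℚ) * ((∏ i, sgN (T' i) M : ℤ) : ℚ) *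
          sx08_W1 W K K' M (fun i => T i \ M) (fun i => T' i \ M) = 0 := by
  have hP := sx08_cons hK hKc hT
  have hP' := sx08_cons hK' hKc' hT'
  have hmain := hW _ _ hP hP'
  have hTsub : ∀ i, T i ⊆ D \ K := by
    intro i x hx
    rw [← hT.2.2]
    exact Finset.mem_biUnion.2 ⟨i, Finset.mem_univ _, hx⟩
  have hTsub' : ∀ i, T' i ⊆ D' \ K' := by
    intro i x hx
    rw [← hT'.2.2]
    exact Finset.mem_biUnion.2 ⟨i, Finset.mem_univ _, hx⟩
  set F := (D ∩ D').powerset.filter (fun N => (∀ i, (N ∩ (Fin.cons K T : Fin (a + 1) → Finset U) i).card = 1) ∧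
    ∀ i, (N ∩ (Fin.cons K' T' : Fin (a + 1) → Finset U) i).card = 1) with hF
  set F1 := ((D \ K) ∩ (D' \ K')).powerset.filter
    (fun M => (∀ i, (M ∩ T i).card = 1) ∧ ∀ i, (M ∩ T' i).card = 1) with hF1
  set f : Finset U → ℚ := fun N => ((∏ i, sgN ((Fin.cons K T : Fin (a + 1) → Finset U) i) N : ℤ) : ℚ) *
    ((∏ i, sgN ((Fin.cons K' T' : Fin (a + 1) → Finset U) i) N : ℤ) : ℚ) *
    W N (fun i => (Fin.cons K T : Fin (a + 1) → Finset U) i \ N) (fun i => (Fin.cons K' T' : Fin (a + 1) → Finset U) i \ N) with hf
  have hmain' : ∑ N ∈ F, f N = 0 := hmain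
  -- terms where the two elements differ vanish
  have hzero : ∀ N ∈ F, ¬ (N ∩ (K ∩ K')).Nonempty → f N = 0 := by
    intro N hN hne
    rw [hF, Finset.mem_filter, Finset.mem_powerset] at hN
    obtain ⟨hsub, hN1, hN2⟩ := hN
    have h0 : N ∩ (K ∩ K') = ∅ := Finset.not_nonempty_iff_eq_empty.1 hne
    have hz := hc N (fun i => (Fin.cons K T : Fin (a + 1) → Finset U) i \ N)
      (fun i => (Fin.cons K' T' : Fin (a + 1) → Finset U) i \ N) hsub
      (sx08_card_disj hP (hsub.trans Finset.inter_subset_left) hN1) (sx08_sdiff hP hN1) (sx08_sdiff hP' hN2) (by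
        have e : ((Fin.cons K T : Fin (a + 1) → Finset U) 0 \ N) ∩ ((Fin.cons K' T' : Fin (a + 1) → Finset U) 0 \ N) = K ∩ K' := by
          simp only [Fin.cons_zero]
          ext x
          simp only [Finset.mem_inter, Finset.mem_sdiff]
          constructor
          · rintro ⟨⟨h1, _⟩, h2, _⟩
            exact ⟨h1, h2⟩
          · rintro ⟨h1, h2⟩
            have : x ∉ N := by
              intro hx
              have : x ∈ N ∩ (K ∩ K') := Finset.mem_inter.2 ⟨hx, Finset.mem_inter.2 ⟨h1, h2⟩⟩
              rw [h0] at this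
              simp at this
            exact ⟨⟨h1, this⟩, h2, this⟩
        rw [e, hKK])
    simp only [hf]
    rw [hz, mul_zero]
  have hsplit : ∑ N ∈ F, f N = ∑ N ∈ F.filter (fun N => (N ∩ (K ∩ K')).Nonempty), f N := by
    rw [← Finset.sum_filter_add_sum_filter_not F (fun N => (N ∩ (K ∩ K')).Nonempty)]
    have : ∑ N ∈ F.filter (fun N => ¬ (N ∩ (K ∩ K')).Nonempty), f N = 0 := by
      refine Finset.sum_eq_zero fun N hN => ?_
      rw [Finset.mem_filter] at hN
      exact hzero N hN.1 hN.2
    rw [this, add_zero]
  have hterm : ∀ M ∈ F1, ∀ x ∈ K ∩ K', ((∏ i, sgN (T i) M : ℤ) : ℚ) * ((∏ i, sgN (T' i) M : ℤ) : ℚ) *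
      (((sgN K {x} : ℤ) : ℚ) * ((sgN K' {x} : ℤ) : ℚ) *
        W (insert x M) (Fin.cons (K.erase x) (fun i => T i \ M)) (Fin.cons (K'.erase x) (fun i => T' i \ M))) =
      f (insert x M) := by
    intro M hM x hx
    rw [hF1, Finset.mem_filter, Finset.mem_powerset] at hM
    obtain ⟨hsub, hM1, hM2⟩ := hM
    rw [Finset.mem_inter] at hx
    have hdK : Disjoint K M := by
      rw [Finset.disjoint_left]
      intro y hy hyM
      have := hsub hyM
      simp only [Finset.mem_inter, Finset.mem_sdiff] at this
      exact this.1.2 hy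
    have hdK' : Disjoint K' M := by
      rw [Finset.disjoint_left]
      intro y hy hyM
      have := hsub hyM
      simp only [Finset.mem_inter, Finset.mem_sdiff] at this
      exact this.2.2 hy
    have hxT : ∀ i, x ∉ T i := fun i hxi => (Finset.mem_sdiff.1 (hTsub i hxi)).2 hx.1
    have hxT' : ∀ i, x ∉ T' i := fun i hxi => (Finset.mem_sdiff.1 (hTsub' i hxi)).2 hx.2
    simp only [hf]
    rw [Fin.prod_univ_succ, Fin.prod_univ_succ]
    simp only [Fin.cons_zero, Fin.cons_succ]
    rw [sx08_sgN_insert' hdK, sx08_sgN_insert' hdK']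
    have e1 : ∀ i, sgN (T i) (insert x M) = sgN (T i) M := fun i => sx08_sgN_insert (hxT i)
    have e2 : ∀ i, sgN (T' i) (insert x M) = sgN (T' i) M := fun i => sx08_sgN_insert (hxT' i)
    simp only [e1, e2]
    have e3 : (fun i => (Fin.cons K T : Fin (a + 1) → Finset U) i \ insert x M) =
        (Fin.cons (K.erase x) (fun i => T i \ M) : Fin (a + 1) → Finset U) := by
      funext i
      refine Fin.cases ?_ (fun i => ?_) i
      · simp only [Fin.cons_zero]
        ext y
        simp only [Finset.mem_sdiff, Finset.mem_insert, Finset.mem_erase, not_or]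
        constructor
        · rintro ⟨h1, h2, _⟩
          exact ⟨h2, h1⟩
        · rintro ⟨h1, h2⟩
          exact ⟨h2, h1, Finset.disjoint_left.1 hdK h2⟩
      · simp only [Fin.cons_succ]
        ext y
        simp only [Finset.mem_sdiff, Finset.mem_insert, not_or]
        constructor
        · rintro ⟨h1, _, h2⟩
          exact ⟨h1, h2⟩
        · rintro ⟨h1, h2⟩
          exact ⟨h1, fun e => hxT i (e ▸ h1), h2⟩
    have e4 : (fun i => (Fin.cons K' T' : Fin (a + 1) → Finset U) i \ insert x M) =
        (Fin.cons (K'.erase x) (fun i => T' i \ M) : Fin (a + 1) → Finset U) := by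
      funext i
      refine Fin.cases ?_ (fun i => ?_) i
      · simp only [Fin.cons_zero]
        ext y
        simp only [Finset.mem_sdiff, Finset.mem_insert, Finset.mem_erase, not_or]
        constructor
        · rintro ⟨h1, h2, _⟩
          exact ⟨h2, h1⟩
        · rintro ⟨h1, h2⟩
          exact ⟨h2, h1, Finset.disjoint_left.1 hdK' h2⟩
      · simp only [Fin.cons_succ]
        ext y
        simp only [Finset.mem_sdiff, Finset.mem_insert, not_or]
        constructor
        · rintro ⟨h1, _, h2⟩
          exact ⟨h1, h2⟩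
        · rintro ⟨h1, h2⟩
          exact ⟨h1, fun e => hxT' i (e ▸ h1), h2⟩
    rw [e3, e4]
    push_cast
    ring
  have hL : ∑ M ∈ F1, ((∏ i, sgN (T i) M : ℤ) : ℚ) * ((∏ i, sgN (T' i) M : ℤ) : ℚ) *
          sx08_W1 W K K' M (fun i => T i \ M) (fun i => T' i \ M) =
      ∑ p ∈ F1 ×ˢ (K ∩ K'), f (insert p.2 p.1) := by
    rw [Finset.sum_product]
    refine Finset.sum_congr rfl fun M hM => ?_
    unfold sx08_W1
    rw [Finset.mul_sum]
    exact Finset.sum_congr rfl fun x hx => hterm M hM x hx
  rw [hL, ← hmain', hsplit]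
  have hcap : ∀ M ∈ F1, ∀ x ∈ K ∩ K', insert x M ∩ K = {x} ∧ insert x M ∩ K' = {x} := by
    intro M hM x hx
    rw [hF1, Finset.mem_filter, Finset.mem_powerset] at hM
    obtain ⟨hsub, _, _⟩ := hM
    rw [Finset.mem_inter] at hx
    constructor
    · ext y
      simp only [Finset.mem_inter, Finset.mem_insert, Finset.mem_singleton]
      constructor
      · rintro ⟨h1 | h1, h2⟩
        · exact h1
        · have := hsub h1
          simp only [Finset.mem_inter, Finset.mem_sdiff] at this
          exact absurd h2 this.1.2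
      · rintro rfl
        exact ⟨Or.inl rfl, hx.1⟩
    · ext y
      simp only [Finset.mem_inter, Finset.mem_insert, Finset.mem_singleton]
      constructor
      · rintro ⟨h1 | h1, h2⟩
        · exact h1
        · have := hsub h1
          simp only [Finset.mem_inter, Finset.mem_sdiff] at this
          exact absurd h2 this.2.2
      · rintro rfl
        exact ⟨Or.inl rfl, hx.2⟩
  refine Finset.sum_nbij (fun p => insert p.2 p.1) ?_ ?_ ?_ (fun _ _ => rfl)
  · rintro ⟨M, x⟩ hp
    rw [Finset.mem_product] at hp
    obtain ⟨hM, hx⟩ := hp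
    have hM : M ∈ F1 := hM
    have hx : x ∈ K ∩ K' := hx
    have hcp := hcap M hM x hx
    rw [hF1, Finset.mem_filter, Finset.mem_powerset] at hM
    obtain ⟨hsub, hM1, hM2⟩ := hM
    have hx' := Finset.mem_inter.1 hx
    have hxT : ∀ i, x ∉ T i := fun i hxi => (Finset.mem_sdiff.1 (hTsub i hxi)).2 hx'.1
    have hxT' : ∀ i, x ∉ T' i := fun i hxi => (Finset.mem_sdiff.1 (hTsub' i hxi)).2 hx'.2
    rw [Finset.mem_filter, hF, Finset.mem_filter, Finset.mem_powerset]
    refine ⟨⟨?_, ?_, ?_⟩, ?_⟩
    · intro y hy
      rcases Finset.mem_insert.1 hy with rfl | hy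
      · exact Finset.mem_inter.2 ⟨hK hx'.1, hK' hx'.2⟩
      · have := hsub hy
        simp only [Finset.mem_inter, Finset.mem_sdiff] at this
        exact Finset.mem_inter.2 ⟨this.1.1, this.2.1⟩
    · intro i
      refine Fin.cases ?_ (fun i => ?_) i
      · simp only [Fin.cons_zero]
        rw [hcp.1, Finset.card_singleton]
      · simp only [Fin.cons_succ]
        rw [Finset.insert_inter_of_notMem (hxT i)]
        exact hM1 i
    · intro i
      refine Fin.cases ?_ (fun i => ?_) i
      · simp only [Fin.cons_zero]
        rw [hcp.2, Finset.card_singleton]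
      · simp only [Fin.cons_succ]
        rw [Finset.insert_inter_of_notMem (hxT' i)]
        exact hM2 i
    · exact ⟨x, Finset.mem_inter.2 ⟨Finset.mem_insert_self _ _, hx⟩⟩
  · rintro ⟨M, x⟩ hp ⟨M', x'⟩ hp' he
    rw [Finset.mem_coe, Finset.mem_product] at hp hp'
    simp only at hp hp' he
    have c1 := (hcap M hp.1 x hp.2).1
    have c2 := (hcap M' hp'.1 x' hp'.2).1
    rw [he] at c1
    have hxx : x = x' := by
      have := c1.symm.trans c2
      exact Finset.singleton_injective this
    subst hxx
    have hxM : x ∉ M := by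
      intro hxM
      have := hp.1
      rw [hF1, Finset.mem_filter, Finset.mem_powerset] at this
      have h3 := this.1 hxM
      simp only [Finset.mem_inter, Finset.mem_sdiff] at h3
      exact h3.1.2 (Finset.mem_inter.1 hp.2).1
    have hxM' : x ∉ M' := by
      intro hxM
      have := hp'.1
      rw [hF1, Finset.mem_filter, Finset.mem_powerset] at this
      have h3 := this.1 hxM
      simp only [Finset.mem_inter, Finset.mem_sdiff] at h3
      exact h3.1.2 (Finset.mem_inter.1 hp.2).1
    have hMM : M = M' := by
      rw [← Finset.erase_insert hxM, he, Finset.erase_insert hxM']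
    rw [hMM]
  · intro N hN
    rw [Finset.mem_coe, Finset.mem_filter] at hN
    obtain ⟨hN, x, hx⟩ := hN
    rw [hF, Finset.mem_filter, Finset.mem_powerset] at hN
    obtain ⟨hsub, hN1, hN2⟩ := hN
    rw [Finset.mem_inter, Finset.mem_inter] at hx
    obtain ⟨hxN, hxK, hxK'⟩ := hx
    have c1 := hN1 0
    have c2 := hN2 0
    simp only [Fin.cons_zero] at c1 c2
    have hxT : ∀ i, x ∉ T i := fun i hxi => (Finset.mem_sdiff.1 (hTsub i hxi)).2 hxK
    have hxT' : ∀ i, x ∉ T' i := fun i hxi => (Finset.mem_sdiff.1 (hTsub' i hxi)).2 hxK'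
    have u1 : ∀ y ∈ N, y ∈ K → y = x := by
      intro y hy hyK
      exact Finset.card_le_one.1 c1.le y (Finset.mem_inter.2 ⟨hy, hyK⟩) x (Finset.mem_inter.2 ⟨hxN, hxK⟩)
    have u2 : ∀ y ∈ N, y ∈ K' → y = x := by
      intro y hy hyK
      exact Finset.card_le_one.1 c2.le y (Finset.mem_inter.2 ⟨hy, hyK⟩) x (Finset.mem_inter.2 ⟨hxN, hxK'⟩)
    refine ⟨(N.erase x, x), ?_, Finset.insert_erase hxN⟩
    rw [Finset.mem_coe, Finset.mem_product]
    refine ⟨?_, Finset.mem_inter.2 ⟨hxK, hxK'⟩⟩
    rw [hF1, Finset.mem_filter, Finset.mem_powerset]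
    refine ⟨?_, ?_, ?_⟩
    · intro y hy
      rw [Finset.mem_erase] at hy
      have := Finset.mem_inter.1 (hsub hy.2)
      exact Finset.mem_inter.2 ⟨Finset.mem_sdiff.2 ⟨this.1, fun h => hy.1 (u1 y hy.2 h)⟩,
        Finset.mem_sdiff.2 ⟨this.2, fun h => hy.1 (u2 y hy.2 h)⟩⟩
    · intro i
      have := hN1 i.succ
      simp only [Fin.cons_succ] at this
      rw [← this]
      congr 1
      ext y
      simp only [Finset.mem_inter, Finset.mem_erase]
      constructor
      · rintro ⟨⟨_, h1⟩, h2⟩
        exact ⟨h1, h2⟩
      · rintro ⟨h1, h2⟩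
        exact ⟨⟨fun e => hxT i (e ▸ h2), h1⟩, h2⟩
    · intro i
      have := hN2 i.succ
      simp only [Fin.cons_succ] at this
      rw [← this]
      congr 1
      ext y
      simp only [Finset.mem_inter, Finset.mem_erase]
      constructor
      · rintro ⟨⟨_, h1⟩, h2⟩
        exact ⟨h1, h2⟩
      · rintro ⟨h1, h2⟩
        exact ⟨⟨fun e => hxT' i (e ▸ h2), h1⟩, h2⟩

theorem sx08_tail {U : Type} [DecidableEq U] {a : ℕ} {h : Fin (a + 1) → ℕ} {S : Fin (a + 1) → Finset U} {D D1 : Finset U}
    (hS : IsPartOf S D h) (hD : D \ S 0 = D1) : IsPartOf (fun i => S (Fin.succ i)) D1 (fun i => h i.succ) := by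
  refine ⟨fun i => hS.1 i.succ, fun i j hij => hS.2.1 _ _ (fun e => hij (Fin.succ_injective _ e)), ?_⟩
  rw [← hD, ← hS.2.2]
  ext x
  simp only [Finset.mem_biUnion, Finset.mem_univ, true_and, Finset.mem_sdiff]
  constructor
  · rintro ⟨i, hi⟩
    refine ⟨⟨i.succ, hi⟩, ?_⟩
    exact Finset.disjoint_left.1 (hS.2.1 i.succ 0 (Fin.succ_ne_zero i)) hi
  · rintro ⟨⟨i, hi⟩, hn⟩
    revert hi
    refine Fin.cases ?_ (fun i => ?_) i
    · intro hi; exact absurd hi hn
    · intro hi; exact ⟨i, hi⟩

theorem sx08_main {U : Type} [LinearOrder U] (a : ℕ) : ∀ (h h' : Fin a → ℕ), (∀ i, 1 ≤ h i) →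
    (∀ i, 1 ≤ h' i) → (∀ i : Fin a, min (h i) (h' i) ≤ a - i.1) → ∀ (D D' : Finset U)
    (W : Finset U → (Fin a → Finset U) → (Fin a → Finset U) → ℚ),
    (∀ T T' : Fin a → Finset U, IsPartOf T D h → IsPartOf T' D' h' →
      ∑ N ∈ (D ∩ D').powerset.filter (fun N => (∀ i, (N ∩ T i).card = 1) ∧ ∀ i, (N ∩ T' i).card = 1),
        ((∏ i, sgN (T i) N : ℤ) : ℚ) * ((∏ i, sgN (T' i) N : ℤ) : ℚ) *
          W N (fun i => T i \ N) (fun i => T' i \ N) = 0) →
    ∀ (N : Finset U) (S S' : Fin a → Finset U), N ⊆ D ∩ D' → N.card = a →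
      IsPartOf S (D \ N) (fun i => h i - 1) → IsPartOf S' (D' \ N) (fun i => h' i - 1) →
      W N S S' = 0 := by
  induction a with
  | zero =>
    intro h h' _ _ _ D D' W hW N S S' hN hNc hS hS'
    have hN0 : N = ∅ := Finset.card_eq_zero.1 hNc
    subst hN0
    have hD : D = ∅ := by
      have := hS.2.2
      simpa using this.symm
    have hD' : D' = ∅ := by
      have := hS'.2.2
      simpa using this.symm
    subst hD hD'
    have h1 := hW S S' ⟨fun i => i.elim0, fun i => i.elim0, by simp⟩ ⟨fun i => i.elim0, fun i => i.elim0, by simp⟩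
    have e : ((∅ : Finset U) ∩ ∅).powerset.filter (fun N => (∀ i : Fin 0, (N ∩ S i).card = 1) ∧ ∀ i : Fin 0, (N ∩ S' i).card = 1) =
        {∅} := by
      ext M
      simp
    rw [e, Finset.sum_singleton] at h1
    have e1 : (fun i => S i \ (∅ : Finset U)) = S := by funext i; exact i.elim0
    have e2 : (fun i => S' i \ (∅ : Finset U)) = S' := by funext i; exact i.elim0
    rw [e1, e2] at h1
    simpa using h1
  | succ a ih =>
    intro h h' h1 h1' hmin D D' W hW
    have key : ∀ k : ℕ, ∀ (N : Finset U) (S S' : Fin (a + 1) → Finset U), N ⊆ D ∩ D' → N.card = a + 1 →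
      IsPartOf S (D \ N) (fun i => h i - 1) → IsPartOf S' (D' \ N) (fun i => h' i - 1) →
      min (h 0) (h' 0) ≤ (S 0 ∩ S' 0).card + k → W N S S' = 0 := by
      intro k
      induction k with
      | zero =>
        intro N S S' _ _ hS hS' hk
        exfalso
        have c1 : (S 0 ∩ S' 0).card ≤ (S 0).card := Finset.card_le_card Finset.inter_subset_left
        have c2 : (S 0 ∩ S' 0).card ≤ (S' 0).card := Finset.card_le_card Finset.inter_subset_right
        have c3 := hS.1 0
        have c4 := hS'.1 0
        have c5 := h1 0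
        have c6 := h1' 0
        simp only at c3 c4
        omega
      | succ k ihk =>
        intro N S S' hN hNc hS hS' hk
        by_cases hk' : min (h 0) (h' 0) ≤ (S 0 ∩ S' 0).card + k
        · exact ihk N S S' hN hNc hS hS' hk'
        have hkk : min (h 0) (h' 0) = (S 0 ∩ S' 0).card + 1 + k := by omega
        set J := S 0 ∩ S' 0 with hJ
        set j := J.card with hj
        set B := S 0 \ J with hB
        set B' := S' 0 \ J with hB'
        set Y := N ∪ J with hY
        set R : Fin a → Finset U := fun i => S i.succ with hR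
        set R' : Fin a → Finset U := fun i => S' i.succ with hR'
        have hSsub : ∀ i, S i ⊆ D \ N := by
          intro i x hx
          rw [← hS.2.2]
          exact Finset.mem_biUnion.2 ⟨i, Finset.mem_univ _, hx⟩
        have hSsub' : ∀ i, S' i ⊆ D' \ N := by
          intro i x hx
          rw [← hS'.2.2]
          exact Finset.mem_biUnion.2 ⟨i, Finset.mem_univ _, hx⟩
        have hJS : J ⊆ S 0 := Finset.inter_subset_left
        have hJS' : J ⊆ S' 0 := Finset.inter_subset_right
        have hSN : Disjoint (S 0) N := by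
          rw [Finset.disjoint_left]
          exact fun x hx => (Finset.mem_sdiff.1 (hSsub 0 hx)).2
        have hSN' : Disjoint (S' 0) N := by
          rw [Finset.disjoint_left]
          exact fun x hx => (Finset.mem_sdiff.1 (hSsub' 0 hx)).2
        have hJN : Disjoint N J := (Finset.disjoint_of_subset_left hJS hSN).symm
        have hBY : Disjoint B Y := by
          rw [hY, Finset.disjoint_union_right]
          exact ⟨Finset.disjoint_of_subset_left Finset.sdiff_subset hSN, Finset.sdiff_disjoint⟩
        have hBY' : Disjoint B' Y := by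
          rw [hY, Finset.disjoint_union_right]
          exact ⟨Finset.disjoint_of_subset_left Finset.sdiff_subset hSN', Finset.sdiff_disjoint⟩
        have hBB' : Disjoint B B' := by
          rw [Finset.disjoint_left]
          intro x hx hx'
          rw [hB, Finset.mem_sdiff] at hx
          rw [hB', Finset.mem_sdiff] at hx'
          exact hx.2 (Finset.mem_inter.2 ⟨hx.1, hx'.1⟩)
        have hYc : Y.card = a + 1 + j := by
          rw [hY, Finset.card_union_of_disjoint hJN, hNc]
        have hBJ : B ∪ J = S 0 := Finset.sdiff_union_of_subset hJS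
        have hBJ' : B' ∪ J = S' 0 := Finset.sdiff_union_of_subset hJS'
        have hBc : B.card + j + 1 = h 0 := by
          have c1 := hS.1 0
          have c2 : (B ∪ J).card = B.card + J.card := Finset.card_union_of_disjoint Finset.sdiff_disjoint
          rw [hBJ] at c2
          have c3 := h1 0
          simp only at c1
          omega
        have hBc' : B'.card + j + 1 = h' 0 := by
          have c1 := hS'.1 0
          have c2 : (B' ∪ J).card = B'.card + J.card := Finset.card_union_of_disjoint Finset.sdiff_disjoint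
          rw [hBJ'] at c2
          have c3 := h1' 0
          simp only at c1
          omega
        have hYD : Y ⊆ D ∩ D' := by
          rw [hY]
          refine Finset.union_subset hN ?_
          intro x hx
          exact Finset.mem_inter.2 ⟨(Finset.mem_sdiff.1 (hSsub 0 (hJS hx))).1, (Finset.mem_sdiff.1 (hSsub' 0 (hJS' hx))).1⟩
        have hBD : B ⊆ D := fun x hx => (Finset.mem_sdiff.1 (hSsub 0 (Finset.sdiff_subset hx))).1
        have hBD' : B' ⊆ D' := fun x hx => (Finset.mem_sdiff.1 (hSsub' 0 (Finset.sdiff_subset hx))).1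
        let η : U → ℚ := fun x => (-1) ^ ((B.filter (· < x)).card + (B'.filter (· < x)).card)
        have hη : ∀ x, η x * η x = 1 := by
          intro x
          simp only [η]
          rw [← pow_add, ← two_mul, pow_mul]
          norm_num
        let φ : Finset U → ℚ := fun J1 => (∏ x ∈ J1, η x) *
          W (Y \ J1) (Fin.cons (B ∪ J1) R) (Fin.cons (B' ∪ J1) R')
        have hφ : ∀ I ⊆ Y, I.card = j + 1 → ∑ x ∈ I, φ (I.erase x) = 0 := by
          intro I hI hIc
          have hBI : Disjoint B I := Finset.disjoint_of_subset_right hI hBY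
          have hBI' : Disjoint B' I := Finset.disjoint_of_subset_right hI hBY'
          set K := B ∪ I with hK
          set K' := B' ∪ I with hK'
          have hKK : K ∩ K' = I := by
            ext x
            simp only [hK, hK', Finset.mem_inter, Finset.mem_union]
            constructor
            · rintro ⟨h1 | h1, h2 | h2⟩
              · exact absurd h2 (Finset.disjoint_left.1 hBB' h1)
              · exact h2
              · exact h1
              · exact h1
            · intro h1
              exact ⟨Or.inr h1, Or.inr h1⟩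
          have hKD : K ⊆ D := Finset.union_subset hBD (fun x hx => (Finset.mem_inter.1 (hYD (hI hx))).1)
          have hKD' : K' ⊆ D' := Finset.union_subset hBD' (fun x hx => (Finset.mem_inter.1 (hYD (hI hx))).2)
          have hKc : K.card = h 0 := by
            rw [hK, Finset.card_union_of_disjoint hBI, hIc]; omega
          have hKc' : K'.card = h' 0 := by
            rw [hK', Finset.card_union_of_disjoint hBI', hIc]; omega
          have hstep := sx08_step hW (c := j + 1) (fun N S S' a1 a2 a3 a4 a5 => ihk N S S' a1 a2 a3 a4 (by omega))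
            hKD hKD' hKc hKc' (by rw [hKK, hIc])
          have hind := ih (fun i => h i.succ) (fun i => h' i.succ) (fun i => h1 _) (fun i => h1' _)
            (fun i => by
              have := hmin i.succ
              simp only [Fin.val_succ] at this
              omega) (D \ K) (D' \ K') (sx08_W1 W K K') hstep (Y \ I) R R' ?_ ?_ ?_ ?_
          · -- use the relation
            unfold sx08_W1 at hind
            rw [hKK] at hind
            have hrel : ∀ x ∈ I, φ (I.erase x) = (∏ y ∈ I, η y) * (((sgN K {x} : ℤ) : ℚ) * ((sgN K' {x} : ℤ) : ℚ) *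
                W (insert x (Y \ I)) (Fin.cons (K.erase x) R) (Fin.cons (K'.erase x) R')) := by
              intro x hx
              have hxB : x ∉ B := fun hx' => Finset.disjoint_left.1 hBI hx' hx
              have hxB' : x ∉ B' := fun hx' => Finset.disjoint_left.1 hBI' hx' hx
              have e1 : insert x (Y \ I) = Y \ I.erase x := by
                ext y
                simp only [Finset.mem_insert, Finset.mem_sdiff, Finset.mem_erase, not_and, not_not]
                constructor
                · rintro (rfl | ⟨h1, h2⟩)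
                  · exact ⟨hI hx, fun h => absurd rfl h⟩
                  · exact ⟨h1, fun _ h => absurd h h2⟩
                · rintro ⟨h1, h2⟩
                  by_cases hyx : y = x
                  · exact Or.inl hyx
                  · exact Or.inr ⟨h1, h2 hyx⟩
              have e2 : K.erase x = B ∪ I.erase x := by
                ext y
                simp only [hK, Finset.mem_erase, Finset.mem_union]
                constructor
                · rintro ⟨h1, h2 | h2⟩
                  · exact Or.inl h2
                  · exact Or.inr ⟨h1, h2⟩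
                · rintro (h2 | ⟨h1, h2⟩)
                  · exact ⟨fun e => hxB (e ▸ h2), Or.inl h2⟩
                  · exact ⟨h1, Or.inr h2⟩
              have e3 : K'.erase x = B' ∪ I.erase x := by
                ext y
                simp only [hK', Finset.mem_erase, Finset.mem_union]
                constructor
                · rintro ⟨h1, h2 | h2⟩
                  · exact Or.inl h2
                  · exact Or.inr ⟨h1, h2⟩
                · rintro (h2 | ⟨h1, h2⟩)
                  · exact ⟨fun e => hxB' (e ▸ h2), Or.inl h2⟩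
                  · exact ⟨h1, Or.inr h2⟩
              have e4 : ((sgN K {x} : ℤ) : ℚ) * ((sgN K' {x} : ℤ) : ℚ) = η x := by
                rw [sx08_sgN_singleton (Finset.mem_union_right _ hx), sx08_sgN_singleton (Finset.mem_union_right _ hx)]
                have f1 : (K.filter (· < x)).card = (B.filter (· < x)).card + (I.filter (· < x)).card := by
                  rw [hK, Finset.filter_union, Finset.card_union_of_disjoint]
                  exact Finset.disjoint_filter_filter hBI
                have f2 : (K'.filter (· < x)).card = (B'.filter (· < x)).card + (I.filter (· < x)).card := by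
                  rw [hK', Finset.filter_union, Finset.card_union_of_disjoint]
                  exact Finset.disjoint_filter_filter hBI'
                rw [f1, f2]
                simp only [η]
                push_cast
                rw [← pow_add]
                have f3 : (B.filter (· < x)).card + (I.filter (· < x)).card + ((B'.filter (· < x)).card + (I.filter (· < x)).card) =
                    (B.filter (· < x)).card + (B'.filter (· < x)).card + 2 * (I.filter (· < x)).card := by ring
                rw [f3, pow_add, pow_mul]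
                norm_num
              rw [e4, e1, e2, e3]
              simp only [φ]
              rw [← Finset.mul_prod_erase I η hx]
              have := hη x
              calc _ = (∏ y ∈ I.erase x, η y) * W (Y \ I.erase x) (Fin.cons (B ∪ I.erase x) R) (Fin.cons (B' ∪ I.erase x) R') := rfl
                _ = (η x * η x) * ((∏ y ∈ I.erase x, η y) * W (Y \ I.erase x) (Fin.cons (B ∪ I.erase x) R) (Fin.cons (B' ∪ I.erase x) R')) := by
                  rw [this, one_mul]
                _ = _ := by ring
            rw [Finset.sum_congr rfl hrel, ← Finset.mul_sum, hind, mul_zero]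
          · intro x hx
            rw [Finset.mem_sdiff] at hx
            have h3 := Finset.mem_inter.1 (hYD hx.1)
            refine Finset.mem_inter.2 ⟨Finset.mem_sdiff.2 ⟨h3.1, ?_⟩, Finset.mem_sdiff.2 ⟨h3.2, ?_⟩⟩
            · intro hxK
              rcases Finset.mem_union.1 hxK with h4 | h4
              · exact Finset.disjoint_left.1 hBY h4 hx.1
              · exact hx.2 h4
            · intro hxK
              rcases Finset.mem_union.1 hxK with h4 | h4
              · exact Finset.disjoint_left.1 hBY' h4 hx.1
              · exact hx.2 h4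
          · rw [Finset.card_sdiff_of_subset hI, hYc, hIc]
            omega
          · refine sx08_tail hS ?_
            ext x
            rw [← hBJ]
            simp only [hK, hY, Finset.mem_sdiff, Finset.mem_union, not_or, not_and, not_not]
            constructor
            · rintro ⟨⟨h1, h2⟩, h3, h4⟩
              have hxY : x ∉ Y := by
                rw [hY, Finset.mem_union, not_or]
                exact ⟨h2, h4⟩
              refine ⟨⟨h1, h3, fun h => hxY (hI h)⟩, ?_⟩
              rintro (h | h)
              · exact absurd h h2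
              · exact absurd h h4
            · rintro ⟨⟨h1, h2, h3⟩, h4⟩
              refine ⟨⟨h1, fun h => h3 (h4 (Or.inl h))⟩, h2, fun h => h3 (h4 (Or.inr h))⟩
          · refine sx08_tail hS' ?_
            ext x
            rw [← hBJ']
            simp only [hK', hY, Finset.mem_sdiff, Finset.mem_union, not_or, not_and, not_not]
            constructor
            · rintro ⟨⟨h1, h2⟩, h3, h4⟩
              have hxY : x ∉ Y := by
                rw [hY, Finset.mem_union, not_or]
                exact ⟨h2, h4⟩
              refine ⟨⟨h1, h3, fun h => hxY (hI h)⟩, ?_⟩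
              rintro (h | h)
              · exact absurd h h2
              · exact absurd h h4
            · rintro ⟨⟨h1, h2, h3⟩, h4⟩
              refine ⟨⟨h1, fun h => h3 (h4 (Or.inl h))⟩, h2, fun h => h3 (h4 (Or.inr h))⟩
        have hja : 2 * j + 1 ≤ Y.card := by
          rw [hYc]
          have := hmin 0
          simp only [Fin.val_zero] at this
          omega
        have hfin := inclusion Y j hja φ hφ J Finset.subset_union_right rfl
        simp only [φ] at hfin
        have hprod : (∏ x ∈ J, η x) * (∏ x ∈ J, η x) = 1 := by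
          rw [← Finset.prod_mul_distrib]
          exact Finset.prod_eq_one (fun x _ => hη x)
        have e1 : Y \ J = N := by
          rw [hY, Finset.union_sdiff_right]
          exact Finset.sdiff_eq_self_of_disjoint hJN
        have e2 : (Fin.cons (B ∪ J) R : Fin (a + 1) → Finset U) = S := by
          rw [hBJ]
          funext i
          refine Fin.cases ?_ (fun i => ?_) i
          · rfl
          · rfl
        have e3 : (Fin.cons (B' ∪ J) R' : Fin (a + 1) → Finset U) = S' := by
          rw [hBJ']
          funext i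
          refine Fin.cases ?_ (fun i => ?_) i
          · rfl
          · rfl
        rw [e1, e2, e3] at hfin
        calc W N S S' = (∏ x ∈ J, η x) * ((∏ x ∈ J, η x) * W N S S') := by rw [← mul_assoc, hprod, one_mul]
          _ = 0 := by rw [hfin, mul_zero]
    intro N S S' hN hNc hS hS'
    exact key (min (h 0) (h' 0)) N S S' hN hNc hS hS' (Nat.le_add_left _ _)

theorem indep {U : Type} [LinearOrder U] (a : ℕ) (h h' : Fin a → ℕ) (h1 : ∀ i, 1 ≤ h i)
    (h1' : ∀ i, 1 ≤ h' i) (hmin : ∀ i : Fin a, min (h i) (h' i) ≤ a - i.1) (D D' : Finset U)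
    (W : Finset U → (Fin a → Finset U) → (Fin a → Finset U) → ℚ)
    (hW : ∀ T T' : Fin a → Finset U, IsPartOf T D h → IsPartOf T' D' h' →
      ∑ N ∈ (D ∩ D').powerset.filter (fun N => (∀ i, (N ∩ T i).card = 1) ∧ ∀ i, (N ∩ T' i).card = 1),
        ((∏ i, sgN (T i) N : ℤ) : ℚ) * ((∏ i, sgN (T' i) N : ℤ) : ℚ) *
          W N (fun i => T i \ N) (fun i => T' i \ N) = 0) :
    ∀ (N : Finset U) (S S' : Fin a → Finset U), N ⊆ D ∩ D' → N.card = a →
      IsPartOf S (D \ N) (fun i => h i - 1) → IsPartOf S' (D' \ N) (fun i => h' i - 1) →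
      W N S S' = 0 :=
  sx08_main a h h' h1 h1' hmin D D' W hW

end Pool.Saxl
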