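import Mathlib
import Pool.Agent.Helper139_Saxl.Defs
import Pool.Agent.Helper139_Saxl.Defs2
import Pool.Agent.Helper139_Saxl.J01

set_option autoImplicit false

/-! Job SX-09: Laplace expansion of a polytabloid along the first row. -/

namespace Pool.Saxl

open Finset

theorem sx09_rk_lt {Ω : Type} [Fintype Ω] [LinearOrder Ω] (col : Ω → ℕ) {x y : Ω}
    (hc : col y = col x) (h : y < x) : rk col y < rk col x := by
  unfold rk
  refine Finset.card_lt_card ?_
  rw [Finset.ssubset_iff_of_subset]
  · refine ⟨y, ?_, ?_⟩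
    · simp [hc, h]
    · simp
  · intro z hz
    simp only [mem_filter, mem_univ, true_and] at hz ⊢
    exact ⟨hz.1.trans hc, hz.2.trans h⟩

theorem sx09_rk_inj {Ω : Type} [Fintype Ω] [LinearOrder Ω] (col : Ω → ℕ) {x y : Ω}
    (hc : col y = col x) (h : rk col y = rk col x) : y = x := by
  rcases lt_trichotomy y x with h1 | h1 | h1
  · exact absurd h (sx09_rk_lt col hc h1).ne
  · exact h1
  · exact absurd h (sx09_rk_lt col hc.symm h1).ne'

/-- the size of the column -/
def sx09_ht {Ω : Type} [Fintype Ω] (col : Ω → ℕ) (x : Ω) : ℕ :=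
  (univ.filter fun y => col y = col x).card

theorem sx09_rk_lt_ht {Ω : Type} [Fintype Ω] [LinearOrder Ω] (col : Ω → ℕ) (x : Ω) :
    rk col x < sx09_ht col x := by
  unfold rk sx09_ht
  refine Finset.card_lt_card ?_
  rw [Finset.ssubset_iff_of_subset]
  · exact ⟨x, by simp, by simp⟩
  · intro z hz
    simp only [mem_filter, mem_univ, true_and] at hz ⊢
    exact hz.1

theorem sx09_exists_rk {Ω : Type} [Fintype Ω] [LinearOrder Ω] (col : Ω → ℕ) (x : Ω) (i : ℕ)
    (hi : i < sx09_ht col x) : ∃ y, col y = col x ∧ rk col y = i := by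
  have h1 : ((univ.filter fun y => col y = col x).image (rk col)) = range (sx09_ht col x) := by
    refine Finset.eq_of_subset_of_card_le ?_ ?_
    · intro j hj
      obtain ⟨y, hy, rfl⟩ := mem_image.1 hj
      simp only [mem_filter, mem_univ, true_and] at hy
      rw [mem_range]
      have h2 := sx09_rk_lt_ht col y
      have h3 : sx09_ht col y = sx09_ht col x := by
        unfold sx09_ht
        rw [hy]
      rwa [h3] at h2
    · rw [card_range, card_image_of_injOn]
      · exact le_refl _
      · intro a ha b hb hab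
        simp only [coe_filter, mem_univ, true_and, Set.mem_ofPred_eq] at ha hb
        exact sx09_rk_inj col (ha.trans hb.symm) hab
  have h2 : i ∈ range (sx09_ht col x) := mem_range.2 hi
  rw [← h1] at h2
  obtain ⟨y, hy, h3⟩ := mem_image.1 h2
  simp only [mem_filter, mem_univ, true_and] at hy
  exact ⟨y, hy, h3⟩

theorem sx09_row_lt_ht {Ω : Type} [Fintype Ω] (row col : Ω → ℕ)
    (hdown : ∀ x, ∀ i, i < row x → ∃ y, col y = col x ∧ row y = i) (x : Ω) :
    row x < sx09_ht col x := by
  classical
  have h1 : range (row x + 1) ⊆ (univ.filter fun y => col y = col x).image row := by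
    intro i hi
    rw [mem_range] at hi
    rw [mem_image]
    rcases Nat.lt_succ_iff_lt_or_eq.1 hi with h | h
    · obtain ⟨y, h2, h3⟩ := hdown x i h
      exact ⟨y, by simp [h2], h3⟩
    · exact ⟨x, by simp, h.symm⟩
  have h2 := Finset.card_le_card h1
  rw [card_range] at h2
  have h3 : ((univ.filter fun y => col y = col x).image row).card ≤ sx09_ht col x := card_image_le
  omega

/-- the base case -/
theorem sx09_base (n : ℕ) (col : Fin n → ℕ) (N : Finset (Fin n))
    (hN : ∀ x, ∃! y, y ∈ N ∧ col y = col x) (w : Fin n → ℕ) (hw : ∀ x, w x = 0 ↔ x ∈ N)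
    (h0 : ∀ x ∈ N, rk col x = 0) :
    pt (rk col) col w =
      pt (rk fun x : {x // x ∉ N} => col x) (fun x : {x // x ∉ N} => col x)
        (fun x : {x // x ∉ N} => w x - 1) := by
  classical
  -- the ranks outside of N
  have hr : ∀ x : {x // x ∉ N}, rk col x = (rk fun x : {x // x ∉ N} => col x) x + 1 := by
    intro x
    obtain ⟨y0, ⟨hy0, hc0⟩, hu⟩ := hN x
    have hlt : y0 < x := by
      rcases lt_trichotomy y0 (x : Fin n) with h | h | h
      · exact h
      · exact absurd (h ▸ hy0) x.2
      · have h1 := sx09_rk_lt col hc0.symm h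
        rw [h0 y0 hy0] at h1
        exact absurd h1 (Nat.not_lt_zero _)
    unfold rk
    have h2 : (univ.filter fun y : Fin n => col y = col x ∧ y < x) =
        insert y0 ((univ.filter fun y : {x // x ∉ N} => col y = col x ∧ y < x).map
          (Function.Embedding.subtype _)) := by
      ext z
      simp only [mem_filter, mem_univ, true_and, mem_insert, mem_map, Function.Embedding.subtype_apply]
      constructor
      · rintro ⟨h3, h4⟩
        by_cases hz : z ∈ N
        · left
          exact hu z ⟨hz, h3⟩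
        · right
          exact ⟨⟨z, hz⟩, ⟨h3, h4⟩, rfl⟩
      · rintro (rfl | ⟨u, ⟨h3, h4⟩, rfl⟩)
        · exact ⟨hc0, hlt⟩
        · exact ⟨h3, h4⟩
    rw [h2, card_insert_of_notMem, card_map]
    simp only [mem_map, mem_filter, mem_univ, true_and, Function.Embedding.subtype_apply, not_exists, not_and]
    intro u _ h3
    exact u.2 (h3 ▸ hy0)
  -- split
  let f : {x // x ∈ N} ⊕ {x // x ∉ N} ≃ Fin n := Equiv.sumCompl (fun x => x ∈ N)
  rw [← pt_equiv f (rk col) col w]
  have e1 : rk col ∘ f = Sum.elim (fun x : {x // x ∈ N} => rk col x) (fun x : {x // x ∉ N} => rk col x) := by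
    funext z
    rcases z with z | z <;> rfl
  have e2 : col ∘ f = Sum.elim (fun x : {x // x ∈ N} => col x) (fun x : {x // x ∉ N} => col x) := by
    funext z
    rcases z with z | z <;> rfl
  have e3 : w ∘ f = Sum.elim (fun x : {x // x ∈ N} => w x) (fun x : {x // x ∉ N} => w x) := by
    funext z
    rcases z with z | z <;> rfl
  rw [e1, e2, e3, pt_sum]
  · -- the first factor
    have h3 : pt (fun x : {x // x ∈ N} => rk col x) (fun x : {x // x ∈ N} => col x)
        (fun x : {x // x ∈ N} => w x) = 1 := by
      have h4 : (fun x : {x // x ∈ N} => w x) = (fun x : {x // x ∈ N} => rk col x) ∘ (1 : Equiv.Perm {x // x ∈ N}) := by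
        funext z
        show w z = rk col z
        rw [h0 z z.2, (hw z).2 z.2]
      rw [h4, pt_of]
      · simp
      · intro x y _ hxy
        apply Subtype.ext
        obtain ⟨y0, -, hu⟩ := hN x
        rw [hu x ⟨x.2, rfl⟩, hu y ⟨y.2, hxy.symm⟩]
      · intro x
        rfl
    rw [h3, one_mul]
    -- the second factor
    unfold pt
    refine Finset.sum_congr rfl fun σ _ => ?_
    have h5 : (∀ x : {x // x ∉ N}, w x = rk col (σ x : {x // x ∉ N})) ↔
        ∀ x : {x // x ∉ N}, w x - 1 = (rk fun x : {x // x ∉ N} => col x) (σ x) := by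
      refine forall_congr' fun x => ?_
      have h6 : w x ≠ 0 := fun h => x.2 ((hw x).1 h)
      rw [hr (σ x)]
      omega
    simp only [h5]
  · intro σ h3 h4 a
    rcases hz : σ (Sum.inl a) with z | z
    · rfl
    · exfalso
      have h5 := h4 (Sum.inl a)
      rw [hz] at h5
      simp only [Sum.elim_inl, Sum.elim_inr] at h5
      rw [(hw a).2 a.2, hr z] at h5
      omega

theorem sx09_main (n : ℕ) (col : Fin n → ℕ) : ∀ (S : ℕ) (N : Finset (Fin n))
    (_hN : ∀ x, ∃! y, y ∈ N ∧ col y = col x) (w : Fin n → ℕ) (_hw : ∀ x, w x = 0 ↔ x ∈ N),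
    ∑ x ∈ N, rk col x = S →
    pt (rk col) col w = (∏ x ∈ N, (-1 : ℤ) ^ rk col x) *
      pt (rk fun x : {x // x ∉ N} => col x) (fun x : {x // x ∉ N} => col x)
        (fun x : {x // x ∉ N} => w x - 1) := by
  classical
  intro S
  induction S with
  | zero =>
    intro N hN w hw hS
    have h0 : ∀ x ∈ N, rk col x = 0 := fun x hx => (Finset.sum_eq_zero_iff.1 hS) x hx
    rw [sx09_base n col N hN w hw h0, Finset.prod_congr rfl (fun x hx => by rw [h0 x hx, pow_zero])]
    rw [Finset.prod_const_one, one_mul]
  | succ S ih =>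
    intro N hN w hw hS
    obtain ⟨x, hxN, hx0⟩ : ∃ x ∈ N, rk col x ≠ 0 := by
      by_contra h
      push Not at h
      rw [Finset.sum_eq_zero h] at hS
      omega
    -- the neighbour
    have hne : (univ.filter fun y : Fin n => col y = col x ∧ y < x).Nonempty := by
      rw [← Finset.card_pos]
      exact Nat.pos_of_ne_zero hx0
    obtain ⟨y, hyF, hymax⟩ := Finset.exists_max_image _ id hne
    simp only [mem_filter, mem_univ, true_and, id] at hyF hymax
    obtain ⟨hyc, hyx⟩ := hyF
    have hadj : ∀ z : Fin n, col z = col x → (z < x ↔ z ≤ y) := by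
      intro z hz
      constructor
      · intro h
        exact hymax z ⟨hz, h⟩
      · intro h
        exact lt_of_le_of_lt h hyx
    have hyN : y ∉ N := by
      intro h
      obtain ⟨y0, -, hu⟩ := hN x
      have h1 := hu x ⟨hxN, rfl⟩
      have h2 := hu y ⟨h, hyc⟩
      rw [h1, h2] at hyx
      exact lt_irrefl _ hyx
    have hrk : rk col x = rk col y + 1 := by
      unfold rk
      have h1 : (univ.filter fun z : Fin n => col z = col x ∧ z < x) =
          insert y (univ.filter fun z : Fin n => col z = col y ∧ z < y) := by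
        ext z
        simp only [mem_filter, mem_univ, true_and, mem_insert, hyc]
        constructor
        · rintro ⟨h2, h3⟩
          rcases lt_or_eq_of_le ((hadj z h2).1 h3) with h4 | h4
          · exact Or.inr ⟨h2, h4⟩
          · exact Or.inl h4
        · rintro (rfl | ⟨h2, h3⟩)
          · exact ⟨hyc, hyx⟩
          · exact ⟨h2, h3.trans hyx⟩
      rw [h1, card_insert_of_notMem (by simp)]
    have hxy : x ≠ y := fun h => by
      rw [h] at hyx
      exact lt_irrefl _ hyx
    let s : Equiv.Perm (Fin n) := Equiv.swap x y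
    have hsx : s x = y := Equiv.swap_apply_left x y
    have hsy : s y = x := Equiv.swap_apply_right x y
    have hso : ∀ z, z ≠ x → z ≠ y → s z = z := fun z h1 h2 => Equiv.swap_apply_of_ne_of_ne h1 h2
    have hss : ∀ z, s (s z) = z := fun z => Equiv.swap_apply_self x y z
    have hsc : ∀ z, col (s z) = col z := by
      intro z
      by_cases h1 : z = x
      · rw [h1, hsx, hyc]
      · by_cases h2 : z = y
        · rw [h2, hsy, hyc]
        · rw [hso z h1 h2]
    let N' : Finset (Fin n) := N.map s.toEmbedding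
    have hN'm : ∀ z, z ∈ N' ↔ s z ∈ N := by
      intro z
      show z ∈ N.map s.toEmbedding ↔ _
      rw [mem_map]
      constructor
      · rintro ⟨u, hu, rfl⟩
        rw [Equiv.coe_toEmbedding, hss]
        exact hu
      · intro h
        exact ⟨s z, h, by rw [Equiv.coe_toEmbedding, hss]⟩
    have hN' : ∀ z, ∃! u, u ∈ N' ∧ col u = col z := by
      intro z
      obtain ⟨u, ⟨hu1, hu2⟩, hu3⟩ := hN z
      refine ⟨s u, ⟨(hN'm _).2 (by rw [hss]; exact hu1), by rw [hsc]; exact hu2⟩, ?_⟩
      rintro v ⟨hv1, hv2⟩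
      have h1 := hu3 (s v) ⟨(hN'm v).1 hv1, by rw [hsc]; exact hv2⟩
      rw [← h1, hss]
    have hw' : ∀ z, (w ∘ s) z = 0 ↔ z ∈ N' := by
      intro z
      rw [hN'm]
      exact hw (s z)
    have hsum : ∑ z ∈ N', rk col z = S := by
      show ∑ z ∈ N.map s.toEmbedding, rk col z = S
      rw [sum_map]
      simp only [Equiv.coe_toEmbedding]
      rw [← Finset.add_sum_erase N _ hxN] at hS ⊢
      rw [hsx]
      have h1 : ∑ z ∈ N.erase x, rk col (s z) = ∑ z ∈ N.erase x, rk col z := by
        refine Finset.sum_congr rfl fun z hz => ?_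
        rw [mem_erase] at hz
        rw [hso z hz.1 (fun h => hyN (h ▸ hz.2))]
      rw [h1]
      omega
    have hprod : ∏ z ∈ N', (-1 : ℤ) ^ rk col z = - ∏ z ∈ N, (-1 : ℤ) ^ rk col z := by
      show ∏ z ∈ N.map s.toEmbedding, (-1 : ℤ) ^ rk col z = _
      rw [prod_map]
      simp only [Equiv.coe_toEmbedding]
      rw [← Finset.mul_prod_erase N _ hxN, ← Finset.mul_prod_erase N (fun z => (-1 : ℤ) ^ rk col z) hxN]
      rw [hsx, hrk, pow_succ]
      have h1 : ∏ z ∈ N.erase x, (-1 : ℤ) ^ rk col (s z) = ∏ z ∈ N.erase x, (-1 : ℤ) ^ rk col z := by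
        refine Finset.prod_congr rfl fun z hz => ?_
        rw [mem_erase] at hz
        rw [hso z hz.1 (fun h => hyN (h ▸ hz.2))]
      rw [h1]
      ring
    have hIH := ih N' hN' (w ∘ s) hw' hsum
    rw [pt_word (rk col) col w s hsc, Equiv.Perm.sign_swap hxy, hprod] at hIH
    -- the second factor
    let e : {z // z ∉ N} ≃ {z // z ∉ N'} :=
      { toFun := fun z => ⟨s z, by rw [hN'm, hss]; exact z.2⟩
        invFun := fun z => ⟨s z, by rw [← hN'm]; exact z.2⟩
        left_inv := fun z => Subtype.ext (hss z)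
        right_inv := fun z => Subtype.ext (hss z) }
    have he : ∀ z, ((e z : {z // z ∉ N'}) : Fin n) = s z := fun z => rfl
    have hpt := pt_equiv e (rk fun x : {x // x ∉ N'} => col x) (fun x : {x // x ∉ N'} => col x)
      (fun x : {x // x ∉ N'} => (w ∘ s) x - 1)
    have e1 : (fun x : {x // x ∉ N'} => col x) ∘ e = fun x : {x // x ∉ N} => col x := by
      funext z
      exact hsc z
    have e2 : (fun x : {x // x ∉ N'} => (w ∘ s) x - 1) ∘ e = fun x : {x // x ∉ N} => w x - 1 := by
      funext z
      show w (s (s z)) - 1 = w z - 1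
      rw [hss]
    have e3 : (rk fun x : {x // x ∉ N'} => col x) ∘ e = rk fun x : {x // x ∉ N} => col x := by
      funext z
      show (univ.filter fun u : {x // x ∉ N'} => col u = col (e z) ∧ u < e z).card =
        (univ.filter fun u : {x // x ∉ N} => col u = col z ∧ u < z).card
      symm
      refine Finset.card_bij (fun u _ => e u) ?_ ?_ ?_
      · intro u hu
        simp only [mem_filter, mem_univ, true_and] at hu ⊢
        obtain ⟨hu1, hu2⟩ := hu
        rw [he, he, hsc, hsc]
        refine ⟨hu1, ?_⟩
        rw [← Subtype.coe_lt_coe, he, he]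
        rw [← Subtype.coe_lt_coe] at hu2
        have hux : (u : Fin n) ≠ x := fun h => u.2 (h ▸ hxN)
        have hzx : (z : Fin n) ≠ x := fun h => z.2 (h ▸ hxN)
        by_cases h1 : (u : Fin n) = y
        · by_cases h2 : (z : Fin n) = y
          · rw [h1, h2] at hu2
            exact absurd hu2 (lt_irrefl _)
          · rw [h1, hsy, hso z hzx h2]
            have h3 : ¬ (z : Fin n) ≤ y := by
              rw [← h1]
              exact not_le_of_gt hu2
            rw [← hadj z (by rw [← hu1, h1, hyc])] at h3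
            exact lt_of_le_of_ne (not_lt.1 h3) (Ne.symm hzx)
        · by_cases h2 : (z : Fin n) = y
          · rw [h2, hsy, hso u hux h1]
            rw [h2] at hu2
            exact hu2.trans hyx
          · rw [hso u hux h1, hso z hzx h2]
            exact hu2
      · intro u _ v _ h
        exact e.injective h
      · intro v hv
        simp only [mem_filter, mem_univ, true_and] at hv
        obtain ⟨hv1, hv2⟩ := hv
        refine ⟨e.symm v, ?_, e.apply_symm_apply v⟩
        obtain ⟨u, rfl⟩ := e.surjective v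
        rw [e.symm_apply_apply]
        simp only [mem_filter, mem_univ, true_and]
        rw [he, he, hsc, hsc] at hv1
        refine ⟨hv1, ?_⟩
        rw [← Subtype.coe_lt_coe, he, he] at hv2
        rw [← Subtype.coe_lt_coe]
        have hux : (u : Fin n) ≠ x := fun h => u.2 (h ▸ hxN)
        have hzx : (z : Fin n) ≠ x := fun h => z.2 (h ▸ hxN)
        by_cases h1 : (u : Fin n) = y
        · by_cases h2 : (z : Fin n) = y
          · rw [h1, h2] at hv2
            exact absurd hv2 (lt_irrefl _)
          · rw [h1, hsy, hso z hzx h2] at hv2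
            rw [h1]
            exact hyx.trans hv2
        · by_cases h2 : (z : Fin n) = y
          · rw [h2, hsy, hso u hux h1] at hv2
            rw [h2]
            exact lt_of_le_of_ne ((hadj u (by rw [hv1, h2, hyc])).1 hv2) h1
          · rw [hso u hux h1, hso z hzx h2] at hv2
            exact hv2
    rw [e1, e2, e3] at hpt
    rw [hpt]
    push_cast at hIH
    linarith

/-- expansion of a polytabloid along the first row -/
theorem laplace (n : ℕ) (col : Fin n → ℕ) (N : Finset (Fin n))
    (hN : ∀ x, ∃! y, y ∈ N ∧ col y = col x) (w : Fin n → ℕ) (hw : ∀ x, w x = 0 ↔ x ∈ N) :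
    pt (rk col) col w = (∏ x ∈ N, (-1 : ℤ) ^ rk col x) *
      pt (rk fun x : {x // x ∉ N} => col x) (fun x : {x // x ∉ N} => col x)
        (fun x : {x // x ∉ N} => w x - 1) :=
  sx09_main n col _ N hN w hw rfl

/-- the rows of a tableau may be replaced by the ranks, up to a sign -/
theorem pt_rk {Ω : Type} [Fintype Ω] [LinearOrder Ω] (row col : Ω → ℕ)
    (hinj : ∀ x y, row x = row y → col x = col y → x = y)
    (hdown : ∀ x, ∀ i, i < row x → ∃ y, col y = col x ∧ row y = i) :
    ∃ s : ℤ, (s = 1 ∨ s = -1) ∧ ∀ w, pt row col w = s * pt (rk col) col w := by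
  have h1 : ∀ x, ∃ y, col y = col x ∧ rk col y = row x := fun x =>
    sx09_exists_rk col x (row x) (sx09_row_lt_ht row col hdown x)
  choose f hf1 hf2 using h1
  have hinj' : Function.Injective f := by
    intro x y hxy
    refine hinj x y ?_ ?_
    · rw [← hf2 x, ← hf2 y, hxy]
    · rw [← hf1 x, ← hf1 y, hxy]
  let σ : Equiv.Perm Ω := Equiv.ofBijective f (Finite.injective_iff_bijective.1 hinj')
  have hrow : row = rk col ∘ σ := by
    funext x
    exact (hf2 x).symm
  refine ⟨(Equiv.Perm.sign σ : ℤ), ?_, ?_⟩
  · rcases Int.units_eq_one_or (Equiv.Perm.sign σ) with h | h <;> rw [h] <;> simp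
  · intro w
    conv_lhs => rw [hrow]
    exact pt_row (rk col) col w σ hf1

end Pool.Saxl
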