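import Mathlib
import Pool.Agent.Helper139_Saxl.Defs
import Pool.Agent.Helper139_Saxl.J01

set_option autoImplicit false

/-! Job SX-10: potential lemma and factorisation of the third polytabloid. -/

namespace Pool.Saxl

open Finset

theorem sx10_col {Ω : Type} [DecidableEq Ω] (f : Ω → ℕ) (B X : Finset Ω)
    (hc : X.card = B.card) (hlt : ∀ x ∈ X \ B, ∀ y ∈ B \ X, f y < f x) :
    ∑ x ∈ B, f x + (X \ B).card ≤ ∑ x ∈ X, f x := by
  have hcard : (X \ B).card = (B \ X).card := by
    have h1 := Finset.card_sdiff_add_card_inter X B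
    have h2 := Finset.card_sdiff_add_card_inter B X
    rw [Finset.inter_comm B X] at h2
    omega
  have e1 : ∑ x ∈ X, f x = ∑ x ∈ X ∩ B, f x + ∑ x ∈ X \ B, f x :=
    (Finset.sum_inter_add_sum_sdiff X B f).symm
  have e2 : ∑ x ∈ B, f x = ∑ x ∈ X ∩ B, f x + ∑ x ∈ B \ X, f x := by
    rw [Finset.inter_comm X B]
    exact (Finset.sum_inter_add_sum_sdiff B X f).symm
  have key : ∑ x ∈ B \ X, f x + (X \ B).card ≤ ∑ x ∈ X \ B, f x := by
    rcases (X \ B).eq_empty_or_nonempty with h0 | h0
    · have h3 : B \ X = ∅ := by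
        rw [← Finset.card_eq_zero, ← hcard, h0, Finset.card_empty]
      rw [h0, h3]
      simp
    · obtain ⟨x0, hx0, hmin⟩ := Finset.exists_min_image (X \ B) f h0
      have h4 : ∑ x ∈ B \ X, f x + (B \ X).card ≤ (B \ X).card * f x0 := by
        have h5 : ∑ x ∈ B \ X, (f x + 1) ≤ (B \ X).card * f x0 := by
          have := Finset.sum_le_card_nsmul (B \ X) (fun x => f x + 1) (f x0)
            (fun y hy => hlt x0 hx0 y hy)
          simpa using this
        rw [Finset.sum_add_distrib, Finset.sum_const, smul_eq_mul, mul_one] at h5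
        exact h5
      have h6 : (X \ B).card * f x0 ≤ ∑ x ∈ X \ B, f x := by
        have := Finset.card_nsmul_le_sum (X \ B) f (f x0) hmin
        simpa using this
      rw [hcard] at h6 ⊢
      omega
  omega

theorem potential {Ω : Type} [Fintype Ω] [DecidableEq Ω] (col f : Ω → ℕ) (B X : Finset Ω)
    (hcol : ∀ c, (X.filter fun x => col x = c).card = (B.filter fun x => col x = c).card)
    (hlt : ∀ x, x ∉ B → ∀ y ∈ B, col x = col y → f y < f x) :
    ∑ x ∈ B, f x ≤ ∑ x ∈ X, f x ∧ (∑ x ∈ X, f x ≤ ∑ x ∈ B, f x → X = B) := by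
  have hmaps : ∀ Y : Finset Ω, ∀ x ∈ Y, col x ∈ univ.image col := fun Y x _ =>
    Finset.mem_image_of_mem col (Finset.mem_univ x)
  have hs : ∀ (Y : Finset Ω) (g : Ω → ℕ), ∑ x ∈ Y, g x =
      ∑ c ∈ univ.image col, ∑ x ∈ Y.filter (fun x => col x = c), g x := by
    intro Y g
    exact (Finset.sum_fiberwise_of_maps_to (hmaps Y) g).symm
  have hc : ∀ c, ∑ x ∈ B.filter (fun x => col x = c), f x +
      ((X.filter fun x => col x = c) \ (B.filter fun x => col x = c)).card ≤
      ∑ x ∈ X.filter (fun x => col x = c), f x := by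
    intro c
    refine sx10_col f _ _ (hcol c) ?_
    intro x hx y hy
    rw [Finset.mem_sdiff, Finset.mem_filter, Finset.mem_filter] at hx hy
    refine hlt x (fun h => hx.2 ⟨h, hx.1.2⟩) y hy.1.1 ?_
    rw [hx.1.2, hy.1.2]
  have hdiff : ∀ c, (X.filter fun x => col x = c) \ (B.filter fun x => col x = c) =
      (X \ B).filter fun x => col x = c := by
    intro c
    ext x
    simp only [Finset.mem_sdiff, Finset.mem_filter]
    tauto
  have htot : ∑ x ∈ B, f x + (X \ B).card ≤ ∑ x ∈ X, f x := by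
    have h1 : (X \ B).card = ∑ c ∈ univ.image col, ((X \ B).filter fun x => col x = c).card :=
      Finset.card_eq_sum_card_fiberwise (hmaps (X \ B))
    rw [hs B f, hs X f, h1, ← Finset.sum_add_distrib]
    refine Finset.sum_le_sum fun c _ => ?_
    rw [← hdiff c]
    exact hc c
  have hcard : X.card = B.card := by
    rw [Finset.card_eq_sum_card_fiberwise (hmaps X), Finset.card_eq_sum_card_fiberwise (hmaps B)]
    exact Finset.sum_congr rfl fun c _ => hcol c
  refine ⟨by omega, fun h => ?_⟩
  have h0 : (X \ B).card = 0 := by omega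
  rw [Finset.card_eq_zero, Finset.sdiff_eq_empty_iff_subset] at h0
  exact Finset.eq_of_subset_of_card_le h0 hcard.ge

/-- `A` lies above `B` in every column, and the word has not too large a sum on `B` -/
theorem pt_factor {A B : Type} [Fintype A] [DecidableEq A] [Fintype B] [DecidableEq B]
    (rA cA wA : A → ℕ) (rB cB wB : B → ℕ)
    (hAB : ∀ x y, cA x = cB y → rB y < rA x) (hb : ∑ y, wB y ≤ ∑ y, rB y) :
    pt (Sum.elim rA rB) (Sum.elim cA cB) (Sum.elim wA wB) = pt rA cA wA * pt rB cB wB := by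
  apply pt_sum
  intro σ hσ1 hσ2 a
  set B0 : Finset (A ⊕ B) := (univ : Finset B).map Function.Embedding.inr with hB0
  have hpot := potential (Sum.elim cA cB) (Sum.elim rA rB) B0 (B0.map σ.toEmbedding) (by
    intro c
    rw [Finset.filter_map, Finset.card_map]
    congr 1
    refine Finset.filter_congr fun x _ => ?_
    simp only [Function.comp, Equiv.coe_toEmbedding, hσ1 x]) (by
    intro x hx y hy hxy
    rw [hB0, Finset.mem_map] at hy
    obtain ⟨b, _, rfl⟩ := hy
    cases x with
    | inl a' => exact hAB a' b hxy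
    | inr b' =>
      exfalso
      apply hx
      rw [hB0, Finset.mem_map]
      exact ⟨b', Finset.mem_univ _, rfl⟩)
  have hsum : ∑ x ∈ B0.map σ.toEmbedding, Sum.elim rA rB x ≤ ∑ x ∈ B0, Sum.elim rA rB x := by
    rw [Finset.sum_map, hB0, Finset.sum_map, Finset.sum_map]
    calc ∑ y : B, Sum.elim rA rB (σ.toEmbedding (Function.Embedding.inr y))
        = ∑ y : B, wB y := by
          refine Finset.sum_congr rfl fun y _ => ?_
          exact (hσ2 (Sum.inr y)).symm
      _ ≤ ∑ y : B, rB y := hb
      _ = ∑ y : B, Sum.elim rA rB (Function.Embedding.inr y) := rfl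
  have hX := hpot.2 hsum
  by_contra hcon
  have hr : σ (Sum.inl a) ∈ B0 := by
    cases hs : σ (Sum.inl a) with
    | inl a' => exact absurd (by rw [hs]; rfl) hcon
    | inr b' =>
      rw [hB0, Finset.mem_map]
      exact ⟨b', Finset.mem_univ _, rfl⟩
  rw [← hX, Finset.mem_map] at hr
  obtain ⟨x, hx, hxe⟩ := hr
  have hxa : x = Sum.inl a := σ.injective hxe
  rw [hB0, Finset.mem_map] at hx
  obtain ⟨b, _, hb'⟩ := hx
  rw [hxa] at hb'
  cases hb'

end Pool.Saxl
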