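import Mathlib
import Pool.Agent.Helper139_Saxl.Defs

set_option autoImplicit false

/-! Job SX-04: conjugate partitions. -/

namespace Pool.Saxl

open Finset

theorem sx04_mem (mu : ℕ → ℕ) (n : ℕ) (h : IsPart mu n) (j : ℕ) :
    ∀ i, i < cj mu j ↔ j < mu i := by
  have hex : ∃ i, mu i ≤ j := ⟨n, by rw [h.zero n le_rfl]; exact Nat.zero_le _⟩
  classical
  have hset : {i | j < mu i} = ((Finset.range (Nat.find hex) : Finset ℕ) : Set ℕ) := by
    ext i
    simp only [Finset.coe_range, Set.mem_Iio]
    constructor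
    · intro hi
      by_contra hcon
      have h1 : mu i ≤ mu (Nat.find hex) := h.anti (not_lt.mp hcon)
      have h2 := Nat.find_spec hex
      have h3 : j < mu i := hi
      omega
    · intro hi
      exact not_le.mp (Nat.find_min hex hi)
  have hc : cj mu j = Nat.find hex := by
    unfold cj
    rw [hset, Set.ncard_coe_finset, Finset.card_range]
  intro i
  rw [hc]
  have h4 : i ∈ {i | j < mu i} ↔ i ∈ ((Finset.range (Nat.find hex) : Finset ℕ) : Set ℕ) := by
    rw [hset]
  simp only [Finset.coe_range, Set.mem_Iio] at h4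
  exact h4.symm

theorem sx04_count (n a : ℕ) : (∑ i ∈ range n, if i < a then 1 else 0) = min n a := by
  induction n with
  | zero => simp
  | succ n ih =>
    rw [Finset.sum_range_succ, ih]
    split_ifs <;> omega

theorem sx04_mu_le (mu : ℕ → ℕ) (n : ℕ) (h : IsPart mu n) (i : ℕ) : mu i ≤ n := by
  by_cases hi : i < n
  · calc mu i ≤ ∑ i ∈ range n, mu i :=
          Finset.single_le_sum (f := mu) (fun _ _ => Nat.zero_le _) (Finset.mem_range.mpr hi)
      _ = n := h.sum
  · rw [h.zero i (not_lt.mp hi)]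
    exact Nat.zero_le _

theorem sx04_area (mu : ℕ → ℕ) (n : ℕ) (h : IsPart mu n) (s : ℕ) :
    area mu s = ∑ j ∈ range n, min s (cj mu j) := by
  unfold area
  have h1 : ∀ i, mu i = ∑ j ∈ range n, if j < mu i then 1 else 0 := by
    intro i
    rw [sx04_count, min_eq_right (sx04_mu_le mu n h i)]
  calc ∑ i ∈ range s, mu i = ∑ i ∈ range s, ∑ j ∈ range n, (if j < mu i then 1 else 0) :=
        Finset.sum_congr rfl fun i _ => h1 i
    _ = ∑ j ∈ range n, ∑ i ∈ range s, (if j < mu i then 1 else 0) := Finset.sum_comm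
    _ = ∑ j ∈ range n, ∑ i ∈ range s, (if i < cj mu j then 1 else 0) := by
        refine Finset.sum_congr rfl fun j _ => Finset.sum_congr rfl fun i _ => ?_
        simp only [sx04_mem mu n h j i]
    _ = ∑ j ∈ range n, min s (cj mu j) :=
        Finset.sum_congr rfl fun j _ => sx04_count s (cj mu j)

theorem sx04_cj_le (mu : ℕ → ℕ) (n : ℕ) (h : IsPart mu n) (j : ℕ) : cj mu j ≤ n := by
  by_contra hcon
  have h1 := (sx04_mem mu n h j n).mp (not_le.mp hcon)
  rw [h.zero n le_rfl] at h1
  exact absurd h1 (Nat.not_lt_zero j)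

theorem sx04_rho_sum (k : ℕ) : ∑ i ∈ range k, (k - i) = k * (k + 1) / 2 := by
  have h1 := Finset.sum_range_reflect (fun i => i) (k + 1)
  have h2 : ∑ j ∈ range (k + 1), (k + 1 - 1 - j) = ∑ i ∈ range k, (k - i) := by
    rw [Finset.sum_range_succ]
    have e : k + 1 - 1 = k := by omega
    rw [e, Nat.sub_self, add_zero]
  rw [← h2, h1, Finset.sum_range_id]
  have e : k + 1 - 1 = k := by omega
  rw [e, mul_comm]

theorem sx04_le_tri (k : ℕ) : k ≤ k * (k + 1) / 2 := by
  rw [Nat.le_div_iff_mul_le (by norm_num)]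
  rcases Nat.eq_zero_or_pos k with h | h
  · rw [h]
  · exact Nat.mul_le_mul_left k (by omega)

theorem lt_cj_iff (mu : ℕ → ℕ) (n : ℕ) (h : IsPart mu n) (i j : ℕ) : i < cj mu j ↔ j < mu i :=
  sx04_mem mu n h j i

theorem isPart_cj (mu : ℕ → ℕ) (n : ℕ) (h : IsPart mu n) : IsPart (cj mu) n := by
  refine ⟨?_, ?_, ?_⟩
  · intro j j' hj
    apply le_of_forall_lt
    intro i hi
    rw [lt_cj_iff mu n h] at hi ⊢
    omega
  · intro j hj
    by_contra hcon
    have h1 := (lt_cj_iff mu n h 0 j).mp (Nat.pos_of_ne_zero hcon)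
    have h2 := sx04_mu_le mu n h 0
    omega
  · have h1 := sx04_area mu n h n
    unfold area at h1
    rw [h.sum] at h1
    have h2 : ∑ j ∈ range n, min n (cj mu j) = ∑ j ∈ range n, cj mu j :=
      Finset.sum_congr rfl fun j _ => min_eq_right (sx04_cj_le mu n h j)
    rw [h2] at h1
    exact h1.symm

theorem cj_cj (mu : ℕ → ℕ) (n : ℕ) (h : IsPart mu n) : cj (cj mu) = mu := by
  funext i
  apply le_antisymm
  · apply le_of_forall_lt
    intro t ht
    rw [lt_cj_iff (cj mu) n (isPart_cj mu n h), lt_cj_iff mu n h] at ht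
    exact ht
  · apply le_of_forall_lt
    intro t ht
    rw [lt_cj_iff (cj mu) n (isPart_cj mu n h), lt_cj_iff mu n h]
    exact ht

/-- the first `s` rows, counted by columns -/
theorem area_eq_min (mu : ℕ → ℕ) (n : ℕ) (h : IsPart mu n) (s : ℕ) :
    area mu s = ∑ j ∈ range n, min s (cj mu j) := sx04_area mu n h s

theorem area_le (mu : ℕ → ℕ) (n : ℕ) (h : IsPart mu n) (s : ℕ) : area mu s ≤ n := by
  rw [sx04_area mu n h s]
  calc ∑ j ∈ range n, min s (cj mu j) ≤ ∑ j ∈ range n, cj mu j :=
        Finset.sum_le_sum fun j _ => min_le_right _ _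
    _ = n := (isPart_cj mu n h).sum

theorem isPart_rho (k : ℕ) : IsPart (rho k) (k * (k + 1) / 2) := by
  refine ⟨?_, ?_, ?_⟩
  · intro i j hij
    unfold rho
    omega
  · intro i hi
    unfold rho
    have := sx04_le_tri k
    omega
  · have hle := sx04_le_tri k
    have h1 : ∑ i ∈ range (k * (k + 1) / 2), rho k i = ∑ i ∈ range k, rho k i := by
      symm
      apply Finset.sum_subset (Finset.range_subset_range.mpr hle)
      intro i _ hi
      have : k ≤ i := not_lt.mp fun h => hi (Finset.mem_range.mpr h)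
      unfold rho
      omega
    rw [h1]
    exact sx04_rho_sum k

theorem cj_rho (k : ℕ) : cj (rho k) = rho k := by
  have h := lt_cj_iff (rho k) _ (isPart_rho k)
  funext j
  apply le_antisymm
  · apply le_of_forall_lt
    intro t ht
    have := (h t j).mp ht
    unfold rho at this ⊢
    omega
  · apply le_of_forall_lt
    intro t ht
    apply (h t j).mpr
    unfold rho at ht ⊢
    omega

end Pool.Saxl
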