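import Mathlib
import Pool.Agent.Helper139_Saxl.Defs
import Pool.Agent.Helper139_Saxl.J04

set_option autoImplicit false

/-! Job SX-02: tableaux of a given shape. -/

namespace Pool.Saxl

open Finset

theorem exists_tab (lam : ℕ → ℕ) (n : ℕ) (h : IsPart lam n) :
    ∃ row col : Fin n → ℕ, IsStd row col lam := by
  classical
  let S : Finset (Σ _ : ℕ, ℕ) := (range n).sigma fun i => range (lam i)
  have hS : S.card = n := by
    rw [Finset.card_sigma]
    simpa using h.sum
  have hmem : ∀ p : (Σ _ : ℕ, ℕ), p ∈ S ↔ p.1 < n ∧ p.2 < lam p.1 := fun p => by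
    simp [S, Finset.mem_sigma]
  have hmem' : ∀ i j : ℕ, j < lam i → (⟨i, j⟩ : Σ _ : ℕ, ℕ) ∈ S := fun i j hij => by
    refine (hmem _).2 ⟨?_, hij⟩
    by_contra hc
    have := h.zero i (not_lt.1 hc)
    have hij' : j < lam i := hij
    omega
  let e : Fin n ≃ S := (finCongr hS.symm).trans S.equivFin.symm
  have hlt : ∀ x : Fin n, (e x).1.2 < lam (e x).1.1 := fun x => ((hmem _).1 (e x).2).2
  have hinj : ∀ x y : Fin n, (e x).1.1 = (e y).1.1 → (e x).1.2 = (e y).1.2 → x = y := by
    intro x y h1 h2
    apply e.injective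
    apply Subtype.ext
    exact Sigma.ext h1 (heq_of_eq h2)
  refine ⟨fun x => (e x).1.1, fun x => (e x).1.2, ⟨⟨hinj, ?_, ?_⟩, hlt⟩⟩
  · intro x i hi
    have h1 : (e x).1.2 < lam i := lt_of_lt_of_le (hlt x) (h.anti (le_of_lt hi))
    refine ⟨e.symm ⟨_, hmem' i _ h1⟩, ?_, ?_⟩ <;> simp
  · intro i
    rw [← Finset.card_range (lam i)]
    refine Finset.card_bij (fun x _ => (e x).1.2) ?_ ?_ ?_
    · intro x hx
      rw [Finset.mem_filter] at hx
      rw [Finset.mem_range, ← hx.2]
      exact hlt x
    · intro x hx y hy hxy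
      rw [Finset.mem_filter] at hx hy
      exact hinj x y (hx.2.trans hy.2.symm) hxy
    · intro j hj
      rw [Finset.mem_range] at hj
      refine ⟨e.symm ⟨_, hmem' i j hj⟩, ?_, ?_⟩ <;> simp

theorem std_surj {Ω : Type} [Fintype Ω] (row col : Ω → ℕ) (mu : ℕ → ℕ)
    (h : IsStd row col mu) (i j : ℕ) (hij : j < mu i) : ∃ x, row x = i ∧ col x = j := by
  classical
  have h1 : (univ.filter fun x => row x = i).image col = range (mu i) := by
    apply Finset.eq_of_subset_of_card_le
    · intro c hc
      rw [Finset.mem_image] at hc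
      obtain ⟨x, hx, rfl⟩ := hc
      rw [Finset.mem_filter] at hx
      rw [Finset.mem_range, ← hx.2]
      exact h.lt x
    · rw [Finset.card_range, Finset.card_image_of_injOn, h.card i]
      intro x hx y hy hxy
      have hx' := (Finset.mem_filter.1 (Finset.mem_coe.1 hx)).2
      have hy' := (Finset.mem_filter.1 (Finset.mem_coe.1 hy)).2
      exact h.inj x y (hx'.trans hy'.symm) hxy
  have h2 : j ∈ (univ.filter fun x => row x = i).image col := by
    rw [h1]
    exact Finset.mem_range.2 hij
  rw [Finset.mem_image] at h2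
  obtain ⟨x, hx, hxj⟩ := h2
  exact ⟨x, (Finset.mem_filter.1 hx).2, hxj⟩

theorem sx02_ex {Ω : Type} [Fintype Ω] {row col : Ω → ℕ} {mu : ℕ → ℕ}
    (h : IsTab row col mu) (x : Ω) (i : ℕ) (hi : i ≤ row x) : ∃ y, col y = col x ∧ row y = i := by
  rcases Nat.lt_or_ge i (row x) with h1 | h1
  · exact h.down x i h1
  · exact ⟨x, rfl, le_antisymm h1 hi⟩

theorem sx02_row_lt {Ω : Type} [Fintype Ω] {row col : Ω → ℕ} {mu : ℕ → ℕ}
    (h : IsTab row col mu) (x : Ω) : row x < Fintype.card Ω := by
  choose f hf using fun j : Fin (row x + 1) => sx02_ex h x j.1 (Nat.lt_succ_iff.1 j.2)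
  have hinj : Function.Injective f := by
    intro a b hab
    apply Fin.ext
    rw [← (hf a).2, ← (hf b).2, hab]
  have := Fintype.card_le_of_injective f hinj
  rw [Fintype.card_fin] at this
  omega

theorem IsTab.isPart {Ω : Type} [Fintype Ω] [DecidableEq Ω] {row col : Ω → ℕ} {mu : ℕ → ℕ}
    (h : IsTab row col mu) : IsPart mu (Fintype.card Ω) := by
  refine ⟨antitone_nat_of_succ_le fun i => ?_, fun i hi => ?_, ?_⟩
  · rw [← h.card i, ← h.card (i + 1)]
    have hex : ∀ x : Ω, ∃ y, row x = i + 1 → col y = col x ∧ row y = i := by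
      intro x
      by_cases hx : row x = i + 1
      · obtain ⟨y, hy⟩ := h.down x i (by omega)
        exact ⟨y, fun _ => hy⟩
      · exact ⟨x, fun h => absurd h hx⟩
    choose f hf using hex
    refine Finset.card_le_card_of_injOn f ?_ ?_
    · intro x hx
      have hx' := (Finset.mem_filter.1 (Finset.mem_coe.1 hx)).2
      exact Finset.mem_coe.2 (Finset.mem_filter.2 ⟨Finset.mem_univ _, (hf x hx').2⟩)
    · intro x hx y hy hxy
      have hx' := (Finset.mem_filter.1 (Finset.mem_coe.1 hx)).2
      have hy' := (Finset.mem_filter.1 (Finset.mem_coe.1 hy)).2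
      refine h.inj x y (hx'.trans hy'.symm) ?_
      rw [← (hf x hx').1, ← (hf y hy').1, hxy]
  · rw [← h.card i, Finset.card_eq_zero, Finset.filter_eq_empty_iff]
    intro x _ hx
    have := sx02_row_lt h x
    omega
  · have h1 : (univ : Finset Ω).card = ∑ i ∈ range (Fintype.card Ω),
        (univ.filter fun x => row x = i).card :=
      Finset.card_eq_sum_card_fiberwise fun x _ => by
        rw [Finset.mem_coe, Finset.mem_range]
        exact sx02_row_lt h x
    rw [Finset.card_univ] at h1
    conv_rhs => rw [h1]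
    exact Finset.sum_congr rfl fun i _ => (h.card i).symm

theorem exists_std {Ω : Type} [Fintype Ω] [DecidableEq Ω] (row col : Ω → ℕ) (mu : ℕ → ℕ)
    (h : IsTab row col mu) : ∃ col' : Ω → ℕ, IsStd row col' mu ∧
      ∀ x y, col x = col y ↔ col' x = col' y := by
  classical
  let ht : ℕ → ℕ := fun c => (univ.filter fun x => col x = c).card
  have hht : ∀ c i, i < ht c ↔ ∃ y, col y = c ∧ row y = i := by
    intro c i
    have hR : (univ.filter fun x => col x = c).image row = range (ht c) := by
      have hcard : ((univ.filter fun x => col x = c).image row).card = ht c := by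
        apply Finset.card_image_of_injOn
        intro x hx y hy hxy
        have hx' := (Finset.mem_filter.1 (Finset.mem_coe.1 hx)).2
        have hy' := (Finset.mem_filter.1 (Finset.mem_coe.1 hy)).2
        exact h.inj x y hxy (hx'.trans hy'.symm)
      apply Finset.eq_of_subset_of_card_le
      · intro a ha
        rw [Finset.mem_image] at ha
        obtain ⟨x, hx, rfl⟩ := ha
        rw [Finset.mem_filter] at hx
        rw [Finset.mem_range, ← hcard, Nat.lt_iff_add_one_le, ← Finset.card_range (row x + 1)]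
        apply Finset.card_le_card
        intro b hb
        rw [Finset.mem_range] at hb
        obtain ⟨y, hy1, hy2⟩ := sx02_ex h x b (by omega)
        exact Finset.mem_image.2 ⟨y, Finset.mem_filter.2 ⟨Finset.mem_univ _, hy1.trans hx.2⟩, hy2⟩
      · rw [hcard, Finset.card_range]
    rw [← Finset.mem_range, ← hR, Finset.mem_image]
    constructor
    · rintro ⟨y, hy, hyi⟩
      exact ⟨y, (Finset.mem_filter.1 hy).2, hyi⟩
    · rintro ⟨y, hy, hyi⟩
      exact ⟨y, Finset.mem_filter.2 ⟨Finset.mem_univ _, hy⟩, hyi⟩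
  let C : Finset ℕ := univ.image col
  let B : ℕ → Finset ℕ := fun c => C.filter fun d => ht c < ht d ∨ (ht c = ht d ∧ d < c)
  have hmono : ∀ c d, d ∈ C → (ht c < ht d ∨ (ht c = ht d ∧ d < c)) → (B d).card < (B c).card := by
    intro c d hd hcd
    apply Finset.card_lt_card
    rw [Finset.ssubset_iff_of_subset]
    · refine ⟨d, Finset.mem_filter.2 ⟨hd, hcd⟩, fun hdd => ?_⟩
      rcases (Finset.mem_filter.1 hdd).2 with h1 | h1
      · exact lt_irrefl _ h1
      · exact lt_irrefl _ h1.2
    · intro a ha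
      rw [Finset.mem_filter] at ha ⊢
      refine ⟨ha.1, ?_⟩
      rcases ha.2 with h1 | ⟨h1, h2⟩ <;> rcases hcd with h3 | ⟨h3, h4⟩
      · left; omega
      · left; omega
      · left; omega
      · right; constructor <;> omega
  have hBinj : ∀ c d, c ∈ C → d ∈ C → (B c).card = (B d).card → c = d := by
    intro c d hc hd hcd
    by_contra hne
    rcases lt_trichotomy (ht c) (ht d) with h1 | h1 | h1
    · have := hmono c d hd (Or.inl h1)
      omega
    · rcases lt_or_gt_of_ne hne with h2 | h2
      · have := hmono d c hc (Or.inr ⟨h1.symm, h2⟩)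
        omega
      · have := hmono c d hd (Or.inr ⟨h1, h2⟩)
        omega
    · have := hmono d c hc (Or.inl h1)
      omega
  have hC : ∀ x, col x ∈ C := fun x => Finset.mem_image_of_mem _ (Finset.mem_univ x)
  have hiff : ∀ x y, col x = col y ↔ (B (col x)).card = (B (col y)).card := fun x y =>
    ⟨fun hxy => by rw [hxy], fun hxy => hBinj _ _ (hC x) (hC y) hxy⟩
  refine ⟨fun x => (B (col x)).card, ⟨⟨?_, ?_, h.card⟩, ?_⟩, hiff⟩
  · intro x y h1 h2
    exact h.inj x y h1 ((hiff x y).2 h2)
  · intro x i hi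
    obtain ⟨y, hy1, hy2⟩ := h.down x i hi
    exact ⟨y, (hiff y x).1 hy1, hy2⟩
  · intro x
    have h1 : insert (col x) (B (col x)) ⊆ (univ.filter fun y => row y = row x).image col := by
      intro c hc
      have hc2 : row x < ht c := by
        have hx : row x < ht (col x) := (hht _ _).2 ⟨x, rfl, rfl⟩
        rcases Finset.mem_insert.1 hc with hc | hc
        · rw [hc]
          exact hx
        · rcases (Finset.mem_filter.1 hc).2 with h3 | h3 <;> omega
      obtain ⟨y, hy1, hy2⟩ := (hht c (row x)).1 hc2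
      exact Finset.mem_image.2 ⟨y, Finset.mem_filter.2 ⟨Finset.mem_univ _, hy2⟩, hy1⟩
    have h2 : col x ∉ B (col x) := by
      intro hx
      rcases (Finset.mem_filter.1 hx).2 with h3 | h3
      · exact lt_irrefl _ h3
      · exact lt_irrefl _ h3.2
    have h3 := (Finset.card_le_card h1).trans Finset.card_image_le
    rw [Finset.card_insert_of_notMem h2, h.card] at h3
    exact h3

theorem IsTab.comp {Ω Ω' : Type} [Fintype Ω] [Fintype Ω'] {row col : Ω' → ℕ} {mu : ℕ → ℕ}
    (h : IsTab row col mu) (f : Ω ≃ Ω') : IsTab (row ∘ f) (col ∘ f) mu := by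
  refine ⟨fun x y h1 h2 => f.injective (h.inj _ _ h1 h2), fun x i hi => ?_, fun i => ?_⟩
  · obtain ⟨y, hy1, hy2⟩ := h.down (f x) i hi
    exact ⟨f.symm y, by simpa using hy1, by simpa using hy2⟩
  · rw [← h.card i]
    refine Finset.card_bij (fun x _ => f x) ?_ ?_ ?_
    · intro x hx
      exact Finset.mem_filter.2 ⟨Finset.mem_univ _, (Finset.mem_filter.1 hx).2⟩
    · intro x _ y _ hxy
      exact f.injective hxy
    · intro y hy
      refine ⟨f.symm y, Finset.mem_filter.2 ⟨Finset.mem_univ _, ?_⟩, f.apply_symm_apply y⟩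
      have := (Finset.mem_filter.1 hy).2
      simpa using this

end Pool.Saxl
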