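import Mathlib
import Pool.Agent.Helper139_Saxl.Defs
import Pool.Agent.Helper139_Saxl.J01
import Pool.Agent.Helper139_Saxl.J02

set_option autoImplicit false

/-! Job SX-03: freedom of the ground set in the nonvanishing criterion. -/

namespace Pool.Saxl

open Finset

theorem sx03_tri_equiv {Ω Ω' : Type} [Fintype Ω] [DecidableEq Ω] [Fintype Ω'] [DecidableEq Ω']
    (f : Ω ≃ Ω') (r1 c1 r2 c2 r3 c3 w1 w2 w3 : Ω' → ℕ) :
    tri (r1 ∘ f) (c1 ∘ f) (r2 ∘ f) (c2 ∘ f) (r3 ∘ f) (c3 ∘ f) (w1 ∘ f) (w2 ∘ f) (w3 ∘ f) =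
      tri r1 c1 r2 c2 r3 c3 w1 w2 w3 := by
  have key : ∀ (r c w : Ω' → ℕ) (g : Equiv.Perm Ω),
      pt (r ∘ f) (c ∘ f) ((w ∘ f) ∘ g) = pt r c (w ∘ (f.permCongr g)) := by
    intro r c w g
    have h : (w ∘ f) ∘ g = (w ∘ (f.permCongr g)) ∘ f := by
      funext x
      simp [Equiv.permCongr_apply]
    rw [h, pt_equiv]
  unfold tri
  refine Fintype.sum_equiv f.permCongr _ _ (fun g => ?_)
  rw [key, key, key]

theorem sx03_tri_col {Ω : Type} [Fintype Ω] [DecidableEq Ω]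
    {r1 c1 r2 c2 r3 c3 c1' c2' c3' w1 w2 w3 : Ω → ℕ}
    (h1 : ∀ x y, c1 x = c1 y ↔ c1' x = c1' y) (h2 : ∀ x y, c2 x = c2 y ↔ c2' x = c2' y)
    (h3 : ∀ x y, c3 x = c3 y ↔ c3' x = c3' y) :
    tri r1 c1 r2 c2 r3 c3 w1 w2 w3 = tri r1 c1' r2 c2' r3 c3' w1 w2 w3 := by
  unfold tri
  refine Finset.sum_congr rfl (fun g _ => ?_)
  rw [pt_col r1 c1 c1' _ h1, pt_col r2 c2 c2' _ h2, pt_col r3 c3 c3' _ h3]

theorem sx03_le {mu : ℕ → ℕ} {n n' : ℕ} (h : IsPart mu n) (h' : IsPart mu n') : n' ≤ n := by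
  by_contra hlt
  rw [not_le] at hlt
  have h1 : ∑ i ∈ range n', mu i = ∑ i ∈ range n, mu i := by
    symm
    apply Finset.sum_subset (Finset.range_subset_range.2 hlt.le)
    intro i _ hi
    rw [Finset.mem_range, not_lt] at hi
    exact h.zero i hi
  rw [h.sum, h'.sum] at h1
  omega

theorem sx03_part_unique {mu : ℕ → ℕ} {n n' : ℕ} (h : IsPart mu n) (h' : IsPart mu n') : n = n' :=
  le_antisymm (sx03_le h' h) (sx03_le h h')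

/-- the nonvanishing criterion may use any ground set -/
theorem G_of {Ω : Type} [Fintype Ω] [DecidableEq Ω] (lam kap mu : ℕ → ℕ)
    (r1 c1 r2 c2 r3 c3 : Ω → ℕ) (h1 : IsTab r1 c1 lam) (h2 : IsTab r2 c2 kap) (h3 : IsTab r3 c3 mu)
    (w1 w2 w3 : Ω → ℕ) (h : tri r1 c1 r2 c2 r3 c3 w1 w2 w3 ≠ 0) : G lam kap mu := by
  let e : Fin (Fintype.card Ω) ≃ Ω := (Fintype.equivFin Ω).symm
  refine ⟨Fintype.card Ω, r1 ∘ e, c1 ∘ e, r2 ∘ e, c2 ∘ e, r3 ∘ e, c3 ∘ e, h1.comp e, h2.comp e,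
    h3.comp e, w1 ∘ e, w2 ∘ e, w3 ∘ e, ?_⟩
  rw [sx03_tri_equiv]
  exact h

/-- the ground set in `G` may be taken to be any set of the right size -/
theorem G_iff {Ω : Type} [Fintype Ω] [DecidableEq Ω] (lam kap mu : ℕ → ℕ)
    (hcard : IsPart lam (Fintype.card Ω) ∨ IsPart kap (Fintype.card Ω) ∨ IsPart mu (Fintype.card Ω)) :
    G lam kap mu ↔ ∃ r1 c1 r2 c2 r3 c3 : Ω → ℕ, IsStd r1 c1 lam ∧ IsStd r2 c2 kap ∧ IsStd r3 c3 mu ∧
      ∃ w1 w2 w3 : Ω → ℕ, tri r1 c1 r2 c2 r3 c3 w1 w2 w3 ≠ 0 := by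
  constructor
  · rintro ⟨n, r1, c1, r2, c2, r3, c3, h1, h2, h3, w1, w2, w3, h⟩
    have hn : Fintype.card Ω = n := by
      rw [← Fintype.card_fin n]
      rcases hcard with hc | hc | hc
      · exact sx03_part_unique hc h1.isPart
      · exact sx03_part_unique hc h2.isPart
      · exact sx03_part_unique hc h3.isPart
    have e : Ω ≃ Fin n := Fintype.equivOfCardEq (by rw [hn, Fintype.card_fin])
    obtain ⟨d1, hd1, hc1⟩ := exists_std _ _ _ (h1.comp e)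
    obtain ⟨d2, hd2, hc2⟩ := exists_std _ _ _ (h2.comp e)
    obtain ⟨d3, hd3, hc3⟩ := exists_std _ _ _ (h3.comp e)
    refine ⟨r1 ∘ e, d1, r2 ∘ e, d2, r3 ∘ e, d3, hd1, hd2, hd3, w1 ∘ e, w2 ∘ e, w3 ∘ e, ?_⟩
    rw [← sx03_tri_col hc1 hc2 hc3, sx03_tri_equiv]
    exact h
  · rintro ⟨r1, c1, r2, c2, r3, c3, h1, h2, h3, w1, w2, w3, h⟩
    exact G_of lam kap mu r1 c1 r2 c2 r3 c3 h1.toIsTab h2.toIsTab h3.toIsTab w1 w2 w3 h

/-- if `tri` does not vanish then each word is a rearrangement of the rows -/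
theorem tri_word {Ω : Type} [Fintype Ω] [DecidableEq Ω] {r1 c1 r2 c2 r3 c3 w1 w2 w3 : Ω → ℕ}
    (h : tri r1 c1 r2 c2 r3 c3 w1 w2 w3 ≠ 0) : ∃ g1 g2 g3 : Equiv.Perm Ω,
      w1 = r1 ∘ g1 ∧ w2 = r2 ∘ g2 ∧ w3 = r3 ∘ g3 := by
  obtain ⟨g, _, hg⟩ := Finset.exists_ne_zero_of_sum_ne_zero h
  have h3 := right_ne_zero_of_mul hg
  have h12 := left_ne_zero_of_mul hg
  have h2 := right_ne_zero_of_mul h12
  have h1 := left_ne_zero_of_mul h12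
  have key : ∀ r c w : Ω → ℕ, pt r c (w ∘ g) ≠ 0 → ∃ g' : Equiv.Perm Ω, w = r ∘ g' := by
    intro r c w hne
    obtain ⟨σ, _, hσ⟩ := exists_of_pt_ne r c _ hne
    refine ⟨g⁻¹.trans σ, ?_⟩
    funext x
    have := congrFun hσ (g⁻¹ x)
    simpa using this
  obtain ⟨g1, h1⟩ := key _ _ _ h1
  obtain ⟨g2, h2⟩ := key _ _ _ h2
  obtain ⟨g3, h3⟩ := key _ _ _ h3
  exact ⟨g1, g2, g3, h1, h2, h3⟩

end Pool.Saxl
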