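import Mathlib
import Pool.Agent.Helper139_Saxl.Defs
import Pool.Agent.Helper139_Saxl.J01
import Pool.Agent.Helper139_Saxl.J03

set_option autoImplicit false

/-! Job SX-05: polarisation. -/

namespace Pool.Saxl

open Finset

/-- generating polynomial of the products of three polytabloids -/
noncomputable def pol {Ω : Type} [Fintype Ω] [DecidableEq Ω] (N : ℕ)
    (r1 c1 r2 c2 r3 c3 : Ω → ℕ) : MvPolynomial (Fin N × Fin N × Fin N) ℚ :=
  ∑ w : Ω → Fin N × Fin N × Fin N,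
    MvPolynomial.C (((pt r1 c1 (fun x => ((w x).1 : ℕ)) * pt r2 c2 (fun x => ((w x).2.1 : ℕ)) *
      pt r3 c3 (fun x => ((w x).2.2 : ℕ)) : ℤ)) : ℚ) * ∏ x, MvPolynomial.X (w x)

/-- helper: the coefficient -/
noncomputable def sx05_E {Ω : Type} [Fintype Ω] [DecidableEq Ω] {N : ℕ}
    (r1 c1 r2 c2 r3 c3 : Ω → ℕ) (w : Ω → Fin N × Fin N × Fin N) : ℤ :=
  pt r1 c1 (fun x => ((w x).1 : ℕ)) * pt r2 c2 (fun x => ((w x).2.1 : ℕ)) *
      pt r3 c3 (fun x => ((w x).2.2 : ℕ))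

/-- helper: the exponent -/
noncomputable def sx05_m {Ω : Type} [Fintype Ω] {N : ℕ}
    (w : Ω → Fin N × Fin N × Fin N) : (Fin N × Fin N × Fin N) →₀ ℕ :=
  ∑ x, Finsupp.single (w x) 1

theorem sx05_pol {Ω : Type} [Fintype Ω] [DecidableEq Ω] (N : ℕ)
    (r1 c1 r2 c2 r3 c3 : Ω → ℕ) : pol N r1 c1 r2 c2 r3 c3 =
      ∑ w : Ω → Fin N × Fin N × Fin N,
        MvPolynomial.monomial (sx05_m w) ((sx05_E r1 c1 r2 c2 r3 c3 w : ℤ) : ℚ) := by
  unfold pol
  apply Finset.sum_congr rfl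
  intro w _
  have h1 : (∏ x, MvPolynomial.X (w x) : MvPolynomial (Fin N × Fin N × Fin N) ℚ) =
      MvPolynomial.monomial (sx05_m w) 1 := by
    unfold sx05_m
    rw [MvPolynomial.monomial_sum_one]
    rfl
  rw [h1, MvPolynomial.C_mul_monomial, mul_one]
  rfl

theorem sx05_coeff {Ω : Type} [Fintype Ω] [DecidableEq Ω] (N : ℕ)
    (r1 c1 r2 c2 r3 c3 : Ω → ℕ) (m : (Fin N × Fin N × Fin N) →₀ ℕ) :
    MvPolynomial.coeff m (pol N r1 c1 r2 c2 r3 c3) =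
      ∑ w : Ω → Fin N × Fin N × Fin N,
        if sx05_m w = m then ((sx05_E r1 c1 r2 c2 r3 c3 w : ℤ) : ℚ) else 0 := by
  rw [sx05_pol, MvPolynomial.coeff_sum]
  apply Finset.sum_congr rfl
  intro w _
  rw [MvPolynomial.coeff_monomial]

theorem sx05_m_comp {Ω : Type} [Fintype Ω] {N : ℕ}
    (w : Ω → Fin N × Fin N × Fin N) (g : Equiv.Perm Ω) : sx05_m (w ∘ g) = sx05_m w := by
  unfold sx05_m
  exact Equiv.sum_comp g (fun x => Finsupp.single (w x) 1)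

theorem sx05_exists_perm {Ω : Type} [Fintype Ω] [DecidableEq Ω] {N : ℕ}
    (w w' : Ω → Fin N × Fin N × Fin N) (h : sx05_m w = sx05_m w') :
    ∃ g : Equiv.Perm Ω, w = w' ∘ g := by
  have h1 : ∀ (v : Ω → Fin N × Fin N × Fin N) (c : Fin N × Fin N × Fin N),
      sx05_m v c = Fintype.card {x // v x = c} := by
    intro v c
    unfold sx05_m
    rw [Finsupp.finsetSum_apply]
    simp only [Finsupp.single_apply]
    rw [Finset.sum_boole, Fintype.card_subtype]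
    rfl
  have h2 : ∀ c, Nonempty ({x // w x = c} ≃ {x // w' x = c}) := by
    intro c
    apply Fintype.card_eq.mp
    rw [← h1, ← h1, h]
  refine ⟨Equiv.ofFiberEquiv (fun c => (h2 c).some), ?_⟩
  funext x
  exact (Equiv.ofFiberEquiv_map (fun c => (h2 c).some) x).symm

theorem sx05_key {Ω : Type} [Fintype Ω] [DecidableEq Ω] (N : ℕ)
    (r1 c1 r2 c2 r3 c3 : Ω → ℕ) (m : (Fin N × Fin N × Fin N) →₀ ℕ) :
    ((Fintype.card (Equiv.Perm Ω) : ℕ) : ℚ) *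
      MvPolynomial.coeff m (pol N r1 c1 r2 c2 r3 c3) =
      ∑ w : Ω → Fin N × Fin N × Fin N,
        if sx05_m w = m then ((∑ g : Equiv.Perm Ω, sx05_E r1 c1 r2 c2 r3 c3 (w ∘ g) : ℤ) : ℚ)
          else 0 := by
  have h1 : ∀ g : Equiv.Perm Ω, MvPolynomial.coeff m (pol N r1 c1 r2 c2 r3 c3) =
      ∑ w : Ω → Fin N × Fin N × Fin N,
        if sx05_m w = m then ((sx05_E r1 c1 r2 c2 r3 c3 (w ∘ g) : ℤ) : ℚ) else 0 := by
    intro g
    rw [sx05_coeff]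
    have e := Equiv.sum_comp (Equiv.arrowCongr g.symm (Equiv.refl (Fin N × Fin N × Fin N)))
      (fun w => if sx05_m w = m then ((sx05_E r1 c1 r2 c2 r3 c3 w : ℤ) : ℚ) else 0)
    rw [← e]
    apply Finset.sum_congr rfl
    intro w _
    have e2 : (Equiv.arrowCongr g.symm (Equiv.refl (Fin N × Fin N × Fin N))) w = w ∘ g := by
      funext x
      simp [Equiv.arrowCongr]
    rw [e2, sx05_m_comp]
  have h2 : ∑ _g : Equiv.Perm Ω, MvPolynomial.coeff m (pol N r1 c1 r2 c2 r3 c3) =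
      ((Fintype.card (Equiv.Perm Ω) : ℕ) : ℚ) *
      MvPolynomial.coeff m (pol N r1 c1 r2 c2 r3 c3) := by
    rw [Finset.sum_const, Finset.card_univ, nsmul_eq_mul]
  rw [← h2, Finset.sum_congr rfl (fun g _ => h1 g), Finset.sum_comm]
  apply Finset.sum_congr rfl
  intro w _
  by_cases hw : sx05_m w = m
  · simp [hw]
  · simp [hw]

theorem sx05_tri {Ω : Type} [Fintype Ω] [DecidableEq Ω] {N : ℕ}
    (r1 c1 r2 c2 r3 c3 : Ω → ℕ) (w : Ω → Fin N × Fin N × Fin N) :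
    ∑ g : Equiv.Perm Ω, sx05_E r1 c1 r2 c2 r3 c3 (w ∘ g) =
      tri r1 c1 r2 c2 r3 c3 (fun x => ((w x).1 : ℕ)) (fun x => ((w x).2.1 : ℕ))
        (fun x => ((w x).2.2 : ℕ)) := rfl

theorem sx05_const {Ω : Type} [Fintype Ω] [DecidableEq Ω] {N : ℕ}
    (r1 c1 r2 c2 r3 c3 : Ω → ℕ) (w : Ω → Fin N × Fin N × Fin N) (h : Equiv.Perm Ω) :
    ∑ g : Equiv.Perm Ω, sx05_E r1 c1 r2 c2 r3 c3 ((w ∘ h) ∘ g) =
      ∑ g : Equiv.Perm Ω, sx05_E r1 c1 r2 c2 r3 c3 (w ∘ g) :=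
  Equiv.sum_comp (Equiv.mulLeft h) (fun g : Equiv.Perm Ω => sx05_E r1 c1 r2 c2 r3 c3 (w ∘ g))

theorem pol_ne_zero_iff {Ω : Type} [Fintype Ω] [DecidableEq Ω] (N : ℕ)
    (r1 c1 r2 c2 r3 c3 : Ω → ℕ) : pol N r1 c1 r2 c2 r3 c3 ≠ 0 ↔
      ∃ w1 w2 w3 : Ω → Fin N, tri r1 c1 r2 c2 r3 c3 (fun x => (w1 x : ℕ)) (fun x => (w2 x : ℕ))
        (fun x => (w3 x : ℕ)) ≠ 0 := by
  classical
  constructor
  · intro hne
    obtain ⟨m, hm⟩ := MvPolynomial.ne_zero_iff.mp hne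
    by_contra hcon
    push Not at hcon
    apply hm
    have key := sx05_key N r1 c1 r2 c2 r3 c3 m
    rw [Finset.sum_eq_zero] at key
    · rcases mul_eq_zero.mp key with h | h
      · exfalso
        have : Fintype.card (Equiv.Perm Ω) ≠ 0 := Fintype.card_ne_zero
        exact this (by exact_mod_cast h)
      · exact h
    · intro w _
      rw [sx05_tri, hcon (fun x => (w x).1) (fun x => (w x).2.1) (fun x => (w x).2.2)]
      simp
  · rintro ⟨w1, w2, w3, htri⟩ hzero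
    apply htri
    have key := sx05_key N r1 c1 r2 c2 r3 c3 (sx05_m (fun x => (w1 x, w2 x, w3 x)))
    rw [hzero, MvPolynomial.coeff_zero, mul_zero] at key
    have h1 : ∀ w ∈ (Finset.univ : Finset (Ω → Fin N × Fin N × Fin N)),
        (if sx05_m w = sx05_m (fun x => (w1 x, w2 x, w3 x)) then
          ((∑ g : Equiv.Perm Ω, sx05_E r1 c1 r2 c2 r3 c3 (w ∘ g) : ℤ) : ℚ) else 0) =
        if sx05_m w = sx05_m (fun x => (w1 x, w2 x, w3 x)) then
          ((tri r1 c1 r2 c2 r3 c3 (fun x => (w1 x : ℕ)) (fun x => (w2 x : ℕ))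
        (fun x => (w3 x : ℕ)) : ℤ) : ℚ) else 0 := by
      intro w _
      by_cases hw : sx05_m w = sx05_m (fun x => (w1 x, w2 x, w3 x))
      · rw [if_pos hw, if_pos hw]
        obtain ⟨g, hg⟩ := sx05_exists_perm _ _ hw
        rw [hg, sx05_const]
        rfl
      · rw [if_neg hw, if_neg hw]
    rw [Finset.sum_congr rfl h1, ← Finset.sum_filter, Finset.sum_const, nsmul_eq_mul] at key
    rcases mul_eq_zero.mp key.symm with h | h
    · exfalso
      have h2 : (Finset.univ.filter fun w : Ω → Fin N × Fin N × Fin N =>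
          sx05_m w = sx05_m (fun x => (w1 x, w2 x, w3 x))).card = 0 := by exact_mod_cast h
      rw [Finset.card_eq_zero] at h2
      have h3 : (fun x => (w1 x, w2 x, w3 x)) ∈ (Finset.univ.filter
          fun w : Ω → Fin N × Fin N × Fin N =>
          sx05_m w = sx05_m (fun x => (w1 x, w2 x, w3 x))) := by simp
      rw [h2] at h3
      simp at h3
    · exact_mod_cast h

/-- helper: triples of words -/
def sx05_eq (Ω : Type) (N : ℕ) : ((Ω → Fin N) × (Ω → Fin N) × (Ω → Fin N)) ≃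
    (Ω → Fin N × Fin N × Fin N) where
  toFun p := fun x => (p.1 x, p.2.1 x, p.2.2 x)
  invFun w := (fun x => (w x).1, fun x => (w x).2.1, fun x => (w x).2.2)
  left_inv _ := rfl
  right_inv _ := rfl

theorem tri_ne_of_eval {Ω : Type} [Fintype Ω] [DecidableEq Ω] (r1 c1 r2 c2 r3 c3 : Ω → ℕ) (N : ℕ)
    (β : ℕ → ℕ → ℕ → ℂ)
    (h : ∑ w1 : Ω → Fin N, ∑ w2 : Ω → Fin N, ∑ w3 : Ω → Fin N,
      (pt r1 c1 (fun x => (w1 x : ℕ)) : ℂ) * (pt r2 c2 (fun x => (w2 x : ℕ)) : ℂ) *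
        (pt r3 c3 (fun x => (w3 x : ℕ)) : ℂ) * ∏ x, β (w1 x) (w2 x) (w3 x) ≠ 0) :
    ∃ w1 w2 w3 : Ω → ℕ, tri r1 c1 r2 c2 r3 c3 w1 w2 w3 ≠ 0 := by
  have h1 : pol N r1 c1 r2 c2 r3 c3 ≠ 0 := by
    intro hz
    apply h
    have h2 : MvPolynomial.aeval (fun y : Fin N × Fin N × Fin N => β y.1 y.2.1 y.2.2)
        (pol N r1 c1 r2 c2 r3 c3) = (0 : ℂ) := by rw [hz, map_zero]
    rw [← h2]
    unfold pol
    rw [map_sum, ← Equiv.sum_comp (sx05_eq Ω N), Fintype.sum_prod_type]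
    apply Finset.sum_congr rfl
    intro w1 _
    rw [Fintype.sum_prod_type]
    apply Finset.sum_congr rfl
    intro w2 _
    apply Finset.sum_congr rfl
    intro w3 _
    rw [map_mul, MvPolynomial.aeval_C, map_prod]
    simp only [MvPolynomial.aeval_X]
    simp [sx05_eq]
  obtain ⟨w1, w2, w3, h3⟩ := (pol_ne_zero_iff N r1 c1 r2 c2 r3 c3).mp h1
  exact ⟨_, _, _, h3⟩

end Pool.Saxl
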