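import Mathlib
import Pool.Agent.Helper139_Saxl.Defs
import Pool.Agent.Helper139_Saxl.Defs2
import Pool.Agent.Helper139_Saxl.J01

set_option autoImplicit false

/-! Job SX-14: the chain of 2x2 matrices. -/

namespace Pool.Saxl

open Finset

theorem sx14_equiv {Ω Ω' : Type} [Fintype Ω] [DecidableEq Ω] [Fintype Ω'] [DecidableEq Ω'] (e : Ω' ≃ Ω)
    (row col w : Ω → ℕ) : pt (fun x => row (e x)) (fun x => col (e x)) (fun x => w (e x)) = pt row col w := by
  unfold pt
  refine Fintype.sum_equiv e.permCongr _ _ ?_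
  intro σ
  have h1 : (∀ x, col (e (σ x)) = col (e x)) ↔ ∀ x, col (e.permCongr σ x) = col x := by
    constructor
    · intro h x
      have := h (e.symm x)
      simpa [Equiv.permCongr_apply] using this
    · intro h x
      have := h (e x)
      simpa [Equiv.permCongr_apply] using this
  have h2 : (∀ x, w (e x) = row (e (σ x))) ↔ ∀ x, w x = row (e.permCongr σ x) := by
    constructor
    · intro h x
      have := h (e.symm x)
      simpa [Equiv.permCongr_apply] using this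
    · intro h x
      have := h (e x)
      simpa [Equiv.permCongr_apply] using this
  rw [Equiv.Perm.sign_permCongr]
  by_cases h : (∀ x, col (e (σ x)) = col (e x)) ∧ (∀ x, w (e x) = row (e (σ x)))
  · rw [if_pos h, if_pos ⟨h1.1 h.1, h2.1 h.2⟩]
  · rw [if_neg h, if_neg (fun h' => h ⟨h1.2 h'.1, h2.2 h'.2⟩)]

theorem sx14_split {A B : Type} [Fintype A] [DecidableEq A] [Fintype B] [DecidableEq B]
    (rA cA wA : A → ℕ) (rB cB wB : B → ℕ) (h : ∀ a b, cA a ≠ cB b) :
    pt (Sum.elim rA rB) (Sum.elim cA cB) (Sum.elim wA wB) = pt rA cA wA * pt rB cB wB := by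
  refine pt_sum rA cA wA rB cB wB ?_
  intro σ hσ _ a
  rcases hx : σ (Sum.inl a) with a' | b
  · rfl
  · exfalso
    have := hσ (Sum.inl a)
    rw [hx] at this
    exact h a b this.symm

theorem sx14_pt_one (r c w : Fin 1 → ℕ) : pt r c w = if w 0 = r 0 then 1 else 0 := by
  unfold pt
  rw [Fintype.sum_unique]
  have h : ∀ x : Fin 1, (default : Equiv.Perm (Fin 1)) x = x := fun x => Subsingleton.elim _ _
  have hs : (Equiv.Perm.sign (default : Equiv.Perm (Fin 1)) : ℤ) = 1 := by decide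
  rw [hs]
  by_cases h0 : w 0 = r 0
  · rw [if_pos h0, if_pos]
    refine ⟨fun x => by rw [h], fun x => ?_⟩
    rw [h, Subsingleton.elim x 0]
    exact h0
  · rw [if_neg h0, if_neg]
    rintro ⟨_, h2⟩
    exact h0 (by simpa [h] using h2 0)

theorem sx14_pt_two (r c w : Fin 2 → ℕ) (hc : c 0 = c 1) :
    pt r c w = (if w 0 = r 0 ∧ w 1 = r 1 then 1 else 0) - (if w 0 = r 1 ∧ w 1 = r 0 then 1 else 0) := by
  unfold pt
  have hu : (univ : Finset (Equiv.Perm (Fin 2))) = {1, Equiv.swap 0 1} := by decide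
  have hne : (1 : Equiv.Perm (Fin 2)) ≠ Equiv.swap 0 1 := by decide
  rw [hu, Finset.sum_pair hne]
  have s1 : (Equiv.Perm.sign (1 : Equiv.Perm (Fin 2)) : ℤ) = 1 := by decide
  have s2 : (Equiv.Perm.sign (Equiv.swap 0 1 : Equiv.Perm (Fin 2)) : ℤ) = -1 := by decide
  have e0 : (Equiv.swap 0 1 : Equiv.Perm (Fin 2)) 0 = 1 := by decide
  have e1 : (Equiv.swap 0 1 : Equiv.Perm (Fin 2)) 1 = 0 := by decide
  rw [s1, s2]
  simp only [Fin.forall_fin_two, Equiv.Perm.one_apply, e0, e1, hc, true_and, and_self]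
  split_ifs <;> norm_num

theorem sx14_last (k : ℕ) (row col w : Fin (k + 1) → ℕ) (h : ∀ i : Fin k, col i.castSucc ≠ col (Fin.last k)) :
    pt row col w = pt (fun i : Fin k => row i.castSucc) (fun i => col i.castSucc) (fun i => w i.castSucc) *
      (if w (Fin.last k) = row (Fin.last k) then 1 else 0) := by
  rw [← sx14_equiv (finSumFinEquiv : Fin k ⊕ Fin 1 ≃ Fin (k + 1)) row col w]
  have key : ∀ f : Fin (k + 1) → ℕ, (fun x : Fin k ⊕ Fin 1 => f (finSumFinEquiv x)) =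
      Sum.elim (fun i : Fin k => f i.castSucc) (fun _ : Fin 1 => f (Fin.last k)) := by
    intro f
    funext x
    rcases x with i | j
    · rw [finSumFinEquiv_apply_left]
      rfl
    · rw [finSumFinEquiv_apply_right]
      have : Fin.natAdd k j = Fin.last k := by
        apply Fin.ext
        simp
      rw [this]
      rfl
  rw [key row, key col, key w, sx14_split _ _ _ _ _ _ (fun a _ => h a), sx14_pt_one]

theorem sx14_two (k : ℕ) (row col w : Fin (k + 2) → ℕ)
    (h : ∀ i : Fin k, col i.castSucc.castSucc ≠ col (Fin.last k).castSucc)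
    (h2 : col (Fin.last k).castSucc = col (Fin.last (k + 1))) :
    pt row col w = pt (fun i : Fin k => row i.castSucc.castSucc) (fun i => col i.castSucc.castSucc)
      (fun i => w i.castSucc.castSucc) *
      ((if w (Fin.last k).castSucc = row (Fin.last k).castSucc ∧
          w (Fin.last (k + 1)) = row (Fin.last (k + 1)) then 1 else 0) -
        (if w (Fin.last k).castSucc = row (Fin.last (k + 1)) ∧
          w (Fin.last (k + 1)) = row (Fin.last k).castSucc then 1 else 0)) := by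
  rw [← sx14_equiv (finSumFinEquiv : Fin k ⊕ Fin 2 ≃ Fin (k + 2)) row col w]
  have key : ∀ f : Fin (k + 2) → ℕ, (fun x : Fin k ⊕ Fin 2 => f (finSumFinEquiv x)) =
      Sum.elim (fun i : Fin k => f i.castSucc.castSucc)
        (fun j : Fin 2 => if j = 0 then f (Fin.last k).castSucc else f (Fin.last (k + 1))) := by
    intro f
    funext x
    rcases x with i | j
    · rw [finSumFinEquiv_apply_left]
      rfl
    · rw [finSumFinEquiv_apply_right]
      show f (Fin.natAdd k j) = if j = 0 then f (Fin.last k).castSucc else f (Fin.last (k + 1))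
      fin_cases j
      · show f (Fin.natAdd k 0) = f (Fin.last k).castSucc
        exact congrArg f (Fin.ext (by simp))
      · show f (Fin.natAdd k 1) = f (Fin.last (k + 1))
        exact congrArg f (Fin.ext (by simp))
  rw [key row, key col, key w, sx14_split, sx14_pt_two]
  · simp
  · simpa using h2
  · intro a b
    split_ifs
    · exact h a
    · rw [← h2]
      exact h a

/-- the first polytabloid without the last box -/
noncomputable def sx14_Q (m : ℕ) (u : Fin (2 * m) → Fin 2) : ℂ :=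
  ((pt (fun s : Fin (2 * m) => s.1 % 2) (fun s => s.1 / 2) (fun s => (u s : ℕ)) : ℤ) : ℂ)

/-- the second polytabloid -/
noncomputable def sx14_P (m : ℕ) (u : Fin (2 * m + 1) → Fin 2) : ℂ :=
  ((pt (fun s : Fin (2 * m + 1) => s.1 % 2) (fun s => (s.1 + 1) / 2) (fun s => (u s : ℕ)) : ℤ) : ℂ)

theorem sx14_JJ (a b : Fin 2) : (((if (a : ℕ) = 0 ∧ (b : ℕ) = 1 then 1 else 0) -
    (if (a : ℕ) = 1 ∧ (b : ℕ) = 0 then 1 else 0) : ℤ) : ℂ) = JJ a b := by
  fin_cases a <;> fin_cases b <;> simp [JJ]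

theorem sx14_JJ' (a b : Fin 2) : (((if (a : ℕ) = 1 ∧ (b : ℕ) = 0 then 1 else 0) -
    (if (a : ℕ) = 0 ∧ (b : ℕ) = 1 then 1 else 0) : ℤ) : ℂ) = JJ b a := by
  fin_cases a <;> fin_cases b <;> simp [JJ]

theorem sx14_first (m : ℕ) (w : Fin (2 * m + 1) → Fin 2) :
    ((pt (fun s : Fin (2 * m + 1) => s.1 % 2) (fun s => s.1 / 2) (fun s => (w s : ℕ)) : ℤ) : ℂ) =
      sx14_Q m (fun i => w i.castSucc) * if w (Fin.last (2 * m)) = 0 then 1 else 0 := by
  rw [sx14_last (2 * m)]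
  · unfold sx14_Q
    have e : ((w (Fin.last (2 * m)) : ℕ) = (Fin.last (2 * m)).1 % 2) ↔ w (Fin.last (2 * m)) = 0 := by
      rw [Fin.ext_iff]
      simp
    simp only [e]
    push_cast
    rfl
  · intro i
    have := i.2
    simp only [Fin.val_castSucc, Fin.val_last]
    omega

theorem sx14_Q_zero (u : Fin (2 * 0) → Fin 2) : sx14_Q 0 u = 1 := by
  unfold sx14_Q pt
  have : Unique (Equiv.Perm (Fin (2 * 0))) := inferInstanceAs (Unique (Equiv.Perm (Fin 0)))
  rw [Fintype.sum_unique]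
  have hs : ∀ σ : Equiv.Perm (Fin (2 * 0)), Equiv.Perm.sign σ = 1 := by
    intro σ
    rw [Subsingleton.elim σ 1, Equiv.Perm.sign_one]
  rw [if_pos]
  · rw [hs]
    simp
  · exact ⟨fun x => absurd x.2 (by omega), fun x => absurd x.2 (by omega)⟩

theorem sx14_Q_succ (m : ℕ) (w : Fin (2 * m + 1) → Fin 2) (a : Fin 2) :
    sx14_Q (m + 1) (Fin.snoc w a : Fin (2 * m + 1 + 1) → Fin 2) =
      sx14_Q m (fun i => w i.castSucc) * JJ (w (Fin.last (2 * m))) a := by
  unfold sx14_Q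
  have h := sx14_two (2 * m) (fun s => s.1 % 2) (fun s => s.1 / 2)
    (fun s => ((Fin.snoc w a : Fin (2 * m + 1 + 1) → Fin 2) s : ℕ)) (fun i => by
      have := i.2
      simp only [Fin.val_castSucc, Fin.val_last]
      omega) (by
      simp only [Fin.val_castSucc, Fin.val_last]
      omega)
  simp only [Fin.snoc_castSucc, Fin.snoc_last] at h
  have h' : (pt (fun s : Fin (2 * (m + 1)) => s.1 % 2) (fun s => s.1 / 2)
      (fun s => ((Fin.snoc w a : Fin (2 * m + 1 + 1) → Fin 2) s : ℕ)) : ℤ) = _ := h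
  rw [h']
  push_cast
  congr 1
  rw [← sx14_JJ]
  simp only [Fin.val_castSucc, Fin.val_last, show 2 * m % 2 = 0 by omega, show (2 * m + 1) % 2 = 1 by omega]
  push_cast
  rfl

theorem sx14_P_zero (w : Fin (2 * 0 + 1) → Fin 2) : sx14_P 0 w = if w 0 = 0 then 1 else 0 := by
  unfold sx14_P
  have h := sx14_pt_one (fun s : Fin (2 * 0 + 1) => s.1 % 2) (fun s => (s.1 + 1) / 2) (fun s => (w s : ℕ))
  rw [h]
  have e : ((w 0 : ℕ) = (0 : Fin 1).1 % 2) ↔ w 0 = 0 := by
    rw [Fin.ext_iff]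
    simp
  simp only [e]
  push_cast
  rfl

theorem sx14_P_succ (m : ℕ) (w : Fin (2 * m + 1) → Fin 2) (c d : Fin 2) :
    sx14_P (m + 1) (Fin.snoc (Fin.snoc w c : Fin (2 * m + 1 + 1) → Fin 2) d : Fin (2 * m + 1 + 1 + 1) → Fin 2) =
      sx14_P m w * JJ d c := by
  unfold sx14_P
  have h := sx14_two (2 * m + 1) (fun s => s.1 % 2) (fun s => (s.1 + 1) / 2)
    (fun s => ((Fin.snoc (Fin.snoc w c : Fin (2 * m + 1 + 1) → Fin 2) d :
      Fin (2 * m + 1 + 1 + 1) → Fin 2) s : ℕ)) (fun i => by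
      have := i.2
      simp only [Fin.val_castSucc, Fin.val_last]
      omega) (by
      simp only [Fin.val_castSucc, Fin.val_last]
      omega)
  simp only [Fin.snoc_castSucc, Fin.snoc_last] at h
  have h' : (pt (fun s : Fin (2 * (m + 1) + 1) => s.1 % 2) (fun s => (s.1 + 1) / 2)
      (fun s => ((Fin.snoc (Fin.snoc w c : Fin (2 * m + 1 + 1) → Fin 2) d :
        Fin (2 * m + 1 + 1 + 1) → Fin 2) s : ℕ)) : ℤ) = _ := h
  rw [h']
  push_cast
  congr 1
  rw [← sx14_JJ']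
  simp only [Fin.val_castSucc, Fin.val_last, show (2 * m + 1) % 2 = 1 by omega,
    show (2 * m + 1 + 1) % 2 = 0 by omega]
  push_cast
  rfl

theorem sx14_sum_snoc (n : ℕ) (f : (Fin (n + 1) → Fin 2) → ℂ) :
    ∑ w, f w = ∑ w : Fin n → Fin 2, ∑ a : Fin 2, f (Fin.snoc w a : Fin (n + 1) → Fin 2) := by
  rw [← (Fin.snocEquiv (fun _ : Fin (n + 1) => Fin 2)).sum_comp f, Fintype.sum_prod_type, Finset.sum_comm]
  rfl

/-- the double sum with free last letter of the first word -/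
noncomputable def sx14_F (m : ℕ) (X : ℕ → Matrix (Fin 2) (Fin 2) ℂ) (p : Fin 2) : ℂ :=
  ∑ w1 : Fin (2 * m + 1) → Fin 2, ∑ w2 : Fin (2 * m + 1) → Fin 2,
    (sx14_Q m (fun i => w1 i.castSucc) * (if w1 (Fin.last (2 * m)) = p then 1 else 0)) * sx14_P m w2 *
      ∏ s : Fin (2 * m + 1), X s.1 (w1 s) (w2 s)

/-- the transfer matrix -/
noncomputable def sx14_K (A B : Matrix (Fin 2) (Fin 2) ℂ) (q p : Fin 2) : ℂ :=
  ∑ a, ∑ c, ∑ d, JJ q a * A a c * JJ d c * B p d

theorem sx14_prod (m : ℕ) (X : ℕ → Matrix (Fin 2) (Fin 2) ℂ) (w1 w2 : Fin (2 * m + 1) → Fin 2)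
    (a b c d : Fin 2) :
    ∏ s : Fin (2 * m + 1 + 1 + 1), X s.1
      ((Fin.snoc (Fin.snoc w1 a : Fin (2 * m + 1 + 1) → Fin 2) b : Fin (2 * m + 1 + 1 + 1) → Fin 2) s)
      ((Fin.snoc (Fin.snoc w2 c : Fin (2 * m + 1 + 1) → Fin 2) d : Fin (2 * m + 1 + 1 + 1) → Fin 2) s) =
    (∏ s : Fin (2 * m + 1), X s.1 (w1 s) (w2 s)) * X (2 * m + 1) a c * X (2 * m + 2) b d := by
  rw [Fin.prod_univ_castSucc, Fin.prod_univ_castSucc]
  simp only [Fin.snoc_castSucc, Fin.snoc_last, Fin.val_castSucc, Fin.val_last]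

theorem sx14_step (m : ℕ) (X : ℕ → Matrix (Fin 2) (Fin 2) ℂ) (p : Fin 2) :
    sx14_F (m + 1) X p = ∑ q, sx14_F m X q * sx14_K (X (2 * m + 1)) (X (2 * m + 2)) q p := by
  have hR : ∑ q, sx14_F m X q * sx14_K (X (2 * m + 1)) (X (2 * m + 2)) q p =
      ∑ w1 : Fin (2 * m + 1) → Fin 2, ∑ w2 : Fin (2 * m + 1) → Fin 2,
        sx14_Q m (fun i => w1 i.castSucc) * sx14_P m w2 * (∏ s : Fin (2 * m + 1), X s.1 (w1 s) (w2 s)) *
          sx14_K (X (2 * m + 1)) (X (2 * m + 2)) (w1 (Fin.last (2 * m))) p := by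
    unfold sx14_F
    simp only [Finset.sum_mul]
    rw [Finset.sum_comm]
    refine Finset.sum_congr rfl fun w1 _ => ?_
    rw [Finset.sum_comm]
    refine Finset.sum_congr rfl fun w2 _ => ?_
    rw [Finset.sum_eq_single (w1 (Fin.last (2 * m)))]
    · rw [if_pos rfl]
      ring
    · intro q _ hq
      rw [if_neg (Ne.symm hq)]
      ring
    · intro h
      exact absurd (Finset.mem_univ _) h
  rw [hR]
  have hL : sx14_F (m + 1) X p =
      ∑ w1 : Fin (2 * m + 1) → Fin 2, ∑ a : Fin 2, ∑ b : Fin 2, ∑ w2 : Fin (2 * m + 1) → Fin 2,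
        ∑ c : Fin 2, ∑ d : Fin 2,
        (sx14_Q m (fun i => w1 i.castSucc) * JJ (w1 (Fin.last (2 * m))) a * (if b = p then 1 else 0)) *
          (sx14_P m w2 * JJ d c) *
          ((∏ s : Fin (2 * m + 1), X s.1 (w1 s) (w2 s)) * X (2 * m + 1) a c * X (2 * m + 2) b d) := by
    unfold sx14_F
    refine (sx14_sum_snoc (2 * m + 1 + 1) _).trans ?_
    refine (sx14_sum_snoc (2 * m + 1) _).trans ?_
    refine Finset.sum_congr rfl fun w1 _ => Finset.sum_congr rfl fun a _ =>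
      Finset.sum_congr rfl fun b _ => ?_
    refine (sx14_sum_snoc (2 * m + 1 + 1) _).trans ?_
    refine (sx14_sum_snoc (2 * m + 1) _).trans ?_
    refine Finset.sum_congr rfl fun w2 _ => Finset.sum_congr rfl fun c _ =>
      Finset.sum_congr rfl fun d _ => ?_
    have e1 : (fun i : Fin (2 * (m + 1)) =>
        (Fin.snoc (Fin.snoc w1 a : Fin (2 * m + 1 + 1) → Fin 2) b : Fin (2 * m + 1 + 1 + 1) → Fin 2)
          (Fin.castSucc (n := 2 * m + 1 + 1) i)) = (Fin.snoc w1 a : Fin (2 * m + 1 + 1) → Fin 2) := by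
      funext i
      exact Fin.snoc_castSucc (α := fun _ => Fin 2) _ _ _
    have e2 : (Fin.snoc (Fin.snoc w1 a : Fin (2 * m + 1 + 1) → Fin 2) b : Fin (2 * m + 1 + 1 + 1) → Fin 2)
        (Fin.last (2 * m + 1 + 1)) = b := Fin.snoc_last (α := fun _ => Fin 2) _ _
    have e3 := sx14_Q_succ m w1 a
    have e4 := sx14_P_succ m w2 c d
    have e5 := sx14_prod m X w1 w2 a b c d
    have e6 : (fun i : Fin (2 * (m + 1)) =>
        (Fin.snoc (Fin.snoc w1 a : Fin (2 * m + 1 + 1) → Fin 2) b : Fin (2 * m + 1 + 1 + 1) → Fin 2)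
          (Fin.castSucc (n := 2 * (m + 1)) i)) = (Fin.snoc w1 a : Fin (2 * m + 1 + 1) → Fin 2) := e1
    rw [e6, e3, e4]
    refine congrArg₂ (· * ·) ?_ e5
    refine congrArg₂ (· * ·) ?_ rfl
    refine congrArg₂ (· * ·) rfl ?_
    have e7 : (Fin.snoc (Fin.snoc w1 a : Fin (2 * m + 1 + 1) → Fin 2) b : Fin (2 * m + 1 + 1 + 1) → Fin 2)
        (Fin.last (2 * (m + 1))) = b := e2
    rw [e7]
  rw [hL]
  refine Finset.sum_congr rfl fun w1 _ => ?_
  unfold sx14_K
  simp only [Fin.sum_univ_two, ← Finset.sum_add_distrib]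
  refine Finset.sum_congr rfl fun w2 _ => ?_
  fin_cases p <;> simp <;> ring

theorem sx14_JJsq : (-JJ) * JJ = 1 := by
  ext i j
  fin_cases i <;> fin_cases j <;> simp [JJ, Matrix.mul_apply, Fin.sum_univ_two]

theorem sx14_conj (X : Matrix (Fin 2) (Fin 2) ℂ) : JJ * X.adjugate * (-JJ) = X.transpose := by
  rw [Matrix.adjugate_fin_two]
  ext i j
  fin_cases i <;> fin_cases j <;> simp [JJ, Matrix.mul_apply, Fin.sum_univ_two]

theorem sx14_K_eq (A B : Matrix (Fin 2) (Fin 2) ℂ) (q p : Fin 2) :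
    sx14_K A B q p = ((JJ * A * (-JJ)) * (JJ * B.adjugate * (-JJ))) q p := by
  rw [sx14_conj]
  unfold sx14_K
  simp only [Matrix.mul_apply, Fin.sum_univ_two, Matrix.neg_apply, Matrix.transpose_apply]
  fin_cases q <;> fin_cases p <;> simp [JJ] <;> ring

theorem sx14_main (m : ℕ) (X : ℕ → Matrix (Fin 2) (Fin 2) ℂ) (p : Fin 2) :
    sx14_F m X p = (JJ * alt m X * (-JJ)) 0 p := by
  induction m generalizing p with
  | zero =>
    show sx14_F 0 X p = (JJ * (X 0).adjugate * (-JJ)) 0 p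
    rw [sx14_conj]
    unfold sx14_F
    refine ((sx14_sum_snoc 0 _).trans ?_)
    have hu : ∀ f : (Fin 0 → Fin 2) → ℂ, ∑ w : Fin 0 → Fin 2, f w = f Fin.elim0 := by
      intro f
      rw [Fintype.sum_unique]
      congr 1
    rw [hu]
    have h2 : ∀ a : Fin 2, ∀ f : (Fin (2 * 0 + 1) → Fin 2) → ℂ, ∑ w, f w =
        ∑ c : Fin 2, f (Fin.snoc (Fin.elim0 : Fin 0 → Fin 2) c : Fin 1 → Fin 2) := by
      intro a f
      refine (sx14_sum_snoc 0 _).trans ?_
      rw [hu]
    simp only [h2 0, sx14_Q_zero, sx14_P_zero]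
    have e1 : ∀ a : Fin 2, (Fin.snoc (Fin.elim0 : Fin 0 → Fin 2) a : Fin 1 → Fin 2) 0 = a := by
      intro a
      rfl
    have e2 : ∀ a : Fin 2, (Fin.snoc (Fin.elim0 : Fin 0 → Fin 2) a : Fin 1 → Fin 2) (Fin.last (2 * 0)) = a := by
      intro a
      rfl
    have e3 : ∀ a c : Fin 2, ∏ s : Fin (2 * 0 + 1), X s.1
        ((Fin.snoc (Fin.elim0 : Fin 0 → Fin 2) a : Fin 1 → Fin 2) s)
        ((Fin.snoc (Fin.elim0 : Fin 0 → Fin 2) c : Fin 1 → Fin 2) s) = X 0 a c := by
      intro a c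
      refine (Fin.prod_univ_one _).trans ?_
      rfl
    simp only [e3]
    fin_cases p <;> simp [e1, Matrix.transpose_apply]
  | succ m ih =>
    rw [sx14_step]
    simp only [ih, sx14_K_eq]
    rw [← Matrix.mul_apply]
    refine congrFun (congrFun ?_ 0) p
    show JJ * alt m X * -JJ * (JJ * X (2 * m + 1) * -JJ * (JJ * (X (2 * m + 2)).adjugate * -JJ)) =
      JJ * (alt m X * X (2 * m + 1) * (X (2 * m + 2)).adjugate) * -JJ
    have h := sx14_JJsq
    calc JJ * alt m X * -JJ * (JJ * X (2 * m + 1) * -JJ * (JJ * (X (2 * m + 2)).adjugate * -JJ))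
        = JJ * alt m X * (-JJ * JJ) * X (2 * m + 1) * (-JJ * JJ) * (X (2 * m + 2)).adjugate * -JJ := by
          simp only [Matrix.mul_assoc]
      _ = _ := by
          rw [h]
          simp only [Matrix.mul_one, Matrix.mul_assoc]

theorem chain (m : ℕ) (X : ℕ → Matrix (Fin 2) (Fin 2) ℂ) :
    ∑ w1 : Fin (2 * m + 1) → Fin 2, ∑ w2 : Fin (2 * m + 1) → Fin 2,
      (pt (fun s : Fin (2 * m + 1) => s.1 % 2) (fun s => s.1 / 2) (fun s => (w1 s : ℕ)) : ℂ) *
      (pt (fun s : Fin (2 * m + 1) => s.1 % 2) (fun s => (s.1 + 1) / 2)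
        (fun s => (w2 s : ℕ)) : ℂ) * ∏ s : Fin (2 * m + 1), X s.1 (w1 s) (w2 s) =
      (JJ * alt m X * (-JJ)) 0 0 := by
  rw [← sx14_main]
  unfold sx14_F
  refine Finset.sum_congr rfl fun w1 _ => Finset.sum_congr rfl fun w2 _ => ?_
  rw [sx14_first]
  rfl

end Pool.Saxl
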