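import Mathlib
import Pool.Agent.Helper139_Saxl.Defs
import Pool.Agent.Helper139_Saxl.Defs2
import Pool.Agent.Helper139_Saxl.J01

set_option autoImplicit false

/-! Job SX-15: antisymmetry of alternating products of quaternion units. -/

namespace Pool.Saxl

open Finset

theorem sx15_qu_mod (r : ℕ) : qu r = qu (r % 4) := by
  simp [qu]

theorem sx15_det (r : ℕ) : (qu r).det = 1 := by
  have h : r % 4 = 0 ∨ r % 4 = 1 ∨ r % 4 = 2 ∨ r % 4 = 3 := by omega
  rcases h with h | h | h | h <;> simp [qu, h, Matrix.det_fin_two]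

theorem sx15_anti1 (r s : ℕ) (h : r % 4 ≠ s % 4) :
    (qu r).adjugate * qu s = - ((qu s).adjugate * qu r) := by
  have hr : r % 4 = 0 ∨ r % 4 = 1 ∨ r % 4 = 2 ∨ r % 4 = 3 := by omega
  have hs : s % 4 = 0 ∨ s % 4 = 1 ∨ s % 4 = 2 ∨ s % 4 = 3 := by omega
  rcases hr with hr | hr | hr | hr <;> rcases hs with hs | hs | hs | hs <;>
    first
      | (exfalso; omega)
      | (ext i j; fin_cases i <;> fin_cases j <;>
          simp [qu, hr, hs, Matrix.adjugate_fin_two_of, Matrix.mul_apply, Fin.sum_univ_two])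

theorem sx15_anti2 (r s : ℕ) (h : r % 4 ≠ s % 4) :
    qu r * (qu s).adjugate = - (qu s * (qu r).adjugate) := by
  have hr : r % 4 = 0 ∨ r % 4 = 1 ∨ r % 4 = 2 ∨ r % 4 = 3 := by omega
  have hs : s % 4 = 0 ∨ s % 4 = 1 ∨ s % 4 = 2 ∨ s % 4 = 3 := by omega
  rcases hr with hr | hr | hr | hr <;> rcases hs with hs | hs | hs | hs <;>
    first
      | (exfalso; omega)
      | (ext i j; fin_cases i <;> fin_cases j <;>
          simp [qu, hr, hs, Matrix.adjugate_fin_two_of, Matrix.mul_apply, Fin.sum_univ_two])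

theorem sx15_alt_congr (m : ℕ) (X Y : ℕ → Matrix (Fin 2) (Fin 2) ℂ)
    (h : ∀ s, s ≤ 2 * m → X s = Y s) : alt m X = alt m Y := by
  induction m with
  | zero => simp [alt, h 0 (le_refl _)]
  | succ m ih =>
    rw [alt, alt, ih (fun s hs => h s (by omega)), h (2 * m + 1) (by omega), h (2 * m + 2) (by omega)]

theorem sx15_alt_det (m : ℕ) (X : ℕ → Matrix (Fin 2) (Fin 2) ℂ) (h : ∀ s, (X s).det = 1) :
    (alt m X).det = 1 := by
  have hadj : ∀ s, (X s).adjugate.det = 1 := by
    intro s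
    rw [Matrix.det_adjugate, h]
    simp
  induction m with
  | zero => exact hadj 0
  | succ m ih => rw [alt, Matrix.det_mul, Matrix.det_mul, ih, h, hadj]; norm_num

theorem sx15_swap (m : ℕ) : ∀ (u u' : ℕ → ℕ) (s : ℕ), s + 1 ≤ 2 * m → u' s = u (s + 1) →
    u' (s + 1) = u s → (∀ t, t ≤ 2 * m → t ≠ s → t ≠ s + 1 → u' t = u t) →
    u s % 4 ≠ u (s + 1) % 4 →
    alt m (fun t => qu (u' t)) = - alt m (fun t => qu (u t)) := by
  induction m with
  | zero => intro u u' s hs; omega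
  | succ m ih =>
    intro u u' s hs h1 h2 h3 h4
    rcases Nat.lt_or_ge s (2 * m) with hlt | hge
    · rw [alt, alt, ih u u' s (by omega) h1 h2 (fun t ht a b => h3 t (by omega) a b) h4]
      rw [h3 (2 * m + 1) (by omega) (by omega) (by omega),
        h3 (2 * m + 2) (by omega) (by omega) (by omega)]
      simp
    · rcases Nat.eq_or_lt_of_le hge with heq | hgt
      · -- s = 2 m
        subst heq
        have e2 : u' (2 * m + 2) = u (2 * m + 2) := h3 _ (by omega) (by omega) (by omega)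
        rcases Nat.eq_zero_or_pos m with rfl | hm
        · simp only [alt]
          simp only [Nat.mul_zero, Nat.zero_add] at h1 h2 h4 e2 ⊢
          rw [h1, h2, e2, sx15_anti1 (u 1) (u 0) (Ne.symm h4)]
          simp
        · obtain ⟨k, rfl⟩ : ∃ k, m = k + 1 := ⟨m - 1, by omega⟩
          have ec : alt k (fun t => qu (u' t)) = alt k (fun t => qu (u t)) :=
            sx15_alt_congr k _ _ fun t ht => by
              rw [h3 t (by omega) (by omega) (by omega)]
          have e1 : u' (2 * k + 1) = u (2 * k + 1) := h3 _ (by omega) (by omega) (by omega)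
          have f1 : u' (2 * k + 2) = u (2 * (k + 1) + 1) := h1
          have f2 : u' (2 * (k + 1) + 1) = u (2 * k + 2) := h2
          have f3 : u (2 * k + 2) % 4 ≠ u (2 * (k + 1) + 1) % 4 := h4
          simp only [alt]
          rw [ec, e1, f1, f2, e2]
          have key := sx15_anti1 (u (2 * (k + 1) + 1)) (u (2 * k + 2)) (Ne.symm f3)
          rw [Matrix.mul_assoc (alt k (fun t => qu (u t)) * qu (u (2 * k + 1))), key]
          simp [Matrix.mul_assoc]
      · have hs1 : s = 2 * m + 1 := by omega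
        subst hs1
        have ec : alt m (fun t => qu (u' t)) = alt m (fun t => qu (u t)) :=
          sx15_alt_congr m _ _ fun t ht => by
            rw [h3 t (by omega) (by omega) (by omega)]
        have f1 : u' (2 * m + 1) = u (2 * m + 2) := h1
        have f2 : u' (2 * m + 2) = u (2 * m + 1) := h2
        have f3 : u (2 * m + 1) % 4 ≠ u (2 * m + 2) % 4 := h4
        simp only [alt]
        rw [ec, f1, f2, Matrix.mul_assoc, sx15_anti2 _ _ (Ne.symm f3)]
        simp [Matrix.mul_assoc]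

/-- the alternating product of a finite word -/
noncomputable def sx15_A (m : ℕ) (v : Fin (2 * m + 1) → ℕ) : Matrix (Fin 2) (Fin 2) ℂ :=
  alt m (fun s => if h : s < 2 * m + 1 then qu (v ⟨s, h⟩) else 1)

theorem sx15_A_eq (m : ℕ) (v : Fin (2 * m + 1) → ℕ) :
    sx15_A m v = alt m (fun s => qu (if h : s < 2 * m + 1 then v ⟨s, h⟩ else 0)) := by
  unfold sx15_A
  congr 1
  funext s
  by_cases h : s < 2 * m + 1
  · simp [h]
  · simp [h, qu]

theorem sx15_A_det (m : ℕ) (v : Fin (2 * m + 1) → ℕ) : (sx15_A m v).det = 1 := by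
  rw [sx15_A_eq]
  exact sx15_alt_det m _ fun s => sx15_det _

theorem sx15_A_swap (m : ℕ) (v : Fin (2 * m + 1) → ℕ) (i : Fin (2 * m))
    (h : v i.castSucc % 4 ≠ v i.succ % 4) :
    sx15_A m (v ∘ Equiv.swap i.castSucc i.succ) = - sx15_A m v := by
  rw [sx15_A_eq, sx15_A_eq]
  have hi : i.1 < 2 * m := i.2
  have ea : (⟨i.1, by omega⟩ : Fin (2 * m + 1)) = i.castSucc := rfl
  have eb : (⟨i.1 + 1, by omega⟩ : Fin (2 * m + 1)) = i.succ := rfl
  apply sx15_swap m _ _ i.1 (by omega)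
  · simp only [show i.1 < 2 * m + 1 by omega, show i.1 + 1 < 2 * m + 1 by omega, dif_pos,
      Function.comp, ea, eb, Equiv.swap_apply_left]
  · simp only [show i.1 < 2 * m + 1 by omega, show i.1 + 1 < 2 * m + 1 by omega, dif_pos,
      Function.comp, ea, eb, Equiv.swap_apply_right]
  · intro t ht h1 h2
    simp only [show t < 2 * m + 1 by omega, dif_pos, Function.comp]
    rw [Equiv.swap_apply_of_ne_of_ne]
    · intro he
      rw [← ea, Fin.mk.injEq] at he
      exact h1 he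
    · intro he
      rw [← eb, Fin.mk.injEq] at he
      exact h2 he
  · simp only [show i.1 < 2 * m + 1 by omega, show i.1 + 1 < 2 * m + 1 by omega, dif_pos, ea, eb]
    exact h

theorem sx15_row (n : ℕ) (r3 c3 : Fin n → ℕ) (hc : Monotone c3)
    (hr : ∀ s t : Fin n, t.1 = s.1 + 1 → c3 t = c3 s → r3 t = r3 s + 1) (d : ℕ) :
    ∀ x y : Fin n, y.1 = x.1 + d → c3 x = c3 y → r3 y = r3 x + d := by
  induction d with
  | zero =>
    intro x y h _
    have : x = y := Fin.ext (by omega)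
    subst this
    rfl
  | succ d ih =>
    intro x y h hxy
    have hz : x.1 + d < n := by have := y.2; omega
    set z : Fin n := ⟨x.1 + d, hz⟩ with hzdef
    have hxz : x ≤ z := by rw [Fin.le_def]; simp [hzdef]
    have hzy : z ≤ y := by rw [Fin.le_def]; simp only [hzdef]; omega
    have h1 : c3 x = c3 z := le_antisymm (hc hxz) (hxy ▸ hc hzy)
    have h2 := ih x z rfl h1
    have h3 := hr z y (by simp only [hzdef]; omega) (by rw [← hxy, h1])
    omega

theorem sx15_mod (n : ℕ) (r3 c3 : Fin n → ℕ) (hc : Monotone c3)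
    (hr : ∀ s t : Fin n, t.1 = s.1 + 1 → c3 t = c3 s → r3 t = r3 s + 1)
    (h4 : ∀ s t : Fin n, c3 s = c3 t → t.1 < s.1 + 4) (x y : Fin n) (hxy : c3 x = c3 y)
    (hne : x ≠ y) : r3 x % 4 ≠ r3 y % 4 := by
  have hne' : x.1 ≠ y.1 := fun h => hne (Fin.ext h)
  rcases Nat.lt_or_gt_of_ne hne' with h | h
  · have h1 := sx15_row n r3 c3 hc hr (y.1 - x.1) x y (by omega) hxy
    have h2 := h4 x y hxy
    omega
  · have h1 := sx15_row n r3 c3 hc hr (x.1 - y.1) y x (by omega) hxy.symm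
    have h2 := h4 y x hxy.symm
    omega

theorem sx15_claim (m : ℕ) (r3 c3 : Fin (2 * m + 1) → ℕ) (hc : Monotone c3)
    (hr : ∀ s t : Fin (2 * m + 1), t.1 = s.1 + 1 → c3 t = c3 s → r3 t = r3 s + 1)
    (h4 : ∀ s t : Fin (2 * m + 1), c3 s = c3 t → t.1 < s.1 + 4) (K : ℕ) :
    ∀ σ : Equiv.Perm (Fin (2 * m + 1)), (∀ x, c3 (σ x) = c3 x) →
      (2 * m + 1) * ((2 * m + 1) * (2 * m + 1)) ≤ K + ∑ s, s.1 * (σ s).1 →
      sx15_A m (r3 ∘ σ) = ((Equiv.Perm.sign σ : ℤ) : ℂ) • sx15_A m r3 := by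
  induction K with
  | zero =>
    intro σ _ hK
    exfalso
    have : ∑ s : Fin (2 * m + 1), s.1 * (σ s).1 < ∑ s : Fin (2 * m + 1), (2 * m + 1) * (2 * m + 1) := by
      refine Finset.sum_lt_sum_of_nonempty ⟨0, Finset.mem_univ _⟩ fun s _ => ?_
      exact Nat.mul_lt_mul'' s.2 (σ s).2
    simp only [Finset.sum_const, Finset.card_univ, Fintype.card_fin, smul_eq_mul] at this
    omega
  | succ K ih =>
    intro σ hσ hK
    by_cases hmono : ∀ i : Fin (2 * m), σ i.castSucc < σ i.succ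
    · have h1 : StrictMono σ := Fin.strictMono_iff_lt_succ.2 hmono
      have h2 : (σ : Fin (2 * m + 1) → Fin (2 * m + 1)) = id :=
        (StrictMono.range_inj h1 strictMono_id).1 (by simp)
      have h3 : σ = 1 := Equiv.ext fun x => congrFun h2 x
      subst h3
      simp
    · push Not at hmono
      obtain ⟨i, hi⟩ := hmono
      have hlt : σ i.succ < σ i.castSucc := lt_of_le_of_ne hi fun h => by
        have := σ.injective h
        exact absurd this (Fin.castSucc_lt_succ).ne'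
      have hcol : c3 i.castSucc = c3 i.succ := by
        apply le_antisymm (hc Fin.castSucc_lt_succ.le)
        rw [← hσ i.succ, ← hσ i.castSucc]
        exact hc hlt.le
      set a : Fin (2 * m + 1) := i.castSucc with ha
      set b : Fin (2 * m + 1) := i.succ with hb
      have hab : a ≠ b := (Fin.castSucc_lt_succ (i := i)).ne
      set τ : Equiv.Perm (Fin (2 * m + 1)) := σ * Equiv.swap a b with hτ
      have hτa : τ a = σ b := by simp [hτ]
      have hτb : τ b = σ a := by simp [hτ]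
      have hτo : ∀ x, x ≠ a → x ≠ b → τ x = σ x := by
        intro x h1 h2
        simp [hτ, Equiv.swap_apply_of_ne_of_ne h1 h2]
      have hτC : ∀ x, c3 (τ x) = c3 x := by
        intro x
        by_cases h1 : x = a
        · rw [h1, hτa, hσ, hcol]
        · by_cases h2 : x = b
          · rw [h2, hτb, hσ, hcol]
          · rw [hτo x h1 h2, hσ]
      have hsum : (∑ s, s.1 * (σ s).1) + 1 ≤ ∑ s, s.1 * (τ s).1 := by
        have hbm : b ∈ (Finset.univ.erase a) := by simp [hab.symm]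
        have e1 : ∀ π : Equiv.Perm (Fin (2 * m + 1)), ∑ s, s.1 * (π s).1 =
            (∑ s ∈ (Finset.univ.erase a).erase b, s.1 * (π s).1) + b.1 * (π b).1 + a.1 * (π a).1 := by
          intro π
          rw [Finset.sum_erase_add _ _ hbm, Finset.sum_erase_add _ _ (Finset.mem_univ a)]
        have e2 : ∑ s ∈ (Finset.univ.erase a).erase b, s.1 * (τ s).1 =
            ∑ s ∈ (Finset.univ.erase a).erase b, s.1 * (σ s).1 := by
          refine Finset.sum_congr rfl fun s hs => ?_
          rw [Finset.mem_erase, Finset.mem_erase] at hs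
          rw [hτo s hs.2.1 hs.1]
        rw [e1 σ, e1 τ, e2, hτa, hτb]
        have e3 : b.1 = a.1 + 1 := by simp [ha, hb]
        have e4 : (σ b).1 < (σ a).1 := hlt
        rw [e3]
        have e5 : (a.1 + 1) * (σ b).1 = a.1 * (σ b).1 + (σ b).1 := by ring
        have e6 : (a.1 + 1) * (σ a).1 = a.1 * (σ a).1 + (σ a).1 := by ring
        rw [e5, e6]
        omega
      have h1 := ih τ hτC (by omega)
      have hmod : (r3 ∘ σ) a % 4 ≠ (r3 ∘ σ) b % 4 := by
        apply sx15_mod _ r3 c3 hc hr h4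
        · rw [hσ, hσ, hcol]
        · exact fun h => hab (σ.injective h)
      have h2 := sx15_A_swap m (r3 ∘ σ) i hmod
      have h3 : r3 ∘ τ = (r3 ∘ σ) ∘ Equiv.swap a b := by
        funext x
        simp [hτ]
      have h4 : ((Equiv.Perm.sign τ : ℤ) : ℂ) = -((Equiv.Perm.sign σ : ℤ) : ℂ) := by
        rw [hτ, Equiv.Perm.sign_mul, Equiv.Perm.sign_swap hab]
        simp
      rw [h3, ha, hb, h2, h4, neg_smul] at h1
      exact neg_injective h1

theorem sx15_inner (m : ℕ) (r3 c3 : Fin (2 * m + 1) → ℕ) (N : ℕ) (hN : ∀ s, r3 s < N)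
    (σ : Equiv.Perm (Fin (2 * m + 1))) :
    ∑ w : Fin (2 * m + 1) → Fin N,
      (((if (∀ x, c3 (σ x) = c3 x) ∧ (∀ x, (w x : ℕ) = r3 (σ x)) then
        (Equiv.Perm.sign σ : ℤ) else 0 : ℤ)) : ℂ) • sx15_A m (fun s => (w s : ℕ)) =
      if (∀ x, c3 (σ x) = c3 x) then ((Equiv.Perm.sign σ : ℤ) : ℂ) • sx15_A m (r3 ∘ σ) else 0 := by
  by_cases hσ : ∀ x, c3 (σ x) = c3 x
  · rw [if_pos hσ]
    rw [Finset.sum_eq_single (fun x => (⟨r3 (σ x), hN _⟩ : Fin N))]
    · rw [if_pos ⟨hσ, fun x => rfl⟩]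
      rfl
    · intro w _ hw
      rw [if_neg]
      · simp
      · rintro ⟨-, h⟩
        exact hw (funext fun x => Fin.ext (h x))
    · intro h
      exact absurd (Finset.mem_univ _) h
  · rw [if_neg hσ]
    refine Finset.sum_eq_zero fun w _ => ?_
    rw [if_neg fun h => hσ h.1]
    simp

theorem quat_sum (m : ℕ) (r3 c3 : Fin (2 * m + 1) → ℕ) (hc : Monotone c3)
    (hr : ∀ s t : Fin (2 * m + 1), t.1 = s.1 + 1 → c3 t = c3 s → r3 t = r3 s + 1)
    (h4 : ∀ s t : Fin (2 * m + 1), c3 s = c3 t → t.1 < s.1 + 4) :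
    ∃ Q : Matrix (Fin 2) (Fin 2) ℂ, Q.det ≠ 0 ∧ ∀ N, (∀ s, r3 s < N) →
      ∑ w : Fin (2 * m + 1) → Fin N, (pt r3 c3 (fun s => (w s : ℕ)) : ℂ) •
        alt m (fun s => if h : s < 2 * m + 1 then qu (w ⟨s, h⟩) else 1) = Q := by
  classical
  set C : Finset (Equiv.Perm (Fin (2 * m + 1))) := Finset.univ.filter fun σ => ∀ x, c3 (σ x) = c3 x
    with hC
  refine ⟨(C.card : ℂ) • sx15_A m r3, ?_, fun N hN => ?_⟩
  · rw [Matrix.det_smul, sx15_A_det]
    have : C.card ≠ 0 := Finset.card_ne_zero.2 ⟨1, by simp [hC]⟩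
    simp [this]
  · have e1 : ∀ w : Fin (2 * m + 1) → Fin N, (pt r3 c3 (fun s => (w s : ℕ)) : ℂ) •
        alt m (fun s => if h : s < 2 * m + 1 then qu (w ⟨s, h⟩) else 1) =
        ∑ σ : Equiv.Perm (Fin (2 * m + 1)),
          (((if (∀ x, c3 (σ x) = c3 x) ∧ (∀ x, (w x : ℕ) = r3 (σ x)) then
        (Equiv.Perm.sign σ : ℤ) else 0 : ℤ)) : ℂ) • sx15_A m (fun s => (w s : ℕ)) := by
      intro w
      rw [← Finset.sum_smul]
      unfold pt sx15_A
      push_cast
      rfl
    rw [Finset.sum_congr rfl fun w _ => e1 w, Finset.sum_comm]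
    rw [Finset.sum_congr rfl fun σ _ => sx15_inner m r3 c3 N hN σ]
    rw [← Finset.sum_filter]
    have e2 : ∀ σ ∈ C, ((Equiv.Perm.sign σ : ℤ) : ℂ) • sx15_A m (r3 ∘ σ) = sx15_A m r3 := by
      intro σ hσ
      rw [hC, Finset.mem_filter] at hσ
      rw [sx15_claim m r3 c3 hc hr h4 _ σ hσ.2 (Nat.le_add_right _ _), smul_smul]
      have : ((Equiv.Perm.sign σ : ℤ) : ℂ) * ((Equiv.Perm.sign σ : ℤ) : ℂ) = 1 := by
        rcases Int.units_eq_one_or (Equiv.Perm.sign σ) with h | h <;> simp [h]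
      rw [this, one_smul]
    rw [Finset.sum_congr rfl e2, Finset.sum_const, ← Nat.cast_smul_eq_nsmul ℂ]

end Pool.Saxl
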