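import Mathlib
import Pool.Agent.Helper139_Saxl.Defs
import Pool.Agent.Helper139_Saxl.Defs2
import Pool.Agent.Helper139_Saxl.J01
import Pool.Agent.Helper139_Saxl.J05
import Pool.Agent.Helper139_Saxl.J14
import Pool.Agent.Helper139_Saxl.J15

set_option autoImplicit false

/-! Job GA-03: local lemma for words of even length. -/

namespace Pool.Saxl

open Finset

theorem ga03_equiv {Ω Ω' : Type} [Fintype Ω] [DecidableEq Ω] [Fintype Ω'] [DecidableEq Ω'] (e : Ω' ≃ Ω)
    (row col w : Ω → ℕ) : pt (fun x => row (e x)) (fun x => col (e x)) (fun x => w (e x)) = pt row col w := by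
  unfold pt
  refine Fintype.sum_equiv e.permCongr _ _ ?_
  intro σ
  have h1 : (∀ x, col (e (σ x)) = col (e x)) ↔ ∀ x, col (e.permCongr σ x) = col x := by
    constructor
    · intro h x
      have := h (e.symm x)
      simpa [Equiv.permCongr_apply] using this
    · intro h x
      have := h (e x)
      simpa [Equiv.permCongr_apply] using this
  have h2 : (∀ x, w (e x) = row (e (σ x))) ↔ ∀ x, w x = row (e.permCongr σ x) := by
    constructor
    · intro h x
      have := h (e.symm x)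
      simpa [Equiv.permCongr_apply] using this
    · intro h x
      have := h (e x)
      simpa [Equiv.permCongr_apply] using this
  rw [Equiv.Perm.sign_permCongr]
  by_cases h : (∀ x, col (e (σ x)) = col (e x)) ∧ (∀ x, w (e x) = row (e (σ x)))
  · rw [if_pos h, if_pos ⟨h1.1 h.1, h2.1 h.2⟩]
  · rw [if_neg h, if_neg (fun h' => h ⟨h1.2 h'.1, h2.2 h'.2⟩)]

theorem ga03_split {A B : Type} [Fintype A] [DecidableEq A] [Fintype B] [DecidableEq B]
    (rA cA wA : A → ℕ) (rB cB wB : B → ℕ) (h : ∀ a b, cA a ≠ cB b) :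
    pt (Sum.elim rA rB) (Sum.elim cA cB) (Sum.elim wA wB) = pt rA cA wA * pt rB cB wB := by
  refine pt_sum rA cA wA rB cB wB ?_
  intro σ hσ _ a
  rcases hx : σ (Sum.inl a) with a' | b
  · rfl
  · exfalso
    have := hσ (Sum.inl a)
    rw [hx] at this
    exact h a b this.symm

theorem ga03_pt_one (r c w : Fin 1 → ℕ) : pt r c w = if w 0 = r 0 then 1 else 0 := by
  unfold pt
  rw [Fintype.sum_unique]
  have h : ∀ x : Fin 1, (default : Equiv.Perm (Fin 1)) x = x := fun x => Subsingleton.elim _ _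
  have hs : (Equiv.Perm.sign (default : Equiv.Perm (Fin 1)) : ℤ) = 1 := by decide
  rw [hs]
  by_cases h0 : w 0 = r 0
  · rw [if_pos h0, if_pos]
    refine ⟨fun x => by rw [h], fun x => ?_⟩
    rw [h, Subsingleton.elim x 0]
    exact h0
  · rw [if_neg h0, if_neg]
    rintro ⟨_, h2⟩
    exact h0 (by simpa [h] using h2 0)

theorem ga03_pt_two (r c w : Fin 2 → ℕ) (hc : c 0 = c 1) :
    pt r c w = (if w 0 = r 0 ∧ w 1 = r 1 then 1 else 0) - (if w 0 = r 1 ∧ w 1 = r 0 then 1 else 0) := by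
  unfold pt
  have hu : (univ : Finset (Equiv.Perm (Fin 2))) = {1, Equiv.swap 0 1} := by decide
  have hne : (1 : Equiv.Perm (Fin 2)) ≠ Equiv.swap 0 1 := by decide
  rw [hu, Finset.sum_pair hne]
  have s1 : (Equiv.Perm.sign (1 : Equiv.Perm (Fin 2)) : ℤ) = 1 := by decide
  have s2 : (Equiv.Perm.sign (Equiv.swap 0 1 : Equiv.Perm (Fin 2)) : ℤ) = -1 := by decide
  have e0 : (Equiv.swap 0 1 : Equiv.Perm (Fin 2)) 0 = 1 := by decide
  have e1 : (Equiv.swap 0 1 : Equiv.Perm (Fin 2)) 1 = 0 := by decide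
  rw [s1, s2]
  simp only [Fin.forall_fin_two, Equiv.Perm.one_apply, e0, e1, hc, true_and, and_self]
  split_ifs <;> norm_num

theorem ga03_last (k : ℕ) (row col w : Fin (k + 1) → ℕ) (h : ∀ i : Fin k, col i.castSucc ≠ col (Fin.last k)) :
    pt row col w = pt (fun i : Fin k => row i.castSucc) (fun i => col i.castSucc) (fun i => w i.castSucc) *
      (if w (Fin.last k) = row (Fin.last k) then 1 else 0) := by
  rw [← ga03_equiv (finSumFinEquiv : Fin k ⊕ Fin 1 ≃ Fin (k + 1)) row col w]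
  have key : ∀ f : Fin (k + 1) → ℕ, (fun x : Fin k ⊕ Fin 1 => f (finSumFinEquiv x)) =
      Sum.elim (fun i : Fin k => f i.castSucc) (fun _ : Fin 1 => f (Fin.last k)) := by
    intro f
    funext x
    rcases x with i | j
    · rw [finSumFinEquiv_apply_left]
      rfl
    · rw [finSumFinEquiv_apply_right]
      have : Fin.natAdd k j = Fin.last k := by
        apply Fin.ext
        simp
      rw [this]
      rfl
  rw [key row, key col, key w, ga03_split _ _ _ _ _ _ (fun a _ => h a), ga03_pt_one]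

theorem ga03_two (k : ℕ) (row col w : Fin (k + 2) → ℕ)
    (h : ∀ i : Fin k, col i.castSucc.castSucc ≠ col (Fin.last k).castSucc)
    (h2 : col (Fin.last k).castSucc = col (Fin.last (k + 1))) :
    pt row col w = pt (fun i : Fin k => row i.castSucc.castSucc) (fun i => col i.castSucc.castSucc)
      (fun i => w i.castSucc.castSucc) *
      ((if w (Fin.last k).castSucc = row (Fin.last k).castSucc ∧
          w (Fin.last (k + 1)) = row (Fin.last (k + 1)) then 1 else 0) -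
        (if w (Fin.last k).castSucc = row (Fin.last (k + 1)) ∧
          w (Fin.last (k + 1)) = row (Fin.last k).castSucc then 1 else 0)) := by
  rw [← ga03_equiv (finSumFinEquiv : Fin k ⊕ Fin 2 ≃ Fin (k + 2)) row col w]
  have key : ∀ f : Fin (k + 2) → ℕ, (fun x : Fin k ⊕ Fin 2 => f (finSumFinEquiv x)) =
      Sum.elim (fun i : Fin k => f i.castSucc.castSucc)
        (fun j : Fin 2 => if j = 0 then f (Fin.last k).castSucc else f (Fin.last (k + 1))) := by
    intro f
    funext x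
    rcases x with i | j
    · rw [finSumFinEquiv_apply_left]
      rfl
    · rw [finSumFinEquiv_apply_right]
      show f (Fin.natAdd k j) = if j = 0 then f (Fin.last k).castSucc else f (Fin.last (k + 1))
      fin_cases j
      · show f (Fin.natAdd k 0) = f (Fin.last k).castSucc
        exact congrArg f (Fin.ext (by simp))
      · show f (Fin.natAdd k 1) = f (Fin.last (k + 1))
        exact congrArg f (Fin.ext (by simp))
  rw [key row, key col, key w, ga03_split, ga03_pt_two]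
  · simp
  · simpa using h2
  · intro a b
    split_ifs
    · exact h a
    · rw [← h2]
      exact h a

/-- the first polytabloid without the last box -/
noncomputable def ga03_Q (m : ℕ) (u : Fin (2 * m) → Fin 2) : ℂ :=
  ((pt (fun s : Fin (2 * m) => s.1 % 2) (fun s => s.1 / 2) (fun s => (u s : ℕ)) : ℤ) : ℂ)

/-- the second polytabloid -/
noncomputable def ga03_P (m : ℕ) (u : Fin (2 * m + 1) → Fin 2) : ℂ :=
  ((pt (fun s : Fin (2 * m + 1) => s.1 % 2) (fun s => (s.1 + 1) / 2) (fun s => (u s : ℕ)) : ℤ) : ℂ)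

theorem ga03_JJ (a b : Fin 2) : (((if (a : ℕ) = 0 ∧ (b : ℕ) = 1 then 1 else 0) -
    (if (a : ℕ) = 1 ∧ (b : ℕ) = 0 then 1 else 0) : ℤ) : ℂ) = JJ a b := by
  fin_cases a <;> fin_cases b <;> simp [JJ]

theorem ga03_JJ' (a b : Fin 2) : (((if (a : ℕ) = 1 ∧ (b : ℕ) = 0 then 1 else 0) -
    (if (a : ℕ) = 0 ∧ (b : ℕ) = 1 then 1 else 0) : ℤ) : ℂ) = JJ b a := by
  fin_cases a <;> fin_cases b <;> simp [JJ]

theorem ga03_first (m : ℕ) (w : Fin (2 * m + 1) → Fin 2) :
    ((pt (fun s : Fin (2 * m + 1) => s.1 % 2) (fun s => s.1 / 2) (fun s => (w s : ℕ)) : ℤ) : ℂ) =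
      ga03_Q m (fun i => w i.castSucc) * if w (Fin.last (2 * m)) = 0 then 1 else 0 := by
  rw [ga03_last (2 * m)]
  · unfold ga03_Q
    have e : ((w (Fin.last (2 * m)) : ℕ) = (Fin.last (2 * m)).1 % 2) ↔ w (Fin.last (2 * m)) = 0 := by
      rw [Fin.ext_iff]
      simp
    simp only [e]
    push_cast
    rfl
  · intro i
    have := i.2
    simp only [Fin.val_castSucc, Fin.val_last]
    omega

theorem ga03_Q_zero (u : Fin (2 * 0) → Fin 2) : ga03_Q 0 u = 1 := by
  unfold ga03_Q pt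
  have : Unique (Equiv.Perm (Fin (2 * 0))) := inferInstanceAs (Unique (Equiv.Perm (Fin 0)))
  rw [Fintype.sum_unique]
  have hs : ∀ σ : Equiv.Perm (Fin (2 * 0)), Equiv.Perm.sign σ = 1 := by
    intro σ
    rw [Subsingleton.elim σ 1, Equiv.Perm.sign_one]
  rw [if_pos]
  · rw [hs]
    simp
  · exact ⟨fun x => absurd x.2 (by omega), fun x => absurd x.2 (by omega)⟩

theorem ga03_Q_succ (m : ℕ) (w : Fin (2 * m + 1) → Fin 2) (a : Fin 2) :
    ga03_Q (m + 1) (Fin.snoc w a : Fin (2 * m + 1 + 1) → Fin 2) =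
      ga03_Q m (fun i => w i.castSucc) * JJ (w (Fin.last (2 * m))) a := by
  unfold ga03_Q
  have h := ga03_two (2 * m) (fun s => s.1 % 2) (fun s => s.1 / 2)
    (fun s => ((Fin.snoc w a : Fin (2 * m + 1 + 1) → Fin 2) s : ℕ)) (fun i => by
      have := i.2
      simp only [Fin.val_castSucc, Fin.val_last]
      omega) (by
      simp only [Fin.val_castSucc, Fin.val_last]
      omega)
  simp only [Fin.snoc_castSucc, Fin.snoc_last] at h
  have h' : (pt (fun s : Fin (2 * (m + 1)) => s.1 % 2) (fun s => s.1 / 2)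
      (fun s => ((Fin.snoc w a : Fin (2 * m + 1 + 1) → Fin 2) s : ℕ)) : ℤ) = _ := h
  rw [h']
  push_cast
  congr 1
  rw [← ga03_JJ]
  simp only [Fin.val_castSucc, Fin.val_last, show 2 * m % 2 = 0 by omega, show (2 * m + 1) % 2 = 1 by omega]
  push_cast
  rfl

theorem ga03_P_zero (w : Fin (2 * 0 + 1) → Fin 2) : ga03_P 0 w = if w 0 = 0 then 1 else 0 := by
  unfold ga03_P
  have h := ga03_pt_one (fun s : Fin (2 * 0 + 1) => s.1 % 2) (fun s => (s.1 + 1) / 2) (fun s => (w s : ℕ))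
  rw [h]
  have e : ((w 0 : ℕ) = (0 : Fin 1).1 % 2) ↔ w 0 = 0 := by
    rw [Fin.ext_iff]
    simp
  simp only [e]
  push_cast
  rfl

theorem ga03_P_succ (m : ℕ) (w : Fin (2 * m + 1) → Fin 2) (c d : Fin 2) :
    ga03_P (m + 1) (Fin.snoc (Fin.snoc w c : Fin (2 * m + 1 + 1) → Fin 2) d : Fin (2 * m + 1 + 1 + 1) → Fin 2) =
      ga03_P m w * JJ d c := by
  unfold ga03_P
  have h := ga03_two (2 * m + 1) (fun s => s.1 % 2) (fun s => (s.1 + 1) / 2)
    (fun s => ((Fin.snoc (Fin.snoc w c : Fin (2 * m + 1 + 1) → Fin 2) d :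
      Fin (2 * m + 1 + 1 + 1) → Fin 2) s : ℕ)) (fun i => by
      have := i.2
      simp only [Fin.val_castSucc, Fin.val_last]
      omega) (by
      simp only [Fin.val_castSucc, Fin.val_last]
      omega)
  simp only [Fin.snoc_castSucc, Fin.snoc_last] at h
  have h' : (pt (fun s : Fin (2 * (m + 1) + 1) => s.1 % 2) (fun s => (s.1 + 1) / 2)
      (fun s => ((Fin.snoc (Fin.snoc w c : Fin (2 * m + 1 + 1) → Fin 2) d :
        Fin (2 * m + 1 + 1 + 1) → Fin 2) s : ℕ)) : ℤ) = _ := h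
  rw [h']
  push_cast
  congr 1
  rw [← ga03_JJ']
  simp only [Fin.val_castSucc, Fin.val_last, show (2 * m + 1) % 2 = 1 by omega,
    show (2 * m + 1 + 1) % 2 = 0 by omega]
  push_cast
  rfl

theorem ga03_sum_snoc (n : ℕ) (f : (Fin (n + 1) → Fin 2) → ℂ) :
    ∑ w, f w = ∑ w : Fin n → Fin 2, ∑ a : Fin 2, f (Fin.snoc w a : Fin (n + 1) → Fin 2) := by
  rw [← (Fin.snocEquiv (fun _ : Fin (n + 1) => Fin 2)).sum_comp f, Fintype.sum_prod_type, Finset.sum_comm]
  rfl

/-- the double sum with free last letter of the first word -/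
noncomputable def ga03_F (m : ℕ) (X : ℕ → Matrix (Fin 2) (Fin 2) ℂ) (p : Fin 2) : ℂ :=
  ∑ w1 : Fin (2 * m + 1) → Fin 2, ∑ w2 : Fin (2 * m + 1) → Fin 2,
    (ga03_Q m (fun i => w1 i.castSucc) * (if w1 (Fin.last (2 * m)) = p then 1 else 0)) * ga03_P m w2 *
      ∏ s : Fin (2 * m + 1), X s.1 (w1 s) (w2 s)

/-- the transfer matrix -/
noncomputable def ga03_K (A B : Matrix (Fin 2) (Fin 2) ℂ) (q p : Fin 2) : ℂ :=
  ∑ a, ∑ c, ∑ d, JJ q a * A a c * JJ d c * B p d

theorem ga03_prod (m : ℕ) (X : ℕ → Matrix (Fin 2) (Fin 2) ℂ) (w1 w2 : Fin (2 * m + 1) → Fin 2)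
    (a b c d : Fin 2) :
    ∏ s : Fin (2 * m + 1 + 1 + 1), X s.1
      ((Fin.snoc (Fin.snoc w1 a : Fin (2 * m + 1 + 1) → Fin 2) b : Fin (2 * m + 1 + 1 + 1) → Fin 2) s)
      ((Fin.snoc (Fin.snoc w2 c : Fin (2 * m + 1 + 1) → Fin 2) d : Fin (2 * m + 1 + 1 + 1) → Fin 2) s) =
    (∏ s : Fin (2 * m + 1), X s.1 (w1 s) (w2 s)) * X (2 * m + 1) a c * X (2 * m + 2) b d := by
  rw [Fin.prod_univ_castSucc, Fin.prod_univ_castSucc]
  simp only [Fin.snoc_castSucc, Fin.snoc_last, Fin.val_castSucc, Fin.val_last]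

theorem ga03_step (m : ℕ) (X : ℕ → Matrix (Fin 2) (Fin 2) ℂ) (p : Fin 2) :
    ga03_F (m + 1) X p = ∑ q, ga03_F m X q * ga03_K (X (2 * m + 1)) (X (2 * m + 2)) q p := by
  have hR : ∑ q, ga03_F m X q * ga03_K (X (2 * m + 1)) (X (2 * m + 2)) q p =
      ∑ w1 : Fin (2 * m + 1) → Fin 2, ∑ w2 : Fin (2 * m + 1) → Fin 2,
        ga03_Q m (fun i => w1 i.castSucc) * ga03_P m w2 * (∏ s : Fin (2 * m + 1), X s.1 (w1 s) (w2 s)) *
          ga03_K (X (2 * m + 1)) (X (2 * m + 2)) (w1 (Fin.last (2 * m))) p := by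
    unfold ga03_F
    simp only [Finset.sum_mul]
    rw [Finset.sum_comm]
    refine Finset.sum_congr rfl fun w1 _ => ?_
    rw [Finset.sum_comm]
    refine Finset.sum_congr rfl fun w2 _ => ?_
    rw [Finset.sum_eq_single (w1 (Fin.last (2 * m)))]
    · rw [if_pos rfl]
      ring
    · intro q _ hq
      rw [if_neg (Ne.symm hq)]
      ring
    · intro h
      exact absurd (Finset.mem_univ _) h
  rw [hR]
  have hL : ga03_F (m + 1) X p =
      ∑ w1 : Fin (2 * m + 1) → Fin 2, ∑ a : Fin 2, ∑ b : Fin 2, ∑ w2 : Fin (2 * m + 1) → Fin 2,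
        ∑ c : Fin 2, ∑ d : Fin 2,
        (ga03_Q m (fun i => w1 i.castSucc) * JJ (w1 (Fin.last (2 * m))) a * (if b = p then 1 else 0)) *
          (ga03_P m w2 * JJ d c) *
          ((∏ s : Fin (2 * m + 1), X s.1 (w1 s) (w2 s)) * X (2 * m + 1) a c * X (2 * m + 2) b d) := by
    unfold ga03_F
    refine (ga03_sum_snoc (2 * m + 1 + 1) _).trans ?_
    refine (ga03_sum_snoc (2 * m + 1) _).trans ?_
    refine Finset.sum_congr rfl fun w1 _ => Finset.sum_congr rfl fun a _ =>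
      Finset.sum_congr rfl fun b _ => ?_
    refine (ga03_sum_snoc (2 * m + 1 + 1) _).trans ?_
    refine (ga03_sum_snoc (2 * m + 1) _).trans ?_
    refine Finset.sum_congr rfl fun w2 _ => Finset.sum_congr rfl fun c _ =>
      Finset.sum_congr rfl fun d _ => ?_
    have e1 : (fun i : Fin (2 * (m + 1)) =>
        (Fin.snoc (Fin.snoc w1 a : Fin (2 * m + 1 + 1) → Fin 2) b : Fin (2 * m + 1 + 1 + 1) → Fin 2)
          (Fin.castSucc (n := 2 * m + 1 + 1) i)) = (Fin.snoc w1 a : Fin (2 * m + 1 + 1) → Fin 2) := by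
      funext i
      exact Fin.snoc_castSucc (α := fun _ => Fin 2) _ _ _
    have e2 : (Fin.snoc (Fin.snoc w1 a : Fin (2 * m + 1 + 1) → Fin 2) b : Fin (2 * m + 1 + 1 + 1) → Fin 2)
        (Fin.last (2 * m + 1 + 1)) = b := Fin.snoc_last (α := fun _ => Fin 2) _ _
    have e3 := ga03_Q_succ m w1 a
    have e4 := ga03_P_succ m w2 c d
    have e5 := ga03_prod m X w1 w2 a b c d
    have e6 : (fun i : Fin (2 * (m + 1)) =>
        (Fin.snoc (Fin.snoc w1 a : Fin (2 * m + 1 + 1) → Fin 2) b : Fin (2 * m + 1 + 1 + 1) → Fin 2)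
          (Fin.castSucc (n := 2 * (m + 1)) i)) = (Fin.snoc w1 a : Fin (2 * m + 1 + 1) → Fin 2) := e1
    rw [e6, e3, e4]
    refine congrArg₂ (· * ·) ?_ e5
    refine congrArg₂ (· * ·) ?_ rfl
    refine congrArg₂ (· * ·) rfl ?_
    have e7 : (Fin.snoc (Fin.snoc w1 a : Fin (2 * m + 1 + 1) → Fin 2) b : Fin (2 * m + 1 + 1 + 1) → Fin 2)
        (Fin.last (2 * (m + 1))) = b := e2
    rw [e7]
  rw [hL]
  refine Finset.sum_congr rfl fun w1 _ => ?_
  unfold ga03_K
  simp only [Fin.sum_univ_two, ← Finset.sum_add_distrib]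
  refine Finset.sum_congr rfl fun w2 _ => ?_
  fin_cases p <;> simp <;> ring

theorem ga03_JJsq : (-JJ) * JJ = 1 := by
  ext i j
  fin_cases i <;> fin_cases j <;> simp [JJ, Matrix.mul_apply, Fin.sum_univ_two]

theorem ga03_conj (X : Matrix (Fin 2) (Fin 2) ℂ) : JJ * X.adjugate * (-JJ) = X.transpose := by
  rw [Matrix.adjugate_fin_two]
  ext i j
  fin_cases i <;> fin_cases j <;> simp [JJ, Matrix.mul_apply, Fin.sum_univ_two]

theorem ga03_K_eq (A B : Matrix (Fin 2) (Fin 2) ℂ) (q p : Fin 2) :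
    ga03_K A B q p = ((JJ * A * (-JJ)) * (JJ * B.adjugate * (-JJ))) q p := by
  rw [ga03_conj]
  unfold ga03_K
  simp only [Matrix.mul_apply, Fin.sum_univ_two, Matrix.neg_apply, Matrix.transpose_apply]
  fin_cases q <;> fin_cases p <;> simp [JJ] <;> ring

theorem ga03_main (m : ℕ) (X : ℕ → Matrix (Fin 2) (Fin 2) ℂ) (p : Fin 2) :
    ga03_F m X p = (JJ * alt m X * (-JJ)) 0 p := by
  induction m generalizing p with
  | zero =>
    show ga03_F 0 X p = (JJ * (X 0).adjugate * (-JJ)) 0 p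
    rw [ga03_conj]
    unfold ga03_F
    refine ((ga03_sum_snoc 0 _).trans ?_)
    have hu : ∀ f : (Fin 0 → Fin 2) → ℂ, ∑ w : Fin 0 → Fin 2, f w = f Fin.elim0 := by
      intro f
      rw [Fintype.sum_unique]
      congr 1
    rw [hu]
    have h2 : ∀ a : Fin 2, ∀ f : (Fin (2 * 0 + 1) → Fin 2) → ℂ, ∑ w, f w =
        ∑ c : Fin 2, f (Fin.snoc (Fin.elim0 : Fin 0 → Fin 2) c : Fin 1 → Fin 2) := by
      intro a f
      refine (ga03_sum_snoc 0 _).trans ?_
      rw [hu]
    simp only [h2 0, ga03_Q_zero, ga03_P_zero]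
    have e1 : ∀ a : Fin 2, (Fin.snoc (Fin.elim0 : Fin 0 → Fin 2) a : Fin 1 → Fin 2) 0 = a := by
      intro a
      rfl
    have e2 : ∀ a : Fin 2, (Fin.snoc (Fin.elim0 : Fin 0 → Fin 2) a : Fin 1 → Fin 2) (Fin.last (2 * 0)) = a := by
      intro a
      rfl
    have e3 : ∀ a c : Fin 2, ∏ s : Fin (2 * 0 + 1), X s.1
        ((Fin.snoc (Fin.elim0 : Fin 0 → Fin 2) a : Fin 1 → Fin 2) s)
        ((Fin.snoc (Fin.elim0 : Fin 0 → Fin 2) c : Fin 1 → Fin 2) s) = X 0 a c := by
      intro a c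
      refine (Fin.prod_univ_one _).trans ?_
      rfl
    simp only [e3]
    fin_cases p <;> simp [e1, Matrix.transpose_apply]
  | succ m ih =>
    rw [ga03_step]
    simp only [ih, ga03_K_eq]
    rw [← Matrix.mul_apply]
    refine congrFun (congrFun ?_ 0) p
    show JJ * alt m X * -JJ * (JJ * X (2 * m + 1) * -JJ * (JJ * (X (2 * m + 2)).adjugate * -JJ)) =
      JJ * (alt m X * X (2 * m + 1) * (X (2 * m + 2)).adjugate) * -JJ
    have h := ga03_JJsq
    calc JJ * alt m X * -JJ * (JJ * X (2 * m + 1) * -JJ * (JJ * (X (2 * m + 2)).adjugate * -JJ))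
        = JJ * alt m X * (-JJ * JJ) * X (2 * m + 1) * (-JJ * JJ) * (X (2 * m + 2)).adjugate * -JJ := by
          simp only [Matrix.mul_assoc]
      _ = _ := by
          rw [h]
          simp only [Matrix.mul_one, Matrix.mul_assoc]


/-! ### the open sum -/

theorem ga03_open (m : ℕ) (X : ℕ → Matrix (Fin 2) (Fin 2) ℂ) :
    ∑ w1 : Fin (2 * m + 1 + 1) → Fin 2, ∑ w2 : Fin (2 * m + 1 + 1) → Fin 2,
      (pt (fun s : Fin (2 * m + 1 + 1) => if s.1 = 2 * m + 1 then 0 else s.1 % 2) (fun s => (s.1 + 1) / 2)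
        (fun s => (w1 s : ℕ)) : ℂ) *
      (pt (fun s : Fin (2 * m + 1 + 1) => s.1 % 2) (fun s => s.1 / 2)
        (fun s => (w2 s : ℕ)) : ℂ) * ∏ s : Fin (2 * m + 1 + 1), X s.1 (w1 s) (w2 s) =
      (JJ * alt m (fun s => (X s).transpose) * (X (2 * m + 1)).transpose) 0 0 := by
  have hR : (JJ * alt m (fun s => (X s).transpose) * (X (2 * m + 1)).transpose) 0 0 =
      ∑ q, ga03_F m (fun s => (X s).transpose) q * (JJ * (X (2 * m + 1)).transpose) q 0 := by
    simp only [ga03_main]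
    rw [← Matrix.mul_apply]
    refine congrFun (congrFun ?_ 0) 0
    have h := ga03_JJsq
    calc JJ * alt m (fun s => (X s).transpose) * (X (2 * m + 1)).transpose
        = JJ * alt m (fun s => (X s).transpose) * 1 * (X (2 * m + 1)).transpose := by rw [Matrix.mul_one]
      _ = JJ * alt m (fun s => (X s).transpose) * (-JJ * JJ) * (X (2 * m + 1)).transpose := by rw [h]
      _ = _ := by simp only [Matrix.mul_assoc]
  rw [hR]
  have hR2 : ∑ q, ga03_F m (fun s => (X s).transpose) q * (JJ * (X (2 * m + 1)).transpose) q 0 =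
      ∑ v : Fin (2 * m + 1) → Fin 2, ∑ u : Fin (2 * m + 1) → Fin 2,
        ga03_Q m (fun i => u i.castSucc) * ga03_P m v * (∏ s : Fin (2 * m + 1), X s.1 (v s) (u s)) *
          (JJ * (X (2 * m + 1)).transpose) (u (Fin.last (2 * m))) 0 := by
    unfold ga03_F
    simp only [Finset.sum_mul, Matrix.transpose_apply]
    rw [Finset.sum_comm]
    rw [Finset.sum_comm (s := (univ : Finset (Fin (2 * m + 1) → Fin 2)))
      (t := (univ : Finset (Fin (2 * m + 1) → Fin 2)))]
    refine Finset.sum_congr rfl fun u _ => ?_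
    rw [Finset.sum_comm]
    refine Finset.sum_congr rfl fun v _ => ?_
    rw [Finset.sum_eq_single (u (Fin.last (2 * m)))]
    · rw [if_pos rfl]
      ring
    · intro q _ hq
      rw [if_neg (Ne.symm hq)]
      ring
    · intro h
      exact absurd (Finset.mem_univ _) h
  rw [hR2]
  refine (ga03_sum_snoc (2 * m + 1) _).trans ?_
  refine Finset.sum_congr rfl fun v _ => ?_
  have e1 : ∀ b : Fin 2, ((pt (fun s : Fin (2 * m + 1 + 1) => if s.1 = 2 * m + 1 then 0 else s.1 % 2)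
      (fun s => (s.1 + 1) / 2)
        (fun s => (((Fin.snoc v b : Fin (2 * m + 1 + 1) → Fin 2) s : Fin 2) : ℕ)) : ℤ) : ℂ) =
      ga03_P m v * if b = 0 then 1 else 0 := by
    intro b
    have h := ga03_last (2 * m + 1) (fun s : Fin (2 * m + 1 + 1) => if s.1 = 2 * m + 1 then 0 else s.1 % 2)
      (fun s => (s.1 + 1) / 2) (fun s => (((Fin.snoc v b : Fin (2 * m + 1 + 1) → Fin 2) s : Fin 2) : ℕ))
      (fun i => by
        have := i.2
        simp only [Fin.val_castSucc, Fin.val_last]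
        omega)
    rw [h]
    simp only [Fin.snoc_castSucc, Fin.snoc_last, Fin.val_castSucc, Fin.val_last, if_true]
    have e2 : (fun i : Fin (2 * m + 1) => if i.1 = 2 * m + 1 then 0 else i.1 % 2) = fun i => i.1 % 2 := by
      funext i
      rw [if_neg (by have := i.2; omega)]
    rw [e2]
    have e3 : ((b : ℕ) = 0) ↔ b = 0 := by
      rw [Fin.ext_iff]
      simp
    simp only [e3]
    unfold ga03_P
    push_cast
    rfl
  have e4 : ∀ b : Fin 2, ∀ w2 : Fin (2 * m + 1 + 1) → Fin 2, True := fun _ _ => trivial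
  simp only [e1]
  have e5 : ∀ b : Fin 2, ∑ w2 : Fin (2 * m + 1 + 1) → Fin 2,
      (ga03_P m v * if b = 0 then 1 else 0) *
        ((pt (fun s : Fin (2 * m + 1 + 1) => s.1 % 2) (fun s => s.1 / 2) (fun s => (w2 s : ℕ)) : ℤ) : ℂ) *
        ∏ s : Fin (2 * m + 1 + 1), X s.1 ((Fin.snoc v b : Fin (2 * m + 1 + 1) → Fin 2) s) (w2 s) =
      ∑ u : Fin (2 * m + 1) → Fin 2, ∑ d : Fin 2, (ga03_P m v * if b = 0 then 1 else 0) *
        (ga03_Q m (fun i => u i.castSucc) * JJ (u (Fin.last (2 * m))) d) *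
        ((∏ s : Fin (2 * m + 1), X s.1 (v s) (u s)) * X (2 * m + 1) b d) := by
    intro b
    refine (ga03_sum_snoc (2 * m + 1) _).trans ?_
    refine Finset.sum_congr rfl fun u _ => Finset.sum_congr rfl fun d _ => ?_
    have e6 := ga03_Q_succ m u d
    unfold ga03_Q at e6
    have e7 : ((pt (fun s : Fin (2 * m + 1 + 1) => s.1 % 2) (fun s => s.1 / 2)
        (fun s => (((Fin.snoc u d : Fin (2 * m + 1 + 1) → Fin 2) s : Fin 2) : ℕ)) : ℤ) : ℂ) =
        ga03_Q m (fun i => u i.castSucc) * JJ (u (Fin.last (2 * m))) d := e6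
    rw [e7]
    congr 1
    rw [Fin.prod_univ_castSucc]
    simp only [Fin.snoc_castSucc, Fin.snoc_last, Fin.val_castSucc, Fin.val_last]
  rw [Fin.sum_univ_two, e5 0, e5 1]
  have e8 : ∑ u : Fin (2 * m + 1) → Fin 2, ∑ d : Fin 2, (ga03_P m v * if (1 : Fin 2) = 0 then 1 else 0) *
        (ga03_Q m (fun i => u i.castSucc) * JJ (u (Fin.last (2 * m))) d) *
        ((∏ s : Fin (2 * m + 1), X s.1 (v s) (u s)) * X (2 * m + 1) 1 d) = 0 := by
    apply Finset.sum_eq_zero
    intro u _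
    apply Finset.sum_eq_zero
    intro d _
    simp
  rw [e8, add_zero]
  refine Finset.sum_congr rfl fun u _ => ?_
  rw [Matrix.mul_apply]
  simp only [Fin.sum_univ_two, if_true, Matrix.transpose_apply]
  ring

/-- `X₀ * adj X₁ * X₂ * adj X₃ * …` -/
noncomputable def ga03_PP (m : ℕ) (X : ℕ → Matrix (Fin 2) (Fin 2) ℂ) : Matrix (Fin 2) (Fin 2) ℂ :=
  X 0 * alt m (fun s => X (s + 1))

theorem ga03_two_mat (A B : Matrix (Fin 2) (Fin 2) ℂ) :
    JJ * A.transpose.adjugate * B.transpose = A * B.adjugate * JJ := by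
  rw [Matrix.adjugate_fin_two, Matrix.adjugate_fin_two]
  ext i j
  fin_cases i <;> fin_cases j <;> simp [JJ, Matrix.mul_apply, Fin.sum_univ_two] <;> ring

theorem ga03_conv (m : ℕ) (X : ℕ → Matrix (Fin 2) (Fin 2) ℂ) :
    JJ * alt m (fun s => (X s).transpose) * (X (2 * m + 1)).transpose = ga03_PP m X * JJ := by
  unfold ga03_PP
  induction m with
  | zero =>
    simp only [alt]
    exact ga03_two_mat (X 0) (X 1)
  | succ m ih =>
    simp only [alt]
    have h1 : 2 * (m + 1) + 1 = 2 * m + 2 + 1 := by ring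
    rw [h1]
    have h2 := ga03_two_mat (X (2 * m + 2)) (X (2 * m + 2 + 1))
    calc JJ * (alt m (fun s => (X s).transpose) * (X (2 * m + 1)).transpose * ((X (2 * m + 2)).transpose).adjugate) *
          (X (2 * m + 2 + 1)).transpose
        = (JJ * alt m (fun s => (X s).transpose) * (X (2 * m + 1)).transpose) *
          (((X (2 * m + 2)).transpose).adjugate * (X (2 * m + 2 + 1)).transpose) := by
          simp only [Matrix.mul_assoc]
      _ = X 0 * alt m (fun s => X (s + 1)) * (JJ * ((X (2 * m + 2)).transpose).adjugate *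
          (X (2 * m + 2 + 1)).transpose) := by
          rw [ih]
          simp only [Matrix.mul_assoc]
      _ = _ := by
          rw [h2]
          simp only [Matrix.mul_assoc]

theorem ga03_alt_succ (m : ℕ) (Y : ℕ → Matrix (Fin 2) (Fin 2) ℂ) :
    alt (m + 1) Y = (Y 0).adjugate * ga03_PP m (fun s => Y (s + 1)) := by
  unfold ga03_PP
  induction m with
  | zero => simp only [alt, Matrix.mul_assoc]
  | succ m ih =>
    rw [alt, ih]
    simp only [alt, Matrix.mul_assoc]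
    rfl

theorem ga03_alt_mul (g : Matrix (Fin 2) (Fin 2) ℂ) (hg : g.adjugate * g = 1)
    (F : ℕ → Matrix (Fin 2) (Fin 2) ℂ) (m : ℕ) :
    alt m (fun s => g * F s) = alt m F * g.adjugate := by
  induction m with
  | zero => simp only [alt]; rw [Matrix.adjugate_mul_distrib]
  | succ m ih =>
    simp only [alt]
    rw [ih, Matrix.adjugate_mul_distrib]
    calc alt m F * g.adjugate * (g * F (2 * m + 1)) * ((F (2 * m + 2)).adjugate * g.adjugate)
        = alt m F * (g.adjugate * g) * F (2 * m + 1) * (F (2 * m + 2)).adjugate * g.adjugate := by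
          simp only [Matrix.mul_assoc]
      _ = _ := by
          rw [hg, Matrix.mul_one]

theorem ga03_PP_mul (g : Matrix (Fin 2) (Fin 2) ℂ) (hg : g.adjugate * g = 1)
    (F : ℕ → Matrix (Fin 2) (Fin 2) ℂ) (m : ℕ) :
    ga03_PP m (fun s => g * F s) = g * ga03_PP m F * g.adjugate := by
  unfold ga03_PP
  have := ga03_alt_mul g hg (fun s => F (s + 1)) m
  simp only at this ⊢
  rw [this]
  simp only [Matrix.mul_assoc]

theorem ga03_alt_congr (m : ℕ) (X Y : ℕ → Matrix (Fin 2) (Fin 2) ℂ) (h : ∀ s, s ≤ 2 * m → X s = Y s) :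
    alt m X = alt m Y := by
  induction m with
  | zero => simp only [alt]; rw [h 0 le_rfl]
  | succ m ih =>
    simp only [alt]
    rw [ih (fun s hs => h s (by omega)), h (2 * m + 1) (by omega), h (2 * m + 2) (by omega)]

theorem ga03_alt_last (m : ℕ) (X Y : ℕ → Matrix (Fin 2) (Fin 2) ℂ) (E : Matrix (Fin 2) (Fin 2) ℂ)
    (h : ∀ s, s < 2 * m → X s = Y s) (h2 : X (2 * m) = E * Y (2 * m)) :
    alt m X = alt m Y * E.adjugate := by
  cases m with
  | zero =>
    simp only [alt]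
    rw [mul_zero] at h2
    rw [h2, Matrix.adjugate_mul_distrib]
  | succ m =>
    simp only [alt]
    have h3 : X (2 * m + 2) = E * Y (2 * m + 2) := h2
    rw [ga03_alt_congr m X Y (fun s hs => h s (by omega)), h (2 * m + 1) (by omega), h3,
      Matrix.adjugate_mul_distrib]
    simp only [Matrix.mul_assoc]

/-! ### coordinates: the two ends and the middle -/

theorem ga03_sum_cons (n : ℕ) {N : ℕ} (f : (Fin (n + 1) → Fin N) → ℂ) :
    ∑ w, f w = ∑ a : Fin N, ∑ u : Fin n → Fin N, f (Fin.cons a u : Fin (n + 1) → Fin N) := by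
  rw [← (Fin.consEquiv (fun _ : Fin (n + 1) => Fin N)).sum_comp f, Fintype.sum_prod_type]
  rfl

/-- the word with the ends `a`, `b` and the middle `u` -/
def ga03_W (n : ℕ) (a b : Fin 2) (u : Fin n → Fin 2) : Fin (n + 1 + 1) → Fin 2 :=
  (Fin.snoc (Fin.cons a u : Fin (n + 1) → Fin 2) b : Fin (n + 1 + 1) → Fin 2)

theorem ga03_sum_W (n : ℕ) (f : (Fin (n + 1 + 1) → Fin 2) → ℂ) :
    ∑ w, f w = ∑ a : Fin 2, ∑ b : Fin 2, ∑ u : Fin n → Fin 2, f (ga03_W n a b u) := by
  refine (ga03_sum_snoc (n + 1) _).trans ?_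
  refine (ga03_sum_cons n _).trans ?_
  refine Finset.sum_congr rfl fun a _ => ?_
  exact Finset.sum_comm

theorem ga03_W_zero (n : ℕ) (a b : Fin 2) (u : Fin n → Fin 2) : ga03_W n a b u 0 = a := by
  have : (0 : Fin (n + 1 + 1)) = Fin.castSucc (0 : Fin (n + 1)) := rfl
  unfold ga03_W
  rw [this, Fin.snoc_castSucc]
  rfl

theorem ga03_W_last (n : ℕ) (a b : Fin 2) (u : Fin n → Fin 2) : ga03_W n a b u (Fin.last (n + 1)) = b := by
  unfold ga03_W
  rw [Fin.snoc_last]

theorem ga03_W_mid (n : ℕ) (a b : Fin 2) (u : Fin n → Fin 2) (i : Fin n) :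
    ga03_W n a b u i.succ.castSucc = u i := by
  unfold ga03_W
  rw [Fin.snoc_castSucc]
  rfl

/-- the ends in front -/
noncomputable def ga03_e (n : ℕ) : Fin 2 ⊕ Fin n ≃ Fin (n + 1 + 1) :=
  Equiv.ofBijective (Sum.elim (fun j : Fin 2 => if j = 0 then 0 else Fin.last (n + 1))
    (fun i => i.succ.castSucc)) (by
    rw [Fintype.bijective_iff_injective_and_card]
    constructor
    · rintro (j | i) (j' | i') h
      · simp only [Sum.elim_inl] at h
        fin_cases j <;> fin_cases j'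
        · rfl
        · exfalso
          rw [Fin.ext_iff] at h
          simp at h
        · exfalso
          rw [Fin.ext_iff] at h
          simp at h
        · rfl
      · simp only [Sum.elim_inl, Sum.elim_inr] at h
        exfalso
        rw [Fin.ext_iff] at h
        have := i'.2
        fin_cases j <;> simp at h
        omega
      · simp only [Sum.elim_inl, Sum.elim_inr] at h
        exfalso
        rw [Fin.ext_iff] at h
        have := i.2
        fin_cases j' <;> simp at h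
        omega
      · simp only [Sum.elim_inr] at h
        rw [Fin.ext_iff] at h
        simp at h
        rw [Fin.ext h]
    · simp
      omega)

theorem ga03_pt_ends (n : ℕ) (row col : Fin (n + 1 + 1) → ℕ) (a b : Fin 2) (u : Fin n → Fin 2)
    (h0 : ∀ i : Fin n, col 0 ≠ col i.succ.castSucc)
    (h1 : ∀ i : Fin n, col (Fin.last (n + 1)) ≠ col i.succ.castSucc) :
    pt row col (fun s => ((ga03_W n a b u s : Fin 2) : ℕ)) =
      pt (fun j : Fin 2 => if j = 0 then row 0 else row (Fin.last (n + 1)))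
        (fun j : Fin 2 => if j = 0 then col 0 else col (Fin.last (n + 1)))
        (fun j : Fin 2 => if j = 0 then (a : ℕ) else (b : ℕ)) *
      pt (fun i : Fin n => row i.succ.castSucc) (fun i => col i.succ.castSucc) (fun i => (u i : ℕ)) := by
  rw [← ga03_equiv (ga03_e n) row col _]
  have key : ∀ f : Fin (n + 1 + 1) → ℕ, (fun x : Fin 2 ⊕ Fin n => f (ga03_e n x)) =
      Sum.elim (fun j : Fin 2 => if j = 0 then f 0 else f (Fin.last (n + 1)))
        (fun i => f i.succ.castSucc) := by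
    intro f
    funext x
    rcases x with j | i
    · show f (if j = 0 then 0 else Fin.last (n + 1)) = _
      simp only [Sum.elim_inl]
      split_ifs <;> rfl
    · rfl
  rw [key row, key col, key (fun s => ((ga03_W n a b u s : Fin 2) : ℕ)), ga03_split]
  · simp only [ga03_W_zero, ga03_W_last, ga03_W_mid]
  · intro j i
    split_ifs
    · exact h0 i
    · exact h1 i

theorem ga03_pt_two_sep (r c w : Fin 2 → ℕ) (hc : c 0 ≠ c 1) :
    pt r c w = if w 0 = r 0 ∧ w 1 = r 1 then 1 else 0 := by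
  unfold pt
  have hu : (univ : Finset (Equiv.Perm (Fin 2))) = {1, Equiv.swap 0 1} := by decide
  have hne : (1 : Equiv.Perm (Fin 2)) ≠ Equiv.swap 0 1 := by decide
  rw [hu, Finset.sum_pair hne]
  have s1 : (Equiv.Perm.sign (1 : Equiv.Perm (Fin 2)) : ℤ) = 1 := by decide
  have e0 : (Equiv.swap 0 1 : Equiv.Perm (Fin 2)) 0 = 1 := by decide
  have h2 : ¬ ((∀ x, c ((Equiv.swap 0 1 : Equiv.Perm (Fin 2)) x) = c x) ∧
      ∀ x, w x = r ((Equiv.swap 0 1 : Equiv.Perm (Fin 2)) x)) := by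
    rintro ⟨h, _⟩
    have := h 0
    rw [e0] at this
    exact hc this.symm
  rw [if_neg h2, s1, add_zero]
  simp only [Fin.forall_fin_two, Equiv.Perm.one_apply, true_and, and_self]

/-- the polytabloid of the middle -/
noncomputable def ga03_mid (m : ℕ) (u : Fin (2 * m) → Fin 2) : ℂ :=
  ((pt (fun i : Fin (2 * m) => (i.1 + 1) % 2) (fun i => (i.1 + 2) / 2) (fun i => (u i : ℕ)) : ℤ) : ℂ)

theorem ga03_ends_open (m : ℕ) (a b : Fin 2) (u : Fin (2 * m) → Fin 2) :
    ((pt (fun s : Fin (2 * m + 1 + 1) => if s.1 = 2 * m + 1 then 0 else s.1 % 2) (fun s => (s.1 + 1) / 2)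
        (fun s => ((ga03_W (2 * m) a b u s : Fin 2) : ℕ)) : ℤ) : ℂ) =
      (if a = 0 ∧ b = 0 then 1 else 0) * ga03_mid m u := by
  rw [ga03_pt_ends]
  · rw [ga03_pt_two_sep]
    · have e1 : (fun i : Fin (2 * m) => if (i.succ.castSucc : Fin (2 * m + 1 + 1)).1 = 2 * m + 1 then 0 else
          (i.succ.castSucc : Fin (2 * m + 1 + 1)).1 % 2) = fun i => (i.1 + 1) % 2 := by
        funext i
        have := i.2
        rw [if_neg]
        · simp
        · simp
          omega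
      rw [e1]
      have e2 : (fun i : Fin (2 * m) => ((i.succ.castSucc : Fin (2 * m + 1 + 1)).1 + 1) / 2) =
          fun i => (i.1 + 2) / 2 := by
        funext i
        simp only [Fin.val_castSucc, Fin.val_succ]
      rw [e2]
      unfold ga03_mid
      have e3 : ∀ a : Fin 2, ((a : ℕ) = 0) ↔ a = 0 := by
        intro a
        rw [Fin.ext_iff]
        simp
      simp [e3]
    · simp
      omega
  · intro i
    have := i.2
    simp
    omega
  · intro i
    have := i.2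
    simp
    omega

theorem ga03_ends_closed (m : ℕ) (a b : Fin 2) (u : Fin (2 * m) → Fin 2) :
    ((pt (fun s : Fin (2 * m + 1 + 1) => s.1 % 2) (fun s => ((s.1 + 1) / 2) % (m + 1))
        (fun s => ((ga03_W (2 * m) a b u s : Fin 2) : ℕ)) : ℤ) : ℂ) =
      JJ a b * ga03_mid m u := by
  have hmod : ∀ i : Fin (2 * m), ((i.1 + 2) / 2) % (m + 1) = (i.1 + 2) / 2 := by
    intro i
    apply Nat.mod_eq_of_lt
    have := i.2
    omega
  have hlast : ((2 * m + 1 + 1) / 2) % (m + 1) = 0 := by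
    have : (2 * m + 1 + 1) / 2 = m + 1 := by omega
    rw [this, Nat.mod_self]
  rw [ga03_pt_ends]
  · rw [ga03_pt_two]
    · have e1 : (fun i : Fin (2 * m) => (i.succ.castSucc : Fin (2 * m + 1 + 1)).1 % 2) =
          fun i => (i.1 + 1) % 2 := by
        funext i
        simp
      rw [e1]
      have e2 : (fun i : Fin (2 * m) => (((i.succ.castSucc : Fin (2 * m + 1 + 1)).1 + 1) / 2) % (m + 1)) =
          fun i => (i.1 + 2) / 2 := by
        funext i
        simp only [Fin.val_castSucc, Fin.val_succ]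
        exact hmod i
      rw [e2]
      unfold ga03_mid
      rw [← ga03_JJ]
      simp only [if_true, one_ne_zero, if_false, Fin.val_last, Fin.val_zero,
        show (2 * m + 1) % 2 = 1 by omega, Nat.zero_mod]
      push_cast
      rfl
    · simp only [if_true, one_ne_zero, if_false, Fin.val_last, Fin.val_zero]
      rw [hlast]
      simp
  · intro i
    simp only [Fin.val_castSucc, Fin.val_succ, Fin.val_zero]
    rw [hmod i]
    simp
  · intro i
    simp only [Fin.val_castSucc, Fin.val_succ, Fin.val_last]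
    rw [hmod i, hlast]
    omega

theorem ga03_prod_W (n : ℕ) (X : ℕ → Matrix (Fin 2) (Fin 2) ℂ) (a b : Fin 2) (u : Fin n → Fin 2)
    (w2 : Fin (n + 1 + 1) → Fin 2) :
    ∏ s : Fin (n + 1 + 1), X s.1 (ga03_W n a b u s) (w2 s) =
      X 0 a (w2 0) * (∏ i : Fin n, X (i.1 + 1) (u i) (w2 i.succ.castSucc)) *
        X (n + 1) b (w2 (Fin.last (n + 1))) := by
  rw [Fin.prod_univ_castSucc, Fin.prod_univ_succ]
  have h0 : (Fin.castSucc (0 : Fin (n + 1))) = (0 : Fin (n + 1 + 1)) := rfl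
  simp only [ga03_W_last, ga03_W_mid, Fin.val_castSucc, Fin.val_succ, Fin.val_last, Fin.val_zero, h0,
    ga03_W_zero]

/-- the matrices with the first one replaced by its row `a` and the last one by its row `b` -/
noncomputable def ga03_X (m : ℕ) (a b : Fin 2) (X : ℕ → Matrix (Fin 2) (Fin 2) ℂ) (s : ℕ) :
    Matrix (Fin 2) (Fin 2) ℂ :=
  if s = 0 then (Matrix.of fun (_ k : Fin 2) => if k = a then (1 : ℂ) else 0) * X s
  else if s = 2 * m + 1 then (Matrix.of fun (_ k : Fin 2) => if k = b then (1 : ℂ) else 0) * X s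
  else X s

theorem ga03_row (a : Fin 2) (A : Matrix (Fin 2) (Fin 2) ℂ) (i j : Fin 2) :
    ((Matrix.of fun (_ k : Fin 2) => if k = a then (1 : ℂ) else 0) * A) i j = A a j := by
  rw [Matrix.mul_apply]
  simp [Matrix.of_apply, ite_mul]

theorem ga03_closed (m : ℕ) (X : ℕ → Matrix (Fin 2) (Fin 2) ℂ) :
    ∑ w1 : Fin (2 * m + 1 + 1) → Fin 2, ∑ w2 : Fin (2 * m + 1 + 1) → Fin 2,
      (pt (fun s : Fin (2 * m + 1 + 1) => s.1 % 2) (fun s => ((s.1 + 1) / 2) % (m + 1))
        (fun s => (w1 s : ℕ)) : ℂ) *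
      (pt (fun s : Fin (2 * m + 1 + 1) => s.1 % 2) (fun s => s.1 / 2)
        (fun s => (w2 s : ℕ)) : ℂ) * ∏ s : Fin (2 * m + 1 + 1), X s.1 (w1 s) (w2 s) =
      ∑ a, ∑ b, JJ a b * (ga03_PP m X * JJ) a b := by
  rw [ga03_sum_W]
  refine Finset.sum_congr rfl fun a _ => Finset.sum_congr rfl fun b _ => ?_
  have h1 := ga03_open m (ga03_X m a b X)
  rw [ga03_conv, ga03_sum_W] at h1
  -- the right side
  have h2 : (ga03_PP m (ga03_X m a b X) * JJ) 0 0 = (ga03_PP m X * JJ) a b := by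
    set Ea : Matrix (Fin 2) (Fin 2) ℂ := Matrix.of fun (_ k : Fin 2) => if k = a then (1 : ℂ) else 0 with hEa
    set Eb : Matrix (Fin 2) (Fin 2) ℂ := Matrix.of fun (_ k : Fin 2) => if k = b then (1 : ℂ) else 0 with hEb
    have h3 : ga03_PP m (ga03_X m a b X) = Ea * ga03_PP m X * Eb.adjugate := by
      unfold ga03_PP
      rw [ga03_alt_last m (fun s => ga03_X m a b X (s + 1)) (fun s => X (s + 1)) Eb]
      · unfold ga03_X
        rw [if_pos rfl]
        simp only [Matrix.mul_assoc]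
        rfl
      · intro s hs
        unfold ga03_X
        rw [if_neg (by omega), if_neg (by omega)]
      · unfold ga03_X
        rw [if_neg (by omega), if_pos rfl]
    have h4 : Eb.adjugate * JJ = JJ * Eb.transpose := by
      rw [Matrix.adjugate_fin_two]
      ext i j
      fin_cases i <;> fin_cases j <;> simp [JJ, Matrix.mul_apply, Fin.sum_univ_two]
    rw [h3, Matrix.mul_assoc, h4, Matrix.mul_assoc Ea, ← Matrix.mul_assoc (ga03_PP m X), Matrix.mul_apply]
    simp only [hEa, Matrix.of_apply, ite_mul, one_mul, zero_mul, Finset.sum_ite_eq', Finset.mem_univ, if_true]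
    rw [Matrix.mul_apply]
    simp [hEb, Matrix.of_apply]
  rw [← h2, ← h1]
  rw [Fin.sum_univ_two, Fin.sum_univ_two, Fin.sum_univ_two]
  simp only [ga03_ends_open, ga03_ends_closed]
  simp only [ga03_prod_W]
  simp only [and_self, if_true, one_ne_zero, and_false, false_and, if_false, zero_mul, Finset.sum_const_zero,
    add_zero, one_mul]
  rw [Finset.mul_sum]
  refine Finset.sum_congr rfl fun u _ => ?_
  rw [Finset.mul_sum]
  refine Finset.sum_congr rfl fun w2 _ => ?_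
  have h5 : ga03_X m a b X 0 0 (w2 0) = X 0 a (w2 0) := by
    unfold ga03_X
    rw [if_pos rfl, ga03_row]
  have h6 : ga03_X m a b X (2 * m + 1) 0 (w2 (Fin.last (2 * m + 1))) =
      X (2 * m + 1) b (w2 (Fin.last (2 * m + 1))) := by
    unfold ga03_X
    rw [if_neg (by omega), if_pos rfl, ga03_row]
  have h7 : ∏ i : Fin (2 * m), ga03_X m a b X (i.1 + 1) (u i) (w2 i.succ.castSucc) =
      ∏ i : Fin (2 * m), X (i.1 + 1) (u i) (w2 i.succ.castSucc) := by
    refine Finset.prod_congr rfl fun i _ => ?_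
    have := i.2
    unfold ga03_X
    rw [if_neg (by omega), if_neg (by omega)]
  rw [h5, h6, h7]
  ring

/-! ### the third tableau -/

/-- the first place in front -/
noncomputable def ga03_e1 (n : ℕ) : Fin 1 ⊕ Fin n ≃ Fin (n + 1) :=
  Equiv.ofBijective (Sum.elim (fun _ : Fin 1 => 0) (fun i => i.succ)) (by
    rw [Fintype.bijective_iff_injective_and_card]
    constructor
    · rintro (j | i) (j' | i') h
      · rw [Subsingleton.elim j j']
      · exact absurd h (Fin.succ_ne_zero _).symm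
      · exact absurd h (Fin.succ_ne_zero _)
      · simp only [Sum.elim_inr] at h
        rw [Fin.succ_injective _ h]
    · simp
      omega)

theorem ga03_front (n : ℕ) (row col w : Fin (n + 1) → ℕ) (h : ∀ i : Fin n, col 0 ≠ col i.succ) :
    pt row col w = (if w 0 = row 0 then 1 else 0) *
      pt (fun i : Fin n => row i.succ) (fun i => col i.succ) (fun i => w i.succ) := by
  rw [← ga03_equiv (ga03_e1 n) row col w]
  have key : ∀ f : Fin (n + 1) → ℕ, (fun x : Fin 1 ⊕ Fin n => f (ga03_e1 n x)) =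
      Sum.elim (fun _ : Fin 1 => f 0) (fun i => f i.succ) := by
    intro f
    funext x
    rcases x with j | i
    · rfl
    · rfl
  rw [key row, key col, key w, ga03_split _ _ _ _ _ _ (fun _ i => h i), ga03_pt_one]

theorem ga03_third (m : ℕ) (r3 c3 : Fin (2 * (m + 1)) → ℕ) (hc : Monotone c3)
    (hr : ∀ s t : Fin (2 * (m + 1)), t.1 = s.1 + 1 → c3 t = c3 s → r3 t = r3 s + 1)
    (h4 : ∀ s t : Fin (2 * (m + 1)), c3 s = c3 t → t.1 < s.1 + 4) :
    ∃ Q : Matrix (Fin 2) (Fin 2) ℂ, Q.det ≠ 0 ∧ ∀ N, 1 ≤ N → (∀ s, r3 s < N) →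
      ∑ w : Fin (2 * (m + 1)) → Fin N, (pt r3 c3 (fun s => (w s : ℕ)) : ℂ) •
        ga03_PP m (fun s => if h : s < 2 * (m + 1) then qu (w ⟨s, h⟩) else 1) = Q := by
  obtain ⟨Q, hQ, hsum⟩ := quat_sum (m + 1) (Fin.cons 0 r3 : Fin (2 * (m + 1) + 1) → ℕ)
    (Fin.cons 0 (fun s => c3 s + 1) : Fin (2 * (m + 1) + 1) → ℕ) (by
      intro s t hst
      refine Fin.cases ?_ (fun s' => ?_) s hst
      · intro _
        simp
      · refine Fin.cases ?_ (fun t' => ?_) t
        · intro h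
          exact absurd h (by simp)
        · intro h
          simp only [Fin.cons_succ]
          exact Nat.succ_le_succ (hc (Fin.succ_le_succ_iff.mp h)))
    (by
      intro s t
      refine Fin.cases ?_ (fun s' => ?_) s
      · refine Fin.cases ?_ (fun t' => ?_) t
        · intro h
          simp at h
        · intro _ h
          simp at h
      · refine Fin.cases ?_ (fun t' => ?_) t
        · intro h
          simp at h
        · intro h h'
          simp only [Fin.cons_succ, Fin.val_succ] at h h' ⊢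
          exact hr s' t' (by omega) (by omega))
    (by
      intro s t
      refine Fin.cases ?_ (fun s' => ?_) s
      · refine Fin.cases ?_ (fun t' => ?_) t
        · intro _
          simp
        · intro h
          simp at h
      · refine Fin.cases ?_ (fun t' => ?_) t
        · intro h
          simp at h
        · intro h
          simp only [Fin.cons_succ, Fin.val_succ] at h ⊢
          have := h4 s' t' (by omega)
          omega)
  refine ⟨Q, hQ, fun N hN hrN => ?_⟩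
  have h1 := hsum N (by
    intro s
    refine Fin.cases ?_ (fun s' => ?_) s
    · simp
      omega
    · simp only [Fin.cons_succ]
      exact hrN s')
  rw [← h1]
  have hcons : ∀ f : (Fin (2 * (m + 1) + 1) → Fin N) → Matrix (Fin 2) (Fin 2) ℂ, ∑ w, f w =
      ∑ a : Fin N, ∑ u : Fin (2 * (m + 1)) → Fin N, f (Fin.cons a u : Fin (2 * (m + 1) + 1) → Fin N) := by
    intro f
    rw [← (Fin.consEquiv (fun _ : Fin (2 * (m + 1) + 1) => Fin N)).sum_comp f, Fintype.sum_prod_type]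
    rfl
  rw [hcons]
  have hN0 : 0 < N := hN
  have hpt : ∀ (a : Fin N) (u : Fin (2 * (m + 1)) → Fin N),
      pt (Fin.cons 0 r3 : Fin (2 * (m + 1) + 1) → ℕ) (Fin.cons 0 (fun s => c3 s + 1) : Fin (2 * (m + 1) + 1) → ℕ)
        (fun s => (((Fin.cons a u : Fin (2 * (m + 1) + 1) → Fin N) s : Fin N) : ℕ)) =
      (if (a : ℕ) = 0 then 1 else 0) * pt r3 c3 (fun s => (u s : ℕ)) := by
    intro a u
    rw [ga03_front]
    · simp only [Fin.cons_zero, Fin.cons_succ]
      rw [pt_col r3 (fun s => c3 s + 1) c3]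
      intro x y
      simp
    · intro i
      simp
  simp only [hpt]
  rw [Finset.sum_eq_single (⟨0, hN0⟩ : Fin N)]
  · refine Finset.sum_congr rfl fun u _ => ?_
    simp only [if_true, one_mul]
    congr 1
    rw [ga03_alt_succ]
    have hz : qu (((Fin.cons (⟨0, hN0⟩ : Fin N) u : Fin (2 * (m + 1) + 1) → Fin N) ⟨0, by omega⟩ : Fin N) : ℕ) = 1 := by
      have : (Fin.cons (⟨0, hN0⟩ : Fin N) u : Fin (2 * (m + 1) + 1) → Fin N) ⟨0, by omega⟩ = ⟨0, hN0⟩ := rfl
      rw [this]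
      simp [qu]
    have hone : (1 : Matrix (Fin 2) (Fin 2) ℂ).adjugate = 1 := Matrix.adjugate_one
    rw [dif_pos (show 0 < 2 * (m + 1) + 1 by omega), hz, hone, Matrix.one_mul]
    congr 1
    funext s
    by_cases hs : s < 2 * (m + 1)
    · rw [dif_pos hs, dif_pos (by omega)]
      rfl
    · rw [dif_neg hs, dif_neg (by omega)]
  · intro a _ ha
    apply Finset.sum_eq_zero
    intro u _
    have : (a : ℕ) ≠ 0 := by
      intro h
      exact ha (Fin.ext h)
    simp [this]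
  · intro h
    exact absurd (Finset.mem_univ _) h

/-! ### restriction of the letters -/

/-- the coefficients -/
noncomputable def ga03_be (g : Matrix (Fin 2) (Fin 2) ℂ) (i j r : ℕ) : ℂ :=
  if h : i < 2 ∧ j < 2 then (g * qu r) ⟨i, h.1⟩ ⟨j, h.2⟩ else 0

theorem ga03_pt_zero {Ω : Type} [Fintype Ω] [DecidableEq Ω] (row col w : Ω → ℕ)
    (hrow : ∀ x, row x < 2) (x : Ω) (hx : 2 ≤ w x) : pt row col w = 0 := by
  unfold pt
  apply Finset.sum_eq_zero
  intro σ _
  rw [if_neg]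
  rintro ⟨_, h⟩
  have h1 := h x
  have h2 := hrow (σ x)
  omega

theorem ga03_restrict {Ω : Type} [Fintype Ω] [DecidableEq Ω] {N : ℕ} (hN : 2 ≤ N)
    (f : (Ω → Fin N) → ℂ) (hf : ∀ w, (∃ x, 2 ≤ (w x : ℕ)) → f w = 0) :
    ∑ w, f w = ∑ w' : Ω → Fin 2, f (fun x => Fin.castLE hN (w' x)) := by
  symm
  apply Fintype.sum_of_injective (fun w' : Ω → Fin 2 => fun x => Fin.castLE hN (w' x))
  · intro u v huv
    funext x
    exact Fin.castLE_injective hN (congrFun huv x)
  · intro w hw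
    apply hf
    by_contra hcon
    push Not at hcon
    apply hw
    exact ⟨fun x => ⟨w x, hcon x⟩, rfl⟩
  · intro w
    rfl

theorem ga03_eval (m N : ℕ) (hN : 2 ≤ N) (g : Matrix (Fin 2) (Fin 2) ℂ)
    (r1 c1 r2 c2 : Fin (2 * m + 1 + 1) → ℕ) (hr1 : ∀ x, r1 x < 2) (hr2 : ∀ x, r2 x < 2)
    (w3 : Fin (2 * m + 1 + 1) → ℕ) :
    ∑ w1 : Fin (2 * m + 1 + 1) → Fin N, ∑ w2 : Fin (2 * m + 1 + 1) → Fin N,
      (pt r1 c1 (fun s => (w1 s : ℕ)) : ℂ) * (pt r2 c2 (fun s => (w2 s : ℕ)) : ℂ) *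
        ∏ s : Fin (2 * m + 1 + 1), ga03_be g (w1 s) (w2 s) (w3 s) =
    ∑ w1 : Fin (2 * m + 1 + 1) → Fin 2, ∑ w2 : Fin (2 * m + 1 + 1) → Fin 2,
      (pt r1 c1 (fun s => (w1 s : ℕ)) : ℂ) * (pt r2 c2 (fun s => (w2 s : ℕ)) : ℂ) *
        ∏ s : Fin (2 * m + 1 + 1),
          (fun s : ℕ => g * (if h : s < 2 * (m + 1) then qu (w3 ⟨s, h⟩) else 1)) s.1 (w1 s) (w2 s) := by
  rw [ga03_restrict hN]
  · refine Finset.sum_congr rfl fun w1 _ => ?_
    rw [ga03_restrict hN]
    · refine Finset.sum_congr rfl fun w2 _ => ?_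
      congr 1
      refine Finset.prod_congr rfl fun s _ => ?_
      have h1 : ((Fin.castLE hN (w1 s) : Fin N) : ℕ) < 2 := (w1 s).2
      have h2 : ((Fin.castLE hN (w2 s) : Fin N) : ℕ) < 2 := (w2 s).2
      unfold ga03_be
      rw [dif_pos ⟨h1, h2⟩]
      have h3 : s.1 < 2 * (m + 1) := s.2
      simp only [dif_pos h3]
      rfl
    · rintro w ⟨x, hx⟩
      rw [ga03_pt_zero r2 c2 (fun s => (w s : ℕ)) hr2 x hx]
      simp
  · rintro w ⟨x, hx⟩
    apply Finset.sum_eq_zero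
    intro w2 _
    rw [ga03_pt_zero r1 c1 (fun s => (w s : ℕ)) hr1 x hx]
    simp

theorem ga03_comm3 {α β γ : Type} [Fintype α] [Fintype β] [Fintype γ] (F : α → β → γ → ℂ) :
    ∑ a, ∑ b, ∑ c, F a b c = ∑ c, ∑ a, ∑ b, F a b c := by
  calc ∑ a, ∑ b, ∑ c, F a b c = ∑ a, ∑ c, ∑ b, F a b c :=
        Finset.sum_congr rfl fun a _ => Finset.sum_comm
    _ = _ := Finset.sum_comm

/-- the total, when the value of the first two sums is `tr (P * L)` -/
theorem ga03_total (m N : ℕ) (hN : 2 ≤ N) (g : Matrix (Fin 2) (Fin 2) ℂ) (hg : g.adjugate * g = 1)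
    (r1 c1 r2 c2 : Fin (2 * m + 1 + 1) → ℕ) (hr1 : ∀ x, r1 x < 2) (hr2 : ∀ x, r2 x < 2)
    (L : Matrix (Fin 2) (Fin 2) ℂ)
    (hL : ∀ X : ℕ → Matrix (Fin 2) (Fin 2) ℂ,
      ∑ w1 : Fin (2 * m + 1 + 1) → Fin 2, ∑ w2 : Fin (2 * m + 1 + 1) → Fin 2,
      (pt r1 c1 (fun s => (w1 s : ℕ)) : ℂ) * (pt r2 c2 (fun s => (w2 s : ℕ)) : ℂ) *
        ∏ s : Fin (2 * m + 1 + 1), X s.1 (w1 s) (w2 s) = (ga03_PP m X * L).trace)
    (r3 c3 : Fin (2 * m + 1 + 1) → ℕ) (Q : Matrix (Fin 2) (Fin 2) ℂ)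
    (hQ : ∑ w : Fin (2 * m + 1 + 1) → Fin N, (pt r3 c3 (fun s => (w s : ℕ)) : ℂ) •
        ga03_PP m (fun s => if h : s < 2 * (m + 1) then qu (w ⟨s, h⟩) else 1) = Q) :
    ∑ w1 : Fin (2 * m + 1 + 1) → Fin N, ∑ w2 : Fin (2 * m + 1 + 1) → Fin N,
      ∑ w3 : Fin (2 * m + 1 + 1) → Fin N,
      (pt r1 c1 (fun s => (w1 s : ℕ)) : ℂ) * (pt r2 c2 (fun s => (w2 s : ℕ)) : ℂ) *
        (pt r3 c3 (fun s => (w3 s : ℕ)) : ℂ) *
        ∏ s : Fin (2 * m + 1 + 1), ga03_be g (w1 s) (w2 s) (w3 s) =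
      (g * Q * g.adjugate * L).trace := by
  have h1 : ∀ w3 : Fin (2 * m + 1 + 1) → Fin N,
      ∑ w1 : Fin (2 * m + 1 + 1) → Fin N, ∑ w2 : Fin (2 * m + 1 + 1) → Fin N,
      (pt r1 c1 (fun s => (w1 s : ℕ)) : ℂ) * (pt r2 c2 (fun s => (w2 s : ℕ)) : ℂ) *
        (pt r3 c3 (fun s => (w3 s : ℕ)) : ℂ) *
        ∏ s : Fin (2 * m + 1 + 1), ga03_be g (w1 s) (w2 s) (w3 s) =
      (pt r3 c3 (fun s => (w3 s : ℕ)) : ℂ) *
        (g * ga03_PP m (fun s => if h : s < 2 * (m + 1) then qu (w3 ⟨s, h⟩) else 1) * g.adjugate * L).trace := by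
    intro w3
    have h2 := ga03_eval m N hN g r1 c1 r2 c2 hr1 hr2 (fun s => (w3 s : ℕ))
    have h3 := hL (fun s : ℕ => g * (if h : s < 2 * (m + 1) then qu (w3 ⟨s, h⟩) else 1))
    rw [ga03_PP_mul g hg] at h3
    have h4 := h2.trans h3
    rw [← h4, Finset.mul_sum]
    refine Finset.sum_congr rfl fun w1 _ => ?_
    rw [Finset.mul_sum]
    refine Finset.sum_congr rfl fun w2 _ => ?_
    ring
  calc _ = ∑ w3 : Fin (2 * m + 1 + 1) → Fin N, ∑ w1 : Fin (2 * m + 1 + 1) → Fin N,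
      ∑ w2 : Fin (2 * m + 1 + 1) → Fin N,
      (pt r1 c1 (fun s => (w1 s : ℕ)) : ℂ) * (pt r2 c2 (fun s => (w2 s : ℕ)) : ℂ) *
        (pt r3 c3 (fun s => (w3 s : ℕ)) : ℂ) *
        ∏ s : Fin (2 * m + 1 + 1), ga03_be g (w1 s) (w2 s) (w3 s) := ga03_comm3 _
    _ = ∑ w3 : Fin (2 * m + 1 + 1) → Fin N, (pt r3 c3 (fun s => (w3 s : ℕ)) : ℂ) *
        (g * ga03_PP m (fun s => if h : s < 2 * (m + 1) then qu (w3 ⟨s, h⟩) else 1) * g.adjugate * L).trace :=
        Finset.sum_congr rfl fun w3 _ => h1 w3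
    _ = (g * (∑ w : Fin (2 * m + 1 + 1) → Fin N, (pt r3 c3 (fun s => (w s : ℕ)) : ℂ) •
        ga03_PP m (fun s => if h : s < 2 * (m + 1) then qu (w ⟨s, h⟩) else 1)) * g.adjugate * L).trace := by
        rw [Finset.mul_sum, Finset.sum_mul, Finset.sum_mul, Matrix.trace_sum]
        refine Finset.sum_congr rfl fun w3 _ => ?_
        rw [Matrix.mul_smul, Matrix.smul_mul, Matrix.smul_mul, Matrix.trace_smul, smul_eq_mul]
    _ = _ := by rw [hQ]

theorem ga03_open_trace (m : ℕ) (X : ℕ → Matrix (Fin 2) (Fin 2) ℂ) :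
    (ga03_PP m X * JJ) 0 0 = (ga03_PP m X * !![0, 0; -1, 0]).trace := by
  rw [Matrix.mul_apply]
  simp [Matrix.trace, Matrix.mul_apply, Fin.sum_univ_two, JJ]

theorem ga03_closed_trace (m : ℕ) (X : ℕ → Matrix (Fin 2) (Fin 2) ℂ) :
    ∑ a, ∑ b, JJ a b * (ga03_PP m X * JJ) a b = (ga03_PP m X * 1).trace := by
  simp [Matrix.trace, Matrix.mul_apply, Fin.sum_univ_two, JJ]

theorem ga03_choice (Q : Matrix (Fin 2) (Fin 2) ℂ) (hQ : Q.det ≠ 0) :
    Q.trace ≠ 0 ∨ ∃ g : Matrix (Fin 2) (Fin 2) ℂ, g.adjugate * g = 1 ∧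
      (g * Q * g.adjugate * !![0, 0; -1, 0]).trace ≠ 0 := by
  by_contra hcon
  push Not at hcon
  obtain ⟨h1, h2⟩ := hcon
  have h3 := h2 1 (by simp)
  have h4 := h2 !![0, 1; -1, 0] (by
    rw [Matrix.adjugate_fin_two]
    ext i j
    fin_cases i <;> fin_cases j <;> simp [Matrix.mul_apply, Fin.sum_univ_two])
  have h5 := h2 !![1, 1; 0, 1] (by
    rw [Matrix.adjugate_fin_two]
    ext i j
    fin_cases i <;> fin_cases j <;> simp [Matrix.mul_apply, Fin.sum_univ_two])
  rw [Matrix.adjugate_fin_two] at h3 h4 h5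
  simp [Matrix.trace, Matrix.mul_apply, Fin.sum_univ_two, Matrix.vecMul, dotProduct] at h1 h3 h4 h5
  apply hQ
  rw [Matrix.det_fin_two]
  have e1 : Q 1 1 = - Q 0 0 := by linear_combination h1
  have e2 : Q 0 0 = 0 := by
    linear_combination (1 / 2 : ℂ) * h5 + (1 / 2 : ℂ) * h3 - (1 / 2 : ℂ) * h4 + (1 / 2 : ℂ) * h1
  rw [e1, e2, h3]
  ring

theorem ga03_final (m : ℕ) (r3 c3 : Fin (2 * m + 1 + 1) → ℕ) (hc : Monotone c3)
    (hr : ∀ s t : Fin (2 * m + 1 + 1), t.1 = s.1 + 1 → c3 t = c3 s → r3 t = r3 s + 1)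
    (h4 : ∀ s t : Fin (2 * m + 1 + 1), c3 s = c3 t → t.1 < s.1 + 4) :
    (∃ a1 a2 a3 : Fin (2 * m + 1 + 1) → ℕ,
      tri (fun s => if s.1 = 2 * m + 1 then 0 else s.1 % 2) (fun s => (s.1 + 1) / 2)
        (fun s => s.1 % 2) (fun s => s.1 / 2) r3 c3 a1 a2 a3 ≠ 0) ∨
    (∃ a1 a2 a3 : Fin (2 * m + 1 + 1) → ℕ,
      tri (fun s => s.1 % 2) (fun s => ((s.1 + 1) / 2) % (m + 1))
        (fun s => s.1 % 2) (fun s => s.1 / 2) r3 c3 a1 a2 a3 ≠ 0) := by
  obtain ⟨Q, hQ, hsum⟩ := ga03_third m r3 c3 hc hr h4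
  obtain ⟨N, hN, hrN⟩ : ∃ N, 2 ≤ N ∧ ∀ s, r3 s < N := by
    refine ⟨2 + ∑ s, (r3 s + 1), by omega, fun s => ?_⟩
    have := Finset.single_le_sum (f := fun s => r3 s + 1) (fun i _ => Nat.zero_le _) (Finset.mem_univ s)
    have h5 : r3 s + 1 ≤ ∑ s, (r3 s + 1) := this
    omega
  have hs := hsum N (by omega) hrN
  rcases ga03_choice Q hQ with h | ⟨g, hg, h⟩
  · right
    apply tri_ne_of_eval _ _ _ _ _ _ N (ga03_be 1)
    have h1 := ga03_total m N hN 1 (by simp) (fun s => s.1 % 2) (fun s => ((s.1 + 1) / 2) % (m + 1))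
      (fun s => s.1 % 2) (fun s => s.1 / 2) (fun x => Nat.mod_lt _ (by norm_num))
      (fun x => Nat.mod_lt _ (by norm_num)) 1
      (fun X => by rw [ga03_closed, ga03_closed_trace]) r3 c3 Q hs
    rw [h1]
    simpa using h
  · left
    apply tri_ne_of_eval _ _ _ _ _ _ N (ga03_be g)
    have h1 := ga03_total m N hN g hg (fun s => if s.1 = 2 * m + 1 then 0 else s.1 % 2) (fun s => (s.1 + 1) / 2)
      (fun s => s.1 % 2) (fun s => s.1 / 2) (fun x => by
        show (if x.1 = 2 * m + 1 then 0 else x.1 % 2) < 2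
        split_ifs
        · norm_num
        · exact Nat.mod_lt _ (by norm_num))
      (fun x => Nat.mod_lt _ (by norm_num)) !![0, 0; -1, 0]
      (fun X => by rw [ga03_open, ga03_conv, ga03_open_trace]) r3 c3 Q hs
    rw [h1]
    exact h




/-- the words of even length -/
theorem even_local (p : ℕ) (hp : 1 ≤ p) (r3 c3 : Fin (2 * p) → ℕ) (hc : Monotone c3)
    (hr : ∀ s t : Fin (2 * p), t.1 = s.1 + 1 → c3 t = c3 s → r3 t = r3 s + 1)
    (h4 : ∀ s t : Fin (2 * p), c3 s = c3 t → t.1 < s.1 + 4) :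
    (∃ a1 a2 a3 : Fin (2 * p) → ℕ,
      tri (fun s => if s.1 = 2 * p - 1 then 0 else s.1 % 2) (fun s => (s.1 + 1) / 2)
        (fun s => s.1 % 2) (fun s => s.1 / 2) r3 c3 a1 a2 a3 ≠ 0) ∨
    (∃ a1 a2 a3 : Fin (2 * p) → ℕ,
      tri (fun s => s.1 % 2) (fun s => ((s.1 + 1) / 2) % p)
        (fun s => s.1 % 2) (fun s => s.1 / 2) r3 c3 a1 a2 a3 ≠ 0) := by
  obtain ⟨m, rfl⟩ : ∃ m, p = m + 1 := ⟨p - 1, by omega⟩
  have h := ga03_final m r3 c3 hc hr h4
  have e : 2 * (m + 1) - 1 = 2 * m + 1 := by omega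
  rw [e]
  exact h

end Pool.Saxl
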