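import Mathlib
import Pool.Agent.Helper139_Saxl.Defs

set_option autoImplicit false

/-! Definitions for the shapes between the minimal solvable orbit and its dual in type A. -/

namespace Pool.Saxl

open Finset

/-- dominance order -/
def Dom (lam mu : ℕ → ℕ) : Prop := ∀ s, area lam s ≤ area mu s

/-- `rho_m + (1^s)` -/
def OO (m s : ℕ) : ℕ → ℕ := fun i => (m - i) + (if i < s then 1 else 0)

/-- the shapes between the transposed orbit and the orbit, inside the staircase of size `m + 1` -/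
structure InD (m s : ℕ) (lam : ℕ → ℕ) : Prop where
  part : IsPart lam (m * (m + 1) / 2 + s)
  le : Dom lam (OO m s)
  ge : Dom (cj (OO m s)) lam
  sub : ∀ i, lam i ≤ m + 1 - i

/-- one more row on top -/
def cons1 (x : ℕ) (lam : ℕ → ℕ) : ℕ → ℕ := fun i => if i = 0 then x else lam (i - 1)

/-- two more rows on top -/
def cons2 (x y : ℕ) (lam : ℕ → ℕ) : ℕ → ℕ :=
  fun i => if i = 0 then x else if i = 1 then y else lam (i - 2)

/-- a pair of tableaux of shapes `lam`, `kap` with column sums below `D`, and `nu` -/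
def CV (lam kap : ℕ → ℕ) (D : ℕ) (nu : ℕ → ℕ) : Prop :=
  ∃ (n : ℕ) (r1 c1 r2 c2 r3 c3 : Fin n → ℕ), IsTab r1 c1 lam ∧ IsTab r2 c2 kap ∧ IsStd r3 c3 nu ∧
    (∀ y, c1 y + c2 y < D) ∧ ∃ w1 w2 w3 : Fin n → ℕ, tri r1 c1 r2 c2 r3 c3 w1 w2 w3 ≠ 0

end Pool.Saxl
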