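import Mathlib
import Pool.Agent.Helper139_Saxl.Defs
import Pool.Agent.Helper139_Saxl.Conf
import Pool.Agent.Helper139_Saxl.J02
import Pool.Agent.Helper139_Saxl.J03

set_option autoImplicit false

/-! Job SX-19: configurations are tableaux. -/

namespace Pool.Saxl

open Finset

theorem sx19_bands_tail {x : ℕ} {L : List ℕ} (h : Bands (x :: L)) : Bands L := by
  cases L with
  | nil => trivial
  | cons y L => exact h.2

theorem sx19_bands_pos {x : ℕ} {L : List ℕ} (h : Bands (x :: L)) : 1 ≤ x := by
  cases L with
  | nil => exact h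
  | cons y L =>
    have h1 : y + 2 ≤ x := h.1
    omega

theorem sx19_count (k : ℕ) : (∑ s ∈ range (2 * k + 1), if s % 2 = 0 then 1 else 0) = k + 1 ∧
    (∑ s ∈ range (2 * k + 1), if s % 2 = 1 then 1 else 0) = k := by
  induction k with
  | zero => constructor <;> rfl
  | succ k ih =>
    have e : 2 * (k + 1) + 1 = (2 * k + 1) + 1 + 1 := by ring
    obtain ⟨i1, i2⟩ := ih
    rw [e]
    generalize 2 * k + 1 = m at i1 i2 e ⊢
    have hm : m % 2 = 1 := by omega
    constructor
    · rw [sum_range_succ, sum_range_succ, i1, if_neg (by omega), if_pos (by omega)]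
    · rw [sum_range_succ, sum_range_succ, i2, if_pos (by omega), if_neg (by omega)]

theorem sx19_sum {x : ℕ} {L : List ℕ} (f : Om (x :: L) → ℕ) :
    (∑ z : Om (x :: L), f z) = (∑ s : Fin (2 * x - 1), f (Sum.inl s)) +
      ∑ y : Om L, f (Sum.inr y) := by
  exact Fintype.sum_sum_type f

theorem sx19_card {x : ℕ} {L : List ℕ} (hx : 1 ≤ x) (i : ℕ) :
    (univ.filter fun z : Om (x :: L) => omR (x :: L) z = i).card =
      (if i = 0 then x else if i = 1 then x - 1 else 0) +
      (if 2 ≤ i then (univ.filter fun y : Om L => omR L y = i - 2).card else 0) := by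
  rw [card_filter, sx19_sum]
  have h1 : ∀ s : Fin (2 * x - 1), omR (x :: L) (Sum.inl s) = s.1 % 2 := fun s => rfl
  have h2 : ∀ y : Om L, omR (x :: L) (Sum.inr y) = omR L y + 2 := fun y => rfl
  simp only [h1, h2]
  rw [Fin.sum_univ_eq_sum_range (fun s => if s % 2 = i then 1 else 0)]
  obtain ⟨k, rfl⟩ : ∃ k, x = k + 1 := ⟨x - 1, by omega⟩
  have e : 2 * (k + 1) - 1 = 2 * k + 1 := by omega
  rw [e]
  have hc := sx19_count k
  congr 1
  · rcases Nat.lt_or_ge i 2 with hi | hi
    · interval_cases i
      · simpa using hc.1
      · simpa using hc.2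
    · rw [if_neg (by omega), if_neg (by omega)]
      apply sum_eq_zero
      intro s _
      rw [if_neg (by omega)]
  · split_ifs with hi
    · rw [card_filter]
      apply sum_congr rfl
      intro y _
      by_cases hy : omR L y = i - 2
      · rw [if_pos hy, if_pos (by omega)]
      · rw [if_neg hy, if_neg (by omega)]
    · apply sum_eq_zero
      intro y _
      rw [if_neg (by omega)]

theorem om_lt (x : ℕ) (L : List ℕ) (hL : Bands (x :: L)) (y : Om L) :
    omA L y + omB L y + 3 ≤ x ∧ omA L y + 2 < x ∧ omB L y + 2 < x := by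
  induction L generalizing x with
  | nil => exact y.elim
  | cons x' L' ih =>
    have h1 : x' + 2 ≤ x := hL.1
    have h2 : Bands (x' :: L') := hL.2
    rcases y with s | y
    · have hs := s.2
      have a : omA (x' :: L') (Sum.inl s) = s.1 / 2 := rfl
      have b : omB (x' :: L') (Sum.inl s) = x' - 1 - (s.1 + 1) / 2 := rfl
      rw [a, b]
      omega
    · have a : omA (x' :: L') (Sum.inr y) = omA L' y := rfl
      have b : omB (x' :: L') (Sum.inr y) = omB L' y := rfl
      have := ih x' h2 y
      rw [a, b]
      omega

theorem isTab_om (L : List ℕ) (hL : Bands L) :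
    IsTab (omR L) (omA L) (bandShape L) ∧ IsTab (omR L) (omB L) (bandShape L) := by
  induction L with
  | nil =>
    refine ⟨⟨fun x => x.elim, fun x => x.elim, fun i => ?_⟩,
      ⟨fun x => x.elim, fun x => x.elim, fun i => ?_⟩⟩
    · show (univ.filter fun x : Om [] => omR [] x = i).card = 0
      rw [card_eq_zero, filter_eq_empty_iff]
      intro x
      exact x.elim
    · show (univ.filter fun x : Om [] => omR [] x = i).card = 0
      rw [card_eq_zero, filter_eq_empty_iff]
      intro x
      exact x.elim
  | cons x L ih =>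
    have hx := sx19_bands_pos hL
    obtain ⟨ihA, ihB⟩ := ih (sx19_bands_tail hL)
    have hlt := om_lt x L hL
    have r1 : ∀ s : Fin (2 * x - 1), omR (x :: L) (Sum.inl s) = s.1 % 2 := fun s => rfl
    have r2 : ∀ y : Om L, omR (x :: L) (Sum.inr y) = omR L y + 2 := fun y => rfl
    have a1 : ∀ s : Fin (2 * x - 1), omA (x :: L) (Sum.inl s) = s.1 / 2 := fun s => rfl
    have a2 : ∀ y : Om L, omA (x :: L) (Sum.inr y) = omA L y := fun y => rfl
    have b1 : ∀ s : Fin (2 * x - 1), omB (x :: L) (Sum.inl s) = x - 1 - (s.1 + 1) / 2 := fun s => rfl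
    have b2 : ∀ y : Om L, omB (x :: L) (Sum.inr y) = omB L y := fun y => rfl
    have hcard : ∀ i, (univ.filter fun z : Om (x :: L) => omR (x :: L) z = i).card =
        bandShape (x :: L) i := by
      intro i
      rw [sx19_card hx]
      match i with
      | 0 => simp [bandShape]
      | 1 => simp [bandShape]
      | i + 2 =>
        rw [if_neg (by omega), if_neg (by omega), if_pos (by omega), Nat.add_sub_cancel, ihA.card,
          zero_add]
        rfl
    refine ⟨⟨?_, ?_, hcard⟩, ⟨?_, ?_, hcard⟩⟩
    · rintro (s | y) (t | z) h h'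
      · rw [r1, r1] at h
        rw [a1, a1] at h'
        have : s = t := Fin.ext (by omega)
        rw [this]
      · rw [r1, r2] at h
        omega
      · rw [r1, r2] at h
        omega
      · rw [r2, r2] at h
        rw [a2, a2] at h'
        rw [ihA.inj y z (by omega) h']
    · rintro (s | y) i hi
      · rw [r1] at hi
        have hs := s.2
        refine ⟨Sum.inl ⟨s.1 - 1, by omega⟩, ?_, ?_⟩
        · rw [a1, a1]
          show (s.1 - 1) / 2 = s.1 / 2
          omega
        · rw [r1]
          show (s.1 - 1) % 2 = i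
          omega
      · rw [r2] at hi
        have hl := hlt y
        match i with
        | 0 =>
          refine ⟨Sum.inl ⟨2 * omA L y, by omega⟩, ?_, ?_⟩
          · rw [a1, a2]
            show 2 * omA L y / 2 = omA L y
            omega
          · rw [r1]
            show 2 * omA L y % 2 = 0
            omega
        | 1 =>
          refine ⟨Sum.inl ⟨2 * omA L y + 1, by omega⟩, ?_, ?_⟩
          · rw [a1, a2]
            show (2 * omA L y + 1) / 2 = omA L y
            omega
          · rw [r1]
            show (2 * omA L y + 1) % 2 = 1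
            omega
        | i + 2 =>
          obtain ⟨z, hz, hz'⟩ := ihA.down y i (by omega)
          refine ⟨Sum.inr z, ?_, ?_⟩
          · rw [a2, a2]; exact hz
          · rw [r2, hz']
    · rintro (s | y) (t | z) h h'
      · rw [r1, r1] at h
        rw [b1, b1] at h'
        have hs := s.2
        have ht := t.2
        have : s = t := Fin.ext (by omega)
        rw [this]
      · rw [r1, r2] at h
        omega
      · rw [r1, r2] at h
        omega
      · rw [r2, r2] at h
        rw [b2, b2] at h'
        rw [ihB.inj y z (by omega) h']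
    · rintro (s | y) i hi
      · rw [r1] at hi
        have hs := s.2
        refine ⟨Sum.inl ⟨s.1 + 1, by omega⟩, ?_, ?_⟩
        · rw [b1, b1]
          show x - 1 - (s.1 + 1 + 1) / 2 = x - 1 - (s.1 + 1) / 2
          omega
        · rw [r1]
          show (s.1 + 1) % 2 = i
          omega
      · rw [r2] at hi
        have hl := hlt y
        match i with
        | 0 =>
          refine ⟨Sum.inl ⟨2 * (x - 1 - omB L y), by omega⟩, ?_, ?_⟩
          · rw [b1, b2]
            show x - 1 - (2 * (x - 1 - omB L y) + 1) / 2 = omB L y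
            omega
          · rw [r1]
            show 2 * (x - 1 - omB L y) % 2 = 0
            omega
        | 1 =>
          refine ⟨Sum.inl ⟨2 * (x - 2 - omB L y) + 1, by omega⟩, ?_, ?_⟩
          · rw [b1, b2]
            show x - 1 - (2 * (x - 2 - omB L y) + 1 + 1) / 2 = omB L y
            omega
          · rw [r1]
            show (2 * (x - 2 - omB L y) + 1) % 2 = 1
            omega
        | i + 2 =>
          obtain ⟨z, hz, hz'⟩ := ihB.down y i (by omega)
          refine ⟨Sum.inr z, ?_, ?_⟩
          · rw [b2, b2]; exact hz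
          · rw [r2, hz']

theorem card_om (L : List ℕ) : Fintype.card (Om L) = bandSum L := by
  induction L with
  | nil => rfl
  | cons x L ih =>
    show Fintype.card (Om (x :: L)) = (2 * x - 1) + bandSum L
    rw [← ih, Fintype.card_eq_sum_ones, sx19_sum]
    simp

theorem G_of_PV (L : List ℕ) (hL : Bands L) (mu : ℕ → ℕ) (h : PV L mu) :
    G (bandShape L) (bandShape L) mu := by
  obtain ⟨r3, c3, h3, w1, w2, w3, hw⟩ := h
  exact G_of _ _ _ _ _ _ _ _ _ (isTab_om L hL).1 (isTab_om L hL).2 h3.toIsTab w1 w2 w3 hw

end Pool.Saxl
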