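import Mathlib
import Pool.Agent.Helper139_Saxl.Defs
import Pool.Agent.Helper139_Saxl.J04

set_option autoImplicit false

/-! Job SX-21: greedy choice of a smaller partition. -/

namespace Pool.Saxl

open Finset

theorem sx21_succ (mu : ℕ → ℕ) (i : ℕ) : area mu (i + 1) = area mu i + mu i := by
  unfold area; rw [Finset.sum_range_succ]

theorem sx21_mono (mu : ℕ → ℕ) : Monotone (area mu) :=
  monotone_nat_of_le_succ fun i => by rw [sx21_succ]; omega

theorem sx21_const (mu : ℕ → ℕ) (n : ℕ) (h : ∀ i, n ≤ i → mu i = 0) (d : ℕ) :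
    area mu (n + d) = area mu n := by
  induction d with
  | zero => rfl
  | succ d ih => rw [← Nat.add_assoc, sx21_succ, ih, h _ (by omega), Nat.add_zero]

theorem sx21_lower (mu : ℕ → ℕ) (i : ℕ) (h : ∀ j, j < i → 1 ≤ mu j) : i ≤ area mu i := by
  induction i with
  | zero => simp
  | succ i ih =>
    rw [sx21_succ]
    have := ih fun j hj => h j (by omega)
    have := h i (by omega)
    omega

/-- the greedy choice -/
theorem greedy (c : ℕ) (hc : 1 ≤ c) (mu : ℕ → ℕ) (n z : ℕ) (hmu : IsPart mu n) (hz : z ≤ area mu c) :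
    ∃ nu : ℕ → ℕ, IsPart nu (n - z) ∧ (∀ i, nu i ≤ mu i ∧ mu (i + c) ≤ nu i) ∧
      ∀ i, area nu i = min (area mu i) (area mu (i + c) - z) := by
  set N : ℕ → ℕ := fun i => min (area mu i) (area mu (i + c) - z) with hN
  have f1 : ∀ i, area mu (i + 1) = area mu i + mu i := sx21_succ mu
  have f2 : ∀ i, area mu (i + 1 + c) = area mu (i + c) + mu (i + c) := fun i => by
    have := sx21_succ mu (i + c)
    rwa [show i + c + 1 = i + 1 + c by omega] at this
  have f3 : ∀ i, z ≤ area mu (i + c) := fun i => le_trans hz (sx21_mono mu (by omega))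
  have f4 : ∀ i, mu (i + c) ≤ mu i := fun i => hmu.anti (by omega)
  have f5 : ∀ i, mu (i + 1) ≤ mu i := fun i => hmu.anti (by omega)
  have f6 : ∀ i, mu (i + 1 + c) ≤ mu (i + c) := fun i => hmu.anti (by omega)
  have hNs : ∀ i, N i ≤ N (i + 1) := fun i => by
    simp only [hN]; have := f1 i; have := f2 i; have := f3 i; omega
  have hb : ∀ i, N (i + 1) - N i ≤ mu i ∧ mu (i + c) ≤ N (i + 1) - N i := fun i => by
    simp only [hN]; have := f1 i; have := f2 i; have := f3 i; have := f4 i; omega
  have ha : ∀ i, area (fun i => N (i + 1) - N i) i = N i := fun i => by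
    induction i with
    | zero => simp [area, hN]
    | succ i ih => rw [sx21_succ, ih]; have := hNs i; show N i + (N (i + 1) - N i) = _; omega
  have hanti : Antitone fun i => N (i + 1) - N i := antitone_nat_of_succ_le fun i => by
    simp only [hN]
    have := f1 i; have := f2 i; have := f3 i; have := f4 i
    have := f1 (i + 1); have := f2 (i + 1); have := f3 (i + 1); have := f4 (i + 1)
    have := f5 i; have := f6 i
    omega
  have hzero : ∀ i, n - z ≤ i → N (i + 1) - N i = 0 := fun i hi => by
    by_contra hne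
    have h1 : i + 1 ≤ area (fun i => N (i + 1) - N i) (i + 1) := sx21_lower _ _ fun j hj => by
      have := hanti (show j ≤ i by omega)
      simp only at this ⊢
      omega
    rw [ha] at h1
    have h2 := area_le mu n hmu (i + 1 + c)
    have h3 : N (i + 1) ≤ area mu (i + 1 + c) - z := min_le_right _ _
    omega
  refine ⟨fun i => N (i + 1) - N i, ⟨hanti, hzero, ?_⟩, hb, ha⟩
  have e1 : area (fun i => N (i + 1) - N i) n = area (fun i => N (i + 1) - N i) (n - z) := by
    have := sx21_const (fun i => N (i + 1) - N i) (n - z) hzero (n - (n - z))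
    rwa [show n - z + (n - (n - z)) = n by omega] at this
  have e2 : area mu n = n := hmu.sum
  have e3 : area mu (n + c) = n := by rw [sx21_const mu n hmu.zero c, e2]
  have e4 : N n = n - z := by simp only [hN, e2, e3]; omega
  rw [ha, e4] at e1
  exact e1.symm

end Pool.Saxl
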