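import Mathlib
import Pool.Agent.Helper139_Saxl.Defs
import Pool.Agent.Helper139_Saxl.J01
import Pool.Agent.Helper139_Saxl.J03
import Pool.Agent.Helper139_Saxl.J10

set_option autoImplicit false

/-! Job SX-13: rule T: the step lemma. -/

namespace Pool.Saxl

open Finset

theorem sx13_pt_add {Ω : Type} [Fintype Ω] [DecidableEq Ω] (row col w : Ω → ℕ) (k : ℕ) :
    pt (fun y => row y + k) col (fun y => w y + k) = pt row col w := by
  unfold pt
  refine Finset.sum_congr rfl fun σ _ => ?_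
  simp only [Nat.add_right_cancel_iff]

theorem sx13_left {A B : Type} (r a : A → ℕ) (s b : B → ℕ) (hr : ∀ x, r x < 2) (ha : ∀ x, a x < 2)
    (u v : A ⊕ B) (h : Sum.elim a (fun y => b y + 2) u = Sum.elim r (fun y => s y + 2) v) :
    u.isLeft = v.isLeft := by
  rcases u with u | u <;> rcases v with v | v <;>
    simp only [Sum.elim_inl, Sum.elim_inr, Sum.isLeft_inl, Sum.isLeft_inr] at h ⊢
  · exfalso; have := ha u; omega
  · exfalso; have := hr v; omega

theorem sx13_sum {Ω : Type} [Fintype Ω] [DecidableEq Ω] (p : Ω → Bool) (col : Ω → ℕ)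
    (g σ : Equiv.Perm Ω) (hσ : ∀ x, col (σ x) = col x) (h : ∀ x, p (g x) = p (σ x)) :
    ∑ x ∈ univ.filter (fun x => p (g x) = false), col x =
      ∑ x ∈ univ.filter (fun x => p x = false), col x := by
  rw [Finset.sum_filter, Finset.sum_filter,
    ← Equiv.sum_comp σ (fun x => if p x = false then col x else 0)]
  refine Finset.sum_congr rfl fun x _ => ?_
  rw [h x, hσ x]

theorem sx13_preserve {A B : Type} [Fintype A] [DecidableEq A] [Fintype B] [DecidableEq B]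
    (r1A c1A r2A c2A : A → ℕ) (r1B c1B r2B c2B : B → ℕ) (κ : ℕ)
    (hr1 : ∀ x, r1A x < 2) (hr2 : ∀ x, r2A x < 2)
    (hA : ∀ x, κ ≤ c1A x + c2A x) (hB : ∀ y, c1B y + c2B y < κ)
    (a1 a2 : A → ℕ) (b1 b2 : B → ℕ) (ha1 : ∀ x, a1 x < 2) (ha2 : ∀ x, a2 x < 2)
    (g : Equiv.Perm (A ⊕ B))
    (h1 : pt (Sum.elim r1A (fun y => r1B y + 2)) (Sum.elim c1A c1B)
      (Sum.elim a1 (fun y => b1 y + 2) ∘ g) ≠ 0)
    (h2 : pt (Sum.elim r2A (fun y => r2B y + 2)) (Sum.elim c2A c2B)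
      (Sum.elim a2 (fun y => b2 y + 2) ∘ g) ≠ 0) (a : A) : (g (Sum.inl a)).isLeft = true := by
  obtain ⟨s1, hs1, he1⟩ := exists_of_pt_ne _ _ _ h1
  obtain ⟨s2, hs2, he2⟩ := exists_of_pt_ne _ _ _ h2
  have hl1 : ∀ x, (g x).isLeft = (s1 x).isLeft := fun x =>
    sx13_left r1A a1 r1B b1 hr1 ha1 _ _ (congrFun he1 x)
  have hl2 : ∀ x, (g x).isLeft = (s2 x).isLeft := fun x =>
    sx13_left r2A a2 r2B b2 hr2 ha2 _ _ (congrFun he2 x)
  have e1 := sx13_sum Sum.isLeft (Sum.elim c1A c1B) g s1 hs1 hl1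
  have e2 := sx13_sum Sum.isLeft (Sum.elim c2A c2B) g s2 hs2 hl2
  have hp := potential (fun _ : A ⊕ B => 0)
    (fun x => Sum.elim c1A c1B x + Sum.elim c2A c2B x)
    (univ.filter (fun x : A ⊕ B => x.isLeft = false))
    (univ.filter (fun x : A ⊕ B => (g x).isLeft = false)) ?_ ?_
  · have hX := hp.2 (by
      rw [Finset.sum_add_distrib, Finset.sum_add_distrib, e1, e2])
    by_contra hc
    have hm : Sum.inl a ∈ univ.filter (fun x : A ⊕ B => (g x).isLeft = false) := by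
      rw [Finset.mem_filter]
      refine ⟨Finset.mem_univ _, ?_⟩
      simpa using hc
    rw [hX, Finset.mem_filter] at hm
    simp at hm
  · intro c
    by_cases hc : (0 : ℕ) = c
    · subst hc
      simp only [Finset.filter_true]
      rw [Finset.card_filter, Finset.card_filter,
        ← Equiv.sum_comp g (fun x : A ⊕ B => if x.isLeft = false then 1 else 0)]
    · simp [hc]
  · intro x hx y hy _
    rw [Finset.mem_filter] at hx hy
    rcases x with x | x
    · rcases y with y | y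
      · simp at hy
      · simp only [Sum.elim_inl, Sum.elim_inr]
        exact (hB y).trans_le (hA x)
    · simp at hx

theorem sx13_split {A B : Type} [Fintype A] [DecidableEq A] [Fintype B] [DecidableEq B]
    (rA cA a : A → ℕ) (rB cB b : B → ℕ) (ha : ∀ x, a x < 2) (gA : Equiv.Perm A)
    (gB : Equiv.Perm B) :
    pt (Sum.elim rA (fun y => rB y + 2)) (Sum.elim cA cB)
      (Sum.elim a (fun y => b y + 2) ∘ (Equiv.sumCongr gA gB)) =
      pt rA cA (a ∘ gA) * pt rB cB (b ∘ gB) := by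
  have e : (Sum.elim a (fun y => b y + 2) ∘ (Equiv.sumCongr gA gB)) =
      Sum.elim (a ∘ gA) (fun y => (b ∘ gB) y + 2) := by
    funext x
    rcases x with x | x <;> simp
  rw [e, pt_sum, sx13_pt_add]
  intro σ _ hw x
  have h1 := hw (Sum.inl x)
  rcases hσ : σ (Sum.inl x) with y | y
  · simp
  · rw [hσ] at h1
    simp only [Sum.elim_inl, Sum.elim_inr, Function.comp_apply] at h1
    have := ha (gA x)
    omega



theorem step {A B : Type} [Fintype A] [DecidableEq A] [Fintype B] [DecidableEq B]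
    (r1A c1A r2A c2A r3A c3A : A → ℕ) (r1B c1B r2B c2B r3B c3B : B → ℕ) (κ : ℕ)
    (hr1 : ∀ x, r1A x < 2) (hr2 : ∀ x, r2A x < 2)
    (hA : ∀ x, κ ≤ c1A x + c2A x) (hB : ∀ y, c1B y + c2B y < κ)
    (hAB : ∀ x y, c3A x = c3B y → r3B y < r3A x)
    (hlocA : ∃ a1 a2 a3 : A → ℕ, tri r1A c1A r2A c2A r3A c3A a1 a2 a3 ≠ 0)
    (hlocB : ∃ b1 b2 b3 : B → ℕ, tri r1B c1B r2B c2B r3B c3B b1 b2 b3 ≠ 0) :
    ∃ w1 w2 w3 : A ⊕ B → ℕ,
      tri (Sum.elim r1A (fun y => r1B y + 2)) (Sum.elim c1A c1B)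
        (Sum.elim r2A (fun y => r2B y + 2)) (Sum.elim c2A c2B)
        (Sum.elim r3A r3B) (Sum.elim c3A c3B) w1 w2 w3 ≠ 0 := by
  obtain ⟨a1, a2, a3, ha⟩ := hlocA
  obtain ⟨b1, b2, b3, hb⟩ := hlocB
  obtain ⟨p1, p2, p3, hp1, hp2, hp3⟩ := tri_word ha
  obtain ⟨q1, q2, q3, hq1, hq2, hq3⟩ := tri_word hb
  have ha1 : ∀ x, a1 x < 2 := fun x => by rw [hp1]; exact hr1 _
  have ha2 : ∀ x, a2 x < 2 := fun x => by rw [hp2]; exact hr2 _
  refine ⟨Sum.elim a1 (fun y => b1 y + 2), Sum.elim a2 (fun y => b2 y + 2), Sum.elim a3 b3, ?_⟩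
  have key : tri (Sum.elim r1A (fun y => r1B y + 2)) (Sum.elim c1A c1B)
        (Sum.elim r2A (fun y => r2B y + 2)) (Sum.elim c2A c2B)
        (Sum.elim r3A r3B) (Sum.elim c3A c3B) (Sum.elim a1 (fun y => b1 y + 2))
        (Sum.elim a2 (fun y => b2 y + 2)) (Sum.elim a3 b3) =
      tri r1A c1A r2A c2A r3A c3A a1 a2 a3 * tri r1B c1B r2B c2B r3B c3B b1 b2 b3 := by
    unfold tri
    rw [sum_perm_sum, Finset.sum_mul_sum]
    · refine Finset.sum_congr rfl fun gA _ => Finset.sum_congr rfl fun gB _ => ?_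
      rw [sx13_split _ _ _ _ _ _ ha1, sx13_split _ _ _ _ _ _ ha2]
      have e : (Sum.elim a3 b3 ∘ (Equiv.sumCongr gA gB)) = Sum.elim (a3 ∘ gA) (b3 ∘ gB) := by
        funext x
        rcases x with x | x <;> simp
      rw [e, pt_factor _ _ _ _ _ _ hAB]
      · ring
      · have e1 : ∑ y, (b3 ∘ gB) y = ∑ y, b3 y := Equiv.sum_comp gB b3
        rw [e1, hq3]
        exact (Equiv.sum_comp q3 r3B).le
    · intro g hg
      by_contra h0
      apply hg
      intro a
      refine sx13_preserve r1A c1A r2A c2A r1B c1B r2B c2B κ hr1 hr2 hA hB a1 a2 b1 b2 ha1 ha2 g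
        ?_ ?_ a
      · intro h; apply h0; rw [h, zero_mul, zero_mul]
      · intro h; apply h0; rw [h, mul_zero, zero_mul]
  rw [key]
  exact mul_ne_zero ha hb

end Pool.Saxl
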