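import Mathlib
import Pool.Agent.Helper139_Saxl.Defs
import Pool.Agent.Helper139_Saxl.Defs2
import Pool.Agent.Helper139_Saxl.J01
import Pool.Agent.Helper139_Saxl.J05
import Pool.Agent.Helper139_Saxl.J14
import Pool.Agent.Helper139_Saxl.J15

set_option autoImplicit false

/-! Job SX-16: the local lemmas. -/

namespace Pool.Saxl

open Finset

/-- the coefficients -/
noncomputable def sx16_be (H : Matrix (Fin 2) (Fin 2) ℂ) (i j r : ℕ) : ℂ :=
  if h : i < 2 ∧ j < 2 then (qu r * H) ⟨i, h.1⟩ ⟨j, h.2⟩ else 0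

theorem sx16_pt_zero {Ω : Type} [Fintype Ω] [DecidableEq Ω] (row col w : Ω → ℕ)
    (hrow : ∀ x, row x < 2) (x : Ω) (hx : 2 ≤ w x) : pt row col w = 0 := by
  unfold pt
  apply Finset.sum_eq_zero
  intro σ _
  rw [if_neg]
  rintro ⟨_, h⟩
  have h1 := h x
  have h2 := hrow (σ x)
  omega

theorem sx16_restrict {Ω : Type} [Fintype Ω] [DecidableEq Ω] {N : ℕ} (hN : 2 ≤ N)
    (f : (Ω → Fin N) → ℂ) (hf : ∀ w, (∃ x, 2 ≤ (w x : ℕ)) → f w = 0) :
    ∑ w, f w = ∑ w' : Ω → Fin 2, f (fun x => Fin.castLE hN (w' x)) := by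
  symm
  apply Fintype.sum_of_injective (fun w' : Ω → Fin 2 => fun x => Fin.castLE hN (w' x))
  · intro u v huv
    funext x
    exact Fin.castLE_injective hN (congrFun huv x)
  · intro w hw
    apply hf
    by_contra hcon
    push Not at hcon
    apply hw
    exact ⟨fun x => ⟨w x, hcon x⟩, rfl⟩
  · intro w
    rfl

theorem sx16_alt (H : Matrix (Fin 2) (Fin 2) ℂ) (hH : H * H.adjugate = 1)
    (F : ℕ → Matrix (Fin 2) (Fin 2) ℂ) (m : ℕ) :
    alt m (fun s => F s * H) = H.adjugate * alt m F := by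
  induction m with
  | zero => simp only [alt]; rw [Matrix.adjugate_mul_distrib]
  | succ m ih =>
    simp only [alt]
    rw [ih, Matrix.adjugate_mul_distrib]
    calc H.adjugate * alt m F * (F (2 * m + 1) * H) * (H.adjugate * (F (2 * m + 2)).adjugate)
        = H.adjugate * alt m F * F (2 * m + 1) * (H * H.adjugate) * (F (2 * m + 2)).adjugate := by
          simp only [Matrix.mul_assoc]
      _ = _ := by
          rw [hH, Matrix.mul_one]
          simp only [Matrix.mul_assoc]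

theorem sx16_eval (m N : ℕ) (hN : 2 ≤ N) (H : Matrix (Fin 2) (Fin 2) ℂ)
    (w3 : Fin (2 * m + 1) → ℕ) :
    ∑ w1 : Fin (2 * m + 1) → Fin N, ∑ w2 : Fin (2 * m + 1) → Fin N,
      (pt (fun s : Fin (2 * m + 1) => s.1 % 2) (fun s => s.1 / 2) (fun s => (w1 s : ℕ)) : ℂ) *
      (pt (fun s : Fin (2 * m + 1) => s.1 % 2) (fun s => (s.1 + 1) / 2)
        (fun s => (w2 s : ℕ)) : ℂ) *
        ∏ s : Fin (2 * m + 1), sx16_be H (w1 s) (w2 s) (w3 s) =
      (JJ * alt m (fun s => (if h : s < 2 * m + 1 then qu (w3 ⟨s, h⟩) else 1) * H) *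
        (-JJ)) 0 0 := by
  rw [← chain m]
  rw [sx16_restrict hN]
  · refine Finset.sum_congr rfl fun w1 _ => ?_
    rw [sx16_restrict hN]
    · refine Finset.sum_congr rfl fun w2 _ => ?_
      congr 1
      refine Finset.prod_congr rfl fun s _ => ?_
      have h1 : ((Fin.castLE hN (w1 s) : Fin N) : ℕ) < 2 := (w1 s).2
      have h2 : ((Fin.castLE hN (w2 s) : Fin N) : ℕ) < 2 := (w2 s).2
      unfold sx16_be
      rw [dif_pos ⟨h1, h2⟩, dif_pos s.2]
      rfl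
    · rintro w ⟨x, hx⟩
      rw [sx16_pt_zero (fun s : Fin (2 * m + 1) => s.1 % 2) (fun s => (s.1 + 1) / 2)
        (fun s => (w s : ℕ)) (fun x => Nat.mod_lt _ (by norm_num)) x hx]
      simp
  · rintro w ⟨x, hx⟩
    apply Finset.sum_eq_zero
    intro w2 _
    rw [sx16_pt_zero (fun s : Fin (2 * m + 1) => s.1 % 2) (fun s => s.1 / 2)
        (fun s => (w s : ℕ)) (fun x => Nat.mod_lt _ (by norm_num)) x hx]
    simp

theorem sx16_comm3 {α β γ : Type} [Fintype α] [Fintype β] [Fintype γ] (F : α → β → γ → ℂ) :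
    ∑ a, ∑ b, ∑ c, F a b c = ∑ c, ∑ a, ∑ b, F a b c := by
  calc ∑ a, ∑ b, ∑ c, F a b c = ∑ a, ∑ c, ∑ b, F a b c :=
        Finset.sum_congr rfl fun a _ => Finset.sum_comm
    _ = _ := Finset.sum_comm

/-- the total over one chain -/
theorem sx16_total (m : ℕ) (r3 c3 : Fin (2 * m + 1) → ℕ) (hc : Monotone c3)
    (hr : ∀ s t : Fin (2 * m + 1), t.1 = s.1 + 1 → c3 t = c3 s → r3 t = r3 s + 1)
    (h4 : ∀ s t : Fin (2 * m + 1), c3 s = c3 t → t.1 < s.1 + 4) :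
    ∃ v : Fin 2 → ℂ, v ≠ 0 ∧ ∀ K : Matrix (Fin 2) (Fin 2) ℂ, K.det = 1 →
      ∀ N, 2 ≤ N → (∀ s, r3 s < N) →
      ∑ w1 : Fin (2 * m + 1) → Fin N, ∑ w2 : Fin (2 * m + 1) → Fin N,
        ∑ w3 : Fin (2 * m + 1) → Fin N,
        (pt (fun s : Fin (2 * m + 1) => s.1 % 2) (fun s => s.1 / 2) (fun s => (w1 s : ℕ)) : ℂ) *
        (pt (fun s : Fin (2 * m + 1) => s.1 % 2) (fun s => (s.1 + 1) / 2)
          (fun s => (w2 s : ℕ)) : ℂ) *
        (pt r3 c3 (fun s => (w3 s : ℕ)) : ℂ) *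
        ∏ s : Fin (2 * m + 1), sx16_be (-JJ * K).adjugate (w1 s) (w2 s) (w3 s) =
      K 0 0 * v 0 + K 0 1 * v 1 := by
  obtain ⟨Q, hQ, hsum⟩ := quat_sum m r3 c3 hc hr h4
  have hJ : (-JJ).det = 1 := by
    unfold JJ
    rw [Matrix.det_fin_two]
    simp
  refine ⟨fun i => (Q * (-JJ)) i 0, ?_, ?_⟩
  · intro h0
    have h1 : (Q * (-JJ)).det = 0 := by
      rw [Matrix.det_fin_two]
      have h2 := congrFun h0 0
      have h3 := congrFun h0 1
      simp only [Pi.zero_apply] at h2 h3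
      rw [h2, h3]
      ring
    rw [Matrix.det_mul, hJ, mul_one] at h1
    exact hQ h1
  · intro K hK N hN hrN
    set H := (-JJ * K).adjugate with hH
    have hHa : H.adjugate = -JJ * K := by
      rw [hH, Matrix.adjugate_adjugate' , Fintype.card_fin]
      simp
    have hHH : H * H.adjugate = 1 := by
      rw [hHa, hH, Matrix.adjugate_mul, Matrix.det_mul, hJ, hK]
      simp
    have hJK : JJ * (-JJ * K) = K := by
      rw [← Matrix.mul_assoc]
      have : JJ * -JJ = 1 := by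
        unfold JJ
        ext i j
        fin_cases i <;> fin_cases j <;> simp [Matrix.mul_apply, Fin.sum_univ_two]
      rw [this, Matrix.one_mul]
    have hQs := hsum N hrN
    have h1 : ∀ w3 : Fin (2 * m + 1) → Fin N,
        ∑ w1 : Fin (2 * m + 1) → Fin N, ∑ w2 : Fin (2 * m + 1) → Fin N,
        (pt (fun s : Fin (2 * m + 1) => s.1 % 2) (fun s => s.1 / 2) (fun s => (w1 s : ℕ)) : ℂ) *
        (pt (fun s : Fin (2 * m + 1) => s.1 % 2) (fun s => (s.1 + 1) / 2)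
          (fun s => (w2 s : ℕ)) : ℂ) *
        (pt r3 c3 (fun s => (w3 s : ℕ)) : ℂ) *
        ∏ s : Fin (2 * m + 1), sx16_be H (w1 s) (w2 s) (w3 s) =
        (pt r3 c3 (fun s => (w3 s : ℕ)) : ℂ) *
          (K * alt m (fun s => if h : s < 2 * m + 1 then qu (w3 ⟨s, h⟩) else 1) *
        (-JJ)) 0 0 := by
      intro w3
      have h2 := sx16_eval m N hN H (fun s => (w3 s : ℕ))
      rw [sx16_alt H hHH, hHa, ← Matrix.mul_assoc JJ, hJK] at h2
      rw [← h2, Finset.mul_sum]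
      refine Finset.sum_congr rfl fun w1 _ => ?_
      rw [Finset.mul_sum]
      refine Finset.sum_congr rfl fun w2 _ => ?_
      ring
    calc _ = ∑ w3 : Fin (2 * m + 1) → Fin N, ∑ w1 : Fin (2 * m + 1) → Fin N,
        ∑ w2 : Fin (2 * m + 1) → Fin N,
        (pt (fun s : Fin (2 * m + 1) => s.1 % 2) (fun s => s.1 / 2) (fun s => (w1 s : ℕ)) : ℂ) *
        (pt (fun s : Fin (2 * m + 1) => s.1 % 2) (fun s => (s.1 + 1) / 2)
          (fun s => (w2 s : ℕ)) : ℂ) *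
        (pt r3 c3 (fun s => (w3 s : ℕ)) : ℂ) *
        ∏ s : Fin (2 * m + 1), sx16_be H (w1 s) (w2 s) (w3 s) := sx16_comm3 _
      _ = ∑ w3 : Fin (2 * m + 1) → Fin N, (pt r3 c3 (fun s => (w3 s : ℕ)) : ℂ) *
          (K * alt m (fun s => if h : s < 2 * m + 1 then qu (w3 ⟨s, h⟩) else 1) *
        (-JJ)) 0 0 := Finset.sum_congr rfl fun w3 _ => h1 w3
      _ = (K * (∑ w : Fin (2 * m + 1) → Fin N, (pt r3 c3 (fun s => (w s : ℕ)) : ℂ) •
        alt m (fun s => if h : s < 2 * m + 1 then qu (w ⟨s, h⟩) else 1)) * (-JJ)) 0 0 := by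
          rw [Finset.mul_sum, Finset.sum_mul, Matrix.sum_apply]
          refine Finset.sum_congr rfl fun w3 _ => ?_
          rw [Matrix.mul_smul, Matrix.smul_mul, Matrix.smul_apply, smul_eq_mul]
      _ = (K * (Q * (-JJ))) 0 0 := by rw [hQs, Matrix.mul_assoc]
      _ = _ := by
          rw [Matrix.mul_apply, Fin.sum_univ_two]

theorem sx16_words {A B : Type} [Fintype A] [DecidableEq A] [Fintype B] [DecidableEq B] {N : ℕ}
    (f : (A ⊕ B → Fin N) → ℂ) :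
    ∑ w, f w = ∑ u : A → Fin N, ∑ v : B → Fin N, f (Sum.elim u v) := by
  rw [← (Equiv.sumArrowEquivProdArrow A B (Fin N)).symm.sum_comp, Fintype.sum_prod_type]
  rfl

theorem sx16_elim_val {A B : Type} {N : ℕ} (u : A → Fin N) (v : B → Fin N) :
    (fun x => ((Sum.elim u v x : Fin N) : ℕ)) =
      Sum.elim (fun a => (u a : ℕ)) (fun b => (v b : ℕ)) := by
  funext x
  rcases x with a | b <;> rfl

theorem sx16_factor {A B : Type} [Fintype A] [DecidableEq A] [Fintype B] [DecidableEq B] (N : ℕ)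
    (p1 p2 p3 : (A ⊕ B → ℕ) → ℤ) (a1 a2 a3 : (A → ℕ) → ℤ) (b1 b2 b3 : (B → ℕ) → ℤ)
    (h1 : ∀ u v, p1 (Sum.elim u v) = a1 u * b1 v) (h2 : ∀ u v, p2 (Sum.elim u v) = a2 u * b2 v)
    (h3 : ∀ u v, p3 (Sum.elim u v) = a3 u * b3 v) (β : ℕ → ℕ → ℕ → ℂ) :
    ∑ w1 : A ⊕ B → Fin N, ∑ w2 : A ⊕ B → Fin N, ∑ w3 : A ⊕ B → Fin N,
      (p1 (fun x => (w1 x : ℕ)) : ℂ) * (p2 (fun x => (w2 x : ℕ)) : ℂ) *
        (p3 (fun x => (w3 x : ℕ)) : ℂ) * ∏ x, β (w1 x) (w2 x) (w3 x) =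
    (∑ w1 : A → Fin N, ∑ w2 : A → Fin N, ∑ w3 : A → Fin N,
      (a1 (fun x => (w1 x : ℕ)) : ℂ) * (a2 (fun x => (w2 x : ℕ)) : ℂ) *
        (a3 (fun x => (w3 x : ℕ)) : ℂ) * ∏ x, β (w1 x) (w2 x) (w3 x)) *
    (∑ w1 : B → Fin N, ∑ w2 : B → Fin N, ∑ w3 : B → Fin N,
      (b1 (fun x => (w1 x : ℕ)) : ℂ) * (b2 (fun x => (w2 x : ℕ)) : ℂ) *
        (b3 (fun x => (w3 x : ℕ)) : ℂ) * ∏ x, β (w1 x) (w2 x) (w3 x)) := by
  rw [sx16_words, Finset.sum_mul_sum]
  refine Finset.sum_congr rfl fun u1 _ => Finset.sum_congr rfl fun v1 _ => ?_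
  rw [sx16_words, Finset.sum_mul_sum]
  refine Finset.sum_congr rfl fun u2 _ => Finset.sum_congr rfl fun v2 _ => ?_
  rw [sx16_words, Finset.sum_mul_sum]
  refine Finset.sum_congr rfl fun u3 _ => Finset.sum_congr rfl fun v3 _ => ?_
  rw [sx16_elim_val, sx16_elim_val, sx16_elim_val, h1, h2, h3, Fintype.prod_sum_type]
  simp only [Sum.elim_inl, Sum.elim_inr]
  push_cast
  ring

theorem sx16_pt_sum {A B : Type} [Fintype A] [DecidableEq A] [Fintype B] [DecidableEq B]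
    (rA wA : A → ℕ) (rB wB : B → ℕ) (c : A ⊕ B → ℕ) (hc : ∀ a b, c (Sum.inl a) ≠ c (Sum.inr b)) :
    pt (Sum.elim rA rB) c (Sum.elim wA wB) =
      pt rA (fun a => c (Sum.inl a)) wA * pt rB (fun b => c (Sum.inr b)) wB := by
  have h1 : c = Sum.elim (fun a => c (Sum.inl a)) (fun b => c (Sum.inr b)) := by
    funext x
    rcases x with a | b <;> rfl
  rw [← pt_sum, ← h1]
  rw [← h1]
  intro σ hσ _ a
  have h2 := hσ (Sum.inl a)
  rcases h3 : σ (Sum.inl a) with a' | b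
  · rfl
  · rw [h3] at h2
    exact absurd h2.symm (hc a b)

theorem sx16_two {v : Fin 2 → ℂ} (hv : v ≠ 0) {x y : ℂ} (hxy : x ≠ y) (h1 : v 0 + x * v 1 = 0)
    (h2 : v 0 + y * v 1 = 0) : False := by
  have h3 : (x - y) * v 1 = 0 := by linear_combination h1 - h2
  have h4 : v 1 = 0 := by
    rcases mul_eq_zero.1 h3 with h | h
    · exact absurd (sub_eq_zero.1 h) hxy
    · exact h
  have h5 : v 0 = 0 := by
    rw [h4] at h1
    simpa using h1
  apply hv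
  funext i
  fin_cases i
  · exact h5
  · exact h4

theorem sx16_choose {v v' : Fin 2 → ℂ} (hv : v ≠ 0) (hv' : v' ≠ 0) :
    ∃ x : ℂ, v 0 + x * v 1 ≠ 0 ∧ v' 0 + x * v' 1 ≠ 0 := by
  by_contra hcon
  push Not at hcon
  have h0 : v 0 + 0 * v 1 = 0 ∨ v' 0 + 0 * v' 1 = 0 := by
    by_cases h : v 0 + 0 * v 1 = 0
    · exact Or.inl h
    · exact Or.inr (hcon 0 h)
  have h1 : v 0 + 1 * v 1 = 0 ∨ v' 0 + 1 * v' 1 = 0 := by
    by_cases h : v 0 + 1 * v 1 = 0
    · exact Or.inl h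
    · exact Or.inr (hcon 1 h)
  have h2 : v 0 + 2 * v 1 = 0 ∨ v' 0 + 2 * v' 1 = 0 := by
    by_cases h : v 0 + 2 * v 1 = 0
    · exact Or.inl h
    · exact Or.inr (hcon 2 h)
  have n01 : (0 : ℂ) ≠ 1 := zero_ne_one
  have n02 : (0 : ℂ) ≠ 2 := by norm_num
  have n12 : (1 : ℂ) ≠ 2 := by norm_num
  rcases h0 with h0 | h0 <;> rcases h1 with h1 | h1 <;> rcases h2 with h2 | h2
  · exact sx16_two hv n01 h0 h1
  · exact sx16_two hv n01 h0 h1
  · exact sx16_two hv n02 h0 h2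
  · exact sx16_two hv' n12 h1 h2
  · exact sx16_two hv n12 h1 h2
  · exact sx16_two hv' n02 h0 h2
  · exact sx16_two hv' n01 h0 h1
  · exact sx16_two hv' n01 h0 h1

theorem local1 (m : ℕ) (r3 c3 : Fin (2 * m + 1) → ℕ) (hc : Monotone c3)
    (hr : ∀ s t : Fin (2 * m + 1), t.1 = s.1 + 1 → c3 t = c3 s → r3 t = r3 s + 1)
    (h4 : ∀ s t : Fin (2 * m + 1), c3 s = c3 t → t.1 < s.1 + 4) :
    ∃ a1 a2 a3 : Fin (2 * m + 1) → ℕ,
      tri (fun s => s.1 % 2) (fun s => s.1 / 2) (fun s => s.1 % 2) (fun s => m - (s.1 + 1) / 2)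
        r3 c3 a1 a2 a3 ≠ 0 := by
  obtain ⟨v, hv, htot⟩ := sx16_total m r3 c3 hc hr h4
  obtain ⟨x, hx, -⟩ := sx16_choose hv hv
  set K : Matrix (Fin 2) (Fin 2) ℂ := !![1, x; 0, 1] with hK
  have hKd : K.det = 1 := by rw [hK, Matrix.det_fin_two]; simp
  set N := 2 + ∑ s, r3 s with hN
  have hrN : ∀ s, r3 s < N := by
    intro s
    have := Finset.single_le_sum (f := r3) (fun i _ => Nat.zero_le _) (Finset.mem_univ s)
    omega
  apply tri_ne_of_eval _ _ _ _ _ _ N (sx16_be (-JJ * K).adjugate)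
  have h1 : ∀ w : Fin (2 * m + 1) → ℕ,
      pt (fun s : Fin (2 * m + 1) => s.1 % 2) (fun s => m - (s.1 + 1) / 2) w =
        pt (fun s : Fin (2 * m + 1) => s.1 % 2) (fun s => (s.1 + 1) / 2) w := by
    intro w
    apply pt_col
    intro s t
    have hs := s.2
    have ht := t.2
    omega
  simp only [h1]
  rw [htot K hKd N (by omega) hrN]
  have h2 : K 0 0 = 1 := by rw [hK]; rfl
  have h3 : K 0 1 = x := by rw [hK]; rfl
  rw [h2, h3, one_mul]
  exact hx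

theorem local2 (m n : ℕ) (c1 c2 r3 c3 : Fin (2 * m + 1) ⊕ Fin (2 * n + 1) → ℕ)
    (hc1 : ∀ x y, c1 x = c1 y ↔
      (Sum.map (fun s : Fin (2 * m + 1) => s.1 / 2) (fun s : Fin (2 * n + 1) => s.1 / 2) x =
        Sum.map (fun s : Fin (2 * m + 1) => s.1 / 2) (fun s : Fin (2 * n + 1) => s.1 / 2) y))
    (hc2 : ∀ x y, c2 x = c2 y ↔
      (Sum.map (fun s : Fin (2 * m + 1) => (s.1 + 1) / 2) (fun s : Fin (2 * n + 1) => (s.1 + 1) / 2) x =
        Sum.map (fun s : Fin (2 * m + 1) => (s.1 + 1) / 2)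
          (fun s : Fin (2 * n + 1) => (s.1 + 1) / 2) y))
    (hc : Monotone (c3 ∘ Sum.inl)) (hc' : Monotone (c3 ∘ Sum.inr))
    (hd : ∀ s t, c3 (Sum.inl s) ≠ c3 (Sum.inr t))
    (hr : ∀ s t : Fin (2 * m + 1), t.1 = s.1 + 1 → c3 (Sum.inl t) = c3 (Sum.inl s) →
      r3 (Sum.inl t) = r3 (Sum.inl s) + 1)
    (hr' : ∀ s t : Fin (2 * n + 1), t.1 = s.1 + 1 → c3 (Sum.inr t) = c3 (Sum.inr s) →
      r3 (Sum.inr t) = r3 (Sum.inr s) + 1)
    (h4 : ∀ s t : Fin (2 * m + 1), c3 (Sum.inl s) = c3 (Sum.inl t) → t.1 < s.1 + 4)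
    (h4' : ∀ s t : Fin (2 * n + 1), c3 (Sum.inr s) = c3 (Sum.inr t) → t.1 < s.1 + 4) :
    ∃ a1 a2 a3 : Fin (2 * m + 1) ⊕ Fin (2 * n + 1) → ℕ,
      tri (Sum.elim (fun s => s.1 % 2) (fun s => s.1 % 2)) c1
        (Sum.elim (fun s => s.1 % 2) (fun s => s.1 % 2)) c2 r3 c3 a1 a2 a3 ≠ 0 := by
  obtain ⟨v, hv, htot⟩ := sx16_total m (fun s => r3 (Sum.inl s)) (fun s => c3 (Sum.inl s))
    hc hr h4
  obtain ⟨v', hv', htot'⟩ := sx16_total n (fun s => r3 (Sum.inr s)) (fun s => c3 (Sum.inr s))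
    hc' hr' h4'
  obtain ⟨x, hx, hx'⟩ := sx16_choose hv hv'
  set K : Matrix (Fin 2) (Fin 2) ℂ := !![1, x; 0, 1] with hK
  have hKd : K.det = 1 := by rw [hK, Matrix.det_fin_two]; simp
  set N := 2 + ∑ s, r3 s with hN
  have hrN : ∀ s, r3 s < N := by
    intro s
    have := Finset.single_le_sum (f := r3) (fun i _ => Nat.zero_le _) (Finset.mem_univ s)
    omega
  apply tri_ne_of_eval _ _ _ _ _ _ N (sx16_be (-JJ * K).adjugate)
  have e1 : ∀ (u : Fin (2 * m + 1) → ℕ) (w : Fin (2 * n + 1) → ℕ),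
      pt (Sum.elim (fun s : Fin (2 * m + 1) => s.1 % 2) (fun s : Fin (2 * n + 1) => s.1 % 2)) c1
        (Sum.elim u w) =
      pt (fun s : Fin (2 * m + 1) => s.1 % 2) (fun s => s.1 / 2) u *
        pt (fun s : Fin (2 * n + 1) => s.1 % 2) (fun s => s.1 / 2) w := by
    intro u w
    rw [sx16_pt_sum]
    · congr 1
      · apply pt_col
        intro s t
        rw [hc1]
        simp
      · apply pt_col
        intro s t
        rw [hc1]
        simp
    · intro a b h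
      rw [hc1] at h
      simp at h
  have e2 : ∀ (u : Fin (2 * m + 1) → ℕ) (w : Fin (2 * n + 1) → ℕ),
      pt (Sum.elim (fun s : Fin (2 * m + 1) => s.1 % 2) (fun s : Fin (2 * n + 1) => s.1 % 2)) c2
        (Sum.elim u w) =
      pt (fun s : Fin (2 * m + 1) => s.1 % 2) (fun s => (s.1 + 1) / 2) u *
        pt (fun s : Fin (2 * n + 1) => s.1 % 2) (fun s => (s.1 + 1) / 2) w := by
    intro u w
    rw [sx16_pt_sum]
    · congr 1
      · apply pt_col
        intro s t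
        rw [hc2]
        simp
      · apply pt_col
        intro s t
        rw [hc2]
        simp
    · intro a b h
      rw [hc2] at h
      simp at h
  have e3 : ∀ (u : Fin (2 * m + 1) → ℕ) (w : Fin (2 * n + 1) → ℕ),
      pt r3 c3 (Sum.elim u w) =
      pt (fun s => r3 (Sum.inl s)) (fun s => c3 (Sum.inl s)) u *
        pt (fun s => r3 (Sum.inr s)) (fun s => c3 (Sum.inr s)) w := by
    intro u w
    have h1 : r3 = Sum.elim (fun a => r3 (Sum.inl a)) (fun b => r3 (Sum.inr b)) := by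
      funext x
      rcases x with a | b <;> rfl
    conv_lhs => rw [h1]
    rw [sx16_pt_sum _ _ _ _ _ hd]
  rw [sx16_factor N _ _ _ _ _ _ _ _ _ e1 e2 e3]
  rw [htot K hKd N (by omega) (fun s => hrN _), htot' K hKd N (by omega) (fun s => hrN _)]
  have h2 : K 0 0 = 1 := by rw [hK]; rfl
  have h3 : K 0 1 = x := by rw [hK]; rfl
  rw [h2, h3, one_mul, one_mul]
  exact mul_ne_zero hx hx'

end Pool.Saxl
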