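import Mathlib
import Pool.Agent.Helper139_Saxl.Defs
import Pool.Agent.Helper139_Saxl.J04

set_option autoImplicit false

/-! Job SX-17: enumeration of skew boxes column by column. -/

namespace Pool.Saxl

open Finset

/-- the boxes, as pairs (column, row) in lexicographic order -/
noncomputable def sx17_B (mu nu : ℕ → ℕ) (C : Finset ℕ) : Finset (ℕ ×ₗ ℕ) :=
  (C.sigma fun j => Ico (cj nu j) (cj mu j)).image fun p => toLex (p.1, p.2)

theorem sx17_mem (mu nu : ℕ → ℕ) (C : Finset ℕ) (j i : ℕ) :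
    toLex (j, i) ∈ sx17_B mu nu C ↔ j ∈ C ∧ cj nu j ≤ i ∧ i < cj mu j := by
  unfold sx17_B
  rw [Finset.mem_image]
  constructor
  · rintro ⟨p, hp, he⟩
    have he' : (p.1, p.2) = (j, i) := toLex.injective he
    rw [Finset.mem_sigma, Finset.mem_Ico] at hp
    obtain ⟨h1, h2⟩ := Prod.mk.inj he'
    rw [← h1, ← h2]
    exact ⟨hp.1, hp.2.1, hp.2.2⟩
  · rintro ⟨h1, h2, h3⟩
    exact ⟨⟨j, i⟩, Finset.mem_sigma.2 ⟨h1, Finset.mem_Ico.2 ⟨h2, h3⟩⟩, rfl⟩

theorem sx17_card (mu nu : ℕ → ℕ) (C : Finset ℕ) :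
    (sx17_B mu nu C).card = ∑ j ∈ C, (cj mu j - cj nu j) := by
  unfold sx17_B
  rw [Finset.card_image_of_injective, Finset.card_sigma]
  · apply Finset.sum_congr rfl
    intro j _
    rw [Nat.card_Ico]
  · rintro ⟨a, b⟩ ⟨c, d⟩ h
    have h' : (a, b) = (c, d) := toLex.injective h
    obtain ⟨h1, h2⟩ := Prod.mk.inj h'
    subst h1; subst h2; rfl

/-- enumeration, column by column, of the boxes of `mu / nu` in the columns of `C` -/
theorem skew_enum (mu nu : ℕ → ℕ) (n n' : ℕ) (hnu : IsPart nu n) (hmu : IsPart mu n')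
    (h4 : Skew4 mu nu) (C : Finset ℕ) (z : ℕ) (hz : z = ∑ j ∈ C, (cj mu j - cj nu j)) :
    ∃ r3 c3 : Fin z → ℕ, Monotone c3 ∧
      (∀ s t : Fin z, t.1 = s.1 + 1 → c3 t = c3 s → r3 t = r3 s + 1) ∧
      (∀ s t : Fin z, c3 s = c3 t → t.1 < s.1 + 4) ∧
      (∀ s t : Fin z, r3 s = r3 t → c3 s = c3 t → s = t) ∧
      (∀ s, c3 s ∈ C ∧ nu (r3 s) ≤ c3 s ∧ c3 s < mu (r3 s)) ∧
      (∀ i j, j ∈ C → nu i ≤ j → j < mu i → ∃ s, r3 s = i ∧ c3 s = j) := by
  set B := sx17_B mu nu C with hB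
  have hc : B.card = z := by rw [hB, sx17_card, hz]
  set e := B.orderEmbOfFin hc with he
  have hmem : ∀ s, (ofLex (e s)).1 ∈ C ∧ cj nu (ofLex (e s)).1 ≤ (ofLex (e s)).2 ∧
      (ofLex (e s)).2 < cj mu (ofLex (e s)).1 := by
    intro s
    have h1 : e s ∈ B := Finset.orderEmbOfFin_mem B hc s
    have h2 : e s = toLex ((ofLex (e s)).1, (ofLex (e s)).2) := rfl
    rw [h2, hB, sx17_mem] at h1
    exact h1
  have hsurj : ∀ j i, toLex (j, i) ∈ B → ∃ s, e s = toLex (j, i) := by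
    intro j i h
    have h1 : toLex (j, i) ∈ Set.range e := by
      rw [he, Finset.range_orderEmbOfFin]
      exact h
    exact h1
  have hmono : ∀ s t, s ≤ t → (ofLex (e s)).1 ≤ (ofLex (e t)).1 := by
    intro s t hst
    have h1 : e s ≤ e t := e.monotone hst
    rw [Prod.Lex.le_iff] at h1
    rcases h1 with h1 | h1
    · exact h1.le
    · exact h1.1.le
  have hlt : ∀ s t, s < t → (ofLex (e s)).1 = (ofLex (e t)).1 → (ofLex (e s)).2 < (ofLex (e t)).2 := by
    intro s t hst heq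
    have h1 : e s < e t := e.strictMono hst
    rw [Prod.Lex.lt_iff] at h1
    rcases h1 with h1 | h1
    · exact absurd heq h1.ne
    · exact h1.2
  have hstep : ∀ s t : Fin z, t.1 = s.1 + 1 → (ofLex (e t)).1 = (ofLex (e s)).1 →
      (ofLex (e t)).2 = (ofLex (e s)).2 + 1 := by
    intro s t hst heq
    have hst' : s < t := by rw [Fin.lt_def]; omega
    have h1 := hlt s t hst' heq.symm
    by_contra hne
    have h2 : (ofLex (e s)).2 + 1 < (ofLex (e t)).2 := by omega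
    obtain ⟨a1, a2, a3⟩ := hmem s
    obtain ⟨b1, b2, b3⟩ := hmem t
    rw [heq] at b3
    obtain ⟨u, hu⟩ := hsurj (ofLex (e s)).1 ((ofLex (e s)).2 + 1) (by
      rw [hB, sx17_mem]
      exact ⟨a1, by omega, by omega⟩)
    have hsu : e s < e u := by
      rw [hu, Prod.Lex.lt_iff]
      right
      exact ⟨rfl, Nat.lt_succ_self _⟩
    have hut : e u < e t := by
      rw [hu, Prod.Lex.lt_iff]
      right
      exact ⟨heq.symm, h2⟩
    have h3 : s < u := e.lt_iff_lt.1 hsu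
    have h4 : u < t := e.lt_iff_lt.1 hut
    rw [Fin.lt_def] at h3 h4
    omega
  have hk : ∀ k : ℕ, ∀ s t : Fin z, t.1 = s.1 + k → (ofLex (e s)).1 = (ofLex (e t)).1 →
      (ofLex (e t)).2 = (ofLex (e s)).2 + k := by
    intro k
    induction k with
    | zero =>
      intro s t h _
      have : t = s := Fin.ext (by omega)
      rw [this]; rfl
    | succ k ih =>
      intro s t h heq
      have hlt' : s.1 + k < z := by omega
      have e1 : (ofLex (e s)).1 ≤ (ofLex (e ⟨s.1 + k, hlt'⟩)).1 := hmono _ _ (by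
        rw [Fin.le_def]; show s.1 ≤ s.1 + k; omega)
      have e2 : (ofLex (e ⟨s.1 + k, hlt'⟩)).1 ≤ (ofLex (e t)).1 := hmono _ _ (by
        rw [Fin.le_def]; show s.1 + k ≤ t.1; omega)
      have e3 := ih s ⟨s.1 + k, hlt'⟩ rfl (by omega)
      have e4 := hstep ⟨s.1 + k, hlt'⟩ t (by show t.1 = s.1 + k + 1; omega) (by omega)
      omega
  have h4' : ∀ j, cj mu j ≤ cj nu j + 4 := by
    intro j
    have h1 : ¬ (cj nu j < cj nu j) := lt_irrefl _
    rw [lt_cj_iff nu n hnu] at h1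
    have h2 := (h4 (cj nu j)).2
    have h3 : ¬ (cj nu j + 4 < cj mu j) := by
      rw [lt_cj_iff mu n' hmu]
      omega
    omega
  refine ⟨fun s => (ofLex (e s)).2, fun s => (ofLex (e s)).1, hmono, hstep, ?_, ?_, ?_, ?_⟩
  · intro s t heq
    by_contra hge
    have hge' : s.1 + 4 ≤ t.1 := by omega
    have h1 := hk (t.1 - s.1) s t (by omega) heq
    have h2 := (hmem t).2.2
    have h3 := (hmem s).2.1
    have h5 := h4' (ofLex (e t)).1
    have heq' : (ofLex (e s)).1 = (ofLex (e t)).1 := heq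
    rw [heq'] at h3
    omega
  · intro s t h1 h2
    apply e.injective
    apply ofLex.injective
    exact Prod.ext h2 h1
  · intro s
    obtain ⟨a1, a2, a3⟩ := hmem s
    refine ⟨a1, ?_, ?_⟩
    · have : ¬ ((ofLex (e s)).2 < cj nu (ofLex (e s)).1) := by omega
      rw [lt_cj_iff nu n hnu] at this
      exact not_lt.1 this
    · exact (lt_cj_iff mu n' hmu _ _).1 a3
  · intro i j hj h1 h2
    obtain ⟨s, hs⟩ := hsurj j i (by
      rw [hB, sx17_mem]
      refine ⟨hj, ?_, (lt_cj_iff mu n' hmu _ _).2 h2⟩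
      have : ¬ (i < cj nu j) := by
        rw [lt_cj_iff nu n hnu]; omega
      omega)
    refine ⟨s, ?_, ?_⟩
    · show (ofLex (e s)).2 = i
      rw [hs]; rfl
    · show (ofLex (e s)).1 = j
      rw [hs]; rfl

end Pool.Saxl
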