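import Mathlib
import Pool.Agent.Helper139_Saxl.Defs
import Pool.Agent.Helper139_Saxl.Conf
import Pool.Agent.Helper139_Saxl.J01
import Pool.Agent.Helper139_Saxl.J02
import Pool.Agent.Helper139_Saxl.J04
import Pool.Agent.Helper139_Saxl.J13
import Pool.Agent.Helper139_Saxl.J16
import Pool.Agent.Helper139_Saxl.J17
import Pool.Agent.Helper139_Saxl.J19

set_option autoImplicit false

/-! Job SX-18: adding a band. -/

namespace Pool.Saxl

open Finset

theorem sx18_cj_le (mu nu : ℕ → ℕ) (n n' : ℕ) (hnu : IsPart nu n) (hmu : IsPart mu n')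
    (h : ∀ i, nu i ≤ mu i) (j : ℕ) : cj nu j ≤ cj mu j := by
  by_contra hlt
  rw [not_le] at hlt
  have h1 := (lt_cj_iff nu n hnu (cj mu j) j).1 hlt
  have h2 := (lt_cj_iff mu n' hmu (cj mu j) j).2 (lt_of_lt_of_le h1 (h _))
  exact lt_irrefl _ h2

theorem sx18_sum_cj (nu : ℕ → ℕ) (n N : ℕ) (hnu : IsPart nu n) (hN : n ≤ N) :
    ∑ j ∈ range N, cj nu j = n := by
  have h := isPart_cj nu n hnu
  rw [← Finset.sum_subset (Finset.range_subset_range.2 hN) ?_, h.sum]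
  intro i _ hi
  apply h.zero
  simpa using hi

theorem sx18_size (mu nu : ℕ → ℕ) (n z : ℕ) (hnu : IsPart nu n) (hmu : IsPart mu (z + n))
    (h : ∀ i, nu i ≤ mu i) : z = ∑ j ∈ range (z + n), (cj mu j - cj nu j) := by
  rw [Finset.sum_tsub_distrib _ fun j _ => sx18_cj_le mu nu n _ hnu hmu h j,
    sx18_sum_cj mu _ _ hmu le_rfl, sx18_sum_cj nu _ _ hnu (by omega)]
  omega

theorem sx18_le (mu : ℕ → ℕ) (N : ℕ) (hmu : IsPart mu N) (i : ℕ) : mu i ≤ N := by
  by_cases hi : i < N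
  · calc mu i ≤ ∑ i ∈ range N, mu i :=
        Finset.single_le_sum (f := mu) (fun _ _ => Nat.zero_le _) (Finset.mem_range.2 hi)
      _ = N := hmu.sum
  · rw [hmu.zero i (not_lt.1 hi)]
    exact Nat.zero_le _

theorem sx18_std {A B : Type} [Fintype A] [DecidableEq A] [Fintype B] [DecidableEq B]
    (mu nu : ℕ → ℕ) (n N : ℕ) (hnu : IsPart nu n) (hmu : IsPart mu N) (hle : ∀ i, nu i ≤ mu i)
    (rA cA : A → ℕ) (rB cB : B → ℕ) (hB : IsStd rB cB nu)
    (hinj : ∀ s t : A, rA s = rA t → cA s = cA t → s = t)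
    (hin : ∀ s, nu (rA s) ≤ cA s ∧ cA s < mu (rA s))
    (hsur : ∀ i j, j < N → nu i ≤ j → j < mu i → ∃ s, rA s = i ∧ cA s = j) :
    (∀ x y, cA x = cB y → rB y < rA x) ∧ IsStd (Sum.elim rA rB) (Sum.elim cA cB) mu := by
  have hAB : ∀ x y, cA x = cB y → rB y < rA x := by
    intro x y hxy
    by_contra hlt
    rw [not_lt] at hlt
    have h1 := hnu.anti hlt
    have h2 := (hin x).1
    have h3 := hB.lt y
    omega
  have hsur' : ∀ i j, j < mu i → ∃ x : A ⊕ B, Sum.elim rA rB x = i ∧ Sum.elim cA cB x = j := by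
    intro i j hij
    by_cases hj : j < nu i
    · obtain ⟨y, hy1, hy2⟩ := std_surj rB cB nu hB i j hj
      exact ⟨Sum.inr y, hy1, hy2⟩
    · obtain ⟨s, hs1, hs2⟩ := hsur i j (lt_of_lt_of_le hij (sx18_le mu N hmu i)) (not_lt.1 hj) hij
      exact ⟨Sum.inl s, hs1, hs2⟩
  have hlt : ∀ x : A ⊕ B, Sum.elim cA cB x < mu (Sum.elim rA rB x) := by
    rintro (s | y)
    · exact (hin s).2
    · exact lt_of_lt_of_le (hB.lt y) (hle _)
  have hinj' : ∀ x y : A ⊕ B, Sum.elim rA rB x = Sum.elim rA rB y →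
      Sum.elim cA cB x = Sum.elim cA cB y → x = y := by
    rintro (s | y) (t | z) h1 h2
    · rw [hinj s t h1 h2]
    · have h3 := hAB s z h2
      simp only [Sum.elim_inl, Sum.elim_inr] at h1
      omega
    · have h3 := hAB t y h2.symm
      simp only [Sum.elim_inl, Sum.elim_inr] at h1
      omega
    · rw [hB.inj y z h1 h2]
  refine ⟨hAB, ⟨⟨hinj', ?_, ?_⟩, hlt⟩⟩
  · intro x i hi
    have h1 : Sum.elim cA cB x < mu i := lt_of_lt_of_le (hlt x) (hmu.anti hi.le)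
    obtain ⟨y, hy1, hy2⟩ := hsur' i _ h1
    exact ⟨y, hy2, hy1⟩
  · intro i
    rw [← Finset.card_range (mu i)]
    refine Finset.card_bij (fun x _ => Sum.elim cA cB x) ?_ ?_ ?_
    · intro x hx
      rw [Finset.mem_filter] at hx
      rw [Finset.mem_range, ← hx.2]
      exact hlt x
    · intro x hx y hy hxy
      rw [Finset.mem_filter] at hx hy
      exact hinj' x y (hx.2.trans hy.2.symm) hxy
    · intro j hj
      rw [Finset.mem_range] at hj
      obtain ⟨x, hx1, hx2⟩ := hsur' i j hj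
      exact ⟨x, Finset.mem_filter.2 ⟨Finset.mem_univ _, hx1⟩, hx2⟩

theorem sx18_omR (m : ℕ) (L : List ℕ) : omR ((m + 1) :: L) =
    (Sum.elim (fun s : Fin (2 * m + 1) => s.1 % 2) (fun y => omR L y + 2) :
      Fin (2 * m + 1) ⊕ Om L → ℕ) := by
  funext x
  rcases x with s | y <;> rfl

theorem sx18_omA (m : ℕ) (L : List ℕ) : omA ((m + 1) :: L) =
    (Sum.elim (fun s : Fin (2 * m + 1) => s.1 / 2) (omA L) :
      Fin (2 * m + 1) ⊕ Om L → ℕ) := by
  funext x
  rcases x with s | y <;> rfl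

theorem sx18_omB (m : ℕ) (L : List ℕ) : omB ((m + 1) :: L) =
    (Sum.elim (fun s : Fin (2 * m + 1) => m - (s.1 + 1) / 2) (omB L) :
      Fin (2 * m + 1) ⊕ Om L → ℕ) := by
  funext x
  rcases x with s | y <;> rfl

theorem PV_nil : PV [] (fun _ => 0) := by
  have : IsEmpty (Om []) := inferInstanceAs (IsEmpty Empty)
  refine ⟨fun _ => 0, fun _ => 0, ⟨⟨fun x => isEmptyElim x, fun x => isEmptyElim x, ?_⟩,
    fun x => isEmptyElim x⟩, fun _ => 0, fun _ => 0, fun _ => 0, ?_⟩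
  · intro i
    simp
  · unfold tri pt
    simp

theorem PV_cons (x : ℕ) (L : List ℕ) (hL : Bands (x :: L)) (mu nu : ℕ → ℕ)
    (hnu : IsPart nu (bandSum L)) (hmu : IsPart mu (bandSum (x :: L))) (h4 : Skew4 mu nu)
    (h : PV L nu) : PV (x :: L) mu := by
  have hx : 1 ≤ x := by
    cases L with
    | nil => exact hL
    | cons y L' =>
      have h1 : y + 2 ≤ x := hL.1
      omega
  obtain ⟨m, rfl⟩ : ∃ m, x = m + 1 := ⟨x - 1, by omega⟩
  have hmu' : IsPart mu ((2 * m + 1) + bandSum L) := hmu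
  obtain ⟨r3B, c3B, hB, b1, b2, b3, hb⟩ := h
  obtain ⟨r3A, c3A, hmono, hstep, hfour, hinj, hin, hsur⟩ :=
    skew_enum mu nu (bandSum L) ((2 * m + 1) + bandSum L) hnu hmu' h4
      (range ((2 * m + 1) + bandSum L)) (2 * m + 1)
      (sx18_size mu nu (bandSum L) (2 * m + 1) hnu hmu' fun i => (h4 i).1)
  obtain ⟨hAB, hstd⟩ := sx18_std mu nu (bandSum L) _ hnu hmu' (fun i => (h4 i).1) r3A c3A r3B c3B
    hB hinj (fun s => (hin s).2) (fun i j hj h1 h2 => hsur i j (Finset.mem_range.2 hj) h1 h2)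
  obtain ⟨w1, w2, w3, hw⟩ := step (fun s : Fin (2 * m + 1) => s.1 % 2) (fun s => s.1 / 2)
    (fun s : Fin (2 * m + 1) => s.1 % 2) (fun s => m - (s.1 + 1) / 2) r3A c3A
    (omR L) (omA L) (omR L) (omB L) r3B c3B (m - 1)
    (fun s => Nat.mod_lt _ (by norm_num)) (fun s => Nat.mod_lt _ (by norm_num))
    (fun s => by have := s.2; omega)
    (fun y => by have := om_lt (m + 1) L hL y; omega)
    hAB (local1 m r3A c3A hmono hstep hfour) ⟨b1, b2, b3, hb⟩
  refine ⟨(Sum.elim r3A r3B : Fin (2 * m + 1) ⊕ Om L → ℕ),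
    (Sum.elim c3A c3B : Fin (2 * m + 1) ⊕ Om L → ℕ), hstd, w1, w2, w3, ?_⟩
  rw [sx18_omR, sx18_omA, sx18_omB]
  exact hw

end Pool.Saxl
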