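import Mathlib
import Pool.Agent.Helper139_Saxl.Defs
import Pool.Agent.Helper139_Saxl.Conf
import Pool.Agent.Helper139_Saxl.J04
import Pool.Agent.Helper139_Saxl.J21
import Pool.Agent.Helper139_Saxl.J18

set_option autoImplicit false

/-! Job SX-22: the area criterion (rule W). -/

namespace Pool.Saxl

open Finset

theorem sx22_bands_tail (x : ℕ) (L : List ℕ) (h : Bands (x :: L)) : Bands L := by
  rcases L with _ | ⟨y, L⟩
  · exact trivial
  · exact h.2

theorem sx22_take_le (L : List ℕ) : ∀ (x j : ℕ), Bands (x :: L) →
    bandSum (L.take j) ≤ bandSum ((x :: L).take j) := by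
  induction L with
  | nil =>
    intro x j _
    rw [List.take_nil]
    exact Nat.zero_le _
  | cons y L ih =>
    intro x j h
    rcases j with _ | j
    · rw [List.take_zero, List.take_zero]
    · rw [List.take_succ_cons, List.take_succ_cons]
      have h1 := ih y j h.2
      have h2 : y + 2 ≤ x := h.1
      show (2 * y - 1) + bandSum (L.take j) ≤ (2 * x - 1) + bandSum ((y :: L).take j)
      omega

theorem PV_of_area (L : List ℕ) (hL : Bands L) (mu : ℕ → ℕ) (hmu : IsPart mu (bandSum L))
    (hW : ∀ j, j ≤ L.length → bandSum (L.take j) ≤ area mu (4 * j)) : PV L mu := by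
  induction L generalizing mu with
  | nil =>
    have h0 : mu = fun _ => 0 := by
      funext i
      exact hmu.zero i (Nat.zero_le _)
    rw [h0]
    exact PV_nil
  | cons x L ih =>
    have h1 := hW 1 (by simp)
    have h1' : (2 * x - 1) + 0 ≤ area mu (4 * 1) := h1
    obtain ⟨nu, hnu1, hnu2, hnu3⟩ := greedy 4 (by norm_num) mu (bandSum (x :: L)) (2 * x - 1) hmu
      (by simpa using h1')
    have hn : bandSum (x :: L) - (2 * x - 1) = bandSum L := by
      show (2 * x - 1) + bandSum L - (2 * x - 1) = bandSum L
      omega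
    rw [hn] at hnu1
    refine PV_cons x L hL mu nu hnu1 hmu hnu2 (ih (sx22_bands_tail x L hL) nu hnu1 ?_)
    intro j hj
    rw [hnu3]
    refine le_min ?_ ?_
    · exact (sx22_take_le L x j hL).trans (hW j (by rw [List.length_cons]; omega))
    · have h2 := hW (j + 1) (by rw [List.length_cons]; omega)
      rw [List.take_succ_cons] at h2
      have h3 : (2 * x - 1) + bandSum (L.take j) ≤ area mu (4 * (j + 1)) := h2
      have h4 : 4 * (j + 1) = 4 * j + 4 := by ring
      rw [h4] at h3
      omega

end Pool.Saxl
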