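import Mathlib
import Pool.Agent.Helper139_Saxl.Defs
import Pool.Agent.Helper139_Saxl.Conf
import Pool.Agent.Helper139_Saxl.Ga
import Pool.Agent.Helper139_Saxl.J01
import Pool.Agent.Helper139_Saxl.J02
import Pool.Agent.Helper139_Saxl.J03
import Pool.Agent.Helper139_Saxl.J21
import Pool.Agent.Helper139_Saxl.J04
import Pool.Agent.Helper139_Saxl.J22
import Pool.Agent.Helper139_Saxl.J19

set_option autoImplicit false

/-! Job GA-04: pairs of configurations: easy facts. -/

namespace Pool.Saxl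

open Finset

/-- the bands of the staircase -/
def ga04_sBands : ℕ → List ℕ
  | 0 => []
  | 1 => [1]
  | k + 2 => (k + 2) :: ga04_sBands k

theorem ga04_shape : (m : ℕ) → bandShape (ga04_sBands m) = rho m
  | 0 => by
      funext i
      simp [ga04_sBands, bandShape, rho]
  | 1 => by
      funext i
      match i with
      | 0 => simp [ga04_sBands, bandShape, rho]
      | 1 => simp [ga04_sBands, bandShape, rho]
      | i + 2 => simp [ga04_sBands, bandShape, rho]
  | k + 2 => by
      funext i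
      match i with
      | 0 => simp [ga04_sBands, bandShape, rho]
      | 1 => simp [ga04_sBands, bandShape, rho]
      | i + 2 =>
          have h := congrFun (ga04_shape k) i
          simp only [ga04_sBands, bandShape, h, rho]
          omega

theorem ga04_bands : (m : ℕ) → Bands (ga04_sBands m)
  | 0 => by simp [ga04_sBands, Bands]
  | 1 => by simp [ga04_sBands, Bands]
  | 2 => by simp [ga04_sBands, Bands]
  | 3 => by simp [ga04_sBands, Bands]
  | k + 4 => by
      have h := ga04_bands (k + 2)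
      have e : ga04_sBands (k + 4) = (k + 4) :: (k + 2) :: ga04_sBands k := by
        simp [ga04_sBands]
      have e2 : ga04_sBands (k + 2) = (k + 2) :: ga04_sBands k := by
        simp [ga04_sBands]
      rw [e2] at h
      rw [e]
      exact ⟨by omega, h⟩

theorem ga04_area_two (mu : ℕ → ℕ) (s : ℕ) :
    area mu (s + 2) = mu 0 + mu 1 + area (fun i => mu (i + 2)) s := by
  unfold area
  rw [Finset.sum_range_succ', Finset.sum_range_succ']
  simp only [Nat.reduceAdd, zero_add]
  have : ∀ i, mu (i + 1 + 1) = mu (i + 2) := fun i => rfl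
  simp only [this]
  ring

theorem ga04_sum_take : (m : ℕ) → (j : ℕ) →
    bandSum ((ga04_sBands m).take j) = area (rho m) (2 * j)
  | 0, j => by
      simp [ga04_sBands, bandSum, area, rho]
  | 1, 0 => by
      simp [ga04_sBands, bandSum, area, rho]
  | 1, j + 1 => by
      have e : 2 * (j + 1) = 2 * j + 2 := by ring
      rw [e, ga04_area_two]
      simp [ga04_sBands, bandSum, area, rho]
  | k + 2, 0 => by
      simp [ga04_sBands, bandSum, area, rho]
  | k + 2, j + 1 => by
      have h := ga04_sum_take k j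
      have e : 2 * (j + 1) = 2 * j + 2 := by ring
      rw [e, ga04_area_two]
      have e2 : (fun i => rho (k + 2) (i + 2)) = rho k := by
        funext i
        simp only [rho]
        omega
      rw [e2, ← h]
      simp only [ga04_sBands, List.take_succ_cons, bandSum, rho]
      omega

theorem ga04_sum : (m : ℕ) → bandSum (ga04_sBands m) = m * (m + 1) / 2
  | 0 => by simp [ga04_sBands, bandSum]
  | 1 => by simp [ga04_sBands, bandSum]
  | k + 2 => by
      have h := ga04_sum k
      simp only [ga04_sBands, bandSum, h]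
      have e : (k + 2) * (k + 2 + 1) = k * (k + 1) + 2 * (2 * k + 3) := by ring
      rw [e]
      omega

theorem ga04_tri_equiv {Ω Ω' : Type} [Fintype Ω] [DecidableEq Ω] [Fintype Ω'] [DecidableEq Ω']
    (f : Ω ≃ Ω') (r1 c1 r2 c2 r3 c3 w1 w2 w3 : Ω' → ℕ) :
    tri (r1 ∘ f) (c1 ∘ f) (r2 ∘ f) (c2 ∘ f) (r3 ∘ f) (c3 ∘ f) (w1 ∘ f) (w2 ∘ f) (w3 ∘ f) =
      tri r1 c1 r2 c2 r3 c3 w1 w2 w3 := by
  unfold tri
  refine Fintype.sum_equiv (Equiv.permCongr f) _ _ ?_
  intro g
  have h : ∀ w : Ω' → ℕ, (w ∘ f) ∘ g = (w ∘ (Equiv.permCongr f g)) ∘ f := by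
    intro w
    funext x
    simp [Equiv.permCongr_apply]
  rw [h w1, h w2, h w3, pt_equiv, pt_equiv, pt_equiv]

theorem CV_G (lam kap : ℕ → ℕ) (D : ℕ) (nu : ℕ → ℕ) (h : CV lam kap D nu) : G lam kap nu := by
  obtain ⟨n, r1, c1, r2, c2, r3, c3, h1, h2, h3, _, w1, w2, w3, hw⟩ := h
  exact ⟨n, r1, c1, r2, c2, r3, c3, h1, h2, h3.toIsTab, w1, w2, w3, hw⟩

theorem CV_mono (lam kap : ℕ → ℕ) (D D' : ℕ) (hD : D ≤ D') (nu : ℕ → ℕ) (h : CV lam kap D nu) :
    CV lam kap D' nu := by
  obtain ⟨n, r1, c1, r2, c2, r3, c3, h1, h2, h3, h4, hw⟩ := h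
  exact ⟨n, r1, c1, r2, c2, r3, c3, h1, h2, h3, fun y => lt_of_lt_of_le (h4 y) hD, hw⟩

/-- the staircase satisfies the area criterion -/
theorem CV_rho (m : ℕ) (mu : ℕ → ℕ) (hmu : IsPart mu (m * (m + 1) / 2))
    (hW : ∀ j, area (rho m) (2 * j) ≤ area mu (4 * j)) : CV (rho m) (rho m) m mu := by
  have hL := ga04_bands m
  have hmu' : IsPart mu (bandSum (ga04_sBands m)) := by rw [ga04_sum]; exact hmu
  have hPV := PV_of_area (ga04_sBands m) hL mu hmu' (fun j _ => by
    rw [ga04_sum_take]; exact hW j)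
  obtain ⟨r3, c3, h3, w1, w2, w3, hw⟩ := hPV
  obtain ⟨h1, h2⟩ := isTab_om (ga04_sBands m) hL
  rw [ga04_shape] at h1 h2
  have e : Fin (Fintype.card (Om (ga04_sBands m))) ≃ Om (ga04_sBands m) :=
    (Fintype.equivFin _).symm
  refine ⟨Fintype.card (Om (ga04_sBands m)), omR _ ∘ e, omA _ ∘ e, omR _ ∘ e, omB _ ∘ e,
    r3 ∘ e, c3 ∘ e, h1.comp e, h2.comp e, ⟨h3.toIsTab.comp e, fun x => h3.lt (e x)⟩, ?_,
    w1 ∘ e, w2 ∘ e, w3 ∘ e, ?_⟩
  · intro y
    have hb : Bands ((m + 2) :: ga04_sBands m) := by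
      have := ga04_bands (m + 2)
      simpa only [ga04_sBands] using this
    have := (om_lt (m + 2) (ga04_sBands m) hb (e y)).1
    simp only [Function.comp]
    omega
  · rw [ga04_tri_equiv]
    exact hw

theorem greedyW (O mu : ℕ → ℕ) (n : ℕ) (hO : Antitone O) (hmu : IsPart mu n)
    (hW : ∀ j, area O (2 * j) ≤ area mu (4 * j)) :
    ∃ nu : ℕ → ℕ, IsPart nu (n - area O 2) ∧ Skew4 mu nu ∧
      ∀ j, area (fun i => O (i + 2)) (2 * j) ≤ area nu (4 * j) := by
  have hz : area O 2 ≤ area mu 4 := by simpa using hW 1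
  obtain ⟨nu, hnu, hsk, har⟩ := greedy 4 (by norm_num) mu n (area O 2) hmu hz
  refine ⟨nu, hnu, hsk, fun j => ?_⟩
  rw [har]
  refine le_min ?_ ?_
  · refine le_trans ?_ (hW j)
    unfold area
    exact Finset.sum_le_sum fun i _ => hO (by omega)
  · have h := hW (j + 1)
    have e1 : 2 * (j + 1) = 2 * j + 2 := by ring
    have e2 : 4 * (j + 1) = 4 * j + 4 := by ring
    rw [e1, e2, ga04_area_two] at h
    have h0 : area O 2 = O 0 + O 1 := by
      have := ga04_area_two O 0
      simpa [area] using this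
    rw [h0]
    omega

end Pool.Saxl
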