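import Mathlib
import Pool.Agent.Helper139_Saxl.Defs
import Pool.Agent.Helper139_Saxl.Conf
import Pool.Agent.Helper139_Saxl.Ga
import Pool.Agent.Helper139_Saxl.J01
import Pool.Agent.Helper139_Saxl.J02
import Pool.Agent.Helper139_Saxl.J03
import Pool.Agent.Helper139_Saxl.J04
import Pool.Agent.Helper139_Saxl.J13
import Pool.Agent.Helper139_Saxl.J16
import Pool.Agent.Helper139_Saxl.J17

set_option autoImplicit false

/-! Job GA-05: adding an ordinary band to a pair of configurations. -/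

namespace Pool.Saxl

open Finset

theorem ga05_cj_le (mu nu : ℕ → ℕ) (n n' : ℕ) (hnu : IsPart nu n) (hmu : IsPart mu n')
    (h : ∀ i, nu i ≤ mu i) (j : ℕ) : cj nu j ≤ cj mu j := by
  by_contra hlt
  rw [not_le] at hlt
  have h1 := (lt_cj_iff nu n hnu (cj mu j) j).1 hlt
  have h2 := (lt_cj_iff mu n' hmu (cj mu j) j).2 (lt_of_lt_of_le h1 (h _))
  exact lt_irrefl _ h2

theorem ga05_sum_cj (nu : ℕ → ℕ) (n N : ℕ) (hnu : IsPart nu n) (hN : n ≤ N) :
    ∑ j ∈ range N, cj nu j = n := by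
  have h := isPart_cj nu n hnu
  rw [← Finset.sum_subset (Finset.range_subset_range.2 hN) ?_, h.sum]
  intro i _ hi
  apply h.zero
  simpa using hi

theorem ga05_size (mu nu : ℕ → ℕ) (n z : ℕ) (hnu : IsPart nu n) (hmu : IsPart mu (n + z))
    (h : ∀ i, nu i ≤ mu i) : z = ∑ j ∈ range (n + z), (cj mu j - cj nu j) := by
  rw [Finset.sum_tsub_distrib _ fun j _ => ga05_cj_le mu nu n _ hnu hmu h j,
    ga05_sum_cj mu _ _ hmu le_rfl, ga05_sum_cj nu _ _ hnu (by omega)]
  omega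

theorem ga05_le (mu : ℕ → ℕ) (N : ℕ) (hmu : IsPart mu N) (i : ℕ) : mu i ≤ N := by
  by_cases hi : i < N
  · calc mu i ≤ ∑ i ∈ range N, mu i :=
        Finset.single_le_sum (f := mu) (fun _ _ => Nat.zero_le _) (Finset.mem_range.2 hi)
      _ = N := hmu.sum
  · rw [hmu.zero i (not_lt.1 hi)]
    exact Nat.zero_le _

theorem ga05_std {A B : Type} [Fintype A] [DecidableEq A] [Fintype B] [DecidableEq B]
    (mu nu : ℕ → ℕ) (n N : ℕ) (hnu : IsPart nu n) (hmu : IsPart mu N) (hle : ∀ i, nu i ≤ mu i)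
    (rA cA : A → ℕ) (rB cB : B → ℕ) (hB : IsStd rB cB nu)
    (hinj : ∀ s t : A, rA s = rA t → cA s = cA t → s = t)
    (hin : ∀ s, nu (rA s) ≤ cA s ∧ cA s < mu (rA s))
    (hsur : ∀ i j, j < N → nu i ≤ j → j < mu i → ∃ s, rA s = i ∧ cA s = j) :
    (∀ x y, cA x = cB y → rB y < rA x) ∧ IsStd (Sum.elim rA rB) (Sum.elim cA cB) mu := by
  have hAB : ∀ x y, cA x = cB y → rB y < rA x := by
    intro x y hxy
    by_contra hlt
    rw [not_lt] at hlt
    have h1 := hnu.anti hlt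
    have h2 := (hin x).1
    have h3 := hB.lt y
    omega
  have hsur' : ∀ i j, j < mu i → ∃ x : A ⊕ B, Sum.elim rA rB x = i ∧ Sum.elim cA cB x = j := by
    intro i j hij
    by_cases hj : j < nu i
    · obtain ⟨y, hy1, hy2⟩ := std_surj rB cB nu hB i j hj
      exact ⟨Sum.inr y, hy1, hy2⟩
    · obtain ⟨s, hs1, hs2⟩ := hsur i j (lt_of_lt_of_le hij (ga05_le mu N hmu i)) (not_lt.1 hj) hij
      exact ⟨Sum.inl s, hs1, hs2⟩
  have hlt : ∀ x : A ⊕ B, Sum.elim cA cB x < mu (Sum.elim rA rB x) := by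
    rintro (s | y)
    · exact (hin s).2
    · exact lt_of_lt_of_le (hB.lt y) (hle _)
  have hinj' : ∀ x y : A ⊕ B, Sum.elim rA rB x = Sum.elim rA rB y →
      Sum.elim cA cB x = Sum.elim cA cB y → x = y := by
    rintro (s | y) (t | z) h1 h2
    · rw [hinj s t h1 h2]
    · have h3 := hAB s z h2
      simp only [Sum.elim_inl, Sum.elim_inr] at h1
      omega
    · have h3 := hAB t y h2.symm
      simp only [Sum.elim_inl, Sum.elim_inr] at h1
      omega
    · rw [hB.inj y z h1 h2]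
  refine ⟨hAB, ⟨⟨hinj', ?_, ?_⟩, hlt⟩⟩
  · intro x i hi
    have h1 : Sum.elim cA cB x < mu i := lt_of_lt_of_le (hlt x) (hmu.anti hi.le)
    obtain ⟨y, hy1, hy2⟩ := hsur' i _ h1
    exact ⟨y, hy2, hy1⟩
  · intro i
    rw [← Finset.card_range (mu i)]
    refine Finset.card_bij (fun x _ => Sum.elim cA cB x) ?_ ?_ ?_
    · intro x hx
      rw [Finset.mem_filter] at hx
      rw [Finset.mem_range, ← hx.2]
      exact hlt x
    · intro x hx y hy hxy
      rw [Finset.mem_filter] at hx hy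
      exact hinj' x y (hx.2.trans hy.2.symm) hxy
    · intro j hj
      rw [Finset.mem_range] at hj
      obtain ⟨x, hx1, hx2⟩ := hsur' i j hj
      exact ⟨x, Finset.mem_filter.2 ⟨Finset.mem_univ _, hx1⟩, hx2⟩

theorem ga05_tri_equiv {Ω Ω' : Type} [Fintype Ω] [DecidableEq Ω] [Fintype Ω'] [DecidableEq Ω']
    (f : Ω ≃ Ω') (r1 c1 r2 c2 r3 c3 w1 w2 w3 : Ω' → ℕ) :
    tri (r1 ∘ f) (c1 ∘ f) (r2 ∘ f) (c2 ∘ f) (r3 ∘ f) (c3 ∘ f) (w1 ∘ f) (w2 ∘ f) (w3 ∘ f) =
      tri r1 c1 r2 c2 r3 c3 w1 w2 w3 := by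
  unfold tri
  rw [← Equiv.sum_comp (Equiv.permCongr f)]
  apply Finset.sum_congr rfl
  intro g _
  have h : ∀ w : Ω' → ℕ, (w ∘ f) ∘ g = (w ∘ (Equiv.permCongr f g)) ∘ f := by
    intro w
    funext x
    simp [Equiv.permCongr_apply]
  rw [h w1, h w2, h w3, pt_equiv, pt_equiv, pt_equiv]

theorem ga05_count (k : ℕ) : (∑ s ∈ range (2 * k + 1), if s % 2 = 0 then 1 else 0) = k + 1 ∧
    (∑ s ∈ range (2 * k + 1), if s % 2 = 1 then 1 else 0) = k := by
  induction k with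
  | zero => constructor <;> rfl
  | succ k ih =>
    have e : 2 * (k + 1) + 1 = (2 * k + 1) + 1 + 1 := by ring
    obtain ⟨i1, i2⟩ := ih
    rw [e]
    generalize 2 * k + 1 = m at i1 i2 e ⊢
    have hm : m % 2 = 1 := by omega
    constructor
    · rw [sum_range_succ, sum_range_succ, i1, if_neg (by omega), if_pos (by omega)]
    · rw [sum_range_succ, sum_range_succ, i2, if_pos (by omega), if_neg (by omega)]

theorem ga05_card {B : Type} [Fintype B] (m : ℕ) (r : B → ℕ) (lam : ℕ → ℕ)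
    (h : ∀ i, (univ.filter fun y => r y = i).card = lam i) (i : ℕ) :
    (univ.filter fun z : Fin (2 * m + 1) ⊕ B =>
      Sum.elim (fun s : Fin (2 * m + 1) => s.1 % 2) (fun y => r y + 2) z = i).card =
      cons2 (m + 1) m lam i := by
  rw [card_filter, Fintype.sum_sum_type]
  have hA : (∑ s : Fin (2 * m + 1), if Sum.elim (fun s : Fin (2 * m + 1) => s.1 % 2)
      (fun y => r y + 2) (Sum.inl s) = i then 1 else 0) =
      ∑ s ∈ range (2 * m + 1), if s % 2 = i then 1 else 0 :=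
    Fin.sum_univ_eq_sum_range (fun s => if s % 2 = i then 1 else 0) (2 * m + 1)
  have hB : (∑ y : B, if Sum.elim (fun s : Fin (2 * m + 1) => s.1 % 2)
      (fun y => r y + 2) (Sum.inr y) = i then 1 else 0) =
      ∑ y : B, if r y + 2 = i then 1 else 0 := rfl
  rw [hA, hB]
  have hc := ga05_count m
  unfold cons2
  rcases Nat.lt_or_ge i 2 with hi | hi
  · have h0 : (∑ y : B, if r y + 2 = i then 1 else 0) = 0 := by
      apply sum_eq_zero
      intro y _
      rw [if_neg (by omega)]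
    rw [h0]
    interval_cases i
    · simpa using hc.1
    · simpa using hc.2
  · have h0 : (∑ s ∈ range (2 * m + 1), if s % 2 = i then 1 else 0) = 0 := by
      apply sum_eq_zero
      intro s _
      rw [if_neg (by omega)]
    rw [h0, if_neg (by omega), if_neg (by omega), zero_add, ← h (i - 2), card_filter]
    apply sum_congr rfl
    intro y _
    by_cases hy : r y = i - 2
    · rw [if_pos hy, if_pos (by omega)]
    · rw [if_neg hy, if_neg (by omega)]

theorem ga05_tab {B : Type} [Fintype B] (m : ℕ) (cA : Fin (2 * m + 1) → ℕ) (r c : B → ℕ)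
    (lam : ℕ → ℕ) (h : IsTab r c lam)
    (h1 : ∀ s t : Fin (2 * m + 1), s.1 % 2 = t.1 % 2 → cA s = cA t → s = t)
    (h2 : ∀ s : Fin (2 * m + 1), s.1 % 2 = 1 → ∃ t : Fin (2 * m + 1), cA t = cA s ∧ t.1 % 2 = 0)
    (h3 : ∀ y : B, ∀ i, i < 2 → ∃ t : Fin (2 * m + 1), cA t = c y ∧ t.1 % 2 = i) :
    IsTab (Sum.elim (fun s : Fin (2 * m + 1) => s.1 % 2) (fun y => r y + 2)) (Sum.elim cA c)
      (cons2 (m + 1) m lam) := by
  refine ⟨?_, ?_, ga05_card m r lam h.card⟩
  · rintro (s | y) (t | z) e1 e2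
    · rw [h1 s t e1 e2]
    · simp only [Sum.elim_inl, Sum.elim_inr] at e1
      omega
    · simp only [Sum.elim_inl, Sum.elim_inr] at e1
      omega
    · simp only [Sum.elim_inr] at e1 e2
      rw [h.inj y z (by omega) e2]
  · rintro (s | y) i hi
    · simp only [Sum.elim_inl] at hi
      obtain ⟨t, ht1, ht2⟩ := h2 s (by omega)
      exact ⟨Sum.inl t, ht1, by simp only [Sum.elim_inl]; omega⟩
    · simp only [Sum.elim_inr] at hi
      rcases Nat.lt_or_ge i 2 with hi2 | hi2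
      · obtain ⟨t, ht1, ht2⟩ := h3 y i hi2
        exact ⟨Sum.inl t, ht1, ht2⟩
      · obtain ⟨z, hz1, hz2⟩ := h.down y (i - 2) (by omega)
        exact ⟨Sum.inr z, hz1, by simp only [Sum.elim_inr]; omega⟩

theorem CV_band (lam kap mu nu : ℕ → ℕ) (D N x : ℕ) (hx : 1 ≤ x) (hD : D ≤ x - 2)
    (hnu : IsPart nu N) (hmu : IsPart mu (N + (2 * x - 1))) (h4 : Skew4 mu nu)
    (h : CV lam kap D nu) : CV (cons2 x (x - 1) lam) (cons2 x (x - 1) kap) x mu := by
  obtain ⟨m, rfl⟩ : ∃ m, x = m + 1 := ⟨x - 1, by omega⟩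
  have hmu' : IsPart mu (N + (2 * m + 1)) := hmu
  obtain ⟨n, r1, c1, r2, c2, r3, c3, t1, t2, t3, hsum, w1, w2, w3, hw⟩ := h
  obtain ⟨r3A, c3A, hmono, hstep, hfour, hinj, hin, hsur⟩ :=
    skew_enum mu nu N (N + (2 * m + 1)) hnu hmu' h4
      (range (N + (2 * m + 1))) (2 * m + 1)
      (ga05_size mu nu N (2 * m + 1) hnu hmu' fun i => (h4 i).1)
  obtain ⟨hAB, hstd⟩ := ga05_std mu nu N _ hnu hmu' (fun i => (h4 i).1) r3A c3A r3 c3
    t3 hinj (fun s => (hin s).2) (fun i j hj h1 h2 => hsur i j (Finset.mem_range.2 hj) h1 h2)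
  obtain ⟨v1, v2, v3, hv⟩ := step (fun s : Fin (2 * m + 1) => s.1 % 2) (fun s => s.1 / 2)
    (fun s : Fin (2 * m + 1) => s.1 % 2) (fun s => m - (s.1 + 1) / 2) r3A c3A
    r1 c1 r2 c2 r3 c3 (m - 1)
    (fun s => Nat.mod_lt _ (by norm_num)) (fun s => Nat.mod_lt _ (by norm_num))
    (fun s => by have := s.2; omega)
    (fun y => by have := hsum y; omega)
    hAB (local1 m r3A c3A hmono hstep hfour) ⟨w1, w2, w3, hw⟩
  have T1 := ga05_tab m (fun s => s.1 / 2) r1 c1 lam t1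
    (fun s t e1 e2 => Fin.ext (by have e3 : s.1 / 2 = t.1 / 2 := e2; omega))
    (fun s hs => ⟨⟨s.1 - 1, by omega⟩,
      by show (s.1 - 1) / 2 = s.1 / 2; omega, by show (s.1 - 1) % 2 = 0; omega⟩)
    (fun y i hi => ⟨⟨2 * c1 y + i, by have := hsum y; omega⟩,
      by show (2 * c1 y + i) / 2 = c1 y; omega, by show (2 * c1 y + i) % 2 = i; omega⟩)
  have T2 := ga05_tab m (fun s => m - (s.1 + 1) / 2) r2 c2 kap t2
    (fun s t e1 e2 => Fin.ext (by
      have e3 : m - (s.1 + 1) / 2 = m - (t.1 + 1) / 2 := e2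
      have := s.2; have := t.2; omega))
    (fun s hs => ⟨⟨s.1 + 1, by have := s.2; omega⟩,
      by show m - (s.1 + 1 + 1) / 2 = m - (s.1 + 1) / 2; omega,
      by show (s.1 + 1) % 2 = 0; omega⟩)
    (fun y i hi => ⟨⟨2 * (m - c2 y) - i, by have := hsum y; omega⟩,
      by
        have := hsum y
        show m - (2 * (m - c2 y) - i + 1) / 2 = c2 y
        omega,
      by
        have := hsum y
        show (2 * (m - c2 y) - i) % 2 = i
        omega⟩)
  let f : Fin (2 * m + 1 + n) ≃ Fin (2 * m + 1) ⊕ Fin n := finSumFinEquiv.symm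
  have T3 := hstd.toIsTab.comp f
  refine ⟨2 * m + 1 + n, _, _, _, _, _, _, T1.comp f, T2.comp f, ⟨T3, fun x => hstd.lt (f x)⟩,
    ?_, v1 ∘ f, v2 ∘ f, v3 ∘ f, ?_⟩
  · intro z
    simp only [Function.comp]
    rcases f z with s | y
    · have := s.2
      simp only [Sum.elim_inl]
      omega
    · have := hsum y
      simp only [Sum.elim_inr]
      omega
  · rw [ga05_tri_equiv]
    exact hv

end Pool.Saxl
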