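import Mathlib
import Pool.Agent.Helper139_Saxl.Defs
import Pool.Agent.Helper139_Saxl.Conf
import Pool.Agent.Helper139_Saxl.Ga
import Pool.Agent.Helper139_Saxl.J01
import Pool.Agent.Helper139_Saxl.J02
import Pool.Agent.Helper139_Saxl.J03
import Pool.Agent.Helper139_Saxl.J04
import Pool.Agent.Helper139_Saxl.J13
import Pool.Agent.Helper139_Saxl.J17
import Pool.Agent.Helper139_Saxl.G03

set_option autoImplicit false

/-! Job GA-06: adding a special band to a pair of configurations. -/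

namespace Pool.Saxl

open Finset

theorem ga06_cj_le (mu nu : ℕ → ℕ) (n n' : ℕ) (hnu : IsPart nu n) (hmu : IsPart mu n')
    (h : ∀ i, nu i ≤ mu i) (j : ℕ) : cj nu j ≤ cj mu j := by
  by_contra hlt
  rw [not_le] at hlt
  have h1 := (lt_cj_iff nu n hnu (cj mu j) j).1 hlt
  have h2 := (lt_cj_iff mu n' hmu (cj mu j) j).2 (lt_of_lt_of_le h1 (h _))
  exact lt_irrefl _ h2

theorem ga06_sum (nu : ℕ → ℕ) (n N : ℕ) (h : IsPart nu n) (hN : n ≤ N) :
    ∑ j ∈ range N, nu j = n := by
  rw [← Finset.sum_subset (Finset.range_subset_range.2 hN) ?_, h.sum]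
  intro i _ hi
  apply h.zero
  simpa using hi

theorem ga06_part_eq (nu : ℕ → ℕ) (n N : ℕ) (h : IsPart nu n) (h' : IsPart nu N) : n = N := by
  have h1 := ga06_sum nu n (max n N) h (le_max_left _ _)
  have h2 := ga06_sum nu N (max n N) h' (le_max_right _ _)
  omega

theorem ga06_sum_cj (nu : ℕ → ℕ) (n N : ℕ) (hnu : IsPart nu n) (hN : n ≤ N) :
    ∑ j ∈ range N, cj nu j = n :=
  ga06_sum (cj nu) n N (isPart_cj nu n hnu) hN

theorem ga06_size (mu nu : ℕ → ℕ) (n z : ℕ) (hnu : IsPart nu n) (hmu : IsPart mu (z + n))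
    (h : ∀ i, nu i ≤ mu i) : z = ∑ j ∈ range (z + n), (cj mu j - cj nu j) := by
  rw [Finset.sum_tsub_distrib _ fun j _ => ga06_cj_le mu nu n _ hnu hmu h j,
    ga06_sum_cj mu _ _ hmu le_rfl, ga06_sum_cj nu _ _ hnu (by omega)]
  omega

theorem ga06_le (mu : ℕ → ℕ) (N : ℕ) (hmu : IsPart mu N) (i : ℕ) : mu i ≤ N := by
  by_cases hi : i < N
  · calc mu i ≤ ∑ i ∈ range N, mu i :=
        Finset.single_le_sum (f := mu) (fun _ _ => Nat.zero_le _) (Finset.mem_range.2 hi)
      _ = N := hmu.sum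
  · rw [hmu.zero i (not_lt.1 hi)]
    exact Nat.zero_le _

theorem ga06_std {A B : Type} [Fintype A] [DecidableEq A] [Fintype B] [DecidableEq B]
    (mu nu : ℕ → ℕ) (n N : ℕ) (hnu : IsPart nu n) (hmu : IsPart mu N) (hle : ∀ i, nu i ≤ mu i)
    (rA cA : A → ℕ) (rB cB : B → ℕ) (hB : IsStd rB cB nu)
    (hinj : ∀ s t : A, rA s = rA t → cA s = cA t → s = t)
    (hin : ∀ s, nu (rA s) ≤ cA s ∧ cA s < mu (rA s))
    (hsur : ∀ i j, j < N → nu i ≤ j → j < mu i → ∃ s, rA s = i ∧ cA s = j) :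
    (∀ x y, cA x = cB y → rB y < rA x) ∧ IsStd (Sum.elim rA rB) (Sum.elim cA cB) mu := by
  have hAB : ∀ x y, cA x = cB y → rB y < rA x := by
    intro x y hxy
    by_contra hlt
    rw [not_lt] at hlt
    have h1 := hnu.anti hlt
    have h2 := (hin x).1
    have h3 := hB.lt y
    omega
  have hsur' : ∀ i j, j < mu i → ∃ x : A ⊕ B, Sum.elim rA rB x = i ∧ Sum.elim cA cB x = j := by
    intro i j hij
    by_cases hj : j < nu i
    · obtain ⟨y, hy1, hy2⟩ := std_surj rB cB nu hB i j hj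
      exact ⟨Sum.inr y, hy1, hy2⟩
    · obtain ⟨s, hs1, hs2⟩ := hsur i j (lt_of_lt_of_le hij (ga06_le mu N hmu i)) (not_lt.1 hj) hij
      exact ⟨Sum.inl s, hs1, hs2⟩
  have hlt : ∀ x : A ⊕ B, Sum.elim cA cB x < mu (Sum.elim rA rB x) := by
    rintro (s | y)
    · exact (hin s).2
    · exact lt_of_lt_of_le (hB.lt y) (hle _)
  have hinj' : ∀ x y : A ⊕ B, Sum.elim rA rB x = Sum.elim rA rB y →
      Sum.elim cA cB x = Sum.elim cA cB y → x = y := by
    rintro (s | y) (t | z) h1 h2
    · rw [hinj s t h1 h2]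
    · have h3 := hAB s z h2
      simp only [Sum.elim_inl, Sum.elim_inr] at h1
      omega
    · have h3 := hAB t y h2.symm
      simp only [Sum.elim_inl, Sum.elim_inr] at h1
      omega
    · rw [hB.inj y z h1 h2]
  refine ⟨hAB, ⟨⟨hinj', ?_, ?_⟩, hlt⟩⟩
  · intro x i hi
    have h1 : Sum.elim cA cB x < mu i := lt_of_lt_of_le (hlt x) (hmu.anti hi.le)
    obtain ⟨y, hy1, hy2⟩ := hsur' i _ h1
    exact ⟨y, hy2, hy1⟩
  · intro i
    rw [← Finset.card_range (mu i)]
    refine Finset.card_bij (fun x _ => Sum.elim cA cB x) ?_ ?_ ?_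
    · intro x hx
      rw [Finset.mem_filter] at hx
      rw [Finset.mem_range, ← hx.2]
      exact hlt x
    · intro x hx y hy hxy
      rw [Finset.mem_filter] at hx hy
      exact hinj' x y (hx.2.trans hy.2.symm) hxy
    · intro j hj
      rw [Finset.mem_range] at hj
      obtain ⟨x, hx1, hx2⟩ := hsur' i j hj
      exact ⟨x, Finset.mem_filter.2 ⟨Finset.mem_univ _, hx1⟩, hx2⟩

/-- relabelling the ground set in the symmetrised product -/
theorem ga06_tri_equiv {Ω Ω' : Type} [Fintype Ω] [DecidableEq Ω] [Fintype Ω'] [DecidableEq Ω']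
    (f : Ω ≃ Ω') (r1 c1 r2 c2 r3 c3 w1 w2 w3 : Ω' → ℕ) :
    tri (r1 ∘ f) (c1 ∘ f) (r2 ∘ f) (c2 ∘ f) (r3 ∘ f) (c3 ∘ f) (w1 ∘ f) (w2 ∘ f) (w3 ∘ f) =
      tri r1 c1 r2 c2 r3 c3 w1 w2 w3 := by
  unfold tri
  have key : ∀ (g : Equiv.Perm Ω) (w : Ω' → ℕ), (w ∘ f) ∘ g = (w ∘ (f.permCongr g)) ∘ f := by
    intro g w
    funext a
    simp [Equiv.permCongr_apply]
  rw [← Equiv.sum_comp f.permCongr]
  refine Finset.sum_congr rfl fun g _ => ?_
  rw [key g w1, key g w2, key g w3, pt_equiv, pt_equiv, pt_equiv]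

/-- adding two rows to a tableau -/
theorem ga06_tab {A B : Type} [Fintype A] [DecidableEq A] [Fintype B] [DecidableEq B]
    (lam : ℕ → ℕ) (u v K : ℕ) (rA cA : A → ℕ) (rB cB : B → ℕ) (hB : IsTab rB cB lam)
    (h2 : ∀ s, rA s < 2) (hinj : ∀ s t : A, rA s = rA t → cA s = cA t → s = t)
    (hdown : ∀ s, rA s = 1 → ∃ t, cA t = cA s ∧ rA t = 0)
    (hK : ∀ y, cB y < K) (hcol : ∀ j, j < K → (∃ t, cA t = j ∧ rA t = 0) ∧ ∃ t, cA t = j ∧ rA t = 1)
    (hu : (univ.filter fun s => rA s = 0).card = u) (hv : (univ.filter fun s => rA s = 1).card = v) :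
    IsTab (Sum.elim rA (fun y => rB y + 2)) (Sum.elim cA cB) (cons2 u v lam) := by
  refine ⟨?_, ?_, ?_⟩
  · rintro (s | y) (t | z) e1 e2
    · rw [hinj s t e1 e2]
    · simp only [Sum.elim_inl, Sum.elim_inr] at e1
      have := h2 s
      omega
    · simp only [Sum.elim_inl, Sum.elim_inr] at e1
      have := h2 t
      omega
    · simp only [Sum.elim_inr] at e1 e2
      rw [hB.inj y z (by omega) e2]
  · rintro (s | y) i hi
    · simp only [Sum.elim_inl] at hi
      have := h2 s
      have hs : rA s = 1 := by omega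
      have hi0 : i = 0 := by omega
      subst hi0
      obtain ⟨t, ht1, ht2⟩ := hdown s hs
      exact ⟨Sum.inl t, ht1, ht2⟩
    · simp only [Sum.elim_inr] at hi
      by_cases h0 : i = 0
      · subst h0
        obtain ⟨t, ht1, ht2⟩ := (hcol _ (hK y)).1
        exact ⟨Sum.inl t, ht1, ht2⟩
      · by_cases h1 : i = 1
        · subst h1
          obtain ⟨t, ht1, ht2⟩ := (hcol _ (hK y)).2
          exact ⟨Sum.inl t, ht1, ht2⟩
        · obtain ⟨z, hz1, hz2⟩ := hB.down y (i - 2) (by omega)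
          refine ⟨Sum.inr z, hz1, ?_⟩
          simp only [Sum.elim_inr]
          omega
  · intro i
    have key : (univ.filter fun x : A ⊕ B => Sum.elim rA (fun y => rB y + 2) x = i).card =
        (univ.filter fun s => rA s = i).card + (univ.filter fun y => rB y + 2 = i).card := by
      rw [Finset.card_filter, Finset.card_filter, Finset.card_filter, Fintype.sum_sum_type]
      rfl
    rw [key]
    unfold cons2
    by_cases h0 : i = 0
    · subst h0
      simp only [if_true]
      rw [hu]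
      simp
    · by_cases h1 : i = 1
      · subst h1
        simp only [if_true, one_ne_zero, if_false]
        rw [hv]
        simp
      · simp only [h0, h1, if_false]
        have e1 : (univ.filter fun s => rA s = i) = ∅ := by
          rw [Finset.filter_eq_empty_iff]
          intro s _
          have := h2 s
          omega
        have e2 : (univ.filter fun y => rB y + 2 = i) = univ.filter fun y => rB y = i - 2 := by
          apply Finset.filter_congr
          intro y _
          omega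
        rw [e1, e2, hB.card]
        simp

theorem ga06_count (p k : ℕ) (q : Fin (2 * p) → Prop) [DecidablePred q] (f : Fin (2 * p) → ℕ)
    (hf : ∀ s, q s → f s < k) (hinj : ∀ s t, q s → q t → f s = f t → s = t)
    (hg : ∀ i, i < k → ∃ s, q s ∧ f s = i) : (univ.filter q).card = k := by
  rw [← Finset.card_range k]
  refine Finset.card_bij (fun s _ => f s) ?_ ?_ ?_
  · intro s hs
    rw [Finset.mem_filter] at hs
    exact Finset.mem_range.2 (hf s hs.2)
  · intro s hs t ht hst
    rw [Finset.mem_filter] at hs ht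
    exact hinj s t hs.2 ht.2 hst
  · intro i hi
    obtain ⟨s, hs1, hs2⟩ := hg i (Finset.mem_range.1 hi)
    exact ⟨s, Finset.mem_filter.2 ⟨Finset.mem_univ _, hs1⟩, hs2⟩

/-- column names of the middle columns of the first tableau -/
def ga06_gam (p i : ℕ) : ℕ := if 2 * i ≤ p then p - 2 * i else 2 * i - (p + 1)

/-- column names of the second tableau -/
def ga06_tau (p i : ℕ) : ℕ := if 2 * i + 1 ≤ p then 2 * i else 2 * p - 1 - 2 * i

def ga06_r1o (p : ℕ) (s : Fin (2 * p)) : ℕ := if s.1 = 2 * p - 1 then 0 else s.1 % 2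

def ga06_c1o (p : ℕ) (s : Fin (2 * p)) : ℕ :=
  if s.1 = 0 then p else if s.1 = 2 * p - 1 then p - 1 else ga06_gam p ((s.1 + 1) / 2)

def ga06_r (p : ℕ) (s : Fin (2 * p)) : ℕ := s.1 % 2

def ga06_c1c (p : ℕ) (s : Fin (2 * p)) : ℕ :=
  if s.1 = 0 then p - 1 else if s.1 = 2 * p - 1 then p - 1 else ga06_gam p ((s.1 + 1) / 2)

def ga06_c2 (p : ℕ) (s : Fin (2 * p)) : ℕ := ga06_tau p (s.1 / 2)

theorem ga06_gam_inv (p j : ℕ) (hj : j + 2 ≤ p) : ∃ i, 1 ≤ i ∧ i + 1 ≤ p ∧ ga06_gam p i = j := by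
  by_cases h : (p - j) % 2 = 0
  · refine ⟨(p - j) / 2, by omega, by omega, ?_⟩
    unfold ga06_gam
    rw [if_pos (by omega)]
    omega
  · refine ⟨(p + j + 1) / 2, by omega, by omega, ?_⟩
    unfold ga06_gam
    rw [if_neg (by omega)]
    omega

theorem ga06_tau_inv (p j : ℕ) (hj : j + 1 ≤ p) : ∃ i, i + 1 ≤ p ∧ ga06_tau p i = j := by
  by_cases h : j % 2 = 0
  · refine ⟨j / 2, by omega, ?_⟩
    unfold ga06_tau
    rw [if_pos (by omega)]
    omega
  · refine ⟨(2 * p - 1 - j) / 2, by omega, ?_⟩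
    unfold ga06_tau
    rw [if_neg (by omega)]
    omega

/-- the first tableau, open case -/
theorem ga06_tab_open {B : Type} [Fintype B] [DecidableEq B] (p : ℕ) (hp : 1 ≤ p)
    (lam : ℕ → ℕ) (rB cB : B → ℕ) (hB : IsTab rB cB lam) (hK : ∀ y, cB y < p - 2) :
    IsTab (Sum.elim (ga06_r1o p) (fun y => rB y + 2)) (Sum.elim (ga06_c1o p) cB)
      (cons2 (p + 1) (p + 1 - 2) lam) := by
  refine ga06_tab lam (p + 1) (p + 1 - 2) (p - 2) _ _ rB cB hB ?_ ?_ ?_ hK ?_ ?_ ?_
  · intro s
    unfold ga06_r1o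
    split_ifs <;> first | contradiction | omega
  · intro s t h1 h2
    unfold ga06_r1o at h1
    unfold ga06_c1o ga06_gam at h2
    have := s.2
    have := t.2
    ext
    split_ifs at h1 h2 <;> omega
  · intro s hs
    have hs2 := s.2
    unfold ga06_r1o at hs
    have hne : s.1 ≠ 2 * p - 1 := by
      intro h
      rw [if_pos h] at hs
      omega
    rw [if_neg hne] at hs
    refine ⟨⟨s.1 + 1, by omega⟩, ?_, ?_⟩
    · unfold ga06_c1o ga06_gam
      simp only
      split_ifs <;> first | contradiction | omega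
    · unfold ga06_r1o
      simp only
      split_ifs <;> first | contradiction | omega
  · intro j hj
    obtain ⟨i, hi1, hi2, hi3⟩ := ga06_gam_inv p j (by omega)
    unfold ga06_gam at hi3
    refine ⟨⟨⟨2 * i, by omega⟩, ?_, ?_⟩, ⟨⟨2 * i - 1, by omega⟩, ?_, ?_⟩⟩
    · unfold ga06_c1o ga06_gam
      simp only
      split_ifs at hi3 ⊢ <;> omega
    · unfold ga06_r1o
      simp only
      split_ifs <;> first | contradiction | omega
    · unfold ga06_c1o ga06_gam
      simp only
      split_ifs at hi3 ⊢ <;> omega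
    · unfold ga06_r1o
      simp only
      split_ifs <;> first | contradiction | omega
  · refine ga06_count p (p + 1) _ (fun s => if s.1 = 2 * p - 1 then p else s.1 / 2) ?_ ?_ ?_
    · intro s hs
      have := s.2
      split_ifs <;> first | contradiction | omega
    · intro s t hs ht hst
      have := s.2
      have := t.2
      unfold ga06_r1o at hs ht
      ext
      split_ifs at hs ht hst <;> omega
    · intro i hi
      by_cases h : i = p
      · refine ⟨⟨2 * p - 1, by omega⟩, ?_, ?_⟩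
        · unfold ga06_r1o
          simp
        · simp [h]
      · refine ⟨⟨2 * i, by omega⟩, ?_, ?_⟩
        · unfold ga06_r1o
          simp only
          split_ifs <;> first | contradiction | omega
        · simp only
          split_ifs <;> first | contradiction | omega
  · refine ga06_count p (p + 1 - 2) _ (fun s => s.1 / 2) ?_ ?_ ?_
    · intro s hs
      have := s.2
      unfold ga06_r1o at hs
      split_ifs at hs <;> omega
    · intro s t hs ht hst
      have := s.2
      have := t.2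
      unfold ga06_r1o at hs ht
      ext
      split_ifs at hs ht <;> omega
    · intro i hi
      refine ⟨⟨2 * i + 1, by omega⟩, ?_, ?_⟩
      · unfold ga06_r1o
        simp only
        split_ifs <;> first | contradiction | omega
      · simp only
        omega

theorem ga06_count0 (p : ℕ) : (univ.filter fun s : Fin (2 * p) => ga06_r p s = 0).card = p := by
  refine ga06_count p p _ (fun s => s.1 / 2) ?_ ?_ ?_
  · intro s hs
    have := s.2
    omega
  · intro s t hs ht hst
    have := s.2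
    have := t.2
    unfold ga06_r at hs ht
    ext
    omega
  · intro i hi
    refine ⟨⟨2 * i, by omega⟩, ?_, ?_⟩
    · unfold ga06_r
      simp only
      omega
    · simp only
      omega

theorem ga06_count1 (p : ℕ) : (univ.filter fun s : Fin (2 * p) => ga06_r p s = 1).card = p := by
  refine ga06_count p p _ (fun s => s.1 / 2) ?_ ?_ ?_
  · intro s hs
    have := s.2
    omega
  · intro s t hs ht hst
    have := s.2
    have := t.2
    unfold ga06_r at hs ht
    ext
    omega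
  · intro i hi
    refine ⟨⟨2 * i + 1, by omega⟩, ?_, ?_⟩
    · unfold ga06_r
      simp only
      omega
    · simp only
      omega

/-- the first tableau, closed case -/
theorem ga06_tab_closed {B : Type} [Fintype B] [DecidableEq B] (p : ℕ) (hp : 1 ≤ p)
    (lam : ℕ → ℕ) (rB cB : B → ℕ) (hB : IsTab rB cB lam) (hK : ∀ y, cB y < p - 2) :
    IsTab (Sum.elim (ga06_r p) (fun y => rB y + 2)) (Sum.elim (ga06_c1c p) cB)
      (cons2 p p lam) := by
  refine ga06_tab lam p p (p - 2) _ _ rB cB hB ?_ ?_ ?_ hK ?_ (ga06_count0 p) (ga06_count1 p)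
  · intro s
    unfold ga06_r
    omega
  · intro s t h1 h2
    unfold ga06_r at h1
    unfold ga06_c1c ga06_gam at h2
    have := s.2
    have := t.2
    ext
    split_ifs at h2 <;> omega
  · intro s hs
    have hs2 := s.2
    unfold ga06_r at hs
    by_cases hne : s.1 = 2 * p - 1
    · refine ⟨⟨0, by omega⟩, ?_, ?_⟩
      · unfold ga06_c1c
        simp only [if_true]
        split_ifs <;> first | contradiction | omega
      · unfold ga06_r
        simp
    · refine ⟨⟨s.1 + 1, by omega⟩, ?_, ?_⟩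
      · unfold ga06_c1c ga06_gam
        simp only
        split_ifs <;> first | contradiction | omega
      · unfold ga06_r
        simp only
        omega
  · intro j hj
    obtain ⟨i, hi1, hi2, hi3⟩ := ga06_gam_inv p j (by omega)
    unfold ga06_gam at hi3
    refine ⟨⟨⟨2 * i, by omega⟩, ?_, ?_⟩, ⟨⟨2 * i - 1, by omega⟩, ?_, ?_⟩⟩
    · unfold ga06_c1c ga06_gam
      simp only
      split_ifs at hi3 ⊢ <;> omega
    · unfold ga06_r
      simp only
      omega
    · unfold ga06_c1c ga06_gam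
      simp only
      split_ifs at hi3 ⊢ <;> omega
    · unfold ga06_r
      simp only
      omega

/-- the second tableau -/
theorem ga06_tab_two {B : Type} [Fintype B] [DecidableEq B] (p : ℕ)
    (lam : ℕ → ℕ) (rB cB : B → ℕ) (hB : IsTab rB cB lam) (hK : ∀ y, cB y < p - 2) :
    IsTab (Sum.elim (ga06_r p) (fun y => rB y + 2)) (Sum.elim (ga06_c2 p) cB)
      (cons2 p p lam) := by
  refine ga06_tab lam p p (p - 2) _ _ rB cB hB ?_ ?_ ?_ hK ?_ (ga06_count0 p) (ga06_count1 p)
  · intro s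
    unfold ga06_r
    omega
  · intro s t h1 h2
    unfold ga06_r at h1
    unfold ga06_c2 ga06_tau at h2
    have := s.2
    have := t.2
    ext
    split_ifs at h2 <;> omega
  · intro s hs
    have hs2 := s.2
    unfold ga06_r at hs
    refine ⟨⟨s.1 - 1, by omega⟩, ?_, ?_⟩
    · unfold ga06_c2 ga06_tau
      simp only
      split_ifs <;> first | contradiction | omega
    · unfold ga06_r
      simp only
      omega
  · intro j hj
    obtain ⟨i, hi2, hi3⟩ := ga06_tau_inv p j (by omega)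
    unfold ga06_tau at hi3
    refine ⟨⟨⟨2 * i, by omega⟩, ?_, ?_⟩, ⟨⟨2 * i + 1, by omega⟩, ?_, ?_⟩⟩
    · unfold ga06_c2 ga06_tau
      simp only
      split_ifs at hi3 ⊢ <;> omega
    · unfold ga06_r
      simp only
      omega
    · unfold ga06_c2 ga06_tau
      simp only
      split_ifs at hi3 ⊢ <;> omega
    · unfold ga06_r
      simp only
      omega

theorem ga06_sum_open (p : ℕ) (s : Fin (2 * p)) :
    p - 2 ≤ ga06_c1o p s + ga06_c2 p s ∧ ga06_c1o p s + ga06_c2 p s < p + 1 := by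
  have := s.2
  unfold ga06_c1o ga06_c2 ga06_gam ga06_tau
  split_ifs <;> first | contradiction | omega

theorem ga06_sum_closed (p : ℕ) (s : Fin (2 * p)) :
    p - 2 ≤ ga06_c1c p s + ga06_c2 p s ∧ ga06_c1c p s + ga06_c2 p s < p + 1 := by
  have := s.2
  unfold ga06_c1c ga06_c2 ga06_gam ga06_tau
  split_ifs <;> first | contradiction | omega

theorem ga06_tri_col {Ω : Type} [Fintype Ω] [DecidableEq Ω]
    (r1 c1 c1' r2 c2 c2' r3 c3 w1 w2 w3 : Ω → ℕ)
    (h1 : ∀ x y, c1 x = c1 y ↔ c1' x = c1' y) (h2 : ∀ x y, c2 x = c2 y ↔ c2' x = c2' y) :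
    tri r1 c1 r2 c2 r3 c3 w1 w2 w3 = tri r1 c1' r2 c2' r3 c3 w1 w2 w3 := by
  unfold tri
  refine Finset.sum_congr rfl fun g _ => ?_
  rw [pt_col r1 c1 c1' _ h1, pt_col r2 c2 c2' _ h2]

theorem ga06_eq_two (p : ℕ) (s t : Fin (2 * p)) :
    s.1 / 2 = t.1 / 2 ↔ ga06_c2 p s = ga06_c2 p t := by
  have := s.2
  have := t.2
  unfold ga06_c2 ga06_tau
  constructor <;> intro h
  · split_ifs <;> first | contradiction | omega
  · split_ifs at h <;> omega

theorem ga06_eq_open (p : ℕ) (s t : Fin (2 * p)) :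
    (s.1 + 1) / 2 = (t.1 + 1) / 2 ↔ ga06_c1o p s = ga06_c1o p t := by
  have := s.2
  have := t.2
  unfold ga06_c1o ga06_gam
  constructor <;> intro h
  · split_ifs <;> first | contradiction | omega
  · split_ifs at h <;> omega

theorem ga06_mod (p : ℕ) (s : Fin (2 * p)) :
    ((s.1 + 1) / 2) % p = if s.1 = 2 * p - 1 then 0 else (s.1 + 1) / 2 := by
  have hs := s.2
  split_ifs with h
  · have : (s.1 + 1) / 2 = p := by omega
    rw [this, Nat.mod_self]
  · exact Nat.mod_eq_of_lt (by omega)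

theorem ga06_eq_closed (p : ℕ) (s t : Fin (2 * p)) :
    ((s.1 + 1) / 2) % p = ((t.1 + 1) / 2) % p ↔ ga06_c1c p s = ga06_c1c p t := by
  have := s.2
  have := t.2
  rw [ga06_mod, ga06_mod]
  unfold ga06_c1c ga06_gam
  constructor <;> intro h
  · split_ifs at h ⊢ <;> omega
  · split_ifs at h ⊢ <;> omega

/-- transport to an initial segment -/
theorem ga06_CV {Ω : Type} [Fintype Ω] [DecidableEq Ω] (lam kap nu : ℕ → ℕ) (D : ℕ)
    (r1 c1 r2 c2 r3 c3 : Ω → ℕ) (h1 : IsTab r1 c1 lam) (h2 : IsTab r2 c2 kap)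
    (h3 : IsStd r3 c3 nu) (hD : ∀ y, c1 y + c2 y < D)
    (h : ∃ w1 w2 w3 : Ω → ℕ, tri r1 c1 r2 c2 r3 c3 w1 w2 w3 ≠ 0) : CV lam kap D nu := by
  obtain ⟨w1, w2, w3, hw⟩ := h
  let f := (Fintype.equivFin Ω).symm
  refine ⟨Fintype.card Ω, r1 ∘ f, c1 ∘ f, r2 ∘ f, c2 ∘ f, r3 ∘ f, c3 ∘ f, h1.comp f, h2.comp f,
    ⟨h3.toIsTab.comp f, fun x => h3.lt (f x)⟩, fun y => hD (f y), w1 ∘ f, w2 ∘ f, w3 ∘ f, ?_⟩
  rw [ga06_tri_equiv]
  exact hw


theorem CV_special (lam kap mu nu : ℕ → ℕ) (D N x : ℕ) (hx : 2 ≤ x) (hD : D ≤ x - 3)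
    (hnu : IsPart nu N) (hmu : IsPart mu (N + (2 * x - 2))) (h4 : Skew4 mu nu)
    (h : CV lam kap D nu) : CV (cons2 x (x - 2) lam) (cons2 (x - 1) (x - 1) kap) x mu ∨
      CV (cons2 (x - 1) (x - 1) lam) (cons2 (x - 1) (x - 1) kap) x mu := by
  obtain ⟨p, rfl⟩ : ∃ p, x = p + 1 := ⟨x - 1, by omega⟩
  have hp : 1 ≤ p := by omega
  obtain ⟨n, r1B, c1B, r2B, c2B, r3B, c3B, hB1, hB2, hB3, hBD, hBl⟩ := h
  have hnu' := hB3.toIsTab.isPart
  rw [Fintype.card_fin] at hnu'
  have hnN := ga06_part_eq nu n N hnu' hnu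
  subst hnN
  have hmu' : IsPart mu (2 * p + n) := by
    have e : n + (2 * (p + 1) - 2) = 2 * p + n := by omega
    rw [e] at hmu
    exact hmu
  obtain ⟨r3A, c3A, hmono, hstep, hfour, hinj, hin, hsur⟩ :=
    skew_enum mu nu n (2 * p + n) hnu' hmu' h4 (range (2 * p + n)) (2 * p)
      (ga06_size mu nu n (2 * p) hnu' hmu' fun i => (h4 i).1)
  obtain ⟨hAB, hstd⟩ := ga06_std mu nu n _ hnu' hmu' (fun i => (h4 i).1) r3A c3A r3B c3B
    hB3 hinj (fun s => (hin s).2) (fun i j hj h1 h2 => hsur i j (Finset.mem_range.2 hj) h1 h2)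
  have hD' : ∀ y, c1B y + c2B y < p - 2 := fun y => by
    have := hBD y
    omega
  have hK1 : ∀ y, c1B y < p - 2 := fun y => by
    have := hD' y
    omega
  have hK2 : ∀ y, c2B y < p - 2 := fun y => by
    have := hD' y
    omega
  have hx1 : p + 1 - 1 = p := by omega
  rw [hx1]
  rcases even_local p hp r3A c3A hmono hstep hfour with ⟨a1, a2, a3, ha⟩ | ⟨a1, a2, a3, ha⟩
  · left
    have ha' : tri (ga06_r1o p) (ga06_c1o p) (ga06_r p) (ga06_c2 p) r3A c3A a1 a2 a3 ≠ 0 := by
      rw [ga06_tri_col _ _ (ga06_c1o p) _ _ (ga06_c2 p) _ _ _ _ _ (ga06_eq_open p)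
        (ga06_eq_two p)] at ha
      exact ha
    have hst := step (ga06_r1o p) (ga06_c1o p) (ga06_r p) (ga06_c2 p) r3A c3A
      r1B c1B r2B c2B r3B c3B (p - 2)
      (fun s => by unfold ga06_r1o; split_ifs <;> first | contradiction | omega)
      (fun s => by unfold ga06_r; omega)
      (fun s => (ga06_sum_open p s).1) hD' hAB ⟨a1, a2, a3, ha'⟩ hBl
    refine ga06_CV _ _ _ _ _ _ _ _ _ _ (ga06_tab_open p hp lam r1B c1B hB1 hK1)
      (ga06_tab_two p kap r2B c2B hB2 hK2) hstd ?_ hst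
    rintro (s | y)
    · exact (ga06_sum_open p s).2
    · have := hD' y
      simp only [Sum.elim_inr]
      omega
  · right
    have ha' : tri (ga06_r p) (ga06_c1c p) (ga06_r p) (ga06_c2 p) r3A c3A a1 a2 a3 ≠ 0 := by
      rw [ga06_tri_col _ _ (ga06_c1c p) _ _ (ga06_c2 p) _ _ _ _ _ (ga06_eq_closed p)
        (ga06_eq_two p)] at ha
      exact ha
    have hst := step (ga06_r p) (ga06_c1c p) (ga06_r p) (ga06_c2 p) r3A c3A
      r1B c1B r2B c2B r3B c3B (p - 2)
      (fun s => by unfold ga06_r; omega)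
      (fun s => by unfold ga06_r; omega)
      (fun s => (ga06_sum_closed p s).1) hD' hAB ⟨a1, a2, a3, ha'⟩ hBl
    refine ga06_CV _ _ _ _ _ _ _ _ _ _ (ga06_tab_closed p hp lam r1B c1B hB1 hK1)
      (ga06_tab_two p kap r2B c2B hB2 hK2) hstd ?_ hst
    rintro (s | y)
    · exact (ga06_sum_closed p s).2
    · have := hD' y
      simp only [Sum.elim_inr]
      omega

end Pool.Saxl
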