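import Mathlib
import Pool.Agent.Helper139_Saxl.Defs
import Pool.Agent.Helper139_Saxl.Ga
import Pool.Agent.Helper139_Saxl.J04

set_option autoImplicit false

/-! Job GA-07: the shapes between the orbit and its transpose. -/

namespace Pool.Saxl

open Finset

theorem ga07_area_succ (mu : ℕ → ℕ) (k : ℕ) : area mu (k + 1) = area mu k + mu k := by
  unfold area
  rw [sum_range_succ]

theorem ga07_area_succ' (mu : ℕ → ℕ) (k : ℕ) :
    area mu (k + 1) = mu 0 + area (fun i => mu (i + 1)) k := by
  unfold area
  rw [sum_range_succ']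
  ring

theorem ga07_area_zero (mu : ℕ → ℕ) : area mu 0 = 0 := by
  simp [area]

theorem ga07_area_mono (mu : ℕ → ℕ) {a b : ℕ} (h : a ≤ b) : area mu a ≤ area mu b := by
  induction h with
  | refl => exact le_rfl
  | step _ ih =>
    rw [Nat.succ_eq_add_one, ga07_area_succ]
    omega

theorem ga07_area_const (mu : ℕ → ℕ) (n k : ℕ) (h : ∀ i, n ≤ i → mu i = 0) (hk : n ≤ k) :
    area mu k = area mu n := by
  induction hk with
  | refl => rfl
  | step hm ih => rw [Nat.succ_eq_add_one, ga07_area_succ, ih, h _ hm, add_zero]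

theorem ga07_area_part (mu : ℕ → ℕ) (n : ℕ) (h : IsPart mu n) (k : ℕ) (hk : n ≤ k) :
    area mu k = n := by
  rw [ga07_area_const mu n k h.zero hk]
  exact h.sum

theorem ga07_area_ge (mu : ℕ → ℕ) (h : Antitone mu) (i : ℕ) (hi : 1 ≤ mu i) :
    ∀ k, k ≤ i + 1 → k ≤ area mu k := by
  intro k
  induction k with
  | zero => intro _; exact Nat.zero_le _
  | succ k ih =>
    intro hk
    rw [ga07_area_succ]
    have h1 := ih (by omega)
    have h2 : mu i ≤ mu k := h (by omega)
    omega

theorem ga07_part (mu : ℕ → ℕ) (N K : ℕ) (h : Antitone mu) (h2 : ∀ k, K ≤ k → area mu k = N) :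
    IsPart mu N := by
  have hz : ∀ i, N ≤ i → mu i = 0 := by
    intro i hi
    by_contra hne
    have h3 := ga07_area_ge mu h i (by omega) (i + 1) le_rfl
    have h4 := ga07_area_mono mu (le_max_right K (i + 1))
    have h5 := h2 (max K (i + 1)) (le_max_left _ _)
    omega
  refine ⟨h, hz, ?_⟩
  have h3 := ga07_area_const mu N (max K N) hz (le_max_right _ _)
  have h4 := h2 (max K N) (le_max_left _ _)
  change area mu N = N
  omega

theorem ga07_rho_succ (m t : ℕ) : area (rho m) (t + 1) = m + area (rho (m - 1)) t := by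
  rw [ga07_area_succ']
  have h : (fun i => rho m (i + 1)) = rho (m - 1) := by
    funext i
    unfold rho
    omega
  rw [h]
  unfold rho
  simp

theorem ga07_rho_large (m k : ℕ) (hk : m * (m + 1) / 2 ≤ k) :
    area (rho m) k = m * (m + 1) / 2 := ga07_area_part _ _ (isPart_rho m) k hk

theorem ga07_area_OO (m s i : ℕ) : area (OO m s) i = area (rho m) i + min i s := by
  induction i with
  | zero => simp [ga07_area_zero]
  | succ i ih =>
    rw [ga07_area_succ, ga07_area_succ, ih]
    unfold OO rho
    split_ifs <;> omega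

theorem ga07_le_tri (m : ℕ) : m ≤ m * (m + 1) / 2 := by
  rcases m with _ | m
  · simp
  · rw [Nat.le_div_iff_mul_le (by norm_num)]
    nlinarith

theorem ga07_tri (m : ℕ) : (m + 1) * (m + 1 + 1) / 2 = (m + 1) + m * (m + 1) / 2 := by
  have h : (m + 1) * (m + 1 + 1) = m * (m + 1) + (m + 1) * 2 := by ring
  rw [h, Nat.add_mul_div_right _ _ (by norm_num)]
  ring

theorem isPart_OO (m s : ℕ) (hs : s ≤ m) : IsPart (OO m s) (m * (m + 1) / 2 + s) := by
  apply ga07_part _ _ (m * (m + 1) / 2)
  · apply antitone_nat_of_succ_le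
    intro i
    unfold OO
    split_ifs <;> omega
  · intro k hk
    have := ga07_le_tri m
    rw [ga07_area_OO, ga07_rho_large m k hk]
    omega

theorem OO_zero (m : ℕ) : OO m 0 = rho m := by
  funext i
  simp [OO, rho]

theorem OO_shift (m s : ℕ) : (fun i => OO m s (i + 2)) = OO (m - 2) (s - 2) := by
  funext i
  unfold OO
  split_ifs <;> omega

theorem ga07_cj_OO (m s : ℕ) (hs : s ≤ m) (j : ℕ) :
    cj (OO m s) j = (m - j) + (if m + 1 - s ≤ j ∧ j ≤ m then 1 else 0) := by
  have h : ∀ i, i < cj (OO m s) j ↔ i < (m - j) + (if m + 1 - s ≤ j ∧ j ≤ m then 1 else 0) := by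
    intro i
    rw [lt_cj_iff _ _ (isPart_OO m s hs)]
    unfold OO
    split_ifs <;> omega
  apply le_antisymm
  · by_contra hne
    have := (h ((m - j) + (if m + 1 - s ≤ j ∧ j ≤ m then 1 else 0))).1 (by omega)
    omega
  · by_contra hne
    have := (h (cj (OO m s) j)).2 (by omega)
    omega

theorem ga07_area_cj_OO (m s : ℕ) (hs : s ≤ m) (i : ℕ) :
    area (cj (OO m s)) i = area (rho m) i + (min i (m + 1) - (m + 1 - s)) := by
  induction i with
  | zero => simp [ga07_area_zero]
  | succ i ih =>
    rw [ga07_area_succ, ga07_area_succ, ih, ga07_cj_OO m s hs]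
    unfold rho
    split_ifs <;> omega

theorem InD_OO (m s : ℕ) (hs : s ≤ m) : InD m s (OO m s) := by
  refine ⟨isPart_OO m s hs, fun i => le_rfl, ?_, ?_⟩
  · intro i
    rw [ga07_area_cj_OO m s hs, ga07_area_OO]
    omega
  · intro i
    unfold OO
    split_ifs <;> omega

theorem ga07_area_cj (a : ℕ → ℕ) (n : ℕ) (ha : IsPart a n) (s : ℕ) :
    area (cj a) s = ∑ j ∈ range n, min s (a j) := by
  rw [area_eq_min (cj a) n (isPart_cj a n ha) s, cj_cj a n ha]

theorem ga07_min_le (b : ℕ → ℕ) (n s r : ℕ) (hr : r ≤ n) :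
    (∑ j ∈ range n, min s (b j)) + area b r ≤ r * s + ∑ j ∈ range n, b j := by
  unfold area
  induction n, hr using Nat.le_induction with
  | base =>
    have h1 : ∑ j ∈ range r, min s (b j) ≤ ∑ _j ∈ range r, s :=
      sum_le_sum fun j _ => min_le_left _ _
    rw [sum_const, card_range, smul_eq_mul] at h1
    omega
  | succ n _ ih =>
    rw [sum_range_succ, sum_range_succ]
    have : min s (b n) ≤ b n := min_le_right _ _
    omega

theorem ga07_min_eq (a : ℕ → ℕ) (n s r : ℕ) (hr : r ≤ n) (h1 : ∀ j, j < r → s ≤ a j)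
    (h2 : ∀ j, r ≤ j → a j ≤ s) :
    (∑ j ∈ range n, min s (a j)) + area a r = r * s + ∑ j ∈ range n, a j := by
  unfold area
  induction n, hr using Nat.le_induction with
  | base =>
    have h3 : ∑ j ∈ range r, min s (a j) = ∑ _j ∈ range r, s :=
      sum_congr rfl fun j hj => min_eq_left (h1 j (mem_range.1 hj))
    rw [sum_const, card_range, smul_eq_mul] at h3
    omega
  | succ n hn ih =>
    rw [sum_range_succ, sum_range_succ]
    have : min s (a n) = a n := min_eq_right (h2 n hn)
    omega

theorem ga07_transpose (a b : ℕ → ℕ) (n : ℕ) (ha : IsPart a n) (hb : IsPart b n)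
    (h : Dom a b) : Dom (cj b) (cj a) := by
  intro s
  rw [ga07_area_cj a n ha, ga07_area_cj b n hb]
  have hr : cj a s ≤ n := by
    by_contra hne
    have h1 := (lt_cj_iff a n ha n s).1 (by omega)
    rw [ha.zero n le_rfl] at h1
    omega
  have h1 := ga07_min_le b n s (cj a s) hr
  have h2 := ga07_min_eq a n s (cj a s) hr
    (fun j hj => ((lt_cj_iff a n ha j s).1 hj).le)
    (fun j hj => by
      by_contra hne
      have := (lt_cj_iff a n ha j s).2 (by omega)
      omega)
  have h3 := h (cj a s)
  rw [hb.sum] at h1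
  rw [ha.sum] at h2
  omega

theorem InD_cj (m s : ℕ) (hs : s ≤ m) (lam : ℕ → ℕ) (h : InD m s lam) : InD m s (cj lam) := by
  have hO := isPart_OO m s hs
  refine ⟨isPart_cj _ _ h.part, ?_, ?_, ?_⟩
  · have h1 := ga07_transpose _ _ _ (isPart_cj _ _ hO) h.part h.ge
    rwa [cj_cj _ _ hO] at h1
  · exact ga07_transpose _ _ _ h.part hO h.le
  · intro i
    by_contra hne
    have h1 := (lt_cj_iff _ _ h.part (m + 1 - i) i).1 (by omega)
    have h2 := h.sub (m + 1 - i)
    omega

theorem ga07_area_cons1 (x : ℕ) (lam : ℕ → ℕ) (t : ℕ) :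
    area (cons1 x lam) (t + 1) = x + area lam t := by
  rw [ga07_area_succ']
  rfl

theorem ga07_area_cons2 (x y : ℕ) (lam : ℕ → ℕ) (t : ℕ) :
    area (cons2 x y lam) (t + 2) = x + y + area lam t := by
  rw [ga07_area_succ' _ (t + 1), ga07_area_succ', add_assoc]
  rfl

theorem ga07_area_cons2_one (x y : ℕ) (lam : ℕ → ℕ) :
    area (cons2 x y lam) 1 = x := by
  simp [area, cons2]

theorem InD_cons1 (m s : ℕ) (hs : 1 ≤ s) (hsm : s ≤ m) (lam : ℕ → ℕ) (h : InD (m - 1) (s - 1) lam) :
    InD m s (cons1 (m + 1) lam) := by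
  obtain ⟨m, rfl⟩ : ∃ m', m = m' + 1 := ⟨m - 1, by omega⟩
  obtain ⟨s, rfl⟩ : ∃ s', s = s' + 1 := ⟨s - 1, by omega⟩
  simp only [Nat.add_sub_cancel] at h
  refine ⟨?_, ?_, ?_, ?_⟩
  · apply ga07_part _ _ (m * (m + 1) / 2 + s + 1)
    · apply antitone_nat_of_succ_le
      intro i
      rcases i with _ | i
      · have := h.sub 0
        simp only [cons1]
        simp
        omega
      · have := h.part.anti (Nat.le_succ i)
        simp only [cons1]
        simpa using this
    · intro k hk
      obtain ⟨t, rfl⟩ : ∃ t, k = t + 1 := ⟨k - 1, by omega⟩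
      rw [ga07_area_cons1, ga07_area_part _ _ h.part t (by omega), ga07_tri]
      omega
  · intro i
    rcases i with _ | t
    · simp [ga07_area_zero]
    · have h1 := h.le t
      rw [ga07_area_OO] at h1
      rw [ga07_area_cons1, ga07_area_OO, ga07_rho_succ, Nat.add_sub_cancel]
      omega
  · intro i
    rcases i with _ | t
    · simp [ga07_area_zero]
    · have h1 := h.ge t
      rw [ga07_area_cj_OO _ _ (by omega)] at h1
      rw [ga07_area_cons1, ga07_area_cj_OO _ _ hsm, ga07_rho_succ, Nat.add_sub_cancel]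
      omega
  · intro i
    rcases i with _ | i
    · simp [cons1]
    · have := h.sub i
      simp only [cons1]
      simp
      omega

theorem InD_cons2 (m s : ℕ) (hs : 2 ≤ s) (hsm : s ≤ m) (lam : ℕ → ℕ) (h : InD (m - 2) (s - 2) lam) :
    InD m s (cons2 (m + 1) m lam) := by
  obtain ⟨m, rfl⟩ : ∃ m', m = m' + 2 := ⟨m - 2, by omega⟩
  obtain ⟨s, rfl⟩ : ∃ s', s = s' + 2 := ⟨s - 2, by omega⟩
  simp only [Nat.add_sub_cancel] at h
  have hrho : ∀ t, area (rho (m + 2)) (t + 2) = (m + 2) + (m + 1) + area (rho m) t := by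
    intro t
    rw [ga07_rho_succ (m + 2) (t + 1), ga07_rho_succ]
    have e1 : m + 2 - 1 = m + 1 := rfl
    have e2 : m + 1 - 1 = m := rfl
    rw [e1, e2]
    omega
  have hrho1 : area (rho (m + 2)) 1 = m + 2 := by
    have := ga07_rho_succ (m + 2) 0
    rw [ga07_area_zero] at this
    simpa using this
  refine ⟨?_, ?_, ?_, ?_⟩
  · apply ga07_part _ _ (m * (m + 1) / 2 + s + 2)
    · apply antitone_nat_of_succ_le
      intro i
      rcases i with _ | _ | i
      · simp [cons2]
      · have := h.sub 0
        simp only [cons2]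
        simp
        omega
      · have := h.part.anti (Nat.le_succ i)
        simp only [cons2]
        simpa using this
    · intro k hk
      obtain ⟨t, rfl⟩ : ∃ t, k = t + 2 := ⟨k - 2, by omega⟩
      have e1 := ga07_tri (m + 1)
      have e2 := ga07_tri m
      rw [ga07_area_cons2, ga07_area_part _ _ h.part t (by omega)]
      have e3 : m + 1 + 1 = m + 2 := rfl
      rw [e3] at e1 e2
      rw [e1, e2]
      omega
  · intro i
    rcases i with _ | _ | t
    · simp [ga07_area_zero]
    · rw [Nat.zero_add, ga07_area_cons2_one, ga07_area_OO, hrho1]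
      omega
    · have h1 := h.le t
      rw [ga07_area_OO] at h1
      rw [ga07_area_cons2, ga07_area_OO, hrho]
      omega
  · intro i
    rcases i with _ | _ | t
    · simp [ga07_area_zero]
    · rw [Nat.zero_add, ga07_area_cons2_one, ga07_area_cj_OO _ _ hsm, hrho1]
      omega
    · have h1 := h.ge t
      rw [ga07_area_cj_OO _ _ (by omega)] at h1
      rw [ga07_area_cons2, ga07_area_cj_OO _ _ hsm, hrho]
      omega
  · intro i
    rcases i with _ | _ | i
    · simp [cons2]
    · simp [cons2]
    · have := h.sub i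
      simp only [cons2]
      simp
      omega

theorem InD_special (m : ℕ) (hm : 1 ≤ m) : InD m 1 (cons2 (m + 1) (m - 1) (rho (m - 2))) ∧
    InD m 1 (cons2 m m (rho (m - 2))) := by
  constructor
  · have h : cons2 (m + 1) (m - 1) (rho (m - 2)) = OO m 1 := by
      funext i
      rcases i with _ | _ | i
      · simp [cons2, OO]
      · simp [cons2, OO]
      · simp only [cons2, OO, rho]
        simp
        omega
    rw [h]
    exact InD_OO m 1 hm
  · have hrho : ∀ t, 2 * m + area (rho (m - 2)) t = area (rho m) (t + 2) + 1 := by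
      intro t
      rw [ga07_rho_succ m (t + 1), ga07_rho_succ, Nat.sub_sub]
      have e : m - (1 + 1) = m - 2 := rfl
      rw [e]
      omega
    have hrho1 : area (rho m) 1 = m := by
      have := ga07_rho_succ m 0
      rw [ga07_area_zero] at this
      simpa using this
    have harea : ∀ i, area (cons2 m m (rho (m - 2))) i = area (rho m) i + min (i - 1) 1 := by
      intro i
      rcases i with _ | _ | t
      · simp [ga07_area_zero]
      · rw [Nat.zero_add, ga07_area_cons2_one, hrho1]
        omega
      · have h1 := hrho t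
        have e : t + 1 + 1 = t + 2 := rfl
        rw [e, ga07_area_cons2]
        omega
    refine ⟨?_, ?_, ?_, ?_⟩
    · apply ga07_part _ _ (m * (m + 1) / 2 + 2)
      · apply antitone_nat_of_succ_le
        intro i
        rcases i with _ | _ | i
        · simp [cons2]
        · simp only [cons2, rho]
          simp
        · simp only [cons2, rho]
          simp
          omega
      · intro k hk
        rw [harea, ga07_rho_large m k (by omega)]
        omega
    · intro i
      rw [harea, ga07_area_OO]
      omega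
    · intro i
      rw [harea, ga07_area_cj_OO _ _ hm]
      omega
    · intro i
      rcases i with _ | _ | i
      · simp [cons2]
      · simp [cons2]
      · simp only [cons2, rho]
        simp
        omega

end Pool.Saxl
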