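import Mathlib
import Pool.Agent.Helper139_Saxl.Defs
import Pool.Agent.Helper139_Saxl.Ga
import Pool.Agent.Helper139_Saxl.J04
import Pool.Agent.Helper139_Saxl.G07

set_option autoImplicit false

/-! Job GA-08: few rows imply the area criterion. -/

namespace Pool.Saxl

open Finset

theorem ga08_sumO (m t : ℕ) (ht : t ≤ m) : 2 * (∑ i ∈ range t, (m - i)) + t * t = t * (2 * m + 1) := by
  induction t with
  | zero => simp
  | succ t ih =>
    have := ih (by omega)
    rw [sum_range_succ]
    obtain ⟨d, rfl⟩ : ∃ d, m = t + 1 + d := ⟨m - (t + 1), by omega⟩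
    have h : t + 1 + d - t = d + 1 := by omega
    rw [h]
    nlinarith

theorem ga08_area (m s t : ℕ) (ht : t ≤ m) :
    2 * area (OO m s) t + t * t ≤ t * (2 * m + 1) + 2 * t := by
  have h1 : area (OO m s) t = (∑ i ∈ range t, (m - i)) + ∑ i ∈ range t, (if i < s then 1 else 0) := by
    unfold area OO
    rw [← sum_add_distrib]
  have h2 : (∑ i ∈ range t, (if i < s then 1 else 0)) ≤ t := by
    calc (∑ i ∈ range t, (if i < s then 1 else 0)) ≤ ∑ i ∈ range t, 1 := by
          refine sum_le_sum fun i _ => ?_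
          split_ifs <;> omega
      _ = t := by simp
  have h3 := ga08_sumO m t ht
  omega

/-- a partition with at most `m` rows satisfies the area criterion -/
theorem fatW (m s : ℕ) (hs : s ≤ m) (mu : ℕ → ℕ) (hmu : IsPart mu (m * (m + 1) / 2 + s))
    (hrow : mu m = 0) (j : ℕ) : area (OO m s) (2 * j) ≤ area mu (4 * j) := by
  have hz : ∀ i, m ≤ i → mu i = 0 := fun i hi => Nat.le_zero.mp (hrow ▸ hmu.anti hi)
  have hT : 2 * (m * (m + 1) / 2) = m * (m + 1) := Nat.mul_div_cancel' (Nat.even_mul_succ_self m).two_dvd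
  obtain ⟨T, hTd⟩ : ∃ T, T = m * (m + 1) / 2 := ⟨_, rfl⟩
  rw [← hTd] at hT
  have hmT : m ≤ T := by nlinarith
  have htot : ∀ t, m ≤ t → area mu t = T + s := by
    intro t ht
    have hsum := hmu.sum
    rw [← hTd] at hsum
    have e1 : area mu t = area mu m := by
      unfold area
      exact (sum_subset (range_subset_range.mpr ht) (fun i _ hi => hz i (by simpa using hi))).symm
    have e2 : ∑ i ∈ range (T + s), mu i = area mu m := by
      unfold area
      exact (sum_subset (range_subset_range.mpr (by omega)) (fun i _ hi => hz i (by simpa using hi))).symm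
    rw [e1, ← e2, hsum]
  rcases Nat.lt_or_ge (4 * j) m with hlt | hge
  · -- averaging
    have h1 : 4 * j * mu (4 * j) ≤ area mu (4 * j) := by
      unfold area
      calc 4 * j * mu (4 * j) = ∑ i ∈ range (4 * j), mu (4 * j) := by simp
        _ ≤ ∑ i ∈ range (4 * j), mu i :=
          sum_le_sum fun i hi => hmu.anti (le_of_lt (mem_range.mp hi))
    have h2 : T + s ≤ area mu (4 * j) + (m - 4 * j) * mu (4 * j) := by
      rw [← htot m le_rfl]
      unfold area
      rw [← sum_range_add_sum_Ico _ (le_of_lt hlt)]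
      have : ∑ i ∈ Ico (4 * j) m, mu i ≤ (m - 4 * j) * mu (4 * j) := by
        calc ∑ i ∈ Ico (4 * j) m, mu i ≤ ∑ i ∈ Ico (4 * j) m, mu (4 * j) :=
              sum_le_sum fun i hi => hmu.anti (mem_Ico.mp hi).1
          _ = (m - 4 * j) * mu (4 * j) := by simp
      omega
    have h3 : 4 * j * (T + s) ≤ m * area mu (4 * j) := by
      obtain ⟨d, hd⟩ : ∃ d, m = 4 * j + d := ⟨m - 4 * j, by omega⟩
      have hd' : m - 4 * j = d := by omega
      rw [hd'] at h2
      calc 4 * j * (T + s) ≤ 4 * j * (area mu (4 * j) + d * mu (4 * j)) := Nat.mul_le_mul_left _ h2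
        _ = 4 * j * area mu (4 * j) + d * (4 * j * mu (4 * j)) := by ring
        _ ≤ 4 * j * area mu (4 * j) + d * area mu (4 * j) :=
          Nat.add_le_add_left (Nat.mul_le_mul_left _ h1) _
        _ = m * area mu (4 * j) := by rw [hd]; ring
    have h4 := ga08_area m s (2 * j) (by omega)
    have h5 : m * (2 * area (OO m s) (2 * j)) ≤ m * (2 * area mu (4 * j)) := by
      have hj : j ≤ j * j := Nat.le_mul_self j
      have h6 : m * (2 * area (OO m s) (2 * j)) + m * (2 * j * (2 * j)) ≤
          m * (2 * j * (2 * m + 1) + 2 * (2 * j)) := by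
        rw [← Nat.mul_add]; exact Nat.mul_le_mul_left _ h4
      have h7 : m * j ≤ m * (j * j) := Nat.mul_le_mul_left _ hj
      have h8 : 4 * j * (T + s) * 2 = 2 * j * (2 * T) + 2 * j * (2 * T) + 8 * (j * s) := by ring
      rw [hT] at h8
      nlinarith
    have hm : 0 < m := by omega
    have := Nat.le_of_mul_le_mul_left h5 hm
    omega
  · rw [htot (4 * j) hge, hTd]
    exact area_le _ _ (isPart_OO m s hs) _

end Pool.Saxl
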