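import Mathlib
import Pool.Agent.Helper139_Saxl.Defs
import Pool.Agent.Helper139_Saxl.Ga
import Pool.Agent.Helper139_Saxl.J04
import Pool.Agent.Helper139_Saxl.G07
import Pool.Agent.Helper139_Saxl.G04
import Pool.Agent.Helper139_Saxl.G05
import Pool.Agent.Helper139_Saxl.G06

set_option autoImplicit false

/-! Job GA-09: the area criterion gives a pair of configurations. -/

namespace Pool.Saxl

open Finset

theorem ga09_T (k : ℕ) : (k + 2) * (k + 2 + 1) / 2 = k * (k + 1) / 2 + (2 * k + 3) := by
  have e : (k + 2) * (k + 2 + 1) = k * (k + 1) + 2 * (2 * k + 3) := by ring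
  rw [e, Nat.add_mul_div_left _ _ (by norm_num : 0 < 2)]

theorem ga09_area (m s : ℕ) : area (OO m s) 2 = OO m s 0 + OO m s 1 := by
  unfold area
  rw [sum_range_succ, sum_range_succ, sum_range_zero, zero_add]

theorem ga09_area1 (m : ℕ) (hm : 1 ≤ m) : area (OO m 1) 2 = 2 * m := by
  rw [ga09_area]
  unfold OO
  rw [if_pos (by norm_num), if_neg (by norm_num)]
  omega

theorem ga09_area2 (m s : ℕ) (hs : 2 ≤ s) (hsm : s ≤ m) : area (OO m s) 2 = 2 * m + 1 := by
  rw [ga09_area]
  unfold OO
  rw [if_pos (by omega), if_pos (by omega)]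
  omega

theorem CV_main (m s : ℕ) (hs : 1 ≤ s) (hsm : s ≤ m) (mu : ℕ → ℕ)
    (hmu : IsPart mu (m * (m + 1) / 2 + s))
    (hW : ∀ j, area (OO m s) (2 * j) ≤ area mu (4 * j)) :
    ∃ lam kap : ℕ → ℕ, InD m s lam ∧ InD m s kap ∧ CV lam kap (m + 1) mu := by
  induction m using Nat.strong_induction_on generalizing s mu with
  | _ m ih =>
    obtain ⟨nu, hnu, h4, hW'⟩ := greedyW (OO m s) mu _ (isPart_OO m s hsm).anti hmu hW
    rw [OO_shift] at hW'
    have hrho : ∀ j, s - 2 = 0 → area (rho (m - 2)) (2 * j) ≤ area nu (4 * j) := by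
      intro j h0
      have := hW' j
      rwa [h0, OO_zero] at this
    by_cases h1 : s = 1
    · subst h1
      rw [ga09_area1 m hsm] at hnu
      have hT : m * (m + 1) / 2 + 1 - 2 * m = (m - 2) * (m - 2 + 1) / 2 := by
        rcases Nat.lt_or_ge m 2 with h | h
        · have : m = 1 := by omega
          subst this; norm_num
        · obtain ⟨k, rfl⟩ : ∃ k, m = k + 2 := ⟨m - 2, by omega⟩
          rw [ga09_T, Nat.add_sub_cancel]
          omega
      have hT2 : m * (m + 1) / 2 + 1 = (m - 2) * (m - 2 + 1) / 2 + (2 * (m + 1) - 2) := by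
        rcases Nat.lt_or_ge m 2 with h | h
        · have : m = 1 := by omega
          subst this; norm_num
        · obtain ⟨k, rfl⟩ : ∃ k, m = k + 2 := ⟨m - 2, by omega⟩
          rw [ga09_T, Nat.add_sub_cancel]
          omega
      rw [hT] at hnu
      rw [hT2] at hmu
      have hcv := CV_rho (m - 2) nu hnu (fun j => hrho j rfl)
      obtain ⟨i1, i2⟩ := InD_special m hsm
      have e1 : m + 1 - 2 = m - 1 := by omega
      have e2 : m + 1 - 1 = m := by omega
      rcases CV_special _ _ mu nu (m - 2) _ (m + 1) (by omega) (by omega) hnu hmu h4 hcv with h | h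
      · rw [e1, e2] at h
        exact ⟨_, _, i1, i2, h⟩
      · rw [e2] at h
        exact ⟨_, _, i2, i2, h⟩
    · have hs2 : 2 ≤ s := by omega
      rw [ga09_area2 m s hs2 hsm] at hnu
      obtain ⟨k, rfl⟩ : ∃ k, m = k + 2 := ⟨m - 2, by omega⟩
      obtain ⟨t, rfl⟩ : ∃ t, s = t + 2 := ⟨s - 2, by omega⟩
      simp only [Nat.add_sub_cancel] at hnu hmu hW' hrho ih
      have hT : (k + 2) * (k + 2 + 1) / 2 + (t + 2) - (2 * (k + 2) + 1) = k * (k + 1) / 2 + t := by
        rw [ga09_T]
        omega
      have hT2 : (k + 2) * (k + 2 + 1) / 2 + (t + 2) =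
          k * (k + 1) / 2 + t + (2 * (k + 2 + 1) - 1) := by
        rw [ga09_T]
        omega
      rw [hT] at hnu
      rw [hT2] at hmu
      have key : ∃ lam kap : ℕ → ℕ, InD k t lam ∧ InD k t kap ∧ CV lam kap (k + 1) nu := by
        by_cases h0 : t = 0
        · subst h0
          have hcv := CV_rho k nu (by simpa using hnu) (fun j => hrho j rfl)
          have hI : InD k 0 (rho k) := by
            have := InD_OO k 0 (Nat.zero_le _)
            rwa [OO_zero] at this
          exact ⟨_, _, hI, hI, CV_mono _ _ _ _ (Nat.le_succ k) _ hcv⟩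
        · exact ih k (by omega) t (by omega) (by omega) nu hnu hW'
      obtain ⟨lam, kap, hl, hk, hcv⟩ := key
      have hb := CV_band lam kap mu nu (k + 1) _ (k + 2 + 1) (by omega) (by omega) hnu hmu h4 hcv
      have e : k + 2 + 1 - 1 = k + 2 := by omega
      rw [e] at hb
      exact ⟨_, _, InD_cons2 (k + 2) (t + 2) (by omega) hsm lam (by simpa using hl),
        InD_cons2 (k + 2) (t + 2) (by omega) hsm kap (by simpa using hk), hb⟩

end Pool.Saxl
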