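import Mathlib
import Pool.Agent.Helper139_Saxl.Defs
import Pool.Agent.Helper139_Saxl.Defs2
import Pool.Agent.Helper139_Saxl.J01
import Pool.Agent.Helper139_Saxl.J08
import Pool.Agent.Helper139_Saxl.J09
import Pool.Agent.Helper139_Saxl.J10

set_option autoImplicit false

/-! Job SX-11: rule H, algebraic core. -/

namespace Pool.Saxl

open Finset

/-- index of the part containing `x` -/
def sx11_idx {n a : ℕ} (S : Fin a → Finset (Fin n)) (x : Fin n) : ℕ :=
  ∑ i : Fin a, if x ∈ S i then i.1 else 0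

theorem sx11_idx_of {n a : ℕ} (S : Fin a → Finset (Fin n))
    (hd : ∀ i j, i ≠ j → Disjoint (S i) (S j)) (x : Fin n) (i : Fin a) (hx : x ∈ S i) :
    sx11_idx S x = i.1 := by
  unfold sx11_idx
  rw [Finset.sum_eq_single i]
  · simp [hx]
  · intro j _ hj
    have : x ∉ S j := fun h => (Finset.disjoint_left.mp (hd j i hj)) h hx
    simp [this]
  · simp

theorem sx11_idx_sdiff {n a : ℕ} (T : Fin a → Finset (Fin n)) (N : Finset (Fin n)) (x : Fin n)
    (hx : x ∉ N) : sx11_idx (fun i => T i \ N) x = sx11_idx T x := by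
  unfold sx11_idx
  simp [hx]

/-- the polytabloid off `N` -/
def sx11_e {n a : ℕ} (N : Finset (Fin n)) (S : Fin a → Finset (Fin n)) (u : Fin n → ℕ) : ℤ :=
  pt (rk fun x : {x // x ∉ N} => sx11_idx S x) (fun x : {x // x ∉ N} => sx11_idx S x)
    (fun x : {x // x ∉ N} => u x - 1)

theorem sx11_mem {n a : ℕ} {h : Fin a → ℕ} {T : Fin a → Finset (Fin n)}
    (hT : IsPartOf T univ h) (x : Fin n) : ∃ i, x ∈ T i := by
  have : x ∈ univ.biUnion T := by rw [hT.2.2]; simp
  simpa using this

theorem sx11_mem_iff {n a : ℕ} {h : Fin a → ℕ} {T : Fin a → Finset (Fin n)}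
    (hT : IsPartOf T univ h) (x : Fin n) (i : Fin a) : sx11_idx T x = i.1 ↔ x ∈ T i := by
  constructor
  · intro hx
    obtain ⟨j, hj⟩ := sx11_mem hT x
    have := sx11_idx_of T hT.2.1 x j hj
    have hij : j = i := Fin.ext (by omega)
    rwa [hij] at hj
  · exact sx11_idx_of T hT.2.1 x i

theorem sx11_rk {n a : ℕ} {h : Fin a → ℕ} {T : Fin a → Finset (Fin n)}
    (hT : IsPartOf T univ h) (x : Fin n) (i : Fin a) (hx : x ∈ T i) :
    rk (sx11_idx T) x = ((T i).filter (· < x)).card := by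
  unfold rk
  congr 1
  ext y
  have h1 := (sx11_mem_iff hT x i).2 hx
  simp only [Finset.mem_filter, Finset.mem_univ, true_and, h1, sx11_mem_iff hT y i]

theorem sx11_expand {n a : ℕ} (h : Fin a → ℕ) (h1 : ∀ i, 1 ≤ h i) (T : Fin a → Finset (Fin n))
    (hT : IsPartOf T univ h) (N : Finset (Fin n)) (w : Fin n → ℕ) (hw : ∀ x, w x = 0 ↔ x ∈ N) :
    pt (rk (sx11_idx T)) (sx11_idx T) w =
      if ∀ i, (N ∩ T i).card = 1 then (∏ i, sgN (T i) N) * sx11_e N (fun i => T i \ N) w
      else 0 := by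
  split_ifs with hc
  · have hN : ∀ x, ∃! y, y ∈ N ∧ sx11_idx T y = sx11_idx T x := by
      intro x
      obtain ⟨i, hi⟩ := sx11_mem hT x
      have hxi := (sx11_mem_iff hT x i).2 hi
      obtain ⟨y, hy⟩ := Finset.card_eq_one.1 (hc i)
      have hyy : y ∈ N ∩ T i := by rw [hy]; simp
      rw [Finset.mem_inter] at hyy
      refine ⟨y, ⟨hyy.1, ?_⟩, ?_⟩
      · rw [hxi]; exact (sx11_mem_iff hT y i).2 hyy.2
      · rintro z ⟨hz1, hz2⟩
        rw [hxi] at hz2
        have hz3 := (sx11_mem_iff hT z i).1 hz2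
        have : z ∈ N ∩ T i := Finset.mem_inter.2 ⟨hz1, hz3⟩
        rw [hy] at this
        simpa using this
    rw [laplace n (sx11_idx T) N hN w hw]
    have hprod : (∏ x ∈ N, (-1 : ℤ) ^ rk (sx11_idx T) x) = ∏ i, sgN (T i) N := by
      have hNU : N = univ.biUnion (fun i => T i ∩ N) := by
        ext x
        simp only [Finset.mem_biUnion, Finset.mem_univ, true_and, Finset.mem_inter]
        constructor
        · intro hx
          obtain ⟨i, hi⟩ := sx11_mem hT x
          exact ⟨i, hi, hx⟩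
        · rintro ⟨i, _, hx⟩
          exact hx
      conv_lhs => rw [hNU]
      rw [Finset.prod_biUnion]
      · refine Finset.prod_congr rfl fun i _ => ?_
        unfold sgN
        refine Finset.prod_congr rfl fun x hx => ?_
        rw [sx11_rk hT x i (Finset.mem_inter.1 hx).1]
      · intro i _ j _ hij
        exact (hT.2.1 i j hij).mono Finset.inter_subset_left Finset.inter_subset_left
    rw [hprod]
    congr 1
    unfold sx11_e
    have hcol : (fun x : {x // x ∉ N} => sx11_idx (fun i => T i \ N) x) =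
        fun x : {x // x ∉ N} => sx11_idx T x := by
      funext x
      exact sx11_idx_sdiff T N x.1 x.2
    rw [hcol]
  · by_contra hne
    obtain ⟨σ, hσ, hwσ⟩ := exists_of_pt_ne _ _ _ hne
    apply hc
    intro i
    -- the minimum of `T i`
    have hTi : (T i).Nonempty := by
      rw [← Finset.card_pos, hT.1 i]
      exact h1 i
    have hz : ∀ x, x ∈ T i → (rk (sx11_idx T) x = 0 ↔ x = (T i).min' hTi) := by
      intro x hx
      rw [sx11_rk hT x i hx, Finset.card_eq_zero]
      constructor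
      · intro h0
        apply le_antisymm
        · by_contra hlt
          push Not at hlt
          have : (T i).min' hTi ∈ (T i).filter (· < x) :=
            Finset.mem_filter.2 ⟨Finset.min'_mem _ _, hlt⟩
          rw [h0] at this
          simp at this
        · exact Finset.min'_le _ _ hx
      · intro h0
        rw [Finset.filter_eq_empty_iff]
        intro y hy hlt
        have := Finset.min'_le _ _ hy
        rw [← h0] at this
        exact absurd hlt (not_lt.2 this)
    rw [Finset.card_eq_one]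
    refine ⟨σ.symm ((T i).min' hTi), ?_⟩
    ext x
    rw [Finset.mem_inter, Finset.mem_singleton, ← hw x]
    have hx1 : w x = rk (sx11_idx T) (σ x) := by rw [hwσ]; rfl
    have hmem : σ x ∈ T i ↔ x ∈ T i := by
      rw [← sx11_mem_iff hT, ← sx11_mem_iff hT, hσ x]
    rw [hx1, ← hmem]
    constructor
    · rintro ⟨h0, h2⟩
      rw [Equiv.eq_symm_apply]
      exact (hz _ h2).1 h0
    · intro h0
      rw [Equiv.eq_symm_apply] at h0
      have : σ x ∈ T i := by rw [h0]; exact Finset.min'_mem _ _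
      exact ⟨(hz _ this).2 h0, this⟩

/-- the weights -/
def sx11_W {n a : ℕ} (α : Finset (Fin n)) (r3 c3 w1 w2 w3 : Fin n → ℕ) (N : Finset (Fin n))
    (S S' : Fin a → Finset (Fin n)) : ℤ :=
  ∑ g : Equiv.Perm (Fin n), if ∀ x, g x ∈ α ↔ x ∈ N then
    sx11_e N S (w1 ∘ g) * sx11_e N S' (w2 ∘ g) * pt r3 c3 (w3 ∘ g) else 0

theorem sx11_sum {n a : ℕ} (h : Fin a → ℕ) (h1 : ∀ i, 1 ≤ h i) (α : Finset (Fin n))
    (r3 c3 w1 w2 w3 : Fin n → ℕ) (hw1 : ∀ x, w1 x = 0 ↔ x ∈ α) (hw2 : ∀ x, w2 x = 0 ↔ x ∈ α)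
    (T T' : Fin a → Finset (Fin n)) (hT : IsPartOf T univ h) (hT' : IsPartOf T' univ h) :
    ∑ N ∈ (univ ∩ univ : Finset (Fin n)).powerset.filter
        (fun N => (∀ i, (N ∩ T i).card = 1) ∧ ∀ i, (N ∩ T' i).card = 1),
        ((∏ i, sgN (T i) N : ℤ)) * ((∏ i, sgN (T' i) N : ℤ)) *
          sx11_W α r3 c3 w1 w2 w3 N (fun i => T i \ N) (fun i => T' i \ N) =
      tri (rk (sx11_idx T)) (sx11_idx T) (rk (sx11_idx T')) (sx11_idx T') r3 c3 w1 w2 w3 := by
  unfold sx11_W tri
  simp_rw [Finset.mul_sum]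
  rw [Finset.sum_comm]
  refine Finset.sum_congr rfl fun g _ => ?_
  have e1 := sx11_expand h h1 T hT (univ.filter fun x => g x ∈ α) (w1 ∘ g) (by
    intro x; simp [hw1])
  have e2 := sx11_expand h h1 T' hT' (univ.filter fun x => g x ∈ α) (w2 ∘ g) (by
    intro x; simp [hw2])
  have huniq : ∀ N : Finset (Fin n), (∀ x, g x ∈ α ↔ x ∈ N) → N = univ.filter fun x => g x ∈ α := by
    intro N hN
    ext x
    simp [hN x]
  rw [e1, e2]
  by_cases hc1 : ∀ i, ((univ.filter fun x => g x ∈ α) ∩ T i).card = 1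
  · by_cases hc2 : ∀ i, ((univ.filter fun x => g x ∈ α) ∩ T' i).card = 1
    · rw [if_pos hc1, if_pos hc2]
      rw [Finset.sum_eq_single (univ.filter fun x => g x ∈ α)]
      · rw [if_pos (by intro x; simp)]
        ring
      · intro N _ hne
        rw [if_neg (fun hN => hne (huniq N hN)), mul_zero]
      · intro hn
        exact absurd (by simp only [Finset.mem_filter, Finset.mem_powerset]; exact
          ⟨by intro x _; simp, hc1, hc2⟩) hn
    · rw [if_neg hc2, mul_zero, zero_mul]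
      refine Finset.sum_eq_zero fun N hN => ?_
      rw [Finset.mem_filter] at hN
      rw [if_neg (fun hN' => hc2 (by rw [← huniq N hN']; exact hN.2.2)), mul_zero]
  · rw [if_neg hc1, zero_mul, zero_mul]
    refine Finset.sum_eq_zero fun N hN => ?_
    rw [Finset.mem_filter] at hN
    rw [if_neg (fun hN' => hc1 (by rw [← huniq N hN']; exact hN.2.1)), mul_zero]

theorem sx11_alpha {A : Type} [Fintype A] [DecidableEq A] (rA cA : A → ℕ)
    (hinj : ∀ x y, cA x = cA y → x = y) : 0 < ∑ g : Equiv.Perm A, pt rA cA (rA ∘ g) := by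
  have hσ : ∀ σ : Equiv.Perm A, (∀ x, cA (σ x) = cA x) → σ = 1 := by
    intro σ h
    ext x
    exact hinj _ _ (h x)
  refine Finset.sum_pos' (fun g _ => ?_) ⟨1, Finset.mem_univ _, ?_⟩
  · unfold pt
    refine Finset.sum_nonneg fun σ _ => ?_
    split_ifs with h
    · rw [hσ σ h.1]; simp
    · exact le_rfl
  · rw [pt_of rA cA (fun x y _ h => hinj x y h) 1 (fun x => rfl)]
    simp

theorem sx11_split {n : ℕ} (α : Finset (Fin n)) (F : Equiv.Perm (Fin n) → ℤ) :
    ∑ g : Equiv.Perm (Fin n), (if ∀ x, g x ∈ α ↔ x ∈ α then F g else 0) =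
      ∑ gA : Equiv.Perm {x // x ∈ α}, ∑ gB : Equiv.Perm {x // x ∉ α},
        F ((Equiv.sumCompl (fun x => x ∈ α)).permCongr (Equiv.sumCongr gA gB)) := by
  rw [← Equiv.sum_comp (Equiv.sumCompl (fun x => x ∈ α)).permCongr]
  rw [sum_perm_sum]
  · refine Finset.sum_congr rfl fun gA _ => Finset.sum_congr rfl fun gB _ => ?_
    rw [if_pos]
    intro x
    by_cases hx : x ∈ α
    · simp only [hx, iff_true, Equiv.permCongr_apply]
      rw [Equiv.sumCompl_symm_apply_of_pos (p := fun x => x ∈ α) hx]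
      simp
    · simp only [hx, iff_false, Equiv.permCongr_apply]
      rw [Equiv.sumCompl_symm_apply_of_neg (p := fun x => x ∈ α) hx]
      simpa using (gB ⟨x, hx⟩).2
  · intro g hg
    rw [if_neg]
    intro hc
    apply hg
    intro x
    have := (hc x.1).2 x.2
    simp only [Equiv.permCongr_apply] at this
    rw [Equiv.sumCompl_symm_apply_of_pos (p := fun x => x ∈ α) x.2] at this
    cases hgx : g (Sum.inl x) with
    | inl y => simp
    | inr y =>
      exfalso
      rw [show (⟨x.1, x.2⟩ : {x // x ∈ α}) = x from rfl, hgx] at this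
      simp at this
      exact y.2 this



theorem strip_core (n a : ℕ) (h : ℕ → ℕ) (hh : ∀ i, i < a → 1 ≤ h i ∧ h i ≤ a - i)
    (α : Finset (Fin n)) (hα : α.card = a) (c1 c2 : {x // x ∉ α} → ℕ)
    (hc1 : ∀ y, c1 y < a) (hc2 : ∀ y, c2 y < a)
    (h1 : ∀ i, i < a → (univ.filter fun y => c1 y = i).card + 1 = h i)
    (h2 : ∀ i, i < a → (univ.filter fun y => c2 y = i).card + 1 = h i)
    (r3 c3 : Fin n → ℕ) (b1 b2 b3 : {x // x ∉ α} → ℕ)
    (hα3 : ∀ x ∈ α, ∀ y ∈ α, c3 x = c3 y → x = y)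
    (hαβ : ∀ x ∈ α, ∀ y, y ∉ α → c3 x = c3 y → r3 y < r3 x)
    (hB : tri (rk c1) c1 (rk c2) c2 (fun y : {x // x ∉ α} => r3 y)
      (fun y : {x // x ∉ α} => c3 y) b1 b2 b3 ≠ 0) :
    ∃ col1 col2 : Fin n → ℕ, (∀ x, col1 x < a) ∧ (∀ x, col2 x < a) ∧
      (∀ i, i < a → (univ.filter fun x => col1 x = i).card = h i) ∧
      (∀ i, i < a → (univ.filter fun x => col2 x = i).card = h i) ∧
      ∃ w1 w2 w3 : Fin n → ℕ, tri (rk col1) col1 (rk col2) col2 r3 c3 w1 w2 w3 ≠ 0 := by
  classical
  by_contra hcon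
  push Not at hcon
  set w1 : Fin n → ℕ := fun x => if hx : x ∈ α then 0 else b1 ⟨x, hx⟩ + 1 with hw1
  set w2 : Fin n → ℕ := fun x => if hx : x ∈ α then 0 else b2 ⟨x, hx⟩ + 1 with hw2
  set w3 : Fin n → ℕ := fun x => if hx : x ∈ α then r3 x else b3 ⟨x, hx⟩ with hw3
  have z1 : ∀ x, w1 x = 0 ↔ x ∈ α := by
    intro x
    by_cases hx : x ∈ α <;> simp [hw1, hx]
  have z2 : ∀ x, w2 x = 0 ↔ x ∈ α := by
    intro x
    by_cases hx : x ∈ α <;> simp [hw2, hx]
  -- all the sums over partitions vanish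
  have hvan : ∀ T T' : Fin a → Finset (Fin n), IsPartOf T univ (fun i : Fin a => h i) →
      IsPartOf T' univ (fun i : Fin a => h i) →
      tri (rk (sx11_idx T)) (sx11_idx T) (rk (sx11_idx T')) (sx11_idx T') r3 c3 w1 w2 w3 = 0 := by
    intro T T' hT hT'
    have hlt : ∀ (T : Fin a → Finset (Fin n)), IsPartOf T univ (fun i : Fin a => h i) →
        ∀ x, sx11_idx T x < a := by
      intro T hT x
      obtain ⟨i, hi⟩ := sx11_mem hT x
      rw [(sx11_mem_iff hT x i).2 hi]
      exact i.2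
    have hcard : ∀ (T : Fin a → Finset (Fin n)), IsPartOf T univ (fun i : Fin a => h i) →
        ∀ i, i < a → (univ.filter fun x => sx11_idx T x = i).card = h i := by
      intro T hT i hi
      refine Eq.trans ?_ (hT.1 ⟨i, hi⟩)
      congr 1
      ext x
      simp only [Finset.mem_filter, Finset.mem_univ, true_and]
      exact sx11_mem_iff hT x ⟨i, hi⟩
    exact hcon (sx11_idx T) (sx11_idx T') (hlt T hT) (hlt T' hT') (hcard T hT) (hcard T' hT')
      w1 w2 w3
  have hh1 : ∀ i : Fin a, 1 ≤ h i := fun i => (hh i i.2).1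
  set S : Fin a → Finset (Fin n) := fun i => univ.filter fun x => ∃ hx : x ∉ α, c1 ⟨x, hx⟩ = i
    with hS
  set S' : Fin a → Finset (Fin n) := fun i => univ.filter fun x => ∃ hx : x ∉ α, c2 ⟨x, hx⟩ = i
    with hS'
  have hpart : ∀ c : {x // x ∉ α} → ℕ, (∀ y, c y < a) →
      (∀ i, i < a → (univ.filter fun y => c y = i).card + 1 = h i) →
      IsPartOf (fun i : Fin a => (univ.filter fun x => ∃ hx : x ∉ α, c ⟨x, hx⟩ = i :
        Finset (Fin n))) ((univ : Finset (Fin n)) \ α) (fun i : Fin a => h i - 1) := by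
    intro c hc hci
    refine ⟨?_, ?_, ?_⟩
    · intro i
      have h2 := hci i i.2
      have h3 : (univ.filter fun x => ∃ hx : x ∉ α, c ⟨x, hx⟩ = i : Finset (Fin n)) =
          (univ.filter fun y => c y = i).map ⟨Subtype.val, Subtype.val_injective⟩ := by
        ext x
        simp
      change (univ.filter fun x => ∃ hx : x ∉ α, c ⟨x, hx⟩ = i : Finset (Fin n)).card = h i - 1
      rw [h3, Finset.card_map]
      omega
    · intro i j hij
      rw [Finset.disjoint_left]
      intro x hx hx'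
      simp only [Finset.mem_filter, Finset.mem_univ, true_and] at hx hx'
      obtain ⟨hx1, hx2⟩ := hx
      obtain ⟨hx3, hx4⟩ := hx'
      exact hij (Fin.ext (by rw [← hx2, ← hx4]))
    · ext x
      simp only [Finset.mem_biUnion, Finset.mem_univ, true_and, Finset.mem_filter,
        Finset.mem_sdiff]
      constructor
      · rintro ⟨i, hx, _⟩
        exact hx
      · intro hx
        exact ⟨⟨c ⟨x, hx⟩, hc _⟩, hx, rfl⟩
  have hW0 := indep a (fun i : Fin a => h i) (fun i : Fin a => h i) hh1 hh1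
    (fun i => by
      have := (hh i i.2).2
      simpa using this) (univ : Finset (Fin n)) univ
    (fun N S S' => ((sx11_W α r3 c3 w1 w2 w3 N S S' : ℤ) : ℚ))
    (by
      intro T T' hT hT'
      have h5 := sx11_sum (fun i : Fin a => h i) hh1 α r3 c3 w1 w2 w3 z1 z2 T T' hT hT'
      rw [hvan T T' hT hT'] at h5
      have h6 := congrArg (fun z : ℤ => (z : ℚ)) h5
      simp only [Int.cast_zero] at h6
      rw [← h6]
      push_cast
      rfl) α S S' (by simp) hα (hpart c1 hc1 h1) (hpart c2 hc2 h2)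
  have hW1 : sx11_W α r3 c3 w1 w2 w3 α S S' = 0 := by exact_mod_cast hW0
  -- the columns off `α`
  have hcol : ∀ c : {x // x ∉ α} → ℕ, (hc : ∀ y, c y < a) →
      (hci : ∀ i, i < a → (univ.filter fun y => c y = i).card + 1 = h i) →
      (fun x : {x // x ∉ α} => sx11_idx (fun i : Fin a => (univ.filter fun x =>
        ∃ hx : x ∉ α, c ⟨x, hx⟩ = i : Finset (Fin n))) x.1) = c := by
    intro c hc hci
    funext x
    rw [sx11_idx_of _ (hpart c hc hci).2.1 x.1 ⟨c x, hc x⟩]
    rw [Finset.mem_filter]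
    exact ⟨Finset.mem_univ _, x.2, rfl⟩
  have he1 : ∀ u : Fin n → ℕ, sx11_e α S u = pt (rk c1) c1 (fun x => u x - 1) := by
    intro u
    unfold sx11_e
    rw [hS, hcol c1 hc1 h1]
  have he2 : ∀ u : Fin n → ℕ, sx11_e α S' u = pt (rk c2) c2 (fun x => u x - 1) := by
    intro u
    unfold sx11_e
    rw [hS', hcol c2 hc2 h2]
  -- the sum of `b3`
  have hsum3 : ∑ y, b3 y = ∑ y : {x // x ∉ α}, r3 y := by
    unfold tri at hB
    obtain ⟨g, _, hg⟩ := Finset.exists_ne_zero_of_sum_ne_zero hB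
    have hg3 := right_ne_zero_of_mul hg
    obtain ⟨σ, _, hσ⟩ := exists_of_pt_ne _ _ _ hg3
    rw [← Equiv.sum_comp g b3, ← Equiv.sum_comp σ (fun y : {x // x ∉ α} => r3 y)]
    exact Finset.sum_congr rfl fun y _ => congrFun hσ y
  unfold sx11_W at hW1
  rw [sx11_split α (fun g => sx11_e α S (w1 ∘ g) * sx11_e α S' (w2 ∘ g) * pt r3 c3 (w3 ∘ g))]
    at hW1
  have hterm : ∀ (gA : Equiv.Perm {x // x ∈ α}) (gB : Equiv.Perm {x // x ∉ α}),
      (fun g => sx11_e α S (w1 ∘ g) * sx11_e α S' (w2 ∘ g) * pt r3 c3 (w3 ∘ g))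
        ((Equiv.sumCompl (fun x => x ∈ α)).permCongr (Equiv.sumCongr gA gB)) =
      pt (fun y : {x // x ∈ α} => r3 y) (fun y : {x // x ∈ α} => c3 y)
        ((fun y : {x // x ∈ α} => r3 y) ∘ gA) *
      (pt (rk c1) c1 (b1 ∘ gB) * pt (rk c2) c2 (b2 ∘ gB) *
        pt (fun y : {x // x ∉ α} => r3 y) (fun y : {x // x ∉ α} => c3 y) (b3 ∘ gB)) := by
    intro gA gB
    have hneg : ∀ y : {x // x ∉ α}, ((Equiv.sumCompl (fun x => x ∈ α)).permCongr
        (Equiv.sumCongr gA gB)) y.1 = (gB y).1 := by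
      intro y
      simp only [Equiv.permCongr_apply]
      rw [Equiv.sumCompl_symm_apply_of_neg (p := fun x => x ∈ α) y.2]
      simp
    have hpos : ∀ y : {x // x ∈ α}, ((Equiv.sumCompl (fun x => x ∈ α)).permCongr
        (Equiv.sumCongr gA gB)) y.1 = (gA y).1 := by
      intro y
      simp only [Equiv.permCongr_apply]
      rw [Equiv.sumCompl_symm_apply_of_pos (p := fun x => x ∈ α) y.2]
      simp
    simp only
    rw [he1, he2]
    have f1 : (fun x : {x // x ∉ α} => (w1 ∘ ((Equiv.sumCompl (fun x => x ∈ α)).permCongr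
        (Equiv.sumCongr gA gB))) x.1 - 1) = b1 ∘ gB := by
      funext y
      simp only [Function.comp_apply, hneg]
      rw [hw1]
      simp [(gB y).2]
    have f2 : (fun x : {x // x ∉ α} => (w2 ∘ ((Equiv.sumCompl (fun x => x ∈ α)).permCongr
        (Equiv.sumCongr gA gB))) x.1 - 1) = b2 ∘ gB := by
      funext y
      simp only [Function.comp_apply, hneg]
      rw [hw2]
      simp [(gB y).2]
    have f3 : pt r3 c3 (w3 ∘ ((Equiv.sumCompl (fun x => x ∈ α)).permCongr
        (Equiv.sumCongr gA gB))) =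
        pt (fun y : {x // x ∈ α} => r3 y) (fun y : {x // x ∈ α} => c3 y)
          ((fun y : {x // x ∈ α} => r3 y) ∘ gA) *
        pt (fun y : {x // x ∉ α} => r3 y) (fun y : {x // x ∉ α} => c3 y) (b3 ∘ gB) := by
      rw [← pt_factor, ← pt_equiv (Equiv.sumCompl (fun x => x ∈ α))]
      · congr 1
        · funext s
          cases s <;> simp
        · funext s
          cases s <;> simp
        · funext s
          cases s with
          | inl y =>
            simp only [Function.comp_apply, Equiv.sumCompl_apply_inl, hpos, Sum.elim_inl]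
            rw [hw3]
            simp [(gA y).2]
          | inr y =>
            simp only [Function.comp_apply, Equiv.sumCompl_apply_inr, hneg, Sum.elim_inr]
            rw [hw3]
            simp [(gB y).2]
      · intro x y hxy
        exact hαβ x.1 x.2 y.1 y.2 hxy
      · rw [← hsum3]
        exact le_of_eq (Equiv.sum_comp gB b3)
    rw [f1, f2, f3]
    ring
  simp_rw [hterm] at hW1
  simp_rw [← Finset.mul_sum] at hW1
  rw [← Finset.sum_mul] at hW1
  rcases mul_eq_zero.1 hW1 with h7 | h7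
  · have := sx11_alpha (fun y : {x // x ∈ α} => r3 y) (fun y : {x // x ∈ α} => c3 y)
      (fun x y hxy => Subtype.ext (hα3 x.1 x.2 y.1 y.2 hxy))
    rw [h7] at this
    exact absurd this (lt_irrefl _)
  · exact hB h7

end Pool.Saxl
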