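import Mathlib
import Pool.Agent.Helper139_Saxl.Defs
import Pool.Agent.Helper139_Saxl.Defs2
import Pool.Agent.Helper139_Saxl.J01
import Pool.Agent.Helper139_Saxl.J02
import Pool.Agent.Helper139_Saxl.J03
import Pool.Agent.Helper139_Saxl.J04
import Pool.Agent.Helper139_Saxl.J09
import Pool.Agent.Helper139_Saxl.J11

set_option autoImplicit false

/-! Job SX-12: rule H. -/

namespace Pool.Saxl

open Finset

theorem sx12_isPart_uniq (mu : ℕ → ℕ) (n m : ℕ) (hn : IsPart mu n) (hm : IsPart mu m) : n = m := by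
  have key : ∀ a b : ℕ, a ≤ b → IsPart mu a → IsPart mu b → a = b := by
    intro a b hab ha hb
    have h1 := hb.sum
    have h2 := ha.sum
    have h3 : ∑ i ∈ range a, mu i = ∑ i ∈ range b, mu i := by
      refine Finset.sum_subset (by intro i hi; simp at *; omega) ?_
      intro i hi hi'
      exact ha.zero i (by simpa using hi')
    omega
  rcases le_total n m with h | h
  · exact key n m h hn hm
  · exact (key m n h hm hn).symm

theorem sx12_col_card {Ω : Type} [Fintype Ω] [DecidableEq Ω] (row col : Ω → ℕ) (mu : ℕ → ℕ)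
    (h : IsStd row col mu) (j : ℕ) : (univ.filter fun x => col x = j).card = cj mu j := by
  have hp := h.toIsTab.isPart
  have : (univ.filter fun x => col x = j).card = (range (cj mu j)).card := by
    refine Finset.card_bij (fun x _ => row x) ?_ ?_ ?_
    · intro x hx
      simp only [mem_filter, mem_univ, true_and] at hx
      rw [mem_range, lt_cj_iff mu _ hp, ← hx]
      exact h.lt x
    · intro x hx y hy hxy
      simp only [mem_filter, mem_univ, true_and] at hx hy
      exact h.inj x y hxy (by rw [hx, hy])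
    · intro i hi
      rw [mem_range, lt_cj_iff mu _ hp] at hi
      obtain ⟨x, hx1, hx2⟩ := std_surj row col mu h i j hi
      exact ⟨x, by simp [hx2], hx1⟩
  rw [this, card_range]

theorem sx12_cj_shift (lam : ℕ → ℕ) (n m : ℕ) (h : IsPart lam n)
    (h' : IsPart (fun i => lam (i + 1)) m) (i : ℕ) (hi : i < lam 0) :
    cj (fun i => lam (i + 1)) i + 1 = cj lam i := by
  have h0 : 0 < cj lam i := (lt_cj_iff lam n h 0 i).2 hi
  have key : ∀ r, r < cj (fun i => lam (i + 1)) i ↔ r + 1 < cj lam i := fun r => by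
    rw [lt_cj_iff _ m h', lt_cj_iff lam n h]
  have h1 := key (cj lam i - 1)
  have h2 := key (cj (fun i => lam (i + 1)) i)
  omega

theorem sx12_strict (lam : ℕ → ℕ) (n : ℕ) (h : IsPart lam n) (hs : Strict lam) (j : ℕ)
    (hj : 0 < lam j) : lam j + j ≤ lam 0 := by
  induction j with
  | zero => simp
  | succ j ih =>
    have h1 : lam (j + 1) ≤ lam j := h.anti (Nat.le_succ j)
    rcases hs j with h2 | h2
    · have := ih (by omega)
      omega
    · omega

theorem sx12_rk_lt {Ω : Type} [Fintype Ω] [LinearOrder Ω] (col : Ω → ℕ) (x y : Ω)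
    (h : col x = col y) (hxy : x < y) : rk col x < rk col y := by
  unfold rk
  apply Finset.card_lt_card
  rw [Finset.ssubset_iff_of_subset]
  · exact ⟨x, by simp [h, hxy], by simp⟩
  · intro z hz
    simp only [mem_filter, mem_univ, true_and] at hz ⊢
    exact ⟨hz.1.trans h, hz.2.trans hxy⟩

theorem sx12_rk_inj {Ω : Type} [Fintype Ω] [LinearOrder Ω] (col : Ω → ℕ) (x y : Ω)
    (h : col x = col y) (hxy : rk col x = rk col y) : x = y := by
  rcases lt_trichotomy x y with h1 | h1 | h1
  · have := sx12_rk_lt col x y h h1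
    omega
  · exact h1
  · have := sx12_rk_lt col y x h.symm h1
    omega

theorem sx12_rk_lt_card {Ω : Type} [Fintype Ω] [LinearOrder Ω] (col : Ω → ℕ) (x : Ω) :
    rk col x < (univ.filter fun y => col y = col x).card := by
  unfold rk
  apply Finset.card_lt_card
  rw [Finset.ssubset_iff_of_subset]
  · exact ⟨x, by simp, by simp⟩
  · intro z hz
    simp only [mem_filter, mem_univ, true_and] at hz ⊢
    exact hz.1

theorem sx12_rk_surj {Ω : Type} [Fintype Ω] [LinearOrder Ω] (col : Ω → ℕ) (c i : ℕ)
    (hi : i < (univ.filter fun x => col x = c).card) : ∃ y, col y = c ∧ rk col y = i := by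
  have h1 : (univ.filter fun x => col x = c).image (rk col) ⊆
      range (univ.filter fun x => col x = c).card := by
    intro r hr
    obtain ⟨x, hx, rfl⟩ := mem_image.1 hr
    simp only [mem_filter, mem_univ, true_and] at hx
    rw [mem_range]
    have := sx12_rk_lt_card col x
    rwa [hx] at this
  have h2 : ((univ.filter fun x => col x = c).image (rk col)).card =
      (univ.filter fun x => col x = c).card := by
    apply Finset.card_image_of_injOn
    intro x hx y hy hxy
    simp only [coe_filter, mem_univ, true_and, Set.mem_ofPred_eq] at hx hy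
    exact sx12_rk_inj col x y (hx.trans hy.symm) hxy
  have h3 := Finset.eq_of_subset_of_card_le h1 (by rw [h2, card_range])
  have h4 : i ∈ (univ.filter fun x => col x = c).image (rk col) := by
    rw [h3]
    exact mem_range.2 hi
  obtain ⟨y, hy, hyi⟩ := mem_image.1 h4
  exact ⟨y, by simpa using hy, hyi⟩

theorem sx12_rk_tab {n : ℕ} (lam : ℕ → ℕ) (N : ℕ) (hlam : IsPart lam N) (col : Fin n → ℕ)
    (hc : ∀ x, col x < lam 0)
    (hcc : ∀ i, i < lam 0 → (univ.filter fun x => col x = i).card = cj lam i) :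
    IsTab (rk col) col lam where
  inj := fun x y h1 h2 => sx12_rk_inj col x y h2 h1
  down := fun x i hi =>
    sx12_rk_surj col (col x) i (hi.trans (sx12_rk_lt_card col x))
  card := fun r => by
    have : (univ.filter fun x => rk col x = r).card = (range (lam r)).card := by
      refine Finset.card_bij (fun x _ => col x) ?_ ?_ ?_
      · intro x hx
        simp only [mem_filter, mem_univ, true_and] at hx
        rw [mem_range, ← lt_cj_iff lam N hlam, ← hcc _ (hc x), ← hx]
        exact sx12_rk_lt_card col x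
      · intro x hx y hy hxy
        simp only [mem_filter, mem_univ, true_and] at hx hy
        exact sx12_rk_inj col x y hxy (hx.trans hy.symm)
      · intro c hcr
        rw [mem_range] at hcr
        have h0 : c < lam 0 := lt_of_lt_of_le hcr (hlam.anti (Nat.zero_le r))
        rw [← lt_cj_iff lam N hlam, ← hcc c h0] at hcr
        obtain ⟨y, hy1, hy2⟩ := sx12_rk_surj col c r hcr
        exact ⟨y, by simp [hy2], hy1⟩
    rw [this, card_range]

theorem sx12_third (n a : ℕ) (mu nu : ℕ → ℕ) (hmu : IsPart mu n) (hnu : IsPart nu (n - a))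
    (han : a ≤ n) (hst : HStrip mu nu) (α : Finset (Fin n)) (hα : α.card = a)
    (r c : {x // x ∉ α} → ℕ) (h3 : IsStd r c nu) :
    ∃ r3 c3 : Fin n → ℕ, IsTab r3 c3 mu ∧ (fun y : {x // x ∉ α} => r3 y) = r ∧
      (fun y : {x // x ∉ α} => c3 y) = c ∧
      (∀ x ∈ α, ∀ y ∈ α, c3 x = c3 y → x = y) ∧
      (∀ x ∈ α, ∀ y, y ∉ α → c3 x = c3 y → r3 y < r3 x) := by
  classical
  set B : Finset (Σ _ : ℕ, ℕ) := (range n).sigma (fun i => Finset.Ico (nu i) (mu i)) with hB
  have hBc : B.card = a := by
    rw [hB, Finset.card_sigma]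
    simp only [Nat.card_Ico]
    have h1 : ∑ i ∈ range n, (mu i - nu i) + ∑ i ∈ range n, nu i = ∑ i ∈ range n, mu i := by
      rw [← Finset.sum_add_distrib]
      exact Finset.sum_congr rfl fun i _ => Nat.sub_add_cancel (hst i).1
    have h2 : ∑ i ∈ range n, nu i = ∑ i ∈ range (n - a), nu i := by
      symm
      refine Finset.sum_subset (by intro i hi; simp at *; omega) ?_
      intro i _ hi'
      exact hnu.zero i (by simpa using hi')
    have h4 := hmu.sum
    have h5 := hnu.sum
    omega
  have e : {x // x ∈ α} ≃ {b // b ∈ B} := Finset.equivOfCardEq (by rw [hα, hBc])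
  have hBm : ∀ b : {b // b ∈ B}, nu b.1.1 ≤ b.1.2 ∧ b.1.2 < mu b.1.1 := by
    intro b
    have h := Finset.mem_sigma.1
      (show b.1 ∈ (range n).sigma (fun i => Finset.Ico (nu i) (mu i)) from b.2)
    exact Finset.mem_Ico.1 h.2
  set r3 : Fin n → ℕ := fun x => if h : x ∈ α then (e ⟨x, h⟩).1.1 else r ⟨x, h⟩ with hr3
  set c3 : Fin n → ℕ := fun x => if h : x ∈ α then (e ⟨x, h⟩).1.2 else c ⟨x, h⟩ with hc3
  have r3α : ∀ (x : Fin n) (h : x ∈ α), r3 x = (e ⟨x, h⟩).1.1 := fun x h => by
    rw [hr3]; simp only [dif_pos h]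
  have c3α : ∀ (x : Fin n) (h : x ∈ α), c3 x = (e ⟨x, h⟩).1.2 := fun x h => by
    rw [hc3]; simp only [dif_pos h]
  have r3n : ∀ (x : Fin n) (h : x ∉ α), r3 x = r ⟨x, h⟩ := fun x h => by
    rw [hr3]; simp only [dif_neg h]
  have c3n : ∀ (x : Fin n) (h : x ∉ α), c3 x = c ⟨x, h⟩ := fun x h => by
    rw [hc3]; simp only [dif_neg h]
  have inα : ∀ x ∈ α, nu (r3 x) ≤ c3 x ∧ c3 x < mu (r3 x) := by
    intro x hx
    rw [r3α x hx, c3α x hx]
    exact hBm _
  have outα : ∀ x, x ∉ α → c3 x < nu (r3 x) := by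
    intro x hx
    rw [r3n x hx, c3n x hx]
    exact h3.lt _
  have hlt : ∀ x, c3 x < mu (r3 x) := by
    intro x
    by_cases hx : x ∈ α
    · exact (inα x hx).2
    · exact lt_of_lt_of_le (outα x hx) (hst _).1
  have hinj : ∀ x y, r3 x = r3 y → c3 x = c3 y → x = y := by
    intro x y h1 h2
    by_cases hx : x ∈ α
    · by_cases hy : y ∈ α
      · rw [r3α x hx, r3α y hy] at h1
        rw [c3α x hx, c3α y hy] at h2
        have : e ⟨x, hx⟩ = e ⟨y, hy⟩ := Subtype.ext (Sigma.ext h1 (heq_of_eq h2))
        have := e.injective this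
        exact congrArg Subtype.val this
      · have h4 := inα x hx
        have h5 := outα y hy
        rw [← h1, ← h2] at h5
        omega
    · by_cases hy : y ∈ α
      · have h4 := inα y hy
        have h5 := outα x hx
        rw [h1, h2] at h5
        omega
      · rw [r3n x hx, r3n y hy] at h1
        rw [c3n x hx, c3n y hy] at h2
        have := h3.inj _ _ h1 h2
        exact congrArg Subtype.val this
  have hsurj : ∀ i j, j < mu i → ∃ x, r3 x = i ∧ c3 x = j := by
    intro i j hij
    by_cases hj : j < nu i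
    · obtain ⟨x, hx1, hx2⟩ := std_surj r c nu h3 i j hj
      refine ⟨x.1, ?_, ?_⟩
      · rw [r3n x.1 x.2]; exact hx1
      · rw [c3n x.1 x.2]; exact hx2
    · have hin : i < n := by
        by_contra hc
        rw [hmu.zero i (by omega)] at hij
        omega
      have hb : (⟨i, j⟩ : Σ _ : ℕ, ℕ) ∈ B := by
        rw [hB, Finset.mem_sigma, Finset.mem_Ico]
        exact ⟨mem_range.2 hin, by simpa using hj, hij⟩
      refine ⟨(e.symm ⟨_, hb⟩).1, ?_, ?_⟩
      · rw [r3α _ (e.symm ⟨_, hb⟩).2]
        simp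
      · rw [c3α _ (e.symm ⟨_, hb⟩).2]
        simp
  refine ⟨r3, c3, ⟨hinj, ?_, ?_⟩, ?_, ?_, ?_, ?_⟩
  · intro x i hi
    obtain ⟨y, hy1, hy2⟩ := hsurj i (c3 x) (lt_of_lt_of_le (hlt x) (hmu.anti hi.le))
    exact ⟨y, hy2, hy1⟩
  · intro i
    have : (univ.filter fun x => r3 x = i).card = (range (mu i)).card := by
      refine Finset.card_bij (fun x _ => c3 x) ?_ ?_ ?_
      · intro x hx
        simp only [mem_filter, mem_univ, true_and] at hx
        rw [mem_range, ← hx]
        exact hlt x
      · intro x hx y hy hxy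
        simp only [mem_filter, mem_univ, true_and] at hx hy
        exact hinj x y (hx.trans hy.symm) hxy
      · intro j hj
        obtain ⟨x, hx1, hx2⟩ := hsurj i j (mem_range.1 hj)
        exact ⟨x, by simp [hx1], hx2⟩
    rw [this, card_range]
  · funext y
    rw [r3n y.1 y.2]
  · funext y
    rw [c3n y.1 y.2]
  · intro x hx y hy hxy
    have h4 := inα x hx
    have h5 := inα y hy
    rcases lt_trichotomy (r3 x) (r3 y) with h6 | h6 | h6
    · exfalso
      have h7 := (hst (r3 x)).2
      have h8 := hmu.anti (show r3 x + 1 ≤ r3 y from h6)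
      omega
    · exact hinj x y h6 hxy
    · exfalso
      have h7 := (hst (r3 y)).2
      have h8 := hmu.anti (show r3 y + 1 ≤ r3 x from h6)
      omega
  · intro x hx y hy hxy
    by_contra hcon
    have h4 := inα x hx
    have h5 := outα y hy
    have h6 := hnu.anti (show r3 x ≤ r3 y by omega)
    omega




/-- rule H -/
theorem G_strip (lam mu nu : ℕ → ℕ) (n : ℕ) (hlam : IsPart lam n) (hs : Strict lam)
    (hmu : IsPart mu n) (hnu : IsPart nu (n - lam 0)) (hstrip : HStrip mu nu)
    (hG : G (fun i => lam (i + 1)) (fun i => lam (i + 1)) nu) : G lam lam mu := by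
  rcases Nat.eq_zero_or_pos (lam 0) with ha | ha
  · have hl0 : ∀ i, lam i = 0 := fun i => by
      have := hlam.anti (Nat.zero_le i)
      omega
    have hn0 : n = 0 := by
      rw [← hlam.sum]
      exact Finset.sum_eq_zero fun i _ => hl0 i
    have e1 : (fun i => lam (i + 1)) = lam := by
      funext i
      rw [hl0, hl0]
    have e2 : nu = mu := by
      funext i
      rw [hnu.zero i (by omega), hmu.zero i (by omega)]
    rw [e1, e2] at hG
    exact hG
  · have hn : 0 < n := by
      by_contra hcon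
      have := hlam.zero 0 (by omega)
      omega
    have han : lam 0 ≤ n := by
      calc lam 0 ≤ ∑ i ∈ range n, lam i :=
            Finset.single_le_sum (fun i _ => Nat.zero_le _) (mem_range.2 hn)
        _ = n := hlam.sum
    obtain ⟨α, -, hα⟩ := Finset.exists_subset_card_eq (s := (univ : Finset (Fin n)))
      (n := lam 0) (by simpa using han)
    have hcard : Fintype.card {x // x ∉ α} = n - lam 0 := by
      rw [Fintype.card_subtype_compl, Fintype.card_fin]
      simp [hα]
    obtain ⟨r1, c1, r2, c2, r, c, s1, s2, s3, b1, b2, b3, hb⟩ :=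
      (G_iff (Ω := {x // x ∉ α}) _ _ nu (Or.inr (Or.inr (by rw [hcard]; exact hnu)))).1 hG
    obtain ⟨r3, c3, ht3, hr, hc, hα3, hαβ⟩ :=
      sx12_third n (lam 0) mu nu hmu hnu han hstrip α hα r c s3
    have hp' := s1.toIsTab.isPart
    obtain ⟨t1, ht1, hrk1⟩ := pt_rk r1 c1 s1.inj s1.down
    obtain ⟨t2, ht2, hrk2⟩ := pt_rk r2 c2 s2.inj s2.down
    have hB : tri (rk c1) c1 (rk c2) c2 (fun y : {x // x ∉ α} => r3 y)
      (fun y : {x // x ∉ α} => c3 y) b1 b2 b3 ≠ 0 := by
      rw [hr, hc]
      intro h0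
      apply hb
      have : tri r1 c1 r2 c2 r c b1 b2 b3 = t1 * t2 * tri (rk c1) c1 (rk c2) c2 r c b1 b2 b3 := by
        unfold tri
        rw [Finset.mul_sum]
        refine Finset.sum_congr rfl fun g _ => ?_
        have e1 := hrk1 (b1 ∘ g)
        have e2 := hrk2 (b2 ∘ g)
        have e1' : pt r1 c1 (b1 ∘ g) = t1 * pt (rk c1) c1 (b1 ∘ g) := by exact e1
        have e2' : pt r2 c2 (b2 ∘ g) = t2 * pt (rk c2) c2 (b2 ∘ g) := by exact e2
        rw [e1', e2']
        ring
      rw [this, h0, mul_zero]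
    have hh : ∀ i, i < lam 0 → 1 ≤ cj lam i ∧ cj lam i ≤ lam 0 - i := by
      intro i hi
      refine ⟨(lt_cj_iff lam n hlam 0 i).2 hi, ?_⟩
      by_contra hcon
      have h1 := (lt_cj_iff lam n hlam (lam 0 - i) i).1 (by omega)
      have h2 := sx12_strict lam n hlam hs (lam 0 - i) (by omega)
      omega
    have hc1 : ∀ y, c1 y < lam 0 := fun y =>
      lt_of_lt_of_le (s1.lt y) (hlam.anti (Nat.zero_le _))
    have hc2 : ∀ y, c2 y < lam 0 := fun y =>
      lt_of_lt_of_le (s2.lt y) (hlam.anti (Nat.zero_le _))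
    obtain ⟨col1, col2, g1, g2, g3, g4, w1, w2, w3, hw⟩ :=
      strip_core n (lam 0) (cj lam) hh α hα c1 c2 hc1 hc2
        (fun i hi => by
          rw [sx12_col_card r1 c1 _ s1 i]
          exact sx12_cj_shift lam n _ hlam hp' i hi)
        (fun i hi => by
          rw [sx12_col_card r2 c2 _ s2 i]
          exact sx12_cj_shift lam n _ hlam hp' i hi)
        r3 c3 b1 b2 b3 hα3 hαβ hB
    exact G_of lam lam mu (rk col1) col1 (rk col2) col2 r3 c3
      (sx12_rk_tab lam n hlam col1 g1 g3) (sx12_rk_tab lam n hlam col2 g2 g4) ht3 w1 w2 w3 hw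

end Pool.Saxl
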