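import Mathlib
import Pool.Agent.Helper139_Saxl.Defs
import Pool.Agent.Helper139_Saxl.Defs2
import Pool.Agent.Helper139_Saxl.J01
import Pool.Agent.Helper139_Saxl.J02

set_option autoImplicit false

/-! Job SX-31: Specht modules are irreducible. -/

namespace Pool.Saxl

open Finset CategoryTheory
open scoped CategoryTheory.MonoidalCategory

section sx31

variable {n : ℕ}

theorem sx31_wact (g : Equiv.Perm (Fin n)) (f : FW n) (w : Fin n → Fin n) :
    wact n g f w = f (w ∘ g) := rfl

theorem sx31_wact_ev (g : Equiv.Perm (Fin n)) (row col : Fin n → ℕ) :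
    wact n g (ev row col) = ev (row ∘ g.symm) (col ∘ g.symm) := by
  funext w
  rw [sx31_wact]
  unfold ev
  have h := pt_equiv g.symm row col (fun x => ((w (g x) : Fin n) : ℕ))
  have h1 : (fun x => ((w (g x) : Fin n) : ℕ)) ∘ g.symm = fun x => ((w x : Fin n) : ℕ) := by
    funext x
    simp
  rw [h1] at h
  rw [h]
  rfl

theorem sx31_row_lt {row col : Fin n → ℕ} {lam : ℕ → ℕ} (h : IsPart lam n)
    (hT : IsTab row col lam) (x : Fin n) : row x < n := by
  by_contra hx
  push Not at hx
  have h1 := hT.card (row x)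
  rw [h.zero _ hx, Finset.card_eq_zero, Finset.filter_eq_empty_iff] at h1
  exact h1 (Finset.mem_univ x) rfl

/-- the row word -/
def sx31_rw (row : Fin n → ℕ) (h : ∀ x, row x < n) : Fin n → Fin n := fun x => ⟨row x, h x⟩

/-- antisymmetrisation along the columns -/
noncomputable def sx31_K (col : Fin n → ℕ) (f : FW n) : FW n :=
  ∑ σ : Equiv.Perm (Fin n),
    if ∀ x, col (σ x) = col x then (((Equiv.Perm.sign σ : ℤ) : ℂ)) • wact n σ f else 0

theorem sx31_K_apply (col : Fin n → ℕ) (f : FW n) (w : Fin n → Fin n) :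
    sx31_K col f w = ∑ σ : Equiv.Perm (Fin n),
      if ∀ x, col (σ x) = col x then ((Equiv.Perm.sign σ : ℤ) : ℂ) * f (w ∘ σ) else 0 := by
  unfold sx31_K
  rw [Finset.sum_apply]
  refine Finset.sum_congr rfl fun σ _ => ?_
  split_ifs
  · rfl
  · rfl

theorem sx31_K_mem {U : Submodule ℂ (FW n)}
    (hst : ∀ (g : Equiv.Perm (Fin n)) (f : FW n), f ∈ U → wact n g f ∈ U) (col : Fin n → ℕ)
    {f : FW n} (hf : f ∈ U) : sx31_K col f ∈ U := by
  unfold sx31_K
  refine Submodule.sum_mem _ fun σ _ => ?_
  split_ifs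
  · exact U.smul_mem _ (hst σ f hf)
  · exact U.zero_mem

theorem sx31_sign_sq (τ : Equiv.Perm (Fin n)) :
    ((Equiv.Perm.sign τ : ℤ) : ℂ) * ((Equiv.Perm.sign τ : ℤ) : ℂ) = 1 := by
  rw [← Int.cast_mul, ← Units.val_mul, Int.units_mul_self]
  simp

theorem sx31_K_comp (col : Fin n → ℕ) (f : FW n) (w : Fin n → Fin n) (τ : Equiv.Perm (Fin n))
    (hτ : ∀ x, col (τ x) = col x) :
    sx31_K col f (w ∘ τ) = ((Equiv.Perm.sign τ : ℤ) : ℂ) * sx31_K col f w := by
  rw [sx31_K_apply, sx31_K_apply, Finset.mul_sum]
  refine Fintype.sum_equiv (Equiv.mulLeft τ) _ _ fun σ => ?_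
  rw [Equiv.coe_mulLeft]
  have h1 : (∀ x, col ((τ * σ) x) = col x) ↔ ∀ x, col (σ x) = col x := by
    simp only [Equiv.Perm.mul_apply, hτ]
  simp only [h1]
  split_ifs
  · rw [Equiv.Perm.sign_mul, Units.val_mul, Int.cast_mul]
    have h2 : w ∘ ⇑τ ∘ ⇑σ = w ∘ ⇑(τ * σ) := rfl
    rw [Function.comp_assoc, h2, ← mul_assoc, ← mul_assoc, sx31_sign_sq, one_mul]
  · rw [mul_zero]

/-- content of a word on which an element of the Specht module does not vanish -/
theorem sx31_content {lam : ℕ → ℕ} {f : FW n} (hf : f ∈ spe n lam) :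
    ∀ v : Fin n → Fin n, f v ≠ 0 → ∀ i, (univ.filter fun x => ((v x : Fin n) : ℕ) = i).card = lam i := by
  unfold spe at hf
  induction hf using Submodule.span_induction with
  | mem f h =>
    obtain ⟨row, col, hT, rfl⟩ := h
    intro v hv i
    have h1 : pt row col (fun x => ((v x : Fin n) : ℕ)) ≠ 0 := by
      intro h0
      apply hv
      unfold ev
      rw [h0, Int.cast_zero]
    obtain ⟨σ, -, h2⟩ := exists_of_pt_ne row col _ h1
    rw [← hT.card i]
    refine Finset.card_equiv σ fun x => ?_
    have h3 := congrFun h2 x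
    simp only [Function.comp_apply] at h3
    rw [Finset.mem_filter, Finset.mem_filter, h3]
    simp
  | zero => intro v hv; exact absurd rfl hv
  | add f g _ _ h1 h2 =>
    intro v hv
    by_cases h3 : f v = 0
    · refine h2 v fun h4 => hv ?_
      rw [Pi.add_apply, h3, h4, add_zero]
    · exact h1 v h3
  | smul c f _ h1 =>
    intro v hv
    refine h1 v fun h2 => hv ?_
    rw [Pi.smul_apply, h2, smul_zero]

/-- counting in one column -/
theorem sx31_col_le {Ω : Type} [Fintype Ω] [DecidableEq Ω] {row col : Ω → ℕ} {lam : ℕ → ℕ}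
    (hT : IsTab row col lam)
    {w : Ω → ℕ} (hw : ∀ x y, w x = w y → col x = col y → x = y) (c s : ℕ) :
    (univ.filter fun x => w x < s ∧ col x = c).card ≤
      (univ.filter fun x => row x < s ∧ col x = c).card := by
  by_cases h : ∃ z, col z = c ∧ s ≤ row z
  · obtain ⟨z, hz, hs⟩ := h
    have h1 : (univ.filter fun x => w x < s ∧ col x = c).card ≤ (range s).card := by
      refine Finset.card_le_card_of_injOn w ?_ ?_
      · intro x hx
        rw [Finset.mem_coe, Finset.mem_filter] at hx
        rw [Finset.mem_coe, Finset.mem_range]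
        exact hx.2.1
      · intro x hx y hy e
        rw [Finset.mem_coe, Finset.mem_filter] at hx hy
        exact hw x y e (hx.2.2.trans hy.2.2.symm)
    have h2 : (range s) ⊆ (univ.filter fun x => row x < s ∧ col x = c).image row := by
      intro i hi
      rw [Finset.mem_range] at hi
      obtain ⟨y, hy1, hy2⟩ := hT.down z i (hi.trans_le hs)
      rw [Finset.mem_image]
      exact ⟨y, Finset.mem_filter.2 ⟨Finset.mem_univ _, by omega, hy1.trans hz⟩, hy2⟩
    exact h1.trans ((Finset.card_le_card h2).trans Finset.card_image_le)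
  · push Not at h
    refine Finset.card_le_card fun x hx => ?_
    rw [Finset.mem_filter] at hx ⊢
    exact ⟨Finset.mem_univ _, h x hx.2.2, hx.2.2⟩

theorem sx31_count {Ω : Type} [Fintype Ω] [DecidableEq Ω] (w : Ω → ℕ) (lam : ℕ → ℕ)
    (h : ∀ i, (univ.filter fun x => w x = i).card = lam i) (s : ℕ) :
    (univ.filter fun x => w x < s).card = ∑ i ∈ range s, lam i := by
  rw [Finset.card_eq_sum_card_fiberwise (f := w) (t := range s)]
  · refine Finset.sum_congr rfl fun i hi => ?_
    rw [← h i, Finset.filter_filter]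
    congr 1
    ext x
    rw [Finset.mem_filter, Finset.mem_filter]
    rw [Finset.mem_range] at hi
    constructor
    · rintro ⟨h1, h2, h3⟩; exact ⟨h1, h3⟩
    · rintro ⟨h1, h3⟩; exact ⟨h1, by omega, h3⟩
  · intro x hx
    rw [Finset.mem_coe, Finset.mem_filter] at hx
    rw [Finset.mem_coe, Finset.mem_range]
    exact hx.2

/-- a word with the content of the tableau and different letters in every column -/
theorem sx31_comb {Ω : Type} [Fintype Ω] [DecidableEq Ω] {row col : Ω → ℕ} {lam : ℕ → ℕ}
    (hT : IsTab row col lam) {w : Ω → ℕ} (hc : ∀ i, (univ.filter fun x => w x = i).card = lam i)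
    (hw : ∀ x y, w x = w y → col x = col y → x = y) :
    ∃ τ : Equiv.Perm Ω, (∀ x, col (τ x) = col x) ∧ w = row ∘ τ := by
  have key : ∀ c s, c ∈ univ.image col → (univ.filter fun x => w x < s ∧ col x = c).card =
      (univ.filter fun x => row x < s ∧ col x = c).card := by
    intro c s hcc
    have h1 : ∀ v : Ω → ℕ, (univ.filter fun x => v x < s).card =
        ∑ c ∈ univ.image col, (univ.filter fun x => v x < s ∧ col x = c).card := by
      intro v
      rw [Finset.card_eq_sum_card_fiberwise (f := col) (t := univ.image col)]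
      · refine Finset.sum_congr rfl fun i _ => ?_
        rw [Finset.filter_filter]
      · intro x _
        rw [Finset.mem_coe]
        exact Finset.mem_image_of_mem col (Finset.mem_univ x)
    have h2 := sx31_count w lam hc s
    have h3 := sx31_count row lam hT.card s
    rw [h1] at h2 h3
    have h4 := (Finset.sum_eq_sum_iff_of_le fun c _ => sx31_col_le hT hw c s).1 (h2.trans h3.symm)
    exact h4 c hcc
  have hsplit : ∀ (v : Ω → ℕ) (c s : ℕ), (univ.filter fun x => v x < s + 1 ∧ col x = c).card =
      (univ.filter fun x => v x < s ∧ col x = c).card +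
        (univ.filter fun x => v x = s ∧ col x = c).card := by
    intro v c s
    rw [← Finset.card_union_of_disjoint]
    · congr 1
      ext x
      simp only [Finset.mem_filter, Finset.mem_union, Finset.mem_univ, true_and]
      omega
    · rw [Finset.disjoint_left]
      intro x h1 h2
      rw [Finset.mem_filter] at h1 h2
      omega
  have hex : ∀ x, ∃ y, col y = col x ∧ row y = w x := by
    intro x
    have hcx : col x ∈ univ.image col := Finset.mem_image_of_mem col (Finset.mem_univ x)
    have h1 := key (col x) (w x) hcx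
    have h2 := key (col x) (w x + 1) hcx
    rw [hsplit, hsplit] at h2
    have h3 : 0 < (univ.filter fun z => w z = w x ∧ col z = col x).card :=
      Finset.card_pos.2 ⟨x, Finset.mem_filter.2 ⟨Finset.mem_univ _, rfl, rfl⟩⟩
    have h4 : 0 < (univ.filter fun z => row z = w x ∧ col z = col x).card := by omega
    obtain ⟨y, hy⟩ := Finset.card_pos.1 h4
    rw [Finset.mem_filter] at hy
    exact ⟨y, hy.2.2, hy.2.1⟩
  choose τ h1 h2 using hex
  have hinj : Function.Injective τ := by
    intro x y e
    refine hw x y ?_ ?_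
    · rw [← h2 x, ← h2 y, e]
    · rw [← h1 x, ← h1 y, e]
  refine ⟨Equiv.ofBijective τ (Finite.injective_iff_bijective.1 hinj), fun x => ?_, ?_⟩
  · exact h1 x
  · funext x
    exact (h2 x).symm

theorem sx31_ev_eq_sum (row col : Fin n → ℕ) (hr : ∀ x, row x < n) (w : Fin n → Fin n) :
    ev row col w = ∑ σ : Equiv.Perm (Fin n), if ∀ x, col (σ x) = col x then
      (if w = sx31_rw row hr ∘ σ then ((Equiv.Perm.sign σ : ℤ) : ℂ) else 0) else 0 := by
  unfold ev pt
  rw [Int.cast_sum]
  refine Finset.sum_congr rfl fun σ _ => ?_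
  have h1 : w = sx31_rw row hr ∘ σ ↔ ∀ x, ((w x : Fin n) : ℕ) = row (σ x) := by
    constructor
    · intro h x
      have := congrFun h x
      rw [this]
      rfl
    · intro h
      funext x
      exact Fin.ext (h x)
  by_cases h2 : ∀ x, col (σ x) = col x
  · by_cases h3 : w = sx31_rw row hr ∘ σ
    · rw [if_pos ⟨h2, h1.1 h3⟩, if_pos h2, if_pos h3]
    · rw [if_neg (fun h => h3 (h1.2 h.2)), if_pos h2, if_neg h3, Int.cast_zero]
  · rw [if_neg (fun h => h2 h.1), if_neg h2, Int.cast_zero]

/-- the coefficient -/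
theorem sx31_K_row (row col : Fin n → ℕ) (hr : ∀ x, row x < n) (f : FW n) :
    sx31_K col f (sx31_rw row hr) = ∑ w, f w * ev row col w := by
  rw [sx31_K_apply]
  simp only [sx31_ev_eq_sum row col hr, Finset.mul_sum]
  rw [Finset.sum_comm]
  refine Finset.sum_congr rfl fun σ _ => ?_
  by_cases h2 : ∀ x, col (σ x) = col x
  · simp only [if_pos h2]
    rw [Finset.sum_eq_single (sx31_rw row hr ∘ σ)]
    · rw [if_pos rfl, mul_comm]
    · intro w _ hw
      rw [if_neg hw, mul_zero]
    · intro h; exact absurd (Finset.mem_univ _) h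
  · simp only [if_neg h2, mul_zero, Finset.sum_const_zero]

theorem sx31_K_eq {lam : ℕ → ℕ} {row col : Fin n → ℕ} (hT : IsTab row col lam)
    (hr : ∀ x, row x < n) {f : FW n} (hf : f ∈ spe n lam) :
    sx31_K col f = (∑ w, f w * ev row col w) • ev row col := by
  rw [← sx31_K_row row col hr f]
  funext w
  rw [Pi.smul_apply, smul_eq_mul]
  by_cases hw : ∃ τ : Equiv.Perm (Fin n), (∀ x, col (τ x) = col x) ∧
      (fun x => ((w x : Fin n) : ℕ)) = row ∘ τ
  · obtain ⟨τ, h1, h2⟩ := hw
    have h3 : w = sx31_rw row hr ∘ τ := by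
      funext x
      exact Fin.ext (congrFun h2 x)
    have h4 : ev row col w = ((Equiv.Perm.sign τ : ℤ) : ℂ) := by
      unfold ev
      rw [h2, pt_of row col hT.inj τ h1]
    rw [h4, h3, sx31_K_comp col f _ τ h1, mul_comm]
  · have h4 : ev row col w = 0 := by
      unfold ev
      by_contra h
      apply hw
      exact exists_of_pt_ne row col _ (fun h0 => h (by rw [h0, Int.cast_zero]))
    rw [h4, mul_zero]
    by_contra hK
    apply hw
    have hcont : ∀ i, (univ.filter fun x => ((w x : Fin n) : ℕ) = i).card = lam i := by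
      rw [sx31_K_apply] at hK
      obtain ⟨σ, -, h5⟩ := Finset.exists_ne_zero_of_sum_ne_zero hK
      have h6 : f (w ∘ σ) ≠ 0 := by
        intro h0
        apply h5
        split_ifs
        · rw [h0, mul_zero]
        · rfl
      intro i
      rw [← sx31_content hf _ h6 i]
      symm
      refine Finset.card_equiv σ fun x => ?_
      rw [Finset.mem_filter, Finset.mem_filter]
      simp
    refine sx31_comb hT hcont fun x y h5 h6 => ?_
    by_contra hxy
    apply hK
    have h7 : ∀ z, col (Equiv.swap x y z) = col z := by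
      intro z
      rw [Equiv.swap_apply_def]
      split_ifs with h8 h9
      · rw [h8, h6]
      · rw [h9, h6]
      · rfl
    have h8 : w ∘ Equiv.swap x y = w := by
      funext z
      rw [Function.comp_apply, Equiv.swap_apply_def]
      split_ifs with h9 h10
      · rw [h9]; exact (Fin.ext h5).symm
      · rw [h10]; exact Fin.ext h5
      · rfl
    have h9 := sx31_K_comp col f w (Equiv.swap x y) h7
    rw [h8, Equiv.Perm.sign_swap hxy] at h9
    have h10 : sx31_K col f w = -sx31_K col f w := by
      refine h9.trans ?_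
      simp
    exact self_eq_neg.1 h10

/-- two tableaux of the same shape -/
theorem sx31_trans {lam : ℕ → ℕ} {row col row' col' : Fin n → ℕ} (hT : IsTab row col lam)
    (hT' : IsTab row' col' lam) : ∃ g : Equiv.Perm (Fin n), ev row' col' = wact n g (ev row col) := by
  obtain ⟨c1, h1, e1⟩ := exists_std row col lam hT
  obtain ⟨c2, h2, e2⟩ := exists_std row' col' lam hT'
  have hex : ∀ x, ∃ y, row y = row' x ∧ c1 y = c2 x := fun x =>
    std_surj row c1 lam h1 (row' x) (c2 x) (h2.lt x)
  choose g hg1 hg2 using hex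
  have hinj : Function.Injective g := by
    intro x y e
    refine h2.inj x y ?_ ?_
    · rw [← hg1 x, ← hg1 y, e]
    · rw [← hg2 x, ← hg2 y, e]
  let γ : Equiv.Perm (Fin n) := Equiv.ofBijective g (Finite.injective_iff_bijective.1 hinj)
  refine ⟨γ.symm, ?_⟩
  rw [sx31_wact_ev, Equiv.symm_symm]
  have hrow : row ∘ γ = row' := funext hg1
  rw [hrow]
  funext w
  unfold ev
  rw [pt_col row' col' (col ∘ γ) _ fun x y => ?_]
  rw [e2, ← hg2 x, ← hg2 y]
  exact (e1 (g x) (g y)).symm

end sx31

theorem spe_stable (n : ℕ) (lam : ℕ → ℕ) (g : Equiv.Perm (Fin n)) (f : FW n)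
    (hf : f ∈ spe n lam) : wact n g f ∈ spe n lam := by
  have h : spe n lam ≤ (spe n lam).comap (wact n g) := by
    conv_lhs => unfold spe
    rw [Submodule.span_le]
    rintro _ ⟨row, col, hT, rfl⟩
    rw [SetLike.mem_coe, Submodule.mem_comap, sx31_wact_ev]
    exact Submodule.subset_span ⟨_, _, hT.comp g.symm, rfl⟩
  exact h hf

theorem spe_ne_bot (n : ℕ) (lam : ℕ → ℕ) (h : IsPart lam n) : spe n lam ≠ ⊥ := by
  obtain ⟨row, col, hT⟩ := exists_tab lam n h
  have hr := sx31_row_lt h hT.toIsTab
  rw [Submodule.ne_bot_iff]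
  refine ⟨ev row col, Submodule.subset_span ⟨row, col, hT.toIsTab, rfl⟩, fun h0 => ?_⟩
  have h1 := congrFun h0 (sx31_rw row hr)
  have h2 : ev row col (sx31_rw row hr) = 1 := by
    unfold ev
    have h3 := pt_of row col hT.inj 1 (fun _ => rfl)
    have h4 : (fun x => ((sx31_rw row hr x : Fin n) : ℕ)) = row ∘ (1 : Equiv.Perm (Fin n)) := rfl
    rw [h4, h3]
    simp
  rw [h2] at h1
  exact one_ne_zero h1

theorem spe_irred (n : ℕ) (lam : ℕ → ℕ) (h : IsPart lam n) (U : Submodule ℂ (FW n))
    (hU : U ≤ spe n lam) (hst : ∀ (g : Equiv.Perm (Fin n)) (f : FW n), f ∈ U → wact n g f ∈ U) :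
    U = ⊥ ∨ U = spe n lam := by
  by_cases hex : ∃ f ∈ U, ∃ row col : Fin n → ℕ, IsTab row col lam ∧ ∑ w, f w * ev row col w ≠ 0
  · right
    obtain ⟨f, hf, row, col, hT, hne⟩ := hex
    refine le_antisymm hU ?_
    have hr := sx31_row_lt h hT
    have h1 := sx31_K_mem hst col hf
    rw [sx31_K_eq hT hr (hU hf), Submodule.smul_mem_iff _ hne] at h1
    unfold spe
    rw [Submodule.span_le]
    rintro _ ⟨row', col', hT', rfl⟩
    obtain ⟨g, hg⟩ := sx31_trans hT hT'
    rw [SetLike.mem_coe, hg]
    exact hst g _ h1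
  · left
    push Not at hex
    rw [eq_bot_iff]
    intro f hf
    rw [Submodule.mem_bot]
    have key : ∀ g ∈ spe n lam, ∑ w, f w * (starRingEnd ℂ) (g w) = 0 := by
      intro g hg
      unfold spe at hg
      induction hg using Submodule.span_induction with
      | mem g h =>
        obtain ⟨row, col, hT, rfl⟩ := h
        rw [← hex f hf row col hT]
        refine Finset.sum_congr rfl fun w _ => ?_
        unfold ev
        rw [map_intCast]
      | zero => simp
      | add g g' _ _ h1 h2 =>
        simp only [Pi.add_apply, map_add, mul_add, Finset.sum_add_distrib]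
        rw [h1, h2, add_zero]
      | smul c g _ h1 =>
        have h2 : ∀ w, f w * (starRingEnd ℂ) ((c • g) w) =
            (starRingEnd ℂ) c * (f w * (starRingEnd ℂ) (g w)) := by
          intro w
          rw [Pi.smul_apply, smul_eq_mul, map_mul]
          ring
        simp only [h2]
        rw [← Finset.mul_sum, h1, mul_zero]
    have h1 := key f (hU hf)
    have h2 : ∑ w, Complex.normSq (f w) = 0 := by
      have h3 : ((∑ w, Complex.normSq (f w) : ℝ) : ℂ) = 0 := by
        rw [Complex.ofReal_sum, ← h1]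
        exact Finset.sum_congr rfl fun w _ => (Complex.mul_conj (f w)).symm
      exact_mod_cast h3
    rw [Finset.sum_eq_zero_iff_of_nonneg fun w _ => Complex.normSq_nonneg _] at h2
    funext w
    exact Complex.normSq_eq_zero.1 (h2 w (Finset.mem_univ w))

end Pool.Saxl
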