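import Mathlib
import Pool.Agent.Helper139_Saxl.Defs
import Pool.Agent.Helper139_Saxl.Defs2
import Pool.Agent.Helper139_Saxl.J01
import Pool.Agent.Helper139_Saxl.J02
import Pool.Agent.Helper139_Saxl.J04
import Pool.Agent.Helper139_Saxl.J31

set_option autoImplicit false

/-! Job SX-33: the sign twist. -/

namespace Pool.Saxl

open Finset CategoryTheory
open scoped CategoryTheory.MonoidalCategory

theorem sx33_row_lt {n : ℕ} {row col : Fin n → ℕ} {lam : ℕ → ℕ} (h : IsPart lam n)
    (hT : IsTab row col lam) (x : Fin n) : row x < n := by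
  by_contra hx
  have h1 := hT.card (row x)
  rw [h.zero _ (not_lt.1 hx), Finset.card_eq_zero] at h1
  have h2 : x ∈ (univ.filter fun y => row y = row x) := by simp
  rw [h1] at h2
  simp at h2

theorem sx33_col_lt {n : ℕ} {row col : Fin n → ℕ} {lam : ℕ → ℕ}
    (hT : IsStd row col lam) (x : Fin n) : col x < n := by
  have h1 := hT.lt x
  have h2 := hT.card (row x)
  have h3 : (univ.filter fun y => row y = row x).card ≤ n := by
    refine (Finset.card_le_univ _).trans ?_
    simp
  omega

theorem sx33_tr {n : ℕ} {row col : Fin n → ℕ} {lam : ℕ → ℕ}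
    (hT : IsStd row col lam) : IsTab col row (cj lam) := by
  refine ⟨fun x y h1 h2 => hT.inj x y h2 h1, ?_, ?_⟩
  · intro x i hi
    obtain ⟨y, hy1, hy2⟩ := std_surj row col lam hT (row x) i (hi.trans (hT.lt x))
    exact ⟨y, hy1, hy2⟩
  · intro j
    unfold cj
    have : {i | j < lam i} = row '' {x | col x = j} := by
      ext i
      simp only [Set.mem_setOf_eq, Set.mem_image]
      constructor
      · intro hi
        obtain ⟨x, hx1, hx2⟩ := std_surj row col lam hT i j hi
        exact ⟨x, hx2, hx1⟩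
      · rintro ⟨x, hx, rfl⟩
        rw [← hx]
        exact hT.lt x
    rw [this, Set.ncard_image_of_injOn]
    · rw [Set.ncard_eq_toFinset_card']
      congr 1
      ext x
      simp
    · intro x hx y hy hxy
      simp only [Set.mem_setOf_eq] at hx hy
      exact hT.inj x y hxy (hx.trans hy.symm)

/-- the twist -/
noncomputable def sx33_theta {n : ℕ} (col : Fin n → ℕ) (rowF : Fin n → Fin n) :
    FW n →ₗ[ℂ] FW n where
  toFun f := fun u => ∑ g : Equiv.Perm (Fin n),
    if (∀ x, (u x : ℕ) = col (g x)) then ((Equiv.Perm.sign g : ℤ) : ℂ) * f (rowF ∘ g) else 0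
  map_add' f f' := by
    funext u
    simp only [Pi.add_apply]
    rw [← Finset.sum_add_distrib]
    refine Finset.sum_congr rfl fun g _ => ?_
    split_ifs <;> ring
  map_smul' a f := by
    funext u
    simp only [Pi.smul_apply, smul_eq_mul, RingHom.id_apply]
    rw [Finset.mul_sum]
    refine Finset.sum_congr rfl fun g _ => ?_
    split_ifs <;> ring

theorem sx33_theta_apply {n : ℕ} (col : Fin n → ℕ) (rowF : Fin n → Fin n) (f : FW n)
    (u : Fin n → Fin n) : sx33_theta col rowF f u = ∑ g : Equiv.Perm (Fin n),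
    if (∀ x, (u x : ℕ) = col (g x)) then ((Equiv.Perm.sign g : ℤ) : ℂ) * f (rowF ∘ g) else 0 := rfl

theorem sx33_equiv {n : ℕ} (col : Fin n → ℕ) (rowF : Fin n → Fin n) (h : Equiv.Perm (Fin n))
    (f : FW n) : sx33_theta col rowF (wact n h f) =
      ((Equiv.Perm.sign h : ℤ) : ℂ) • wact n h (sx33_theta col rowF f) := by
  funext u
  have e1 : (((Equiv.Perm.sign h : ℤ) : ℂ) • wact n h (sx33_theta col rowF f)) u =
    ((Equiv.Perm.sign h : ℤ) : ℂ) * sx33_theta col rowF f (u ∘ h) := rfl
  rw [e1, sx33_theta_apply, sx33_theta_apply, Finset.mul_sum]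
  refine Finset.sum_bij' (fun g _ => g * h) (fun g _ => g * h⁻¹) (by simp) (by simp) (by simp)
    (by simp) ?_
  intro g _
  have e2 : (wact n h f) (rowF ∘ g) = f (rowF ∘ (g * h : Equiv.Perm (Fin n))) := rfl
  rw [e2]
  have e3 : (∀ x, (u x : ℕ) = col (g x)) ↔
      ∀ x, ((u ∘ h) x : ℕ) = col ((g * h : Equiv.Perm (Fin n)) x) := by
    constructor
    · intro H x
      exact H (h x)
    · intro H x
      have := H (h⁻¹ x)
      simpa using this
  by_cases hc : ∀ x, (u x : ℕ) = col (g x)
  · rw [if_pos hc, if_pos (e3.1 hc), Equiv.Perm.sign_mul]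
    rcases Int.units_eq_one_or (Equiv.Perm.sign h) with hs | hs <;> rw [hs] <;> push_cast <;> ring
  · rw [if_neg hc, if_neg (fun H => hc (e3.2 H)), mul_zero]

theorem sx33_val {n : ℕ} (row col : Fin n → ℕ) (rowF : Fin n → Fin n)
    (hr : ∀ x, (rowF x : ℕ) = row x) (u : Fin n → Fin n) :
    sx33_theta col rowF (ev row col) u = ∑ σ : Equiv.Perm (Fin n),
      if (∀ x, col (σ x) = col x) then (pt col row ((fun x => (u x : ℕ)) ∘ (σ⁻¹ : Equiv.Perm (Fin n))) : ℂ)
      else 0 := by
  rw [sx33_theta_apply]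
  have e1 : ∀ g : Equiv.Perm (Fin n), ev row col (rowF ∘ g) = (pt row col (row ∘ g) : ℂ) := by
    intro g
    unfold ev
    congr 1
    congr 1
    funext x
    exact hr (g x)
  have e2 : ∀ g : Equiv.Perm (Fin n),
      (if (∀ x, (u x : ℕ) = col (g x)) then ((Equiv.Perm.sign g : ℤ) : ℂ) * ev row col (rowF ∘ g)
        else 0) = ∑ σ : Equiv.Perm (Fin n), if (∀ x, (u x : ℕ) = col (g x)) ∧
          (∀ x, col (σ x) = col x) ∧ (∀ x, row (g x) = row (σ x)) then
          ((Equiv.Perm.sign g : ℤ) : ℂ) * ((Equiv.Perm.sign σ : ℤ) : ℂ) else 0 := by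
    intro g
    rw [e1]
    unfold pt
    by_cases hc : ∀ x, (u x : ℕ) = col (g x)
    · rw [if_pos hc]
      push_cast
      rw [Finset.mul_sum]
      refine Finset.sum_congr rfl fun σ _ => ?_
      by_cases hd : (∀ x, col (σ x) = col x) ∧ (∀ x, (row ∘ g) x = row (σ x))
      · rw [if_pos hd, if_pos ⟨hc, hd.1, hd.2⟩]
      · rw [if_neg hd, if_neg (fun H => hd ⟨H.2.1, H.2.2⟩), mul_zero]
    · rw [if_neg hc]
      symm
      apply Finset.sum_eq_zero
      intro σ _
      rw [if_neg (fun H => hc H.1)]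
  rw [Finset.sum_congr rfl (fun g _ => e2 g), Finset.sum_comm]
  refine Finset.sum_congr rfl fun σ _ => ?_
  by_cases hs : ∀ x, col (σ x) = col x
  · rw [if_pos hs]
    unfold pt
    push_cast
    refine Finset.sum_bij' (fun g _ => g * σ⁻¹) (fun g _ => g * σ) (by simp) (by simp) (by simp)
      (by simp) ?_
    intro g _
    have q1 : (∀ x, (u x : ℕ) = col (g x)) ↔
        ∀ x, ((fun x => (u x : ℕ)) ∘ (σ⁻¹ : Equiv.Perm (Fin n))) x =
          col ((g * σ⁻¹ : Equiv.Perm (Fin n)) x) := by
      constructor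
      · intro H x
        exact H (σ⁻¹ x)
      · intro H x
        have := H (σ x)
        simpa using this
    have q2 : (∀ x, row (g x) = row (σ x)) ↔
        ∀ x, row ((g * σ⁻¹ : Equiv.Perm (Fin n)) x) = row x := by
      constructor
      · intro H x
        have := H (σ⁻¹ x)
        simpa using this
      · intro H x
        have := H (σ x)
        simpa using this
    by_cases hc : (∀ x, (u x : ℕ) = col (g x)) ∧ (∀ x, row (g x) = row (σ x))
    · rw [if_pos ⟨hc.1, hs, hc.2⟩, if_pos ⟨q2.1 hc.2, q1.1 hc.1⟩, Equiv.Perm.sign_mul,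
        Equiv.Perm.sign_inv]
      push_cast
      ring
    · rw [if_neg (fun H => hc ⟨H.1, H.2.2⟩), if_neg (fun H => hc ⟨q1.2 H.2, q2.2 H.1⟩)]
  · rw [if_neg hs]
    apply Finset.sum_eq_zero
    intro g _
    rw [if_neg (fun H => hs H.2.1)]

theorem sx33_ev {n : ℕ} (row col : Fin n → ℕ) (rowF : Fin n → Fin n)
    (hr : ∀ x, (rowF x : ℕ) = row x) :
    sx33_theta col rowF (ev row col) = ∑ σ : Equiv.Perm (Fin n),
      if (∀ x, col (σ x) = col x) then ev (col ∘ σ) (row ∘ σ) else 0 := by
  funext u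
  rw [sx33_val row col rowF hr, Finset.sum_apply]
  refine Finset.sum_congr rfl fun σ _ => ?_
  split_ifs with hs
  · unfold ev
    congr 1
    rw [← pt_equiv σ]
    congr 1
    funext x
    simp
  · rfl

theorem sx33_ev_tab {n : ℕ} {row col : Fin n → ℕ} {lam : ℕ → ℕ} (hT : IsStd row col lam)
    {r c : Fin n → ℕ} (hT' : IsTab r c lam) : ∃ h : Equiv.Perm (Fin n),
      ev r c = wact n h (ev row col) := by
  obtain ⟨c', hc', hcc⟩ := exists_std r c lam hT'
  have h1 : ∀ x, ∃ y, row y = r x ∧ col y = c' x := fun x =>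
    std_surj row col lam hT (r x) (c' x) (hc'.lt x)
  choose f hf using h1
  have hinj : Function.Injective f := by
    intro x y hxy
    apply hc'.inj x y
    · rw [← (hf x).1, ← (hf y).1, hxy]
    · rw [← (hf x).2, ← (hf y).2, hxy]
  let k : Equiv.Perm (Fin n) := Equiv.ofBijective f (Finite.injective_iff_bijective.1 hinj)
  have hk : ∀ x, k x = f x := fun x => rfl
  refine ⟨k⁻¹, ?_⟩
  funext w
  have e1 : (wact n k⁻¹ (ev row col)) w = ev row col (w ∘ (k⁻¹ : Equiv.Perm (Fin n))) := rfl
  rw [e1]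
  unfold ev
  congr 1
  rw [pt_col r c c' _ hcc, ← pt_equiv k row col]
  have e2 : row ∘ k = r := by
    funext x
    exact (hf x).1
  have e3 : col ∘ k = c' := by
    funext x
    exact (hf x).2
  rw [e2, e3]
  congr 1
  funext x
  simp

theorem sx33_one {n : ℕ} {row col : Fin n → ℕ} {lam : ℕ → ℕ} (hT : IsTab row col lam) :
    pt col row col = 1 := by
  unfold pt
  rw [Finset.sum_eq_single 1]
  · rw [if_pos ⟨fun _ => rfl, fun _ => rfl⟩]
    simp
  · intro π _ hπ
    rw [if_neg]
    rintro ⟨h1, h2⟩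
    apply hπ
    ext x
    have := hT.inj (π x) x (h1 x) (h2 x).symm
    rw [this]
    rfl
  · intro h
    exact absurd (Finset.mem_univ _) h

/-- the sign twist exchanges the Specht modules of conjugate shapes -/
theorem theta (n : ℕ) (lam : ℕ → ℕ) (h : IsPart lam n) : ∃ θ : FW n →ₗ[ℂ] FW n,
    (∀ (g : Equiv.Perm (Fin n)) (f : FW n),
      θ (wact n g f) = ((Equiv.Perm.sign g : ℤ) : ℂ) • wact n g (θ f)) ∧
    (∀ f ∈ spe n lam, θ f ∈ spe n (cj lam)) ∧ (∀ f ∈ spe n lam, θ f = 0 → f = 0) := by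
  obtain ⟨row, col, hT⟩ := exists_tab lam n h
  let rowF : Fin n → Fin n := fun x => ⟨row x, sx33_row_lt h hT.toIsTab x⟩
  have hr : ∀ x, (rowF x : ℕ) = row x := fun x => rfl
  let colF : Fin n → Fin n := fun x => ⟨col x, sx33_col_lt hT x⟩
  have hcl : (fun x => (colF x : ℕ)) = col := rfl
  have heq := sx33_equiv (n := n) col rowF
  have hev : sx33_theta col rowF (ev row col) ∈ spe n (cj lam) := by
    rw [sx33_ev row col rowF hr]
    refine Submodule.sum_mem _ fun σ _ => ?_
    split_ifs with hs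
    · exact Submodule.subset_span ⟨col ∘ σ, row ∘ σ, (sx33_tr hT).comp σ, rfl⟩
    · exact Submodule.zero_mem _
  have hne : sx33_theta col rowF (ev row col) ≠ 0 := by
    intro h0
    have h1 := congrFun h0 colF
    rw [sx33_val row col rowF hr, hcl] at h1
    have h2 : ∀ σ : Equiv.Perm (Fin n), (if (∀ x, col (σ x) = col x) then
        (pt col row (col ∘ (σ⁻¹ : Equiv.Perm (Fin n))) : ℂ) else 0) =
        if (∀ x, col (σ x) = col x) then (1 : ℂ) else 0 := by
      intro σ
      split_ifs with hs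
      · have : col ∘ (σ⁻¹ : Equiv.Perm (Fin n)) = col := by
          funext x
          have := hs (σ⁻¹ x)
          simpa using this.symm
        rw [this, sx33_one hT.toIsTab]
        simp
      · rfl
    rw [Finset.sum_congr rfl (fun σ _ => h2 σ), Finset.sum_boole] at h1
    have h3 : (1 : Equiv.Perm (Fin n)) ∈
        (univ.filter fun σ : Equiv.Perm (Fin n) => ∀ x, col (σ x) = col x) := by simp
    have h4 := Finset.card_pos.2 ⟨_, h3⟩
    have h5 : ((univ.filter fun σ : Equiv.Perm (Fin n) => ∀ x, col (σ x) = col x).card : ℂ) ≠ 0 := by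
      exact_mod_cast h4.ne'
    exact h5 h1
  have hmap : ∀ f ∈ spe n lam, sx33_theta col rowF f ∈ spe n (cj lam) := by
    intro f hf
    unfold spe at hf
    induction hf using Submodule.span_induction with
    | mem x hx =>
      obtain ⟨r, c, hrc, rfl⟩ := hx
      obtain ⟨k, hk⟩ := sx33_ev_tab hT hrc
      rw [hk, heq]
      exact Submodule.smul_mem _ _ (spe_stable n _ k _ hev)
    | zero => rw [map_zero]; exact Submodule.zero_mem _
    | add x y _ _ hx hy => rw [map_add]; exact Submodule.add_mem _ hx hy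
    | smul a x _ hx => rw [map_smul]; exact Submodule.smul_mem _ _ hx
  refine ⟨sx33_theta col rowF, heq, hmap, ?_⟩
  have hirr := spe_irred n lam h (spe n lam ⊓ LinearMap.ker (sx33_theta col rowF)) inf_le_left
    (by
      intro g f hf
      rw [Submodule.mem_inf, LinearMap.mem_ker] at hf ⊢
      refine ⟨spe_stable n lam g f hf.1, ?_⟩
      rw [heq, hf.2, map_zero, smul_zero])
  rcases hirr with hirr | hirr
  · intro f hf hf0
    have : f ∈ spe n lam ⊓ LinearMap.ker (sx33_theta col rowF) :=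
      Submodule.mem_inf.2 ⟨hf, LinearMap.mem_ker.2 hf0⟩
    rw [hirr] at this
    exact (Submodule.mem_bot ℂ).1 this
  · exfalso
    have : ev row col ∈ spe n lam := Submodule.subset_span ⟨row, col, hT.toIsTab, rfl⟩
    rw [← hirr] at this
    exact hne (LinearMap.mem_ker.1 (Submodule.mem_inf.1 this).2)

end Pool.Saxl
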