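import Mathlib
import Pool.Agent.Helper139_Saxl.Defs
import Pool.Agent.Helper139_Saxl.Defs2
import Pool.Agent.Helper139_Saxl.J01
import Pool.Agent.Helper139_Saxl.J03
import Pool.Agent.Helper139_Saxl.J02
import Pool.Agent.Helper139_Saxl.J04
import Pool.Agent.Helper139_Saxl.J31
import Pool.Agent.Helper139_Saxl.J33

set_option autoImplicit false

/-! Job SX-34: rule C. -/

namespace Pool.Saxl

open Finset CategoryTheory
open scoped CategoryTheory.MonoidalCategory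

/-- the trilinear form -/
def sx34_T {n : ℕ} (f1 f2 f3 : FW n) (w1 w2 w3 : Fin n → Fin n) : ℂ :=
  ∑ g : Equiv.Perm (Fin n), f1 (w1 ∘ g) * f2 (w2 ∘ g) * f3 (w3 ∘ g)

theorem sx34_T_ev {n : ℕ} (r1 c1 r2 c2 r3 c3 : Fin n → ℕ) (w1 w2 w3 : Fin n → Fin n) :
    sx34_T (ev r1 c1) (ev r2 c2) (ev r3 c3) w1 w2 w3 =
      (tri r1 c1 r2 c2 r3 c3 (fun x => (w1 x : ℕ)) (fun x => (w2 x : ℕ)) (fun x => (w3 x : ℕ)) : ℂ) := by
  unfold sx34_T tri ev
  push_cast
  rfl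

theorem sx34_row_lt {n : ℕ} {row col : Fin n → ℕ} {lam : ℕ → ℕ} (h : IsTab row col lam)
    (x : Fin n) : row x < n := by
  have hp : IsPart lam n := by simpa using h.isPart
  by_contra hx
  have h0 := hp.zero (row x) (by omega)
  have h1 := h.card (row x)
  rw [h0, Finset.card_eq_zero] at h1
  have : x ∈ (univ.filter fun y => row y = row x) := by simp
  rw [h1] at this
  simp at this

theorem sx34_wact {n : ℕ} (g : Equiv.Perm (Fin n)) (f : FW n) (w : Fin n → Fin n) :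
    wact n g f w = f (w ∘ g) := rfl

theorem sx34_step {n : ℕ} (lam lam' : ℕ → ℕ) (θ : FW n →ₗ[ℂ] FW n)
    (hθ : ∀ (g : Equiv.Perm (Fin n)) (f : FW n),
      θ (wact n g f) = ((Equiv.Perm.sign g : ℤ) : ℂ) • wact n g (θ f))
    (hinj : ∀ f ∈ spe n lam, θ f = 0 → f = 0) (f : FW n) (hf : f ∈ spe n lam)
    (a : Equiv.Perm (Fin n) → ℂ) (w : Fin n → Fin n) (h : ∑ g, a g * f (w ∘ g) ≠ 0) :
    ∃ u : Fin n → Fin n, ∑ g : Equiv.Perm (Fin n),
      a g * (((Equiv.Perm.sign g : ℤ) : ℂ) * (θ f) (u ∘ g)) ≠ 0 := by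
  set F : FW n := ∑ g, a g • wact n g f with hF
  have hFm : F ∈ spe n lam :=
    Submodule.sum_mem _ fun g _ => Submodule.smul_mem _ _ (spe_stable n lam g f hf)
  have hFw : F w = ∑ g, a g * f (w ∘ g) := by
    rw [hF, Finset.sum_apply]
    rfl
  have hF0 : θ F ≠ 0 := fun h0 => h (by rw [← hFw, hinj F hFm h0]; rfl)
  obtain ⟨u, hu⟩ := Function.ne_iff.1 hF0
  refine ⟨u, ?_⟩
  have : θ F u = ∑ g : Equiv.Perm (Fin n),
      a g * (((Equiv.Perm.sign g : ℤ) : ℂ) * (θ f) (u ∘ g)) := by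
    rw [hF, map_sum, Finset.sum_apply]
    refine Finset.sum_congr rfl fun g _ => ?_
    rw [map_smul, hθ]
    rfl
  rw [← this]
  exact hu

theorem sx34_sign {n : ℕ} (g : Equiv.Perm (Fin n)) :
    ((Equiv.Perm.sign g : ℤ) : ℂ) * ((Equiv.Perm.sign g : ℤ) : ℂ) = 1 := by
  rcases Int.units_eq_one_or (Equiv.Perm.sign g) with h | h <;> simp [h]

/-- rule C -/
theorem G_conj (lam kap mu : ℕ → ℕ) (h : G lam kap mu) : G lam (cj kap) (cj mu) := by
  obtain ⟨n, r1, c1, r2, c2, r3, c3, h1, h2, h3, w1, w2, w3, hne⟩ := h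
  obtain ⟨g1, g2, g3, e1, e2, e3⟩ := tri_word hne
  have p2 : IsPart kap n := by simpa using h2.isPart
  have p3 : IsPart mu n := by simpa using h3.isPart
  have l1 : ∀ x, w1 x < n := fun x => by rw [e1]; exact sx34_row_lt h1 _
  have l2 : ∀ x, w2 x < n := fun x => by rw [e2]; exact sx34_row_lt h2 _
  have l3 : ∀ x, w3 x < n := fun x => by rw [e3]; exact sx34_row_lt h3 _
  obtain ⟨v1, hv1⟩ : ∃ v : Fin n → Fin n, (fun x => (v x : ℕ)) = w1 := ⟨fun x => ⟨w1 x, l1 x⟩, rfl⟩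
  obtain ⟨v2, hv2⟩ : ∃ v : Fin n → Fin n, (fun x => (v x : ℕ)) = w2 := ⟨fun x => ⟨w2 x, l2 x⟩, rfl⟩
  obtain ⟨v3, hv3⟩ : ∃ v : Fin n → Fin n, (fun x => (v x : ℕ)) = w3 := ⟨fun x => ⟨w3 x, l3 x⟩, rfl⟩
  have hT : sx34_T (ev r1 c1) (ev r2 c2) (ev r3 c3) v1 v2 v3 ≠ 0 := by
    rw [sx34_T_ev, hv1, hv2, hv3]
    exact_mod_cast hne
  obtain ⟨θ, hθ1, hθ2, hθ3⟩ := theta n kap p2
  obtain ⟨η, hη1, hη2, hη3⟩ := theta n mu p3
  have m2 : ev r2 c2 ∈ spe n kap := Submodule.subset_span ⟨r2, c2, h2, rfl⟩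
  have m3 : ev r3 c3 ∈ spe n mu := Submodule.subset_span ⟨r3, c3, h3, rfl⟩
  obtain ⟨u2, hu2⟩ := sx34_step kap (cj kap) θ hθ1 hθ3 (ev r2 c2) m2
    (fun g => ev r1 c1 (v1 ∘ g) * ev r3 c3 (v3 ∘ g)) v2 (by
      refine fun h0 => hT ?_
      rw [← h0]
      exact Finset.sum_congr rfl fun g _ => by ring)
  obtain ⟨u3, hu3⟩ := sx34_step mu (cj mu) η hη1 hη3 (ev r3 c3) m3
    (fun g => ev r1 c1 (v1 ∘ g) * (((Equiv.Perm.sign g : ℤ) : ℂ) * (θ (ev r2 c2)) (u2 ∘ g))) v3 (by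
      refine fun h0 => hu2 ?_
      rw [← h0]
      exact Finset.sum_congr rfl fun g _ => by ring)
  have hT' : sx34_T (ev r1 c1) (θ (ev r2 c2)) (η (ev r3 c3)) v1 u2 u3 ≠ 0 := by
    refine fun h0 => hu3 ?_
    rw [← h0]
    refine Finset.sum_congr rfl fun g _ => ?_
    have := sx34_sign g
    linear_combination (ev r1 c1 (v1 ∘ g) * (θ (ev r2 c2)) (u2 ∘ g) * (η (ev r3 c3)) (u3 ∘ g)) * this
  by_contra hG
  have key : ∀ f2 ∈ spe n (cj kap), ∀ f3 ∈ spe n (cj mu),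
      sx34_T (ev r1 c1) f2 f3 v1 u2 u3 = 0 := by
    intro f2 hf2
    refine Submodule.span_induction (p := fun f2 _ => ∀ f3 ∈ spe n (cj mu),
      sx34_T (ev r1 c1) f2 f3 v1 u2 u3 = 0) ?_ ?_ ?_ ?_ hf2
    · rintro f2 ⟨a, b, hab, rfl⟩ f3 hf3
      refine Submodule.span_induction (p := fun f3 _ =>
        sx34_T (ev r1 c1) (ev a b) f3 v1 u2 u3 = 0) ?_ ?_ ?_ ?_ hf3
      · rintro f3 ⟨a', b', hab', rfl⟩
        by_contra hn
        rw [sx34_T_ev] at hn
        exact hG (G_of lam (cj kap) (cj mu) r1 c1 a b a' b' h1 hab hab' _ _ _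
          (fun h0 => hn (by rw [h0]; simp)))
      · simp [sx34_T]
      · intro x y _ _ hx hy
        simp only [sx34_T, Pi.add_apply, mul_add, Finset.sum_add_distrib] at hx hy ⊢
        rw [hx, hy, add_zero]
      · intro c x _ hx
        have : sx34_T (ev r1 c1) (ev a b) (c • x) v1 u2 u3 =
            c * sx34_T (ev r1 c1) (ev a b) x v1 u2 u3 := by
          unfold sx34_T
          rw [Finset.mul_sum]
          refine Finset.sum_congr rfl fun g _ => ?_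
          simp only [Pi.smul_apply, smul_eq_mul]
          ring
        rw [this, hx, mul_zero]
    · intro f3 _
      simp [sx34_T]
    · intro x y _ _ hx hy f3 hf3
      have a1 := hx f3 hf3
      have a2 := hy f3 hf3
      simp only [sx34_T, Pi.add_apply, mul_add, add_mul, Finset.sum_add_distrib] at a1 a2 ⊢
      rw [a1, a2, add_zero]
    · intro c x _ hx f3 hf3
      have : sx34_T (ev r1 c1) (c • x) f3 v1 u2 u3 =
          c * sx34_T (ev r1 c1) x f3 v1 u2 u3 := by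
        unfold sx34_T
        rw [Finset.mul_sum]
        refine Finset.sum_congr rfl fun g _ => ?_
        simp only [Pi.smul_apply, smul_eq_mul]
        ring
      rw [this, hx f3 hf3, mul_zero]
  exact hT' (key _ (hθ2 _ m2) _ (hη2 _ m3))

end Pool.Saxl
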