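import Mathlib
import Pool.Agent.Helper139_Saxl.Defs
import Pool.Agent.Helper139_Saxl.Conf
import Pool.Agent.Helper139_Saxl.Fam
import Pool.Agent.Helper139_Saxl.J04
import Pool.Agent.Helper139_Saxl.J12
import Pool.Agent.Helper139_Saxl.J19
import Pool.Agent.Helper139_Saxl.J21
import Pool.Agent.Helper139_Saxl.J22
import Pool.Agent.Helper139_Saxl.J34
import Pool.Agent.Helper139_Saxl.J02
import Pool.Agent.Helper139_Saxl.J03

set_option autoImplicit false

/-! Job SX-23: Saxl conjecture from the rules. -/

namespace Pool.Saxl

open Finset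

theorem sx23_area_succ (f : ℕ → ℕ) (s : ℕ) : area f (s + 1) = area f s + f s := by
  unfold area
  rw [Finset.sum_range_succ]

theorem sx23_avg (f : ℕ → ℕ) (hf : Antitone f) (s t : ℕ) :
    s * area f (s + t) ≤ (s + t) * area f s := by
  have h0 : ∀ t, s * f (s + t) ≤ area f s := by
    intro t
    unfold area
    calc s * f (s + t) = ∑ _i ∈ range s, f (s + t) := by simp
      _ ≤ ∑ i ∈ range s, f i := Finset.sum_le_sum fun i hi => hf (by
          have := Finset.mem_range.1 hi
          omega)
  induction t with
  | zero => simp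
  | succ t ih =>
    rw [← add_assoc, sx23_area_succ]
    have h1 := h0 t
    calc s * (area f (s + t) + f (s + t)) = s * area f (s + t) + s * f (s + t) := by ring
      _ ≤ (s + t) * area f s + area f s := add_le_add ih h1
      _ = (s + t + 1) * area f s := by ring

theorem sx23_area_const (f : ℕ → ℕ) (K : ℕ) (hK : ∀ i, K ≤ i → f i = 0) (t : ℕ) :
    area f (K + t) = area f K := by
  induction t with
  | zero => rfl
  | succ t ih => rw [← add_assoc, sx23_area_succ, ih, hK _ (by omega), add_zero]

theorem sx23_bandSum : ∀ k : ℕ, 2 * bandSum (sBands k) = k * (k + 1)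
  | 0 => rfl
  | 1 => rfl
  | k + 2 => by
    have ih := sx23_bandSum k
    rw [sBands, bandSum]
    have : 2 * (k + 2) - 1 = 2 * k + 3 := by omega
    rw [this, mul_add, ih]
    ring

theorem sx23_length : ∀ k : ℕ, (sBands k).length = (k + 1) / 2
  | 0 => rfl
  | 1 => rfl
  | k + 2 => by
    rw [sBands, List.length_cons, sx23_length k]
    omega

theorem sx23_take : ∀ (k j : ℕ), bandSum ((sBands k).take j) ≤ j * (2 * k + 1 - 2 * j) ∨
    (sBands k).length < j
  | k, 0 => by simp [bandSum]
  | 0, j + 1 => Or.inr (by simp [sBands])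
  | 1, 1 => Or.inl (by simp [sBands, bandSum])
  | 1, j + 2 => Or.inr (by simp [sBands])
  | k + 2, j + 1 => by
    rcases sx23_take k j with h | h
    · by_cases hj : (sBands k).length < j
      · right
        rw [sBands, List.length_cons]
        omega
      · left
        rw [sx23_length] at hj
        rw [sBands, List.take_succ_cons, bandSum]
        have h1 : 2 * (k + 2) - 1 = 2 * k + 3 := by omega
        obtain ⟨d, hd⟩ : ∃ d, 2 * k + 1 = 2 * j + d := ⟨2 * k + 1 - 2 * j, by omega⟩
        have h2 : 2 * k + 1 - 2 * j = d := by omega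
        have h3 : 2 * (k + 2) + 1 - 2 * (j + 1) = d + 2 := by omega
        rw [h2] at h
        rw [h1, h3]
        have h4 : 2 * k + 3 = 2 * j + d + 2 := by omega
        rw [h4]
        nlinarith
    · right
      rw [sBands, List.length_cons]
      omega

theorem sx23_take_le : ∀ (L : List ℕ) (j : ℕ), bandSum (L.take j) ≤ bandSum L
  | [], j => by simp [bandSum]
  | x :: L, 0 => by simp [bandSum]
  | x :: L, j + 1 => by
    rw [List.take_succ_cons, bandSum, bandSum]
    exact Nat.add_le_add_left (sx23_take_le L j) _

theorem sx23_bands : ∀ k : ℕ, Bands (sBands k)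
  | 0 => trivial
  | 1 => by simp [sBands, Bands]
  | 2 => by simp [sBands, Bands]
  | 3 => by simp [sBands, Bands]
  | k + 4 => by
    have ih := sx23_bands (k + 2)
    rw [sBands] at ih ⊢
    rw [sBands]
    exact ⟨le_refl _, ih⟩

theorem sx23_shape : ∀ (k i : ℕ), bandShape (sBands k) i = k - i
  | 0, i => by simp [sBands, bandShape]
  | 1, 0 => rfl
  | 1, 1 => rfl
  | 1, i + 2 => by
    rw [sBands, bandShape, bandShape]
    omega
  | k + 2, 0 => rfl
  | k + 2, 1 => rfl
  | k + 2, i + 2 => by
    rw [sBands, bandShape, sx23_shape k i]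
    omega

theorem sx23_shape' (k : ℕ) : bandShape (sBands k) = rho k := by
  funext i
  rw [sx23_shape, rho]

theorem sx23_base (mu : ℕ → ℕ) (hmu : IsPart mu 0) : G (rho 0) (rho 0) mu := by
  have h0 : mu = fun _ => 0 := by
    funext i
    exact hmu.zero i (Nat.zero_le i)
  have h1 : rho 0 = fun _ => 0 := by
    funext i
    simp [rho]
  rw [h0, h1]
  have hT : IsTab (fun _ : Fin 0 => 0) (fun _ : Fin 0 => 0) (fun _ => 0) := by
    refine ⟨fun x => x.elim0, fun x => x.elim0, fun i => ?_⟩
    simp
  refine ⟨0, _, _, _, _, _, _, hT, hT, hT, fun _ => 0, fun _ => 0, fun _ => 0, ?_⟩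
  decide

/-- Saxl's conjecture -/
theorem saxl (k : ℕ) (mu : ℕ → ℕ) (hmu : IsPart mu (k * (k + 1) / 2)) : G (rho k) (rho k) mu := by
  induction k generalizing mu with
  | zero => exact sx23_base mu (by simpa using hmu)
  | succ k ih =>
    set n : ℕ := (k + 1) * (k + 1 + 1) / 2 with hn
    have h2n : 2 * n = (k + 1) * (k + 2) := by
      rw [hn]
      have : Even ((k + 1) * (k + 1 + 1)) := Nat.even_mul_succ_self (k + 1)
      rw [Nat.mul_div_cancel' this.two_dvd]
    have h2n' : 2 * (k * (k + 1) / 2) = k * (k + 1) :=
      Nat.mul_div_cancel' (Nat.even_mul_succ_self k).two_dvd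
    rcases Nat.lt_or_ge k (mu 0) with hk | hk
    · obtain ⟨nu, hnu, hs, -⟩ := greedy 1 le_rfl mu n (k + 1) hmu (by
        rw [sx23_area_succ]
        exact le_add_left hk)
      have hsub : n - (k + 1) = k * (k + 1) / 2 := by
        have : (k + 1) * (k + 2) = k * (k + 1) + 2 * (k + 1) := by ring
        omega
      refine G_strip (rho (k + 1)) mu nu n (isPart_rho (k + 1)) ?_ hmu ?_ hs ?_
      · intro i
        unfold rho
        omega
      · exact hnu
      · have e : (fun i => rho (k + 1) (i + 1)) = rho k := by
          funext i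
          unfold rho
          omega
        rw [e]
        rw [hsub] at hnu
        exact ih nu hnu
    · set mu' : ℕ → ℕ := cj mu with hmu'
      have hp : IsPart mu' n := isPart_cj mu n hmu
      have hz : ∀ i, k ≤ i → mu' i = 0 := by
        intro i hi
        by_contra hne
        have := (lt_cj_iff mu n hmu 0 i).1 (Nat.pos_of_ne_zero hne)
        omega
      have hkn : k ≤ n := by nlinarith
      have hfull : ∀ s, k ≤ s → area mu' s = n := by
        intro s hs
        obtain ⟨t, rfl⟩ := Nat.exists_eq_add_of_le hs
        rw [sx23_area_const mu' k hz]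
        obtain ⟨u, hu⟩ := Nat.exists_eq_add_of_le hkn
        rw [← sx23_area_const mu' k hz u, ← hu]
        exact hp.sum
      have hbs : bandSum (sBands (k + 1)) = n := by
        have := sx23_bandSum (k + 1)
        have e : (k + 1) * (k + 1 + 1) = (k + 1) * (k + 2) := rfl
        omega
      have hPV : PV (sBands (k + 1)) mu' := by
        refine PV_of_area _ (sx23_bands _) mu' (by rw [hbs]; exact hp) ?_
        intro j hj
        rcases Nat.lt_or_ge (4 * j) k with h4 | h4
        · rcases sx23_take (k + 1) j with h | h
          · refine h.trans ?_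
            obtain ⟨t, ht⟩ := Nat.exists_eq_add_of_le h4.le
            have havg := sx23_avg mu' hp.anti (4 * j) t
            rw [← ht, hfull k le_rfl] at havg
            have hk0 : 0 < k := by omega
            have h5 : k * (2 * j * (k + 2)) ≤ k * area mu' (4 * j) := by
              refine le_trans ?_ havg
              have : 4 * j * n = 2 * j * ((k + 1) * (k + 2)) := by
                rw [← h2n]; ring
              rw [this]
              nlinarith
            have h6 : 2 * j * (k + 2) ≤ area mu' (4 * j) := Nat.le_of_mul_le_mul_left h5 hk0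
            refine le_trans ?_ h6
            have h7 : 2 * (k + 1) + 1 - 2 * j ≤ 2 * (k + 2) := by omega
            calc j * (2 * (k + 1) + 1 - 2 * j) ≤ j * (2 * (k + 2)) := Nat.mul_le_mul_left _ h7
              _ = 2 * j * (k + 2) := by ring
          · omega
        · rw [hfull _ h4, ← hbs]
          exact sx23_take_le _ _
      have h1 := G_of_PV (sBands (k + 1)) (sx23_bands _) mu' hPV
      rw [sx23_shape'] at h1
      have h2 := G_conj _ _ _ h1
      rw [cj_rho, hmu', cj_cj mu n hmu] at h2
      exact h2

end Pool.Saxl
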