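import Mathlib
import Pool.Agent.Helper139_Saxl.Defs
import Pool.Agent.Helper139_Saxl.Ga
import Pool.Agent.Helper139_Saxl.J04
import Pool.Agent.Helper139_Saxl.J21
import Pool.Agent.Helper139_Saxl.G02
import Pool.Agent.Helper139_Saxl.J34
import Pool.Agent.Helper139_Saxl.J23
import Pool.Agent.Helper139_Saxl.G07
import Pool.Agent.Helper139_Saxl.G04
import Pool.Agent.Helper139_Saxl.G08
import Pool.Agent.Helper139_Saxl.G09

set_option autoImplicit false

/-! Job GA-10: type A, combinatorial theorem. -/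

namespace Pool.Saxl

open Finset

theorem ga10_tri (m s : ℕ) :
    (m + 1) * (m + 1 + 1) / 2 + (s + 1) - (m + 1 + 1) = m * (m + 1) / 2 + s := by
  have h1 : (m + 1) * (m + 1 + 1) = m * (m + 1) + 2 * (m + 1) := by ring
  rw [h1, Nat.add_mul_div_left _ _ (by norm_num : 0 < 2)]
  omega

theorem ga10_row (m s : ℕ) (hs : s ≤ m) (ih : ∀ nu : ℕ → ℕ, IsPart nu (m * (m + 1) / 2 + s) →
    ∃ lam kap : ℕ → ℕ, InD m s lam ∧ InD m s kap ∧ G lam kap nu)
    (mu : ℕ → ℕ) (hmu : IsPart mu ((m + 1) * (m + 1 + 1) / 2 + (s + 1))) (h0 : m + 1 + 1 ≤ mu 0) :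
    ∃ lam kap : ℕ → ℕ, InD (m + 1) (s + 1) lam ∧ InD (m + 1) (s + 1) kap ∧ G lam kap mu := by
  have harea : area mu 1 = mu 0 := by
    rw [area, sum_range_one]
  obtain ⟨nu, hnu, hstrip, _⟩ := greedy 1 (le_refl 1) mu _ (m + 1 + 1) hmu (by rw [harea]; exact h0)
  rw [ga10_tri] at hnu
  obtain ⟨lam, kap, hl, hk, hG⟩ := ih nu hnu
  have hl2 : InD (m + 1) (s + 1) (cons1 (m + 1 + 1) lam) :=
    InD_cons1 (m + 1) (s + 1) (by omega) (by omega) lam (by simpa using hl)
  have hk2 : InD (m + 1) (s + 1) (cons1 (m + 1 + 1) kap) :=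
    InD_cons1 (m + 1) (s + 1) (by omega) (by omega) kap (by simpa using hk)
  have e0 : ∀ f : ℕ → ℕ, cons1 (m + 1 + 1) f 0 = m + 1 + 1 := fun f => by simp [cons1]
  have e1 : ∀ f : ℕ → ℕ, (fun i => cons1 (m + 1 + 1) f (i + 1)) = f := fun f => by
    funext i
    simp [cons1]
  refine ⟨_, _, hl2, hk2, ?_⟩
  refine G_strip2 _ _ mu nu _ hl2.part hk2.part ?_ ?_ hmu ?_ hstrip ?_
  · rw [e0, e0]
  · intro i hi
    rw [e0] at hi ⊢
    refine (min_le_left _ _).trans ?_
    by_contra hcon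
    rw [not_le, lt_cj_iff _ _ hl2.part] at hcon
    have h3 := hl2.sub (m + 1 + 1 - i)
    omega
  · rw [e0, ga10_tri]
    exact hnu
  · rw [e1, e1]
    exact hG

/-- every `mu` occurs in the product of two shapes between the transposed orbit and the orbit -/
theorem typeA_comb (m s : ℕ) (hs : s ≤ m) (mu : ℕ → ℕ) (hmu : IsPart mu (m * (m + 1) / 2 + s)) :
    ∃ lam kap : ℕ → ℕ, InD m s lam ∧ InD m s kap ∧ G lam kap mu := by
  induction m generalizing s mu with
  | zero =>
    obtain rfl : s = 0 := by omega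
    have h1 := InD_OO 0 0 (le_refl 0)
    rw [OO_zero] at h1
    exact ⟨rho 0, rho 0, h1, h1, saxl 0 mu (by simpa using hmu)⟩
  | succ m ih =>
    rcases s with _ | s
    · have h1 := InD_OO (m + 1) 0 (Nat.zero_le _)
      rw [OO_zero] at h1
      exact ⟨rho (m + 1), rho (m + 1), h1, h1, saxl (m + 1) mu (by simpa using hmu)⟩
    · have hsm : s ≤ m := by omega
      by_cases hA : m + 1 + 1 ≤ mu 0
      · exact ga10_row m s hsm (fun nu hnu => ih s hsm nu hnu) mu hmu hA
      · by_cases hB : m + 1 + 1 ≤ cj mu 0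
        · obtain ⟨lam, kap, hl, hk, hG⟩ := ga10_row m s hsm (fun nu hnu => ih s hsm nu hnu) (cj mu)
            (isPart_cj mu _ hmu) hB
          have h2 := G_conj lam kap (cj mu) hG
          rw [cj_cj mu _ hmu] at h2
          exact ⟨lam, cj kap, hl, InD_cj (m + 1) (s + 1) hs kap hk, h2⟩
        · have hrow : mu (m + 1) = 0 := by
            by_contra hne
            have h3 : 0 < mu (m + 1) := Nat.pos_of_ne_zero hne
            rw [← lt_cj_iff mu _ hmu] at h3
            omega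
          obtain ⟨lam, kap, hl, hk, hCV⟩ := CV_main (m + 1) (s + 1) (by omega) hs mu hmu
            (fatW (m + 1) (s + 1) hs mu hmu hrow)
          exact ⟨lam, kap, hl, hk, CV_G lam kap (m + 1 + 1) mu hCV⟩

end Pool.Saxl
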