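import Mathlib
import Pool.Agent.Helper139_Saxl.Defs
import Pool.Agent.Helper139_Saxl.Ga
import Pool.Agent.Helper139_Saxl.J04
import Pool.Agent.Helper139_Saxl.G07

set_option autoImplicit false

/-! Job GA-11: the minimal strict partition. -/

namespace Pool.Saxl

open Finset

theorem ga11_step (xi : ℕ → ℕ) (n : ℕ) (h : IsPart xi n) (hst : Strict xi) (a j : ℕ) :
    xi (a + j) ≤ xi a - j := by
  induction j with
  | zero => simp
  | succ j ih =>
    rcases hst (a + j) with h1 | h1
    · have : a + (j + 1) = a + j + 1 := by ring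
      rw [this]; omega
    · have h2 : xi (a + (j + 1)) ≤ xi (a + j) := h.anti (by omega)
      omega

theorem ga11_area_succ (mu : ℕ → ℕ) (t : ℕ) : area mu (t + 1) = area mu t + mu t := by
  unfold area; rw [sum_range_succ]

theorem OO_min (m s : ℕ) (hs : s ≤ m) (xi : ℕ → ℕ) (h : IsPart xi (m * (m + 1) / 2 + s))
    (hst : Strict xi) : Dom (OO m s) xi := by
  intro t
  by_contra hcon
  have hex : ∃ t, area xi t < area (OO m s) t := ⟨t, by omega⟩
  classical
  obtain ⟨t, ht, hmin⟩ : ∃ t, area xi t < area (OO m s) t ∧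
      ∀ u, u < t → area (OO m s) u ≤ area xi u :=
    ⟨Nat.find hex, Nat.find_spec hex, fun u hu => by
      have := Nat.find_min hex hu
      omega⟩
  have hOO := isPart_OO m s hs
  obtain ⟨a, rfl⟩ : ∃ a, t = a + 1 := by
    rcases t with _ | a
    · simp [area] at ht
    · exact ⟨a, rfl⟩
  have h1 := hmin a (by omega)
  have e1 := ga11_area_succ xi a
  have e2 := ga11_area_succ (OO m s) a
  have h2 : xi a < OO m s a := by omega
  have h3 : ∀ j, xi (a + j) ≤ OO m s (a + j) := by
    intro j
    have h4 := ga11_step xi _ h hst a j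
    unfold OO at h2 ⊢
    split_ifs at h2 ⊢ <;> omega
  have h4 : ∀ k, area xi (a + 1 + k) < area (OO m s) (a + 1 + k) := by
    intro k
    induction k with
    | zero => exact ht
    | succ k ih =>
      have e3 := ga11_area_succ xi (a + 1 + k)
      have e4 := ga11_area_succ (OO m s) (a + 1 + k)
      have h5 := h3 (1 + k)
      have h6 : a + (1 + k) = a + 1 + k := by ring
      rw [h6] at h5
      have h7 : a + 1 + (k + 1) = a + 1 + k + 1 := by ring
      rw [h7]
      omega
  have han : a < m * (m + 1) / 2 + s := by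
    by_contra hge
    have := hOO.zero a (by omega)
    omega
  have h5 := h4 (m * (m + 1) / 2 + s - (a + 1))
  have h6 : a + 1 + (m * (m + 1) / 2 + s - (a + 1)) = m * (m + 1) / 2 + s := by omega
  rw [h6] at h5
  have h7 := h.sum
  have h8 := hOO.sum
  unfold area at h5
  omega

theorem ga11_exists (n : ℕ) : ∃ m s : ℕ, s ≤ m ∧ n = m * (m + 1) / 2 + s := by
  induction n with
  | zero => exact ⟨0, 0, le_rfl, rfl⟩
  | succ n ih =>
    obtain ⟨m, s, hs, hn⟩ := ih
    rcases Nat.lt_or_ge s m with h | h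
    · exact ⟨m, s + 1, h, by omega⟩
    · refine ⟨m + 1, 0, by omega, ?_⟩
      have hsm : s = m := by omega
      have e : (m + 1) * (m + 1 + 1) = m * (m + 1) + 2 * (m + 1) := by ring
      rw [e]
      omega

theorem ga11_strict (m s : ℕ) (hs : s ≤ m) : Strict (OO m s) := by
  intro i
  unfold OO
  split_ifs <;> omega

theorem exists_OO (n : ℕ) (O : ℕ → ℕ) (hO : IsPart O n) (hst : Strict O)
    (hmin : ∀ xi : ℕ → ℕ, IsPart xi n → Strict xi → Dom O xi) :
    ∃ m s : ℕ, s ≤ m ∧ n = m * (m + 1) / 2 + s ∧ O = OO m s := by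
  obtain ⟨m, s, hs, hn⟩ := ga11_exists n
  refine ⟨m, s, hs, hn, ?_⟩
  subst hn
  have h1 := hmin (OO m s) (isPart_OO m s hs) (ga11_strict m s hs)
  have h2 := OO_min m s hs O hO hst
  have h3 : ∀ t, area O t = area (OO m s) t := fun t => le_antisymm (h1 t) (h2 t)
  funext i
  have e1 := ga11_area_succ O i
  have e2 := ga11_area_succ (OO m s) i
  have e3 := h3 i
  have e4 := h3 (i + 1)
  omega

end Pool.Saxl
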