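import Mathlib
import Pool.Agent.Helper139_Saxl.Defs2
import Pool.Agent.Helper139_Saxl.J31

set_option autoImplicit false

/-! The Specht module as an object of `FDRep`. -/

namespace Pool.Saxl

open Finset CategoryTheory
open scoped CategoryTheory.MonoidalCategory

/-- the Specht module as a subrepresentation -/
def spSub (n : ℕ) (lam : ℕ → ℕ) : Subrepresentation (wact n) where
  toSubmodule := spe n lam
  apply_mem_toSubmodule := fun g f hf => spe_stable n lam g f hf

instance speFin (n : ℕ) (lam : ℕ → ℕ) : Module.Finite ℂ (spSub n lam).toSubmodule :=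
  FiniteDimensional.finiteDimensional_submodule _

/-- the Specht module as an object of `FDRep` -/
noncomputable def Sp (n : ℕ) (lam : ℕ → ℕ) : FDRep ℂ (Equiv.Perm (Fin n)) :=
  FDRep.of (spSub n lam).toRepresentation

end Pool.Saxl
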