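import Mathlib
import Pool.Agent.Helper139_Saxl.Defs
import Pool.Agent.Helper139_Saxl.Defs2
import Pool.Agent.Helper139_Saxl.SpDef
import Pool.Agent.Helper139_Saxl.J03
import Pool.Agent.Helper139_Saxl.J02
import Pool.Agent.Helper139_Saxl.J31

set_option autoImplicit false

/-! Job GA-12: Specht modules: tensor products for pairs, irreducibility. -/

namespace Pool.Saxl

open Finset CategoryTheory
open scoped CategoryTheory.MonoidalCategory

theorem ga12_row_lt {n : ℕ} {row col : Fin n → ℕ} {mu : ℕ → ℕ} (h : IsTab row col mu)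
    (hp : IsPart mu n) (x : Fin n) : row x < n := by
  by_contra hcon
  push Not at hcon
  have h0 := hp.zero (row x) hcon
  have h1 := h.card (row x)
  rw [h0, Finset.card_eq_zero] at h1
  have : x ∈ (univ.filter fun y => row y = row x) := by simp
  rw [h1] at this
  simp at this

open TensorProduct in
theorem ga12_gen {H V1 V2 W : Type} [Group H] [Fintype H] [AddCommGroup V1] [Module ℂ V1]
    [FiniteDimensional ℂ V1] [AddCommGroup V2] [Module ℂ V2] [FiniteDimensional ℂ V2]
    [AddCommGroup W] [Module ℂ W] [FiniteDimensional ℂ W] (ρ1 : Representation ℂ H V1)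
    (ρ2 : Representation ℂ H V2) (σ : Representation ℂ H W)
    (L : TensorProduct ℂ (TensorProduct ℂ V1 V2) W →ₗ[ℂ] ℂ) (hL : L ≠ 0)
    (hinv : ∀ h a b c, L ((ρ1 h a ⊗ₜ[ℂ] ρ2 h b) ⊗ₜ[ℂ] σ h c) = L ((a ⊗ₜ[ℂ] b) ⊗ₜ[ℂ] c)) :
    ∑ g : H, ρ1.character g * ρ2.character g * σ.character g ≠ 0 := by
  classical
  set T := Representation.tprod (Representation.tprod ρ1 ρ2) σ with hT
  have hi : L ∈ Representation.invariants T.dual := by
    rw [Representation.mem_invariants]
    intro g
    have : L ∘ₗ T g⁻¹ = L := by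
      refine TensorProduct.ext_threefold (fun a b c => ?_)
      exact hinv g⁻¹ a b c
    exact this
  have hc0 : (Nat.card H : ℂ) ≠ 0 := by exact_mod_cast Nat.card_pos.ne'
  let _ : Invertible (Nat.card H : ℂ) := invertibleOfNonzero hc0
  have hfr := Representation.card_inv_mul_sum_char_eq_finrank T.dual
  have hpos : Module.finrank ℂ (Representation.invariants T.dual) ≠ 0 := by
    have : Nontrivial (Representation.invariants T.dual) :=
      ⟨⟨⟨_, hi⟩, 0, fun hc => hL (congrArg Subtype.val hc)⟩⟩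
    exact Module.finrank_pos.ne'
  intro hzero
  apply hpos
  have hsum : ∑ g : H, T.dual.character g = 0 := by
    rw [← hzero]
    refine Fintype.sum_equiv (Equiv.inv _) _ _ (fun g => ?_)
    rw [Representation.char_dual, hT, Representation.char_tensor, Representation.char_tensor]
    rfl
  rw [hsum, mul_zero] at hfr
  exact_mod_cast hfr.symm

/-- the functional on one factor -/
noncomputable def ga12_phi (n : ℕ) (lam : ℕ → ℕ) (w : Fin n → Fin n) (g : Equiv.Perm (Fin n)) :
    (spSub n lam).toSubmodule →ₗ[ℂ] ℂ :=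
  (LinearMap.proj (R := ℂ) (φ := fun _ : Fin n → Fin n => ℂ) (w ∘ g)) ∘ₗ
    (spSub n lam).toSubmodule.subtype

theorem ga12_phi_apply (n : ℕ) (lam : ℕ → ℕ) (w : Fin n → Fin n) (g : Equiv.Perm (Fin n))
    (f : (spSub n lam).toSubmodule) : ga12_phi n lam w g f = f.1 (w ∘ g) := rfl

theorem ga12_phi_rho (n : ℕ) (lam : ℕ → ℕ) (w : Fin n → Fin n) (g h : Equiv.Perm (Fin n))
    (v : (spSub n lam).toSubmodule) :
    ga12_phi n lam w g ((spSub n lam).toRepresentation h v) = ga12_phi n lam w (g * h) v := rfl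

noncomputable def ga12_L (n : ℕ) (lam kap mu : ℕ → ℕ) (w1 w2 w3 : Fin n → Fin n) :
    TensorProduct ℂ (TensorProduct ℂ (spSub n lam).toSubmodule (spSub n kap).toSubmodule)
      (spSub n mu).toSubmodule →ₗ[ℂ] ℂ :=
  ∑ g : Equiv.Perm (Fin n), (LinearMap.mul' ℂ ℂ) ∘ₗ TensorProduct.map
    ((LinearMap.mul' ℂ ℂ) ∘ₗ TensorProduct.map (ga12_phi n lam w1 g) (ga12_phi n kap w2 g))
    (ga12_phi n mu w3 g)

theorem ga12_L_apply (n : ℕ) (lam kap mu : ℕ → ℕ) (w1 w2 w3 : Fin n → Fin n)
    (a : (spSub n lam).toSubmodule) (b : (spSub n kap).toSubmodule)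
    (c : (spSub n mu).toSubmodule) :
    ga12_L n lam kap mu w1 w2 w3 ((a ⊗ₜ[ℂ] b) ⊗ₜ[ℂ] c)
      = ∑ g : Equiv.Perm (Fin n),
        ga12_phi n lam w1 g a * ga12_phi n kap w2 g b * ga12_phi n mu w3 g c := by
  unfold ga12_L
  rw [LinearMap.sum_apply]
  refine Finset.sum_congr rfl (fun g _ => ?_)
  simp

theorem ga12_L_inv (n : ℕ) (lam kap mu : ℕ → ℕ) (w1 w2 w3 : Fin n → Fin n)
    (h : Equiv.Perm (Fin n)) (a : (spSub n lam).toSubmodule) (b : (spSub n kap).toSubmodule)
    (c : (spSub n mu).toSubmodule) :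
    ga12_L n lam kap mu w1 w2 w3 (((spSub n lam).toRepresentation h a ⊗ₜ[ℂ]
      (spSub n kap).toRepresentation h b) ⊗ₜ[ℂ] (spSub n mu).toRepresentation h c)
      = ga12_L n lam kap mu w1 w2 w3 ((a ⊗ₜ[ℂ] b) ⊗ₜ[ℂ] c) := by
  rw [ga12_L_apply, ga12_L_apply]
  refine Fintype.sum_equiv (Equiv.mulRight h) _ _ (fun g => ?_)
  rw [ga12_phi_rho, ga12_phi_rho, ga12_phi_rho]
  rfl

theorem ga12_sum_ne (n : ℕ) (lam kap mu : ℕ → ℕ) (h' : IsPart mu n) (hG : G lam kap mu) :
    ∑ g : Equiv.Perm (Fin n), (spSub n lam).toRepresentation.character g *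
      (spSub n kap).toRepresentation.character g *
      (spSub n mu).toRepresentation.character g ≠ 0 := by
  classical
  obtain ⟨r1, c1, r2, c2, r3, c3, t1, t2, t3, w1, w2, w3, hw⟩ :=
    (G_iff (Ω := Fin n) lam kap mu (Or.inr (Or.inr (by simpa using h')))).mp hG
  have h1 : IsPart lam n := by simpa using t1.toIsTab.isPart
  have h2 : IsPart kap n := by simpa using t2.toIsTab.isPart
  obtain ⟨g1, g2, g3, e1, e2, e3⟩ := tri_word hw
  have l1 : ∀ x, w1 x < n := fun x => by rw [e1]; exact ga12_row_lt t1.toIsTab h1 _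
  have l2 : ∀ x, w2 x < n := fun x => by rw [e2]; exact ga12_row_lt t2.toIsTab h2 _
  have l3 : ∀ x, w3 x < n := fun x => by rw [e3]; exact ga12_row_lt t3.toIsTab h' _
  set v1 : Fin n → Fin n := fun x => ⟨w1 x, l1 x⟩ with hv1
  set v2 : Fin n → Fin n := fun x => ⟨w2 x, l2 x⟩ with hv2
  set v3 : Fin n → Fin n := fun x => ⟨w3 x, l3 x⟩ with hv3
  have m1 : ev r1 c1 ∈ (spSub n lam).toSubmodule :=
    Submodule.subset_span ⟨r1, c1, t1.toIsTab, rfl⟩
  have m2 : ev r2 c2 ∈ (spSub n kap).toSubmodule :=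
    Submodule.subset_span ⟨r2, c2, t2.toIsTab, rfl⟩
  have m3 : ev r3 c3 ∈ (spSub n mu).toSubmodule :=
    Submodule.subset_span ⟨r3, c3, t3.toIsTab, rfl⟩
  have hL : ga12_L n lam kap mu v1 v2 v3 ≠ 0 := by
    intro h0
    have h1 := ga12_L_apply n lam kap mu v1 v2 v3 ⟨_, m1⟩ ⟨_, m2⟩ ⟨_, m3⟩
    rw [h0, LinearMap.zero_apply] at h1
    simp only [ga12_phi_apply] at h1
    apply hw
    have h2 : ((tri r1 c1 r2 c2 r3 c3 w1 w2 w3 : ℤ) : ℂ) = 0 := by
      rw [h1]
      unfold tri
      push_cast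
      rfl
    exact_mod_cast h2
  exact ga12_gen _ _ _ (ga12_L n lam kap mu v1 v2 v3) hL
    (fun h a b c => ga12_L_inv n lam kap mu v1 v2 v3 h a b c)

theorem ga12_char_inv {n : ℕ} {V : Type} [AddCommGroup V] [Module ℂ V] [FiniteDimensional ℂ V]
    (ρ : Representation ℂ (Equiv.Perm (Fin n)) V) (g : Equiv.Perm (Fin n)) :
    ρ.character g⁻¹ = ρ.character g := by
  have hc : IsConj g g⁻¹ := by
    rw [Equiv.Perm.isConj_iff_cycleType_eq, Equiv.Perm.cycleType_inv]
  obtain ⟨c, hc⟩ := isConj_iff.mp hc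
  rw [← hc, Representation.char_conj]



/-- nonvanishing of `tri` gives a constituent of the tensor product -/
theorem Sp_tensor2 (n : ℕ) (lam kap mu : ℕ → ℕ) (h : IsPart mu n) (hG : G lam kap mu) :
    ∃ f : Representation.IntertwiningMap (spSub n mu).toRepresentation
      ((spSub n lam).toRepresentation.tprod (spSub n kap).toRepresentation), f ≠ 0 := by
  classical
  have hc0 : (Nat.card (Equiv.Perm (Fin n)) : ℂ) ≠ 0 := by exact_mod_cast Nat.card_pos.ne'
  let _ : Invertible (Nat.card (Equiv.Perm (Fin n)) : ℂ) := invertibleOfNonzero hc0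
  have hs := Representation.card_inv_mul_sum_char_mul_char_eq_finrank
    (V := (spSub n mu).toSubmodule)
    (W := TensorProduct ℂ (spSub n lam).toSubmodule (spSub n kap).toSubmodule)
    (spSub n mu).toRepresentation
    ((spSub n lam).toRepresentation.tprod (spSub n kap).toRepresentation)
  have hne := ga12_sum_ne n lam kap mu h hG
  have hfr : Module.finrank ℂ (Representation.IntertwiningMap (spSub n mu).toRepresentation
      ((spSub n lam).toRepresentation.tprod (spSub n kap).toRepresentation)) ≠ 0 := by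
    intro h0
    rw [h0] at hs
    simp only [Nat.cast_zero, mul_eq_zero, inv_eq_zero] at hs
    rcases hs with hs | hs
    · exact hc0 hs
    · apply hne
      rw [← hs]
      refine Finset.sum_congr rfl (fun g _ => ?_)
      rw [ga12_char_inv, Representation.char_tensor, Pi.mul_apply]
  have : Nontrivial (Representation.IntertwiningMap (spSub n mu).toRepresentation
      ((spSub n lam).toRepresentation.tprod (spSub n kap).toRepresentation)) := by
    by_contra hcon
    rw [not_nontrivial_iff_subsingleton] at hcon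
    exact hfr Module.finrank_zero_of_subsingleton
  exact exists_ne 0

theorem Sp_irr (n : ℕ) (lam : ℕ → ℕ) (h : IsPart lam n) :
    (spSub n lam).toRepresentation.IsIrreducible := by
  have hne := spe_ne_bot n lam h
  have hnt : Nontrivial (Subrepresentation (spSub n lam).toRepresentation) := by
    refine ⟨⟨⊥, ⊤, ?_⟩⟩
    intro hbt
    apply hne
    rw [eq_bot_iff]
    intro f hf
    have h1 : (⟨f, hf⟩ : (spSub n lam).toSubmodule) ∈
        (⊤ : Subrepresentation (spSub n lam).toRepresentation).toSubmodule := by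
      change _ ∈ (⊤ : Submodule ℂ (spSub n lam).toSubmodule)
      trivial
    rw [← hbt] at h1
    have h2 : (⟨f, hf⟩ : (spSub n lam).toSubmodule) ∈
      (⊥ : Submodule ℂ (spSub n lam).toSubmodule) := h1
    rw [Submodule.mem_bot] at h2
    exact (Submodule.mem_bot ℂ).2 (congrArg Subtype.val h2)
  refine ⟨fun U => ?_⟩
  have hU : U.toSubmodule.map (spSub n lam).toSubmodule.subtype ≤ spe n lam := by
    rintro _ ⟨u, _, rfl⟩
    exact u.2
  have hst : ∀ (g : Equiv.Perm (Fin n)) (f : FW n),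
      f ∈ U.toSubmodule.map (spSub n lam).toSubmodule.subtype →
      wact n g f ∈ U.toSubmodule.map (spSub n lam).toSubmodule.subtype := by
    rintro g _ ⟨u, hu, rfl⟩
    exact ⟨(spSub n lam).toRepresentation g u, U.apply_mem_toSubmodule g hu, rfl⟩
  rcases spe_irred n lam h _ hU hst with h1 | h1
  · left
    apply Subrepresentation.toSubmodule_injective
    change U.toSubmodule = (⊥ : Submodule ℂ (spSub n lam).toSubmodule)
    rw [eq_bot_iff]
    intro u hu
    have h2 : u.1 ∈ U.toSubmodule.map (spSub n lam).toSubmodule.subtype := ⟨u, hu, rfl⟩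
    rw [h1, Submodule.mem_bot] at h2
    rw [Submodule.mem_bot]
    exact Subtype.ext h2
  · right
    apply Subrepresentation.toSubmodule_injective
    change U.toSubmodule = (⊤ : Submodule ℂ (spSub n lam).toSubmodule)
    rw [eq_top_iff]
    intro u _
    have h2 : u.1 ∈ U.toSubmodule.map (spSub n lam).toSubmodule.subtype := by
      rw [h1]; exact u.2
    obtain ⟨u', hu', he⟩ := h2
    have h3 : u' = u := Subtype.ext he
    rw [← h3]
    exact hu'

end Pool.Saxl
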