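import Mathlib
import Pool.Agent.Helper139_Saxl.Defs2

set_option autoImplicit false

/-! Labels of representations of symmetric groups. -/

namespace Pool.Saxl

open Finset CategoryTheory
open scoped CategoryTheory.MonoidalCategory

/-- `t` is a tableau of shape `a`: a bijection from the `n` letters to the cells `(i, j)`, `j < a i`. -/
def IsTableau {n : ℕ} (a : ℕ → ℕ) (t : Fin n → ℕ × ℕ) : Prop :=
  Function.Injective t ∧ ∀ p : ℕ × ℕ, (∃ x, t x = p) ↔ p.2 < a p.1

/-- The representation `ρ` contains the representation `σ`. -/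
def Contains {G : Type*} [Group G] {M U : Type*} [AddCommGroup M] [Module ℂ M] [AddCommGroup U]
    [Module ℂ U] (ρ : Representation ℂ G M) (σ : Representation ℂ G U) : Prop :=
  ∃ f : Representation.IntertwiningMap σ ρ, f ≠ 0

/-- The irreducible representation `ρ` of `S_n` has the label `a`: for some tableau of shape `a` there
is a nonzero vector fixed by all transpositions of two letters in the same row and a nonzero vector
negated by all transpositions of two letters in the same column. -/
def HasLabel {n : ℕ} {V : Type*} [AddCommGroup V] [Module ℂ V]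
    (ρ : Representation ℂ (Equiv.Perm (Fin n)) V) (a : ℕ → ℕ) : Prop :=
  ∃ t : Fin n → ℕ × ℕ, IsTableau a t ∧
    (∃ v : V, v ≠ 0 ∧ ∀ x y, (t x).1 = (t y).1 → ρ (Equiv.swap x y) v = v) ∧
    (∃ w : V, w ≠ 0 ∧ ∀ x y, x ≠ y → (t x).2 = (t y).2 → ρ (Equiv.swap x y) w = -w)

end Pool.Saxl
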