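import Mathlib
import Pool.Agent.Helper139_Saxl.Defs
import Pool.Agent.Helper139_Saxl.Lab
import Pool.Agent.Helper139_Saxl.Defs2
import Pool.Agent.Helper139_Saxl.SpDef
import Pool.Agent.Helper139_Saxl.J01
import Pool.Agent.Helper139_Saxl.J02
import Pool.Agent.Helper139_Saxl.J31

set_option autoImplicit false

/-! Job GA-13: Specht modules have their label. -/

namespace Pool.Saxl

open Finset CategoryTheory
open scoped CategoryTheory.MonoidalCategory

theorem ga13_swap_inv {n : ℕ} (f : Fin n → ℕ) {x y : Fin n} (h : f x = f y) (z : Fin n) :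
    f (Equiv.swap x y z) = f z := by
  by_cases h1 : z = x
  · rw [h1, Equiv.swap_apply_left, h]
  · by_cases h2 : z = y
    · rw [h2, Equiv.swap_apply_right, h]
    · rw [Equiv.swap_apply_of_ne_of_ne h1 h2]

open Classical in
/-- the permutations which preserve the rows -/
noncomputable def ga13_R {n : ℕ} (row : Fin n → ℕ) : Finset (Equiv.Perm (Fin n)) :=
  univ.filter (fun g => ∀ x, row (g x) = row x)

theorem ga13_ev_row {n : ℕ} {row col : Fin n → ℕ} {lam : ℕ → ℕ} (hs : IsStd row col lam)
    (hlt : ∀ x, row x < n) (g : Equiv.Perm (Fin n)) (hg : ∀ x, row (g x) = row x) :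
    ev row col ((fun x => (⟨row x, hlt x⟩ : Fin n)) ∘ g) = 1 := by
  unfold ev
  have h1 : (fun x => ((((fun x => (⟨row x, hlt x⟩ : Fin n)) ∘ g) x : Fin n) : ℕ)) =
      row ∘ (1 : Equiv.Perm (Fin n)) := by
    funext x
    simp only [Function.comp_apply, Equiv.Perm.coe_one, id_eq]
    exact hg x
  rw [h1, pt_of row col hs.inj 1 (fun x => rfl)]
  simp

theorem ga13_neg {n : ℕ} (row col : Fin n → ℕ) {x y : Fin n} (hxy : x ≠ y) (h : col x = col y) :
    wact n (Equiv.swap x y) (ev row col) = -ev row col := by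
  funext w
  show ev row col (w ∘ Equiv.swap x y) = -(ev row col w)
  unfold ev
  have h1 : (fun z => ((w ∘ Equiv.swap x y) z : ℕ)) = (fun z => (w z : ℕ)) ∘ (Equiv.swap x y) := rfl
  rw [h1, pt_word row col _ (Equiv.swap x y) (ga13_swap_inv col h), Equiv.Perm.sign_swap hxy]
  push_cast
  ring

theorem ga13_fix {n : ℕ} (row col : Fin n → ℕ) {x y : Fin n} (h : row x = row y) :
    wact n (Equiv.swap x y) (∑ g ∈ ga13_R row, wact n g (ev row col)) =
      ∑ g ∈ ga13_R row, wact n g (ev row col) := by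
  rw [map_sum]
  refine Finset.sum_nbij' (fun g => Equiv.swap x y * g) (fun g => Equiv.swap x y * g) ?_ ?_ ?_ ?_ ?_
  · intro g hg
    rw [ga13_R, mem_filter] at hg ⊢
    refine ⟨mem_univ _, fun z => ?_⟩
    rw [Equiv.Perm.mul_apply, ga13_swap_inv row h]
    exact hg.2 z
  · intro g hg
    rw [ga13_R, mem_filter] at hg ⊢
    refine ⟨mem_univ _, fun z => ?_⟩
    rw [Equiv.Perm.mul_apply, ga13_swap_inv row h]
    exact hg.2 z
  · intro g _
    rw [← mul_assoc, Equiv.swap_mul_self, one_mul]
  · intro g _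
    rw [← mul_assoc, Equiv.swap_mul_self, one_mul]
  · intro g _
    rw [map_mul]
    rfl

theorem Sp_hasLabel (n : ℕ) (lam : ℕ → ℕ) (h : IsPart lam n) :
    HasLabel (spSub n lam).toRepresentation lam := by
  classical
  obtain ⟨row, col, hs⟩ := exists_tab lam n h
  have hlt : ∀ x, row x < n := by
    intro x
    by_contra hx
    have h1 := h.zero (row x) (not_lt.mp hx)
    have h2 := hs.lt x
    omega
  have hmem : ev row col ∈ spe n lam := Submodule.subset_span ⟨row, col, hs.toIsTab, rfl⟩
  have hcol : ∀ x, row ((1 : Equiv.Perm (Fin n)) x) = row x := fun x => rfl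
  refine ⟨fun x => (row x, col x), ⟨?_, ?_⟩, ?_, ?_⟩
  · intro x y hxy
    rw [Prod.mk.injEq] at hxy
    exact hs.inj x y hxy.1 hxy.2
  · rintro ⟨i, j⟩
    constructor
    · rintro ⟨x, hx⟩
      rw [Prod.mk.injEq] at hx
      obtain ⟨h1, h2⟩ := hx
      simp only
      rw [← h1, ← h2]
      exact hs.lt x
    · intro hij
      obtain ⟨x, h1, h2⟩ := std_surj row col lam hs i j hij
      exact ⟨x, Prod.ext h1 h2⟩
  · have hv : (∑ g ∈ ga13_R row, wact n g (ev row col)) ∈ spe n lam :=
      Submodule.sum_mem _ fun g _ => spe_stable n lam g _ hmem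
    refine ⟨⟨_, hv⟩, ?_, ?_⟩
    · intro h0
      have h1 : (∑ g ∈ ga13_R row, wact n g (ev row col)) = 0 := congrArg Subtype.val h0
      have h2 := congrFun h1 (fun x => (⟨row x, hlt x⟩ : Fin n))
      rw [Finset.sum_apply] at h2
      have h3 : ∀ g ∈ ga13_R row, (wact n g (ev row col)) (fun x => (⟨row x, hlt x⟩ : Fin n)) = 1 := by
        intro g hg
        rw [ga13_R, mem_filter] at hg
        exact ga13_ev_row hs hlt g hg.2
      rw [Finset.sum_congr rfl h3, Finset.sum_const, nsmul_eq_mul, mul_one] at h2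
      have h4 : (ga13_R row).card ≠ 0 := by
        rw [Finset.card_ne_zero]
        refine ⟨1, ?_⟩
        rw [ga13_R, mem_filter]
        exact ⟨mem_univ _, hcol⟩
      have h5 : ((ga13_R row).card : ℂ) = 0 := h2
      exact h4 (by exact_mod_cast h5)
    · intro x y hxy
      apply Subtype.ext
      exact ga13_fix row col hxy
  · refine ⟨⟨ev row col, hmem⟩, ?_, ?_⟩
    · intro h0
      have h1 : ev row col = 0 := congrArg Subtype.val h0
      have h2 := congrFun h1 ((fun x => (⟨row x, hlt x⟩ : Fin n)) ∘ (1 : Equiv.Perm (Fin n)))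
      rw [ga13_ev_row hs hlt 1 hcol] at h2
      exact one_ne_zero h2
    · intro x y hxy hc
      apply Subtype.ext
      exact ga13_neg row col hxy hc

end Pool.Saxl
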