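import Mathlib
import Pool.Agent.Helper139_Saxl.Defs
import Pool.Agent.Helper139_Saxl.Defs2
import Pool.Agent.Helper139_Saxl.J01
import Pool.Agent.Helper139_Saxl.J02
import Pool.Agent.Helper139_Saxl.J31

set_option autoImplicit false

/-! Job SX-32: dominance for maps between Specht modules. -/

namespace Pool.Saxl

open Finset CategoryTheory
open scoped CategoryTheory.MonoidalCategory

theorem sx32_content (n : ℕ) (mu : ℕ → ℕ) (f : FW n) (hf : f ∈ spe n mu) (w : Fin n → Fin n)
    (hw : f w ≠ 0) (i : ℕ) : (univ.filter fun x => (w x : ℕ) = i).card = mu i := by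
  by_contra hne
  apply hw
  refine Submodule.span_induction (p := fun f _ => f w = 0) ?_ ?_ ?_ ?_ hf
  · rintro f ⟨row, col, hT, rfl⟩
    by_contra h
    have h1 : pt row col (fun x => (w x : ℕ)) ≠ 0 := by
      intro h2
      apply h
      change ((pt row col (fun x => (w x : ℕ)) : ℤ) : ℂ) = 0
      rw [h2, Int.cast_zero]
    obtain ⟨σ, _, hσ⟩ := exists_of_pt_ne row col _ h1
    apply hne
    rw [← hT.card i]
    refine Finset.card_bij (fun x _ => σ x) ?_ ?_ ?_
    · intro x hx
      rw [Finset.mem_filter] at hx ⊢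
      refine ⟨Finset.mem_univ _, ?_⟩
      rw [← hx.2]
      exact (congrFun hσ x).symm
    · intro x _ y _ h
      exact σ.injective h
    · intro y hy
      rw [Finset.mem_filter] at hy
      refine ⟨σ.symm y, ?_, σ.apply_symm_apply y⟩
      rw [Finset.mem_filter]
      refine ⟨Finset.mem_univ _, ?_⟩
      have h2 := congrFun hσ (σ.symm y)
      simp only [Function.comp_apply, Equiv.apply_symm_apply] at h2
      rw [h2, hy.2]
  · rfl
  · intro f g _ _ hf hg
    change f w + g w = 0
    rw [hf, hg, add_zero]
  · intro c f _ hf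
    change c • f w = 0
    rw [hf, smul_zero]

theorem sx32_area (n : ℕ) (mu : ℕ → ℕ) (v : Fin n → ℕ)
    (h : ∀ i, (univ.filter fun x => v x = i).card = mu i) (s : ℕ) :
    area mu s = (univ.filter fun x => v x < s).card := by
  rw [Finset.card_eq_sum_card_fiberwise (f := v) (t := range s)]
  · unfold area
    refine Finset.sum_congr rfl fun i hi => ?_
    rw [← h i]
    congr 1
    ext x
    simp only [Finset.mem_filter, Finset.mem_univ, true_and]
    constructor
    · intro hx
      exact ⟨by rw [hx]; exact Finset.mem_range.1 hi, hx⟩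
    · intro hx
      exact hx.2
  · intro x hx
    have hx' := (Finset.mem_filter.1 (Finset.mem_coe.1 hx)).2
    exact Finset.mem_coe.2 (Finset.mem_range.2 hx')

theorem sx32_count (n : ℕ) (lam : ℕ → ℕ) (row col : Fin n → ℕ) (hT : IsTab row col lam)
    (w : Fin n → ℕ) (hw : ∀ x y, col x = col y → w x = w y → x = y) (s : ℕ) :
    (univ.filter fun x => w x < s).card ≤ (univ.filter fun x => row x < s).card := by
  rw [Finset.card_eq_sum_card_fiberwise (f := col) (t := univ.image col)
      (fun x _ => Finset.mem_coe.2 (Finset.mem_image_of_mem _ (Finset.mem_univ x))),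
    Finset.card_eq_sum_card_fiberwise (s := univ.filter fun x => row x < s) (f := col)
      (t := univ.image col)
      (fun x _ => Finset.mem_coe.2 (Finset.mem_image_of_mem _ (Finset.mem_univ x)))]
  refine Finset.sum_le_sum fun c _ => ?_
  by_cases hc : ∀ x, col x = c → row x < s
  · refine Finset.card_le_card fun x hx => ?_
    rw [Finset.mem_filter, Finset.mem_filter] at hx ⊢
    exact ⟨⟨Finset.mem_univ _, hc x hx.2⟩, hx.2⟩
  · push Not at hc
    obtain ⟨x₀, hx₀, hs⟩ := hc
    have h1 : ((univ.filter fun x => w x < s).filter fun x => col x = c).card ≤ s := by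
      have h2 : ((univ.filter fun x => w x < s).filter fun x => col x = c).card ≤ (range s).card := by
        refine Finset.card_le_card_of_injOn w ?_ ?_
        · intro x hx
          have hx' := Finset.mem_filter.1 (Finset.mem_coe.1 hx)
          exact Finset.mem_coe.2 (Finset.mem_range.2 (Finset.mem_filter.1 hx'.1).2)
        · intro x hx y hy hxy
          have hx' := Finset.mem_filter.1 (Finset.mem_coe.1 hx)
          have hy' := Finset.mem_filter.1 (Finset.mem_coe.1 hy)
          exact hw x y (hx'.2.trans hy'.2.symm) hxy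
      rwa [Finset.card_range] at h2
    have h3 : s ≤ ((univ.filter fun x => row x < s).filter fun x => col x = c).card := by
      have h4 : range s ⊆ ((univ.filter fun x => row x < s).filter fun x => col x = c).image row := by
        intro i hi
        have hi' := Finset.mem_range.1 hi
        obtain ⟨y, hy, hyi⟩ := hT.down x₀ i (lt_of_lt_of_le hi' hs)
        refine Finset.mem_image.2 ⟨y, ?_, hyi⟩
        rw [Finset.mem_filter, Finset.mem_filter]
        exact ⟨⟨Finset.mem_univ _, by rw [hyi]; exact hi'⟩, hy.trans hx₀⟩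
      have h5 := Finset.card_le_card h4
      rw [Finset.card_range] at h5
      exact h5.trans Finset.card_image_le
    exact h1.trans h3



/-- a nonzero equivariant map between Specht modules gives a dominance relation -/
theorem spe_dom (n : ℕ) (lam mu : ℕ → ℕ) (hlam : IsPart lam n) (hmu : IsPart mu n)
    (φ : spe n lam →ₗ[ℂ] FW n) (hφ : φ ≠ 0) (hr : ∀ f, φ f ∈ spe n mu)
    (heq : ∀ (g : Equiv.Perm (Fin n)) (f : spe n lam),
      φ ⟨wact n g f, spe_stable n lam g f f.2⟩ = wact n g (φ f)) (s : ℕ) :
    area mu s ≤ area lam s := by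
  have hmem : ∀ row col : Fin n → ℕ, IsTab row col lam → ev row col ∈ spe n lam :=
    fun row col h => Submodule.subset_span ⟨row, col, h, rfl⟩
  obtain ⟨row, col, hT, hne⟩ : ∃ (row col : Fin n → ℕ) (h : IsTab row col lam),
      φ ⟨ev row col, hmem row col h⟩ ≠ 0 := by
    by_contra hcon
    push Not at hcon
    apply hφ
    ext1 f
    obtain ⟨f, hf⟩ := f
    refine Submodule.span_induction (p := fun f hf => φ ⟨f, hf⟩ = 0) ?_ ?_ ?_ ?_ hf
    · rintro f ⟨row, col, hT, rfl⟩
      exact hcon row col hT
    · exact map_zero φ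
    · intro f g hf hg h1 h2
      have h3 : (⟨f + g, Submodule.add_mem _ hf hg⟩ : spe n lam) = ⟨f, hf⟩ + ⟨g, hg⟩ := rfl
      rw [h3, map_add, h1, h2, add_zero]
    · intro c f hf h1
      have h3 : (⟨c • f, Submodule.smul_mem _ c hf⟩ : spe n lam) = c • ⟨f, hf⟩ := rfl
      rw [h3, map_smul, h1, smul_zero]
  obtain ⟨F, hF⟩ : ∃ F : FW n, F = φ ⟨ev row col, hmem row col hT⟩ := ⟨_, rfl⟩
  rw [← hF] at hne
  have hsgn : ∀ σ : Equiv.Perm (Fin n), (∀ x, col (σ x) = col x) → ∀ w : Fin n → Fin n,
      F (w ∘ σ) = ((Equiv.Perm.sign σ : ℤ) : ℂ) * F w := by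
    intro σ hσ w
    have h1 : wact n σ (ev row col) = ((Equiv.Perm.sign σ : ℤ) : ℂ) • ev row col := by
      funext w
      change ((pt row col ((fun x => (w x : ℕ)) ∘ σ) : ℤ) : ℂ) =
        ((Equiv.Perm.sign σ : ℤ) : ℂ) * ((pt row col (fun x => (w x : ℕ)) : ℤ) : ℂ)
      rw [pt_word row col _ σ hσ, Int.cast_mul]
    have h2 := heq σ ⟨ev row col, hmem row col hT⟩
    rw [← hF] at h2
    have h3 : (⟨wact n σ (ev row col), spe_stable n lam σ _ (hmem row col hT)⟩ : spe n lam) =
        ((Equiv.Perm.sign σ : ℤ) : ℂ) • ⟨ev row col, hmem row col hT⟩ := Subtype.ext h1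
    rw [h3, map_smul, ← hF] at h2
    exact (congrFun h2 w).symm
  obtain ⟨w, hw⟩ : ∃ w, F w ≠ 0 := by
    by_contra hcon
    push Not at hcon
    exact hne (funext hcon)
  have hinj : ∀ x y, col x = col y → (w x : ℕ) = w y → x = y := by
    intro x y hc hxy
    by_contra hne'
    apply hw
    have h1 := hsgn (Equiv.swap x y) (by
      intro z
      by_cases hzx : z = x
      · rw [hzx, Equiv.swap_apply_left, hc]
      · by_cases hzy : z = y
        · rw [hzy, Equiv.swap_apply_right, hc]
        · rw [Equiv.swap_apply_of_ne_of_ne hzx hzy]) w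
    have h2 : w ∘ (Equiv.swap x y) = w := by
      funext z
      rw [Function.comp_apply]
      by_cases hzx : z = x
      · rw [hzx, Equiv.swap_apply_left]
        exact (Fin.ext hxy).symm
      · by_cases hzy : z = y
        · rw [hzy, Equiv.swap_apply_right]
          exact Fin.ext hxy
        · rw [Equiv.swap_apply_of_ne_of_ne hzx hzy]
    rw [h2, Equiv.Perm.sign_swap hne'] at h1
    have h3 : F w = -F w := by simpa using h1
    have h4 : (2 : ℂ) * F w = 0 := by linear_combination h3
    exact (mul_eq_zero.1 h4).resolve_left two_ne_zero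
  have hcont := sx32_content n mu F (hF ▸ hr _) w hw
  rw [sx32_area n mu (fun x => (w x : ℕ)) hcont s, sx32_area n lam row hT.card s]
  exact sx32_count n lam row col hT (fun x => (w x : ℕ)) hinj s

end Pool.Saxl
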