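import Mathlib
import Pool.Agent.Helper139_Saxl.Defs
import Pool.Agent.Helper139_Saxl.Defs2
import Pool.Agent.Helper139_Saxl.SpDef
import Pool.Agent.Helper139_Saxl.J02
import Pool.Agent.Helper139_Saxl.J04
import Pool.Agent.Helper139_Saxl.J31
import Pool.Agent.Helper139_Saxl.J32
import Pool.Agent.Helper139_Saxl.J33

set_option autoImplicit false

/-! Job SX-35: Specht modules as objects of FDRep. -/

namespace Pool.Saxl

open Finset CategoryTheory
open scoped CategoryTheory.MonoidalCategory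

theorem sx35_map_stable (n : ℕ) (lam : ℕ → ℕ) (U : Subrepresentation (spSub n lam).toRepresentation)
    (g : Equiv.Perm (Fin n)) (f : FW n)
    (hf : f ∈ U.toSubmodule.map (spe n lam).subtype) :
    wact n g f ∈ U.toSubmodule.map (spe n lam).subtype := by
  obtain ⟨u, hu, rfl⟩ := hf
  exact ⟨(spSub n lam).toRepresentation g u, U.apply_mem_toSubmodule g hu, rfl⟩

theorem sx35_irr (n : ℕ) (lam : ℕ → ℕ) (h : IsPart lam n) :
    (spSub n lam).toRepresentation.IsIrreducible := by
  have hnb := spe_ne_bot n lam h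
  have : Nontrivial (Subrepresentation (spSub n lam).toRepresentation) := by
    refine ⟨⟨⊥, ⊤, fun hbt => hnb ?_⟩⟩
    rw [eq_bot_iff]
    intro f hf
    have h1 : (⟨f, hf⟩ : (spSub n lam).toSubmodule) ∈
        (⊤ : Subrepresentation (spSub n lam).toRepresentation).toSubmodule :=
      Submodule.mem_top
    rw [← hbt] at h1
    have h2 : (⟨f, hf⟩ : (spSub n lam).toSubmodule) = 0 := (Submodule.mem_bot ℂ).1 h1
    exact (Submodule.mem_bot ℂ).2 (congrArg Subtype.val h2)
  refine ⟨fun U => ?_⟩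
  rcases spe_irred n lam h (U.toSubmodule.map (spe n lam).subtype)
    (by
      rintro f ⟨u, _, rfl⟩
      exact u.2)
    (sx35_map_stable n lam U) with h0 | h1
  · left
    apply Subrepresentation.toSubmodule_injective
    change U.toSubmodule = ⊥
    rw [eq_bot_iff]
    intro u hu
    have h2 : (u : FW n) ∈ U.toSubmodule.map (spe n lam).subtype := ⟨u, hu, rfl⟩
    rw [h0] at h2
    exact (Submodule.mem_bot ℂ).2 (Subtype.ext ((Submodule.mem_bot ℂ).1 h2))
  · right
    apply Subrepresentation.toSubmodule_injective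
    change U.toSubmodule = ⊤
    rw [eq_top_iff]
    intro u _
    have h2 : (u : FW n) ∈ U.toSubmodule.map (spe n lam).subtype := by
      rw [h1]
      exact u.2
    obtain ⟨u', hu', he⟩ := h2
    have : u' = u := Subtype.ext he
    rwa [← this]

/-- the action on the Specht module -/
def sx35_A (n : ℕ) (lam : ℕ → ℕ) (g : Equiv.Perm (Fin n)) : spe n lam →ₗ[ℂ] spe n lam :=
  (wact n g).restrict (fun f hf => spe_stable n lam g f hf)

theorem sx35_char (n : ℕ) (lam : ℕ → ℕ) (g : Equiv.Perm (Fin n)) :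
    (Sp n lam).character g = LinearMap.trace ℂ (spe n lam) (sx35_A n lam g) := rfl

theorem sx35_iso_dom (n : ℕ) (lam mu : ℕ → ℕ) (h : IsPart lam n) (h' : IsPart mu n)
    (i : Sp n lam ≅ Sp n mu) (s : ℕ) : area mu s ≤ area lam s := by
  let e : spe n lam ≃ₗ[ℂ] spe n mu := FDRep.isoToLinearEquiv i
  have he : ∀ (g : Equiv.Perm (Fin n)) (f : spe n lam),
      e ((spSub n lam).toRepresentation g f) = (spSub n mu).toRepresentation g (e f) := by
    intro g f
    have h1 := FDRep.Iso.conj_ρ i g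
    have h2 := LinearMap.congr_fun h1 (e f)
    have h3 : (FDRep.isoToLinearEquiv i).conj ((Sp n lam).ρ g) (e f) =
        e ((spSub n lam).toRepresentation g (e.symm (e f))) := rfl
    rw [h3, e.symm_apply_apply] at h2
    exact h2.symm
  refine spe_dom n lam mu h h' ((spe n mu).subtype ∘ₗ e.toLinearMap) ?_ (fun f => (e f).2) ?_ s
  · intro h0
    apply spe_ne_bot n lam h
    rw [eq_bot_iff]
    intro f hf
    have h1 := LinearMap.congr_fun h0 (⟨f, hf⟩ : spe n lam)
    have h2 : e (⟨f, hf⟩ : spe n lam) = 0 := Subtype.ext h1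
    have h3 : (⟨f, hf⟩ : spe n lam) = 0 := (LinearEquiv.map_eq_zero_iff e).1 h2
    exact (Submodule.mem_bot ℂ).2 (congrArg Subtype.val h3)
  · intro g f
    exact congrArg Subtype.val (he g f)

theorem Sp_simple (n : ℕ) (lam : ℕ → ℕ) (h : IsPart lam n) : Simple (Sp n lam) := by
  have := sx35_irr n lam h
  rw [FDRep.simple_iff_char_is_norm_one]
  have : Invertible (Nat.card (Equiv.Perm (Fin n)) : ℂ) :=
    invertibleOfNonzero (by
      rw [Nat.cast_ne_zero]
      exact Nat.card_pos.ne')
  have h1 := Representation.card_inv_mul_sum_char_mul_char_eq_finrank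
    (spSub n lam).toRepresentation (spSub n lam).toRepresentation
  rw [Representation.IsIrreducible.finrank_intertwiningMap_self] at h1
  have hne : (Nat.card (Equiv.Perm (Fin n)) : ℂ) ≠ 0 := by
    rw [Nat.cast_ne_zero]
    exact Nat.card_pos.ne'
  rw [Nat.cast_one, inv_mul_eq_one₀ hne] at h1
  rw [h1]
  exact Finset.sum_congr rfl fun g _ => rfl

theorem Sp_inj (n : ℕ) (lam mu : ℕ → ℕ) (h : IsPart lam n) (h' : IsPart mu n)
    (hi : Nonempty (Sp n lam ≅ Sp n mu)) : lam = mu := by
  obtain ⟨i⟩ := hi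
  have hA : ∀ s, area lam s = area mu s := fun s =>
    le_antisymm (sx35_iso_dom n mu lam h' h i.symm s) (sx35_iso_dom n lam mu h h' i s)
  funext s
  have h1 := hA (s + 1)
  have h2 := hA s
  unfold area at h1 h2
  rw [Finset.sum_range_succ, Finset.sum_range_succ, h2] at h1
  omega

theorem Sp_conj (n : ℕ) (lam : ℕ → ℕ) (h : IsPart lam n) (g : Equiv.Perm (Fin n)) :
    (Sp n (cj lam)).character g = ((Equiv.Perm.sign g : ℤ) : ℂ) * (Sp n lam).character g := by
  obtain ⟨θ, hθ1, hθ2, hθ3⟩ := theta n lam h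
  let T : spe n lam →ₗ[ℂ] spe n (cj lam) := θ.restrict hθ2
  have hTv : ∀ f : spe n lam, ((T f : spe n (cj lam)) : FW n) = θ f := fun f => rfl
  have hsq : ∀ g : Equiv.Perm (Fin n),
      ((Equiv.Perm.sign g : ℤ) : ℂ) * ((Equiv.Perm.sign g : ℤ) : ℂ) = 1 := by
    intro g
    rcases Int.units_eq_one_or (Equiv.Perm.sign g) with h1 | h1 <;> rw [h1] <;> simp
  have hinj : Function.Injective T := by
    rw [← LinearMap.ker_eq_bot, eq_bot_iff]
    intro f hf
    have h1 : θ f = 0 := by
      rw [← hTv, LinearMap.mem_ker.1 hf]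
      rfl
    exact (Submodule.mem_bot ℂ).2 (Subtype.ext (hθ3 f f.2 h1))
  have hT : ∀ (g : Equiv.Perm (Fin n)) (f : spe n lam),
      sx35_A n (cj lam) g (T f) =
        ((Equiv.Perm.sign g : ℤ) : ℂ) • T (sx35_A n lam g f) := by
    intro g f
    apply Subtype.ext
    change wact n g (θ f) = ((Equiv.Perm.sign g : ℤ) : ℂ) • θ (wact n g f)
    rw [hθ1, smul_smul, hsq, one_smul]
  have hcj := isPart_cj lam n h
  have hrange : (LinearMap.range T).map (spe n (cj lam)).subtype = spe n (cj lam) := by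
    rcases spe_irred n (cj lam) hcj ((LinearMap.range T).map (spe n (cj lam)).subtype)
      (by
        rintro f ⟨u, _, rfl⟩
        exact u.2)
      (by
        rintro g f ⟨u, ⟨w, rfl⟩, rfl⟩
        refine ⟨sx35_A n (cj lam) g (T w), ?_, rfl⟩
        rw [hT]
        exact Submodule.smul_mem _ _ ⟨_, rfl⟩) with h0 | h1
    · exfalso
      apply spe_ne_bot n lam h
      rw [eq_bot_iff]
      intro f hf
      have h2 : θ f ∈ (LinearMap.range T).map (spe n (cj lam)).subtype :=
        ⟨T ⟨f, hf⟩, ⟨_, rfl⟩, rfl⟩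
      rw [h0] at h2
      exact (Submodule.mem_bot ℂ).2 (hθ3 f hf ((Submodule.mem_bot ℂ).1 h2))
    · exact h1
  have hsurj : Function.Surjective T := by
    intro y
    have h2 : (y : FW n) ∈ (LinearMap.range T).map (spe n (cj lam)).subtype := by
      rw [hrange]
      exact y.2
    obtain ⟨u, ⟨w, hw⟩, he⟩ := h2
    exact ⟨w, hw.trans (Subtype.ext he)⟩
  let e : spe n lam ≃ₗ[ℂ] spe n (cj lam) := LinearEquiv.ofBijective T ⟨hinj, hsurj⟩
  have hconj : (sx35_A n (cj lam) g : spe n (cj lam) →ₗ[ℂ] spe n (cj lam)) =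
      e.conj (((Equiv.Perm.sign g : ℤ) : ℂ) •
        (sx35_A n lam g : spe n lam →ₗ[ℂ] spe n lam)) := by
    ext1 y
    obtain ⟨f, rfl⟩ := e.surjective y
    rw [LinearEquiv.conj_apply_apply, e.symm_apply_apply, LinearMap.smul_apply, map_smul]
    exact hT g f
  rw [sx35_char, sx35_char, hconj, LinearMap.trace_conj', map_smul, smul_eq_mul]

end Pool.Saxl
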