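import Mathlib
import Pool.Agent.Helper139_Saxl.Defs
import Pool.Agent.Helper139_Saxl.Defs2
import Pool.Agent.Helper139_Saxl.SpDef
import Pool.Agent.Helper139_Saxl.J04
import Pool.Agent.Helper139_Saxl.J31
import Pool.Agent.Helper139_Saxl.J35

set_option autoImplicit false

/-! Job SX-36: class functions on the symmetric group. -/

namespace Pool.Saxl

open Finset CategoryTheory
open scoped CategoryTheory.MonoidalCategory

open Classical in
theorem sx36_orth (n : ℕ) (lam mu : ℕ → ℕ) (h : IsPart lam n) (h' : IsPart mu n) :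
    ∑ g, (Sp n lam).character g * (Sp n mu).character g⁻¹ =
      if lam = mu then (Nat.card (Equiv.Perm (Fin n)) : ℂ) else 0 := by
  have hc : (Nat.card (Equiv.Perm (Fin n)) : ℂ) ≠ 0 := by
    exact_mod_cast Nat.card_pos.ne'
  letI : Invertible (Nat.card (Equiv.Perm (Fin n)) : ℂ) := invertibleOfNonzero hc
  have := Sp_simple n lam h
  have := Sp_simple n mu h'
  have key := FDRep.char_orthonormal (Sp n lam) (Sp n mu)
  rw [inv_mul_eq_iff_eq_mul₀ hc] at key
  rw [key]
  by_cases hl : lam = mu
  · subst hl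
    rw [if_pos ⟨Iso.refl _⟩, if_pos rfl]
    simp
  · rw [if_neg hl, if_neg (fun hi => hl (Sp_inj n lam mu h h' hi))]
    simp

theorem sx36_finite (n : ℕ) : Finite {lam : ℕ → ℕ // IsPart lam n} := by
  have hb : ∀ (lam : ℕ → ℕ), IsPart lam n → ∀ i, lam i < n + 1 := by
    intro lam h i
    by_cases hi : i < n
    · have h1 : lam i ≤ ∑ j ∈ range n, lam j :=
        Finset.single_le_sum (f := lam) (fun j _ => Nat.zero_le _) (Finset.mem_range.2 hi)
      rw [h.sum] at h1
      omega
    · rw [h.zero i (by omega)]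
      omega
  refine Finite.of_injective
    (fun lam : {lam : ℕ → ℕ // IsPart lam n} => fun i : Fin n => (⟨lam.1 i, hb _ lam.2 i⟩ : Fin (n + 1)))
    ?_
  intro lam mu he
  apply Subtype.ext
  funext i
  by_cases hi : i < n
  · have := congrFun he ⟨i, hi⟩
    simpa using this
  · rw [lam.2.zero i (by omega), mu.2.zero i (by omega)]

/-- the function of a multiset of parts -/
noncomputable def sx36_lam (m : Multiset ℕ) : ℕ → ℕ := fun i => (m.sort (· ≥ ·)).getD i 0

theorem sx36_length_le (l : List ℕ) (h : ∀ x ∈ l, 0 < x) : l.length ≤ l.sum := by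
  induction l with
  | nil => simp
  | cons a l ih =>
    have h1 := ih (fun x hx => h x (List.mem_cons_of_mem _ hx))
    have h2 := h a (by simp)
    simp only [List.length_cons, List.sum_cons]
    omega

theorem sx36_sum_getD (l : List ℕ) : ∀ n, l.length ≤ n → ∑ i ∈ range n, l.getD i 0 = l.sum := by
  induction l with
  | nil => intro n _; simp
  | cons a l ih =>
    intro n hn
    obtain ⟨n, rfl⟩ : ∃ k, n = k + 1 := ⟨n - 1, by simp at hn; omega⟩
    rw [Finset.sum_range_succ', List.sum_cons]
    simp only [List.getD_cons_succ, List.getD_cons_zero]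
    rw [ih n (by simpa using hn), add_comm]

theorem sx36_isPart (m : Multiset ℕ) (n : ℕ) (hpos : ∀ x ∈ m, 0 < x) (hsum : m.sum = n) :
    IsPart (sx36_lam m) n := by
  have hs : (m.sort (· ≥ ·)).sum = n := by
    rw [← Multiset.sum_coe, Multiset.sort_eq, hsum]
  have hp : ∀ x ∈ m.sort (· ≥ ·), 0 < x := fun x hx => hpos x ((Multiset.mem_sort _).1 hx)
  have hl : (m.sort (· ≥ ·)).length ≤ n := by
    rw [← hs]; exact sx36_length_le _ hp
  have hsort : (m.sort (· ≥ ·)).Pairwise (· ≥ ·) := Multiset.pairwise_sort _ _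
  refine ⟨?_, ?_, ?_⟩
  · intro i j hij
    unfold sx36_lam
    by_cases hj : j < (m.sort (· ≥ ·)).length
    · rw [List.getD_eq_getElem _ _ hj, List.getD_eq_getElem _ _ (by omega)]
      rcases Nat.eq_or_lt_of_le hij with h | h
      · subst h; exact le_rfl
      · exact List.pairwise_iff_getElem.1 hsort i j (by omega) hj h
    · rw [List.getD_eq_default _ _ (by omega)]
      exact Nat.zero_le _
  · intro i hi
    exact List.getD_eq_default _ _ (by omega)
  · exact (sx36_sum_getD _ n hl).trans hs

theorem sx36_getElem? (l : List ℕ) (h : ∀ x ∈ l, 0 < x) (i : ℕ) :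
    l[i]? = if l.getD i 0 = 0 then none else some (l.getD i 0) := by
  by_cases hi : i < l.length
  · rw [List.getD_eq_getElem _ _ hi, List.getElem?_eq_getElem hi,
      if_neg (h _ (List.getElem_mem hi)).ne']
  · rw [List.getD_eq_default _ _ (by omega), if_pos rfl, List.getElem?_eq_none (by omega)]

theorem sx36_lam_inj (m m' : Multiset ℕ) (h : ∀ x ∈ m, 0 < x) (h' : ∀ x ∈ m', 0 < x)
    (he : sx36_lam m = sx36_lam m') : m = m' := by
  have h1 : m.sort (· ≥ ·) = m'.sort (· ≥ ·) := by
    apply List.ext_getElem?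
    intro i
    rw [sx36_getElem? _ (fun x hx => h x ((Multiset.mem_sort _).1 hx)),
      sx36_getElem? _ (fun x hx => h' x ((Multiset.mem_sort _).1 hx))]
    have := congrFun he i
    unfold sx36_lam at this
    rw [this]
  rw [← Multiset.sort_eq m (· ≥ ·), h1, Multiset.sort_eq]

/-- the partition of a class -/
noncomputable def sx36_cls (n : ℕ) :
    ConjClasses (Equiv.Perm (Fin n)) → {lam : ℕ → ℕ // IsPart lam n} :=
  Quotient.lift (fun σ => ⟨sx36_lam σ.partition.parts,
    sx36_isPart _ _ (fun x hx => σ.partition.parts_pos hx)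
      (σ.partition.parts_sum.trans (Fintype.card_fin n))⟩)
    (fun σ τ h => by
      have h1 : σ.partition = τ.partition := Equiv.Perm.partition_eq_of_isConj.1 h
      apply Subtype.ext
      simp only [h1])

theorem sx36_cls_inj (n : ℕ) : Function.Injective (sx36_cls n) := by
  intro a b
  induction a using Quotient.inductionOn with
  | h σ =>
    induction b using Quotient.inductionOn with
    | h τ =>
      intro h
      have h1 := congrArg Subtype.val h
      change sx36_lam σ.partition.parts = sx36_lam τ.partition.parts at h1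
      have h2 := sx36_lam_inj _ _ (fun x hx => σ.partition.parts_pos hx)
        (fun x hx => τ.partition.parts_pos hx) h1
      apply Quotient.sound
      exact Equiv.Perm.partition_eq_of_isConj.2 (Nat.Partition.ext h2)

/-- a class function as a function of the class -/
noncomputable def sx36_bar {n : ℕ} (f : Equiv.Perm (Fin n) → ℂ)
    (hf : ∀ g h : Equiv.Perm (Fin n), f (h * g * h⁻¹) = f g) :
    ConjClasses (Equiv.Perm (Fin n)) → ℂ :=
  Quotient.lift f (fun a b h => by
    obtain ⟨c, hc⟩ := isConj_iff.1 h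
    rw [← hc, hf])

theorem sx36_bar_mk {n : ℕ} (f : Equiv.Perm (Fin n) → ℂ)
    (hf : ∀ g h : Equiv.Perm (Fin n), f (h * g * h⁻¹) = f g) (g : Equiv.Perm (Fin n)) :
    sx36_bar f hf (ConjClasses.mk g) = f g := rfl




/-- a class function orthogonal to all characters of Specht modules vanishes -/
theorem class_zero (n : ℕ) (ψ : Equiv.Perm (Fin n) → ℂ)
    (hψ : ∀ g h : Equiv.Perm (Fin n), ψ (h * g * h⁻¹) = ψ g)
    (h : ∀ lam : ℕ → ℕ, IsPart lam n → ∑ g, ψ g * (Sp n lam).character g⁻¹ = 0) : ψ = 0 := by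
  classical
  have hc : (Nat.card (Equiv.Perm (Fin n)) : ℂ) ≠ 0 := by
    exact_mod_cast Nat.card_pos.ne'
  have := sx36_finite n
  letI := Fintype.ofFinite {lam : ℕ → ℕ // IsPart lam n}
  have : Finite (ConjClasses (Equiv.Perm (Fin n))) := Quotient.finite _
  letI := Fintype.ofFinite (ConjClasses (Equiv.Perm (Fin n)))
  let χ : {lam : ℕ → ℕ // IsPart lam n} → (ConjClasses (Equiv.Perm (Fin n)) → ℂ) := fun lam =>
    sx36_bar (Sp n lam.1).character (fun g h => FDRep.char_conj _ g h)
  -- coefficients of a vanishing combination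
  have key : ∀ (c : {lam : ℕ → ℕ // IsPart lam n} → ℂ) (f : Equiv.Perm (Fin n) → ℂ),
      (∀ g, ∑ lam, c lam * (Sp n lam.1).character g = f g) →
      (∀ lam : ℕ → ℕ, IsPart lam n → ∑ g, f g * (Sp n lam).character g⁻¹ = 0) →
      ∀ lam, c lam = 0 := by
    intro c f h1 h2 mu
    have h3 := h2 mu.1 mu.2
    simp only [← h1, Finset.sum_mul] at h3
    rw [Finset.sum_comm] at h3
    have h4 : ∀ lam : {lam : ℕ → ℕ // IsPart lam n},
        ∑ g, c lam * (Sp n lam.1).character g * (Sp n mu.1).character g⁻¹ =
        if lam = mu then c mu * (Nat.card (Equiv.Perm (Fin n)) : ℂ) else 0 := by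
      intro lam
      simp only [mul_assoc, ← Finset.mul_sum]
      rw [sx36_orth n lam.1 mu.1 lam.2 mu.2]
      by_cases hl : lam = mu
      · rw [hl, if_pos rfl, if_pos rfl]
      · rw [if_neg hl, if_neg (fun he => hl (Subtype.ext he)), mul_zero]
    rw [Finset.sum_congr rfl fun lam _ => h4 lam, Finset.sum_ite_eq', if_pos (Finset.mem_univ _)]
      at h3
    exact (mul_eq_zero.1 h3).resolve_right hc
  have hli : LinearIndependent ℂ χ := by
    rw [Fintype.linearIndependent_iff]
    intro c hc0
    refine key c 0 (fun g => ?_) (fun lam _ => by simp)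
    have := congrFun hc0 (ConjClasses.mk g)
    rw [Finset.sum_apply] at this
    simpa [χ, sx36_bar_mk] using this
  have hcard : Fintype.card {lam : ℕ → ℕ // IsPart lam n} =
      Module.finrank ℂ (ConjClasses (Equiv.Perm (Fin n)) → ℂ) := by
    apply le_antisymm
    · exact hli.fintype_card_le_finrank
    · rw [Module.finrank_fintype_fun_eq_card]
      exact Fintype.card_le_of_injective _ (sx36_cls_inj n)
  have hne : Nonempty {lam : ℕ → ℕ // IsPart lam n} := ⟨sx36_cls n (ConjClasses.mk 1)⟩
  have hspan := hli.span_eq_top_of_card_eq_finrank hcard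
  have hmem : sx36_bar ψ hψ ∈ Submodule.span ℂ (Set.range χ) := by rw [hspan]; trivial
  obtain ⟨c, hc1⟩ := (Submodule.mem_span_range_iff_exists_fun ℂ).1 hmem
  have hc2 : ∀ g, ∑ lam, c lam * (Sp n lam.1).character g = ψ g := by
    intro g
    have := congrFun hc1 (ConjClasses.mk g)
    rw [Finset.sum_apply] at this
    simpa [χ, sx36_bar_mk] using this
  have hc3 := key c ψ hc2 h
  funext g
  rw [← hc2 g]
  simp [hc3]

end Pool.Saxl
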