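import Mathlib
import Pool.Agent.Helper139_Saxl.Defs
import Pool.Agent.Helper139_Saxl.Defs2
import Pool.Agent.Helper139_Saxl.SpDef
import Pool.Agent.Helper139_Saxl.J04
import Pool.Agent.Helper139_Saxl.J31
import Pool.Agent.Helper139_Saxl.J35
import Pool.Agent.Helper139_Saxl.J36

set_option autoImplicit false

/-! Job GA-14: every irreducible representation of the symmetric group is a Specht module. -/

namespace Pool.Saxl

open Finset CategoryTheory
open scoped CategoryTheory.MonoidalCategory

/-- an irreducible representation of a finite group has a nonzero vector -/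
theorem ga14_exists {n : ℕ} {U : Type*} [AddCommGroup U] [Module ℂ U]
    (σ : Representation ℂ (Equiv.Perm (Fin n)) U) (hσ : σ.IsIrreducible) : ∃ u : U, u ≠ 0 := by
  by_contra hcon
  push Not at hcon
  obtain ⟨a, b, hab⟩ := (hσ.toNontrivial).exists_pair_ne
  apply hab
  apply Subrepresentation.toSubmodule_injective
  ext x
  rw [hcon x]
  simp

/-- an irreducible representation of a finite group is finite dimensional -/
theorem ga14_fin {n : ℕ} {U : Type*} [AddCommGroup U] [Module ℂ U]
    (σ : Representation ℂ (Equiv.Perm (Fin n)) U) (hσ : σ.IsIrreducible) :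
    FiniteDimensional ℂ U := by
  obtain ⟨u, hu⟩ := ga14_exists σ hσ
  let S : Subrepresentation σ :=
    { toSubmodule := Submodule.span ℂ (Set.range fun g => σ g u)
      apply_mem_toSubmodule := by
        intro g v hv
        refine Submodule.span_induction (p := fun v _ => σ g v ∈
          Submodule.span ℂ (Set.range fun g => σ g u)) ?_ ?_ ?_ ?_ hv
        · rintro _ ⟨h, rfl⟩
          apply Submodule.subset_span
          refine ⟨g * h, ?_⟩
          simp
        · simp
        · intro x y _ _ hx hy
          rw [map_add]
          exact Submodule.add_mem _ hx hy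
        · intro c x _ hx
          rw [map_smul]
          exact Submodule.smul_mem _ c hx }
  have huS : u ∈ S.toSubmodule := by
    apply Submodule.subset_span
    exact ⟨1, by simp⟩
  let T : Subrepresentation σ := { toSubmodule := ⊤, apply_mem_toSubmodule := fun _ _ _ => trivial }
  let B : Subrepresentation σ :=
    { toSubmodule := ⊥
      apply_mem_toSubmodule := by
        intro g v hv
        rw [Submodule.mem_bot] at hv ⊢
        rw [hv, map_zero] }
  have hle : ∀ X Y : Subrepresentation σ, X.toSubmodule ≤ Y.toSubmodule → X ≤ Y :=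
    fun X Y h => h
  have hTop : T = ⊤ := top_le_iff.1 (hle _ _ le_top)
  have hBot : B = ⊥ := le_bot_iff.1 (hle _ _ bot_le)
  rcases eq_bot_or_eq_top S with h | h
  · rw [← hBot] at h
    rw [h] at huS
    exact absurd ((Submodule.mem_bot ℂ).1 huS) hu
  · rw [← hTop] at h
    have h1 : S.toSubmodule = ⊤ := by rw [h]
    have h2 : S.toSubmodule.FG := Submodule.fg_span (Set.finite_range _)
    rw [h1] at h2
    exact ⟨h2⟩

/-- every irreducible representation maps to a Specht module -/
theorem Sp_exhaust (n : ℕ) {U : Type*} [AddCommGroup U] [Module ℂ U]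
    (σ : Representation ℂ (Equiv.Perm (Fin n)) U) (hσ : σ.IsIrreducible) :
    ∃ lam : ℕ → ℕ, IsPart lam n ∧
      ∃ f : Representation.IntertwiningMap σ (spSub n lam).toRepresentation, f ≠ 0 := by
  classical
  have hfin : FiniteDimensional ℂ U := ga14_fin σ hσ
  obtain ⟨u, hu⟩ := ga14_exists σ hσ
  have hnt : Nontrivial U := ⟨u, 0, hu⟩
  have hne : σ.character ≠ 0 := by
    intro h
    have h1 := congrFun h 1
    rw [Representation.char_one, Pi.zero_apply] at h1
    have h2 : 0 < Module.finrank ℂ U := Module.finrank_pos
    exact h2.ne' (by exact_mod_cast h1)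
  have h1 : ∃ lam : ℕ → ℕ, IsPart lam n ∧
      ∑ g, σ.character g * (Sp n lam).character g⁻¹ ≠ 0 := by
    by_contra hcon
    push Not at hcon
    exact hne (class_zero n σ.character (fun g h => Representation.char_conj σ g h) hcon)
  obtain ⟨lam, hlam, hsum⟩ := h1
  refine ⟨lam, hlam, ?_⟩
  by_contra hcon
  push Not at hcon
  apply hsum
  have hsub : Subsingleton (Representation.IntertwiningMap σ (spSub n lam).toRepresentation) :=
    ⟨fun f g => by rw [hcon f, hcon g]⟩
  have hcard : (Nat.card (Equiv.Perm (Fin n)) : ℂ) ≠ 0 := by exact_mod_cast Nat.card_pos.ne'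
  have : Invertible (Nat.card (Equiv.Perm (Fin n)) : ℂ) := invertibleOfNonzero hcard
  have h2 := Representation.card_inv_mul_sum_char_mul_char_eq_finrank σ
    (spSub n lam).toRepresentation
  rw [Module.finrank_zero_of_subsingleton, Nat.cast_zero] at h2
  have h3 := (mul_eq_zero.1 h2).resolve_left (inv_ne_zero hcard)
  rw [← h3]
  refine Fintype.sum_equiv (Equiv.inv _) _ _ fun g => ?_
  rw [Equiv.inv_apply, inv_inv, mul_comm]
  rfl

end Pool.Saxl
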