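import Mathlib
import Pool.Agent.Helper139_Saxl.Defs
import Pool.Agent.Helper139_Saxl.Ga
import Pool.Agent.Helper139_Saxl.Lab
import Pool.Agent.Helper139_Saxl.Defs2
import Pool.Agent.Helper139_Saxl.SpDef
import Pool.Agent.Helper139_Saxl.J02
import Pool.Agent.Helper139_Saxl.J04
import Pool.Agent.Helper139_Saxl.G07
import Pool.Agent.Helper139_Saxl.G10
import Pool.Agent.Helper139_Saxl.G11
import Pool.Agent.Helper139_Saxl.J31
import Pool.Agent.Helper139_Saxl.G12
import Pool.Agent.Helper139_Saxl.G13
import Pool.Agent.Helper139_Saxl.G14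

set_option autoImplicit false

/-! Job GA-15: Q1 in type A, final statement. -/

namespace Pool.Saxl

open Finset CategoryTheory
open scoped CategoryTheory.MonoidalCategory

theorem ga15_inj {G : Type*} [Group G] {V W : Type*} [AddCommGroup V] [Module ℂ V]
    [AddCommMonoid W] [Module ℂ W] {ρ : Representation ℂ G V} {σ : Representation ℂ G W}
    (hρ : ρ.IsIrreducible) (f : Representation.IntertwiningMap ρ σ) (hf : f ≠ 0) :
    Function.Injective f := by
  rcases hρ.eq_bot_or_eq_top (Representation.IntertwiningMap.ker _ _ f) with h | h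
  · intro x y hxy
    have h1 : f (x - y) = 0 := by
      have h2 : f (x - y) = f x + f (-y) := by rw [sub_eq_add_neg, map_add]
      rw [h2, hxy, ← map_add, add_neg_cancel, map_zero]
    have h3 : x - y ∈ Representation.IntertwiningMap.ker _ _ f := (Representation.IntertwiningMap.mem_ker _ _ f _).2 h1
    rw [h] at h3
    exact sub_eq_zero.1 h3
  · exfalso
    apply hf
    apply Representation.IntertwiningMap.ext
    apply LinearMap.ext
    intro v
    have h3 : v ∈ Representation.IntertwiningMap.ker _ _ f := by rw [h]; trivial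
    exact (Representation.IntertwiningMap.mem_ker _ _ f _).1 h3

theorem ga15_tensor_inj {G : Type*} [Group G] {V W V' W' : Type*} [AddCommGroup V] [Module ℂ V]
    [AddCommGroup W] [Module ℂ W] [AddCommGroup V'] [Module ℂ V'] [AddCommGroup W'] [Module ℂ W']
    {ρ : Representation ℂ G V} {σ : Representation ℂ G W} {ρ' : Representation ℂ G V'}
    {σ' : Representation ℂ G W'} (f : Representation.IntertwiningMap ρ ρ')
    (g : Representation.IntertwiningMap σ σ') (hf : Function.Injective f)
    (hg : Function.Injective g) : Function.Injective (f.tensor g) := by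
  have h : Function.Injective (TensorProduct.map f.toLinearMap g.toLinearMap) :=
    TensorProduct.map_injective_of_flat_flat _ _ hf hg
  exact h



/-- Q1 in type A -/
theorem typeA_final (n : ℕ) (O : ℕ → ℕ) (hO : IsPart O n) (hst : Strict O)
    (hmin : ∀ xi : ℕ → ℕ, IsPart xi n → Strict xi → Dom O xi)
    {M : Type*} [AddCommGroup M] [Module ℂ M] (ρ : Representation ℂ (Equiv.Perm (Fin n)) M)
    (hρ : ∀ a : ℕ → ℕ, IsPart a n → Dom a O → Dom (cj O) a → ∀ (V : Type) [AddCommGroup V]
      [Module ℂ V] (ψ : Representation ℂ (Equiv.Perm (Fin n)) V), ψ.IsIrreducible →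
      HasLabel ψ a → Contains ρ ψ)
    {U : Type*} [AddCommGroup U] [Module ℂ U] (σ : Representation ℂ (Equiv.Perm (Fin n)) U)
    (hσ : σ.IsIrreducible) : Contains (ρ.tprod ρ) σ := by
  obtain ⟨m, s, hs, hn, hOO⟩ := exists_OO n O hO hst hmin
  subst hn
  subst hOO
  obtain ⟨mu, hmu, f0, hf0⟩ := Sp_exhaust _ σ hσ
  obtain ⟨lam, kap, hlam, hkap, hG⟩ := typeA_comb m s hs mu hmu
  obtain ⟨f1, hf1⟩ := Sp_tensor2 _ lam kap mu hmu hG
  obtain ⟨f2, hf2⟩ := hρ lam hlam.part hlam.le hlam.ge _ (spSub _ lam).toRepresentation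
    (Sp_irr _ lam hlam.part) (Sp_hasLabel _ lam hlam.part)
  obtain ⟨f3, hf3⟩ := hρ kap hkap.part hkap.le hkap.ge _ (spSub _ kap).toRepresentation
    (Sp_irr _ kap hkap.part) (Sp_hasLabel _ kap hkap.part)
  have i0 : Function.Injective f0 :=
    ga15_inj hσ f0 hf0
  have i1 : Function.Injective f1 :=
    ga15_inj (Sp_irr _ mu hmu) f1 hf1
  have i2 : Function.Injective f2 :=
    ga15_inj (Sp_irr _ lam hlam.part) f2 hf2
  have i3 : Function.Injective f3 :=
    ga15_inj (Sp_irr _ kap hkap.part) f3 hf3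
  have i4 : Function.Injective (f2.tensor f3) := ga15_tensor_inj f2 f3 i2 i3
  refine ⟨(f2.tensor f3).comp (f1.comp f0), ?_⟩
  intro h0
  apply hf0
  apply Representation.IntertwiningMap.ext
  apply LinearMap.ext
  intro v
  have h1 : ((f2.tensor f3).comp (f1.comp f0)) v = 0 := by rw [h0]; rfl
  have h2 : (f2.tensor f3) (f1 (f0 v)) = (f2.tensor f3) 0 := by
    rw [map_zero]; exact h1
  have h3 : f1 (f0 v) = f1 0 := by rw [map_zero]; exact i4 h2
  exact i1 h3

end Pool.Saxl
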