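import Mathlib
import Pool.Agent.Helper139_Saxl.Defs
import Pool.Agent.Helper139_Saxl.J01
import Pool.Agent.Helper139_Saxl.J02
import Pool.Agent.Helper139_Saxl.J03
import Pool.Agent.Helper139_Saxl.J05

set_option autoImplicit false

/-! Job SX-06: semigroup property (rule S). -/

namespace Pool.Saxl

open Finset

theorem sx06_tab {n n' : ℕ} {r c : Fin n → ℕ} {r' c' : Fin n' → ℕ} {l l' : ℕ → ℕ}
    (h : IsTab r c l) (h' : IsTab r' c' l') :
    IsTab (Sum.elim r r') (Sum.elim (fun x => 2 * c x) (fun x => 2 * c' x + 1))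
      (fun i => l i + l' i) := by
  refine ⟨?_, ?_, ?_⟩
  · rintro (x | x) (y | y) h1 h2
    · simp only [Sum.elim_inl] at h1 h2
      exact congrArg Sum.inl (h.inj x y h1 (by omega))
    · simp only [Sum.elim_inl, Sum.elim_inr] at h2
      omega
    · simp only [Sum.elim_inl, Sum.elim_inr] at h2
      omega
    · simp only [Sum.elim_inr] at h1 h2
      exact congrArg Sum.inr (h'.inj x y h1 (by omega))
  · rintro (x | x) i hi
    · obtain ⟨y, h1, h2⟩ := h.down x i hi
      exact ⟨Sum.inl y, by simp only [Sum.elim_inl, h1], h2⟩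
    · obtain ⟨y, h1, h2⟩ := h'.down x i hi
      exact ⟨Sum.inr y, by simp only [Sum.elim_inr, h1], h2⟩
  · intro i
    have e1 : ∑ x, (if r x = i then 1 else 0) = l i := by
      rw [← Finset.card_filter]
      exact h.card i
    have e2 : ∑ x, (if r' x = i then 1 else 0) = l' i := by
      rw [← Finset.card_filter]
      exact h'.card i
    rw [Finset.card_filter, Fintype.sum_sum_type]
    exact congrArg₂ (· + ·) e1 e2

theorem sx06_pt {n n' : ℕ} (r c w : Fin n → ℕ) (r' c' w' : Fin n' → ℕ) :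
    pt (Sum.elim r r') (Sum.elim (fun x => 2 * c x) (fun x => 2 * c' x + 1)) (Sum.elim w w') =
      pt r c w * pt r' c' w' := by
  rw [pt_sum]
  · rw [pt_col r (fun x => 2 * c x) c w (fun x y => by
      constructor
      · intro h1
        have h2 : 2 * c x = 2 * c y := h1
        omega
      · intro h1
        show 2 * c x = 2 * c y
        rw [h1]), pt_col r' (fun x => 2 * c' x + 1) c' w' (fun x y => by
      constructor
      · intro h1
        have h2 : 2 * c' x + 1 = 2 * c' y + 1 := h1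
        omega
      · intro h1
        show 2 * c' x + 1 = 2 * c' y + 1
        rw [h1])]
  · intro σ h1 _ a
    have h2 := h1 (Sum.inl a)
    rcases hx : σ (Sum.inl a) with b | b
    · rfl
    · rw [hx] at h2
      simp only [Sum.elim_inl, Sum.elim_inr] at h2
      omega

theorem sx06_ne {n : ℕ} (N : ℕ) (r1 c1 r2 c2 r3 c3 w1 w2 w3 : Fin n → ℕ)
    (h : tri r1 c1 r2 c2 r3 c3 w1 w2 w3 ≠ 0) (hN1 : ∀ x, r1 x < N) (hN2 : ∀ x, r2 x < N)
    (hN3 : ∀ x, r3 x < N) : pol N r1 c1 r2 c2 r3 c3 ≠ 0 := by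
  rw [pol_ne_zero_iff]
  obtain ⟨g1, g2, g3, e1, e2, e3⟩ := tri_word h
  subst e1 e2 e3
  exact ⟨fun x => ⟨r1 (g1 x), hN1 _⟩, fun x => ⟨r2 (g2 x), hN2 _⟩, fun x => ⟨r3 (g3 x), hN3 _⟩, h⟩

theorem sx06_mul {n n' : ℕ} (N : ℕ) (r1 c1 r2 c2 r3 c3 : Fin n → ℕ)
    (r1' c1' r2' c2' r3' c3' : Fin n' → ℕ) :
    pol N (Sum.elim r1 r1') (Sum.elim (fun x => 2 * c1 x) (fun x => 2 * c1' x + 1))
      (Sum.elim r2 r2') (Sum.elim (fun x => 2 * c2 x) (fun x => 2 * c2' x + 1))
      (Sum.elim r3 r3') (Sum.elim (fun x => 2 * c3 x) (fun x => 2 * c3' x + 1)) =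
      pol N r1 c1 r2 c2 r3 c3 * pol N r1' c1' r2' c2' r3' c3' := by
  unfold pol
  rw [Finset.sum_mul_sum, ← Fintype.sum_prod_type',
    ← (Equiv.sumArrowEquivProdArrow (Fin n) (Fin n') (Fin N × Fin N × Fin N)).symm.sum_comp]
  refine Finset.sum_congr rfl fun p _ => ?_
  obtain ⟨u, v⟩ := p
  have e0 : ((Equiv.sumArrowEquivProdArrow (Fin n) (Fin n') (Fin N × Fin N × Fin N)).symm (u, v)) =
      Sum.elim u v := rfl
  rw [e0]
  have e1 : (fun x => (((Sum.elim u v) x).1 : ℕ)) =
      Sum.elim (fun x => ((u x).1 : ℕ)) (fun x => ((v x).1 : ℕ)) := by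
    funext x
    rcases x with x | x <;> rfl
  have e2 : (fun x => (((Sum.elim u v) x).2.1 : ℕ)) =
      Sum.elim (fun x => ((u x).2.1 : ℕ)) (fun x => ((v x).2.1 : ℕ)) := by
    funext x
    rcases x with x | x <;> rfl
  have e3 : (fun x => (((Sum.elim u v) x).2.2 : ℕ)) =
      Sum.elim (fun x => ((u x).2.2 : ℕ)) (fun x => ((v x).2.2 : ℕ)) := by
    funext x
    rcases x with x | x <;> rfl
  rw [e1, e2, e3, sx06_pt, sx06_pt, sx06_pt, Fintype.prod_sum_type]
  simp only [Sum.elim_inl, Sum.elim_inr]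
  push_cast
  simp only [map_mul]
  ring

theorem sx06_bound {n : ℕ} (r : Fin n → ℕ) (x : Fin n) : r x < (∑ y, r y) + 1 :=
  Nat.lt_succ_of_le (Finset.single_le_sum (f := r) (fun _ _ => Nat.zero_le _) (Finset.mem_univ x))

theorem G_add (l1 k1 m1 l2 k2 m2 : ℕ → ℕ) (h1 : G l1 k1 m1) (h2 : G l2 k2 m2) :
    G (fun i => l1 i + l2 i) (fun i => k1 i + k2 i) (fun i => m1 i + m2 i) := by
  obtain ⟨n, r1, c1, r2, c2, r3, c3, t1, t2, t3, w1, w2, w3, hw⟩ := h1
  obtain ⟨n', r1', c1', r2', c2', r3', c3', t1', t2', t3', w1', w2', w3', hw'⟩ := h2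
  set N := ((∑ y, r1 y) + 1) + ((∑ y, r2 y) + 1) + ((∑ y, r3 y) + 1) +
    (((∑ y, r1' y) + 1) + ((∑ y, r2' y) + 1) + ((∑ y, r3' y) + 1)) with hN
  have p1 : pol N r1 c1 r2 c2 r3 c3 ≠ 0 := sx06_ne N _ _ _ _ _ _ _ _ _ hw
    (fun x => by have := sx06_bound r1 x; omega) (fun x => by have := sx06_bound r2 x; omega)
    (fun x => by have := sx06_bound r3 x; omega)
  have p2 : pol N r1' c1' r2' c2' r3' c3' ≠ 0 := sx06_ne N _ _ _ _ _ _ _ _ _ hw'
    (fun x => by have := sx06_bound r1' x; omega) (fun x => by have := sx06_bound r2' x; omega)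
    (fun x => by have := sx06_bound r3' x; omega)
  have p3 := mul_ne_zero p1 p2
  rw [← sx06_mul, pol_ne_zero_iff] at p3
  obtain ⟨v1, v2, v3, hv⟩ := p3
  exact G_of _ _ _ _ _ _ _ _ _ (sx06_tab t1 t1') (sx06_tab t2 t2') (sx06_tab t3 t3') _ _ _ hv

theorem sx06_row (tau : ℕ → ℕ) (t : ℕ) (htau : IsPart tau t) :
    G tau tau (fun i => if i = 0 then t else 0) := by
  obtain ⟨row, col, hs⟩ := exists_tab tau t htau
  refine ⟨t, row, col, row, col, fun _ => 0, fun x => x.val, hs.toIsTab, hs.toIsTab,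
    ⟨fun x y _ h => Fin.ext h, fun x i hi => absurd hi (Nat.not_lt_zero i), fun i => ?_⟩,
    row, row, fun _ => 0, ?_⟩
  · by_cases hi : i = 0
    · rw [if_pos hi, Finset.filter_true_of_mem (fun x _ => hi.symm), Finset.card_univ,
        Fintype.card_fin]
    · rw [if_neg hi, Finset.filter_false_of_mem (fun x _ => fun h => hi h.symm), Finset.card_empty]
  · unfold tri
    have h1 : ∀ g : Equiv.Perm (Fin t), pt (fun _ : Fin t => 0) (fun x : Fin t => x.val)
        ((fun _ => 0) ∘ g) = 1 := by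
      intro g
      have := pt_of (fun _ : Fin t => 0) (fun x : Fin t => x.val) (fun x y _ h => Fin.ext h) 1
        (fun x => rfl)
      rw [Equiv.Perm.sign_one] at this
      exact this
    have h2 : pt row col (row ∘ (1 : Equiv.Perm (Fin t))) = 1 := by
      have := pt_of row col hs.inj 1 (fun x => rfl)
      rw [Equiv.Perm.sign_one] at this
      exact this
    have h3 : 0 < ∑ g : Equiv.Perm (Fin t), pt row col (row ∘ g) * pt row col (row ∘ g) *
        pt (fun _ : Fin t => 0) (fun x : Fin t => x.val) ((fun _ => 0) ∘ g) := by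
      refine Finset.sum_pos' (fun g _ => ?_) ⟨1, Finset.mem_univ _, ?_⟩
      · rw [h1, mul_one]
        exact mul_self_nonneg _
      · rw [h1, h2]
        norm_num
    exact h3.ne'

/-- rule S: subtract `t` columns of height one -/
theorem G_S (lam tau mu : ℕ → ℕ) (t : ℕ) (htau : IsPart tau t) (hmu : mu 1 + t ≤ mu 0)
    (h : G lam lam (fun i => if i = 0 then mu 0 - t else mu i)) :
    G (fun i => lam i + tau i) (fun i => lam i + tau i) mu := by
  have h1 := G_add _ _ _ _ _ _ h (sx06_row tau t htau)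
  have e : (fun i => (if i = 0 then mu 0 - t else mu i) + (if i = 0 then t else 0)) = mu := by
    funext i
    by_cases hi : i = 0
    · rw [if_pos hi, if_pos hi, hi]
      omega
    · rw [if_neg hi, if_neg hi, add_zero]
  rw [e] at h1
  exact h1

end Pool.Saxl
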