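import Mathlib
import Pool.Agent.Helper139_Saxl.Defs
import Pool.Agent.Helper139_Saxl.Conf
import Pool.Agent.Helper139_Saxl.J01
import Pool.Agent.Helper139_Saxl.J02
import Pool.Agent.Helper139_Saxl.J04
import Pool.Agent.Helper139_Saxl.J03
import Pool.Agent.Helper139_Saxl.J13
import Pool.Agent.Helper139_Saxl.J16
import Pool.Agent.Helper139_Saxl.J17
import Pool.Agent.Helper139_Saxl.J19

set_option autoImplicit false

/-! Job SX-20: top band with parts x, x-2. -/

namespace Pool.Saxl

open Finset

theorem sx20_tri_col {Ω : Type} [Fintype Ω] [DecidableEq Ω] (r1 c1 c1' r2 c2 c2' r3 c3 : Ω → ℕ)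
    (h1 : ∀ x y, c1 x = c1 y ↔ c1' x = c1' y) (h2 : ∀ x y, c2 x = c2 y ↔ c2' x = c2' y)
    (w1 w2 w3 : Ω → ℕ) :
    tri r1 c1 r2 c2 r3 c3 w1 w2 w3 = tri r1 c1' r2 c2' r3 c3 w1 w2 w3 := by
  unfold tri
  apply Finset.sum_congr rfl
  intro g _
  rw [pt_col r1 c1 c1' _ h1, pt_col r2 c2 c2' _ h2]

theorem sx20_cj_le (mu nu : ℕ → ℕ) (n n' : ℕ) (hnu : IsPart nu n) (hmu : IsPart mu n')
    (h : ∀ i, nu i ≤ mu i) (j : ℕ) : cj nu j ≤ cj mu j := by
  by_contra hcon
  push Not at hcon
  have h1 := (lt_cj_iff nu n hnu (cj mu j) j).1 hcon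
  have h2 := (lt_cj_iff mu n' hmu (cj mu j) j).2 (lt_of_lt_of_le h1 (h _))
  exact lt_irrefl _ h2

theorem sx20_sum (mu nu : ℕ → ℕ) (n n' : ℕ) (hnu : IsPart nu n) (hmu : IsPart mu n')
    (h : ∀ i, nu i ≤ mu i) (hn : n ≤ n') :
    (∑ j ∈ range n', (cj mu j - cj nu j)) + n = n' := by
  have h1 := (isPart_cj mu n' hmu).sum
  have h2 := (isPart_cj nu n hnu).sum
  have h3 : ∑ j ∈ range n', cj nu j = n := by
    rw [← h2]
    symm
    apply Finset.sum_subset (Finset.range_subset_range.2 hn)
    intro j _ hj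
    rw [Finset.mem_range, not_lt] at hj
    exact (isPart_cj nu n hnu).zero j hj
  have h4 : ∑ j ∈ range n', (cj mu j - cj nu j) + ∑ j ∈ range n', cj nu j =
      ∑ j ∈ range n', cj mu j := by
    rw [← Finset.sum_add_distrib]
    apply Finset.sum_congr rfl
    intro j _
    exact Nat.sub_add_cancel (sx20_cj_le mu nu n n' hnu hmu h j)
  rw [h3, h1] at h4
  exact h4

theorem sx20_le_n (mu : ℕ → ℕ) (n : ℕ) (hmu : IsPart mu n) (i : ℕ) : mu i ≤ n := by
  by_cases hi : i < n
  · have := hmu.sum
    calc mu i ≤ ∑ i ∈ range n, mu i :=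
          Finset.single_le_sum (fun _ _ => Nat.zero_le _) (Finset.mem_range.2 hi)
      _ = n := this
  · rw [hmu.zero i (not_lt.1 hi)]
    exact Nat.zero_le _

theorem sx20_card_even (m : ℕ) :
    (univ.filter fun s : Fin (2 * m + 1) => s.1 % 2 = 0).card = m + 1 := by
  have h : (univ.filter fun s : Fin (2 * m + 1) => s.1 % 2 = 0) =
      (univ : Finset (Fin (m + 1))).image (fun i => (⟨2 * i.1, by omega⟩ : Fin (2 * m + 1))) := by
    ext s
    simp only [Finset.mem_filter, Finset.mem_univ, true_and, Finset.mem_image]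
    constructor
    · intro hs
      exact ⟨⟨s.1 / 2, by omega⟩, Fin.ext (by simp only; omega)⟩
    · rintro ⟨i, rfl⟩
      simp only
      omega
  rw [h, Finset.card_image_of_injective, Finset.card_univ, Fintype.card_fin]
  intro a b hab
  have := congrArg Fin.val hab
  simp only at this
  exact Fin.ext (by omega)

theorem sx20_card_odd (m : ℕ) :
    (univ.filter fun s : Fin (2 * m + 1) => s.1 % 2 = 1).card = m := by
  have h : (univ.filter fun s : Fin (2 * m + 1) => s.1 % 2 = 1) =
      (univ : Finset (Fin m)).image (fun i => (⟨2 * i.1 + 1, by omega⟩ : Fin (2 * m + 1))) := by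
    ext s
    simp only [Finset.mem_filter, Finset.mem_univ, true_and, Finset.mem_image]
    constructor
    · intro hs
      exact ⟨⟨s.1 / 2, by omega⟩, Fin.ext (by simp only; omega)⟩
    · rintro ⟨i, rfl⟩
      simp only
      omega
  rw [h, Finset.card_image_of_injective, Finset.card_univ, Fintype.card_fin]
  intro a b hab
  have := congrArg Fin.val hab
  simp only at this
  exact Fin.ext (by omega)

theorem sx20_card_sum {A B : Type} [Fintype A] [Fintype B] (f : A → ℕ) (g : B → ℕ) (i : ℕ) :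
    (univ.filter fun z : A ⊕ B => Sum.elim f g z = i).card =
      (univ.filter fun a => f a = i).card + (univ.filter fun b => g b = i).card := by
  rw [Finset.card_filter, Finset.card_filter, Finset.card_filter, Fintype.sum_sum_type]
  rfl

/-- the row counts -/
theorem sx20_card (y1 y2 x : ℕ) (hy : y1 + y2 + 2 = x) (L : List ℕ) (hL : Bands L) (i : ℕ) :
    (univ.filter fun z : (Fin (2 * y1 + 1) ⊕ Fin (2 * y2 + 1)) ⊕ Om L =>
      Sum.elim (Sum.elim (fun s : Fin (2 * y1 + 1) => s.1 % 2)
        (fun s : Fin (2 * y2 + 1) => s.1 % 2)) (fun y => omR L y + 2) z = i).card =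
      if i = 0 then x else if i = 1 then x - 2 else bandShape L (i - 2) := by
  rw [sx20_card_sum, sx20_card_sum]
  by_cases h0 : i = 0
  · subst h0
    rw [sx20_card_even, sx20_card_even, if_pos rfl]
    have : (univ.filter fun y : Om L => omR L y + 2 = 0) = ∅ := by
      apply Finset.filter_false_of_mem
      intro y _
      omega
    rw [this, Finset.card_empty]
    omega
  · rw [if_neg h0]
    by_cases h1 : i = 1
    · subst h1
      rw [sx20_card_odd, sx20_card_odd, if_pos rfl]
      have : (univ.filter fun y : Om L => omR L y + 2 = 1) = ∅ := by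
        apply Finset.filter_false_of_mem
        intro y _
        omega
      rw [this, Finset.card_empty]
      omega
    · rw [if_neg h1]
      have e1 : (univ.filter fun s : Fin (2 * y1 + 1) => s.1 % 2 = i) = ∅ := by
        apply Finset.filter_false_of_mem
        intro y _
        omega
      have e2 : (univ.filter fun s : Fin (2 * y2 + 1) => s.1 % 2 = i) = ∅ := by
        apply Finset.filter_false_of_mem
        intro y _
        omega
      rw [e1, e2, Finset.card_empty, Finset.card_empty, zero_add, zero_add,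
        ← (isTab_om L hL).1.card (i - 2)]
      congr 1
      apply Finset.filter_congr
      intro y _
      omega

/-- the third tableau -/
theorem sx20_tab3 {A1 A2 B : Type} [Fintype A1] [Fintype A2] [Fintype B]
    (mu nu : ℕ → ℕ) (n' : ℕ) (hmu : IsPart mu n') (hsub : ∀ i, nu i ≤ mu i) (j : ℕ)
    (r1 c1 : A1 → ℕ) (r2 c2 : A2 → ℕ) (r3 c3 : B → ℕ) (h3 : IsStd r3 c3 nu)
    (i1 : ∀ s t, r1 s = r1 t → c1 s = c1 t → s = t)
    (i2 : ∀ s t, r2 s = r2 t → c2 s = c2 t → s = t)
    (m1 : ∀ s, c1 s = j ∧ nu (r1 s) ≤ c1 s ∧ c1 s < mu (r1 s))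
    (m2 : ∀ s, (c2 s < n' ∧ c2 s ≠ j) ∧ nu (r2 s) ≤ c2 s ∧ c2 s < mu (r2 s))
    (e1 : ∀ i, nu i ≤ j → j < mu i → ∃ s, r1 s = i ∧ c1 s = j)
    (e2 : ∀ i c, c < n' → c ≠ j → nu i ≤ c → c < mu i → ∃ s, r2 s = i ∧ c2 s = c) :
    IsTab (Sum.elim (Sum.elim r1 r2) r3) (Sum.elim (Sum.elim c1 c2) c3) mu := by
  have hlt : ∀ z, Sum.elim (Sum.elim c1 c2) c3 z < mu (Sum.elim (Sum.elim r1 r2) r3 z) := by
    rintro ((s | s) | s)
    · exact (m1 s).2.2
    · exact (m2 s).2.2
    · exact lt_of_lt_of_le (h3.lt s) (hsub _)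
  have hsurj : ∀ i c, c < mu i → ∃ z, Sum.elim (Sum.elim c1 c2) c3 z = c ∧
      Sum.elim (Sum.elim r1 r2) r3 z = i := by
    intro i c hc
    by_cases hn : c < nu i
    · obtain ⟨b, hb1, hb2⟩ := std_surj r3 c3 nu h3 i c hn
      exact ⟨Sum.inr b, hb2, hb1⟩
    · rw [not_lt] at hn
      by_cases hj : c = j
      · subst hj
        obtain ⟨s, hs1, hs2⟩ := e1 i hn hc
        exact ⟨Sum.inl (Sum.inl s), hs2, hs1⟩
      · obtain ⟨s, hs1, hs2⟩ := e2 i c (lt_of_lt_of_le hc (sx20_le_n mu n' hmu i)) hj hn hc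
        exact ⟨Sum.inl (Sum.inr s), hs2, hs1⟩
  have hinj : ∀ z z', Sum.elim (Sum.elim r1 r2) r3 z = Sum.elim (Sum.elim r1 r2) r3 z' →
      Sum.elim (Sum.elim c1 c2) c3 z = Sum.elim (Sum.elim c1 c2) c3 z' → z = z' := by
    rintro ((s | s) | s) ((t | t) | t) hr hc
    · simp only [Sum.elim_inl] at hr hc
      rw [i1 s t hr hc]
    · simp only [Sum.elim_inl, Sum.elim_inr] at hr hc
      exact absurd (hc.symm.trans (m1 s).1) (m2 t).1.2
    · simp only [Sum.elim_inl, Sum.elim_inr] at hr hc
      have h1 := (m1 s).2.1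
      have h2 := h3.lt t
      rw [hr, hc] at h1
      exact absurd h1 (not_le.2 h2)
    · simp only [Sum.elim_inl, Sum.elim_inr] at hr hc
      exact absurd (hc.trans (m1 t).1) (m2 s).1.2
    · simp only [Sum.elim_inl, Sum.elim_inr] at hr hc
      rw [i2 s t hr hc]
    · simp only [Sum.elim_inl, Sum.elim_inr] at hr hc
      have h1 := (m2 s).2.1
      have h2 := h3.lt t
      rw [hr, hc] at h1
      exact absurd h1 (not_le.2 h2)
    · simp only [Sum.elim_inl, Sum.elim_inr] at hr hc
      have h1 := (m1 t).2.1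
      have h2 := h3.lt s
      rw [← hr, ← hc] at h1
      exact absurd h1 (not_le.2 h2)
    · simp only [Sum.elim_inl, Sum.elim_inr] at hr hc
      have h1 := (m2 t).2.1
      have h2 := h3.lt s
      rw [← hr, ← hc] at h1
      exact absurd h1 (not_le.2 h2)
    · simp only [Sum.elim_inr] at hr hc
      rw [h3.inj s t hr hc]
  refine ⟨hinj, ?_, ?_⟩
  · intro z i hi
    exact hsurj i _ (lt_of_lt_of_le (hlt z) (hmu.anti hi.le))
  · intro i
    have h1 : (univ.filter fun z => Sum.elim (Sum.elim r1 r2) r3 z = i).image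
        (Sum.elim (Sum.elim c1 c2) c3) = range (mu i) := by
      ext c
      rw [Finset.mem_image, Finset.mem_range]
      constructor
      · rintro ⟨z, hz, rfl⟩
        rw [Finset.mem_filter] at hz
        rw [← hz.2]
        exact hlt z
      · intro hc
        obtain ⟨z, hz1, hz2⟩ := hsurj i c hc
        exact ⟨z, Finset.mem_filter.2 ⟨Finset.mem_univ _, hz2⟩, hz1⟩
    rw [← Finset.card_range (mu i), ← h1, Finset.card_image_of_injOn]
    intro z hz z' hz' hzz
    rw [Finset.mem_coe, Finset.mem_filter] at hz hz'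
    exact hinj z z' (hz.2.trans hz'.2.symm) hzz





/-- the top band has the rows `x, x-2`; two columns of `mu / nu` are odd -/
theorem G_top2 (x : ℕ) (L : List ℕ) (hx : 2 ≤ x) (hL : Bands L) (hxL : ∀ y ∈ L, y + 3 ≤ x)
    (mu nu : ℕ → ℕ) (hnu : IsPart nu (bandSum L)) (hmu : IsPart mu (2 * x - 2 + bandSum L))
    (h4 : Skew4 mu nu) (j j' : ℕ) (hjj : j ≠ j') (hj : (cj mu j - cj nu j) % 2 = 1)
    (hj' : (cj mu j' - cj nu j') % 2 = 1) (h : PV L nu) :
    G (fun i => if i = 0 then x else if i = 1 then x - 2 else bandShape L (i - 2))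
      (fun i => if i = 0 then x else if i = 1 then x - 2 else bandShape L (i - 2)) mu := by
  have hsub : ∀ i, nu i ≤ mu i := fun i => (h4 i).1
  have hsum := sx20_sum mu nu (bandSum L) (2 * x - 2 + bandSum L) hnu hmu hsub (by omega)
  have hmem : ∀ c, (cj mu c - cj nu c) % 2 = 1 → c < 2 * x - 2 + bandSum L := by
    intro c hc
    have h1 : 0 < cj mu c := by omega
    have h2 := (lt_cj_iff mu _ hmu 0 c).1 h1
    exact lt_of_lt_of_le h2 (sx20_le_n mu _ hmu 0)
  have hjm := hmem j hj
  have hjm' := hmem j' hj'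
  obtain ⟨y1, hy1⟩ : ∃ y1, cj mu j - cj nu j = 2 * y1 + 1 := ⟨(cj mu j - cj nu j) / 2, by omega⟩
  have hsplit := Finset.add_sum_erase (range (2 * x - 2 + bandSum L))
    (fun c => cj mu c - cj nu c) (Finset.mem_range.2 hjm)
  have hpos : 1 ≤ ∑ c ∈ (range (2 * x - 2 + bandSum L)).erase j, (cj mu c - cj nu c) := by
    calc 1 ≤ cj mu j' - cj nu j' := by omega
      _ ≤ _ := Finset.single_le_sum (f := fun c => cj mu c - cj nu c)
        (fun _ _ => Nat.zero_le _) (Finset.mem_erase.2 ⟨hjj.symm, Finset.mem_range.2 hjm'⟩)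
  obtain ⟨y2, hy2⟩ : ∃ y2, y1 + y2 + 2 = x := ⟨x - 2 - y1, by omega⟩
  have hz2 : 2 * y2 + 1 =
      ∑ c ∈ (range (2 * x - 2 + bandSum L)).erase j, (cj mu c - cj nu c) := by omega
  obtain ⟨ra, ca, a1, a2, a3, a4, a5, a6⟩ := skew_enum mu nu _ _ hnu hmu h4 {j} (2 * y1 + 1)
    (by rw [Finset.sum_singleton, hy1])
  obtain ⟨rb, cb, b1, b2, b3, b4, b5, b6⟩ := skew_enum mu nu _ _ hnu hmu h4
    ((range (2 * x - 2 + bandSum L)).erase j) (2 * y2 + 1) hz2
  obtain ⟨r3, c3, h3, u1, u2, u3, hu⟩ := h
  -- the bands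
  have hB : Bands ((x - 1) :: L) := by
    cases L with
    | nil => change 1 ≤ x - 1; omega
    | cons y L' =>
      have := hxL y List.mem_cons_self
      exact ⟨by omega, hL⟩
  have hom := om_lt (x - 1) L hB
  -- the tableaux
  have htabs := isTab_om L hL
  have hshA : ∀ p q : ℕ, p + (if y1 ≤ p then 1 else 0) = q + (if y1 ≤ q then 1 else 0) ↔ p = q := by
    intro p q
    constructor
    · intro hpq
      split_ifs at hpq <;> omega
    · rintro rfl; rfl
  have hshB : ∀ p q : ℕ, p + (if y2 ≤ p then 1 else 0) = q + (if y2 ≤ q then 1 else 0) ↔ p = q := by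
    intro p q
    constructor
    · intro hpq
      split_ifs at hpq <;> omega
    · rintro rfl; rfl
  have hstep := step (A := Fin (2 * y1 + 1) ⊕ Fin (2 * y2 + 1)) (B := Om L)
    (Sum.elim (fun s => s.1 % 2) (fun s => s.1 % 2))
    (Sum.elim (fun s => s.1 / 2) (fun s => y1 + 1 + s.1 / 2))
    (Sum.elim (fun s => s.1 % 2) (fun s => s.1 % 2))
    (Sum.elim (fun s => x - 1 - (s.1 + 1) / 2) (fun s => y2 - (s.1 + 1) / 2))
    (Sum.elim ra rb) (Sum.elim ca cb)
    (omR L) (fun y => omA L y + (if y1 ≤ omA L y then 1 else 0))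
    (omR L) (fun y => omB L y + (if y2 ≤ omB L y then 1 else 0))
    r3 c3 (x - 2)
    (by rintro (s | s) <;> simp only [Sum.elim_inl, Sum.elim_inr] <;> omega)
    (by rintro (s | s) <;> simp only [Sum.elim_inl, Sum.elim_inr] <;> omega)
    (by rintro (s | s) <;> simp only [Sum.elim_inl, Sum.elim_inr] <;> omega)
    (by
      intro y
      have := hom y
      split_ifs <;> omega)
    (by
      rintro (s | s) y hs
      · simp only [Sum.elim_inl] at hs ⊢
        have e1 := (a5 s).2.1
        have e2 := h3.lt y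
        rw [← hs] at e2
        by_contra hcon
        rw [not_lt] at hcon
        exact absurd (e1.trans_lt e2) (not_lt.2 (hnu.anti hcon))
      · simp only [Sum.elim_inr] at hs ⊢
        have e1 := (b5 s).2.1
        have e2 := h3.lt y
        rw [← hs] at e2
        by_contra hcon
        rw [not_lt] at hcon
        exact absurd (e1.trans_lt e2) (not_lt.2 (hnu.anti hcon)))
    (by
      apply local2 y1 y2
      · rintro (s | s) (t | t)
        · simp
        · simp only [Sum.elim_inl, Sum.elim_inr, Sum.map_inl, Sum.map_inr, reduceCtorEq, iff_false]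
          omega
        · simp only [Sum.elim_inl, Sum.elim_inr, Sum.map_inl, Sum.map_inr, reduceCtorEq, iff_false]
          omega
        · simp
      · rintro (s | s) (t | t)
        · simp only [Sum.elim_inl, Sum.map_inl, Sum.inl.injEq]
          omega
        · simp only [Sum.elim_inl, Sum.elim_inr, Sum.map_inl, Sum.map_inr, reduceCtorEq, iff_false]
          omega
        · simp only [Sum.elim_inl, Sum.elim_inr, Sum.map_inl, Sum.map_inr, reduceCtorEq, iff_false]
          omega
        · simp only [Sum.elim_inr, Sum.map_inr, Sum.inr.injEq]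
          omega
      · exact a1
      · exact b1
      · intro s t
        simp only [Sum.elim_inl, Sum.elim_inr]
        have e1 := Finset.mem_singleton.1 (a5 s).1
        have e2 := Finset.ne_of_mem_erase (b5 t).1
        rw [e1]
        exact e2.symm
      · exact a2
      · exact b2
      · exact a3
      · exact b3)
    ⟨u1, u2, u3, by
      rw [← sx20_tri_col (omR L) (omA L) _ (omR L) (omB L) _ r3 c3
        (fun p q => (hshA _ _).symm) (fun p q => (hshB _ _).symm)]
      exact hu⟩
  obtain ⟨w1, w2, w3, hw⟩ := hstep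
  refine G_of _ _ _ _ _ _ _ _ _ ?_ ?_ ?_ w1 w2 w3 hw
  · refine ⟨?_, ?_, ?_⟩
    · rintro ((s | s) | s) ((t | t) | t) hr hc <;>
        simp only [Sum.elim_inl, Sum.elim_inr] at hr hc
      · rw [Fin.ext (show s.1 = t.1 by omega)]
      · omega
      · omega
      · omega
      · rw [Fin.ext (show s.1 = t.1 by omega)]
      · omega
      · omega
      · omega
      · rw [htabs.1.inj s t (by omega) ((hshA _ _).1 hc)]
    · rintro ((s | s) | s) i hi <;> simp only [Sum.elim_inl, Sum.elim_inr] at hi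
      · refine ⟨Sum.inl (Sum.inl ⟨s.1 - 1, by omega⟩), ?_, ?_⟩ <;>
          simp only [Sum.elim_inl] <;> omega
      · refine ⟨Sum.inl (Sum.inr ⟨s.1 - 1, by omega⟩), ?_, ?_⟩ <;>
          simp only [Sum.elim_inl, Sum.elim_inr] <;> omega
      · by_cases hi2 : 2 ≤ i
        · obtain ⟨y, hy1', hy2'⟩ := htabs.1.down s (i - 2) (by omega)
          refine ⟨Sum.inr y, ?_, ?_⟩
          · simp only [Sum.elim_inr]
            rw [hy1']
          · simp only [Sum.elim_inr]
            omega
        · have := hom s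
          by_cases hs : y1 ≤ omA L s
          · refine ⟨Sum.inl (Sum.inr ⟨2 * (omA L s - y1) + i, by omega⟩), ?_, ?_⟩
            · simp only [Sum.elim_inl, Sum.elim_inr, if_pos hs]
              omega
            · simp only [Sum.elim_inl, Sum.elim_inr]
              omega
          · refine ⟨Sum.inl (Sum.inl ⟨2 * omA L s + i, by omega⟩), ?_, ?_⟩
            · simp only [Sum.elim_inl, Sum.elim_inr, if_neg hs]
              omega
            · simp only [Sum.elim_inl]
              omega
    · exact sx20_card y1 y2 x hy2 L hL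
  · refine ⟨?_, ?_, ?_⟩
    · rintro ((s | s) | s) ((t | t) | t) hr hc <;>
        simp only [Sum.elim_inl, Sum.elim_inr] at hr hc
      · rw [Fin.ext (show s.1 = t.1 by omega)]
      · omega
      · omega
      · omega
      · rw [Fin.ext (show s.1 = t.1 by omega)]
      · omega
      · omega
      · omega
      · rw [htabs.2.inj s t (by omega) ((hshB _ _).1 hc)]
    · rintro ((s | s) | s) i hi <;> simp only [Sum.elim_inl, Sum.elim_inr] at hi
      · refine ⟨Sum.inl (Sum.inl ⟨s.1 + 1, by omega⟩), ?_, ?_⟩ <;>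
          simp only [Sum.elim_inl] <;> omega
      · refine ⟨Sum.inl (Sum.inr ⟨s.1 + 1, by omega⟩), ?_, ?_⟩ <;>
          simp only [Sum.elim_inl, Sum.elim_inr] <;> omega
      · by_cases hi2 : 2 ≤ i
        · obtain ⟨y, hy1', hy2'⟩ := htabs.2.down s (i - 2) (by omega)
          refine ⟨Sum.inr y, ?_, ?_⟩
          · simp only [Sum.elim_inr]
            rw [hy1']
          · simp only [Sum.elim_inr]
            omega
        · have := hom s
          by_cases hs : y2 ≤ omB L s
          · refine ⟨Sum.inl (Sum.inl ⟨2 * (x - 2 - omB L s) - i, by omega⟩), ?_, ?_⟩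
            · simp only [Sum.elim_inl, Sum.elim_inr, if_pos hs]
              omega
            · simp only [Sum.elim_inl]
              omega
          · refine ⟨Sum.inl (Sum.inr ⟨2 * (y2 - omB L s) - i, by omega⟩), ?_, ?_⟩
            · simp only [Sum.elim_inl, Sum.elim_inr, if_neg hs]
              omega
            · simp only [Sum.elim_inl, Sum.elim_inr]
              omega
    · exact sx20_card y1 y2 x hy2 L hL
  · apply sx20_tab3 mu nu _ hmu hsub j ra ca rb cb r3 c3 h3 a4 b4
    · intro s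
      exact ⟨Finset.mem_singleton.1 (a5 s).1, (a5 s).2⟩
    · intro s
      have e := Finset.mem_erase.1 (b5 s).1
      exact ⟨⟨Finset.mem_range.1 e.2, e.1⟩, (b5 s).2⟩
    · intro i h1 h2
      exact a6 i j (Finset.mem_singleton_self _) h1 h2
    · intro i c h1 h2 h3 h4
      exact b6 i c (Finset.mem_erase.2 ⟨h2, Finset.mem_range.2 h1⟩) h3 h4

end Pool.Saxl
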