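import Mathlib
import Pool.Agent.Helper139_Saxl.Defs
import Pool.Agent.Helper139_Saxl.Fam
import Pool.Agent.Helper139_Saxl.J04
import Pool.Agent.Helper139_Saxl.J12
import Pool.Agent.Helper139_Saxl.J21
import Pool.Agent.Helper139_Saxl.J06
import Pool.Agent.Helper139_Saxl.J23

set_option autoImplicit false

/-! Job SX-24: flip rule. -/

namespace Pool.Saxl

open Finset

theorem sx24_isPart (mu : ℕ → ℕ) (N n : ℕ) (ha : Antitone mu) (hz : ∀ i, N ≤ i → mu i = 0)
    (hs : ∑ i ∈ range N, mu i = n) : IsPart mu n := by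
  have hz' : ∀ i, n ≤ i → mu i = 0 := by
    intro i hi
    by_contra hne
    have hiN : i < N := by
      by_contra h; exact hne (hz i (by omega))
    have h1 : ∑ j ∈ range (i + 1), 1 ≤ ∑ j ∈ range (i + 1), mu j := by
      apply sum_le_sum
      intro j hj
      have := ha (show j ≤ i by have := mem_range.1 hj; omega)
      omega
    have h2 : ∑ j ∈ range (i + 1), mu j ≤ ∑ j ∈ range N, mu j :=
      sum_le_sum_of_subset (range_subset_range.2 (by omega))
    simp at h1
    omega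
  refine ⟨ha, hz', ?_⟩
  rcases le_total n N with h | h
  · refine Eq.trans ?_ hs
    apply sum_subset (range_subset_range.2 h)
    intro i _ hi
    exact hz' i (by simpa using hi)
  · refine Eq.trans ?_ hs
    symm
    apply sum_subset (range_subset_range.2 h)
    intro i _ hi
    exact hz i (by simpa using hi)

theorem sx24_sum (mu : ℕ → ℕ) (n N : ℕ) (h : IsPart mu n) (hN : n ≤ N) :
    ∑ i ∈ range N, mu i = n := by
  rw [← h.sum]
  symm
  apply sum_subset (range_subset_range.2 hN)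
  intro i _ hi
  exact h.zero i (by simpa using hi)

theorem sx24_shift (lam : ℕ → ℕ) (n : ℕ) (h : IsPart lam n) :
    IsPart (fun i => lam (i + 1)) (n - lam 0) := by
  apply sx24_isPart _ n
  · intro i j hij; exact h.anti (by omega)
  · intro i hi; exact h.zero _ (by omega)
  · have h1 := sx24_sum lam n (n + 1) h (by omega)
    rw [sum_range_succ'] at h1
    omega

theorem sx24_step (lam mu : ℕ → ℕ) (n : ℕ) (hlam : IsPart lam n) (hs : Strict lam)
    (hmu : IsPart mu n) (hz : lam 0 ≤ area mu 1)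
    (H : ∀ nu : ℕ → ℕ, IsPart nu (n - lam 0) →
      (∀ i, area nu i = min (area mu i) (area mu (i + 1) - lam 0)) →
      G (fun i => lam (i + 1)) (fun i => lam (i + 1)) nu) : G lam lam mu := by
  obtain ⟨nu, h1, h2, h3⟩ := greedy 1 le_rfl mu n (lam 0) hmu hz
  exact G_strip lam mu nu n hlam hs hmu h1 h2 (H nu h1 h3)

theorem sx24_cut (mu : ℕ → ℕ) (n t : ℕ) (h : IsPart mu (n + t)) (ht : mu 1 + t ≤ mu 0) :
    IsPart (fun i => if i = 0 then mu 0 - t else mu i) n := by
  apply sx24_isPart _ (n + t + 1)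
  · apply antitone_nat_of_succ_le
    intro i
    rcases Nat.eq_zero_or_pos i with rfl | hi
    · simp; omega
    · rw [if_neg (by omega), if_neg (by omega)]
      exact h.anti (by omega)
  · intro i hi
    rw [if_neg (by omega)]
    exact h.zero i (by omega)
  · have h1 := sx24_sum mu (n + t) (n + t + 1) h (by omega)
    rw [sum_range_succ'] at h1 ⊢
    have h2 : ∑ i ∈ range (n + t), (if i + 1 = 0 then mu 0 - t else mu (i + 1)) =
        ∑ i ∈ range (n + t), mu (i + 1) := by
      apply sum_congr rfl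
      intro i _
      rw [if_neg (by omega)]
    rw [h2]
    simp only [if_true]
    omega

theorem sx24_tau_part (p q r s : ℕ) (h1 : q ≤ p) (h2 : r ≤ q) (h3 : s ≤ r) :
    IsPart (fun i => if i = 0 then p else if i = 1 then q else if i = 2 then r else
      if i = 3 then s else 0) (p + q + r + s) := by
  apply sx24_isPart _ 4
  · apply antitone_nat_of_succ_le
    intro i
    rcases i with _ | _ | _ | _ | i <;> simp <;> omega
  · intro i hi
    rw [if_neg (by omega), if_neg (by omega), if_neg (by omega), if_neg (by omega)]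
  · simp [sum_range_succ]

theorem sx24_add (lam tau : ℕ → ℕ) (n m : ℕ) (h1 : IsPart lam n) (h2 : IsPart tau m) :
    IsPart (fun i => lam i + tau i) (n + m) := by
  apply sx24_isPart _ (n + m)
  · intro i j hij; exact Nat.add_le_add (h1.anti hij) (h2.anti hij)
  · intro i hi
    show lam i + tau i = 0
    rw [h1.zero i (by omega), h2.zero i (by omega)]
  · rw [sum_add_distrib, sx24_sum lam n _ h1 (by omega), sx24_sum tau m _ h2 (by omega)]

theorem sx24_lamF (k a e b : ℕ) (hb : b ≤ a) :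
    lamF k a e b = fun i => rho k i + (if i = 0 then a + e else if i = 1 then a else
      if i = 2 then b else if i = 3 then b else 0) := by
  funext i
  unfold lamF rho
  rcases i with _ | _ | _ | _ | i <;> simp

theorem sx24_lamF_part (k a e b : ℕ) (hb : b ≤ a) :
    IsPart (lamF k a e b) (k * (k + 1) / 2 + (2 * a + e + 2 * b)) := by
  rw [sx24_lamF k a e b hb]
  have h := sx24_add _ _ _ _ (isPart_rho k) (sx24_tau_part (a + e) a b b (by omega) hb le_rfl)
  have e1 : a + e + a + b + b = 2 * a + e + 2 * b := by ring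
  rwa [e1] at h

theorem sx24_strict (k a e b : ℕ) (hk : 2 ≤ k) (hb : b = 0 ∨ (8 ≤ k ∧ 3 * b ≤ a)) :
    Strict (lamF k a e b) := by
  intro i
  unfold lamF
  rcases i with _ | _ | _ | _ | i <;> simp <;> omega

theorem sx24_shift_strict (lam : ℕ → ℕ) (h : Strict lam) : Strict (fun i => lam (i + 1)) :=
  fun i => h (i + 1)

theorem sx24_area_one (mu : ℕ → ℕ) : area mu 1 = mu 0 := by simp [area]
theorem sx24_area_two (mu : ℕ → ℕ) : area mu 2 = mu 0 + mu 1 := by simp [area, sum_range_succ]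
theorem sx24_area_succ (mu : ℕ → ℕ) (s : ℕ) : area mu (s + 1) = area mu s + mu s := by
  simp [area, sum_range_succ]

theorem sx24_tri2 (k : ℕ) (hk : 2 ≤ k) :
    k * (k + 1) / 2 = (k - 2) * (k - 2 + 1) / 2 + (2 * k - 1) := by
  obtain ⟨j, rfl⟩ := Nat.exists_eq_add_of_le hk
  have h1 : (2 + j) * (2 + j + 1) = j * (j + 1) + (2 * (2 + j) - 1) * 2 := by
    have : 2 * (2 + j) - 1 = 2 * j + 3 := by omega
    rw [this]; ring
  rw [h1, Nat.add_mul_div_right _ _ (by norm_num)]
  simp

theorem sx24_tri4 (k : ℕ) (hk : 4 ≤ k) :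
    k * (k + 1) / 2 = (k - 4) * (k - 4 + 1) / 2 + (4 * k - 6) := by
  rw [sx24_tri2 k (by omega), sx24_tri2 (k - 2) (by omega)]
  have : k - 2 - 2 = k - 4 := by omega
  rw [this]
  omega

theorem sx24_ar1 (k a e b m0 m1 m2 N0 : ℕ)
    (h1 : k + a + e ≤ m0)
    (h2 : 2 * k + (2 * a + e + 2 * b) ≤ m0 + m1 + 1) (hk8 : 8 ≤ k)
    (h3 : N0 + 1 ≤ k - 1 + a)
    (B1 : N0 = min (min m0 (m0 + m1 - (k + (a + e))))
      (min (m0 + m1) (m0 + m1 + m2 - (k + (a + e))) - ((k - 1) + a))) :
    N0 = m0 + m1 + m2 - (k + (a + e)) - ((k - 1) + a) := by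
  omega

theorem sx24_ar2 (k a e b m0 m1 m2 m3 N0 N1 : ℕ) (hk8 : 8 ≤ k) (m23 : m3 ≤ m2)
    (h2 : 2 * k + (2 * a + e + 2 * b) ≤ m0 + m1 + 1)
    (B1 : N0 = m0 + m1 + m2 - (k + (a + e)) - ((k - 1) + a))
    (B2 : N0 + N1 = min (min (m0 + m1) (m0 + m1 + m2 - (k + (a + e))))
      (min (m0 + m1 + m2) (m0 + m1 + m2 + m3 - (k + (a + e))) - ((k - 1) + a))) :
    N1 + 2 * b ≤ N0 := by
  have h : N0 + N1 ≤ m0 + m1 + m2 + m3 - (k + (a + e)) - ((k - 1) + a) := by
    rw [B2]
    exact (min_le_right _ _).trans (Nat.sub_le_sub_right (min_le_right _ _) _)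
  clear B2
  omega

theorem sx24_arith (k a e b m0 m1 m2 m3 N0 N1 : ℕ) (hk8 : 8 ≤ k) (hab : 3 * b ≤ a)
    (m23 : m3 ≤ m2) (h1 : k + a + e ≤ m0)
    (h2 : 2 * k + (2 * a + e + 2 * b) ≤ m0 + m1 + 1)
    (B1 : N0 = min (min m0 (m0 + m1 - (k + (a + e))))
      (min (m0 + m1) (m0 + m1 + m2 - (k + (a + e))) - ((k - 1) + a)))
    (B2 : N0 + N1 = min (min (m0 + m1) (m0 + m1 + m2 - (k + (a + e))))
      (min (m0 + m1 + m2) (m0 + m1 + m2 + m3 - (k + (a + e))) - ((k - 1) + a)))
    (hc : ¬ N1 + 2 * b ≤ N0) :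
    (k - 2) + b ≤ N0 ∧ (k - 3) + b ≤ min N0 (N0 + N1 - ((k - 2) + b)) := by
  have h3 : k - 1 + a ≤ N0 := by
    by_contra h
    exact hc (sx24_ar2 k a e b m0 m1 m2 m3 N0 N1 hk8 m23 h2
      (sx24_ar1 k a e b m0 m1 m2 N0 h1 h2 hk8 (by omega) B1) B2)
  clear B1 B2
  omega

theorem sx24_n2 (k a e b : ℕ) (hk : 2 ≤ k) :
    k * (k + 1) / 2 + (2 * a + e + 2 * b) - (k + (a + e)) - ((k - 1) + a) =
      (k - 2) * (k - 2 + 1) / 2 + 2 * b := by
  have := sx24_tri2 k hk
  omega

theorem sx24_n4 (k a e b : ℕ) (hk : 8 ≤ k) :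
    k * (k + 1) / 2 + (2 * a + e + 2 * b) - (k + (a + e)) - ((k - 1) + a) - ((k - 2) + b) -
      ((k - 3) + b) = (k - 4) * (k - 4 + 1) / 2 := by
  have := sx24_tri4 k (by omega)
  omega

theorem sx24_e2 (k a e b : ℕ) : (fun i => rho (k - 2) i + (if i = 0 then b else if i = 1 then b else
    if i = 2 then 0 else if i = 3 then 0 else 0)) = fun i => lamF k a e b (i + 1 + 1) := by
  funext i
  unfold lamF rho
  rcases i with _ | _ | i
  · simp
  · simp; omega
  · simp; omega

theorem sx24_e4 (k a e b : ℕ) : (fun i => lamF k a e b (i + 1 + 1 + 1 + 1)) = rho (k - 4) := by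
  funext i
  unfold lamF rho
  simp; omega

theorem sx24_ar0 (k a e b m0 m1 : ℕ) (hk : 2 ≤ k) (h1 : k + a + e ≤ m0)
    (h2 : 2 * k + (2 * a + e + 2 * b) ≤ m0 + m1 + 1) :
    (k - 1) + a ≤ min m0 (m0 + m1 - (k + (a + e))) := by
  omega


theorem flip (k a e b : ℕ) (he : e ≤ 1) (hk : 2 ≤ k) (hb : b = 0 ∨ (8 ≤ k ∧ 3 * b ≤ a))
    (mu : ℕ → ℕ) (hmu : IsPart mu (k * (k + 1) / 2 + (2 * a + e + 2 * b)))
    (h : FlipC k a e b mu) : G (lamF k a e b) (lamF k a e b) mu := by
  have hba : b ≤ a := by omega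
  rcases h with h | ⟨h1, h2⟩
  · rw [sx24_lamF k a e b hba]
    have htau := sx24_tau_part (a + e) a b b (by omega) hba le_rfl
    have e1 : a + e + a + b + b = 2 * a + e + 2 * b := by ring
    rw [e1] at htau
    exact G_S (rho k) _ mu (2 * a + e + 2 * b) htau h
      (saxl k _ (sx24_cut mu _ _ hmu h))
  · have hP := sx24_lamF_part k a e b hba
    have hS := sx24_strict k a e b hk hb
    have x1 : lamF k a e b 0 = k + (a + e) := by simp [lamF]
    have x2 : lamF k a e b 1 = (k - 1) + a := by simp [lamF]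
    have x3 : lamF k a e b 2 = (k - 2) + b := by simp [lamF]
    have x4 : lamF k a e b 3 = (k - 3) + b := by simp [lamF]
    have m01 : mu 1 ≤ mu 0 := hmu.anti (by omega)
    have m12 : mu 2 ≤ mu 1 := hmu.anti (by omega)
    have m23 : mu 3 ≤ mu 2 := hmu.anti (by omega)
    have M1 : area mu 1 = mu 0 := sx24_area_one mu
    have M2 : area mu 2 = mu 0 + mu 1 := sx24_area_two mu
    have M3 : area mu 3 = mu 0 + mu 1 + mu 2 := by rw [sx24_area_succ, M2]
    have M4 : area mu 4 = mu 0 + mu 1 + mu 2 + mu 3 := by rw [sx24_area_succ, M3]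
    refine sx24_step _ mu _ hP hS hmu (by rw [x1, M1]; omega) fun nu1 hn1 ha1 => ?_
    have hP1 := sx24_shift _ _ hP
    have hS1 := sx24_shift_strict _ hS
    have A1 := ha1 1
    have A2 := ha1 2
    have A3 := ha1 3
    simp only [Nat.reduceAdd] at A1 A2 A3
    rw [M1, M2, x1] at A1
    rw [M2, M3, x1] at A2
    rw [M3, M4, x1] at A3
    refine sx24_step _ nu1 _ hP1 hS1 hn1 ?_ fun nu2 hn2 ha2 => ?_
    · show lamF k a e b 1 ≤ _
      rw [x2, A1]; exact sx24_ar0 k a e b _ _ hk h1 h2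
    have hP2 := sx24_shift _ _ hP1
    have hS2 := sx24_shift_strict _ hS1
    simp only [Nat.reduceAdd, zero_add] at hP2 hn2 ha2
    have B1 := ha2 1
    have B2 := ha2 2
    simp only [Nat.reduceAdd] at B1 B2
    rw [A1, A2, x2] at B1
    rw [A2, A3, x2] at B2
    rw [sx24_area_one] at B1
    rw [sx24_area_two] at B2
    by_cases hc : nu2 1 + 2 * b ≤ nu2 0
    · have hn2' : IsPart nu2 ((k - 2) * (k - 2 + 1) / 2 + 2 * b) := by
        rw [x1, x2, sx24_n2 k a e b hk] at hn2
        exact hn2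
      have htau := sx24_tau_part b b 0 0 le_rfl (Nat.zero_le _) le_rfl
      have e1 : b + b + 0 + 0 = 2 * b := by ring
      rw [e1] at htau
      have hG := G_S (rho (k - 2)) _ nu2 (2 * b) htau hc (saxl (k - 2) _ (sx24_cut nu2 _ _ hn2' hc))
      have e2 : (fun i => rho (k - 2) i + (if i = 0 then b else if i = 1 then b else
          if i = 2 then 0 else if i = 3 then 0 else 0)) = fun i => lamF k a e b (i + 1 + 1) :=
        sx24_e2 k a e b
      rw [e2] at hG
      exact hG
    · have hb' : 8 ≤ k ∧ 3 * b ≤ a := by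
        rcases hb with hb | hb
        · exfalso
          have := hn2.anti (show 0 ≤ 1 by omega)
          omega
        · exact hb
      obtain ⟨hk8, hab⟩ := hb'
      obtain ⟨D1, D2⟩ := sx24_arith k a e b _ _ _ _ _ _ hk8 hab m23 h1 h2 B1 B2 hc
      refine sx24_step _ nu2 _ hP2 hS2 hn2 ?_ fun nu3 hn3 ha3 => ?_
      · show lamF k a e b 2 ≤ _
        rw [x3, sx24_area_one]; exact D1
      have hP3 := sx24_shift _ _ hP2
      have hS3 := sx24_shift_strict _ hS2
      simp only [Nat.reduceAdd, zero_add] at hP3 hn3 ha3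
      have C1 := ha3 1
      simp only [Nat.reduceAdd] at C1
      rw [sx24_area_one, sx24_area_one, sx24_area_two, x3] at C1
      refine sx24_step _ nu3 _ hP3 hS3 hn3 ?_ fun nu4 hn4 ha4 => ?_
      · show lamF k a e b 3 ≤ _
        rw [x4, sx24_area_one, C1]; exact D2
      have e4 : (fun i => lamF k a e b (i + 1 + 1 + 1 + 1)) = rho (k - 4) := sx24_e4 k a e b
      have hn4' : IsPart nu4 ((k - 4) * (k - 4 + 1) / 2) := by
        simp only [Nat.reduceAdd, zero_add] at hn4
        rw [x1, x2, x3, x4, sx24_n4 k a e b hk8] at hn4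
        exact hn4
      have hG := saxl (k - 4) nu4 hn4'
      rw [← e4] at hG
      exact hG

end Pool.Saxl
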