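import Mathlib
import Pool.Agent.Helper139_Saxl.Defs
import Pool.Agent.Helper139_Saxl.Conf
import Pool.Agent.Helper139_Saxl.J04
import Pool.Agent.Helper139_Saxl.J21

set_option autoImplicit false

/-! Job SX-25: parity lemma. -/

namespace Pool.Saxl

open Finset

theorem sx25_area_succ (mu : ℕ → ℕ) (s : ℕ) : area mu (s + 1) = area mu s + mu s := by
  unfold area
  exact Finset.sum_range_succ _ _

theorem sx25_area_zero (mu : ℕ → ℕ) : area mu 0 = 0 := by simp [area]

theorem sx25_area_mono (mu : ℕ → ℕ) {s t : ℕ} (h : s ≤ t) : area mu s ≤ area mu t := by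
  unfold area
  exact Finset.sum_le_sum_of_subset (Finset.range_mono h)

theorem sx25_area_full (mu : ℕ → ℕ) (n : ℕ) (h : IsPart mu n) (s : ℕ)
    (hs : ∀ k, s ≤ k → mu k = 0) : area mu s = n := by
  have h1 : area mu (s + n) = area mu s := by
    unfold area
    rw [Finset.sum_range_add]
    have : ∑ x ∈ range n, mu (s + x) = 0 :=
      Finset.sum_eq_zero fun x _ => hs _ (Nat.le_add_right _ _)
    omega
  have h2 : area mu (n + s) = n := by
    unfold area
    rw [Finset.sum_range_add, h.sum]
    have : ∑ x ∈ range s, mu (n + x) = 0 :=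
      Finset.sum_eq_zero fun x _ => h.zero _ (Nat.le_add_right _ _)
    omega
  rw [← h1, add_comm s n, h2]

/-- two odd numbers in a list with even sum -/
theorem sx25_two_odd (c : ℕ → ℕ) (n m : ℕ) (hm : m % 2 = 0) (hs : ∑ j ∈ range n, c j = m)
    (j0 : ℕ) (hj0 : j0 < n) (hodd : c j0 % 2 = 1) : ∃ j, j ≠ j0 ∧ c j % 2 = 1 := by
  by_contra hcon
  push Not at hcon
  have h1 : 2 ∣ ∑ j ∈ (range n).erase j0, c j := by
    refine Finset.dvd_sum fun j hj => ?_
    have := hcon j (Finset.ne_of_mem_erase hj)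
    omega
  have h2 := Finset.add_sum_erase (range n) c (Finset.mem_range.mpr hj0)
  omega

theorem sx25_cj_le (mu nu : ℕ → ℕ) (n k : ℕ) (hmu : IsPart mu n) (hnu : IsPart nu k)
    (h : ∀ i, nu i ≤ mu i) (j : ℕ) : cj nu j ≤ cj mu j := by
  by_contra hcon
  push Not at hcon
  have h1 := (lt_cj_iff nu k hnu _ j).mp hcon
  have h2 : cj mu j < cj mu j := (lt_cj_iff mu n hmu _ j).mpr (lt_of_lt_of_le h1 (h _))
  exact lt_irrefl _ h2

theorem sx25_sum (mu nu : ℕ → ℕ) (k m : ℕ) (hmu : IsPart mu (m + k)) (hnu : IsPart nu k)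
    (h : ∀ i, nu i ≤ mu i) : ∑ j ∈ range (m + k), (cj mu j - cj nu j) = m := by
  have h1 := (isPart_cj mu _ hmu).sum
  have h2 : ∑ j ∈ range (m + k), cj nu j = k := by
    have := sx25_area_full (cj nu) k (isPart_cj nu _ hnu) (m + k)
      (fun i hi => (isPart_cj nu _ hnu).zero i (by omega))
    exact this
  have h3 : ∑ j ∈ range (m + k), (cj mu j - cj nu j) + ∑ j ∈ range (m + k), cj nu j
      = ∑ j ∈ range (m + k), cj mu j := by
    rw [← Finset.sum_add_distrib]
    refine Finset.sum_congr rfl fun j _ => ?_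
    have := sx25_cj_le mu nu _ _ hmu hnu h j
    omega
  omega

theorem sx25_bandSum_take (m : ℕ) (hm : 1 ≤ m) : ∀ (L : List ℕ), (∀ y ∈ L, 2 * y ≤ m) →
    ∀ j, bandSum (L.take (j + 1)) + 1 ≤ m + bandSum (L.take j)
  | [], _, j => by simp [bandSum]; omega
  | x :: L, h, 0 => by
      have := h x (by simp)
      simp [bandSum]; omega
  | x :: L, h, j + 1 => by
      have := sx25_bandSum_take m hm L (fun y hy => h y (List.mem_cons_of_mem _ hy)) j
      simp only [List.take_succ_cons, bandSum]
      omega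

/-- moving a box of a partition downwards -/
def sx25_mv (nu : ℕ → ℕ) (r1 r2 : ℕ) : ℕ → ℕ := fun i =>
  if i = r1 then nu i + 1 else if i = r2 then nu i - 1 else nu i

theorem sx25_mv_area (nu : ℕ → ℕ) (r1 r2 : ℕ) (h : r2 < r1) (hr2 : 1 ≤ nu r2) (s : ℕ) :
    area (sx25_mv nu r1 r2) s + (if r2 < s then 1 else 0)
      = area nu s + (if r1 < s then 1 else 0) := by
  induction s with
  | zero => simp [area]
  | succ s ih =>
    rw [sx25_area_succ, sx25_area_succ]
    unfold sx25_mv at ih ⊢
    rcases lt_trichotomy s r1 with h1 | h1 | h1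
    · rcases lt_trichotomy s r2 with h2 | h2 | h2
      · rw [if_neg (by omega : ¬ s = r1), if_neg (by omega : ¬ s = r2)]
        rw [if_neg (by omega)] at ih ⊢
        rw [if_neg (by omega)] at ih ⊢
        omega
      · subst h2
        rw [if_neg (by omega : ¬ s = r1), if_pos rfl]
        rw [if_neg (by omega), if_neg (by omega)] at ih
        rw [if_pos (by omega), if_neg (by omega)]
        omega
      · rw [if_neg (by omega : ¬ s = r1), if_neg (by omega : ¬ s = r2)]
        rw [if_pos (by omega), if_neg (by omega)] at ih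
        rw [if_pos (by omega), if_neg (by omega)]
        omega
    · subst h1
      rw [if_pos rfl]
      rw [if_pos (by omega), if_neg (by omega)] at ih
      rw [if_pos (by omega), if_pos (by omega)]
      omega
    · rw [if_neg (by omega : ¬ s = r1), if_neg (by omega : ¬ s = r2)]
      rw [if_pos (by omega), if_pos (by omega)] at ih
      rw [if_pos (by omega), if_pos (by omega)]
      omega

theorem sx25_A (m k : ℕ) (mu nu : ℕ → ℕ) (hmu : IsPart mu (m + k)) (hnu : IsPart nu k)
    (h0 : mu 0 ≤ m) (hpos : 0 < mu 0)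
    (har : ∀ i, area nu i = min (area mu i) (area mu (i + 4) - m)) : cj nu 0 < cj mu 0 := by
  by_contra hcon
  push Not at hcon
  have hq : 0 < cj mu 0 := (lt_cj_iff mu _ hmu 0 0).mpr hpos
  obtain ⟨i, hi⟩ : ∃ i, cj mu 0 = i + 1 := ⟨cj mu 0 - 1, by omega⟩
  have h1 : 0 < mu i := (lt_cj_iff mu _ hmu i 0).mp (by omega)
  have h2 : mu (i + 1) = 0 := by
    by_contra hne
    have := (lt_cj_iff mu _ hmu (i + 1) 0).mpr (Nat.pos_of_ne_zero hne)
    omega
  have h3 : 0 < nu i := (lt_cj_iff nu _ hnu i 0).mp (by omega)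
  have h4 : ∀ s, i + 1 ≤ s → area mu s = m + k := fun s hs =>
    sx25_area_full mu _ hmu s fun t ht => by
      have := hmu.anti (show i + 1 ≤ t by omega)
      omega
  have h5 : mu i ≤ mu 0 := hmu.anti (Nat.zero_le i)
  have e1 := har i
  have e2 := har (i + 1)
  rw [sx25_area_succ nu i] at e2
  rw [h4 (i + 4) (by omega)] at e1
  rw [h4 (i + 1) le_rfl, h4 (i + 1 + 4) (by omega)] at e2
  have e3 := h4 (i + 1) le_rfl
  rw [sx25_area_succ] at e3
  omega

theorem sx25_B (m k : ℕ) (mu nu : ℕ → ℕ) (hmu : IsPart mu (m + k)) (hnu : IsPart nu k)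
    (h2 : ∀ i, cj mu 1 = i + 1 → mu i + 3 < m) (h1 : m + 4 ≤ area mu 4) (hpos : 1 < mu 0)
    (har : ∀ i, area nu i = min (area mu i) (area mu (i + 4) - m)) : cj nu 1 < cj mu 1 := by
  by_contra hcon
  push Not at hcon
  have hq : 0 < cj mu 1 := (lt_cj_iff mu _ hmu 0 1).mpr hpos
  obtain ⟨i, hi⟩ : ∃ i, cj mu 1 = i + 1 := ⟨cj mu 1 - 1, by omega⟩
  have h3 : mu (i + 1) ≤ 1 := by
    by_contra hne
    have := (lt_cj_iff mu _ hmu (i + 1) 1).mpr (by omega)
    omega
  have h4 : 1 < nu i := (lt_cj_iff nu _ hnu i 1).mp (by omega)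
  have h5 := h2 i hi
  have a1 : mu (i + 2) ≤ mu (i + 1) := hmu.anti (by omega)
  have a2 : mu (i + 3) ≤ mu (i + 1) := hmu.anti (by omega)
  have a3 : mu (i + 4) ≤ mu (i + 1) := hmu.anti (by omega)
  have e1 := har i
  have e2 := har (i + 1)
  have b0 : area mu 4 ≤ area mu (i + 4) := sx25_area_mono mu (by omega)
  have b1 := sx25_area_succ mu i
  have b2 := sx25_area_succ mu (i + 1)
  have b3 := sx25_area_succ mu (i + 2)
  have b4 := sx25_area_succ mu (i + 3)
  have b5 := sx25_area_succ mu (i + 4)
  have b6 := sx25_area_succ nu i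
  have b7 : area mu (i + 1 + 4) = area mu (i + 4 + 1) := by rw [show i + 1 + 4 = i + 4 + 1 by ring]
  rw [b7] at e2
  simp only [Nat.add_assoc, Nat.reduceAdd] at *
  omega

theorem sx25_C (m k : ℕ) (mu nu : ℕ → ℕ) (hmu : IsPart mu (m + k)) (hnu : IsPart nu k)
    (h1 : m + 4 ≤ area mu 4) (h9 : 9 ≤ area mu 4) (hsk : ∀ i, mu (i + 4) ≤ nu i)
    (har : ∀ i, area nu i = min (area mu i) (area mu (i + 4) - m)) :
    ∃ i, 3 ≤ nu i ∧ mu (i + 4) < nu i := by
  by_contra hcon
  push Not at hcon
  -- as long as all rows are shifted rows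
  have hshift : ∀ s, (∀ i, i < s → nu i = mu (i + 4)) → area nu s + area mu 4 = area mu (s + 4) := by
    intro s
    induction s with
    | zero => intro _; simp [sx25_area_zero]
    | succ s ih =>
      intro h
      have := ih fun i hi => h i (by omega)
      have e := h s (by omega)
      have b1 := sx25_area_succ nu s
      have b2 := sx25_area_succ mu (s + 4)
      have b3 : area mu (s + 1 + 4) = area mu (s + 4 + 1) := by
        rw [show s + 1 + 4 = s + 4 + 1 by ring]
      omega
  have hex : ∃ i, mu (i + 4) < nu i := by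
    by_contra hno
    push Not at hno
    have e1 := hshift k fun i _ => le_antisymm (hno i) (hsk i)
    have e2 : area nu k = k := hnu.sum
    have e3 := area_le mu _ hmu (k + 4)
    omega
  classical
  have hlt := Nat.find_spec hex
  have hmin : ∀ i, i < Nat.find hex → nu i = mu (i + 4) := fun i hi =>
    le_antisymm (not_lt.mp (Nat.find_min hex hi)) (hsk i)
  set i := Nat.find hex with hidef
  have hnu2 : nu i ≤ 2 := by
    by_contra h
    have := hcon i (by omega)
    omega
  have e1 := hshift i hmin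
  have e2 := har i
  have e3 := har (i + 1)
  have b1 := sx25_area_succ mu i
  have b2 := sx25_area_succ mu (i + 1)
  have b3 := sx25_area_succ mu (i + 2)
  have b4 := sx25_area_succ mu (i + 3)
  have b5 := sx25_area_succ mu (i + 4)
  have b6 := sx25_area_succ nu i
  have b7 : area mu (i + 1 + 4) = area mu (i + 4 + 1) := by rw [show i + 1 + 4 = i + 4 + 1 by ring]
  have b0 : area mu 4 ≤ area mu (i + 4) := sx25_area_mono mu (by omega)
  have a1 : mu (i + 1) ≤ mu i := hmu.anti (by omega)
  have a2 : mu (i + 2) ≤ mu i := hmu.anti (by omega)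
  have a3 : mu (i + 3) ≤ mu i := hmu.anti (by omega)
  rw [b7] at e3
  simp only [Nat.add_assoc, Nat.reduceAdd] at *
  omega

/-- the parity lemma: a good `nu` such that two columns of `mu / nu` are odd -/
theorem parity (m : ℕ) (hm : m % 2 = 0) (L : List ℕ) (hL : Bands L) (hmL : ∀ y ∈ L, 2 * y ≤ m)
    (mu : ℕ → ℕ) (hmu : IsPart mu (m + bandSum L))
    (h2 : ∀ i, cj mu 1 = i + 1 → mu i + 3 < m) (h0 : mu 0 ≤ m)
    (h1 : m + 4 ≤ area mu 4) (h9 : 9 ≤ area mu 4)
    (hW : ∀ j, j ≤ L.length → m + bandSum (L.take j) ≤ area mu (4 * (j + 1)))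
    (hW' : ∀ j, 1 ≤ j → j < L.length → 4 * j < cj mu 1 →
      m + bandSum (L.take j) + 1 ≤ area mu (4 * (j + 1)))
    (hd : L ≠ [] → cj mu 1 ≤ 4 * L.length) :
    ∃ nu : ℕ → ℕ, IsPart nu (bandSum L) ∧ Skew4 mu nu ∧
      (∃ j j' : ℕ, j ≠ j' ∧ (cj mu j - cj nu j) % 2 = 1 ∧ (cj mu j' - cj nu j') % 2 = 1) ∧
      ∀ j, j ≤ L.length → bandSum (L.take j) ≤ area nu (4 * j) := by
  set k := bandSum L with hk
  obtain ⟨nu, hnu, hsk, har⟩ := greedy 4 (by norm_num) mu (m + k) m hmu (by omega)
  rw [Nat.add_sub_cancel_left] at hnu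
  have hmu4 : area mu 4 ≤ 4 * mu 0 := by
    have b1 := sx25_area_succ mu 0
    have b2 := sx25_area_succ mu 1
    have b3 := sx25_area_succ mu 2
    have b4 := sx25_area_succ mu 3
    have a1 : mu 1 ≤ mu 0 := hmu.anti (by omega)
    have a2 : mu 2 ≤ mu 0 := hmu.anti (by omega)
    have a3 : mu 3 ≤ mu 0 := hmu.anti (by omega)
    have a0 := sx25_area_zero mu
    simp only [Nat.reduceAdd] at *
    omega
  have hm1 : 1 ≤ m := by omega
  have htake := sx25_bandSum_take m hm1 L hmL
  -- area of `nu`
  have hprev : ∀ j, 1 ≤ j → j ≤ L.length → bandSum (L.take j) + 1 ≤ area mu (4 * j) := by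
    intro j hj hjL
    obtain ⟨j, rfl⟩ : ∃ j', j = j' + 1 := ⟨j - 1, by omega⟩
    have e1 := hW j (by omega)
    have e2 := htake j
    omega
  have hbase : ∀ j, j ≤ L.length → bandSum (L.take j) ≤ area nu (4 * j) := by
    intro j hj
    rw [har]
    have e1 := hW j hj
    rw [show 4 * (j + 1) = 4 * j + 4 by ring] at e1
    rcases Nat.eq_zero_or_pos j with h | h
    · subst h; simp [bandSum]
    · have := hprev j h hj
      refine le_min (by omega) (by omega)
  by_cases hodd : ∃ j, (cj mu j - cj nu j) % 2 = 1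
  · obtain ⟨j0, hj0⟩ := hodd
    have hjn : j0 < m + k := by
      by_contra hcon
      have := (isPart_cj mu _ hmu).zero j0 (by omega)
      rw [this] at hj0
      simp at hj0
    obtain ⟨j, hj, hj'⟩ := sx25_two_odd (fun j => cj mu j - cj nu j) (m + k) m hm
      (sx25_sum mu nu k m hmu hnu fun i => (hsk i).1) j0 hjn hj0
    exact ⟨nu, hnu, hsk, ⟨j, j0, hj, hj', hj0⟩, hbase⟩
  · push Not at hodd
    have hA := sx25_A m k mu nu hmu hnu h0 (by omega) har
    have hB := sx25_B m k mu nu hmu hnu h2 h1 (by omega) har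
    obtain ⟨i0, hi0, hi0'⟩ := sx25_C m k mu nu hmu hnu h1 h9 (fun i => (hsk i).2) har
    -- the two rows
    obtain ⟨j2, hj2⟩ : ∃ j2, nu i0 = j2 + 1 := ⟨nu i0 - 1, by omega⟩
    have hc2 : i0 < cj nu j2 := (lt_cj_iff nu _ hnu i0 j2).mpr (by omega)
    obtain ⟨r2, hr2⟩ : ∃ r2, cj nu j2 = r2 + 1 := ⟨cj nu j2 - 1, by omega⟩
    have hnr2 : nu r2 = j2 + 1 := by
      have e1 : j2 < nu r2 := (lt_cj_iff nu _ hnu r2 j2).mp (by omega)
      have e2 : nu r2 ≤ nu i0 := hnu.anti (by omega)
      omega
    have hnr2' : nu (r2 + 1) ≤ j2 := by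
      by_contra hcon
      have := (lt_cj_iff nu _ hnu (r2 + 1) j2).mpr (by omega)
      omega
    have hmr2 : mu (r2 + 4) < nu r2 := by
      have : mu (r2 + 4) ≤ mu (i0 + 4) := hmu.anti (by omega)
      omega
    obtain ⟨r1, hr1⟩ : ∃ r1, cj nu 1 = r1 := ⟨_, rfl⟩
    have hnr1 : nu r1 ≤ 1 := by
      by_contra hcon
      have := (lt_cj_iff nu _ hnu r1 1).mpr (by omega)
      omega
    have hlow : ∀ i, i < r1 → 2 ≤ nu i := fun i hi =>
      (lt_cj_iff nu _ hnu i 1).mp (by omega)
    have hr21 : r2 < r1 := by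
      by_contra hcon
      have : nu r2 ≤ nu r1 := hnu.anti (by omega)
      omega
    obtain ⟨j1, hj1⟩ : ∃ j1, nu r1 = j1 := ⟨_, rfl⟩
    have hcj1 : cj nu j1 = r1 := by
      rcases Nat.eq_zero_or_pos j1 with h | h
      · have e1 : ¬ r1 < cj nu 0 := by
          intro hh
          have := (lt_cj_iff nu _ hnu r1 0).mp hh
          omega
        have e2 : ¬ cj nu 0 < r1 := by
          intro hh
          have e3 := hlow _ hh
          have := (lt_cj_iff nu _ hnu (cj nu 0) 0).mpr (by omega)
          omega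
        rw [h]; omega
      · have : j1 = 1 := by omega
        rw [this]; exact hr1
    have hcl : cj nu j1 < cj mu j1 := by
      rcases Nat.eq_zero_or_pos j1 with h | h
      · rw [h]; exact hA
      · have : j1 = 1 := by omega
        rw [this]; exact hB
    have hmr1 : nu r1 < mu r1 := by
      have := (lt_cj_iff mu _ hmu r1 j1).mp (by omega)
      omega
    have hmva := sx25_mv_area nu r1 r2 hr21 (by omega)
    have hr1k : r1 < k := by
      have e1 : area nu r1 ≤ k := area_le nu _ hnu r1
      have e2 : 2 * r1 ≤ area nu r1 := by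
        unfold area
        calc 2 * r1 = ∑ i ∈ range r1, 2 := by simp [mul_comm]
          _ ≤ ∑ i ∈ range r1, nu i := Finset.sum_le_sum fun i hi => hlow i (Finset.mem_range.mp hi)
      omega
    have hval1 : sx25_mv nu r1 r2 r1 = nu r1 + 1 := by simp [sx25_mv]
    have hval2 : sx25_mv nu r1 r2 r2 = nu r2 - 1 := by
      unfold sx25_mv
      rw [if_neg (by omega), if_pos rfl]
    have hval3 : ∀ i, i ≠ r1 → i ≠ r2 → sx25_mv nu r1 r2 i = nu i := by
      intro i hi1 hi2
      unfold sx25_mv
      rw [if_neg hi1, if_neg hi2]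
    have hpart : IsPart (sx25_mv nu r1 r2) k := by
      refine ⟨antitone_nat_of_succ_le fun i => ?_, fun i hi => ?_, ?_⟩
      · have hanti : nu (i + 1) ≤ nu i := hnu.anti (by omega)
        by_cases c1 : i + 1 = r1
        · rw [c1, hval1]
          by_cases c2 : i = r2
          · rw [c2, hval2]; omega
          · rw [hval3 i (by omega) c2]
            have := hlow i (by omega)
            omega
        · by_cases c2 : i + 1 = r2
          · rw [c2, hval2, hval3 i (by omega) (by omega)]
            rw [c2] at hanti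
            omega
          · rw [hval3 (i + 1) c1 c2]
            by_cases c3 : i = r1
            · rw [c3, hval1]; rw [c3] at hanti; omega
            · by_cases c4 : i = r2
              · rw [c4, hval2]; omega
              · rw [hval3 i c3 c4]; exact hanti
      · rw [hval3 i (by omega) (by omega)]
        exact hnu.zero i hi
      · have e := hmva k
        rw [if_pos (by omega), if_pos (by omega)] at e
        have e2 : area nu k = k := hnu.sum
        have e3 : area (sx25_mv nu r1 r2) k = ∑ i ∈ range k, sx25_mv nu r1 r2 i := rfl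
        omega
    have hcjn1 : cj (sx25_mv nu r1 r2) j1 = r1 + 1 := by
      have e1 : r1 < cj (sx25_mv nu r1 r2) j1 :=
        (lt_cj_iff _ _ hpart r1 j1).mpr (by rw [hval1]; omega)
      have e2 : ¬ r1 + 1 < cj (sx25_mv nu r1 r2) j1 := by
        intro hh
        have e3 := (lt_cj_iff _ _ hpart (r1 + 1) j1).mp hh
        rw [hval3 (r1 + 1) (by omega) (by omega)] at e3
        have : nu (r1 + 1) ≤ nu r1 := hnu.anti (by omega)
        omega
      omega
    have hcjn2 : cj (sx25_mv nu r1 r2) j2 = r2 := by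
      have e2 : ¬ r2 < cj (sx25_mv nu r1 r2) j2 := by
        intro hh
        have e3 := (lt_cj_iff _ _ hpart r2 j2).mp hh
        rw [hval2] at e3
        omega
      have e1 : ¬ cj (sx25_mv nu r1 r2) j2 < r2 := by
        intro hh
        have e3 : ¬ (j2 < sx25_mv nu r1 r2 (cj (sx25_mv nu r1 r2) j2)) := by
          intro hh2
          have := (lt_cj_iff _ _ hpart _ j2).mpr hh2
          omega
        rw [hval3 _ (by omega) (by omega)] at e3
        have : nu r2 ≤ nu (cj (sx25_mv nu r1 r2) j2) := hnu.anti (by omega)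
        omega
      omega
    refine ⟨sx25_mv nu r1 r2, hpart, fun i => ⟨?_, ?_⟩, ⟨j1, j2, by omega, ?_, ?_⟩, ?_⟩
    · by_cases c1 : i = r1
      · rw [c1, hval1]; omega
      · by_cases c2 : i = r2
        · rw [c2, hval2]; have := (hsk r2).1; omega
        · rw [hval3 i c1 c2]; exact (hsk i).1
    · by_cases c1 : i = r1
      · rw [c1, hval1]; have := (hsk r1).2; omega
      · by_cases c2 : i = r2
        · rw [c2, hval2]; omega
        · rw [hval3 i c1 c2]; exact (hsk i).2
    · rw [hcjn1]
      have := hodd j1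
      omega
    · rw [hcjn2]
      have := hodd j2
      have := sx25_cj_le mu nu _ _ hmu hnu (fun i => (hsk i).1) j2
      omega
    · intro j hj
      have e := hmva (4 * j)
      have hb := hbase j hj
      by_cases c1 : r1 < 4 * j
      · rw [if_pos c1, if_pos (by omega)] at e
        omega
      · by_cases c2 : r2 < 4 * j
        · rw [if_pos c2, if_neg c1] at e
          have hj0 : 1 ≤ j := by omega
          have hne : L ≠ [] := by
            intro hh
            rw [hh] at hj
            simp at hj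
            omega
          have hdd := hd hne
          have w1 := hW' j hj0 (by omega) (by omega)
          have w2 := hprev j hj0 hj
          have w3 := har (4 * j)
          rw [show 4 * (j + 1) = 4 * j + 4 by ring] at w1
          omega
        · rw [if_neg c2, if_neg c1] at e
          omega

end Pool.Saxl
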