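import Mathlib
import Pool.Agent.Helper139_Saxl.Defs
import Pool.Agent.Helper139_Saxl.Conf
import Pool.Agent.Helper139_Saxl.Fam
import Pool.Agent.Helper139_Saxl.J04
import Pool.Agent.Helper139_Saxl.J21
import Pool.Agent.Helper139_Saxl.J22
import Pool.Agent.Helper139_Saxl.J19
import Pool.Agent.Helper139_Saxl.J20
import Pool.Agent.Helper139_Saxl.J25

set_option autoImplicit false

/-! Job SX-26: the even, odd and certificate rules for the family. -/

namespace Pool.Saxl

open Finset

/- helpers -/

theorem sx26_bands_cons (x : ℕ) (L : List ℕ) (hx : 1 ≤ x) (hL : Bands L)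
    (h : ∀ y ∈ L, y + 2 ≤ x) : Bands (x :: L) := by
  cases L with
  | nil => exact hx
  | cons y L => exact ⟨h y (by simp), hL⟩

theorem sx26_mem_le : (k : ℕ) → ∀ y ∈ sBands k, y ≤ k
  | 0 => by
    intro y hy
    simp [sBands] at hy
  | 1 => by
    intro y hy
    simp [sBands] at hy
    omega
  | k + 2 => by
    intro y hy
    rw [sBands, List.mem_cons] at hy
    rcases hy with rfl | hy
    · exact le_rfl
    · exact (sx26_mem_le k y hy).trans (by omega)

theorem sx26_bands : (k : ℕ) → Bands (sBands k)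
  | 0 => trivial
  | 1 => le_refl 1
  | k + 2 => by
    refine sx26_bands_cons (k + 2) (sBands k) (by omega) (sx26_bands k) ?_
    intro y hy
    have := sx26_mem_le k y hy
    omega

theorem sx26_length : (k : ℕ) → (sBands k).length = (k + 1) / 2
  | 0 => rfl
  | 1 => rfl
  | k + 2 => by
    rw [sBands, List.length_cons, sx26_length k]
    omega

theorem sx26_sum : (k : ℕ) → 2 * bandSum (sBands k) = k * (k + 1)
  | 0 => rfl
  | 1 => rfl
  | k + 2 => by
    have h := sx26_sum k
    have e : bandSum (sBands (k + 2)) = (2 * (k + 2) - 1) + bandSum (sBands k) := rfl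
    rw [e, mul_add, h]
    have e2 : 2 * (k + 2) - 1 = 2 * k + 3 := by omega
    rw [e2]
    ring

theorem sx26_take : (k j : ℕ) → 2 * j ≤ k + 1 →
    bandSum ((sBands k).take j) = j * (2 * k + 1 - 2 * j)
  | k, 0, _ => by simp [bandSum]
  | 0, j + 1, h => by omega
  | 1, j + 1, h => by
    have : j = 0 := by omega
    subst this
    rfl
  | k + 2, j + 1, h => by
    have ih := sx26_take k j (by omega)
    have e : bandSum ((sBands (k + 2)).take (j + 1)) =
        (2 * (k + 2) - 1) + bandSum ((sBands k).take j) := rfl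
    rw [e, ih]
    obtain ⟨d, hd⟩ : ∃ d, 2 * k + 1 - 2 * j = d := ⟨_, rfl⟩
    have hd' : 2 * k + 1 = d + 2 * j := by omega
    have e1 : 2 * (k + 2) + 1 - 2 * (j + 1) = d + 2 := by omega
    have e2 : 2 * (k + 2) - 1 = d + 2 * j + 2 := by omega
    rw [hd, e1, e2]
    ring

theorem sx26_shape : (k : ℕ) → ∀ i, bandShape (sBands k) i = k - i
  | 0, i => by simp [sBands, bandShape]
  | 1, 0 => rfl
  | 1, 1 => rfl
  | 1, i + 2 => by
    show bandShape [] i = 1 - (i + 2)
    simp only [bandShape]
    omega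
  | k + 2, 0 => rfl
  | k + 2, 1 => by
    show k + 2 - 1 = k + 2 - 1
    rfl
  | k + 2, i + 2 => by
    show bandShape (sBands k) i = k + 2 - (i + 2)
    rw [sx26_shape k i]
    omega

theorem sx26_half (k s : ℕ) (h : 2 * s = k * (k + 1)) : s = k * (k + 1) / 2 := by omega

theorem sx26_sum2 (m : ℕ) : (m + 2) * (m + 2 + 1) / 2 = bandSum (sBands m) + (2 * m + 3) := by
  have h := sx26_sum m
  have e : (m + 2) * (m + 2 + 1) = 2 * (bandSum (sBands m) + (2 * m + 3)) := by
    have e2 : 2 * (bandSum (sBands m) + (2 * m + 3)) =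
      2 * bandSum (sBands m) + (4 * m + 6) := by ring
    rw [e2, h]
    ring
  rw [e]
  omega

theorem sx26_sum4 (m : ℕ) : (m + 4) * (m + 4 + 1) / 2 = bandSum (sBands m) + (4 * m + 10) := by
  have h := sx26_sum m
  have e : (m + 4) * (m + 4 + 1) = 2 * (bandSum (sBands m) + (4 * m + 10)) := by
    have e2 : 2 * (bandSum (sBands m) + (4 * m + 10)) =
      2 * bandSum (sBands m) + (8 * m + 20) := by ring
    rw [e2, h]
    ring
  rw [e]
  omega

theorem sx26_area_zero (mu : ℕ → ℕ) : area mu 0 = 0 := by simp [area]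

/-- the lists for `e = 0` -/
theorem sx26_even (k a b : ℕ) (hk : 2 ≤ k) (hb : b = 0 ∨ (8 ≤ k ∧ 3 * b ≤ a)) :
    ∃ L, Bands L ∧ bandShape L = lamF k a 0 b ∧
      bandSum L = k * (k + 1) / 2 + (2 * a + 2 * b) ∧
      ∀ j, j ≤ L.length → (j = 0 ∨ (j = 1 ∧ bandSum (L.take j) + 1 = 2 * k + 2 * a) ∨
        (2 ≤ j ∧ 2 * j ≤ k + 1 ∧
          bandSum (L.take j) = 2 * a + 2 * b + j * (2 * k + 1 - 2 * j))) := by
  rcases Nat.eq_zero_or_pos b with h0 | h0
  · subst h0
    obtain ⟨m, rfl⟩ : ∃ m, k = m + 2 := ⟨k - 2, by omega⟩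
    refine ⟨(m + 2 + a) :: sBands m, ?_, ?_, ?_, ?_⟩
    · refine sx26_bands_cons _ _ (by omega) (sx26_bands m) ?_
      intro y hy
      have := sx26_mem_le m y hy
      omega
    · funext i
      match i with
      | 0 => simp [bandShape, lamF]
      | 1 =>
        simp only [bandShape, lamF]
        simp
      | i + 2 =>
        show bandShape (sBands m) i = _
        rw [sx26_shape]
        simp only [lamF]
        have h1 : ¬ (i + 2 = 0) := by omega
        have h2 : ¬ (i + 2 = 1) := by omega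
        simp [h1, h2]
    · show (2 * (m + 2 + a) - 1) + bandSum (sBands m) = _
      rw [sx26_sum2]
      omega
    · intro j hj
      rw [List.length_cons, sx26_length] at hj
      match j with
      | 0 => exact Or.inl rfl
      | 1 =>
        right; left
        refine ⟨rfl, ?_⟩
        show (2 * (m + 2 + a) - 1) + bandSum ((sBands m).take 0) + 1 = _
        simp only [List.take_zero, bandSum]
        omega
      | i + 2 =>
        right; right
        refine ⟨by omega, by omega, ?_⟩
        show (2 * (m + 2 + a) - 1) + bandSum ((sBands m).take (i + 1)) = _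
        rw [sx26_take m (i + 1) (by omega)]
        obtain ⟨d, hd⟩ : ∃ d, 2 * m + 1 - 2 * (i + 1) = d := ⟨_, rfl⟩
        have hd' : 2 * m + 1 = d + 2 * (i + 1) ∨ 2 * m + 1 < 2 * (i + 1) := by omega
        rcases hd' with hd' | hd'
        · have e1 : 2 * (m + 2) + 1 - 2 * (i + 2) = d + 2 := by omega
          have e2 : 2 * (m + 2 + a) - 1 = d + 2 * (i + 1) + 2 + 2 * a := by omega
          rw [hd, e1, e2]
          ring
        · omega
  · have hk8 : 8 ≤ k ∧ 3 * b ≤ a := by
      rcases hb with h | h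
      · omega
      · exact h
    obtain ⟨m, rfl⟩ : ∃ m, k = m + 4 := ⟨k - 4, by omega⟩
    refine ⟨(m + 4 + a) :: (m + 2 + b) :: sBands m, ?_, ?_, ?_, ?_⟩
    · refine ⟨by omega, sx26_bands_cons _ _ (by omega) (sx26_bands m) ?_⟩
      intro y hy
      have := sx26_mem_le m y hy
      omega
    · funext i
      match i with
      | 0 => simp [bandShape, lamF]
      | 1 =>
        simp only [bandShape, lamF]
        simp
      | 2 =>
        show m + 2 + b = _
        simp [lamF]
      | 3 =>
        show m + 2 + b - 1 = _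
        simp only [lamF]
        simp
      | i + 4 =>
        show bandShape (sBands m) i = _
        rw [sx26_shape]
        simp only [lamF]
        have h1 : ¬ (i + 4 = 0) := by omega
        have h2 : ¬ (i + 4 = 1) := by omega
        have h3 : ¬ (i + 4 = 2 ∨ i + 4 = 3) := by omega
        rw [if_neg h1, if_neg h2, if_neg h3]
        omega
    · show (2 * (m + 4 + a) - 1) + ((2 * (m + 2 + b) - 1) + bandSum (sBands m)) = _
      rw [sx26_sum4]
      omega
    · intro j hj
      rw [List.length_cons, List.length_cons, sx26_length] at hj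
      match j with
      | 0 => exact Or.inl rfl
      | 1 =>
        right; left
        refine ⟨rfl, ?_⟩
        show (2 * (m + 4 + a) - 1) + bandSum (((m + 2 + b) :: sBands m).take 0) + 1 = _
        simp only [List.take_zero, bandSum]
        omega
      | i + 2 =>
        right; right
        refine ⟨by omega, by omega, ?_⟩
        show (2 * (m + 4 + a) - 1) + ((2 * (m + 2 + b) - 1) + bandSum ((sBands m).take i)) = _
        rw [sx26_take m i (by omega)]
        obtain ⟨d, hd⟩ : ∃ d, 2 * m + 1 - 2 * i = d := ⟨_, rfl⟩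
        have hd' : 2 * m + 1 = d + 2 * i := by omega
        have e1 : 2 * (m + 4) + 1 - 2 * (i + 2) = d + 4 := by omega
        have e2 : 2 * (m + 4 + a) - 1 = d + 2 * i + 6 + 2 * a := by omega
        have e3 : 2 * (m + 2 + b) - 1 = d + 2 * i + 2 + 2 * b := by omega
        rw [hd, e1, e2, e3]
        ring

/-- the lists for `e = 1` -/
theorem sx26_odd (k a b : ℕ) (hk : 2 ≤ k) (hb : b = 0 ∨ (8 ≤ k ∧ 3 * b ≤ a)) :
    ∃ L, Bands L ∧ (fun i => if i = 0 then k + a + 1 else if i = 1 then k + a + 1 - 2 else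
        bandShape L (i - 2)) = lamF k a 1 b ∧
      2 * k + 2 * a + bandSum L = k * (k + 1) / 2 + (2 * a + 1 + 2 * b) ∧
      (∀ y ∈ L, y + 3 ≤ k + a + 1) ∧ L.length = (k + 1) / 2 - 1 ∧ (b = 0 → L = sBands (k - 2)) ∧
      ∀ j, 1 ≤ j → j ≤ L.length → 2 * k + 2 * a + bandSum (L.take j) =
          2 * a + 1 + 2 * b + (j + 1) * (2 * k + 1 - 2 * (j + 1)) := by
  rcases Nat.eq_zero_or_pos b with h0 | h0
  · subst h0
    obtain ⟨m, rfl⟩ : ∃ m, k = m + 2 := ⟨k - 2, by omega⟩
    refine ⟨sBands m, sx26_bands m, ?_, ?_, ?_, ?_, fun _ => rfl, ?_⟩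
    · funext i
      match i with
      | 0 =>
        simp [lamF] <;> omega
      | 1 =>
        simp only [lamF]
        simp
      | i + 2 =>
        have h1 : ¬ (i + 2 = 0) := by omega
        have h2 : ¬ (i + 2 = 1) := by omega
        show (if i + 2 = 0 then _ else if i + 2 = 1 then _ else bandShape (sBands m) (i + 2 - 2)) = _
        rw [if_neg h1, if_neg h2, sx26_shape]
        simp only [lamF]
        rw [if_neg h1, if_neg h2]
        simp
    · rw [sx26_sum2]
      omega
    · intro y hy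
      have := sx26_mem_le m y hy
      omega
    · rw [sx26_length]
      omega
    · intro j h1 hj
      rw [sx26_length] at hj
      rw [sx26_take m j (by omega)]
      obtain ⟨d, hd⟩ : ∃ d, 2 * m + 1 - 2 * j = d := ⟨_, rfl⟩
      have hd' : 2 * m + 1 = d + 2 * j := by omega
      have e1 : 2 * (m + 2) + 1 - 2 * (j + 1) = d + 2 := by omega
      have e2 : 2 * (m + 2) + 2 * a = d + 2 * j + 3 + 2 * a := by omega
      rw [hd, e1, e2]
      ring
  · have hk8 : 8 ≤ k ∧ 3 * b ≤ a := by
      rcases hb with h | h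
      · omega
      · exact h
    obtain ⟨m, rfl⟩ : ∃ m, k = m + 4 := ⟨k - 4, by omega⟩
    refine ⟨(m + 2 + b) :: sBands m, ?_, ?_, ?_, ?_, ?_, ?_, ?_⟩
    · refine sx26_bands_cons _ _ (by omega) (sx26_bands m) ?_
      intro y hy
      have := sx26_mem_le m y hy
      omega
    · funext i
      match i with
      | 0 =>
        simp [lamF] <;> omega
      | 1 =>
        simp only [lamF]
        simp
      | 2 =>
        show m + 2 + b = _
        simp [lamF]
      | 3 =>
        show m + 2 + b - 1 = _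
        simp only [lamF]
        simp
      | i + 4 =>
        have h1 : ¬ (i + 4 = 0) := by omega
        have h2 : ¬ (i + 4 = 1) := by omega
        have h3 : ¬ (i + 4 = 2 ∨ i + 4 = 3) := by omega
        show (if i + 4 = 0 then _ else if i + 4 = 1 then _ else bandShape (sBands m) i) = _
        rw [if_neg h1, if_neg h2, sx26_shape]
        simp only [lamF]
        rw [if_neg h1, if_neg h2, if_neg h3]
        omega
    · show 2 * (m + 4) + 2 * a + ((2 * (m + 2 + b) - 1) + bandSum (sBands m)) = _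
      rw [sx26_sum4]
      omega
    · intro y hy
      rw [List.mem_cons] at hy
      rcases hy with rfl | hy
      · omega
      · have := sx26_mem_le m y hy
        omega
    · rw [List.length_cons, sx26_length]
      omega
    · intro h
      omega
    · intro j h1 hj
      rw [List.length_cons, sx26_length] at hj
      obtain ⟨i, rfl⟩ : ∃ i, j = i + 1 := ⟨j - 1, by omega⟩
      show 2 * (m + 4) + 2 * a + ((2 * (m + 2 + b) - 1) + bandSum ((sBands m).take i)) = _
      rw [sx26_take m i (by omega)]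
      obtain ⟨d, hd⟩ : ∃ d, 2 * m + 1 - 2 * i = d := ⟨_, rfl⟩
      have hd' : 2 * m + 1 = d + 2 * i := by omega
      have e1 : 2 * (m + 4) + 1 - 2 * (i + 1 + 1) = d + 4 := by omega
      have e2 : 2 * (m + 4) + 2 * a = d + 2 * i + 7 + 2 * a := by omega
      have e3 : 2 * (m + 2 + b) - 1 = d + 2 * i + 2 + 2 * b := by omega
      rw [hd, e1, e2, e3]
      ring


theorem even_rule (k a b : ℕ) (hk : 2 ≤ k) (hb : b = 0 ∨ (8 ≤ k ∧ 3 * b ≤ a)) (mu : ℕ → ℕ)
    (hmu : IsPart mu (k * (k + 1) / 2 + (2 * a + 2 * b))) (h : EvenC k a b mu) :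
    G (lamF k a 0 b) (lamF k a 0 b) mu := by
  obtain ⟨L, hL, hsh, hsum, htake⟩ := sx26_even k a b hk hb
  rw [← hsh]
  apply G_of_PV L hL
  apply PV_of_area L hL mu (by rw [hsum]; exact hmu)
  intro j hj
  rcases htake j hj with h0 | ⟨h1, h2⟩ | ⟨h1, h2, h3⟩
  · subst h0
    simp [bandSum]
  · subst h1
    have := h.1
    show bandSum (L.take 1) ≤ area mu 4
    omega
  · rw [h3]
    exact h.2 j h1 h2

theorem odd_rule (k a b : ℕ) (hk : 2 ≤ k) (hb : b = 0 ∨ (8 ≤ k ∧ 3 * b ≤ a)) (mu : ℕ → ℕ)
    (hmu : IsPart mu (k * (k + 1) / 2 + (2 * a + 1 + 2 * b))) (h : OddC k a b mu) :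
    G (lamF k a 1 b) (lamF k a 1 b) mu := by
  obtain ⟨L, hL, hsh, hsum, hle, hlen, -, htake⟩ := sx26_odd k a b hk hb
  obtain ⟨o1, o2, o3, o4, o5, o6, o7⟩ := h
  have hmu' : IsPart mu (2 * k + 2 * a + bandSum L) := by rw [hsum]; exact hmu
  obtain ⟨nu, hnu, hsk, ⟨j, j', hjj, hj, hj'⟩, harea⟩ :=
    parity (2 * k + 2 * a) (by omega) L hL (by
      intro y hy
      have := hle y hy
      omega) mu hmu' o1 o2 o3 o4 (by
      intro j hj
      rcases Nat.eq_zero_or_pos j with h0 | h0
      · subst h0
        simp only [List.take_zero, bandSum]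
        have : 4 * (0 + 1) = 4 := rfl
        rw [this]
        omega
      · rw [htake j h0 hj]
        exact o5 (j + 1) (by omega) (by omega)) (by
      intro j h1 hj h4
      rw [htake j h1 hj.le]
      exact o6 (j + 1) (by omega) (by omega) (by omega)) (by
      intro hne
      have hpos : 0 < L.length := List.length_pos_iff.2 hne
      have := o7 (by omega)
      rw [hlen]
      exact this)
  have hPV : PV L nu := PV_of_area L hL nu hnu harea
  have hmu'' : IsPart mu (2 * (k + a + 1) - 2 + bandSum L) := by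
    have e : 2 * (k + a + 1) - 2 = 2 * k + 2 * a := by omega
    rw [e]
    exact hmu'
  have := G_top2 (k + a + 1) L (by omega) hL hle mu nu hnu hmu'' hsk j j' hjj hj hj' hPV
  rw [hsh] at this
  exact this

/-- rule W for `e = 1`, `b = 0` with an explicit `nu` -/
theorem cert_rule (k a : ℕ) (hk : 2 ≤ k) (mu nu : ℕ → ℕ)
    (hmu : IsPart mu (k * (k + 1) / 2 + (2 * a + 1)))
    (hnu : IsPart nu ((k - 2) * (k - 1) / 2)) (h4 : Skew4 mu nu) (j j' : ℕ) (hjj : j ≠ j')
    (hj : (cj mu j - cj nu j) % 2 = 1) (hj' : (cj mu j' - cj nu j') % 2 = 1)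
    (hW : ∀ i, 2 * i + 1 ≤ k → i * (2 * k - 3 - 2 * i) ≤ area nu (4 * i)) :
    G (lamF k a 1 0) (lamF k a 1 0) mu := by
  obtain ⟨L, hL, hsh, hsum, hle, hlen, hLs, -⟩ := sx26_odd k a 0 hk (Or.inl rfl)
  have hLs := hLs rfl
  subst hLs
  have hmu'' : IsPart mu (2 * (k + a + 1) - 2 + bandSum (sBands (k - 2))) := by
    have e : 2 * (k + a + 1) - 2 = 2 * k + 2 * a := by omega
    rw [e, hsum]
    exact hmu
  have hnu' : IsPart nu (bandSum (sBands (k - 2))) := by
    have e : bandSum (sBands (k - 2)) = (k - 2) * (k - 1) / 2 := by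
      have h1 := sx26_half (k - 2) _ (sx26_sum (k - 2))
      have h2 : k - 2 + 1 = k - 1 := by omega
      rwa [h2] at h1
    rw [e]
    exact hnu
  have hPV : PV (sBands (k - 2)) nu := by
    refine PV_of_area _ hL nu hnu' ?_
    intro i hi
    rw [sx26_length] at hi
    rw [sx26_take (k - 2) i (by omega)]
    have e : 2 * (k - 2) + 1 - 2 * i = 2 * k - 3 - 2 * i := by omega
    rw [e]
    exact hW i (by omega)
  have := G_top2 (k + a + 1) _ (by omega) hL hle mu nu hnu' hmu'' h4 j j' hjj hj hj' hPV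
  rw [hsh] at this
  exact this

end Pool.Saxl
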