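import Mathlib
import Pool.Agent.Helper139_Saxl.Defs
import Pool.Agent.Helper139_Saxl.J04

set_option autoImplicit false

/-! Job SX-27: inequalities for rows and columns. -/

namespace Pool.Saxl

open Finset

theorem sx27_anti {mu : ℕ → ℕ} {n : ℕ} (h : IsPart mu n) {i j : ℕ} (hij : i ≤ j) : mu j ≤ mu i :=
  h.anti hij

theorem sx27_cj_le (mu : ℕ → ℕ) (n : ℕ) (h : IsPart mu n) (j : ℕ) : cj mu j ≤ n := by
  by_contra hcon
  push Not at hcon
  have h1 := (lt_cj_iff mu n h n j).1 hcon
  rw [h.zero n le_rfl] at h1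
  omega

theorem sx27_sum (mu : ℕ → ℕ) (n : ℕ) (h : IsPart mu n) (N : ℕ) (hN : n ≤ N) :
    ∑ i ∈ range N, mu i = n := by
  obtain ⟨d, rfl⟩ : ∃ d, N = n + d := ⟨N - n, by omega⟩
  rw [Finset.sum_range_add, h.sum, Finset.sum_eq_zero, add_zero]
  intro i _
  exact h.zero _ (by omega)

theorem sx27_area_cj (mu : ℕ → ℕ) (n : ℕ) (h : IsPart mu n) (t N : ℕ) (hN : n ≤ N) :
    area (cj mu) t = ∑ i ∈ range N, min t (mu i) := by
  rw [area_eq_min (cj mu) n (isPart_cj mu n h), cj_cj mu n h]
  obtain ⟨d, rfl⟩ : ∃ d, N = n + d := ⟨N - n, by omega⟩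
  rw [Finset.sum_range_add]
  have : ∑ x ∈ range d, min t (mu (n + x)) = 0 := by
    apply Finset.sum_eq_zero
    intro i _
    rw [h.zero _ (by omega)]
    simp
  rw [this, add_zero]

theorem sx27_block (f : ℕ → ℕ) (a d M : ℕ) (hf : ∀ x, x < d → f (a + x) ≤ M) :
    ∑ x ∈ range d, f (a + x) ≤ d * M := by
  calc ∑ x ∈ range d, f (a + x) ≤ ∑ _x ∈ range d, M :=
        Finset.sum_le_sum fun x hx => hf x (mem_range.1 hx)
    _ = d * M := by simp

theorem sx27_block' (f : ℕ → ℕ) (a d M : ℕ) (hf : ∀ x, x < d → M ≤ f (a + x)) :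
    d * M ≤ ∑ x ∈ range d, f (a + x) := by
  calc d * M = ∑ _x ∈ range d, M := by simp
    _ ≤ ∑ x ∈ range d, f (a + x) := Finset.sum_le_sum fun x hx => hf x (mem_range.1 hx)

theorem sx27_tail1 (mu : ℕ → ℕ) (n : ℕ) (h : IsPart mu n) (s : ℕ) (hs : s ≤ cj mu 0)
    (h1 : cj mu 1 ≤ s) : n ≤ area mu s + (cj mu 0 - s) := by
  have hc0 := sx27_cj_le mu n h 0
  obtain ⟨d, hd⟩ : ∃ d, cj mu 0 = s + d := ⟨cj mu 0 - s, by omega⟩
  obtain ⟨e, he⟩ : ∃ e, n = s + d + e := ⟨n - (s + d), by omega⟩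
  have hsum := h.sum
  have e1 : ∑ i ∈ range n, mu i = ∑ i ∈ range s, mu i + ∑ x ∈ range d, mu (s + x)
      + ∑ x ∈ range e, mu (s + d + x) := by
    rw [he, Finset.sum_range_add, Finset.sum_range_add]
  have e2 : ∑ x ∈ range e, mu (s + d + x) = 0 := by
    apply Finset.sum_eq_zero
    intro x _
    by_contra hne
    have := (lt_cj_iff mu n h (s + d + x) 0).2 (by omega)
    omega
  have e3 : ∑ x ∈ range d, mu (s + x) ≤ d * 1 := by
    apply sx27_block mu s d 1
    intro x _
    by_contra hne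
    have := (lt_cj_iff mu n h (s + x) 1).2 (by omega)
    omega
  unfold area
  rw [e1, e2] at hsum
  omega

/-- basic inequalities for a partition; `4 * j` rows, `4 * i` columns -/
theorem tail_le (mu : ℕ → ℕ) (n : ℕ) (h : IsPart mu n) (s : ℕ) (hs : s ≤ cj mu 0) :
    n ≤ area mu s + (cj mu 0 - cj mu 1) + mu s * (cj mu 1 - s) ∧
      (cj mu 1 ≤ s → n ≤ area mu s + (cj mu 0 - s)) := by
  refine ⟨?_, sx27_tail1 mu n h s hs⟩
  rcases le_total (cj mu 1) s with h1 | h1
  · have := sx27_tail1 mu n h s hs h1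
    have h2 : cj mu 1 - s = 0 := by omega
    rw [h2, mul_zero]
    omega
  · have h10 : cj mu 1 ≤ cj mu 0 := by
      by_contra hcon
      push Not at hcon
      have a1 := (lt_cj_iff mu n h (cj mu 0) 1).1 hcon
      have a2 := (lt_cj_iff mu n h (cj mu 0) 0).2 (by omega)
      omega
    have h2 := sx27_tail1 mu n h (cj mu 1) h10 le_rfl
    obtain ⟨d, hd⟩ : ∃ d, cj mu 1 = s + d := ⟨cj mu 1 - s, by omega⟩
    have e1 : area mu (cj mu 1) = area mu s + ∑ x ∈ range d, mu (s + x) := by
      unfold area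
      rw [hd, Finset.sum_range_add]
    have e2 : ∑ x ∈ range d, mu (s + x) ≤ d * mu s :=
      sx27_block mu s d (mu s) fun x _ => h.anti (by omega)
    have e3 : cj mu 1 - s = d := by omega
    rw [e3, mul_comm (mu s) d]
    omega

theorem mul_le_area (mu : ℕ → ℕ) (n : ℕ) (h : IsPart mu n) (s : ℕ) : s * mu s ≤ area mu s := by
  have := sx27_block' mu 0 s (mu s) fun x _ => h.anti (by omega)
  simpa [area] using this

/-- the box `(s, t)` lies in `mu` -/
theorem box_in (mu : ℕ → ℕ) (n : ℕ) (h : IsPart mu n) (s t : ℕ) (hb : t < mu s) :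
    n + s * t ≤ area mu s + area (cj mu) t + (mu s - t) * (cj mu t - s) ∧ s < cj mu t := by
  have hst := (lt_cj_iff mu n h s t).2 hb
  refine ⟨?_, hst⟩
  have hct := sx27_cj_le mu n h t
  obtain ⟨d, hd⟩ : ∃ d, cj mu t = s + d := ⟨cj mu t - s, by omega⟩
  obtain ⟨e, he⟩ : ∃ e, n = s + d + e := ⟨n - (s + d), by omega⟩
  have hsum := h.sum
  have e1 : ∑ i ∈ range n, mu i = ∑ i ∈ range s, mu i + ∑ x ∈ range d, mu (s + x)
      + ∑ x ∈ range e, mu (s + d + x) := by
    rw [he, Finset.sum_range_add, Finset.sum_range_add]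
  have e2 : area (cj mu) t = ∑ i ∈ range s, min t (mu i) + ∑ x ∈ range d, min t (mu (s + x))
      + ∑ x ∈ range e, min t (mu (s + d + x)) := by
    rw [sx27_area_cj mu n h t n le_rfl, he, Finset.sum_range_add, Finset.sum_range_add]
  have f1 : ∑ i ∈ range s, min t (mu i) = s * t := by
    rw [Finset.sum_congr rfl (g := fun _ => t)]
    · simp
    · intro i hi
      rw [mem_range] at hi
      have : mu s ≤ mu i := h.anti hi.le
      omega
  have f2 : ∑ x ∈ range d, mu (s + x) ≤ ∑ x ∈ range d, min t (mu (s + x)) + d * (mu s - t) := by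
    have : ∑ x ∈ range d, mu (s + x) ≤ ∑ x ∈ range d, (min t (mu (s + x)) + (mu s - t)) := by
      apply Finset.sum_le_sum
      intro x hx
      rw [mem_range] at hx
      have a1 : mu (s + x) ≤ mu s := h.anti (by omega)
      have a2 := (lt_cj_iff mu n h (s + x) t).1 (by omega)
      omega
    rw [Finset.sum_add_distrib] at this
    simpa using this
  have f3 : ∑ x ∈ range e, mu (s + d + x) = ∑ x ∈ range e, min t (mu (s + d + x)) := by
    apply Finset.sum_congr rfl
    intro x _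
    have : ¬ t < mu (s + d + x) := by
      intro hlt
      have := (lt_cj_iff mu n h (s + d + x) t).2 hlt
      omega
    omega
  have e3 : cj mu t - s = d := by omega
  rw [e3, mul_comm (mu s - t) d]
  unfold area at e2 ⊢
  rw [e1] at hsum
  omega

/-- the box `(s, t)` does not lie in `mu` -/
theorem box_out (mu : ℕ → ℕ) (n : ℕ) (h : IsPart mu n) (s t : ℕ) (hb : mu s ≤ t) :
    cj mu t ≤ s ∧ n + s * mu s + t * cj mu t ≤
      area mu s + area (cj mu) t + mu s * cj mu t := by
  have hct : cj mu t ≤ s := by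
    by_contra hcon
    push Not at hcon
    have := (lt_cj_iff mu n h s t).1 hcon
    omega
  refine ⟨hct, ?_⟩
  obtain ⟨d, hd⟩ : ∃ d, s = cj mu t + d := ⟨s - cj mu t, by omega⟩
  set c := cj mu t with hc
  have hsum := sx27_sum mu n h (s + n) (by omega)
  rw [Finset.sum_range_add] at hsum
  have e2 : area (cj mu) t = ∑ i ∈ range s, min t (mu i) + ∑ x ∈ range n, min t (mu (s + x)) := by
    rw [sx27_area_cj mu n h t (s + n) (by omega), Finset.sum_range_add]
  have f3 : ∑ x ∈ range n, mu (s + x) = ∑ x ∈ range n, min t (mu (s + x)) := by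
    apply Finset.sum_congr rfl
    intro x _
    have : mu (s + x) ≤ mu s := h.anti (by omega)
    omega
  have f4 : ∑ i ∈ range s, min t (mu i) = ∑ i ∈ range c, min t (mu i)
      + ∑ x ∈ range d, min t (mu (c + x)) := by
    rw [hd, Finset.sum_range_add]
  have f5 : ∑ i ∈ range c, min t (mu i) = c * t := by
    rw [Finset.sum_congr rfl (g := fun _ => t)]
    · simp
    · intro i hi
      rw [mem_range] at hi
      have := (lt_cj_iff mu n h i t).1 (by omega)
      omega
  have f6 : d * mu s ≤ ∑ x ∈ range d, min t (mu (c + x)) := by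
    apply sx27_block' (fun i => min t (mu i)) c d (mu s)
    intro x hx
    have : mu s ≤ mu (c + x) := h.anti (by omega)
    simp only [le_min_iff]
    exact ⟨hb, this⟩
  have f7 : s * mu s = d * mu s + mu s * c := by
    have f7' : s * mu s = (c + d) * mu s := by rw [← hd]
    rw [f7']
    ring
  have f8 : t * c = c * t := mul_comm _ _
  unfold area at e2 ⊢
  omega

end Pool.Saxl
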