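import Mathlib
import Pool.Agent.Helper139_Saxl.Defs
import Pool.Agent.Helper139_Saxl.Fam
import Pool.Agent.Helper139_Saxl.J04
import Pool.Agent.Helper139_Saxl.J27

set_option autoImplicit false

/-! Job SX-28: the covering inequality, k >= 8. -/

namespace Pool.Saxl

open Finset

theorem sx28_area_full (mu : ℕ → ℕ) (n : ℕ) (h : IsPart mu n) (s : ℕ) (hs : cj mu 0 ≤ s) :
    area mu s = n := by
  rw [area_eq_min mu n h s]
  have hc := isPart_cj mu n h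
  refine Eq.trans ?_ hc.sum
  apply Finset.sum_congr rfl
  intro j _
  apply min_eq_right
  exact le_trans (hc.anti (Nat.zero_le j)) hs

/-- consequences of the failure of the flip rule -/
theorem sx28_flip (k t a b e p p2 : ℕ) (hk : 8 ≤ k) (ht : t ≤ k + 1) (he : e ≤ 1)
    (hae : t = 2 * a + e + 2 * b)
    (h : ¬ (p2 + (2 * a + e + 2 * b) ≤ p ∨
      (k + a + e ≤ p ∧ 2 * k + (2 * a + e + 2 * b) ≤ p + p2 + 1))) (hpp : p2 ≤ p) :
    p + 1 ≤ p2 + t ∧ p + p2 + 1 ≤ 2 * k + t ∧ p + 1 ≤ 2 * k ∧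
      (2 * k ≤ p + 1 → p + p2 + 2 ≤ 2 * k + t) := by
  have h1 : ¬ (p2 + (2 * a + e + 2 * b) ≤ p) := fun hc => h (Or.inl hc)
  have h2 : ¬ (k + a + e ≤ p ∧ 2 * k + (2 * a + e + 2 * b) ≤ p + p2 + 1) :=
    fun hc => h (Or.inr hc)
  by_cases hx : k + a + e ≤ p
  · have h3 : ¬ (2 * k + (2 * a + e + 2 * b) ≤ p + p2 + 1) := fun hc => h2 ⟨hx, hc⟩
    refine ⟨by omega, by omega, by omega, by omega⟩
  · refine ⟨by omega, by omega, by omega, by omega⟩

theorem sx28_flip' (k t a b e : ℕ) (hk : 8 ≤ k) (ht : t ≤ k + 1) (he : e ≤ 1)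
    (hae : t = 2 * a + e + 2 * b) (mu : ℕ → ℕ) (n : ℕ) (hmu : IsPart mu n)
    (h : ¬ FlipC k a e b mu) :
    mu 0 + 1 ≤ mu 1 + t ∧ mu 0 + mu 1 + 1 ≤ 2 * k + t ∧ mu 0 + 1 ≤ 2 * k ∧
      (2 * k ≤ mu 0 + 1 → mu 0 + mu 1 + 2 ≤ 2 * k + t) :=
  sx28_flip k t a b e (mu 0) (mu 1) hk ht he hae h (hmu.anti (Nat.zero_le 1))

/-- `j * (2 * k + 1 - 2 * j)` is the area of the first `j` bands -/
theorem sx28_band (k j : ℕ) (h : 2 * j ≤ k + 1) :
    2 * (k * (k + 1) / 2) = k * (k + 1) ∧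
    k * (k + 1) = 2 * (j * (2 * k + 1 - 2 * j)) + (k - 2 * j) * (k + 1 - 2 * j) := by
  constructor
  · have := Nat.even_mul_succ_self k
    exact Nat.two_mul_div_two_of_even this
  · rcases Nat.lt_or_ge k (2 * j) with h1 | h1
    · have : k + 1 = 2 * j := by omega
      obtain ⟨j', rfl⟩ : ∃ j', j = j' + 1 := ⟨j - 1, by omega⟩
      have hk : k = 2 * j' + 1 := by omega
      subst hk
      have e1 : 2 * (2 * j' + 1) + 1 - 2 * (j' + 1) = 2 * j' + 1 := by omega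
      have e2 : 2 * j' + 1 - 2 * (j' + 1) = 0 := by omega
      rw [e1, e2]
      ring
    · obtain ⟨m, rfl⟩ : ∃ m, k = 2 * j + m := ⟨k - 2 * j, by omega⟩
      have e1 : 2 * (2 * j + m) + 1 - 2 * j = 2 * j + 2 * m + 1 := by omega
      have e2 : 2 * j + m - 2 * j = m := by omega
      have e3 : 2 * j + m + 1 - 2 * j = m + 1 := by omega
      rw [e1, e2, e3]
      ring

/-- the index at which the condition of rule W fails -/
theorem sx28_index (k t a b e : ℕ) (hk : 8 ≤ k) (h1 : 1 ≤ t) (ht : t ≤ k + 1)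
    (he : e ≤ 1) (hae : t = 2 * a + e + 2 * b) (mu : ℕ → ℕ)
    (hmu : IsPart mu (k * (k + 1) / 2 + t))
    (hf : ¬ FlipC k a e b mu) (hf' : ¬ FlipC k a e b (cj mu))
    (hE : e = 0 → ¬ EvenC k a b mu) (hO : e = 1 → ¬ OddC k a b mu) :
    ∃ j d, 1 ≤ j ∧ 2 * j + 1 ≤ k ∧
      ((j = 1 ∧ d ≤ 4 ∧ area mu 4 + 2 * b + 2 ≤ 2 * k + t + d) ∨
       (2 ≤ j ∧ d ≤ 1 ∧ (d = 1 → 4 * j < cj mu 1 + 4) ∧
          area mu (4 * j) + 1 ≤ t + j * (2 * k + 1 - 2 * j) + d)) := by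
  have hcj := isPart_cj mu _ hmu
  obtain ⟨f1, f2, f3, f4⟩ := sx28_flip' k t a b e hk ht he hae mu _ hmu hf
  obtain ⟨g1, g2, g3, g4⟩ := sx28_flip' k t a b e hk ht he hae (cj mu) _ hcj hf'
  have hmu1 : mu 1 ≤ mu 0 := hmu.anti (Nat.zero_le 1)
  have hcj1 : cj mu 1 ≤ cj mu 0 := hcj.anti (Nat.zero_le 1)
  -- large indices cannot fail
  have hbig : ∀ j, 2 ≤ j → 2 * j ≤ k + 1 →
      ¬ (t + j * (2 * k + 1 - 2 * j) ≤ area mu (4 * j)) → 2 * j + 1 ≤ k := by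
    intro j hj2 hj hfail
    by_contra hcon
    apply hfail
    have hq : cj mu 0 ≤ 4 * j := by omega
    rw [sx28_area_full mu _ hmu (4 * j) hq]
    obtain ⟨b1, b2⟩ := sx28_band k j hj
    have b3 : (k - 2 * j) * (k + 1 - 2 * j) = 0 := by
      have : k - 2 * j = 0 := by omega
      rw [this, Nat.zero_mul]
    omega
  rcases Nat.lt_or_ge e 1 with he0 | he1
  · -- even case
    have he0 : e = 0 := by omega
    have hE := hE he0
    by_cases c1 : 2 * k + 2 * a ≤ area mu 4 + 1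
    · have c2 : ¬ ∀ j, 2 ≤ j → 2 * j ≤ k + 1 →
          2 * a + 2 * b + j * (2 * k + 1 - 2 * j) ≤ area mu (4 * j) := fun hc => hE ⟨c1, hc⟩
      push Not at c2
      obtain ⟨j, hj2, hj, hlt⟩ := c2
      have ht' : t = 2 * a + 2 * b := by omega
      refine ⟨j, 0, by omega, ?_, Or.inr ⟨hj2, by omega, by omega, ?_⟩⟩
      · apply hbig j hj2 hj
        rw [ht']
        omega
      · rw [ht']
        omega
    · refine ⟨1, 0, by omega, by omega, Or.inl ⟨rfl, by omega, by omega⟩⟩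
  · have he1 : e = 1 := by omega
    have hO := hO he1
    by_cases c3 : 2 * k + 2 * a + 4 ≤ area mu 4
    · by_cases c5 : ∀ j, 2 ≤ j → 2 * j ≤ k + 1 →
        2 * a + 1 + 2 * b + j * (2 * k + 1 - 2 * j) ≤ area mu (4 * j)
      · by_cases c6 : ∀ j, 2 ≤ j → 2 * j + 1 ≤ k → 4 * j < cj mu 1 + 4 →
          2 * a + 1 + 2 * b + j * (2 * k + 1 - 2 * j) + 1 ≤ area mu (4 * j)
        · exfalso
          apply hO
          refine ⟨?_, by omega, c3, by omega, c5, c6, ?_⟩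
          · intro i hi
            rcases Nat.eq_zero_or_pos i with hi0 | hi0
            · exfalso
              subst hi0
              have hno : mu 1 ≤ 1 := by
                by_contra hcon
                have := (lt_cj_iff mu _ hmu 1 1).mpr (by omega)
                omega
              obtain ⟨_, hb2⟩ := box_out mu _ hmu 1 1 hno
              have ha1 : area mu 1 = mu 0 := by simp [area]
              have ha2 : area (cj mu) 1 = cj mu 0 := by simp [area]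
              rw [ha1, ha2, hi] at hb2
              have hkk : 8 * (k + 1) ≤ k * (k + 1) := Nat.mul_le_mul_right _ hk
              have hev := (sx28_band k 0 (by omega)).1
              omega
            · have : mu i ≤ mu 1 := hmu.anti hi0
              omega
          · intro _
            omega
        · push Not at c6
          obtain ⟨j, hj2, hj, hq, hlt⟩ := c6
          have ht' : t = 2 * a + 1 + 2 * b := by omega
          refine ⟨j, 1, by omega, hj, Or.inr ⟨hj2, by omega, fun _ => hq, ?_⟩⟩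
          rw [ht']
          omega
      · push Not at c5
        obtain ⟨j, hj2, hj, hlt⟩ := c5
        have ht' : t = 2 * a + 1 + 2 * b := by omega
        refine ⟨j, 0, by omega, ?_, Or.inr ⟨hj2, by omega, by omega, ?_⟩⟩
        · apply hbig j hj2 hj
          rw [ht']
          omega
        · rw [ht']
          omega
    · refine ⟨1, 4, by omega, by omega, Or.inl ⟨rfl, by omega, by omega⟩⟩

/-- arithmetic of the claim `4 u > k`, first case -/
theorem sx28_ar1 (k t j d n M q q2 u m : ℤ) (hk : 8 ≤ k) (ht : t ≤ k + 1) (hm : k = 2 * j + m)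
    (hn : 2 * n = 2 * (2 * j ^ 2 + 2 * j * m + j) + m * (m + 1) + 2 * t)
    (hu : 4 * u ≤ k) (hq1 : q + 1 ≤ q2 + t) (hq2 : q + q2 + 1 ≤ 2 * k + t) (hqq : q2 ≤ q)
    (h4 : 4 * j ≤ q2) (hle : n ≤ M + (q - q2) + u * (q2 - 4 * j)) (hm1 : 1 ≤ m)
    (hM : (j = 1 ∧ d ≤ 4 ∧ M + 2 ≤ 2 * k + t + d) ∨
      (2 ≤ j ∧ d ≤ 1 ∧ M + 1 ≤ t + (2 * j ^ 2 + 2 * j * m + j) + d)) : False := by
  have e1 : 4 * u * (q2 - 4 * j) ≤ k * (q2 - 4 * j) :=
    mul_le_mul_of_nonneg_right hu (by linarith)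
  have e2 : k * (2 * q2 + (q - q2)) ≤ k * (3 * k) :=
    mul_le_mul_of_nonneg_left (by linarith) (by linarith)
  have e3 : 0 ≤ (q - q2) * (k - 8) := mul_nonneg (by linarith) (by linarith)
  have e4 := sq_nonneg (k - 4 * j)
  rcases hM with ⟨rfl, hd, hM⟩ | ⟨hj, hd, hM⟩
  · subst hm
    nlinarith
  · subst hm
    nlinarith

/-- arithmetic of the claim `4 u > k`, second case -/
theorem sx28_ar2 (k t j d n M q q2 m : ℤ) (hk : 8 ≤ k) (ht : t ≤ k + 1) (hm : k = 2 * j + m)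
    (hn : 2 * n = 2 * (2 * j ^ 2 + 2 * j * m + j) + m * (m + 1) + 2 * t)
    (hq2 : q + q2 + 1 ≤ 2 * k + t) (hq3 : q + 1 ≤ 2 * k)
    (hq4 : 2 * k ≤ q + 1 → q + q2 + 2 ≤ 2 * k + t)
    (hle : n ≤ M + (q - 4 * j)) (hm1 : 1 ≤ m)
    (hM : (j = 1 ∧ d ≤ 4 ∧ M + 2 ≤ 2 * k + t + d) ∨
      (2 ≤ j ∧ 0 ≤ d ∧ d ≤ 1 ∧ (d = 1 → 4 * j < q2 + 4) ∧
        M + 1 ≤ t + (2 * j ^ 2 + 2 * j * m + j) + d)) : False := by
  rcases hM with ⟨rfl, hd, hM⟩ | ⟨hj, hd0, hd, hd1, hM⟩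
  · have hm6 : 6 ≤ m := by linarith
    nlinarith
  · rcases (by omega : d = 0 ∨ d = 1) with h0 | h0
    · subst h0
      nlinarith [sq_nonneg (2 * m - 3)]
    · have hd1 := hd1 h0
      have hm2 : m ≤ 2 := by
        by_contra hcon
        have hm3 : 3 ≤ m := by omega
        nlinarith
      rcases (by omega : m = 1 ∨ m = 2) with h1 | h1
      · subst h1
        subst h0
        have : 4 * j + 1 ≤ q := by nlinarith
        omega
      · subst h1
        subst h0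
        have : 4 * j + 3 ≤ q := by nlinarith
        omega

/-- arithmetic of the claim `4 u > k`, third case -/
theorem sx28_ar3 (k t j d n M m : ℤ) (hk : 8 ≤ k) (ht : t ≤ k + 1) (hm : k = 2 * j + m)
    (hn : 2 * n = 2 * (2 * j ^ 2 + 2 * j * m + j) + m * (m + 1) + 2 * t)
    (hle : n ≤ M) (hm1 : 1 ≤ m)
    (hM : (j = 1 ∧ d ≤ 4 ∧ M + 2 ≤ 2 * k + t + d) ∨
      (2 ≤ j ∧ d ≤ 1 ∧ M + 1 ≤ t + (2 * j ^ 2 + 2 * j * m + j) + d)) : False := by
  rcases hM with ⟨rfl, hd, hM⟩ | ⟨hj, hd, hM⟩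
  · have hm6 : 6 ≤ m := by linarith
    nlinarith
  · nlinarith

/-- the failing index together with the lower bound for the row at that index -/
theorem sx28_key (k t a b e : ℕ) (hk : 8 ≤ k) (h1 : 1 ≤ t) (ht : t ≤ k + 1)
    (he : e ≤ 1) (hae : t = 2 * a + e + 2 * b) (mu : ℕ → ℕ)
    (hmu : IsPart mu (k * (k + 1) / 2 + t))
    (hf : ¬ FlipC k a e b mu) (hf' : ¬ FlipC k a e b (cj mu))
    (hE : e = 0 → ¬ EvenC k a b mu) (hO : e = 1 → ¬ OddC k a b mu) :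
    ∃ j, 1 ≤ j ∧ 2 * j + 1 ≤ k ∧ k < 4 * mu (4 * j) ∧
      ((j = 1 ∧ area mu (4 * j) + 2 * b ≤ 2 * k + t + 2) ∨
       (2 ≤ j ∧ area mu (4 * j) ≤ t + j * (2 * k + 1 - 2 * j))) := by
  obtain ⟨j, d, hj1, hj, hM⟩ := sx28_index k t a b e hk h1 ht he hae mu hmu hf hf' hE hO
  refine ⟨j, hj1, hj, ?_, ?_⟩
  · by_contra hu
    push Not at hu
    have hcj := isPart_cj mu _ hmu
    obtain ⟨g1, g2, g3, g4⟩ := sx28_flip' k t a b e hk ht he hae (cj mu) _ hcj hf'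
    have hcj1 : cj mu 1 ≤ cj mu 0 := hcj.anti (Nat.zero_le 1)
    obtain ⟨m, hm⟩ : ∃ m, k = 2 * j + m := ⟨k - 2 * j, by omega⟩
    obtain ⟨b1, b2⟩ := sx28_band k j (by omega)
    have e1 : 2 * k + 1 - 2 * j = 2 * j + 2 * m + 1 := by omega
    have e2 : k - 2 * j = m := by omega
    have e3 : k + 1 - 2 * j = m + 1 := by omega
    rw [e1, e2, e3] at b2
    rw [e1] at hM
    set n := k * (k + 1) / 2 + t with hn
    clear_value n
    have hnZ : 2 * (n : ℤ) = 2 * (2 * (j : ℤ) ^ 2 + 2 * j * m + j) + (m : ℤ) * (m + 1) + 2 * t := by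
      have hN : 2 * n = 2 * (j * (2 * j + 2 * m + 1)) + m * (m + 1) + 2 * t := by
        rw [hn]
        omega
      have := congrArg (fun x : ℕ => (x : ℤ)) hN
      push_cast at this
      linarith
    have hMZ : ((j : ℤ) = 1 ∧ (d : ℤ) ≤ 4 ∧ (area mu (4 * j) : ℤ) + 2 ≤ 2 * k + t + d) ∨
      (2 ≤ (j : ℤ) ∧ 0 ≤ (d : ℤ) ∧ (d : ℤ) ≤ 1 ∧ ((d : ℤ) = 1 → 4 * (j : ℤ) < cj mu 1 + 4) ∧
        (area mu (4 * j) : ℤ) + 1 ≤ t + (2 * (j : ℤ) ^ 2 + 2 * j * m + j) + d) := by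
      rcases hM with ⟨hj', hd, hM⟩ | ⟨hj2, hd, hq, hM⟩
      · left
        subst hj'
        refine ⟨by norm_num, by exact_mod_cast hd, ?_⟩
        have : area mu 4 + 2 ≤ 2 * k + t + d := by omega
        exact_mod_cast this
      · right
        refine ⟨by exact_mod_cast hj2, by positivity, by exact_mod_cast hd, ?_, ?_⟩
        · intro hd1
          have := hq (by exact_mod_cast hd1)
          exact_mod_cast this
        · have : ((area mu (4 * j) + 1 : ℕ) : ℤ) ≤ ((t + j * (2 * j + 2 * m + 1) + d : ℕ) : ℤ) := by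
            exact_mod_cast hM
          push_cast at this
          linarith
    have hkZ : (8 : ℤ) ≤ k := by exact_mod_cast hk
    have htZ : (t : ℤ) ≤ k + 1 := by exact_mod_cast ht
    have hmZ : (k : ℤ) = 2 * j + m := by exact_mod_cast hm
    have hm1Z : (1 : ℤ) ≤ m := by
      have : 1 ≤ m := by omega
      exact_mod_cast this
    have g1Z : (cj mu 0 : ℤ) + 1 ≤ cj mu 1 + t := by exact_mod_cast g1
    have g2Z : (cj mu 0 : ℤ) + cj mu 1 + 1 ≤ 2 * k + t := by exact_mod_cast g2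
    have g3Z : (cj mu 0 : ℤ) + 1 ≤ 2 * k := by exact_mod_cast g3
    have g4Z : 2 * (k : ℤ) ≤ cj mu 0 + 1 → (cj mu 0 : ℤ) + cj mu 1 + 2 ≤ 2 * k + t := by
      intro hh
      exact_mod_cast g4 (by exact_mod_cast hh)
    have hqqZ : (cj mu 1 : ℤ) ≤ cj mu 0 := by exact_mod_cast hcj1
    have huZ : 4 * (mu (4 * j) : ℤ) ≤ k := by exact_mod_cast hu
    rcases Nat.lt_or_ge (cj mu 0) (4 * j) with hc | hc
    · -- everything lies in the first `4 * j` rows
      have hfull := sx28_area_full mu _ hmu (4 * j) hc.le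
      have hle : (n : ℤ) ≤ area mu (4 * j) := by exact_mod_cast hfull.ge
      refine sx28_ar3 k t j d n (area mu (4 * j)) m hkZ htZ hmZ hnZ hle hm1Z ?_
      rcases hMZ with ⟨x1, x2, x3⟩ | ⟨x1, x2, x3, x4, x5⟩
      · exact Or.inl ⟨x1, x2, x3⟩
      · exact Or.inr ⟨x1, x3, x5⟩
    · obtain ⟨t1, t2⟩ := tail_le mu _ hmu (4 * j) hc
      rcases Nat.lt_or_ge (cj mu 1) (4 * j) with hc2 | hc2
      · have t2 := t2 hc2.le
        have hle : (n : ℤ) ≤ area mu (4 * j) + (cj mu 0 - 4 * j) := by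
          have t3 : n + 4 * j ≤ area mu (4 * j) + cj mu 0 := by omega
          have : ((n + 4 * j : ℕ) : ℤ) ≤ ((area mu (4 * j) + cj mu 0 : ℕ) : ℤ) := by
            exact_mod_cast t3
          push_cast at this
          linarith
        exact sx28_ar2 k t j d n (area mu (4 * j)) (cj mu 0) (cj mu 1) m hkZ htZ hmZ hnZ g2Z g3Z
          g4Z hle hm1Z hMZ
      · have hle : (n : ℤ) ≤ area mu (4 * j) + (cj mu 0 - cj mu 1) +
            mu (4 * j) * (cj mu 1 - 4 * j) := by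
          have : (n : ℤ) ≤ ((area mu (4 * j) + (cj mu 0 - cj mu 1) +
            mu (4 * j) * (cj mu 1 - 4 * j) : ℕ) : ℤ) := by exact_mod_cast t1
          rw [Nat.cast_add, Nat.cast_add, Nat.cast_mul, Nat.cast_sub hcj1,
            Nat.cast_sub hc2] at this
          push_cast at this
          exact this
        refine sx28_ar1 k t j d n (area mu (4 * j)) (cj mu 0) (cj mu 1) (mu (4 * j)) m hkZ htZ
          hmZ hnZ huZ g1Z g2Z hqqZ (by exact_mod_cast hc2) hle hm1Z ?_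
        rcases hMZ with ⟨x1, x2, x3⟩ | ⟨x1, x2, x3, x4, x5⟩
        · exact Or.inl ⟨x1, x2, x3⟩
        · exact Or.inr ⟨x1, x3, x5⟩
  · rcases hM with ⟨hj', hd, hM⟩ | ⟨hj2, hd, hq, hM⟩
    · left
      subst hj'
      refine ⟨rfl, ?_⟩
      show area mu 4 + 2 * b ≤ 2 * k + t + 2
      omega
    · right
      exact ⟨hj2, by omega⟩

theorem sx28_sqlt (k t b j M n : ℤ) (hk : 8 ≤ k) (ht0 : 0 ≤ t) (ht : t ≤ k + 1)
    (hb : t ≤ 8 * b + 7) (hn : 2 * n = k * (k + 1) + 2 * t) (hM : 0 ≤ M) (hjk : 2 * j + 1 ≤ k)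
    (h : (j = 1 ∧ M + 2 * b ≤ 2 * k + t + 2) ∨ (2 ≤ j ∧ M ≤ t + j * (2 * k + 1 - 2 * j))) :
    M ^ 2 < 16 * j ^ 2 * n := by
  rcases h with ⟨rfl, h⟩ | ⟨hj, h⟩
  · have h4 : 4 * M ≤ 8 * k + 15 + 3 * t := by linarith
    have h5 : (4 * M) ^ 2 ≤ (8 * k + 15 + 3 * t) ^ 2 := pow_le_pow_left₀ (by linarith) h4 2
    have h6 : (8 * k + 15 + 3 * t) ^ 2 < 128 * (k * (k + 1)) + 256 * t := by
      nlinarith [mul_nonneg ht0 (sub_nonneg.mpr ht), mul_nonneg (sub_nonneg.mpr hk) ht0,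
        mul_nonneg (sub_nonneg.mpr hk) (sub_nonneg.mpr hk),
        mul_nonneg (sub_nonneg.mpr hk) (sub_nonneg.mpr ht)]
    nlinarith
  · have h2 : 2 * M ≤ j * (5 * k - 5) := by
      nlinarith [mul_nonneg (sub_nonneg.mpr hj) ht0,
        mul_nonneg (sub_nonneg.mpr hj) (by linarith : (0 : ℤ) ≤ j),
        mul_nonneg (by linarith : (0 : ℤ) ≤ j) (sub_nonneg.mpr ht)]
    have h3 : (2 * M) ^ 2 ≤ (j * (5 * k - 5)) ^ 2 := pow_le_pow_left₀ (by linarith) h2 2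
    have hj2 : 0 < j ^ 2 := by positivity
    have h4 : (5 * k - 5) ^ 2 < 64 * n := by nlinarith
    have h5 : j ^ 2 * (5 * k - 5) ^ 2 < j ^ 2 * (64 * n) := mul_lt_mul_of_pos_left h4 hj2
    nlinarith

/-- Case I: the box lies in `mu` -/
theorem sx28_case1 (i j n M M' u v : ℤ) (hi : 0 < i) (hj : 0 < j) (hn : 0 < n)
    (hu : 4 * i ≤ u) (hv : 4 * j ≤ v)
    (hbox : n + 4 * j * (4 * i) ≤ M + M' + (u - 4 * i) * (v - 4 * j))
    (hM : 4 * j * u ≤ M) (hM' : 4 * i * v ≤ M')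
    (h1 : M ^ 2 < 16 * j ^ 2 * n) (h2 : M' ^ 2 < 16 * i ^ 2 * n) : False := by
  have a1 : 0 ≤ 4 * j * (u - 4 * i) := by
    have : 0 ≤ u - 4 * i := by linarith
    positivity
  have a2 : 0 ≤ 4 * i * (v - 4 * j) := by
    have : 0 ≤ v - 4 * j := by linarith
    positivity
  have a3 : (4 * j * (u - 4 * i)) * (4 * i * (v - 4 * j)) ≤
      (M - 16 * i * j) * (M' - 16 * i * j) :=
    mul_le_mul (by linarith) (by linarith) a2 (by linarith)
  have a4 : 16 * i * j * n ≤ M * M' := by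
    have hij : 0 < i * j := mul_pos hi hj
    have := mul_le_mul_of_nonneg_left hbox (by linarith : (0 : ℤ) ≤ 16 * (i * j))
    nlinarith
  have a5 : (16 * i * j * n) ^ 2 ≤ (M * M') ^ 2 := by
    apply pow_le_pow_left₀ _ a4
    positivity
  have a6 : M ^ 2 * M' ^ 2 < (16 * j ^ 2 * n) * (16 * i ^ 2 * n) :=
    mul_lt_mul'' h1 h2 (sq_nonneg _) (sq_nonneg _)
  nlinarith

/-- Case II: the box does not lie in `mu` -/
theorem sx28_case2 (k t b i j n M M' u v : ℤ) (hk : 8 ≤ k) (ht0 : 0 ≤ t) (ht : t ≤ k + 1)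
    (hb : 0 ≤ b) (hn : 2 * n = k * (k + 1) + 2 * t)
    (hu : k < 4 * u) (hv : k < 4 * v) (hu4 : u ≤ 4 * i) (hv4 : v ≤ 4 * j)
    (hbox : n + 4 * j * u + 4 * i * v ≤ M + M' + u * v)
    (hj : (j = 1 ∧ M + 2 * b ≤ 2 * k + t + 2) ∨ (2 ≤ j ∧ M ≤ t + j * (2 * k + 1 - 2 * j)))
    (hi : (i = 1 ∧ M' + 2 * b ≤ 2 * k + t + 2) ∨ (2 ≤ i ∧ M' ≤ t + i * (2 * k + 1 - 2 * i))) :
    False := by
  have a1 : (16 * i - 4 * u) * (16 * j - 4 * v) ≤ (16 * i - k) * (16 * j - k) :=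
    mul_le_mul (by linarith) (by linarith) (by linarith) (by linarith)
  -- 16 (4 j u + 4 i v - u v) ≥ 16 k (i + j) - k²
  have a2 : 16 * k * (i + j) - k ^ 2 ≤ 16 * (4 * j * u + 4 * i * v - u * v) := by nlinarith
  rcases hj with ⟨rfl, hM⟩ | ⟨hj2, hM⟩
  · rcases hi with ⟨rfl, hM'⟩ | ⟨hi2, hM'⟩
    · nlinarith
    · nlinarith [sq_nonneg (4 * i - (k + 1))]
  · rcases hi with ⟨rfl, hM'⟩ | ⟨hi2, hM'⟩
    · nlinarith [sq_nonneg (4 * j - (k + 1))]
    · nlinarith [sq_nonneg (4 * j - (k + 1)), sq_nonneg (4 * i - (k + 1))]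




theorem cover_large (k t a b e : ℕ) (hk : 8 ≤ k) (h1 : 1 ≤ t) (ht : t ≤ k + 1) (hb : b = t / 8)
    (he : e ≤ 1) (hae : t = 2 * a + e + 2 * b) (mu : ℕ → ℕ) (hmu : IsPart mu (k * (k + 1) / 2 + t)) :
    FlipC k a e b mu ∨ FlipC k a e b (cj mu) ∨
      (e = 0 ∧ (EvenC k a b mu ∨ EvenC k a b (cj mu))) ∨
      (e = 1 ∧ (OddC k a b mu ∨ OddC k a b (cj mu))) := by
  by_contra hcon
  push Not at hcon
  obtain ⟨hf, hf', hE, hO⟩ := hcon
  have hcj := isPart_cj mu _ hmu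
  have hcc : cj (cj mu) = mu := cj_cj mu _ hmu
  obtain ⟨j, hj1, hj, hu, hM⟩ := sx28_key k t a b e hk h1 ht he hae mu hmu hf hf'
    (fun h => (hE h).1) (fun h => (hO h).1)
  obtain ⟨i, hi1, hi, hv, hM'⟩ := sx28_key k t a b e hk h1 ht he hae (cj mu) hcj hf'
    (by rw [hcc]; exact hf) (fun h => (hE h).2) (fun h => (hO h).2)
  set n := k * (k + 1) / 2 + t with hn
  clear_value n
  have hb1 := (sx28_band k 0 (by omega)).1
  have hnZ : 2 * (n : ℤ) = (k : ℤ) * (k + 1) + 2 * t := by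
    have hN : 2 * n = k * (k + 1) + 2 * t := by omega
    exact_mod_cast hN
  have hkZ : (8 : ℤ) ≤ k := by exact_mod_cast hk
  have htZ : (t : ℤ) ≤ k + 1 := by exact_mod_cast ht
  have ht0Z : (0 : ℤ) ≤ t := by positivity
  have hbZ : (t : ℤ) ≤ 8 * b + 7 := by
    have : t ≤ 8 * b + 7 := by omega
    exact_mod_cast this
  have hjZ : 2 * (j : ℤ) + 1 ≤ k := by exact_mod_cast hj
  have hiZ : 2 * (i : ℤ) + 1 ≤ k := by exact_mod_cast hi
  have cast1 : ∀ (j : ℕ) (M : ℕ), 2 * j + 1 ≤ k →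
      ((j = 1 ∧ M + 2 * b ≤ 2 * k + t + 2) ∨ (2 ≤ j ∧ M ≤ t + j * (2 * k + 1 - 2 * j))) →
      (((j : ℤ) = 1 ∧ (M : ℤ) + 2 * b ≤ 2 * k + t + 2) ∨
        (2 ≤ (j : ℤ) ∧ (M : ℤ) ≤ t + j * (2 * k + 1 - 2 * j))) := by
    intro j M hj h
    rcases h with ⟨x1, x2⟩ | ⟨x1, x2⟩
    · left
      exact ⟨by exact_mod_cast x1, by exact_mod_cast x2⟩
    · right
      refine ⟨by exact_mod_cast x1, ?_⟩
      have : (M : ℤ) ≤ ((t + j * (2 * k + 1 - 2 * j) : ℕ) : ℤ) := by exact_mod_cast x2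
      rw [Nat.cast_add, Nat.cast_mul, Nat.cast_sub (by omega)] at this
      push_cast at this
      exact this
  have hMZ := cast1 j _ hj hM
  have hMZ' := cast1 i _ hi hM'
  rcases Nat.lt_or_ge (4 * i) (mu (4 * j)) with hc | hc
  · obtain ⟨b1, b2⟩ := box_in mu _ hmu (4 * j) (4 * i) hc
    refine sx28_case1 i j n (area mu (4 * j)) (area (cj mu) (4 * i)) (mu (4 * j))
      (cj mu (4 * i)) (by exact_mod_cast hi1) (by exact_mod_cast hj1) ?_
      (by exact_mod_cast hc.le) (by exact_mod_cast b2.le) ?_ ?_ ?_ ?_ ?_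
    · have : 0 < n := by omega
      exact_mod_cast this
    · have : ((n + 4 * j * (4 * i) : ℕ) : ℤ) ≤ ((area mu (4 * j) + area (cj mu) (4 * i) +
          (mu (4 * j) - 4 * i) * (cj mu (4 * i) - 4 * j) : ℕ) : ℤ) := by exact_mod_cast b1
      rw [Nat.cast_add _ ((mu (4 * j) - 4 * i) * (cj mu (4 * i) - 4 * j)), Nat.cast_mul,
        Nat.cast_sub hc.le, Nat.cast_sub b2.le] at this
      push_cast at this
      linarith
    · have := mul_le_area mu _ hmu (4 * j)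
      exact_mod_cast this
    · have := mul_le_area (cj mu) _ hcj (4 * i)
      exact_mod_cast this
    · exact sx28_sqlt k t b j _ n hkZ ht0Z htZ hbZ hnZ (by positivity) hjZ hMZ
    · exact sx28_sqlt k t b i _ n hkZ ht0Z htZ hbZ hnZ (by positivity) hiZ hMZ'
  · obtain ⟨b1, b2⟩ := box_out mu _ hmu (4 * j) (4 * i) hc
    refine sx28_case2 k t b i j n (area mu (4 * j)) (area (cj mu) (4 * i)) (mu (4 * j))
      (cj mu (4 * i)) hkZ ht0Z htZ (by positivity) hnZ (by exact_mod_cast hu)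
      (by exact_mod_cast hv) (by exact_mod_cast hc) (by exact_mod_cast b1) ?_ hMZ hMZ'
    exact_mod_cast b2

end Pool.Saxl
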