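import Mathlib
import Pool.Agent.Helper139_Saxl.Defs
import Pool.Agent.Helper139_Saxl.Fam
import Pool.Agent.Helper139_Saxl.J04
import Pool.Agent.Helper139_Saxl.J02
import Pool.Agent.Helper139_Saxl.J03
import Pool.Agent.Helper139_Saxl.J24
import Pool.Agent.Helper139_Saxl.J26

set_option autoImplicit false

/-! Job SX-29: small cases. -/

namespace Pool.Saxl

open Finset

def sx29_T : ℕ → List (List ℕ × List ℕ)
  | 6 => [([2,2,2], []), ([3,2,1], [])]
  | 9 => [([3,2,2,2], [1]), ([4,3,2], [1]), ([4,3,1,1], [1]), ([3,3,3], [1])]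
  | 11 => [([4,4,3], [2,1])]
  | 13 => [([5,5,3], [2,1]), ([5,5,2,1], [3]), ([5,4,4], [3]), ([5,4,3,1], [3]), ([5,4,2,2], [3]),
    ([5,4,2,1,1], [3]), ([5,3,3,2], [3]), ([5,3,3,1,1], [3]), ([4,4,4,1], [3]), ([4,4,3,2], [3])]
  | 15 => [([7,4,4], [3]), ([7,4,3,1], [3]), ([7,4,2,2], [3]), ([7,4,2,1,1], [3]), ([7,4,1,1,1,1],
    [2,1]), ([7,3,3,2], [3]), ([7,3,3,1,1], [3]), ([7,3,2,2,1], [3]), ([7,3,2,1,1,1], [2,1]),
    ([6,6,3], [2,1]), ([6,6,2,1], [3]), ([6,6,1,1,1], [3]), ([6,5,4], [3]), ([6,5,3,1], [3]),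
    ([6,5,2,2], [3]), ([6,5,2,1,1], [3]), ([6,5,1,1,1,1], [2,1]), ([6,4,4,1], [3]), ([6,4,3,2],
    [3]), ([6,4,3,1,1], [3]), ([6,4,2,2,1], [3]), ([6,4,2,1,1,1], [2,1]), ([6,3,3,3], [3]),
    ([6,3,3,2,1], [3]), ([6,3,3,1,1,1], [2,1]), ([6,3,2,2,2], [3]), ([5,5,5], [3]), ([5,5,4,1],
    [3]), ([5,5,3,2], [3]), ([5,5,3,1,1], [2,1]), ([5,5,2,2,1], [3]), ([5,4,4,2], [3]),
    ([5,4,4,1,1], [3]), ([5,4,3,3], [3]), ([5,4,3,2,1], [3]), ([4,4,4,3], [3])]
  | 18 => [([6,5,2,2,2,1], [5,1])]
  | 20 => [([8,5,3,1,1,1,1], [4,1,1]), ([8,5,2,2,2,1], [5,1]), ([8,5,2,2,1,1,1], [4,1,1]),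
    ([8,4,4,1,1,1,1], [4,1,1]), ([8,4,3,2,2,1], [5,1]), ([8,4,3,2,1,1,1], [4,1,1]),
    ([8,4,2,2,2,2], [4,2]), ([8,4,2,2,2,1,1], [4,1,1]), ([8,4,2,2,1,1,1,1], [3,1,1,1]),
    ([7,7,2,1,1,1,1], [4,1,1]), ([7,6,3,1,1,1,1], [4,1,1]), ([7,6,2,2,2,1], [5,1]),
    ([7,6,2,2,1,1,1], [4,1,1]), ([7,5,4,1,1,1,1], [4,1,1]), ([7,5,3,2,2,1], [5,1]),
    ([7,5,3,2,1,1,1], [4,1,1]), ([7,5,2,2,2,2], [4,2]), ([7,5,2,2,2,1,1], [4,1,1]),
    ([7,4,4,2,2,1], [5,1]), ([7,4,4,2,1,1,1], [4,1,1]), ([7,4,3,3,3], [6]), ([7,4,3,3,2,1],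
    [5,1]), ([7,4,3,2,2,2], [4,2]), ([7,3,3,3,3,1], [5,1]), ([7,3,3,3,2,2], [4,2]),
    ([6,6,3,2,2,1], [5,1]), ([6,6,2,2,2,2], [4,2]), ([6,5,4,2,2,1], [5,1]), ([6,5,3,3,3], [6])]
  | 26 => [([9,6,2,2,2,2,2,1], [5,2,2,1]), ([9,6,2,2,2,2,1,1,1], [5,2,1,1,1]), ([8,7,2,2,2,2,2,1],
    [5,2,2,1])]
  | 28 => [([11,6,2,2,2,2,2,1], [5,2,2,1]), ([11,6,2,2,2,2,1,1,1], [5,2,1,1,1]),
    ([11,6,2,2,2,1,1,1,1,1], [5,1,1,1,1,1]), ([11,5,3,2,2,2,2,1], [5,2,2,1]),
    ([11,5,3,2,2,2,1,1,1], [5,2,1,1,1]), ([11,5,3,2,2,1,1,1,1,1], [5,1,1,1,1,1]),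
    ([11,5,2,2,2,2,2,2], [4,2,2,2]), ([11,5,2,2,2,2,2,1,1], [4,2,2,1,1]), ([11,5,2,2,2,2,1,1,1,1],
    [4,2,1,1,1,1]), ([11,5,2,2,2,1,1,1,1,1,1], [4,1,1,1,1,1,1]), ([10,7,2,2,2,2,2,1], [5,2,2,1]),
    ([10,7,2,2,2,2,1,1,1], [5,2,1,1,1]), ([10,7,2,2,2,1,1,1,1,1], [5,1,1,1,1,1]),
    ([10,6,3,2,2,2,2,1], [5,2,2,1]), ([10,6,3,2,2,2,1,1,1], [5,2,1,1,1]), ([10,6,3,2,2,1,1,1,1,1],
    [5,1,1,1,1,1]), ([10,6,2,2,2,2,2,2], [4,2,2,2]), ([10,6,2,2,2,2,2,1,1], [4,2,2,1,1]),
    ([10,6,2,2,2,2,1,1,1,1], [4,2,1,1,1,1]), ([10,5,4,2,2,2,2,1], [5,2,2,1]),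
    ([10,5,4,2,2,2,1,1,1], [5,2,1,1,1]), ([10,5,4,2,2,1,1,1,1,1], [5,1,1,1,1,1]),
    ([10,5,3,3,3,3,1], [6,3,1]), ([10,5,3,3,3,2,2], [6,2,2]), ([10,5,3,3,3,2,1,1], [6,2,1,1]),
    ([10,5,3,3,3,1,1,1,1], [6,1,1,1,1]), ([10,5,3,3,2,2,2,1], [5,2,2,1]), ([10,5,3,3,2,2,1,1,1],
    [5,2,1,1,1]), ([10,5,3,2,2,2,2,2], [4,2,2,2]), ([10,5,3,2,2,2,2,1,1], [4,2,2,1,1]),
    ([10,5,2,2,2,2,2,2,1], [3,2,2,2,1]), ([9,8,2,2,2,2,2,1], [5,2,2,1]), ([9,8,2,2,2,2,1,1,1],
    [5,2,1,1,1]), ([9,7,3,2,2,2,2,1], [5,2,2,1]), ([9,7,3,2,2,2,1,1,1], [5,2,1,1,1]),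
    ([9,7,2,2,2,2,2,2], [4,2,2,2]), ([9,7,2,2,2,2,2,1,1], [4,2,2,1,1]), ([9,6,4,2,2,2,2,1],
    [5,2,2,1]), ([9,6,4,2,2,2,1,1,1], [5,2,1,1,1]), ([9,6,3,3,3,3,1], [6,3,1]), ([9,6,3,3,3,2,2],
    [6,2,2]), ([9,6,3,3,3,2,1,1], [6,2,1,1]), ([9,6,3,3,3,1,1,1,1], [6,1,1,1,1]),
    ([9,6,3,3,2,2,2,1], [5,2,2,1]), ([9,6,3,2,2,2,2,2], [4,2,2,2]), ([9,5,5,2,2,2,2,1],
    [5,2,2,1]), ([8,8,3,2,2,2,2,1], [5,2,2,1]), ([8,8,2,2,2,2,2,2], [4,2,2,2]),
    ([8,7,4,2,2,2,2,1], [5,2,2,1]), ([8,7,3,3,3,3,1], [6,3,1]), ([8,7,3,3,3,2,2], [6,2,2]),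
    ([8,7,3,3,3,2,1,1], [6,2,1,1])]
  | _ => []

/-- the function of a list -/
def sx29_fn (L : List ℕ) : ℕ → ℕ := fun i => L.getD i 0

/-- areas -/
def sx29_A (L : List ℕ) (s : ℕ) : ℕ := (L.take s).sum

/-- areas of the conjugate -/
def sx29_B (L : List ℕ) (s : ℕ) : ℕ := (L.map (min s)).sum

/-- column lengths -/
def sx29_c (L : List ℕ) (j : ℕ) : ℕ := L.countP (fun x => Nat.blt j x)

def sx29_flip (k a e m0 m1 : ℕ) : Bool :=
  Nat.ble (m1 + (2 * a + e + 2 * 0)) m0 ||
    (Nat.ble (k + a + e) m0 && Nat.ble (2 * k + (2 * a + e + 2 * 0)) (m0 + m1 + 1))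

def sx29_even (k a : ℕ) (A : ℕ → ℕ) : Bool :=
  Nat.ble (2 * k + 2 * a) (A 4 + 1) &&
    [2, 3, 4].all fun j => Nat.blt (k + 1) (2 * j) ||
      Nat.ble (2 * a + 2 * 0 + j * (2 * k + 1 - 2 * j)) (A (4 * j))

def sx29_odd (k a : ℕ) (A : ℕ → ℕ) (m0 c1 last : ℕ) : Bool :=
  (Nat.beq c1 0 || Nat.blt (last + 3) (2 * k + 2 * a)) && Nat.ble m0 (2 * k + 2 * a) &&
    Nat.ble (2 * k + 2 * a + 4) (A 4) && Nat.ble 9 (A 4) &&
    ([2, 3, 4].all fun j => Nat.blt (k + 1) (2 * j) ||
      Nat.ble (2 * a + 1 + 2 * 0 + j * (2 * k + 1 - 2 * j)) (A (4 * j))) &&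
    ([2, 3].all fun j => Nat.blt k (2 * j + 1) || (Nat.ble (c1 + 4) (4 * j) ||
      Nat.ble (2 * a + 1 + 2 * 0 + j * (2 * k + 1 - 2 * j) + 1) (A (4 * j)))) &&
    (Nat.blt k 3 || Nat.ble c1 (4 * ((k + 1) / 2 - 1)))

/-- the list of the conjugate -/
def sx29_conj (L : List ℕ) : List ℕ := (List.range (L.getD 0 0)).map (sx29_c L)

/-- weakly decreasing -/
def sx29_dec : List ℕ → Bool
  | [] => true
  | x :: L => L.all (fun y => Nat.ble y x) && sx29_dec L

/-- the list of the columns with an odd number of boxes -/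
def sx29_js (L N : List ℕ) (n : ℕ) : List ℕ :=
  (List.range n).filter fun j => Nat.beq ((sx29_c L j - sx29_c N j) % 2) 1

def sx29_cert (n k : ℕ) (L N : List ℕ) : Bool :=
  sx29_dec N && Nat.beq N.sum ((k - 2) * (k - 1) / 2) &&
    Nat.ble N.length ((k - 2) * (k - 1) / 2) &&
    ((List.range (L.length + N.length)).all fun i =>
      Nat.ble (N.getD i 0) (L.getD i 0) && Nat.ble (L.getD (i + 4) 0) (N.getD i 0)) &&
    Nat.ble 2 (sx29_js L N n).length &&
    ([1, 2, 3].all fun i => Nat.blt k (2 * i + 1) ||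
      Nat.ble (i * (2 * k - 3 - 2 * i)) (sx29_A N (4 * i)))

def sx29_leaf (n k a e : ℕ) (T : List (List ℕ × List ℕ)) (L : List ℕ) : Bool :=
  (sx29_flip k a e L.length (sx29_c L 1) ||
    ((Nat.beq e 0 && (sx29_even k a (sx29_A L) || sx29_even k a (sx29_B L))) ||
      (Nat.beq e 1 && (sx29_odd k a (sx29_A L) (L.getD 0 0) (sx29_c L 1)
          (L.getD (sx29_c L 1 - 1) 0) ||
        (sx29_odd k a (sx29_B L) L.length (L.getD 1 0) (sx29_c L (L.getD 1 0 - 1)) ||
          T.any fun p => (p.1 == L && sx29_cert n k L p.2) ||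
            (p.1 == sx29_conj L && sx29_cert n k (sx29_conj L) p.2))))))

/-- enumeration of the partitions of `rem` into at most `r` parts of size at most `p` -/
def sx29_go (P : List ℕ → Bool) : ℕ → ℕ → ℕ → ℕ → List ℕ → Bool
  | 0, _, _, _, _ => false
  | f + 1, rem, p, r, acc =>
    bif Nat.beq rem 0 then P acc.reverse
    else bif Nat.blt (p * r) rem then true
    else (bif Nat.ble p rem then sx29_go P f (rem - p) p (r - 1) (p :: acc) else true) &&
      sx29_go P f rem (p - 1) r acc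

def sx29_check (P : List ℕ → Bool) (n k a e : ℕ) : Bool :=
  sx29_flip k a e n 0 &&
  (List.range (n + 1)).all fun m0 => (List.range (m0 + 1)).all fun m1 =>
    Nat.blt n (m0 + m1) || (Nat.beq m1 0 || (sx29_flip k a e m0 m1 ||
      sx29_go P (2 * n + 2) (n - (m0 + m1)) m1 (m0 - 2) [m1, m0]))


theorem sx29_go_spec (P : List ℕ → Bool) : ∀ (f rem p r : ℕ) (acc : List ℕ),
    sx29_go P f rem p r acc = true → ∀ L : List ℕ, L.sum = rem → (∀ x ∈ L, 0 < x) →
    L.Pairwise (fun x y => y ≤ x) → (∀ x ∈ L, x ≤ p) → L.length ≤ r →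
    P (acc.reverse ++ L) = true := by
  intro f
  induction f with
  | zero =>
    intro rem p r acc h
    exact absurd h (by simp [sx29_go])
  | succ f ih =>
    intro rem p r acc h L hsum hpos hL hp hr
    unfold sx29_go at h
    by_cases h0 : rem = 0
    · have hLnil : L = [] := by
        cases L with
        | nil => rfl
        | cons x L =>
          have h1 := hpos x (by simp)
          rw [List.sum_cons] at hsum
          omega
      subst hLnil
      subst h0
      simpa using h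
    · have e0 : Nat.beq rem 0 = false := by
        rw [Bool.eq_false_iff]
        intro h1
        exact h0 (Nat.beq_eq ▸ h1)
      rw [e0, cond_false] at h
      have hpr : rem ≤ p * r := by
        have h1 : L.sum ≤ L.length * p := by
          have := List.sum_le_card_nsmul L p hp
          simpa using this
        have h2 : L.length * p ≤ r * p := Nat.mul_le_mul_right p hr
        rw [← hsum, mul_comm p r]
        exact h1.trans h2
      have e1 : Nat.blt (p * r) rem = false := by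
        rw [Bool.eq_false_iff]
        intro h1
        have h2 : p * r + 1 ≤ rem := Nat.le_of_ble_eq_true h1
        omega
      rw [e1, cond_false, Bool.and_eq_true] at h
      cases L with
      | nil => exact absurd hsum.symm h0
      | cons x L =>
        rw [List.pairwise_cons] at hL
        rcases (hp x (by simp)).lt_or_eq with hx | hx
        · refine ih rem (p - 1) r acc h.2 (x :: L) hsum hpos (List.pairwise_cons.2 hL) ?_ hr
          intro y hy
          rcases List.mem_cons.1 hy with rfl | hy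
          · omega
          · have := hL.1 y hy
            omega
        · subst hx
          rw [List.sum_cons] at hsum
          have e2 : Nat.ble x rem = true := Nat.ble_eq_true_of_le (by omega)
          rw [e2, cond_true] at h
          rw [List.length_cons] at hr
          have h3 := ih (rem - x) x (r - 1) (x :: acc) h.1 L (by omega)
            (fun y hy => hpos y (List.mem_cons_of_mem _ hy)) hL.2 (fun y hy => hL.1 y hy) (by omega)
          simpa using h3

theorem sx29_check_spec (P : List ℕ → Bool) (n k a e : ℕ) (h : sx29_check P n k a e = true)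
    (hn : 0 < n) (L : List ℕ) (hsum : L.sum = n) (hpos : ∀ x ∈ L, 0 < x)
    (hL : L.Pairwise (fun x y => y ≤ x)) (hlen : L.length ≤ L.getD 0 0) :
    sx29_flip k a e (L.getD 0 0) (L.getD 1 0) = true ∨ P L = true := by
  unfold sx29_check at h
  rw [Bool.and_eq_true] at h
  match L, hsum, hpos, hL, hlen with
  | [], hsum, _, _, _ =>
    rw [List.sum_nil] at hsum
    omega
  | [x], hsum, _, _, _ =>
    left
    have h1 : x = n := by simpa using hsum
    subst h1
    exact h.1
  | x :: y :: L, hsum, hpos, hL, hlen =>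
    have h1 := h.2
    rw [List.all_eq_true] at h1
    rw [List.sum_cons, List.sum_cons] at hsum
    rw [List.pairwise_cons, List.pairwise_cons] at hL
    have hyx : y ≤ x := hL.1 y (by simp)
    have hy0 : 0 < y := hpos y (by simp)
    have h2 := h1 x (List.mem_range.2 (by omega))
    rw [List.all_eq_true] at h2
    have h3 := h2 y (List.mem_range.2 (by omega))
    rw [Bool.or_eq_true, Bool.or_eq_true, Bool.or_eq_true] at h3
    rcases h3 with h3 | h3 | h3 | h3
    · have h4 : n + 1 ≤ x + y := Nat.le_of_ble_eq_true h3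
      omega
    · have h4 : y = 0 := Nat.eq_of_beq_eq_true h3
      omega
    · left
      exact h3
    · right
      have h4 : (x :: y :: L).getD 0 0 = x := rfl
      rw [h4, List.length_cons, List.length_cons] at hlen
      exact sx29_go_spec P _ _ _ _ _ h3 L (by omega)
        (fun z hz => hpos z (by simp [hz])) hL.2.2 (fun z hz => hL.2.1 z hz) (by omega)

theorem sx29_area (L : List ℕ) : ∀ s, area (sx29_fn L) s = sx29_A L s := by
  unfold area sx29_fn sx29_A
  induction L with
  | nil =>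
    intro s
    simp
  | cons x L ih =>
    intro s
    cases s with
    | zero => simp
    | succ s =>
      rw [Finset.sum_range_succ', List.take_succ_cons, List.sum_cons, ← ih s]
      simp only [List.getD_cons_succ, List.getD_cons_zero]
      omega

theorem sx29_sum_map (g : ℕ → ℕ) (hg : g 0 = 0) (L : List ℕ) : ∀ n, L.length ≤ n →
    ∑ j ∈ range n, g (L.getD j 0) = (L.map g).sum := by
  induction L with
  | nil =>
    intro n _
    simp [hg]
  | cons x L ih =>
    intro n hn
    cases n with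
    | zero => simp at hn
    | succ n =>
      rw [Finset.sum_range_succ', List.map_cons, List.sum_cons,
        ← ih n (by simpa using hn)]
      simp only [List.getD_cons_succ, List.getD_cons_zero]
      omega

theorem sx29_lt_c (L : List ℕ) (hL : L.Pairwise (fun x y => y ≤ x)) (j : ℕ) :
    ∀ i, i < sx29_c L j ↔ j < L.getD i 0 := by
  unfold sx29_c
  induction L with
  | nil =>
    intro i
    simp
  | cons x L ih =>
    intro i
    rw [List.pairwise_cons] at hL
    by_cases hx : j < x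
    · have h1 : Nat.blt j x = true := Nat.ble_eq_true_of_le hx
      rw [List.countP_cons_of_pos (by exact h1)]
      cases i with
      | zero => simp [hx]
      | succ i =>
        rw [List.getD_cons_succ, ← ih hL.2 i]
        omega
    · have h1 : ¬ Nat.blt j x = true := fun h => hx (Nat.le_of_ble_eq_true h)
      have h2 : List.countP (fun x => Nat.blt j x) (x :: L) = 0 := by
        rw [List.countP_eq_zero]
        intro y hy h
        have h3 : j < y := Nat.le_of_ble_eq_true h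
        rcases List.mem_cons.1 hy with rfl | hy
        · exact hx h3
        · have := hL.1 y hy
          omega
      rw [h2]
      constructor
      · intro h
        omega
      · intro h
        exfalso
        have h3 : (x :: L).getD i 0 ≤ x := by
          cases i with
          | zero => simp
          | succ i =>
            rw [List.getD_cons_succ]
            by_cases hi : i < L.length
            · rw [List.getD_eq_getElem _ _ hi]
              exact hL.1 _ (List.getElem_mem hi)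
            · rw [List.getD_eq_default _ _ (by omega)]
              omega
        omega

theorem sx29_cj (L : List ℕ) (n : ℕ) (h : IsPart (sx29_fn L) n)
    (hL : L.Pairwise (fun x y => y ≤ x)) (j : ℕ) : cj (sx29_fn L) j = sx29_c L j :=
  eq_of_forall_lt_iff fun i => (lt_cj_iff _ n h i j).trans (sx29_lt_c L hL j i).symm

theorem sx29_area_cj (L : List ℕ) (n : ℕ) (h : IsPart (sx29_fn L) n) (hlen : L.length ≤ n)
    (s : ℕ) : area (cj (sx29_fn L)) s = sx29_B L s := by
  rw [area_eq_min _ n (isPart_cj _ n h), cj_cj _ n h]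
  exact sx29_sum_map (min s) (by simp) L n hlen

theorem sx29_getD_succ_le (L : List ℕ) (hL : L.Pairwise (fun x y => y ≤ x)) :
    ∀ i, L.getD (i + 1) 0 ≤ L.getD i 0 := by
  induction L with
  | nil => simp
  | cons x L ih =>
    intro i
    rw [List.pairwise_cons] at hL
    cases i with
    | zero =>
      rw [List.getD_cons_succ, List.getD_cons_zero]
      cases L with
      | nil => simp
      | cons y L => exact hL.1 y (by simp)
    | succ i =>
      rw [List.getD_cons_succ, List.getD_cons_succ]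
      exact ih hL.2 i

theorem sx29_isPart (L : List ℕ) (m : ℕ) (hL : L.Pairwise (fun x y => y ≤ x)) (hs : L.sum = m)
    (hlen : L.length ≤ m) : IsPart (sx29_fn L) m := by
  refine ⟨antitone_nat_of_succ_le fun i => sx29_getD_succ_le L hL i, ?_, ?_⟩
  · intro i hi
    unfold sx29_fn
    exact List.getD_eq_default _ _ (hlen.trans hi)
  · have h1 := sx29_sum_map id rfl L m hlen
    rw [List.map_id] at h1
    rw [← hs]
    rw [← hs] at h1
    exact h1

theorem sx29_dec_spec (L : List ℕ) : sx29_dec L = true → L.Pairwise (fun x y => y ≤ x) := by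
  induction L with
  | nil =>
    intro _
    exact List.Pairwise.nil
  | cons x L ih =>
    intro h
    unfold sx29_dec at h
    rw [Bool.and_eq_true, List.all_eq_true] at h
    exact List.pairwise_cons.2 ⟨fun y hy => Nat.le_of_ble_eq_true (h.1 y hy), ih h.2⟩

theorem sx29_cert_spec (n k a : ℕ) (hk : 2 ≤ k) (hk7 : k ≤ 7) (L N : List ℕ)
    (hn : n = k * (k + 1) / 2 + (2 * a + 1)) (hmu : IsPart (sx29_fn L) n)
    (hL : L.Pairwise (fun x y => y ≤ x)) (h : sx29_cert n k L N = true) :
    G (lamF k a 1 0) (lamF k a 1 0) (sx29_fn L) := by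
  unfold sx29_cert at h
  rw [Bool.and_eq_true, Bool.and_eq_true, Bool.and_eq_true, Bool.and_eq_true,
    Bool.and_eq_true] at h
  obtain ⟨⟨⟨⟨⟨h1, h2⟩, h3⟩, h4⟩, h5⟩, h6⟩ := h
  have hN := sx29_dec_spec N h1
  have hsum : N.sum = (k - 2) * (k - 1) / 2 := Nat.eq_of_beq_eq_true h2
  have hlen : N.length ≤ (k - 2) * (k - 1) / 2 := Nat.le_of_ble_eq_true h3
  have hnu := sx29_isPart N _ hN hsum hlen
  have hjs : 2 ≤ (sx29_js L N n).length := Nat.le_of_ble_eq_true h5
  have hnd : (sx29_js L N n).Nodup := List.Nodup.filter _ List.nodup_range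
  have hmem : ∀ j ∈ sx29_js L N n, (cj (sx29_fn L) j - cj (sx29_fn N) j) % 2 = 1 := by
    intro j hj
    rw [sx29_cj L n hmu hL, sx29_cj N _ hnu hN]
    exact Nat.eq_of_beq_eq_true (List.mem_filter.1 hj).2
  refine cert_rule k a hk (sx29_fn L) (sx29_fn N) (by rw [← hn]; exact hmu) hnu ?_
    ((sx29_js L N n)[0]'(by omega)) ((sx29_js L N n)[1]'(by omega)) ?_
    (hmem _ (List.getElem_mem _)) (hmem _ (List.getElem_mem _)) ?_
  · intro i
    unfold sx29_fn
    rw [List.all_eq_true] at h4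
    by_cases hi : i < L.length + N.length
    · have h7 := h4 i (List.mem_range.2 hi)
      rw [Bool.and_eq_true] at h7
      exact ⟨Nat.le_of_ble_eq_true h7.1, Nat.le_of_ble_eq_true h7.2⟩
    · rw [List.getD_eq_default N _ (by omega), List.getD_eq_default L _ (by omega),
        List.getD_eq_default L _ (by omega)]
      exact ⟨le_rfl, le_rfl⟩
  · intro he
    have h7 := (List.Nodup.getElem_inj_iff hnd).1 he
    omega
  · intro i hi
    rw [sx29_area]
    rw [List.all_eq_true] at h6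
    have hi3 : i ≤ 3 := by omega
    rcases Nat.eq_zero_or_pos i with rfl | hi0
    · simp
    · have h7 := h6 i (by
        have : i = 1 ∨ i = 2 ∨ i = 3 := by omega
        rcases this with rfl | rfl | rfl <;> simp)
      rw [Bool.or_eq_true] at h7
      rcases h7 with h7 | h7
      · have h8 : k + 1 ≤ 2 * i + 1 := Nat.le_of_ble_eq_true h7
        omega
      · exact Nat.le_of_ble_eq_true h7

theorem sx29_even_spec (k a : ℕ) (hk7 : k ≤ 7) (mu A : ℕ → ℕ) (hA : ∀ s, area mu s = A s)
    (h : sx29_even k a A = true) : EvenC k a 0 mu := by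
  unfold sx29_even at h
  rw [Bool.and_eq_true, List.all_eq_true] at h
  unfold EvenC
  refine ⟨?_, ?_⟩
  · rw [hA]
    exact Nat.le_of_ble_eq_true h.1
  · intro j hj1 hj2
    rw [hA]
    have h1 := h.2 j (by
      have : j = 2 ∨ j = 3 ∨ j = 4 := by omega
      rcases this with rfl | rfl | rfl <;> simp)
    rw [Bool.or_eq_true] at h1
    rcases h1 with h1 | h1
    · have h2 : k + 1 + 1 ≤ 2 * j := Nat.le_of_ble_eq_true h1
      omega
    · exact Nat.le_of_ble_eq_true h1

theorem sx29_odd_spec (k a : ℕ) (hk7 : k ≤ 7) (mu A : ℕ → ℕ) (hA : ∀ s, area mu s = A s)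
    (m0 c1 last : ℕ) (h0 : mu 0 = m0) (h1 : cj mu 1 = c1) (hl : mu (c1 - 1) = last)
    (h : sx29_odd k a A m0 c1 last = true) : OddC k a 0 mu := by
  unfold sx29_odd at h
  rw [Bool.and_eq_true, Bool.and_eq_true, Bool.and_eq_true, Bool.and_eq_true, Bool.and_eq_true,
    Bool.and_eq_true] at h
  obtain ⟨⟨⟨⟨⟨⟨g1, g2⟩, g3⟩, g4⟩, g5⟩, g6⟩, g7⟩ := h
  unfold OddC
  rw [h0, h1]
  refine ⟨?_, Nat.le_of_ble_eq_true g2, ?_, ?_, ?_, ?_, ?_⟩
  · intro i hi
    rw [Bool.or_eq_true] at g1
    rcases g1 with g1 | g1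
    · have h2 : c1 = 0 := Nat.eq_of_beq_eq_true g1
      omega
    · have h2 : last + 3 + 1 ≤ 2 * k + 2 * a := Nat.le_of_ble_eq_true g1
      have h3 : c1 - 1 = i := by omega
      rw [h3] at hl
      omega
  · rw [hA]
    exact Nat.le_of_ble_eq_true g3
  · rw [hA]
    exact Nat.le_of_ble_eq_true g4
  · intro j hj1 hj2
    rw [hA]
    rw [List.all_eq_true] at g5
    have h2 := g5 j (by
      have : j = 2 ∨ j = 3 ∨ j = 4 := by omega
      rcases this with rfl | rfl | rfl <;> simp)
    rw [Bool.or_eq_true] at h2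
    rcases h2 with h2 | h2
    · have h3 : k + 1 + 1 ≤ 2 * j := Nat.le_of_ble_eq_true h2
      omega
    · exact Nat.le_of_ble_eq_true h2
  · intro j hj1 hj2 hj3
    rw [hA]
    rw [List.all_eq_true] at g6
    have h2 := g6 j (by
      have : j = 2 ∨ j = 3 := by omega
      rcases this with rfl | rfl <;> simp)
    rw [Bool.or_eq_true, Bool.or_eq_true] at h2
    rcases h2 with h2 | h2 | h2
    · have h3 : k + 1 ≤ 2 * j + 1 := Nat.le_of_ble_eq_true h2
      omega
    · have h3 : c1 + 4 ≤ 4 * j := Nat.le_of_ble_eq_true h2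
      omega
    · exact Nat.le_of_ble_eq_true h2
  · intro hk3
    rw [Bool.or_eq_true] at g7
    rcases g7 with h2 | h2
    · have h3 : k + 1 ≤ 3 := Nat.le_of_ble_eq_true h2
      omega
    · exact Nat.le_of_ble_eq_true h2

theorem sx29_flip_spec (k a e : ℕ) (mu : ℕ → ℕ) (m0 m1 : ℕ) (h0 : mu 0 = m0) (h1 : mu 1 = m1)
    (h : sx29_flip k a e m0 m1 = true) : FlipC k a e 0 mu := by
  unfold sx29_flip at h
  rw [Bool.or_eq_true, Bool.and_eq_true] at h
  unfold FlipC
  rw [h0, h1]
  rcases h with h | h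
  · exact Or.inl (Nat.le_of_ble_eq_true h)
  · exact Or.inr ⟨Nat.le_of_ble_eq_true h.1, Nat.le_of_ble_eq_true h.2⟩

/-- sums and lengths -/
theorem sx29_len_le (L : List ℕ) (hpos : ∀ x ∈ L, 0 < x) : L.length ≤ L.sum := by
  induction L with
  | nil => simp
  | cons x L ih =>
    rw [List.length_cons, List.sum_cons]
    have h1 := hpos x (by simp)
    have h2 := ih fun y hy => hpos y (List.mem_cons_of_mem _ hy)
    omega

theorem sx29_conj_fn (L : List ℕ) (n : ℕ) (h : IsPart (sx29_fn L) n)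
    (hL : L.Pairwise (fun x y => y ≤ x)) : sx29_fn (sx29_conj L) = cj (sx29_fn L) := by
  funext j
  rw [sx29_cj L n h hL]
  unfold sx29_fn sx29_conj
  by_cases hj : j < L.getD 0 0
  · rw [List.getD_eq_getElem _ _ (by simpa using hj)]
    simp
  · rw [List.getD_eq_default _ _ (by simpa using hj)]
    by_contra hne
    exact hj ((sx29_lt_c L hL j 0).1 (Nat.pos_of_ne_zero (Ne.symm hne)))

theorem sx29_conj_sorted (L : List ℕ) (n : ℕ) (h : IsPart (sx29_fn L) n)
    (hL : L.Pairwise (fun x y => y ≤ x)) : (sx29_conj L).Pairwise (fun x y => y ≤ x) := by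
  unfold sx29_conj
  rw [List.pairwise_map]
  refine List.pairwise_lt_range.imp ?_
  intro i j hij
  rw [← sx29_cj L n h hL, ← sx29_cj L n h hL]
  exact (isPart_cj _ n h).anti hij.le

theorem sx29_leaf_spec (n k a e : ℕ) (T : List (List ℕ × List ℕ)) (hk : 2 ≤ k) (hk7 : k ≤ 7)
    (he : e ≤ 1) (hn : n = k * (k + 1) / 2 + (2 * a + e + 2 * 0)) (L : List ℕ)
    (hmu : IsPart (sx29_fn L) n) (hpos : ∀ x ∈ L, 0 < x) (hL : L.Pairwise (fun x y => y ≤ x))
    (h : sx29_leaf n k a e T L = true) : G (lamF k a e 0) (lamF k a e 0) (sx29_fn L) ∨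
      G (lamF k a e 0) (lamF k a e 0) (cj (sx29_fn L)) := by
  have hb : (0 : ℕ) = 0 ∨ (8 ≤ k ∧ 3 * 0 ≤ a) := Or.inl rfl
  have hcjp := isPart_cj _ n hmu
  have hcc := cj_cj _ n hmu
  -- the length
  have hlen0 : cj (sx29_fn L) 0 = L.length := by
    rw [sx29_cj L n hmu hL]
    unfold sx29_c
    rw [List.countP_eq_length]
    intro x hx
    exact Nat.ble_eq_true_of_le (hpos x hx)
  have hlen : L.length ≤ n := by
    by_contra hlt
    have h1 : n < cj (sx29_fn L) 0 := by rw [hlen0]; omega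
    have h2 := (lt_cj_iff _ n hmu n 0).1 h1
    rw [hmu.zero n le_rfl] at h2
    omega
  unfold sx29_leaf at h
  rw [Bool.or_eq_true] at h
  rcases h with h | h
  · right
    refine flip k a e 0 he hk hb _ (by rw [← hn]; exact hcjp) ?_
    exact sx29_flip_spec k a e _ _ _ hlen0 (sx29_cj L n hmu hL 1) h
  rw [Bool.or_eq_true] at h
  rcases h with h | h
  · rw [Bool.and_eq_true, Bool.or_eq_true] at h
    have he0 : e = 0 := Nat.eq_of_beq_eq_true h.1
    subst he0
    rcases h.2 with h2 | h2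
    · left
      exact even_rule k a 0 hk hb _ (by rw [hn] at hmu; exact hmu)
        (sx29_even_spec k a hk7 _ _ (sx29_area L) h2)
    · right
      exact even_rule k a 0 hk hb _ (by rw [hn] at hcjp; exact hcjp)
        (sx29_even_spec k a hk7 _ _ (sx29_area_cj L n hmu hlen) h2)
  · rw [Bool.and_eq_true, Bool.or_eq_true, Bool.or_eq_true] at h
    have he1 : e = 1 := Nat.eq_of_beq_eq_true h.1
    subst he1
    rcases h.2 with h2 | h2 | h2
    · left
      exact odd_rule k a 0 hk hb _ (by rw [hn] at hmu; exact hmu)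
        (sx29_odd_spec k a hk7 _ _ (sx29_area L) _ _ _ rfl (sx29_cj L n hmu hL 1) rfl h2)
    · right
      refine odd_rule k a 0 hk hb _ (by rw [hn] at hcjp; exact hcjp)
        (sx29_odd_spec k a hk7 _ _ (sx29_area_cj L n hmu hlen) _ _ _ hlen0 ?_ ?_ h2)
      · rw [hcc]
        rfl
      · exact sx29_cj L n hmu hL _
    · rw [List.any_eq_true] at h2
      obtain ⟨p, _, h3⟩ := h2
      rw [Bool.or_eq_true, Bool.and_eq_true, Bool.and_eq_true] at h3
      rcases h3 with h3 | h3
      · left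
        exact sx29_cert_spec n k a hk hk7 L p.2 hn hmu hL h3.2
      · right
        have h4 := sx29_cert_spec n k a hk hk7 (sx29_conj L) p.2 hn
          (by rw [sx29_conj_fn L n hmu hL]; exact hcjp) (sx29_conj_sorted L n hmu hL) h3.2
        rwa [sx29_conj_fn L n hmu hL] at h4

theorem sx29_half (n k a e : ℕ) (hk : 2 ≤ k) (he : e ≤ 1)
    (hn : n = k * (k + 1) / 2 + (2 * a + e + 2 * 0)) (P : List ℕ → Bool)
    (hc : sx29_check P n k a e = true)
    (hP : ∀ L : List ℕ, IsPart (sx29_fn L) n → (∀ x ∈ L, 0 < x) → L.Pairwise (fun x y => y ≤ x) →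
      P L = true → G (lamF k a e 0) (lamF k a e 0) (sx29_fn L) ∨
        G (lamF k a e 0) (lamF k a e 0) (cj (sx29_fn L))) (hn0 : 0 < n)
    (mu : ℕ → ℕ) (hmu : IsPart mu n) (hle : cj mu 0 ≤ mu 0) :
    G (lamF k a e 0) (lamF k a e 0) mu ∨ G (lamF k a e 0) (lamF k a e 0) (cj mu) := by
  set L : List ℕ := (List.range (cj mu 0)).map mu with hLdef
  have hfn : sx29_fn L = mu := by
    funext i
    unfold sx29_fn
    by_cases hi : i < cj mu 0
    · rw [List.getD_eq_getElem _ _ (by simpa [hLdef] using hi)]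
      simp [hLdef]
    · rw [List.getD_eq_default _ _ (by simpa [hLdef] using hi)]
      by_contra hne
      exact hi ((lt_cj_iff mu n hmu i 0).2 (Nat.pos_of_ne_zero (Ne.symm hne)))
  have hpos : ∀ x ∈ L, 0 < x := by
    intro x hx
    rw [hLdef, List.mem_map] at hx
    obtain ⟨i, hi, rfl⟩ := hx
    exact (lt_cj_iff mu n hmu i 0).1 (List.mem_range.1 hi)
  have hsort : L.Pairwise (fun x y => y ≤ x) := by
    rw [hLdef, List.pairwise_map]
    exact List.pairwise_lt_range.imp fun hij => hmu.anti (le_of_lt hij)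
  have hlen : L.length = cj mu 0 := by simp [hLdef]
  have hlenn : L.length ≤ n := by
    by_contra hlt
    have h2 := (lt_cj_iff mu n hmu n 0).1 (by omega)
    rw [hmu.zero n le_rfl] at h2
    omega
  have hsum : L.sum = n := by
    have h1 := sx29_sum_map id rfl L n hlenn
    rw [List.map_id] at h1
    rw [← h1]
    have h2 : ∀ j, L.getD j 0 = mu j := fun j => congrFun hfn j
    simp only [id, h2]
    exact hmu.sum
  have h0 : L.getD 0 0 = mu 0 := congrFun hfn 0
  have h1 : L.getD 1 0 = mu 1 := congrFun hfn 1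
  rcases sx29_check_spec P n k a e hc hn0 L hsum hpos hsort (by rw [hlen, h0]; exact hle) with h | h
  · left
    refine flip k a e 0 he hk (Or.inl rfl) mu (by rw [← hn]; exact hmu) ?_
    exact sx29_flip_spec k a e mu _ _ h0.symm h1.symm h
  · have h2 := hP L (by rw [hfn]; exact hmu) hpos hsort h
    rwa [hfn] at h2

theorem sx29_main (n k a e : ℕ) (hk : 2 ≤ k) (_hk7 : k ≤ 7) (he : e ≤ 1)
    (hn : n = k * (k + 1) / 2 + (2 * a + e + 2 * 0)) (P : List ℕ → Bool)
    (hc : sx29_check P n k a e = true)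
    (hP : ∀ L : List ℕ, IsPart (sx29_fn L) n → (∀ x ∈ L, 0 < x) → L.Pairwise (fun x y => y ≤ x) →
      P L = true → G (lamF k a e 0) (lamF k a e 0) (sx29_fn L) ∨
        G (lamF k a e 0) (lamF k a e 0) (cj (sx29_fn L)))
    (mu : ℕ → ℕ) (hmu : IsPart mu n) :
    G (lamF k a e 0) (lamF k a e 0) mu ∨ G (lamF k a e 0) (lamF k a e 0) (cj mu) := by
  have hn0 : 0 < n := by
    have h1 : 0 < k * (k + 1) / 2 := Nat.div_pos (by nlinarith) (by norm_num)
    omega
  rcases le_total (cj mu 0) (mu 0) with h | h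
  · exact sx29_half n k a e hk he hn P hc hP hn0 mu hmu h
  · have h1 := sx29_half n k a e hk he hn P hc hP hn0 (cj mu) (isPart_cj mu n hmu)
      (by rw [cj_cj mu n hmu]; exact h)
    rw [cj_cj mu n hmu] at h1
    exact h1.symm

theorem sx29_22 : G (lamF 2 0 1 0) (lamF 2 0 1 0) (sx29_fn [2, 2]) := by
  have hlam : IsTab (Ω := Fin 4) ![0, 0, 0, 1] ![0, 1, 2, 0] (lamF 2 0 1 0) := by
    refine ⟨by decide, by decide, ?_⟩
    intro i
    match i with
    | 0 => decide
    | 1 => decide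
    | i + 2 =>
      have h1 : lamF 2 0 1 0 (i + 2) = 0 := by
        unfold lamF
        split_ifs <;> omega
      rw [h1, Finset.card_eq_zero, Finset.filter_eq_empty_iff]
      intro x _
      fin_cases x <;> simp
  have hmu : IsTab (Ω := Fin 4) ![0, 0, 1, 1] ![0, 1, 0, 1] (sx29_fn [2, 2]) := by
    refine ⟨by decide, by decide, ?_⟩
    intro i
    match i with
    | 0 => decide
    | 1 => decide
    | i + 2 =>
      have h1 : sx29_fn [2, 2] (i + 2) = 0 := by
        unfold sx29_fn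
        exact List.getD_eq_default _ _ (by simp)
      rw [h1, Finset.card_eq_zero, Finset.filter_eq_empty_iff]
      intro x _
      fin_cases x <;> simp
  refine G_of (Ω := Fin 4) _ _ _ _ _ _ _ _ _ hlam hlam hmu ![0, 0, 0, 1] ![1, 0, 0, 0]
    ![1, 0, 0, 1] ?_
  decide +kernel

theorem sx29_leaf4 (L : List ℕ) (hmu : IsPart (sx29_fn L) 4) (hpos : ∀ x ∈ L, 0 < x)
    (hL : L.Pairwise (fun x y => y ≤ x))
    (h : (fun L => L == [2, 2] || sx29_leaf 4 2 0 1 [] L) L = true) :
    G (lamF 2 0 1 0) (lamF 2 0 1 0) (sx29_fn L) ∨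
      G (lamF 2 0 1 0) (lamF 2 0 1 0) (cj (sx29_fn L)) := by
  simp only [Bool.or_eq_true] at h
  rcases h with h | h
  · left
    have h1 : L = [2, 2] := by simpa using h
    rw [h1]
    exact sx29_22
  · exact sx29_leaf_spec 4 2 0 1 [] (by norm_num) (by norm_num) (by norm_num) rfl L hmu hpos hL h

theorem sx29_check4 : sx29_check (fun L => L == [2, 2] || sx29_leaf 4 2 0 1 [] L) 4 2 0 1 = true := by
  decide +kernel

theorem sx29_check5 : sx29_check (sx29_leaf 5 2 1 0 []) 5 2 1 0 = true := by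
  decide +kernel

theorem sx29_check6 : sx29_check (sx29_leaf 6 2 1 1 (sx29_T 6)) 6 2 1 1 = true := by
  decide +kernel

theorem sx29_check7 : sx29_check (sx29_leaf 7 3 0 1 []) 7 3 0 1 = true := by
  decide +kernel

theorem sx29_check8 : sx29_check (sx29_leaf 8 3 1 0 []) 8 3 1 0 = true := by
  decide +kernel

theorem sx29_check9 : sx29_check (sx29_leaf 9 3 1 1 (sx29_T 9)) 9 3 1 1 = true := by
  decide +kernel

theorem sx29_check10 : sx29_check (sx29_leaf 10 3 2 0 []) 10 3 2 0 = true := by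
  decide +kernel

theorem sx29_check11 : sx29_check (sx29_leaf 11 4 0 1 (sx29_T 11)) 11 4 0 1 = true := by
  decide +kernel

theorem sx29_check12 : sx29_check (sx29_leaf 12 4 1 0 []) 12 4 1 0 = true := by
  decide +kernel

theorem sx29_check13 : sx29_check (sx29_leaf 13 4 1 1 (sx29_T 13)) 13 4 1 1 = true := by
  decide +kernel

theorem sx29_check14 : sx29_check (sx29_leaf 14 4 2 0 []) 14 4 2 0 = true := by
  decide +kernel

theorem sx29_check15 : sx29_check (sx29_leaf 15 4 2 1 (sx29_T 15)) 15 4 2 1 = true := by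
  decide +kernel

theorem sx29_check16 : sx29_check (sx29_leaf 16 5 0 1 []) 16 5 0 1 = true := by
  decide +kernel

theorem sx29_check17 : sx29_check (sx29_leaf 17 5 1 0 []) 17 5 1 0 = true := by
  decide +kernel

theorem sx29_check18 : sx29_check (sx29_leaf 18 5 1 1 (sx29_T 18)) 18 5 1 1 = true := by
  decide +kernel

theorem sx29_check19 : sx29_check (sx29_leaf 19 5 2 0 []) 19 5 2 0 = true := by
  decide +kernel

theorem sx29_check20 : sx29_check (sx29_leaf 20 5 2 1 (sx29_T 20)) 20 5 2 1 = true := by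
  decide +kernel

theorem sx29_check21 : sx29_check (sx29_leaf 21 5 3 0 []) 21 5 3 0 = true := by
  decide +kernel

theorem sx29_check22 : sx29_check (sx29_leaf 22 6 0 1 []) 22 6 0 1 = true := by
  decide +kernel

theorem sx29_check23 : sx29_check (sx29_leaf 23 6 1 0 []) 23 6 1 0 = true := by
  decide +kernel

theorem sx29_check24 : sx29_check (sx29_leaf 24 6 1 1 []) 24 6 1 1 = true := by
  decide +kernel

theorem sx29_check25 : sx29_check (sx29_leaf 25 6 2 0 []) 25 6 2 0 = true := by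
  decide +kernel

theorem sx29_check26 : sx29_check (sx29_leaf 26 6 2 1 (sx29_T 26)) 26 6 2 1 = true := by
  decide +kernel

theorem sx29_check27 : sx29_check (sx29_leaf 27 6 3 0 []) 27 6 3 0 = true := by
  decide +kernel

theorem sx29_check28 : sx29_check (sx29_leaf 28 6 3 1 (sx29_T 28)) 28 6 3 1 = true := by
  decide +kernel

theorem sx29_check29 : sx29_check (sx29_leaf 29 7 0 1 []) 29 7 0 1 = true := by
  decide +kernel

theorem sx29_check30 : sx29_check (sx29_leaf 30 7 1 0 []) 30 7 1 0 = true := by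
  decide +kernel

theorem sx29_check31 : sx29_check (sx29_leaf 31 7 1 1 []) 31 7 1 1 = true := by
  decide +kernel

theorem sx29_check32 : sx29_check (sx29_leaf 32 7 2 0 []) 32 7 2 0 = true := by
  decide +kernel

theorem sx29_check33 : sx29_check (sx29_leaf 33 7 2 1 []) 33 7 2 1 = true := by
  decide +kernel

theorem sx29_check34 : sx29_check (sx29_leaf 34 7 3 0 []) 34 7 3 0 = true := by
  decide +kernel

theorem sx29_check35 : sx29_check (sx29_leaf 35 7 3 1 []) 35 7 3 1 = true := by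
  decide +kernel

theorem sx29_check36 : sx29_check (sx29_leaf 36 7 4 0 []) 36 7 4 0 = true := by
  decide +kernel

theorem sx29_lamA (k a e : ℕ) : Antitone (lamF k a e 0) := by
  refine antitone_nat_of_succ_le fun i => ?_
  rcases i with _ | _ | i
  · simp only [lamF]
    norm_num
    omega
  · simp only [lamF]
    norm_num
    omega
  · simp only [lamF]
    norm_num
    omega

theorem sx29_lamB (n k a e : ℕ) (hkn : k ≤ n) (h4 : 4 ≤ n) (i : ℕ) (hi : n ≤ i) :
    lamF k a e 0 i = 0 := by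
  unfold lamF
  rw [if_neg (by omega), if_neg (by omega), if_neg (by omega)]
  omega

theorem sx29_lamC (k a e : ℕ) (hk : 2 ≤ k) : lamF k a e 0 k = 0 := by
  unfold lamF
  rw [if_neg (by omega), if_neg (by omega)]
  split_ifs <;> omega

theorem sx29_lamD (k a e : ℕ) (h : 0 < a + e) : k < lamF k a e 0 0 := by
  unfold lamF
  rw [if_pos rfl]
  omega
theorem sx29_ex (n k a e : ℕ) (hk : 2 ≤ k) (hk7 : k ≤ 7) (he : e ≤ 1) (hae : 0 < a + e)
    (hn : n = k * (k + 1) / 2 + (2 * a + e + 2 * 0)) (hkn : k ≤ n) (h4 : 4 ≤ n)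
    (hs : ∑ i ∈ range n, lamF k a e 0 i = n) (P : List ℕ → Bool)
    (hc : sx29_check P n k a e = true)
    (hP : ∀ L : List ℕ, IsPart (sx29_fn L) n → (∀ x ∈ L, 0 < x) → L.Pairwise (fun x y => y ≤ x) →
      P L = true → G (lamF k a e 0) (lamF k a e 0) (sx29_fn L) ∨
        G (lamF k a e 0) (lamF k a e 0) (cj (sx29_fn L))) :
    ∃ lam : ℕ → ℕ, IsPart lam n ∧ (∃ r, lam r = 0 ∧ r < lam 0) ∧
      ∀ mu : ℕ → ℕ, IsPart mu n → G lam lam mu ∨ G lam lam (cj mu) := by
  exact ⟨lamF k a e 0, ⟨sx29_lamA k a e, sx29_lamB n k a e hkn h4, hs⟩,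
    ⟨k, sx29_lamC k a e hk, sx29_lamD k a e hae⟩, sx29_main n k a e hk hk7 he hn P hc hP⟩



theorem small (n : ℕ) (h4 : 4 ≤ n) (h36 : n ≤ 36) : ∃ lam : ℕ → ℕ, IsPart lam n ∧
    (∃ r, lam r = 0 ∧ r < lam 0) ∧
    ∀ mu : ℕ → ℕ, IsPart mu n → G lam lam mu ∨ G lam lam (cj mu) := by
  interval_cases n
  · exact sx29_ex 4 2 0 1 (by norm_num) (by norm_num) (by norm_num) (by norm_num) rfl
      (by norm_num) (by norm_num) (by decide) _ sx29_check4 sx29_leaf4
  · exact sx29_ex 5 2 1 0 (by norm_num) (by norm_num) (by norm_num) (by norm_num) rfl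
      (by norm_num) (by norm_num) (by decide) _ sx29_check5
      (sx29_leaf_spec 5 2 1 0 _ (by norm_num) (by norm_num) (by norm_num) rfl)
  · exact sx29_ex 6 2 1 1 (by norm_num) (by norm_num) (by norm_num) (by norm_num) rfl
      (by norm_num) (by norm_num) (by decide) _ sx29_check6
      (sx29_leaf_spec 6 2 1 1 _ (by norm_num) (by norm_num) (by norm_num) rfl)
  · exact sx29_ex 7 3 0 1 (by norm_num) (by norm_num) (by norm_num) (by norm_num) rfl
      (by norm_num) (by norm_num) (by decide) _ sx29_check7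
      (sx29_leaf_spec 7 3 0 1 _ (by norm_num) (by norm_num) (by norm_num) rfl)
  · exact sx29_ex 8 3 1 0 (by norm_num) (by norm_num) (by norm_num) (by norm_num) rfl
      (by norm_num) (by norm_num) (by decide) _ sx29_check8
      (sx29_leaf_spec 8 3 1 0 _ (by norm_num) (by norm_num) (by norm_num) rfl)
  · exact sx29_ex 9 3 1 1 (by norm_num) (by norm_num) (by norm_num) (by norm_num) rfl
      (by norm_num) (by norm_num) (by decide) _ sx29_check9
      (sx29_leaf_spec 9 3 1 1 _ (by norm_num) (by norm_num) (by norm_num) rfl)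
  · exact sx29_ex 10 3 2 0 (by norm_num) (by norm_num) (by norm_num) (by norm_num) rfl
      (by norm_num) (by norm_num) (by decide) _ sx29_check10
      (sx29_leaf_spec 10 3 2 0 _ (by norm_num) (by norm_num) (by norm_num) rfl)
  · exact sx29_ex 11 4 0 1 (by norm_num) (by norm_num) (by norm_num) (by norm_num) rfl
      (by norm_num) (by norm_num) (by decide) _ sx29_check11
      (sx29_leaf_spec 11 4 0 1 _ (by norm_num) (by norm_num) (by norm_num) rfl)
  · exact sx29_ex 12 4 1 0 (by norm_num) (by norm_num) (by norm_num) (by norm_num) rfl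
      (by norm_num) (by norm_num) (by decide) _ sx29_check12
      (sx29_leaf_spec 12 4 1 0 _ (by norm_num) (by norm_num) (by norm_num) rfl)
  · exact sx29_ex 13 4 1 1 (by norm_num) (by norm_num) (by norm_num) (by norm_num) rfl
      (by norm_num) (by norm_num) (by decide) _ sx29_check13
      (sx29_leaf_spec 13 4 1 1 _ (by norm_num) (by norm_num) (by norm_num) rfl)
  · exact sx29_ex 14 4 2 0 (by norm_num) (by norm_num) (by norm_num) (by norm_num) rfl
      (by norm_num) (by norm_num) (by decide) _ sx29_check14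
      (sx29_leaf_spec 14 4 2 0 _ (by norm_num) (by norm_num) (by norm_num) rfl)
  · exact sx29_ex 15 4 2 1 (by norm_num) (by norm_num) (by norm_num) (by norm_num) rfl
      (by norm_num) (by norm_num) (by decide) _ sx29_check15
      (sx29_leaf_spec 15 4 2 1 _ (by norm_num) (by norm_num) (by norm_num) rfl)
  · exact sx29_ex 16 5 0 1 (by norm_num) (by norm_num) (by norm_num) (by norm_num) rfl
      (by norm_num) (by norm_num) (by decide) _ sx29_check16
      (sx29_leaf_spec 16 5 0 1 _ (by norm_num) (by norm_num) (by norm_num) rfl)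
  · exact sx29_ex 17 5 1 0 (by norm_num) (by norm_num) (by norm_num) (by norm_num) rfl
      (by norm_num) (by norm_num) (by decide) _ sx29_check17
      (sx29_leaf_spec 17 5 1 0 _ (by norm_num) (by norm_num) (by norm_num) rfl)
  · exact sx29_ex 18 5 1 1 (by norm_num) (by norm_num) (by norm_num) (by norm_num) rfl
      (by norm_num) (by norm_num) (by decide) _ sx29_check18
      (sx29_leaf_spec 18 5 1 1 _ (by norm_num) (by norm_num) (by norm_num) rfl)
  · exact sx29_ex 19 5 2 0 (by norm_num) (by norm_num) (by norm_num) (by norm_num) rfl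
      (by norm_num) (by norm_num) (by decide) _ sx29_check19
      (sx29_leaf_spec 19 5 2 0 _ (by norm_num) (by norm_num) (by norm_num) rfl)
  · exact sx29_ex 20 5 2 1 (by norm_num) (by norm_num) (by norm_num) (by norm_num) rfl
      (by norm_num) (by norm_num) (by decide) _ sx29_check20
      (sx29_leaf_spec 20 5 2 1 _ (by norm_num) (by norm_num) (by norm_num) rfl)
  · exact sx29_ex 21 5 3 0 (by norm_num) (by norm_num) (by norm_num) (by norm_num) rfl
      (by norm_num) (by norm_num) (by decide) _ sx29_check21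
      (sx29_leaf_spec 21 5 3 0 _ (by norm_num) (by norm_num) (by norm_num) rfl)
  · exact sx29_ex 22 6 0 1 (by norm_num) (by norm_num) (by norm_num) (by norm_num) rfl
      (by norm_num) (by norm_num) (by decide) _ sx29_check22
      (sx29_leaf_spec 22 6 0 1 _ (by norm_num) (by norm_num) (by norm_num) rfl)
  · exact sx29_ex 23 6 1 0 (by norm_num) (by norm_num) (by norm_num) (by norm_num) rfl
      (by norm_num) (by norm_num) (by decide) _ sx29_check23
      (sx29_leaf_spec 23 6 1 0 _ (by norm_num) (by norm_num) (by norm_num) rfl)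
  · exact sx29_ex 24 6 1 1 (by norm_num) (by norm_num) (by norm_num) (by norm_num) rfl
      (by norm_num) (by norm_num) (by decide) _ sx29_check24
      (sx29_leaf_spec 24 6 1 1 _ (by norm_num) (by norm_num) (by norm_num) rfl)
  · exact sx29_ex 25 6 2 0 (by norm_num) (by norm_num) (by norm_num) (by norm_num) rfl
      (by norm_num) (by norm_num) (by decide) _ sx29_check25
      (sx29_leaf_spec 25 6 2 0 _ (by norm_num) (by norm_num) (by norm_num) rfl)
  · exact sx29_ex 26 6 2 1 (by norm_num) (by norm_num) (by norm_num) (by norm_num) rfl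
      (by norm_num) (by norm_num) (by decide) _ sx29_check26
      (sx29_leaf_spec 26 6 2 1 _ (by norm_num) (by norm_num) (by norm_num) rfl)
  · exact sx29_ex 27 6 3 0 (by norm_num) (by norm_num) (by norm_num) (by norm_num) rfl
      (by norm_num) (by norm_num) (by decide) _ sx29_check27
      (sx29_leaf_spec 27 6 3 0 _ (by norm_num) (by norm_num) (by norm_num) rfl)
  · exact sx29_ex 28 6 3 1 (by norm_num) (by norm_num) (by norm_num) (by norm_num) rfl
      (by norm_num) (by norm_num) (by decide) _ sx29_check28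
      (sx29_leaf_spec 28 6 3 1 _ (by norm_num) (by norm_num) (by norm_num) rfl)
  · exact sx29_ex 29 7 0 1 (by norm_num) (by norm_num) (by norm_num) (by norm_num) rfl
      (by norm_num) (by norm_num) (by decide) _ sx29_check29
      (sx29_leaf_spec 29 7 0 1 _ (by norm_num) (by norm_num) (by norm_num) rfl)
  · exact sx29_ex 30 7 1 0 (by norm_num) (by norm_num) (by norm_num) (by norm_num) rfl
      (by norm_num) (by norm_num) (by decide) _ sx29_check30
      (sx29_leaf_spec 30 7 1 0 _ (by norm_num) (by norm_num) (by norm_num) rfl)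
  · exact sx29_ex 31 7 1 1 (by norm_num) (by norm_num) (by norm_num) (by norm_num) rfl
      (by norm_num) (by norm_num) (by decide) _ sx29_check31
      (sx29_leaf_spec 31 7 1 1 _ (by norm_num) (by norm_num) (by norm_num) rfl)
  · exact sx29_ex 32 7 2 0 (by norm_num) (by norm_num) (by norm_num) (by norm_num) rfl
      (by norm_num) (by norm_num) (by decide) _ sx29_check32
      (sx29_leaf_spec 32 7 2 0 _ (by norm_num) (by norm_num) (by norm_num) rfl)
  · exact sx29_ex 33 7 2 1 (by norm_num) (by norm_num) (by norm_num) (by norm_num) rfl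
      (by norm_num) (by norm_num) (by decide) _ sx29_check33
      (sx29_leaf_spec 33 7 2 1 _ (by norm_num) (by norm_num) (by norm_num) rfl)
  · exact sx29_ex 34 7 3 0 (by norm_num) (by norm_num) (by norm_num) (by norm_num) rfl
      (by norm_num) (by norm_num) (by decide) _ sx29_check34
      (sx29_leaf_spec 34 7 3 0 _ (by norm_num) (by norm_num) (by norm_num) rfl)
  · exact sx29_ex 35 7 3 1 (by norm_num) (by norm_num) (by norm_num) (by norm_num) rfl
      (by norm_num) (by norm_num) (by decide) _ sx29_check35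
      (sx29_leaf_spec 35 7 3 1 _ (by norm_num) (by norm_num) (by norm_num) rfl)
  · exact sx29_ex 36 7 4 0 (by norm_num) (by norm_num) (by norm_num) (by norm_num) rfl
      (by norm_num) (by norm_num) (by decide) _ sx29_check36
      (sx29_leaf_spec 36 7 4 0 _ (by norm_num) (by norm_num) (by norm_num) rfl)

end Pool.Saxl
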