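import Mathlib
import Pool.Agent.Helper139_Saxl.Defs
import Pool.Agent.Helper139_Saxl.Fam
import Pool.Agent.Helper139_Saxl.J04
import Pool.Agent.Helper139_Saxl.J24
import Pool.Agent.Helper139_Saxl.J26
import Pool.Agent.Helper139_Saxl.J28

set_option autoImplicit false

/-! Job SX-30: assembly of the combinatorial part. -/

namespace Pool.Saxl

open Finset

theorem sx30_choose (n : ℕ) (h : 37 ≤ n) : ∃ k t : ℕ, 8 ≤ k ∧ 1 ≤ t ∧ t ≤ k + 1 ∧
    n = k * (k + 1) / 2 + t := by
  have key : ∀ m : ℕ, ∃ k t : ℕ, 8 ≤ k ∧ 1 ≤ t ∧ t ≤ k + 1 ∧ m + 37 = k * (k + 1) / 2 + t := by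
    intro m
    induction m with
    | zero => exact ⟨8, 1, by norm_num, by norm_num, by norm_num, by norm_num⟩
    | succ m ih =>
      obtain ⟨k, t, hk, h1, h2, h3⟩ := ih
      rcases Nat.lt_or_ge t (k + 1) with hlt | hge
      · exact ⟨k, t + 1, hk, by omega, by omega, by omega⟩
      · refine ⟨k + 1, 1, by omega, le_refl _, by omega, ?_⟩
        have e1 : (k + 1) * (k + 1 + 1) = k * (k + 1) + 2 * (k + 1) := by ring
        have e2 : (k + 1) * (k + 1 + 1) / 2 = k * (k + 1) / 2 + (k + 1) := by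
          rw [e1, Nat.add_mul_div_left _ _ (by norm_num)]
        omega
  obtain ⟨k, t, h1, h2, h3, h4⟩ := key (n - 37)
  exact ⟨k, t, h1, h2, h3, by omega⟩

theorem sx30_sum (k : ℕ) (n : ℕ) (hkn : k ≤ n) : ∑ i ∈ range n, (k - i) = k * (k + 1) / 2 := by
  have h1 : ∑ i ∈ range n, (k - i) = ∑ i ∈ range (k + 1), (k - i) := by
    rcases Nat.eq_or_lt_of_le hkn with h | h
    · rw [Finset.sum_range_succ, h]; simp
    · symm
      apply Finset.sum_subset
      · intro x hx; rw [Finset.mem_range] at *; omega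
      · intro x _ hx; rw [Finset.mem_range] at *; omega
  rw [h1]
  have h2 := Finset.sum_range_reflect (fun i => i) (k + 1)
  have h3 : ∑ i ∈ range (k + 1), (k - i) = ∑ i ∈ range (k + 1), i := by
    rw [← h2]
    apply Finset.sum_congr rfl
    intro x hx
    simp
  rw [h3, Finset.sum_range_id]
  simp [Nat.mul_comm]

theorem sx30_isPart (k a e b n : ℕ) (hk : 8 ≤ k) (hba : b ≤ a)
    (hn : n = k * (k + 1) / 2 + (2 * a + e + 2 * b)) : IsPart (lamF k a e b) n := by
  have hkk : 4 * k ≤ k * (k + 1) / 2 := by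
    rw [Nat.le_div_iff_mul_le (by norm_num)]
    nlinarith
  refine ⟨?_, ?_, ?_⟩
  · apply antitone_nat_of_succ_le
    intro i
    unfold lamF
    rcases i with _ | _ | _ | _ | i
    · simp; omega
    · simp; omega
    · simp; omega
    · simp; omega
    · have h0 : ¬ (i + 1 + 1 + 1 + 1 = 0) := by omega
      have h1 : ¬ (i + 1 + 1 + 1 + 1 = 1) := by omega
      have h2 : ¬ (i + 1 + 1 + 1 + 1 = 2 ∨ i + 1 + 1 + 1 + 1 = 3) := by omega
      have h0' : ¬ (i + 1 + 1 + 1 + 1 + 1 = 0) := by omega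
      have h1' : ¬ (i + 1 + 1 + 1 + 1 + 1 = 1) := by omega
      have h2' : ¬ (i + 1 + 1 + 1 + 1 + 1 = 2 ∨ i + 1 + 1 + 1 + 1 + 1 = 3) := by omega
      rw [if_neg h0, if_neg h1, if_neg h2, if_neg h0', if_neg h1', if_neg h2']
      omega
  · intro i hi
    unfold lamF
    have h0 : ¬ (i = 0) := by omega
    have h1 : ¬ (i = 1) := by omega
    have h2 : ¬ (i = 2 ∨ i = 3) := by omega
    rw [if_neg h0, if_neg h1, if_neg h2]
    omega
  · unfold lamF
    rw [Finset.sum_add_distrib, sx30_sum k n (by omega)]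
    have h4 : ∑ i ∈ range n, (if i = 0 then a + e else if i = 1 then a else
        if i = 2 ∨ i = 3 then b else 0) =
        ∑ i ∈ range 4, (if i = 0 then a + e else if i = 1 then a else
        if i = 2 ∨ i = 3 then b else 0) := by
      symm
      apply Finset.sum_subset
      · intro x hx; rw [Finset.mem_range] at *; omega
      · intro x _ hx
        rw [Finset.mem_range] at hx
        rw [if_neg (by omega), if_neg (by omega), if_neg (by omega)]
    rw [h4]
    simp [Finset.sum_range_succ]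
    omega

theorem sx30_G (k t a b e n : ℕ) (hk : 8 ≤ k) (h1 : 1 ≤ t) (ht : t ≤ k + 1) (hb : b = t / 8)
    (he : e ≤ 1) (hae : t = 2 * a + e + 2 * b) (hn : n = k * (k + 1) / 2 + t)
    (mu : ℕ → ℕ) (hmu : IsPart mu n) :
    G (lamF k a e b) (lamF k a e b) mu ∨ G (lamF k a e b) (lamF k a e b) (cj mu) := by
  have h3b : b = 0 ∨ (8 ≤ k ∧ 3 * b ≤ a) := Or.inr ⟨hk, by omega⟩
  have hk2 : 2 ≤ k := by omega
  have hcj : IsPart (cj mu) n := isPart_cj mu n hmu
  have fl : ∀ nu : ℕ → ℕ, IsPart nu n → FlipC k a e b nu → G (lamF k a e b) (lamF k a e b) nu := by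
    intro nu hnu hf
    apply flip k a e b he hk2 h3b nu _ hf
    rw [← hae, ← hn]; exact hnu
  have ev : ∀ nu : ℕ → ℕ, IsPart nu n → e = 0 → EvenC k a b nu →
      G (lamF k a e b) (lamF k a e b) nu := by
    intro nu hnu h0 hf
    subst h0
    apply even_rule k a b hk2 h3b nu _ hf
    have : 2 * a + 2 * b = t := by omega
    rw [this, ← hn]; exact hnu
  have od : ∀ nu : ℕ → ℕ, IsPart nu n → e = 1 → OddC k a b nu →
      G (lamF k a e b) (lamF k a e b) nu := by
    intro nu hnu h0 hf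
    subst h0
    apply odd_rule k a b hk2 h3b nu _ hf
    have : 2 * a + 1 + 2 * b = t := by omega
    rw [this, ← hn]; exact hnu
  have hc := cover_large k t a b e hk h1 ht hb he hae mu (by rw [← hn]; exact hmu)
  rcases hc with h | h | ⟨h0, h | h⟩ | ⟨h0, h | h⟩
  · exact Or.inl (fl mu hmu h)
  · exact Or.inr (fl (cj mu) hcj h)
  · exact Or.inl (ev mu hmu h0 h)
  · exact Or.inr (ev (cj mu) hcj h0 h)
  · exact Or.inl (od mu hmu h0 h)
  · exact Or.inr (od (cj mu) hcj h0 h)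

theorem large (n : ℕ) (h : 37 ≤ n) : ∃ lam : ℕ → ℕ, IsPart lam n ∧
    (∃ r, lam r = 0 ∧ r < lam 0) ∧
    ∀ mu : ℕ → ℕ, IsPart mu n → G lam lam mu ∨ G lam lam (cj mu) := by
  obtain ⟨k, t, hk, h1, ht, hn⟩ := sx30_choose n h
  have hae : t = 2 * ((t - 2 * (t / 8)) / 2) + (t - 2 * (t / 8)) % 2 + 2 * (t / 8) := by omega
  have he : (t - 2 * (t / 8)) % 2 ≤ 1 := by omega
  have hba : t / 8 ≤ (t - 2 * (t / 8)) / 2 := by omega
  refine ⟨lamF k ((t - 2 * (t / 8)) / 2) ((t - 2 * (t / 8)) % 2) (t / 8), ?_, ⟨k, ?_, ?_⟩, ?_⟩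
  · exact sx30_isPart _ _ _ _ n hk hba (by rw [← hae]; exact hn)
  · unfold lamF
    rw [if_neg (by omega), if_neg (by omega), if_neg (by omega)]
    omega
  · unfold lamF
    rw [if_pos rfl]
    omega
  · intro mu hmu
    exact sx30_G k t _ _ _ n hk h1 ht rfl he hae hn mu hmu

end Pool.Saxl
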