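import Mathlib
import Pool.Agent.Helper139_Saxl.Defs
import Pool.Agent.Helper139_Saxl.Defs2
import Pool.Agent.Helper139_Saxl.SpDef
import Pool.Agent.Helper139_Saxl.J04
import Pool.Agent.Helper139_Saxl.J31
import Pool.Agent.Helper139_Saxl.J35
import Pool.Agent.Helper139_Saxl.J36

set_option autoImplicit false

/-! Job SX-37: restriction to the alternating group. -/

namespace Pool.Saxl

open Finset CategoryTheory
open scoped CategoryTheory.MonoidalCategory

theorem sx37_char (n : ℕ) (V : FDRep ℂ (Equiv.Perm (Fin n))) (g : alternatingGroup (Fin n)) :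
    (resA n V).character g = V.character g.1 := rfl

theorem sx37_sum (n : ℕ) (f : Equiv.Perm (Fin n) → ℂ) :
    ∑ x : alternatingGroup (Fin n), f x.1 = ∑ x : Equiv.Perm (Fin n),
      if Equiv.Perm.sign x = 1 then f x else 0 := by
  rw [← Finset.sum_filter]
  rw [← Finset.sum_subtype (Finset.univ.filter (fun x => Equiv.Perm.sign x = 1))
    (p := fun x => x ∈ alternatingGroup (Fin n)) (by intro x; simp [Equiv.Perm.mem_alternatingGroup]) f]

theorem sx37_two (n : ℕ) (f : Equiv.Perm (Fin n) → ℂ) :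
    2 * ∑ x : alternatingGroup (Fin n), f x.1 =
      ∑ x : Equiv.Perm (Fin n), f x + ∑ x : Equiv.Perm (Fin n), ((Equiv.Perm.sign x : ℤ) : ℂ) * f x := by
  rw [sx37_sum, Finset.mul_sum, ← Finset.sum_add_distrib]
  apply Finset.sum_congr rfl
  intro x _
  rcases Int.units_eq_one_or (Equiv.Perm.sign x) with h | h
  · rw [if_pos h, h]
    simp
    ring
  · rw [if_neg (by rw [h]; decide), h]
    simp

theorem sx37_dim (n : ℕ) (W : FDRep ℂ (alternatingGroup (Fin n))) (hW : Simple W) :
    W.character 1 ≠ 0 := by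
  intro h0
  rw [FDRep.char_one] at h0
  have h1 : Module.finrank ℂ W = 0 := by exact_mod_cast h0
  have h2 : Subsingleton W := Module.finrank_zero_iff.1 h1
  have h3 := (FDRep.simple_iff_char_is_norm_one W).1 hW
  have h4 : ∀ g, W.character g = 0 := by
    intro g
    have h5 : W.ρ g = 0 := by
      ext x
      exact Subsingleton.elim _ _
    show LinearMap.trace ℂ W (W.ρ g) = 0
    rw [h5, map_zero]
  simp only [h4, mul_zero, Finset.sum_const_zero] at h3
  have h6 : (Nat.card (alternatingGroup (Fin n)) : ℂ) ≠ 0 := by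
    exact_mod_cast Nat.card_pos.ne'
  exact h6 h3.symm

open Classical in
/-- extension by zero -/
noncomputable def sx37_F (n : ℕ) (W : FDRep ℂ (alternatingGroup (Fin n)))
    (y : Equiv.Perm (Fin n)) : ℂ :=
  if h : y ∈ alternatingGroup (Fin n) then W.character ⟨y, h⟩ else 0

/-- the induced character (not normalised) -/
noncomputable def sx37_psi (n : ℕ) (W : FDRep ℂ (alternatingGroup (Fin n)))
    (x : Equiv.Perm (Fin n)) : ℂ := ∑ g : Equiv.Perm (Fin n), sx37_F n W (g * x * g⁻¹)

theorem sx37_psi_conj (n : ℕ) (W : FDRep ℂ (alternatingGroup (Fin n))) (g h : Equiv.Perm (Fin n)) :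
    sx37_psi n W (h * g * h⁻¹) = sx37_psi n W g := by
  unfold sx37_psi
  apply Fintype.sum_equiv (Equiv.mulRight h)
  intro x
  show sx37_F n W (x * (h * g * h⁻¹) * x⁻¹) = sx37_F n W (x * h * g * (x * h)⁻¹)
  rw [show x * (h * g * h⁻¹) * x⁻¹ = x * h * g * (x * h)⁻¹ by group]

theorem sx37_psi_sum (n : ℕ) (W : FDRep ℂ (alternatingGroup (Fin n)))
    (V : FDRep ℂ (Equiv.Perm (Fin n))) :
    ∑ x, sx37_psi n W x * V.character x⁻¹ =
      (Fintype.card (Equiv.Perm (Fin n)) : ℂ) *
        ∑ x : alternatingGroup (Fin n), (resA n V).character x * W.character x⁻¹ := by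
  have h1 : ∀ g : Equiv.Perm (Fin n), ∑ x, sx37_F n W (g * x * g⁻¹) * V.character x⁻¹ =
      ∑ y, sx37_F n W y * V.character y⁻¹ := by
    intro g
    apply Fintype.sum_equiv (MulAut.conj g).toEquiv
    intro x
    show sx37_F n W (g * x * g⁻¹) * V.character x⁻¹ = sx37_F n W (g * x * g⁻¹) * V.character (g * x * g⁻¹)⁻¹
    rw [show (g * x * g⁻¹)⁻¹ = g * x⁻¹ * g⁻¹ by group, FDRep.char_conj]
  have h2 : ∑ y, sx37_F n W y * V.character y⁻¹ =
      ∑ x : alternatingGroup (Fin n), W.character x * V.character (x.1)⁻¹ := by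
    have h3 : ∀ x : alternatingGroup (Fin n), W.character x * V.character (x.1)⁻¹ =
        sx37_F n W x.1 * V.character (x.1)⁻¹ := by
      intro x
      unfold sx37_F
      rw [dif_pos x.2]
    rw [Finset.sum_congr rfl (fun x _ => h3 x), sx37_sum n (fun y => sx37_F n W y * V.character y⁻¹)]
    apply Finset.sum_congr rfl
    intro x _
    by_cases hx : Equiv.Perm.sign x = 1
    · rw [if_pos hx]
    · rw [if_neg hx]
      unfold sx37_F
      rw [dif_neg (fun h => hx (Equiv.Perm.mem_alternatingGroup.1 h)), zero_mul]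
  unfold sx37_psi
  simp_rw [Finset.sum_mul]
  rw [Finset.sum_comm, Finset.sum_congr rfl (fun g _ => h1 g), Finset.sum_const, h2,
    nsmul_eq_mul, Finset.card_univ]
  congr 1
  apply Fintype.sum_equiv (Equiv.inv _)
  intro x
  show W.character x * V.character (x.1)⁻¹ = (resA n V).character x⁻¹ * W.character (x⁻¹)⁻¹
  rw [inv_inv, mul_comm]
  rfl

theorem sx37_hom (n : ℕ) (W : FDRep ℂ (alternatingGroup (Fin n))) (X : FDRep ℂ (alternatingGroup (Fin n)))
    (h : ∑ x : alternatingGroup (Fin n), X.character x * W.character x⁻¹ ≠ 0) :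
    ∃ f : W ⟶ X, f ≠ 0 := by
  have h6 : (Nat.card (alternatingGroup (Fin n)) : ℂ) ≠ 0 := by
    exact_mod_cast Nat.card_pos.ne'
  have : Invertible (Nat.card (alternatingGroup (Fin n)) : ℂ) := invertibleOfNonzero h6
  have h1 := FDRep.scalar_product_char_eq_finrank_equivariant W X
  have h2 : Module.finrank ℂ (W ⟶ X) ≠ 0 := by
    intro h0
    rw [h0, Nat.cast_zero] at h1
    rcases mul_eq_zero.1 h1 with h3 | h3
    · exact h6 (inv_eq_zero.1 h3)
    · exact h h3
  exact (Module.finrank_pos_iff_exists_ne_zero (R := ℂ)).mp (Nat.pos_of_ne_zero h2)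

theorem resA_simple (n : ℕ) (hn : 2 ≤ n) (lam : ℕ → ℕ) (h : IsPart lam n) (hne : cj lam ≠ lam) :
    Simple (resA n (Sp n lam)) := by
  have : NeZero n := ⟨by omega⟩
  have : Nontrivial (Fin n) := Fin.nontrivial_iff_two_le.2 hn
  rw [FDRep.simple_iff_char_is_norm_one]
  have h1 : ∑ x : alternatingGroup (Fin n), (resA n (Sp n lam)).character x *
      (resA n (Sp n lam)).character x⁻¹ =
      ∑ x : alternatingGroup (Fin n), (Sp n lam).character x.1 * (Sp n lam).character (x.1)⁻¹ := rfl
  have h6 : (Nat.card (Equiv.Perm (Fin n)) : ℂ) ≠ 0 := by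
    exact_mod_cast Nat.card_pos.ne'
  have : Invertible (Nat.card (Equiv.Perm (Fin n)) : ℂ) := invertibleOfNonzero h6
  have := Sp_simple n lam h
  have := Sp_simple n (cj lam) (isPart_cj lam n h)
  have h2 := sx37_two n (fun x => (Sp n lam).character x * (Sp n lam).character x⁻¹)
  have h3 := (FDRep.simple_iff_char_is_norm_one (Sp n lam)).1 (Sp_simple n lam h)
  have h4 := FDRep.char_orthonormal (Sp n (cj lam)) (Sp n lam)
  rw [if_neg (fun hi => hne (Sp_inj n _ _ (isPart_cj lam n h) h hi))] at h4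
  have h5 : ∑ g, (Sp n (cj lam)).character g * (Sp n lam).character g⁻¹ = 0 := by
    rcases mul_eq_zero.1 h4 with h7 | h7
    · exact absurd (inv_eq_zero.1 h7) h6
    · exact h7
  have h8 : ∑ x : Equiv.Perm (Fin n), ((Equiv.Perm.sign x : ℤ) : ℂ) *
      ((Sp n lam).character x * (Sp n lam).character x⁻¹) = 0 := by
    rw [← h5]
    apply Finset.sum_congr rfl
    intro x _
    rw [Sp_conj n lam h, mul_assoc]
  rw [h8, add_zero, h3] at h2
  rw [h1]
  have h9 := two_mul_card_alternatingGroup (α := Fin n)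
  have h10 : (2:ℂ) * (Fintype.card (alternatingGroup (Fin n)) : ℂ) = (Fintype.card (Equiv.Perm (Fin n)) : ℂ) := by
    exact_mod_cast h9
  simp only [Nat.card_eq_fintype_card] at h2 ⊢
  rw [← h10] at h2
  exact mul_left_cancel₀ two_ne_zero h2

theorem resA_hom (n : ℕ) (W : FDRep ℂ (alternatingGroup (Fin n))) (hW : Simple W) :
    ∃ lam : ℕ → ℕ, IsPart lam n ∧ (∃ f : W ⟶ resA n (Sp n lam), f ≠ 0) ∧
      ∃ f : W ⟶ resA n (Sp n (cj lam)), f ≠ 0 := by
  have h1 : sx37_psi n W ≠ 0 := by
    intro h0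
    have h2 : sx37_psi n W 1 = 0 := by rw [h0]; rfl
    unfold sx37_psi at h2
    have h3 : ∀ g : Equiv.Perm (Fin n), sx37_F n W (g * 1 * g⁻¹) = W.character 1 := by
      intro g
      rw [mul_one, mul_inv_cancel]
      unfold sx37_F
      rw [dif_pos (one_mem (alternatingGroup (Fin n)))]
      rfl
    rw [Finset.sum_congr rfl (fun g _ => h3 g), Finset.sum_const, nsmul_eq_mul] at h2
    rcases mul_eq_zero.1 h2 with h4 | h4
    · rw [Finset.card_univ] at h4
      exact Fintype.card_ne_zero (α := Equiv.Perm (Fin n)) (by exact_mod_cast h4)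
    · exact sx37_dim n W hW h4
  have h2 : ∃ lam : ℕ → ℕ, IsPart lam n ∧ ∑ g, sx37_psi n W g * (Sp n lam).character g⁻¹ ≠ 0 := by
    by_contra hcon
    push Not at hcon
    exact h1 (class_zero n _ (fun g h => sx37_psi_conj n W g h) hcon)
  obtain ⟨lam, hl, h3⟩ := h2
  rw [sx37_psi_sum] at h3
  have h4 := right_ne_zero_of_mul h3
  refine ⟨lam, hl, sx37_hom n W _ h4, sx37_hom n W _ ?_⟩
  have h5 : ∀ x : alternatingGroup (Fin n), (resA n (Sp n (cj lam))).character x =
      (resA n (Sp n lam)).character x := by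
    intro x
    rw [sx37_char, sx37_char, Sp_conj n lam hl, Equiv.Perm.mem_alternatingGroup.1 x.2]
    simp
  simp only [h5]
  exact h4

end Pool.Saxl
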