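import Mathlib
import Pool.Agent.Helper139_Saxl.Defs
import Pool.Agent.Helper139_Saxl.Defs2
import Pool.Agent.Helper139_Saxl.SpDef
import Pool.Agent.Helper139_Saxl.J03
import Pool.Agent.Helper139_Saxl.J02
import Pool.Agent.Helper139_Saxl.J31
import Pool.Agent.Helper139_Saxl.J35

set_option autoImplicit false

/-! Job SX-38: from tri to the tensor product. -/

namespace Pool.Saxl

open Finset CategoryTheory
open scoped CategoryTheory.MonoidalCategory

theorem sx38_row_lt {n : ℕ} {row col : Fin n → ℕ} {mu : ℕ → ℕ} (h : IsTab row col mu) (hp : IsPart mu n)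
    (x : Fin n) : row x < n := by
  by_contra hcon
  push Not at hcon
  have h0 := hp.zero (row x) hcon
  have h1 := h.card (row x)
  rw [h0, Finset.card_eq_zero] at h1
  have : x ∈ (univ.filter fun y => row y = row x) := by simp
  rw [h1] at this
  simp at this

open TensorProduct in
theorem sx38_gen {H V W : Type} [Group H] [Fintype H] [AddCommGroup V] [Module ℂ V] [FiniteDimensional ℂ V]
    [AddCommGroup W] [Module ℂ W] [FiniteDimensional ℂ W] (ρ : Representation ℂ H V) (σ : Representation ℂ H W)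
    (L : TensorProduct ℂ (TensorProduct ℂ V V) W →ₗ[ℂ] ℂ) (hL : L ≠ 0)
    (hinv : ∀ h a b c, L ((ρ h a ⊗ₜ[ℂ] ρ h b) ⊗ₜ[ℂ] σ h c) = L ((a ⊗ₜ[ℂ] b) ⊗ₜ[ℂ] c)) :
    ∑ g : H, ρ.character g * ρ.character g * σ.character g ≠ 0 := by
  classical
  set T := Representation.tprod (Representation.tprod ρ ρ) σ with hT
  have hi : L ∈ Representation.invariants T.dual := by
    rw [Representation.mem_invariants]
    intro g
    have : L ∘ₗ T g⁻¹ = L := by
      refine TensorProduct.ext_threefold (fun a b c => ?_)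
      exact hinv g⁻¹ a b c
    exact this
  have hc0 : (Nat.card H : ℂ) ≠ 0 := by exact_mod_cast Nat.card_pos.ne'
  let _ : Invertible (Nat.card H : ℂ) := invertibleOfNonzero hc0
  have hfr := Representation.card_inv_mul_sum_char_eq_finrank T.dual
  have hpos : Module.finrank ℂ (Representation.invariants T.dual) ≠ 0 := by
    have : Nontrivial (Representation.invariants T.dual) :=
      ⟨⟨⟨_, hi⟩, 0, fun hc => hL (congrArg Subtype.val hc)⟩⟩
    exact Module.finrank_pos.ne'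
  intro hzero
  apply hpos
  have hsum : ∑ g : H, T.dual.character g = 0 := by
    rw [← hzero]
    refine Fintype.sum_equiv (Equiv.inv _) _ _ (fun g => ?_)
    rw [Representation.char_dual, hT, Representation.char_tensor, Representation.char_tensor]
    rfl
  rw [hsum, mul_zero] at hfr
  exact_mod_cast hfr.symm

/-- the functional on one factor -/
noncomputable def sx38_phi (n : ℕ) (lam : ℕ → ℕ) (w : Fin n → Fin n) (g : Equiv.Perm (Fin n)) :
    (Sp n lam) →ₗ[ℂ] ℂ :=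
  ((LinearMap.proj (R := ℂ) (φ := fun _ : Fin n → Fin n => ℂ) (w ∘ g)) ∘ₗ (spSub n lam).toSubmodule.subtype :
    (spSub n lam).toSubmodule →ₗ[ℂ] ℂ)

/-- an element of the Specht module -/
def sx38_el (n : ℕ) (lam : ℕ → ℕ) (f : FW n) (hf : f ∈ (spSub n lam).toSubmodule) : Sp n lam :=
  (⟨f, hf⟩ : (spSub n lam).toSubmodule)

theorem sx38_phi_el (n : ℕ) (lam : ℕ → ℕ) (w : Fin n → Fin n) (g : Equiv.Perm (Fin n)) (f : FW n)
    (hf : f ∈ (spSub n lam).toSubmodule) : sx38_phi n lam w g (sx38_el n lam f hf) = f (w ∘ g) := rfl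

theorem sx38_phi_rho (n : ℕ) (lam : ℕ → ℕ) (w : Fin n → Fin n) (g h : Equiv.Perm (Fin n)) (v : Sp n lam) :
    sx38_phi n lam w g ((Sp n lam).ρ h v) = sx38_phi n lam w (g * h) v := rfl

noncomputable def sx38_L (n : ℕ) (lam mu : ℕ → ℕ) (w1 w2 w3 : Fin n → Fin n) :
    TensorProduct ℂ (TensorProduct ℂ (Sp n lam) (Sp n lam)) (Sp n mu) →ₗ[ℂ] ℂ :=
  ∑ g : Equiv.Perm (Fin n), (LinearMap.mul' ℂ ℂ) ∘ₗ TensorProduct.map
    ((LinearMap.mul' ℂ ℂ) ∘ₗ TensorProduct.map (sx38_phi n lam w1 g) (sx38_phi n lam w2 g)) (sx38_phi n mu w3 g)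

theorem sx38_L_apply (n : ℕ) (lam mu : ℕ → ℕ) (w1 w2 w3 : Fin n → Fin n) (a b : Sp n lam) (c : Sp n mu) :
    sx38_L n lam mu w1 w2 w3 ((a ⊗ₜ[ℂ] b) ⊗ₜ[ℂ] c)
      = ∑ g : Equiv.Perm (Fin n), sx38_phi n lam w1 g a * sx38_phi n lam w2 g b * sx38_phi n mu w3 g c := by
  unfold sx38_L
  rw [LinearMap.sum_apply]
  refine Finset.sum_congr rfl (fun g _ => ?_)
  simp

theorem sx38_L_inv (n : ℕ) (lam mu : ℕ → ℕ) (w1 w2 w3 : Fin n → Fin n) (h : Equiv.Perm (Fin n))
    (a b : Sp n lam) (c : Sp n mu) :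
    sx38_L n lam mu w1 w2 w3 (((Sp n lam).ρ h a ⊗ₜ[ℂ] (Sp n lam).ρ h b) ⊗ₜ[ℂ] (Sp n mu).ρ h c)
      = sx38_L n lam mu w1 w2 w3 ((a ⊗ₜ[ℂ] b) ⊗ₜ[ℂ] c) := by
  rw [sx38_L_apply, sx38_L_apply]
  refine Fintype.sum_equiv (Equiv.mulRight h) _ _ (fun g => ?_)
  rw [sx38_phi_rho, sx38_phi_rho, sx38_phi_rho]
  rfl

theorem sx38_sum_ne (n : ℕ) (lam mu : ℕ → ℕ) (h : IsPart lam n) (h' : IsPart mu n) (hG : G lam lam mu) :
    ∑ g : Equiv.Perm (Fin n), (Sp n lam).character g * (Sp n lam).character g * (Sp n mu).character g ≠ 0 := by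
  classical
  obtain ⟨r1, c1, r2, c2, r3, c3, t1, t2, t3, w1, w2, w3, hw⟩ :=
    (G_iff (Ω := Fin n) lam lam mu (Or.inl (by simpa using h))).mp hG
  obtain ⟨g1, g2, g3, e1, e2, e3⟩ := tri_word hw
  have l1 : ∀ x, w1 x < n := fun x => by rw [e1]; exact sx38_row_lt t1.toIsTab h _
  have l2 : ∀ x, w2 x < n := fun x => by rw [e2]; exact sx38_row_lt t2.toIsTab h _
  have l3 : ∀ x, w3 x < n := fun x => by rw [e3]; exact sx38_row_lt t3.toIsTab h' _
  set v1 : Fin n → Fin n := fun x => ⟨w1 x, l1 x⟩ with hv1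
  set v2 : Fin n → Fin n := fun x => ⟨w2 x, l2 x⟩ with hv2
  set v3 : Fin n → Fin n := fun x => ⟨w3 x, l3 x⟩ with hv3
  have m1 : ev r1 c1 ∈ (spSub n lam).toSubmodule := Submodule.subset_span ⟨r1, c1, t1.toIsTab, rfl⟩
  have m2 : ev r2 c2 ∈ (spSub n lam).toSubmodule := Submodule.subset_span ⟨r2, c2, t2.toIsTab, rfl⟩
  have m3 : ev r3 c3 ∈ (spSub n mu).toSubmodule := Submodule.subset_span ⟨r3, c3, t3.toIsTab, rfl⟩
  have hL : sx38_L n lam mu v1 v2 v3 ≠ 0 := by
    intro h0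
    have h1 := sx38_L_apply n lam mu v1 v2 v3 (sx38_el n lam _ m1) (sx38_el n lam _ m2) (sx38_el n mu _ m3)
    rw [h0, LinearMap.zero_apply] at h1
    simp only [sx38_phi_el] at h1
    apply hw
    have h2 : ((tri r1 c1 r2 c2 r3 c3 w1 w2 w3 : ℤ) : ℂ) = 0 := by
      rw [h1]
      unfold tri
      push_cast
      rfl
    exact_mod_cast h2
  exact sx38_gen (Sp n lam).ρ (Sp n mu).ρ (sx38_L n lam mu v1 v2 v3) hL
    (fun h a b c => sx38_L_inv n lam mu v1 v2 v3 h a b c)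

theorem sx38_char_inv (n : ℕ) (V : FDRep ℂ (Equiv.Perm (Fin n))) (g : Equiv.Perm (Fin n)) :
    V.character g⁻¹ = V.character g := by
  have hc : IsConj g g⁻¹ := by
    rw [Equiv.Perm.isConj_iff_cycleType_eq, Equiv.Perm.cycleType_inv]
  obtain ⟨c, hc⟩ := isConj_iff.mp hc
  rw [← hc, FDRep.char_conj]

/-- nonvanishing of `tri` gives a constituent of the tensor product -/
theorem Sp_tensor (n : ℕ) (lam mu : ℕ → ℕ) (h : IsPart lam n) (h' : IsPart mu n)
    (hG : G lam lam mu) : ∃ f : Sp n mu ⟶ Sp n lam ⊗ Sp n lam, f ≠ 0 := by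
  classical
  have : Invertible (Nat.card (Equiv.Perm (Fin n)) : ℂ) :=
    invertibleOfNonzero (by exact_mod_cast Nat.card_pos.ne')
  have hs := FDRep.scalar_product_char_eq_finrank_equivariant (Sp n mu) (Sp n lam ⊗ Sp n lam)
  have hne := sx38_sum_ne n lam mu h h' hG
  have hfr : Module.finrank ℂ (Sp n mu ⟶ Sp n lam ⊗ Sp n lam) ≠ 0 := by
    intro h0
    rw [h0] at hs
    simp only [Nat.cast_zero, mul_eq_zero, inv_eq_zero] at hs
    rcases hs with hs | hs
    · have : (Nat.card (Equiv.Perm (Fin n)) : ℂ) ≠ 0 := by exact_mod_cast Nat.card_pos.ne'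
      exact this hs
    · apply hne
      rw [← hs]
      refine Finset.sum_congr rfl (fun g _ => ?_)
      rw [sx38_char_inv, FDRep.char_tensor, Pi.mul_apply]
  have : Nontrivial (Sp n mu ⟶ Sp n lam ⊗ Sp n lam) := by
    by_contra hcon
    rw [not_nontrivial_iff_subsingleton] at hcon
    exact hfr Module.finrank_zero_of_subsingleton
  exact exists_ne 0

theorem resA_tensor (n : ℕ) (lam mu : ℕ → ℕ) (h : IsPart mu n)
    (f : Sp n mu ⟶ Sp n lam ⊗ Sp n lam) (hf : f ≠ 0) (W : FDRep ℂ (alternatingGroup (Fin n)))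
    (g : W ⟶ resA n (Sp n mu)) (hg : g ≠ 0) :
    ∃ f : W ⟶ resA n (Sp n lam) ⊗ resA n (Sp n lam), f ≠ 0 := by
  have := Sp_simple n mu h
  have hm : Mono f := mono_of_nonzero_from_simple hf
  have hm' : Mono f.hom := inferInstanceAs (Mono ((Action.forget (FGModuleCat ℂ) (Equiv.Perm (Fin n))).map f))
  let f' : (resA n (Sp n mu)).V ⟶ (resA n (Sp n lam) ⊗ resA n (Sp n lam)).V := f.hom
  refine ⟨⟨g.hom ≫ f', ?_⟩, ?_⟩
  · intro a
    have hg' := g.comm a
    have hf' : Action.ρ (resA n (Sp n mu)) a ≫ f' = f' ≫ Action.ρ (resA n (Sp n lam) ⊗ resA n (Sp n lam)) a :=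
      f.comm (a : Equiv.Perm (Fin n))
    rw [← Category.assoc, hg', Category.assoc, hf', Category.assoc]
  · intro h0
    have h1 : g.hom ≫ f' = 0 := congrArg Action.Hom.hom h0
    have hm'' : Mono f' := hm'
    have h2 : g.hom = 0 := by
      rw [← cancel_mono f', h1, Limits.zero_comp]
    apply hg
    ext1
    exact h2

end Pool.Saxl
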