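import Mathlib
import Pool.Agent.Helper139_Saxl.Defs
import Pool.Agent.Helper139_Saxl.Defs2
import Pool.Agent.Helper139_Saxl.SpDef
import Pool.Agent.Helper139_Saxl.J04
import Pool.Agent.Helper139_Saxl.J31
import Pool.Agent.Helper139_Saxl.J35
import Pool.Agent.Helper139_Saxl.J37
import Pool.Agent.Helper139_Saxl.J38

set_option autoImplicit false

/-! Job SX-39: final assembly of the representation part. -/

namespace Pool.Saxl

open Finset CategoryTheory
open scoped CategoryTheory.MonoidalCategory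

theorem final (h : ∀ n : ℕ, 4 ≤ n → ∃ lam : ℕ → ℕ, IsPart lam n ∧ (∃ r, lam r = 0 ∧ r < lam 0) ∧
    ∀ mu : ℕ → ℕ, IsPart mu n → G lam lam mu ∨ G lam lam (cj mu)) :
    ∀ n : ℕ, 4 ≤ n → ∃ V : FDRep ℂ (alternatingGroup (Fin n)), Simple V ∧
      ∀ W : FDRep ℂ (alternatingGroup (Fin n)), Simple W → ∃ f : W ⟶ V ⊗ V, f ≠ 0 := by
  intro n hn
  obtain ⟨lam, hlam, ⟨r, hr0, hr1⟩, hG⟩ := h n hn
  have hne : cj lam ≠ lam := by
    intro he
    have h1 := (lt_cj_iff lam n hlam r 0).1 (by rw [he]; exact hr1)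
    omega
  refine ⟨resA n (Sp n lam), resA_simple n (by omega) lam hlam hne, fun W hW => ?_⟩
  obtain ⟨mu, hmu, ⟨f1, hf1⟩, ⟨f2, hf2⟩⟩ := resA_hom n W hW
  rcases hG mu hmu with h1 | h1
  · obtain ⟨f, hf⟩ := Sp_tensor n lam mu hlam hmu h1
    exact resA_tensor n lam mu hmu f hf W f1 hf1
  · obtain ⟨f, hf⟩ := Sp_tensor n lam (cj mu) hlam (isPart_cj mu n hmu) h1
    exact resA_tensor n lam (cj mu) (isPart_cj mu n hmu) f hf W f2 hf2

end Pool.Saxl
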