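import Mathlib
import Pool.Agent.Helper139_Saxl.J29
import Pool.Agent.Helper139_Saxl.J30
import Pool.Agent.Helper139_Saxl.J39

set_option autoImplicit false

/-! The conjecture of Heide, Saxl, Tiep and Zalesskii for alternating groups. -/

namespace Pool.Saxl

open CategoryTheory
open scoped CategoryTheory.MonoidalCategory

/-- For every `n ≥ 4` some irreducible complex representation of `A_n` has a tensor square which
contains every irreducible representation. -/
theorem main : ∀ n : ℕ, 4 ≤ n → ∃ V : FDRep ℂ (alternatingGroup (Fin n)), Simple V ∧
    ∀ W : FDRep ℂ (alternatingGroup (Fin n)), Simple W → ∃ f : W ⟶ V ⊗ V, f ≠ 0 := by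
  apply final
  intro n hn
  by_cases h : n ≤ 36
  · exact small n hn h
  · exact large n (by omega)

end Pool.Saxl
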